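import Pool.Agent.H48.SF.Defs

/-!
The binomial moment bound.
-/

set_option autoImplicit false

namespace Pool.Agent.H48.SF

open Finset Classical
open Pool.Agent.H95.Gol (bb PB)
open Pool.Agent.H41.Per (PM)
open Pool.Agent.H48.AP (F H Vx Sparse oddCount)

theorem bm_pow (S x : ℝ) (hS : 0 ≤ S) (hx : 0 ≤ x) (k : ℕ) :
    S ^ (k + 1) + (k + 1) * x * S ^ k ≤ (S + x) ^ (k + 1) := by
  induction k with
  | zero => simp
  | succ k ih =>
    have h1 : (S + x) ^ (k + 1 + 1) = (S + x) ^ (k + 1) * (S + x) := pow_succ _ _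
    have h2 : (S ^ (k + 1) + (k + 1) * x * S ^ k) * (S + x) ≤ (S + x) ^ (k + 1) * (S + x) :=
      mul_le_mul_of_nonneg_right ih (by positivity)
    have h3 : 0 ≤ ((k : ℝ) + 1) * x * S ^ k * x := by positivity
    rw [h1]
    refine le_trans ?_ h2
    have h4 : (S ^ (k + 1) + ((k : ℝ) + 1) * x * S ^ k) * (S + x) =
        S ^ (k + 1 + 1) + ((k : ℝ) + 1 + 1) * x * S ^ (k + 1) + ((k : ℝ) + 1) * x * S ^ k * x := by
      ring
    rw [h4]
    push_cast
    linarith

/-- `k!` times the elementary symmetric sum is at most the power of the sum -/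
theorem bm_esymm {ι : Type} (I : Finset ι) (x : ι → ℝ) (k : ℕ) :
    (∀ i ∈ I, 0 ≤ x i) →
    (k.factorial : ℝ) * ∑ J ∈ I.powersetCard k, ∏ i ∈ J, x i ≤ (∑ i ∈ I, x i) ^ k := by
  induction I using Finset.induction_on generalizing k with
  | empty =>
    intro _
    cases k with
    | zero => simp
    | succ k =>
      have : (∅ : Finset ι).powersetCard (k + 1) = ∅ := by
        apply Finset.powersetCard_eq_empty.2
        simp
      rw [this]
      simp
  | insert a I ha ih =>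
    intro hx
    have hxa : 0 ≤ x a := hx a (mem_insert_self _ _)
    have hxI : ∀ i ∈ I, 0 ≤ x i := fun i hi => hx i (mem_insert_of_mem hi)
    have hS : 0 ≤ ∑ i ∈ I, x i := sum_nonneg hxI
    cases k with
    | zero => simp
    | succ k =>
      have h1 : ∑ J ∈ (insert a I).powersetCard (k + 1), ∏ i ∈ J, x i =
          (∑ J ∈ I.powersetCard (k + 1), ∏ i ∈ J, x i) +
            x a * ∑ J ∈ I.powersetCard k, ∏ i ∈ J, x i := by
        rw [Finset.powersetCard_succ_insert ha, Finset.sum_union, Finset.sum_image, mul_sum]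
        · congr 1
          refine sum_congr rfl fun J hJ => ?_
          have haJ : a ∉ J := fun h => ha ((mem_powersetCard.1 hJ).1 h)
          rw [prod_insert haJ]
        · intro J hJ J' hJ' h
          have haJ : a ∉ J := fun h => ha ((mem_powersetCard.1 (by simpa using hJ)).1 h)
          have haJ' : a ∉ J' := fun h => ha ((mem_powersetCard.1 (by simpa using hJ')).1 h)
          have : (insert a J).erase a = (insert a J').erase a := by
            have h' : insert a J = insert a J' := h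
            rw [h']
          rwa [erase_insert haJ, erase_insert haJ'] at this
        · rw [Finset.disjoint_left]
          intro J hJ hJ'
          obtain ⟨J1, _, rfl⟩ := mem_image.1 hJ'
          exact ha ((mem_powersetCard.1 hJ).1 (mem_insert_self _ _))
      rw [h1, sum_insert ha, add_comm (x a)]
      have e1 := ih (k + 1) hxI
      have e2 := ih k hxI
      have e3 : ((k + 1).factorial : ℝ) = (k + 1) * k.factorial := by
        rw [Nat.factorial_succ]; push_cast; ring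
      have e4 := bm_pow (∑ i ∈ I, x i) (x a) hS hxa k
      have e5 : ((k + 1).factorial : ℝ) * ((∑ J ∈ I.powersetCard (k + 1), ∏ i ∈ J, x i) +
            x a * ∑ J ∈ I.powersetCard k, ∏ i ∈ J, x i) =
          ((k + 1).factorial : ℝ) * (∑ J ∈ I.powersetCard (k + 1), ∏ i ∈ J, x i) +
            (k + 1) * x a * ((k.factorial : ℝ) * ∑ J ∈ I.powersetCard k, ∏ i ∈ J, x i) := by
        rw [mul_add, e3]; ring
      rw [e5]
      have e6 : ((k : ℝ) + 1) * x a * ((k.factorial : ℝ) * ∑ J ∈ I.powersetCard k, ∏ i ∈ J, x i) ≤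
          (k + 1) * x a * (∑ i ∈ I, x i) ^ k :=
        mul_le_mul_of_nonneg_left e2 (by positivity)
      linarith

/-- CRT count -/
theorem bm_crt {ι : Type} (J : Finset ι) (q ω : ι → ℕ) (E : ι → ℕ → Prop)
    (hq : ∀ i ∈ J, 0 < q i) (hper : ∀ i ∈ J, ∀ a, E i a ↔ E i (a % q i))
    (hω : ∀ i ∈ J, ((range (q i)).filter (E i)).card ≤ ω i)
    (hc : ∀ i ∈ J, ∀ i' ∈ J, i ≠ i' → Nat.Coprime (q i) (q i')) (N : ℕ) :
    (((range N).filter (fun a => ∀ i ∈ J, E i a)).card : ℝ) ≤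
      N * ∏ i ∈ J, ((ω i : ℝ) / q i) + ∏ i ∈ J, (ω i : ℝ) := by
  set Q : ℕ := ∏ i ∈ J, q i with hQ
  have hQ0 : 0 < Q := prod_pos hq
  have h1 : ((range N).filter (fun a => ∀ i ∈ J, E i a)).card ≤
      ((range (N / Q + 1)) ×ˢ (J.pi (fun i => (range (q i)).filter (E i)))).card := by
    apply Finset.card_le_card_of_injOn (fun a => (a / Q, fun i _ => a % q i))
    · intro a ha
      have ha' := mem_filter.1 (mem_coe.1 ha)
      refine mem_coe.2 (mem_product.2 ⟨?_, ?_⟩)
      · refine mem_range.2 (Nat.lt_succ_of_le ?_)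
        exact Nat.div_le_div_right (mem_range.1 ha'.1).le
      · refine mem_pi.2 fun i hi => mem_filter.2 ⟨mem_range.2 (Nat.mod_lt _ (hq i hi)), ?_⟩
        exact (hper i hi a).1 (ha'.2 i hi)
    · intro a _ a' _ h
      have h0 : a / Q = a' / Q := (Prod.mk.inj h).1
      have h2 : ∀ i ∈ J, a % q i = a' % q i := by
        intro i hi
        have := (Prod.mk.inj h).2
        exact congrFun (congrFun this i) hi
      have h3 : (Q : ℤ) ∣ (a : ℤ) - a' := by
        rw [hQ]
        push_cast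
        apply Finset.prod_dvd_of_coprime
        · intro i hi i' hi' hne
          exact Nat.isCoprime_iff_coprime.2 (hc i hi i' hi' hne)
        · intro i hi
          have : (a' : ℤ) ≡ a [ZMOD q i] := by
            have := h2 i hi
            exact (Int.natCast_modEq_iff.2 (this.symm : a' ≡ a [MOD q i]))
          exact this.dvd
      have h4 : a ≡ a' [MOD Q] := by
        have : (a' : ℤ) ≡ a [ZMOD Q] := (Int.modEq_iff_dvd).2 h3
        exact ((Int.natCast_modEq_iff.1 this)).symm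
      have h5 : a % Q = a' % Q := h4
      calc a = Q * (a / Q) + a % Q := (Nat.div_add_mod a Q).symm
        _ = Q * (a' / Q) + a' % Q := by rw [h0, h5]
        _ = a' := Nat.div_add_mod a' Q
  rw [card_product, card_range, card_pi] at h1
  have h2 : ∏ i ∈ J, ((range (q i)).filter (E i)).card ≤ ∏ i ∈ J, ω i :=
    prod_le_prod (fun _ _ => Nat.zero_le _) hω
  have h3 : ((range N).filter (fun a => ∀ i ∈ J, E i a)).card ≤ (N / Q + 1) * ∏ i ∈ J, ω i :=
    h1.trans (Nat.mul_le_mul_left _ h2)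
  have h4 : (((range N).filter (fun a => ∀ i ∈ J, E i a)).card : ℝ) ≤
      (((N / Q : ℕ) : ℝ) + 1) * ∏ i ∈ J, (ω i : ℝ) := by
    have := (Nat.cast_le (α := ℝ)).2 h3
    push_cast at this
    exact this
  have h5 : ((N / Q : ℕ) : ℝ) ≤ (N : ℝ) / Q := Nat.cast_div_le
  have h6 : (0 : ℝ) ≤ ∏ i ∈ J, (ω i : ℝ) := prod_nonneg fun _ _ => Nat.cast_nonneg _
  refine h4.trans ?_
  rw [prod_div_distrib]
  have h7 : ((∏ i ∈ J, (q i : ℝ))) = (Q : ℝ) := by rw [hQ]; push_cast; rfl
  rw [h7]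
  have h8 : (((N / Q : ℕ) : ℝ) + 1) * ∏ i ∈ J, (ω i : ℝ) ≤
      ((N : ℝ) / Q + 1) * ∏ i ∈ J, (ω i : ℝ) :=
    mul_le_mul_of_nonneg_right (by linarith) h6
  refine h8.trans (le_of_eq ?_)
  ring

/-- `k!` times the number of pairs (`a < N`, `k`-set of events with pairwise coprime moduli that all
happen at `a`) is at most `N μ^k + (∑ ω)^k` -/
theorem bm {ι : Type} (I : Finset ι) (q ω : ι → ℕ) (E : ι → ℕ → Prop)
    (hq : ∀ i ∈ I, 0 < q i) (hper : ∀ i ∈ I, ∀ a, E i a ↔ E i (a % q i))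
    (hω : ∀ i ∈ I, ((range (q i)).filter (E i)).card ≤ ω i) (k N : ℕ) :
    (k.factorial : ℝ) * ∑ a ∈ range N, (((I.powersetCard k).filter (fun J : Finset ι =>
        (∀ i ∈ J, ∀ i' ∈ J, i ≠ i' → Nat.Coprime (q i) (q i')) ∧ ∀ i ∈ J, E i a)).card : ℝ) ≤
      N * (∑ i ∈ I, (ω i : ℝ) / q i) ^ k + (∑ i ∈ I, (ω i : ℝ)) ^ k := by
  have h0 : ∑ a ∈ range N, (((I.powersetCard k).filter (fun J : Finset ι =>
        (∀ i ∈ J, ∀ i' ∈ J, i ≠ i' → Nat.Coprime (q i) (q i')) ∧ ∀ i ∈ J, E i a)).card : ℝ) ≤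
      ∑ J ∈ I.powersetCard k, ((N : ℝ) * ∏ i ∈ J, ((ω i : ℝ) / q i) + ∏ i ∈ J, (ω i : ℝ)) := by
    have e1 : ∑ a ∈ range N, (((I.powersetCard k).filter (fun J : Finset ι =>
        (∀ i ∈ J, ∀ i' ∈ J, i ≠ i' → Nat.Coprime (q i) (q i')) ∧ ∀ i ∈ J, E i a)).card : ℝ) =
        ∑ J ∈ I.powersetCard k, ∑ a ∈ range N,
          (if ((∀ i ∈ J, ∀ i' ∈ J, i ≠ i' → Nat.Coprime (q i) (q i')) ∧ ∀ i ∈ J, E i a) then
            (1 : ℝ) else 0) := by
      rw [sum_comm]
      refine sum_congr rfl fun a _ => ?_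
      rw [card_filter]
      push_cast
      rfl
    rw [e1]
    refine sum_le_sum fun J hJ => ?_
    have hJI : ∀ i ∈ J, i ∈ I := fun i hi => (mem_powersetCard.1 hJ).1 hi
    by_cases hC : ∀ i ∈ J, ∀ i' ∈ J, i ≠ i' → Nat.Coprime (q i) (q i')
    · have e2 : ∑ a ∈ range N,
          (if ((∀ i ∈ J, ∀ i' ∈ J, i ≠ i' → Nat.Coprime (q i) (q i')) ∧ ∀ i ∈ J, E i a) then
            (1 : ℝ) else 0) = (((range N).filter (fun a => ∀ i ∈ J, E i a)).card : ℝ) := by
        rw [card_filter]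
        push_cast
        refine sum_congr rfl fun a _ => ?_
        by_cases hE : ∀ i ∈ J, E i a
        · rw [if_pos ⟨hC, hE⟩, if_pos hE]
        · rw [if_neg (fun h => hE h.2), if_neg hE]
      rw [e2]
      exact bm_crt J q ω E (fun i hi => hq i (hJI i hi)) (fun i hi => hper i (hJI i hi))
        (fun i hi => hω i (hJI i hi)) hC N
    · have e2 : ∑ a ∈ range N,
          (if ((∀ i ∈ J, ∀ i' ∈ J, i ≠ i' → Nat.Coprime (q i) (q i')) ∧ ∀ i ∈ J, E i a) then
            (1 : ℝ) else 0) = 0 := by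
        refine sum_eq_zero fun a _ => ?_
        rw [if_neg (fun h => hC h.1)]
      rw [e2]
      have p1 : (0 : ℝ) ≤ ∏ i ∈ J, ((ω i : ℝ) / q i) := prod_nonneg fun _ _ => by positivity
      have p2 : (0 : ℝ) ≤ ∏ i ∈ J, (ω i : ℝ) := prod_nonneg fun _ _ => by positivity
      positivity
  have hk : (0 : ℝ) ≤ (k.factorial : ℝ) := Nat.cast_nonneg _
  refine (mul_le_mul_of_nonneg_left h0 hk).trans ?_
  rw [sum_add_distrib, ← mul_sum, mul_add]
  have h1 := bm_esymm I (fun i => (ω i : ℝ) / q i) k (fun i _ => by positivity)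
  have h2 := bm_esymm I (fun i => (ω i : ℝ)) k (fun i _ => by positivity)
  have hN : (0 : ℝ) ≤ N := Nat.cast_nonneg _
  have h3 := mul_le_mul_of_nonneg_left h1 hN
  calc (k.factorial : ℝ) * ((N : ℝ) * ∑ J ∈ I.powersetCard k, ∏ i ∈ J, ((ω i : ℝ) / q i)) +
        (k.factorial : ℝ) * ∑ J ∈ I.powersetCard k, ∏ i ∈ J, (ω i : ℝ)
      = (N : ℝ) * ((k.factorial : ℝ) * ∑ J ∈ I.powersetCard k, ∏ i ∈ J, ((ω i : ℝ) / q i)) +
        (k.factorial : ℝ) * ∑ J ∈ I.powersetCard k, ∏ i ∈ J, (ω i : ℝ) := by ring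
    _ ≤ _ := add_le_add h3 h2

end Pool.Agent.H48.SF
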