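import Pool.Agent.H48.SF.Defs
import Pool.Agent.H13.BT.Main

/-!
The Brun-Titchmarsh inequality for the sum of `1/p` over the window.
-/

set_option autoImplicit false

namespace Pool.Agent.H48.SF

open Finset Classical
open Pool.Agent.H95.Gol (bb PB)
open Pool.Agent.H41.Per (PM)
open Pool.Agent.H48.AP (F H Vx Sparse oddCount)

theorem bt_block : ∃ C : ℝ, 1 ≤ C ∧ ∀ k q c : ℕ, 1 ≤ q → q ^ 2 ≤ bb k →
    ∑ p ∈ (PB k).filter (fun p => p % q = c % q), (1 : ℝ) / p ≤ C / q.totient := by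
  obtain ⟨C, hC, h⟩ := Pool.Agent.H13.BT.sum_inv_class
  refine ⟨C + 1, by linarith, ?_⟩
  intro k q c hq hqk
  have h1 := h k q c hq hqk
  have hφ : (0 : ℝ) < q.totient := by exact_mod_cast Nat.totient_pos.2 hq
  refine le_trans (le_of_eq (sum_congr ?_ (fun _ _ => rfl))) (h1.trans ?_)
  · ext p
    constructor
    · intro hp
      have h2 := mem_filter.1 hp
      have h3 := mem_filter.1 h2.1
      exact mem_filter.2 ⟨h3.1, h3.2, h2.2⟩
    · intro hp
      have h2 := mem_filter.1 hp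
      exact mem_filter.2 ⟨mem_filter.2 ⟨h2.1, h2.2.1⟩, h2.2.2⟩
  · gcongr
    linarith

theorem BT_aux_range {C : ℝ} (h : ∀ k q c : ℕ, 1 ≤ q → q ^ 2 ≤ bb k →
    ∑ p ∈ (PB k).filter (fun p => p % q = c % q), (1 : ℝ) / p ≤ C / q.totient)
    (q c a : ℕ) (hq : 1 ≤ q) (hqa : q ^ 2 ≤ bb a) : ∀ d : ℕ,
    ∑ p ∈ ((Ioc (bb a) (bb (a + d))).filter Nat.Prime).filter (fun p => p % q = c % q),
      (1 : ℝ) / p ≤ d * (C / q.totient) := by
  intro d
  induction d with
  | zero => simp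
  | succ d ih =>
    have hmono : bb a ≤ bb (a + d) := Pool.Agent.H95.Gol.bb_mono (by omega)
    have hmono2 : bb (a + d) ≤ bb (a + d + 1) := Pool.Agent.H95.Gol.bb_mono (by omega)
    have hsub : ((Ioc (bb a) (bb (a + (d + 1)))).filter Nat.Prime).filter
          (fun p => p % q = c % q) ⊆
        ((Ioc (bb a) (bb (a + d))).filter Nat.Prime).filter (fun p => p % q = c % q) ∪
          (PB (a + d)).filter (fun p => p % q = c % q) := by
      intro p hp
      simp only [PB, mem_union, mem_filter, mem_Ioc] at hp ⊢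
      obtain ⟨⟨⟨h1, h2⟩, h3⟩, h4⟩ := hp
      by_cases hpd : p ≤ bb (a + d)
      · exact Or.inl ⟨⟨⟨h1, hpd⟩, h3⟩, h4⟩
      · exact Or.inr ⟨⟨⟨by omega, h2⟩, h3⟩, h4⟩
    have h5 : ∑ p ∈ ((Ioc (bb a) (bb (a + (d + 1)))).filter Nat.Prime).filter
          (fun p => p % q = c % q), (1 : ℝ) / p ≤
        ∑ p ∈ ((Ioc (bb a) (bb (a + d))).filter Nat.Prime).filter (fun p => p % q = c % q),
          (1 : ℝ) / p + ∑ p ∈ (PB (a + d)).filter (fun p => p % q = c % q), (1 : ℝ) / p := by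
      refine (sum_le_sum_of_subset_of_nonneg hsub (fun _ _ _ => by positivity)).trans ?_
      have := sum_union_inter (s₁ := ((Ioc (bb a) (bb (a + d))).filter Nat.Prime).filter
        (fun p => p % q = c % q)) (s₂ := (PB (a + d)).filter (fun p => p % q = c % q))
        (f := fun p : ℕ => (1 : ℝ) / p)
      have hnn : (0 : ℝ) ≤ ∑ p ∈ ((Ioc (bb a) (bb (a + d))).filter Nat.Prime).filter
        (fun p => p % q = c % q) ∩ (PB (a + d)).filter (fun p => p % q = c % q),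
        (1 : ℝ) / p := sum_nonneg (fun _ _ => by positivity)
      linarith
    have h6 := h (a + d) q c hq (hqa.trans hmono)
    push_cast
    linarith

theorem bt_window : ∃ C : ℝ, 1 ≤ C ∧ ∀ n q c : ℕ, 1 ≤ q → q ^ 2 ≤ bb (n / 2) →
    ∑ p ∈ (PW n).filter (fun p => p % q = c % q), (1 : ℝ) / p ≤ C * n / q.totient := by
  obtain ⟨C, hC, h⟩ := bt_block
  refine ⟨C, hC, ?_⟩
  intro n q c hq hqn
  have h1 := BT_aux_range h q c (n / 2) hq hqn (3 * n / 4 - n / 2)
  have h2 : n / 2 + (3 * n / 4 - n / 2) = 3 * n / 4 := by omega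
  rw [h2] at h1
  have hφ : (0 : ℝ) < q.totient := by exact_mod_cast Nat.totient_pos.2 hq
  refine h1.trans ?_
  have h3 : ((3 * n / 4 - n / 2 : ℕ) : ℝ) ≤ n := by
    exact_mod_cast (by omega : 3 * n / 4 - n / 2 ≤ n)
  have h4 : (0 : ℝ) ≤ C / q.totient := by positivity
  calc ((3 * n / 4 - n / 2 : ℕ) : ℝ) * (C / q.totient) ≤ n * (C / q.totient) := by gcongr
    _ = C * n / q.totient := by ring

end Pool.Agent.H48.SF
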