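import Pool.Agent.H48.SF.Roots

/-!
The number of bad residue classes.
-/

set_option autoImplicit false

namespace Pool.Agent.H48.SF

open Finset Classical
open Pool.Agent.H95.Gol (bb PB)
open Pool.Agent.H41.Per (PM)
open Pool.Agent.H48.AP (F H Vx Sparse oddCount)

/-- one residue class for each index -/
lemma bcCard (I : Finset ℕ) (N : ℕ) (P : ℕ → ℕ → Prop)
    (h : ∀ i ∈ I, ∀ p p' : ℕ, P i p → P i p' → (N : ℤ) ∣ (p : ℤ) - p') :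
    ∃ C : Finset ℕ, C.card ≤ I.card ∧ (∀ i ∈ I, ∀ p, P i p → p % N ∈ C) ∧
      ((∀ i ∈ I, ∀ p, ¬ P i p) → C = ∅) := by
  refine ⟨(I.filter (fun i => ∃ p, P i p)).image
    (fun i => if hh : ∃ p, P i p then hh.choose % N else 0), ?_, ?_, ?_⟩
  · exact Finset.card_image_le.trans (Finset.card_filter_le _ _)
  · intro i hi p hp
    rw [Finset.mem_image]
    have hh : ∃ p, P i p := ⟨p, hp⟩
    refine ⟨i, Finset.mem_filter.2 ⟨hi, hh⟩, ?_⟩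
    rw [dif_pos hh]
    exact (Nat.modEq_iff_dvd).2 (h i hi p hh.choose hp hh.choose_spec)
  · intro hh
    rw [Finset.image_eq_empty, Finset.filter_eq_empty_iff]
    rintro i hi ⟨p, hp⟩
    exact hh i hi p hp

lemma bcRR {m R R' r : ℤ} {τ : ℕ} (hτ : τ.Prime) (h3 : ¬ (τ : ℤ) ∣ 3 * m)
    (h1 : m ∣ R - r) (h2 : m ∣ R' - r) (hR : (τ : ℤ) ^ 2 ∣ R - R') :
    m * (τ : ℤ) ^ 2 ∣ R - R' := by
  have hp : Prime (τ : ℤ) := Nat.prime_iff_prime_int.1 hτ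
  have hm : ¬ (τ : ℤ) ∣ m := fun h => h3 (h.mul_left 3)
  have hc : IsCoprime m ((τ : ℤ) ^ 2) :=
    IsCoprime.pow_right ((Prime.coprime_iff_not_dvd hp).2 hm).symm
  refine hc.mul_dvd ?_ hR
  have h := dvd_sub h1 h2
  have e : R - r - (R' - r) = R - R' := by ring
  rwa [e] at h

theorem bad_classes {m r A B u v : ℤ} (hm : 0 < m) (hB : 0 < B) {τ : ℕ} (hτ : τ.Prime)
    (h3 : ¬ (τ : ℤ) ∣ 3 * m) (hA : IsCoprime A (3 * m * B)) (hv : IsCoprime v (3 * m * B))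
    (hu2 : ¬ (τ : ℤ) ^ 2 ∣ u) (hv2 : ¬ (τ : ℤ) ^ 2 ∣ v) {q : ℕ} (hq : (q : ℤ) = 3 * m ^ 2 * B) :
    ∃ C2 C1 : Finset ℕ, C2.card ≤ 4 ∧ C1.card ≤ 4 ∧
      (¬ (τ : ℤ) ∣ u → ¬ (τ : ℤ) ∣ v → C1 = ∅) ∧
      ∀ p : ℕ, BadP m r A B u v τ p → p % (q * τ ^ 2) ∈ C2 ∨ p % (q * τ) ∈ C1 := by
  have hp : Prime (τ : ℤ) := Nat.prime_iff_prime_int.1 hτ
  have hτ0 : (τ : ℤ) ≠ 0 := hp.ne_zero
  -- the roots modulo `τ²`
  set I : Finset ℕ :=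
    (range (τ ^ 2)).filter (fun t : ℕ => (τ : ℤ) ^ 2 ∣ 3 * (t : ℤ) ^ 2 + 3 * t + 1) with hI
  have hIc : I.card ≤ 2 := by
    apply quad_roots hτ 3 3 1 _ (by norm_num)
    intro h
    have e : (3 : ℤ) ^ 2 - 4 * 3 * 1 = 3 * (-1) := by norm_num
    rw [e] at h
    have h' : (τ : ℤ) ∣ 3 := by
      have := h.mul_right (-1)
      simpa using this
    exact h3 (h'.mul_right m)
  have hroot : ∀ R : ℤ, (τ : ℤ) ^ 2 ∣ f R → (R % ((τ : ℤ) ^ 2)).toNat ∈ I := by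
    intro R hR
    have hpos : (0 : ℤ) < (τ : ℤ) ^ 2 := by positivity
    have h0 := Int.emod_nonneg R hpos.ne'
    have h1 := Int.emod_lt_of_pos R hpos
    rw [hI, Finset.mem_filter, Finset.mem_range]
    refine ⟨?_, ?_⟩
    · zify
      rw [Int.toNat_of_nonneg h0]
      exact h1
    · rw [Int.toNat_of_nonneg h0]
      have h2 : (τ : ℤ) ^ 2 ∣ R - R % (τ : ℤ) ^ 2 := Int.dvd_self_sub_emod
      have h3 : (τ : ℤ) ^ 2 ∣ f R - (R - R % (τ : ℤ) ^ 2) *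
          (3 * (R + R % (τ : ℤ) ^ 2) + 3) := dvd_sub hR (h2.mul_right _)
      have e : f R - (R - R % (τ : ℤ) ^ 2) * (3 * (R + R % (τ : ℤ) ^ 2) + 3)
          = 3 * (R % (τ : ℤ) ^ 2) ^ 2 + 3 * (R % (τ : ℤ) ^ 2) + 1 := by
        unfold f; ring
      rwa [e] at h3
  -- two representatives
  have hrep : ∀ R R' : ℤ, m ∣ R - r → m ∣ R' - r →
      (R % ((τ : ℤ) ^ 2)).toNat = (R' % ((τ : ℤ) ^ 2)).toNat →
      3 * m ^ 2 * B * (τ : ℤ) ^ 2 ∣ 3 * m * B * (R - R') := by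
    intro R R' h1 h2 h
    have hpos : (0 : ℤ) < (τ : ℤ) ^ 2 := by positivity
    have h0 := Int.emod_nonneg R hpos.ne'
    have h0' := Int.emod_nonneg R' hpos.ne'
    have hee : R % (τ : ℤ) ^ 2 = R' % (τ : ℤ) ^ 2 := by omega
    have h4 : (τ : ℤ) ^ 2 ∣ R - R' := (Int.emod_emod_of_dvd _ dvd_rfl ▸
      (Int.emod_eq_emod_iff_emod_sub_eq_zero.1 hee) |> Int.dvd_of_emod_eq_zero)
    have h5 := bcRR hτ h3 h1 h2 h4
    obtain ⟨k, hk⟩ := h5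
    exact ⟨k, by rw [hk]; ring⟩
  -- coprimality
  have hαc : ∀ R : ℤ, IsCoprime (A - 3 * m * B * R) (3 * m * B) := by
    intro R
    have := (IsCoprime.add_mul_left_left hA (-R))
    have e : A + 3 * m * B * -R = A - 3 * m * B * R := by ring
    rwa [e] at this
  have hcq : ∀ x : ℤ, IsCoprime x (3 * m * B) → IsCoprime x (3 * m ^ 2 * B) := by
    intro x hx
    have h1 : IsCoprime x m := hx.of_isCoprime_of_dvd_right ⟨3 * B, by ring⟩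
    have h2 := hx.mul_right h1
    have e : 3 * m * B * m = 3 * m ^ 2 * B := by ring
    rwa [e] at h2
  have hNτ2 : ((q * τ ^ 2 : ℕ) : ℤ) = 3 * m ^ 2 * B * (τ : ℤ) ^ 2 := by
    push_cast; rw [hq]
  have hNτ : ((q * τ : ℕ) : ℤ) = 3 * m ^ 2 * B * (τ : ℤ) := by
    push_cast; rw [hq]
  -- cancellation of a factor prime to everything
  have hcan2 : ∀ x y : ℤ, IsCoprime x (3 * m * B) → ¬ (τ : ℤ) ∣ x →
      3 * m ^ 2 * B * (τ : ℤ) ^ 2 ∣ y * x → 3 * m ^ 2 * B * (τ : ℤ) ^ 2 ∣ y := by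
    intro x y hx hxτ h
    have hc1 : IsCoprime ((τ : ℤ) ^ 2) x := IsCoprime.pow_left ((Prime.coprime_iff_not_dvd hp).2 hxτ)
    have hc2 : IsCoprime (3 * m ^ 2 * B * (τ : ℤ) ^ 2) x := ((hcq x hx).symm).mul_left hc1
    exact hc2.dvd_of_dvd_mul_right h
  have hcan1 : ∀ x y : ℤ, IsCoprime x (3 * m * B) → (τ : ℤ) ∣ x → ¬ (τ : ℤ) ^ 2 ∣ x →
      3 * m ^ 2 * B * (τ : ℤ) ^ 2 ∣ y * x → 3 * m ^ 2 * B * (τ : ℤ) ∣ y := by
    rintro x y hx ⟨x1, rfl⟩ hxτ h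
    have hx1 : ¬ (τ : ℤ) ∣ x1 := by
      rintro ⟨z, rfl⟩
      exact hxτ ⟨z, by ring⟩
    have hx1c : IsCoprime x1 (3 * m * B) := hx.of_isCoprime_of_dvd_left ⟨τ, by ring⟩
    have hc2 : IsCoprime (3 * m ^ 2 * B * (τ : ℤ)) x1 :=
      ((hcq x1 hx1c).symm).mul_left ((Prime.coprime_iff_not_dvd hp).2 hx1)
    apply hc2.dvd_of_dvd_mul_right
    have e1 : 3 * m ^ 2 * B * (τ : ℤ) ^ 2 = (τ : ℤ) * (3 * m ^ 2 * B * τ) := by ring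
    have e2 : y * ((τ : ℤ) * x1) = τ * (y * x1) := by ring
    rw [e1, e2] at h
    exact (mul_dvd_mul_iff_left hτ0).1 h
  -- the four families
  set P1 : ℕ → ℕ → Prop := fun i p => ∃ R : ℤ, m ∣ R - r ∧ (τ : ℤ) ^ 2 ∣ f R ∧
    (R % ((τ : ℤ) ^ 2)).toNat = i ∧ ¬ (τ : ℤ) ∣ A - 3 * m * B * R ∧
    3 * m ^ 2 * B * (τ : ℤ) ^ 2 ∣ p * (A - 3 * m * B * R) - u with hP1
  set P2 : ℕ → ℕ → Prop := fun i p => ∃ R : ℤ, m ∣ R - r ∧ (τ : ℤ) ^ 2 ∣ f R ∧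
    (R % ((τ : ℤ) ^ 2)).toNat = i ∧ ¬ (τ : ℤ) ∣ v ∧
    3 * m ^ 2 * B * (τ : ℤ) ^ 2 ∣ p * v - A - 3 * m * B * (1 + R) with hP2
  set P3 : ℕ → ℕ → Prop := fun i p => ∃ R : ℤ, m ∣ R - r ∧ (τ : ℤ) ^ 2 ∣ f R ∧
    (R % ((τ : ℤ) ^ 2)).toNat = i ∧ (τ : ℤ) ∣ A - 3 * m * B * R ∧
    3 * m ^ 2 * B * (τ : ℤ) ^ 2 ∣ p * (A - 3 * m * B * R) - u with hP3
  set P4 : ℕ → ℕ → Prop := fun i p => ∃ R : ℤ, m ∣ R - r ∧ (τ : ℤ) ^ 2 ∣ f R ∧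
    (R % ((τ : ℤ) ^ 2)).toNat = i ∧ (τ : ℤ) ∣ v ∧
    3 * m ^ 2 * B * (τ : ℤ) ^ 2 ∣ p * v - A - 3 * m * B * (1 + R) with hP4
  -- the difference of two solutions
  have hd1 : ∀ (p p' : ℕ) (R R' : ℤ), 3 * m ^ 2 * B * (τ : ℤ) ^ 2 ∣ 3 * m * B * (R - R') →
      3 * m ^ 2 * B * (τ : ℤ) ^ 2 ∣ p * (A - 3 * m * B * R) - u →
      3 * m ^ 2 * B * (τ : ℤ) ^ 2 ∣ p' * (A - 3 * m * B * R') - u →
      3 * m ^ 2 * B * (τ : ℤ) ^ 2 ∣ ((p : ℤ) - p') * (A - 3 * m * B * R) := by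
    intro p p' R R' h h1 h2
    have h4 := dvd_sub (dvd_sub h1 h2) (h.mul_right (-(p' : ℤ)))
    have e : (p : ℤ) * (A - 3 * m * B * R) - u - (p' * (A - 3 * m * B * R') - u)
        - 3 * m * B * (R - R') * (-(p' : ℤ)) = ((p : ℤ) - p') * (A - 3 * m * B * R) := by
      ring
    rwa [e] at h4
  have hd2 : ∀ (p p' : ℕ) (R R' : ℤ), 3 * m ^ 2 * B * (τ : ℤ) ^ 2 ∣ 3 * m * B * (R - R') →
      3 * m ^ 2 * B * (τ : ℤ) ^ 2 ∣ p * v - A - 3 * m * B * (1 + R) →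
      3 * m ^ 2 * B * (τ : ℤ) ^ 2 ∣ p' * v - A - 3 * m * B * (1 + R') →
      3 * m ^ 2 * B * (τ : ℤ) ^ 2 ∣ ((p : ℤ) - p') * v := by
    intro p p' R R' h h1 h2
    have h4 := dvd_add (dvd_sub h1 h2) h
    have e : (p : ℤ) * v - A - 3 * m * B * (1 + R) - (p' * v - A - 3 * m * B * (1 + R'))
        + 3 * m * B * (R - R') = ((p : ℤ) - p') * v := by
      ring
    rwa [e] at h4
  obtain ⟨D1, hD1c, hD1, -⟩ := bcCard I (q * τ ^ 2) P1 (by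
    rintro i hi p p' ⟨R, h1, h2, h4, h5, h6⟩ ⟨R', h1', h2', h4', h5', h6'⟩
    rw [hNτ2]
    exact hcan2 _ _ (hαc R) h5 (hd1 p p' R R' (hrep R R' h1 h1' (h4.trans h4'.symm)) h6 h6'))
  obtain ⟨D2, hD2c, hD2, -⟩ := bcCard I (q * τ ^ 2) P2 (by
    rintro i hi p p' ⟨R, h1, h2, h4, h5, h6⟩ ⟨R', h1', h2', h4', h5', h6'⟩
    rw [hNτ2]
    exact hcan2 _ _ hv h5 (hd2 p p' R R' (hrep R R' h1 h1' (h4.trans h4'.symm)) h6 h6'))
  have hτu : ∀ (p : ℕ) (R : ℤ), (τ : ℤ) ∣ A - 3 * m * B * R →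
      3 * m ^ 2 * B * (τ : ℤ) ^ 2 ∣ p * (A - 3 * m * B * R) - u →
      (τ : ℤ) ∣ u ∧ ¬ (τ : ℤ) ^ 2 ∣ A - 3 * m * B * R := by
    intro p R h1 h2
    have h4 : (τ : ℤ) ^ 2 ∣ p * (A - 3 * m * B * R) - u := dvd_trans (Dvd.intro_left _ rfl) h2
    constructor
    · have h5 : (τ : ℤ) ∣ p * (A - 3 * m * B * R) - u := dvd_trans (dvd_pow_self _ two_ne_zero) h4
      have h6 := dvd_sub (h1.mul_left (p : ℤ)) h5
      have e : (p : ℤ) * (A - 3 * m * B * R) - (p * (A - 3 * m * B * R) - u) = u := by ring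
      rwa [e] at h6
    · intro h5
      have h6 := dvd_sub (h5.mul_left (p : ℤ)) h4
      have e : (p : ℤ) * (A - 3 * m * B * R) - (p * (A - 3 * m * B * R) - u) = u := by ring
      rw [e] at h6
      exact hu2 h6
  obtain ⟨D3, hD3c, hD3, hD3e⟩ := bcCard I (q * τ) P3 (by
    rintro i hi p p' ⟨R, h1, h2, h4, h5, h6⟩ ⟨R', h1', h2', h4', h5', h6'⟩
    rw [hNτ]
    exact hcan1 _ _ (hαc R) h5 (hτu p R h5 h6).2
      (hd1 p p' R R' (hrep R R' h1 h1' (h4.trans h4'.symm)) h6 h6'))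
  obtain ⟨D4, hD4c, hD4, hD4e⟩ := bcCard I (q * τ) P4 (by
    rintro i hi p p' ⟨R, h1, h2, h4, h5, h6⟩ ⟨R', h1', h2', h4', h5', h6'⟩
    rw [hNτ]
    exact hcan1 _ _ hv h5 hv2
      (hd2 p p' R R' (hrep R R' h1 h1' (h4.trans h4'.symm)) h6 h6'))
  refine ⟨D1 ∪ D2, D3 ∪ D4, ?_, ?_, ?_, ?_⟩
  · exact (Finset.card_union_le _ _).trans (by omega)
  · exact (Finset.card_union_le _ _).trans (by omega)
  · intro hu hv'
    rw [hD3e, hD4e, Finset.union_empty]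
    · rintro i hi p ⟨R, h1, h2, h4, h5, h6⟩
      exact hv' h5
    · rintro i hi p ⟨R, h1, h2, h4, h5, h6⟩
      exact hu (hτu p R h5 h6).1
  · rintro p ⟨R, h1, h2, h4⟩
    have hi := hroot R h2
    rcases h4 with h4 | h4
    · by_cases h5 : (τ : ℤ) ∣ A - 3 * m * B * R
      · right
        rw [Finset.mem_union]
        exact Or.inl (hD3 _ hi p ⟨R, h1, h2, rfl, h5, h4⟩)
      · left
        rw [Finset.mem_union]
        exact Or.inl (hD1 _ hi p ⟨R, h1, h2, rfl, h5, h4⟩)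
    · by_cases h5 : (τ : ℤ) ∣ v
      · right
        rw [Finset.mem_union]
        exact Or.inr (hD4 _ hi p ⟨R, h1, h2, rfl, h5, h4⟩)
      · left
        rw [Finset.mem_union]
        exact Or.inr (hD2 _ hi p ⟨R, h1, h2, rfl, h5, h4⟩)

end Pool.Agent.H48.SF
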