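import Pool.Agent.H48.SF.Defs
import Pool.Agent.H12.Brun
import Pool.Agent.H95.Gol.Crt

/-!
Brun's pure sieve for residue classes modulo primes.
-/

set_option autoImplicit false

namespace Pool.Agent.H48.SF

open Finset Classical
open Pool.Agent.H95.Gol (bb PB)
open Pool.Agent.H41.Per (PM)
open Pool.Agent.H48.AP (F H Vx Sparse oddCount)

/-- number of residues: product formula -/
theorem BrunC_card_crt (D : Finset ℕ) (hD : ∀ p ∈ D, p.Prime) (E : ℕ → ℕ → Prop)
    (hE : ∀ p ∈ D, ∀ j, E p j ↔ E p (j % p)) :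
    ((range (∏ p ∈ D, p)).filter (fun j => ∀ p ∈ D, E p j)).card =
      ∏ p ∈ D, ((range p).filter (E p)).card := by
  induction D using Finset.induction_on with
  | empty => simp
  | insert q D hq ih =>
    have hD' : ∀ p ∈ D, p.Prime := fun p hp => hD p (mem_insert_of_mem hp)
    have hE' : ∀ p ∈ D, ∀ j, E p j ↔ E p (j % p) := fun p hp => hE p (mem_insert_of_mem hp)
    have hqp := hD q (mem_insert_self q D)
    have hEq := hE q (mem_insert_self q D)
    rw [prod_insert hq, prod_insert hq, ← ih hD' hE']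
    set M := ∏ p ∈ D, p with hM
    have hM0 : 0 < M := prod_pos fun p hp => (hD' p hp).pos
    have hq0 : 0 < q := hqp.pos
    have hco : Nat.Coprime q M := by
      rw [hM]
      apply Nat.Coprime.prod_right
      intro p hp
      exact (Nat.coprime_primes hqp (hD' p hp)).mpr (fun h => hq (h ▸ hp))
    have hdvd : ∀ p ∈ D, p ∣ M := fun p hp => dvd_prod_of_mem _ hp
    rw [← card_product]
    refine card_nbij' (fun j => (j % q, j % M))
      (fun t => (Nat.chineseRemainder hco t.1 t.2 : ℕ)) ?_ ?_ ?_ ?_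
    · intro j hj
      simp only [coe_filter, mem_range, Set.mem_ofPred_eq, forall_mem_insert] at hj
      simp only [coe_product, coe_filter, mem_range, Set.mem_prod, Set.mem_ofPred_eq]
      refine ⟨⟨Nat.mod_lt _ hq0, (hEq j).mp hj.2.1⟩, Nat.mod_lt _ hM0, fun p hp => ?_⟩
      rw [hE' p hp, Nat.mod_mod_of_dvd _ (hdvd p hp), ← hE' p hp]
      exact hj.2.2 p hp
    · rintro ⟨a, b⟩ h
      simp only [coe_product, coe_filter, mem_range, Set.mem_prod, Set.mem_ofPred_eq] at h
      simp only [coe_filter, mem_range, Set.mem_ofPred_eq, forall_mem_insert]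
      have h1 := (Nat.chineseRemainder hco a b).2
      refine ⟨Nat.chineseRemainder_lt_mul hco a b hq0.ne' hM0.ne', ?_, fun p hp => ?_⟩
      · rw [hEq, show (Nat.chineseRemainder hco a b : ℕ) % q = a % q from h1.1, ← hEq]
        exact h.1.2
      · have h2 : (Nat.chineseRemainder hco a b : ℕ) % p = b % p := h1.2.of_dvd (hdvd p hp)
        rw [hE' p hp, h2, ← hE' p hp]
        exact h.2.2 p hp
    · intro j hj
      simp only [coe_filter, mem_range, Set.mem_ofPred_eq] at hj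
      have h1 := (Nat.chineseRemainder hco (j % q) (j % M)).2
      have h2 : (Nat.chineseRemainder hco (j % q) (j % M) : ℕ) ≡ j [MOD q * M] := by
        rw [← Nat.modEq_and_modEq_iff_modEq_mul hco]
        exact ⟨h1.1.trans (Nat.mod_modEq _ _), h1.2.trans (Nat.mod_modEq _ _)⟩
      exact Nat.ModEq.eq_of_lt_of_lt h2
        (Nat.chineseRemainder_lt_mul hco _ _ hq0.ne' hM0.ne') hj.1
    · rintro ⟨a, b⟩ h
      simp only [coe_product, coe_filter, mem_range, Set.mem_prod, Set.mem_ofPred_eq] at h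
      have h1 := (Nat.chineseRemainder hco a b).2
      have e1 : (Nat.chineseRemainder hco a b : ℕ) % q = a := by
        rw [show (Nat.chineseRemainder hco a b : ℕ) % q = a % q from h1.1,
          Nat.mod_eq_of_lt h.1.1]
      have e2 : (Nat.chineseRemainder hco a b : ℕ) % M = b := by
        rw [show (Nat.chineseRemainder hco a b : ℕ) % M = b % M from h1.2,
          Nat.mod_eq_of_lt h.2.1]
      simp only [e1, e2]

theorem brun_crt (P : Finset ℕ) (hP : ∀ p ∈ P, p.Prime) (Ω : ℕ → Finset ℕ)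
    (hΩ : ∀ p ∈ P, Ω p ⊆ range p) (w : ℕ) (hw1 : 1 ≤ w) (hw : ∀ p ∈ P, (Ω p).card ≤ w) (h : ℕ)
    (hh : Even h) (N : ℕ) :
    (((range N).filter (fun t : ℕ => ∀ p ∈ P, t % p ∉ Ω p)).card : ℝ) ≤
      N * (Real.exp (- ∑ p ∈ P, ((Ω p).card : ℝ) / p) +
        (∑ p ∈ P, ((Ω p).card : ℝ) / p) ^ (h + 1) / ((h + 1).factorial : ℝ)) +
      (((P.card : ℝ) + 1) * w) ^ h := by
  have hδ : ∀ p ∈ P, 0 ≤ ((Ω p).card : ℝ) / p ∧ ((Ω p).card : ℝ) / p ≤ 1 := by
    intro p hp
    have hp0 : (0 : ℝ) < p := by exact_mod_cast (hP p hp).pos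
    refine ⟨by positivity, ?_⟩
    rw [div_le_one hp0]
    have h1 := card_le_card (hΩ p hp)
    rw [card_range] at h1
    exact_mod_cast h1
  have hcount : ∀ D ⊆ P, D.card ≤ h →
      |(((range N).filter (fun t => ∀ p ∈ D, t % p ∈ Ω p)).card : ℝ) -
        N * ∏ p ∈ D, ((Ω p).card : ℝ) / p| ≤ (w : ℝ) ^ h := by
    intro D hD hDh
    have hDp : ∀ p ∈ D, p.Prime := fun p hp => hP p (hD hp)
    have h1 := BrunC_card_crt D hDp (fun p t => t % p ∈ Ω p) (fun p _ j => by rw [Nat.mod_mod])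
    have h2 : ∀ p ∈ D, ((range p).filter (fun t => t % p ∈ Ω p)).card = (Ω p).card := by
      intro p hp
      congr 1
      ext t
      rw [mem_filter, mem_range]
      constructor
      · rintro ⟨h3, h4⟩
        rwa [Nat.mod_eq_of_lt h3] at h4
      · intro h3
        have h4 := mem_range.1 (hΩ p (hD hp) h3)
        exact ⟨h4, by rwa [Nat.mod_eq_of_lt h4]⟩
    have h1' : ((range (∏ p ∈ D, p)).filter (fun t => ∀ p ∈ D, t % p ∈ Ω p)).card =
        ∏ p ∈ D, (Ω p).card := by
      rw [← prod_congr rfl h2]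
      convert h1
    have hM : 0 < ∏ p ∈ D, p := prod_pos fun p hp => (hDp p hp).pos
    have h3 := Pool.Agent.H95.Gol.card_interval N (∏ p ∈ D, p) hM
      (fun t => ∀ p ∈ D, t % p ∈ Ω p) (by
        intro j
        refine forall₂_congr fun p hp => ?_
        rw [Nat.mod_mod_of_dvd _ (dvd_prod_of_mem _ hp)])
    have h3' : |(((range N).filter (fun t => ∀ p ∈ D, t % p ∈ Ω p)).card : ℝ) -
        N * ((∏ p ∈ D, (Ω p).card : ℕ) : ℝ) / ((∏ p ∈ D, p : ℕ) : ℝ)| ≤
          ((∏ p ∈ D, (Ω p).card : ℕ) : ℝ) := by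
      rw [← h1']
      convert h3
    have e1 : (N : ℝ) * ((∏ p ∈ D, (Ω p).card : ℕ) : ℝ) / ((∏ p ∈ D, p : ℕ) : ℝ) =
        N * ∏ p ∈ D, ((Ω p).card : ℝ) / p := by
      rw [prod_div_distrib, mul_div_assoc]
      push_cast
      rfl
    rw [e1] at h3'
    refine h3'.trans ?_
    have h4 : ∏ p ∈ D, (Ω p).card ≤ w ^ h := by
      calc ∏ p ∈ D, (Ω p).card ≤ ∏ _p ∈ D, w := prod_le_prod' fun p hp => hw p (hD hp)
        _ = w ^ D.card := by rw [prod_const]
        _ ≤ w ^ h := Nat.pow_le_pow_right hw1 hDh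
    exact_mod_cast h4
  have key := Pool.Agent.H12.brun (range N) P (fun p t => t % p ∈ Ω p)
    (fun p => ((Ω p).card : ℝ) / p) hδ h hh N ((w : ℝ) ^ h) (by positivity) (by positivity) (by
      intro D hD hDh
      convert hcount D hD hDh)
  have hkey : (((range N).filter (fun t : ℕ => ∀ p ∈ P, t % p ∉ Ω p)).card : ℝ) ≤
      N * (∏ p ∈ P, (1 - ((Ω p).card : ℝ) / p) +
        (∑ p ∈ P, ((Ω p).card : ℝ) / p) ^ (h + 1) / ((h + 1).factorial : ℝ)) +
        ((P.card : ℝ) + 1) ^ h * (w : ℝ) ^ h := by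
    convert key
  refine hkey.trans ?_
  have hprod : ∏ p ∈ P, (1 - ((Ω p).card : ℝ) / p) ≤
      Real.exp (- ∑ p ∈ P, ((Ω p).card : ℝ) / p) := by
    rw [← sum_neg_distrib, Real.exp_sum]
    refine prod_le_prod (fun p hp => by linarith [(hδ p hp).2]) fun p hp => ?_
    have := Real.add_one_le_exp (-(((Ω p).card : ℝ) / p))
    linarith
  have hN : (0 : ℝ) ≤ N := Nat.cast_nonneg N
  rw [mul_pow]
  gcongr

end Pool.Agent.H48.SF
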