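import Pool.Agent.H48.SF.Defs

/-!
The certificate: two values of `f` with a common cofactor.
-/

set_option autoImplicit false

namespace Pool.Agent.H48.SF

open Finset Classical
open Pool.Agent.H95.Gol (bb PB)
open Pool.Agent.H41.Per (PM)
open Pool.Agent.H48.AP (F H Vx Sparse oddCount)

/-- the certificate: `F m A B = d e` with `d` in the right class mod `3m²B` gives two values of `f` -/
theorem cert {m r A B d e : ℤ} (hm : 0 < m) (hB : 0 < B) (hF : F m A B = d * e)
    (hcop : IsCoprime d (3 * m * B)) (hr : 3 * m ^ 2 * B ∣ A - 3 * m * B * r - d) :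
    ∃ R ν : ℤ, m ∣ R - r ∧ 3 * m * B * R = A - d ∧
      3 * m ^ 2 * B ^ 2 * ν = d + e - 2 * A - 3 * m * B ∧ f R = d * ν ∧
      f (R + m * B * ν) = e * ν := by
  obtain ⟨t, ht⟩ := hr
  have hd3 : IsCoprime d (3 * m ^ 2 * B ^ 2) := by
    have h1 : IsCoprime d (3 * m * B) := hcop
    have hB' : IsCoprime d B := h1.of_mul_right_right
    have h3m : IsCoprime d (3 * m) := h1.of_mul_right_left
    have hm' : IsCoprime d m := h3m.of_mul_right_right
    have h3 : IsCoprime d 3 := h3m.of_mul_right_left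
    exact (h3.mul_right hm'.pow_right).mul_right hB'.pow_right
  have hR : 3 * m * B * (r + m * t) = A - d := by linear_combination -ht
  have hpos : (3 * m ^ 2 * B ^ 2 : ℤ) ≠ 0 := by positivity
  have key : 3 * m ^ 2 * B ^ 2 * f (r + m * t) = d * (d + e - 2 * A - 3 * m * B) := by
    have : 3 * m ^ 2 * B ^ 2 * f (r + m * t) =
        (3 * m * B * (r + m * t)) ^ 2 + 3 * m * B * (3 * m * B * (r + m * t)) +
          3 * m ^ 2 * B ^ 2 := by
      unfold f; ring
    rw [this, hR]
    unfold F at hF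
    linear_combination hF
  have hdv : 3 * m ^ 2 * B ^ 2 ∣ d + e - 2 * A - 3 * m * B := by
    apply (hd3.symm).dvd_of_dvd_mul_left
    exact ⟨_, key.symm⟩
  obtain ⟨ν, hν⟩ := hdv
  refine ⟨r + m * t, ν, ⟨t, by ring⟩, hR, hν.symm, ?_, ?_⟩
  · apply mul_left_cancel₀ hpos
    rw [key, hν]; ring
  · apply mul_left_cancel₀ hpos
    have hR' : 3 * m * B * (r + m * t + m * B * ν) = e - A - 3 * m * B := by
      linear_combination hR - hν
    have : 3 * m ^ 2 * B ^ 2 * f (r + m * t + m * B * ν) =
        (3 * m * B * (r + m * t + m * B * ν)) ^ 2 +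
          3 * m * B * (3 * m * B * (r + m * t + m * B * ν)) + 3 * m ^ 2 * B ^ 2 := by
      unfold f; ring
    rw [this, hR']
    unfold F at hF
    linear_combination hF + e * hν

/-- identities for a pair `(a,b)`, `(x,1)` with common divisor `D` -/
theorem pair_id {m b D B a x U V A : ℤ} (hb : b ≠ 0) (hD : D ≠ 0) (hx : b * x = a - D * B)
    (hU : D * U = F m a b) (hV : D * V = F m x 1)
    (hA : b * D * A = (a + 3 * m * b) * (a - D * B) + 3 * m ^ 2 * b ^ 2) :
    A = b * V + x * B ∧ b * A = U - B * (a + 3 * m * b) ∧ F m A B = U * V ∧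
      F m (a - D * B) b = b ^ 2 * D * V := by
  have hbD : b * D ≠ 0 := mul_ne_zero hb hD
  have e1 : A = b * V + x * B := by
    apply mul_left_cancel₀ hbD
    unfold F at hV
    linear_combination hA - (a + 3 * m * b) * hx - b ^ 2 * hV - x * b * hx
  have e2 : b * A = U - B * (a + 3 * m * b) := by
    apply mul_left_cancel₀ hD
    unfold F at hU
    linear_combination hA - hU
  have e4 : F m (a - D * B) b = b ^ 2 * D * V := by
    rw [← hx]
    unfold F at hV ⊢
    linear_combination -b ^ 2 * hV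
  have e5 : b ^ 2 * V = U - B * (2 * a + 3 * m * b) + D * B ^ 2 := by
    apply mul_left_cancel₀ hD
    unfold F at hU e4
    linear_combination -e4 - hU
  refine ⟨e1, e2, ?_, e4⟩
  have hb2 : b ^ 2 ≠ 0 := pow_ne_zero 2 hb
  apply mul_left_cancel₀ hb2
  have : b ^ 2 * F m A B = (b * A) ^ 2 + 3 * m * (b * A) * (b * B) + 3 * m ^ 2 * (b * B) ^ 2 := by
    unfold F; ring
  rw [this, e2]
  unfold F at hU
  linear_combination -B ^ 2 * hU - U * e5

/-- the obstacle polynomial of the pair certificate -/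
theorem pair_Q {m b D B a x U V A p w : ℤ} (hb : b ≠ 0) (hD : D ≠ 0) (hx : b * x = a - D * B)
    (hU : D * U = F m a b) (hV : D * V = F m x 1)
    (hA : b * D * A = (a + 3 * m * b) * (a - D * B) + 3 * m ^ 2 * b ^ 2) (hw : V = p * w) :
    F m ((p * b - 1) * a + D * B) (b * (p * b - 1)) =
      b ^ 2 * p * D * (w + p * U - 2 * A - 3 * m * B) := by
  obtain ⟨e1, e2, e3, e4⟩ := pair_id hb hD hx hU hV hA
  have e5 : b ^ 2 * V = U - B * (2 * a + 3 * m * b) + D * B ^ 2 := by
    apply mul_left_cancel₀ hD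
    unfold F at hU e4
    linear_combination -e4 - hU
  unfold F at hU ⊢
  linear_combination -(p * b - 1) ^ 2 * hU + b ^ 2 * D * hw - D * e5 + 2 * b * p * D * e2

/-- the obstacle polynomial of the direct certificate -/
theorem dir_Q {m x p w : ℤ} (hw : F m x 1 = p * w) :
    F m (x - p) 1 = p * (w + p - 2 * x - 3 * m) := by
  unfold F at hw ⊢
  linear_combination hw

end Pool.Agent.H48.SF
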