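import Pool.Agent.H48.SF.Roots

/-!
Large square factors of quadratic polynomials.
-/

set_option autoImplicit false

namespace Pool.Agent.H48.SF

open Finset Classical
open Pool.Agent.H95.Gol (bb PB)
open Pool.Agent.H41.Per (PM)
open Pool.Agent.H48.AP (F H Vx Sparse oddCount)

/-- the same difference determines the solution of Pell type -/
theorem largeSq_pell_inj {γ s1 t1 t t' c : ℤ} (hγ : 1 ≤ γ) (ht1 : 1 ≤ t1) (ht : 1 ≤ t) (ht' : 1 ≤ t')
    (h : γ * t ^ 2 - 2 * c * s1 * t = c ^ 2 + γ * t1 ^ 2)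
    (h' : γ * t' ^ 2 - 2 * c * s1 * t' = c ^ 2 + γ * t1 ^ 2) : t = t' := by
  by_contra hne
  have h1 : (t - t') * (γ * (t + t') - 2 * c * s1) = 0 := by
    linear_combination h - h'
  rcases mul_eq_zero.mp h1 with h2 | h2
  · exact hne (by linarith)
  · have h3 : γ * t ^ 2 - 2 * c * s1 * t = - (γ * (t * t')) := by
      linear_combination t * h2
    have h4 : 0 < γ * (t * t') := by positivity
    have h5 : 0 ≤ c ^ 2 := sq_nonneg c
    have h6 : 0 < γ * t1 ^ 2 := by positivity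
    linarith

/-- solutions of `s² + γ = V t²` in a dyadic range -/
theorem pell_count (γ V S : ℕ) (hγ : 1 ≤ γ) (hS : 1 ≤ S) :
    ((Ico S (2 * S)).filter (fun s : ℕ => ∃ t : ℕ, s ^ 2 + γ = V * t ^ 2)).card ≤
      4 * (γ + 1) ^ 2 + 4 := by
  set A := (Ico S (2 * S)).filter (fun s : ℕ => ∃ t : ℕ, s ^ 2 + γ = V * t ^ 2) with hA
  rcases A.eq_empty_or_nonempty with h0 | hne
  · rw [h0]; simp
  set s1 := A.min' hne with hs1
  have hs1A : s1 ∈ A := A.min'_mem hne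
  have hmem : ∀ s ∈ A, S ≤ s ∧ s < 2 * S ∧ ∃ t : ℕ, s ^ 2 + γ = V * t ^ 2 := by
    intro s hs
    rw [hA, mem_filter, mem_Ico] at hs
    exact ⟨hs.1.1, hs.1.2, hs.2⟩
  choose! T hT using fun s hs => (hmem s hs).2.2
  have hTpos : ∀ s ∈ A, 1 ≤ T s := by
    intro s hs
    rcases Nat.eq_zero_or_pos (T s) with h | h
    · exfalso
      have := hT s hs
      rw [h] at this
      have : s ^ 2 + γ = 0 := by simpa using this
      omega
    · exact h
  have hVpos : 1 ≤ V := by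
    rcases Nat.eq_zero_or_pos V with h | h
    · exfalso
      have := hT s1 hs1A
      rw [h] at this
      have : s1 ^ 2 + γ = 0 := by simpa using this
      omega
    · exact h
  let c : ℕ → ℤ := fun s => (s : ℤ) * T s1 - s1 * T s
  have hS1 : S ≤ s1 := (hmem s1 hs1A).1
  -- the identity
  have hid : ∀ s ∈ A, (V : ℤ) * (c s * ((s : ℤ) * T s1 + s1 * T s)) = γ * ((s : ℤ) ^ 2 - s1 ^ 2) := by
    intro s hs
    have e1 : (s : ℤ) ^ 2 + γ = V * (T s : ℤ) ^ 2 := by exact_mod_cast hT s hs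
    have e2 : (s1 : ℤ) ^ 2 + γ = V * (T s1 : ℤ) ^ 2 := by exact_mod_cast hT s1 hs1A
    simp only [c]
    linear_combination (s1 : ℤ) ^ 2 * e1 - (s : ℤ) ^ 2 * e2
  have hcnn : ∀ s ∈ A, 0 ≤ c s := by
    intro s hs
    have hle : s1 ≤ s := A.min'_le s hs
    have h1 := hid s hs
    have hp : 0 < (s : ℤ) * T s1 + s1 * T s := by
      have := hTpos s hs
      have := hTpos s1 hs1A
      have : 1 ≤ s1 := le_trans hS hS1
      have : 1 ≤ s := le_trans this hle
      positivity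
    have hle' : (s1 : ℤ) ≤ s := by exact_mod_cast hle
    have h2 : 0 ≤ (γ : ℤ) * ((s : ℤ) ^ 2 - s1 ^ 2) := by
      apply mul_nonneg (by positivity)
      nlinarith
    by_contra hneg
    push Not at hneg
    have hV' : (0 : ℤ) < V := by exact_mod_cast hVpos
    have : (V : ℤ) * (c s * ((s : ℤ) * T s1 + s1 * T s)) < 0 :=
      mul_neg_of_pos_of_neg hV' (mul_neg_of_neg_of_pos hneg hp)
    linarith
  have hcub : ∀ s ∈ A, c s < ((γ : ℤ) + 1) ^ 2 := by
    intro s hs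
    have hle : s1 ≤ s := A.min'_le s hs
    have h1 := hid s hs
    have hc0 := hcnn s hs
    have e1 : (s : ℤ) ^ 2 + γ = V * (T s : ℤ) ^ 2 := by exact_mod_cast hT s hs
    have hs1pos : (1 : ℤ) ≤ s1 := by exact_mod_cast le_trans hS hS1
    have hTs : (1 : ℤ) ≤ T s := by exact_mod_cast hTpos s hs
    have hTs1 : (1 : ℤ) ≤ T s1 := by exact_mod_cast hTpos s1 hs1A
    have hV' : (1 : ℤ) ≤ V := by exact_mod_cast hVpos
    have hγ' : (1 : ℤ) ≤ γ := by exact_mod_cast hγ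
    have hslt : (s : ℤ) < 2 * s1 := by
      have h2 := (hmem s hs).2.1
      have : s < 2 * s1 := by omega
      exact_mod_cast this
    have hsnn : (0 : ℤ) ≤ s := by positivity
    -- c s1 t2 V ≤ γ V t2²
    have h2 : (V : ℤ) * (c s * (s1 * T s)) ≤ V * (γ * (T s : ℤ) ^ 2) := by
      have h3 : (V : ℤ) * (c s * (s1 * T s)) ≤ V * (c s * ((s : ℤ) * T s1 + s1 * T s)) := by
        apply mul_le_mul_of_nonneg_left _ (by linarith)
        apply mul_le_mul_of_nonneg_left _ hc0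
        have : 0 ≤ (s : ℤ) * T s1 := by positivity
        linarith
      have h4 : (γ : ℤ) * ((s : ℤ) ^ 2 - s1 ^ 2) ≤ γ * (V * (T s : ℤ) ^ 2) := by
        apply mul_le_mul_of_nonneg_left _ (by linarith)
        rw [← e1]
        nlinarith [sq_nonneg (s1 : ℤ)]
      calc (V : ℤ) * (c s * (s1 * T s)) ≤ V * (c s * ((s : ℤ) * T s1 + s1 * T s)) := h3
        _ = γ * ((s : ℤ) ^ 2 - s1 ^ 2) := h1
        _ ≤ γ * (V * (T s : ℤ) ^ 2) := h4
        _ = V * (γ * (T s : ℤ) ^ 2) := by ring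
    have h5 : c s * (s1 * T s) ≤ γ * (T s : ℤ) ^ 2 := le_of_mul_le_mul_left h2 (by linarith)
    have h6 : c s * s1 ≤ γ * T s := by
      have : (T s : ℤ) * (c s * s1) ≤ T s * (γ * T s) := by nlinarith
      exact le_of_mul_le_mul_left this (by linarith)
    have h7 : (T s : ℤ) ≤ s + γ := by
      by_contra hcon
      push Not at hcon
      have h71 : ((s : ℤ) + γ + 1) ^ 2 ≤ (T s : ℤ) ^ 2 := by
        apply pow_le_pow_left₀ (by positivity) (by linarith)
      have h72 : (T s : ℤ) ^ 2 ≤ V * (T s : ℤ) ^ 2 := by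
        have : 0 ≤ (T s : ℤ) ^ 2 := by positivity
        nlinarith
      nlinarith [mul_nonneg hsnn (by linarith : (0 : ℤ) ≤ γ)]
    have h8 : c s * s1 < ((γ : ℤ) + 1) ^ 2 * s1 := by
      have h81 : (γ : ℤ) * T s ≤ γ * (s + γ) := mul_le_mul_of_nonneg_left h7 (by linarith)
      have h82 : (γ : ℤ) * s ≤ γ * (2 * s1) := mul_le_mul_of_nonneg_left hslt.le (by linarith)
      have h83 : (γ : ℤ) * γ ≤ (γ * γ) * s1 := by
        have : (0 : ℤ) ≤ γ * γ := by positivity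
        nlinarith
      nlinarith
    exact lt_of_mul_lt_mul_right h8 (by linarith)
  have hquad : ∀ s ∈ A, (γ : ℤ) * (T s : ℤ) ^ 2 - 2 * c s * s1 * T s =
      c s ^ 2 + γ * (T s1 : ℤ) ^ 2 := by
    intro s hs
    have e1 : (s : ℤ) ^ 2 + γ = V * (T s : ℤ) ^ 2 := by exact_mod_cast hT s hs
    have e2 : (s1 : ℤ) ^ 2 + γ = V * (T s1 : ℤ) ^ 2 := by exact_mod_cast hT s1 hs1A
    simp only [c]
    linear_combination (T s : ℤ) ^ 2 * e2 - (T s1 : ℤ) ^ 2 * e1
  have hinj : Set.InjOn (fun s => (c s).toNat) A := by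
    intro s hs s' hs' heq
    have hs2 : s ∈ A := hs
    have hs3 : s' ∈ A := hs'
    have hceq : c s = c s' := by
      have h1 := Int.toNat_of_nonneg (hcnn s hs2)
      have h2 := Int.toNat_of_nonneg (hcnn s' hs3)
      simp only at heq
      rw [← h1, ← h2, heq]
    have hq := hquad s hs2
    have hq' := hquad s' hs3
    rw [← hceq] at hq'
    have hteq : (T s : ℤ) = T s' := by
      refine largeSq_pell_inj (γ := γ) (s1 := s1) (t1 := T s1) (c := c s) (by exact_mod_cast hγ)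
        (by exact_mod_cast hTpos s1 hs1A) (by exact_mod_cast hTpos s hs2)
        (by exact_mod_cast hTpos s' hs3) hq hq'
    have e1 : (s : ℤ) * T s1 = s' * T s1 := by
      simp only [c] at hceq
      rw [hteq] at hceq
      linarith
    have hp : (T s1 : ℤ) ≠ 0 := by
      have := hTpos s1 hs1A
      positivity
    exact_mod_cast mul_right_cancel₀ hp e1
  have hmaps : Set.MapsTo (fun s => (c s).toNat) A (range ((γ + 1) ^ 2) : Finset ℕ) := by
    intro s hs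
    have hs2 : s ∈ A := hs
    simp only [coe_range, Set.mem_Iio]
    have h1 := hcub s hs2
    have h2 := hcnn s hs2
    zify
    rw [Int.toNat_of_nonneg h2]
    exact h1
  have := card_le_card_of_injOn _ hmaps hinj
  rw [card_range] at this
  nlinarith

/-- elements of `[1, N]` that are congruent mod `M` -/
theorem largeSq_class (A : Finset ℕ) (N M : ℕ) (hA : A ⊆ Icc 1 N)
    (h : ∀ a ∈ A, ∀ a' ∈ A, a ≡ a' [MOD M]) : A.card ≤ N / M + 1 := by
  have h1 : Set.MapsTo (fun a => a / M) A (range (N / M + 1) : Finset ℕ) := by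
    intro a ha
    have h2 := hA ha
    rw [mem_Icc] at h2
    simp only [coe_range, Set.mem_Iio]
    exact Nat.lt_succ_of_le (Nat.div_le_div_right h2.2)
  have h2 : Set.InjOn (fun a => a / M) A := by
    intro a ha a' ha' heq
    have h3 := h a ha a' ha'
    simp only at heq
    have h4 := Nat.div_add_mod a M
    have h5 := Nat.div_add_mod a' M
    rw [heq] at h4
    unfold Nat.ModEq at h3
    rw [h3] at h4
    omega
  have := card_le_card_of_injOn _ h1 h2
  rwa [card_range] at this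

/-- one prime `τ` -/
theorem largeSq_one {α β γ : ℤ} {q0 τ N : ℕ} {S0 : Finset ℕ} (hτ : τ.Prime) (hτ2 : τ ≠ 2)
    (hτd : ¬ (τ : ℤ) ∣ α * γ) (hτq : ¬ τ ∣ q0) (hq0 : 1 ≤ q0) :
    ((Icc 1 N).filter (fun a : ℕ => a % q0 ∈ S0 ∧ (τ : ℤ) ^ 2 ∣ (α * a + β) ^ 2 + γ)).card ≤
      2 * S0.card * (N / (q0 * τ ^ 2) + 1) := by
  set R := (range (τ ^ 2)).filter
    (fun t : ℕ => (τ : ℤ) ^ 2 ∣ (α ^ 2) * t ^ 2 + (2 * α * β) * t + (β ^ 2 + γ)) with hR
  have hpi : Prime (τ : ℤ) := Nat.prime_iff_prime_int.mp hτ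
  have hRc : R.card ≤ 2 := by
    apply quad_roots hτ _ _ _ _ (by norm_num)
    intro hd
    have e : (2 * α * β) ^ 2 - 4 * α ^ 2 * (β ^ 2 + γ) = - ((2 * 2 * α) * (α * γ)) := by ring
    rw [e, dvd_neg] at hd
    rcases hpi.dvd_or_dvd hd with h | h
    · rcases hpi.dvd_or_dvd h with h | h
      · have h2 : (τ : ℤ) ∣ 2 := by
          rcases hpi.dvd_or_dvd h with h | h <;> exact h
        have h3 : τ ∣ 2 := by exact_mod_cast h2
        exact hτ2 ((Nat.prime_dvd_prime_iff_eq hτ Nat.prime_two).mp h3)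
      · exact hτd (Dvd.dvd.mul_right h _)
    · exact hτd h
  have hsub : (Icc 1 N).filter (fun a : ℕ => a % q0 ∈ S0 ∧ (τ : ℤ) ^ 2 ∣ (α * a + β) ^ 2 + γ) ⊆
      (S0 ×ˢ R).biUnion (fun x => (Icc 1 N).filter (fun a : ℕ => a % q0 = x.1 ∧
        a % τ ^ 2 = x.2)) := by
    intro a ha
    rw [mem_filter] at ha
    rw [mem_biUnion]
    refine ⟨(a % q0, a % τ ^ 2), ?_, ?_⟩
    · rw [mem_product]
      refine ⟨ha.2.1, ?_⟩
      rw [hR, mem_filter, mem_range]
      refine ⟨Nat.mod_lt _ (pow_pos hτ.pos _), ?_⟩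
      have h1 : ((τ : ℤ) ^ 2) ∣ ((a % τ ^ 2 : ℕ) : ℤ) - a := by
        have : ((a % τ ^ 2 : ℕ) : ℤ) = (a : ℤ) % ((τ : ℤ) ^ 2) := by push_cast; rfl
        rw [this]
        have h3 := Int.emod_add_mul_ediv (a : ℤ) ((τ : ℤ) ^ 2)
        exact ⟨-((a : ℤ) / ((τ : ℤ) ^ 2)), by linarith⟩
      have h2 : (α ^ 2) * ((a % τ ^ 2 : ℕ) : ℤ) ^ 2 + (2 * α * β) * ((a % τ ^ 2 : ℕ) : ℤ) +
          (β ^ 2 + γ) = ((α * a + β) ^ 2 + γ) + (((a % τ ^ 2 : ℕ) : ℤ) - a) *
          (α ^ 2 * (((a % τ ^ 2 : ℕ) : ℤ) + a) + 2 * α * β) := by ring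
      show (τ : ℤ) ^ 2 ∣ (α ^ 2) * ((a % τ ^ 2 : ℕ) : ℤ) ^ 2 + (2 * α * β) * ((a % τ ^ 2 : ℕ) : ℤ) +
          (β ^ 2 + γ)
      rw [h2]
      exact dvd_add ha.2.2 (Dvd.dvd.mul_right h1 _)
    · rw [mem_filter]
      exact ⟨ha.1, rfl, rfl⟩
  refine le_trans (card_le_card hsub) ?_
  refine le_trans card_biUnion_le ?_
  have hb : ∀ x ∈ S0 ×ˢ R, ((Icc 1 N).filter (fun a : ℕ => a % q0 = x.1 ∧
        a % τ ^ 2 = x.2)).card ≤ N / (q0 * τ ^ 2) + 1 := by
    intro x _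
    apply largeSq_class _ _ _ (filter_subset _ _)
    · intro a ha a' ha'
      rw [mem_filter] at ha ha'
      have hcop : Nat.Coprime q0 (τ ^ 2) :=
        Nat.Coprime.pow_right _ ((Nat.Prime.coprime_iff_not_dvd hτ).mpr hτq).symm
      rw [← Nat.modEq_and_modEq_iff_modEq_mul hcop]
      refine ⟨?_, ?_⟩
      · unfold Nat.ModEq; rw [ha.2.1, ha'.2.1]
      · unfold Nat.ModEq; rw [ha.2.2, ha'.2.2]
  refine le_trans (sum_le_sum hb) ?_
  rw [sum_const, card_product, smul_eq_mul]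
  have : S0.card * R.card ≤ 2 * S0.card := by nlinarith
  exact Nat.mul_le_mul_right _ this

/-- one value of `V` and one dyadic range -/
theorem largeSq_two {α β γ : ℤ} {V S N : ℕ} (hα : 1 ≤ α) (hγ : 1 ≤ γ) (hS : 1 ≤ S) :
    ((Icc 1 N).filter (fun a : ℕ => (α * a + β).natAbs ∈ Ico S (2 * S) ∧
      ∃ t : ℕ, (α * a + β).natAbs ^ 2 + γ.toNat = V * t ^ 2)).card ≤
      2 * (4 * (γ.toNat + 1) ^ 2 + 4) := by
  set P := (Ico S (2 * S)).filter (fun s : ℕ => ∃ t : ℕ, s ^ 2 + γ.toNat = V * t ^ 2) with hP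
  have hPc : P.card ≤ 4 * (γ.toNat + 1) ^ 2 + 4 := pell_count γ.toNat V S (by omega) hS
  set A := (Icc 1 N).filter (fun a : ℕ => (α * a + β).natAbs ∈ Ico S (2 * S) ∧
      ∃ t : ℕ, (α * a + β).natAbs ^ 2 + γ.toNat = V * t ^ 2) with hA
  have hsplit : A = A.filter (fun a : ℕ => 0 ≤ α * a + β) ∪ A.filter (fun a : ℕ => ¬ 0 ≤ α * a + β) :=
    (filter_union_filter_not_eq _ _).symm
  have hm : ∀ a ∈ A, (α * a + β).natAbs ∈ P := by
    intro a ha
    rw [hA, mem_filter] at ha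
    rw [hP, mem_filter]
    exact ⟨ha.2.1, ha.2.2⟩
  have h1 : (A.filter (fun a : ℕ => 0 ≤ α * a + β)).card ≤ P.card := by
    apply card_le_card_of_injOn (fun a : ℕ => (α * a + β).natAbs)
    · intro a ha
      have ha2 : a ∈ A.filter (fun a : ℕ => 0 ≤ α * a + β) := ha
      exact hm a (mem_filter.mp ha2).1
    · intro a ha a' ha' heq
      have ha2 : a ∈ A.filter (fun a : ℕ => 0 ≤ α * a + β) := ha
      have ha3 : a' ∈ A.filter (fun a : ℕ => 0 ≤ α * a + β) := ha'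
      have e1 := (mem_filter.mp ha2).2
      have e2 := (mem_filter.mp ha3).2
      simp only at heq
      have : α * (a : ℤ) + β = α * (a' : ℤ) + β := by omega
      have : α * (a : ℤ) = α * (a' : ℤ) := by linarith
      exact_mod_cast mul_left_cancel₀ (by linarith : α ≠ 0) this
  have h2 : (A.filter (fun a : ℕ => ¬ 0 ≤ α * a + β)).card ≤ P.card := by
    apply card_le_card_of_injOn (fun a : ℕ => (α * a + β).natAbs)
    · intro a ha
      have ha2 : a ∈ A.filter (fun a : ℕ => ¬ 0 ≤ α * a + β) := ha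
      exact hm a (mem_filter.mp ha2).1
    · intro a ha a' ha' heq
      have ha2 : a ∈ A.filter (fun a : ℕ => ¬ 0 ≤ α * a + β) := ha
      have ha3 : a' ∈ A.filter (fun a : ℕ => ¬ 0 ≤ α * a + β) := ha'
      have e1 := (mem_filter.mp ha2).2
      have e2 := (mem_filter.mp ha3).2
      simp only at heq
      have : α * (a : ℤ) + β = α * (a' : ℤ) + β := by omega
      have : α * (a : ℤ) = α * (a' : ℤ) := by linarith
      exact_mod_cast mul_left_cancel₀ (by linarith : α ≠ 0) this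
  have h3 : A.card ≤ (A.filter (fun a : ℕ => 0 ≤ α * a + β)).card +
      (A.filter (fun a : ℕ => ¬ 0 ≤ α * a + β)).card := by
    conv_lhs => rw [hsplit]
    exact card_union_le _ _
  omega

theorem large_sq : ∃ j0 : ℕ, ∀ j ≥ j0, ∀ (α β γ : ℤ) (q0 z : ℕ) (S0 : Finset ℕ), 1 ≤ α → 1 ≤ γ →
    α ≤ 2 ^ (j / 100) → |β| ≤ 2 ^ (j / 100) → γ ≤ 2 ^ (j / 100) → 1 ≤ q0 →
    q0 ≤ 2 ^ (j / 100) → 1 ≤ z → S0 ⊆ range q0 →
    (((Icc 1 (2 ^ j)).filter (fun a : ℕ => a % q0 ∈ S0 ∧ ∃ τ : ℕ, τ.Prime ∧ z < τ ∧ τ ≠ 2 ∧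
      ¬ (τ : ℤ) ∣ α * γ ∧ ¬ τ ∣ q0 ∧ (τ : ℤ) ^ 2 ∣ (α * a + β) ^ 2 + γ)).card : ℝ) ≤
      2 * S0.card * 2 ^ j / (q0 * z) + 2 ^ (j - j / 20) := by
  refine ⟨1000, fun j hj α β γ q0 z S0 hα hγ hα2 hβ2 hγ2 hq0 hq02 hz hS0 => ?_⟩
  set e := j / 100 with he
  set y := j - j / 10 with hy
  set v := 2 * e + 3 + 2 * (j / 10) with hv
  -- the prime range
  set Pz := (Ioc z (2 ^ y)).filter (fun τ : ℕ => τ.Prime ∧ τ ≠ 2 ∧ ¬ (τ : ℤ) ∣ α * γ ∧ ¬ τ ∣ q0)
    with hPz
  set A1 : ℕ → Finset ℕ := fun τ =>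
    (Icc 1 (2 ^ j)).filter (fun a : ℕ => a % q0 ∈ S0 ∧ (τ : ℤ) ^ 2 ∣ (α * a + β) ^ 2 + γ) with hA1
  set A2 : ℕ × ℕ → Finset ℕ := fun x =>
    (Icc 1 (2 ^ j)).filter (fun a : ℕ => (α * a + β).natAbs ∈ Ico (2 ^ x.2) (2 * 2 ^ x.2) ∧
      ∃ t : ℕ, (α * a + β).natAbs ^ 2 + γ.toNat = x.1 * t ^ 2) with hA2
  set E := (Icc 1 (2 ^ j)).filter (fun a : ℕ => a % q0 ∈ S0 ∧ ∃ τ : ℕ, τ.Prime ∧ z < τ ∧ τ ≠ 2 ∧
      ¬ (τ : ℤ) ∣ α * γ ∧ ¬ τ ∣ q0 ∧ (τ : ℤ) ^ 2 ∣ (α * a + β) ^ 2 + γ) with hE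
  have hcover : E ⊆ Pz.biUnion A1 ∪ ((range (2 ^ v)) ×ˢ (range (e + j + 2))).biUnion A2 := by
    intro a ha
    rw [hE, mem_filter] at ha
    obtain ⟨haX, haS, τ, hτ, hzτ, hτ2, hτd, hτq, hdvd⟩ := ha
    rw [mem_union]
    by_cases hτy : τ ≤ 2 ^ y
    · left
      rw [mem_biUnion]
      refine ⟨τ, ?_, ?_⟩
      · rw [hPz, mem_filter, mem_Ioc]
        exact ⟨⟨hzτ, hτy⟩, hτ, hτ2, hτd, hτq⟩
      · rw [hA1, mem_filter]
        exact ⟨haX, haS, hdvd⟩
    · right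
      push Not at hτy
      have hpi : Prime (τ : ℤ) := Nat.prime_iff_prime_int.mp hτ
      set s := (α * a + β).natAbs with hs
      have hs2 : (s : ℤ) ^ 2 = (α * a + β) ^ 2 := by rw [hs]; exact Int.natAbs_sq _
      have hγn : ((γ.toNat : ℕ) : ℤ) = γ := Int.toNat_of_nonneg (by linarith)
      have hspos : 1 ≤ s := by
        rcases Nat.eq_zero_or_pos s with h | h
        · exfalso
          rw [h] at hs2
          have h0 : (α * a + β) ^ 2 = 0 := by rw [← hs2]; norm_num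
          rw [h0, zero_add] at hdvd
          exact hτd (Dvd.dvd.mul_left (dvd_trans (dvd_pow_self _ (by norm_num)) hdvd) _)
        · exact h
      -- bound of s
      have haX' : (a : ℤ) ≤ 2 ^ j := by exact_mod_cast (mem_Icc.mp haX).2
      have haX1 : (1 : ℤ) ≤ a := by exact_mod_cast (mem_Icc.mp haX).1
      have hsle : (s : ℤ) ≤ 2 ^ (e + j + 1) := by
        rw [hs, Int.natCast_natAbs]
        calc |α * a + β| ≤ |α * a| + |β| := abs_add_le _ _
          _ ≤ 2 ^ e * 2 ^ j + 2 ^ e * 2 ^ j := by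
            apply add_le_add
            · rw [abs_of_nonneg (by positivity)]
              exact mul_le_mul hα2 haX' (by linarith) (by positivity)
            · calc |β| ≤ 2 ^ e := hβ2
                _ = 2 ^ e * 1 := by ring
                _ ≤ 2 ^ e * 2 ^ j := by
                  apply mul_le_mul_of_nonneg_left _ (by positivity)
                  exact one_le_pow₀ (by norm_num)
          _ = 2 ^ (e + j + 1) := by ring
      obtain ⟨V, hV⟩ := hdvd
      have hVpos : 0 < V := by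
        have h1 : 0 < (τ : ℤ) ^ 2 * V := by rw [← hV]; positivity
        have hτp : (0 : ℤ) < (τ : ℤ) ^ 2 := by have := hτ.pos; positivity
        exact (mul_pos_iff_of_pos_left hτp).mp h1
      have hVn : ((V.toNat : ℕ) : ℤ) = V := Int.toNat_of_nonneg hVpos.le
      have hVlt : V < 2 ^ v := by
        have h1 : (2 : ℤ) ^ (2 * y) * V < 2 ^ (2 * y) * 2 ^ v := by
          have h2 : ((2 : ℤ) ^ y) ^ 2 ≤ (τ : ℤ) ^ 2 := by
            apply pow_le_pow_left₀ (by positivity)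
            exact_mod_cast hτy.le
          have h3 : (2 : ℤ) ^ (2 * y) * V ≤ (τ : ℤ) ^ 2 * V := by
            apply mul_le_mul_of_nonneg_right _ hVpos.le
            rw [mul_comm, pow_mul]; exact h2
          have h4 : (τ : ℤ) ^ 2 * V = (s : ℤ) ^ 2 + γ := by rw [← hV, hs2]
          have h5 : (s : ℤ) ^ 2 ≤ (2 ^ (e + j + 1)) ^ 2 :=
            pow_le_pow_left₀ (by positivity) hsle 2
          have h6 : (2 : ℤ) ^ e < (2 ^ (e + j + 1)) ^ 2 := by
            rw [← pow_mul]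
            apply pow_lt_pow_right₀ (by norm_num)
            omega
          have h7 : ((2 : ℤ) ^ (e + j + 1)) ^ 2 + (2 ^ (e + j + 1)) ^ 2 = 2 ^ (2 * y) * 2 ^ v := by
            rw [← pow_add, ← pow_mul, ← two_mul, ← pow_succ']
            congr 1
            omega
          linarith
        exact lt_of_mul_lt_mul_left h1 (by positivity)
      rw [mem_biUnion]
      refine ⟨(V.toNat, Nat.log 2 s), ?_, ?_⟩
      · rw [mem_product, mem_range, mem_range]
        constructor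
        · show V.toNat < 2 ^ v
          zify
          rw [hVn]; exact hVlt
        · show Nat.log 2 s < e + j + 2
          have h1 : s ≤ 2 ^ (e + j + 1) := by exact_mod_cast hsle
          apply Nat.log_lt_of_lt_pow (by omega)
          calc s ≤ 2 ^ (e + j + 1) := h1
            _ < 2 ^ (e + j + 2) := Nat.pow_lt_pow_right (by norm_num) (by omega)
      · rw [hA2, mem_filter]
        refine ⟨haX, ?_, τ, ?_⟩
        · show (α * a + β).natAbs ∈ Ico (2 ^ Nat.log 2 s) (2 * 2 ^ Nat.log 2 s)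
          rw [← hs, mem_Ico]
          constructor
          · exact Nat.pow_log_le_self 2 (by omega)
          · have := Nat.lt_pow_succ_log_self (b := 2) (by norm_num) s
            calc s < 2 ^ (Nat.log 2 s).succ := this
              _ = 2 * 2 ^ Nat.log 2 s := by rw [pow_succ]; ring
        · show (α * a + β).natAbs ^ 2 + γ.toNat = V.toNat * τ ^ 2
          rw [← hs]
          zify
          rw [hγn, hVn, hs2, hV]; ring
  -- first part
  have hq0R : (1 : ℝ) ≤ q0 := by exact_mod_cast hq0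
  have hzR : (1 : ℝ) ≤ z := by exact_mod_cast hz
  have hS0c : S0.card ≤ 2 ^ e := by
    have h1 := card_le_card hS0
    rw [card_range] at h1
    exact le_trans h1 hq02
  have hp1 : ((Pz.biUnion A1).card : ℝ) ≤ 2 * S0.card * 2 ^ j / (q0 * z) + 2 ^ (j - j / 20 - 1) := by
    have h1 : ((Pz.biUnion A1).card : ℝ) ≤ ∑ τ ∈ Pz, (2 * S0.card * (2 ^ j / (q0 * τ ^ 2) + 1) : ℝ) := by
      have h2 : (Pz.biUnion A1).card ≤ ∑ τ ∈ Pz, (A1 τ).card := card_biUnion_le
      have h3 : ((Pz.biUnion A1).card : ℝ) ≤ ∑ τ ∈ Pz, ((A1 τ).card : ℝ) := by exact_mod_cast h2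
      refine le_trans h3 (sum_le_sum ?_)
      intro τ hτ
      rw [hPz, mem_filter] at hτ
      have h4 := largeSq_one (α := α) (β := β) (γ := γ) (q0 := q0) (N := 2 ^ j) (S0 := S0)
        hτ.2.1 hτ.2.2.1 hτ.2.2.2.1 hτ.2.2.2.2 hq0
      have h5 : ((A1 τ).card : ℝ) ≤ ((2 * S0.card * (2 ^ j / (q0 * τ ^ 2) + 1) : ℕ) : ℝ) := by
        exact_mod_cast h4
      refine le_trans h5 ?_
      push_cast
      apply mul_le_mul_of_nonneg_left _ (by positivity)
      have h6 : ((2 ^ j / (q0 * τ ^ 2) : ℕ) : ℝ) ≤ ((2 ^ j : ℕ) : ℝ) / ((q0 * τ ^ 2 : ℕ) : ℝ) :=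
        Nat.cast_div_le
      push_cast at h6
      linarith
    have h2 : ∑ τ ∈ Pz, (2 * S0.card * (2 ^ j / (q0 * τ ^ 2) + 1) : ℝ) =
        (2 * S0.card * 2 ^ j / q0) * ∑ τ ∈ Pz, ((τ : ℝ) ^ 2)⁻¹ + 2 * S0.card * Pz.card := by
      have hc : (Pz.card : ℝ) = ∑ _τ ∈ Pz, (1 : ℝ) := by simp
      rw [hc, mul_sum, mul_sum, ← sum_add_distrib]
      apply sum_congr rfl
      intro τ hτ
      rw [hPz, mem_filter] at hτ
      have : (τ : ℝ) ≠ 0 := by exact_mod_cast hτ.2.1.ne_zero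
      field_simp
    have h3 : ∑ τ ∈ Pz, ((τ : ℝ) ^ 2)⁻¹ ≤ (z : ℝ)⁻¹ := by
      have h4 : ∑ τ ∈ Pz, ((τ : ℝ) ^ 2)⁻¹ ≤ ∑ τ ∈ Ioc z (2 ^ y), ((τ : ℝ) ^ 2)⁻¹ := by
        apply sum_le_sum_of_subset_of_nonneg (filter_subset _ _)
        intro i _ _
        positivity
      refine le_trans h4 ?_
      rcases le_or_gt z (2 ^ y) with h5 | h5
      · have h6 := sum_Ioc_inv_sq_le_sub (α := ℝ) (k := z) (n := 2 ^ y) (by omega) h5
        refine le_trans h6 ?_
        have : (0 : ℝ) ≤ (((2 ^ y : ℕ) : ℝ))⁻¹ := by positivity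
        linarith
      · rw [Ioc_eq_empty_of_le h5.le, sum_empty]
        positivity
    have h4 : (Pz.card : ℝ) ≤ 2 ^ y := by
      have h5 : Pz.card ≤ (Ioc z (2 ^ y)).card := card_filter_le _ _
      rw [Nat.card_Ioc] at h5
      have h6 : Pz.card ≤ 2 ^ y := le_trans h5 (Nat.sub_le _ _)
      exact_mod_cast h6
    rw [h2] at h1
    refine le_trans h1 ?_
    have h5 : (2 * S0.card * 2 ^ j / q0 : ℝ) * ∑ τ ∈ Pz, ((τ : ℝ) ^ 2)⁻¹ ≤
        2 * S0.card * 2 ^ j / (q0 * z) := by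
      calc (2 * S0.card * 2 ^ j / q0 : ℝ) * ∑ τ ∈ Pz, ((τ : ℝ) ^ 2)⁻¹ ≤
          (2 * S0.card * 2 ^ j / q0 : ℝ) * (z : ℝ)⁻¹ :=
            mul_le_mul_of_nonneg_left h3 (by positivity)
        _ = 2 * S0.card * 2 ^ j / (q0 * z) := by field_simp
    have h6 : (2 * S0.card * Pz.card : ℝ) ≤ 2 ^ (j - j / 20 - 1) := by
      have h7 : (S0.card : ℝ) ≤ 2 ^ e := by exact_mod_cast hS0c
      calc (2 * S0.card * Pz.card : ℝ) ≤ 2 * 2 ^ e * 2 ^ y := by
            apply mul_le_mul _ h4 (by positivity) (by positivity)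
            linarith
        _ = 2 ^ (1 + e + y) := by ring
        _ ≤ 2 ^ (j - j / 20 - 1) := by
            apply pow_le_pow_right₀ (by norm_num)
            omega
    linarith
  -- second part
  have hp2 : ((((range (2 ^ v)) ×ˢ (range (e + j + 2))).biUnion A2).card : ℝ) ≤
      2 ^ (j - j / 20 - 1) := by
    have hγn : γ.toNat ≤ 2 ^ e := by
      zify
      rw [Int.toNat_of_nonneg (by linarith)]
      exact hγ2
    have h1 : (((range (2 ^ v)) ×ˢ (range (e + j + 2))).biUnion A2).card ≤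
        2 ^ v * (e + j + 2) * (2 * (4 * (2 ^ e + 1) ^ 2 + 4)) := by
      refine le_trans card_biUnion_le ?_
      have h2 : ∀ x ∈ (range (2 ^ v)) ×ˢ (range (e + j + 2)), (A2 x).card ≤
          2 * (4 * (2 ^ e + 1) ^ 2 + 4) := by
        intro x _
        have h3 := largeSq_two (α := α) (β := β) (γ := γ) (V := x.1) (S := 2 ^ x.2) (N := 2 ^ j)
          hα hγ Nat.one_le_two_pow
        refine le_trans h3 ?_
        gcongr
      refine le_trans (sum_le_sum h2) ?_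
      rw [sum_const, card_product, card_range, card_range, smul_eq_mul]
    have h2 : 2 * (4 * (2 ^ e + 1) ^ 2 + 4) ≤ 2 ^ (2 * e + 6) := by
      have h3 : 1 ≤ 2 ^ e := Nat.one_le_two_pow
      have h4 : 2 ^ (2 * e + 6) = 64 * (2 ^ e) ^ 2 := by rw [pow_add, pow_mul']; ring
      rw [h4]
      nlinarith
    have h3 : e + j + 2 ≤ 2 ^ (j / 4 + 4) := by
      have h4 : j / 4 + 1 < 2 ^ (j / 4 + 1) := Nat.lt_two_pow_self
      have h5 : 2 ^ (j / 4 + 4) = 8 * 2 ^ (j / 4 + 1) := by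
        rw [show j / 4 + 4 = (j / 4 + 1) + 3 by omega, pow_add]; ring
      rw [h5]
      omega
    have h4 : 2 ^ v * (e + j + 2) * (2 * (4 * (2 ^ e + 1) ^ 2 + 4)) ≤ 2 ^ (j - j / 20 - 1) := by
      calc 2 ^ v * (e + j + 2) * (2 * (4 * (2 ^ e + 1) ^ 2 + 4)) ≤
          2 ^ v * 2 ^ (j / 4 + 4) * 2 ^ (2 * e + 6) := by gcongr
        _ = 2 ^ (v + (j / 4 + 4) + (2 * e + 6)) := by rw [← pow_add, ← pow_add]
        _ ≤ 2 ^ (j - j / 20 - 1) := by
            apply Nat.pow_le_pow_right (by norm_num)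
            omega
    exact_mod_cast le_trans h1 h4
  have hfin : (E.card : ℝ) ≤ (Pz.biUnion A1).card +
      (((range (2 ^ v)) ×ˢ (range (e + j + 2))).biUnion A2).card := by
    exact_mod_cast le_trans (card_le_card hcover) (card_union_le _ _)
  have h2 : (2 : ℝ) ^ (j - j / 20) = 2 ^ (j - j / 20 - 1) + 2 ^ (j - j / 20 - 1) := by
    rw [← two_mul, ← pow_succ']
    congr 1
    omega
  rw [h2]
  linarith

end Pool.Agent.H48.SF
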