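import Pool.Agent.H48.SF.BM
import Pool.Agent.H48.SF.LargeSq

/-!
The initial divisor.
-/

set_option autoImplicit false

namespace Pool.Agent.H48.SF

open Finset Classical
open Pool.Agent.H95.Gol (bb PB)
open Pool.Agent.H41.Per (PM)
open Pool.Agent.H48.AP (F H Vx Sparse oddCount)

/-- harmonic sum -/
theorem init_harm (k : ℕ) : ∑ s ∈ Icc 1 (2 ^ k : ℕ), (1 : ℝ) / (s : ℝ) ≤ 1 + k := by
  have h := harmonic_le_one_add_log (2 ^ k)
  rw [harmonic_eq_sum_Icc] at h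
  simp only [Rat.cast_sum, Rat.cast_inv, Rat.cast_natCast] at h
  have h2 : Real.log ((2 ^ k : ℕ) : ℝ) ≤ k := by
    push_cast
    rw [Real.log_pow]
    have := Real.log_two_lt_d9
    have hk : (0 : ℝ) ≤ k := Nat.cast_nonneg k
    nlinarith
  have h3 : ∑ s ∈ Icc 1 (2 ^ k : ℕ), (1 : ℝ) / (s : ℝ) = ∑ s ∈ Icc 1 (2 ^ k : ℕ), ((s : ℝ))⁻¹ := by
    refine sum_congr rfl fun s _ => by rw [one_div]
  rw [h3]
  linarith

theorem init_per (m b : ℤ) (q : ℕ) (a a' : ℤ) (h : (q : ℤ) ∣ a - a') :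
    (q : ℤ) ∣ F m a b ↔ (q : ℤ) ∣ F m a' b := by
  have : F m a b - F m a' b = (a - a') * (a + a' + 3 * m * b) := by
    unfold F; ring
  have h2 : (q : ℤ) ∣ F m a b - F m a' b := by rw [this]; exact Dvd.dvd.mul_right h _
  exact (dvd_iff_dvd_of_dvd_sub h2)

/-- the number of roots of `F m · b` modulo `q` -/
theorem init_rho (m b : ℤ) (q : ℕ) (hq : 0 < q)
    (h : ∀ τ : ℕ, τ.Prime → τ ∣ q → ¬ (τ : ℤ) ∣ 3 * m * b) :
    ((range q).filter (fun t : ℕ => (q : ℤ) ∣ F m t b)).card ≤ 2 ^ q.primeFactors.card := by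
  induction q using Nat.recOnPosPrimePosCoprime with
  | prime_pow p n hp hn =>
    have hr := F_roots hp m b 0 (h p hp (dvd_pow_self p hn.ne')) (j := n) hn
    rw [Nat.primeFactors_prime_pow hn.ne' hp, card_singleton, pow_one]
    refine le_trans (le_of_eq ?_) hr
    congr 1
  | zero => omega
  | one => 
    simp
  | coprime x y hx hy hxy ihx ihy =>
    have hx0 : 0 < x := by omega
    have hy0 : 0 < y := by omega
    have ix := ihx hx0 (fun τ hτ hd => h τ hτ (Dvd.dvd.mul_right hd _))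
    have iy := ihy hy0 (fun τ hτ hd => h τ hτ (Dvd.dvd.mul_left hd _))
    rw [Nat.Coprime.primeFactors_mul hxy, card_union_of_disjoint hxy.disjoint_primeFactors, pow_add]
    refine le_trans ?_ (Nat.mul_le_mul ix iy)
    rw [← card_product]
    refine card_le_card_of_injOn (fun t => (t % x, t % y)) ?_ ?_
    · intro t ht
      simp only [coe_filter, mem_range, Set.mem_ofPred_eq] at ht
      simp only [coe_product, coe_filter, mem_range, Set.mem_prod, Set.mem_ofPred_eq]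
      have hd : ((x * y : ℕ) : ℤ) ∣ F m t b := ht.2
      push_cast at hd
      refine ⟨⟨Nat.mod_lt _ hx0, ?_⟩, ⟨Nat.mod_lt _ hy0, ?_⟩⟩
      · refine (init_per m b x _ _ ?_).1 (dvd_trans (Dvd.intro _ rfl) hd)
        push_cast
        exact Int.dvd_self_sub_emod
      · refine (init_per m b y _ _ ?_).1 (dvd_trans (Dvd.intro_left _ rfl) hd)
        push_cast
        exact Int.dvd_self_sub_emod
    · intro t ht t' ht' he
      simp only [coe_filter, mem_range, Set.mem_ofPred_eq] at ht ht'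
      simp only [Prod.mk.injEq] at he
      have h1 : t ≡ t' [MOD x * y] := (Nat.modEq_and_modEq_iff_modEq_mul hxy).1 ⟨he.1, he.2⟩
      have := h1
      unfold Nat.ModEq at this
      rwa [Nat.mod_eq_of_lt ht.1, Nat.mod_eq_of_lt ht'.1] at this

theorem init_card_per (P : ℕ → Prop) (q X : ℕ) (hq : 0 < q)
    (hP : ∀ a, P a ↔ P (a % q)) :
    ((Icc 1 X).filter P).card ≤ ((range q).filter P).card * (X / q + 1) := by
  rw [mul_comm, ← card_range (X / q + 1), ← card_product]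
  refine card_le_card_of_injOn (fun t => (t / q, t % q)) ?_ ?_
  · intro t ht
    simp only [coe_filter, mem_Icc, Set.mem_ofPred_eq] at ht
    simp only [coe_product, coe_filter, coe_range, mem_range, Set.mem_prod, Set.mem_ofPred_eq, Set.mem_Iio]
    refine ⟨Nat.lt_succ_of_le (Nat.div_le_div_right ht.1.2), Nat.mod_lt _ hq, (hP t).1 ht.2⟩
  · intro t ht t' ht' he
    simp only [Prod.mk.injEq] at he
    rw [← Nat.div_add_mod t q, ← Nat.div_add_mod t' q, he.1, he.2]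

theorem init_four_pow (s : ℕ) (h2 : ¬ 2 ∣ s) (h3 : ¬ 3 ∣ s) : 
    (2 ^ s.primeFactors.card) ^ 2 ≤ s := by
  have hs : s ≠ 0 := by rintro rfl; simp at h2
  rw [← pow_mul, mul_comm, pow_mul]
  calc (2 ^ 2) ^ s.primeFactors.card = ∏ p ∈ s.primeFactors, 4 := by
        rw [prod_const]; norm_num
    _ ≤ ∏ p ∈ s.primeFactors, p := by
        refine prod_le_prod' fun p hp => ?_
        have hpp := Nat.prime_of_mem_primeFactors hp
        have hd := Nat.dvd_of_mem_primeFactors hp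
        have := hpp.two_le
        rcases (by omega : p = 2 ∨ p = 3 ∨ 4 ≤ p) with h | h | h
        · rw [h] at hd; exact absurd hd h2
        · rw [h] at hd; exact absurd hd h3
        · exact h
    _ ≤ s := Nat.le_of_dvd (by omega) (Nat.prod_primeFactors_dvd s)

/-- a divisor in a short range -/
theorem init_divisor (s0 Z z : ℕ) (hZ : 1 ≤ Z) (h : Z < s0)
    (hp : ∀ p : ℕ, p.Prime → p ∣ s0 → p ≤ z) : ∃ s1 : ℕ, s1 ∣ s0 ∧ Z < s1 ∧ s1 ≤ Z * z := by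
  have hex : ∃ s1 : ℕ, s1 ∣ s0 ∧ Z < s1 := ⟨s0, dvd_rfl, h⟩
  refine ⟨Nat.find hex, (Nat.find_spec hex).1, (Nat.find_spec hex).2, ?_⟩
  set s1 := Nat.find hex with hs1
  have h1 : s1 ∣ s0 := (Nat.find_spec hex).1
  have h2 : Z < s1 := (Nat.find_spec hex).2
  obtain ⟨p, hpp, hps⟩ := Nat.exists_prime_and_dvd (by omega : s1 ≠ 1)
  obtain ⟨t, ht⟩ := hps
  have htlt : t < s1 := by
    rw [ht]
    have : 0 < t := by
      rcases Nat.eq_zero_or_pos t with h0 | h0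
      · rw [h0] at ht; omega
      · exact h0
    nlinarith [hpp.two_le]
  have hnot := Nat.find_min hex htlt
  have htd : t ∣ s0 := dvd_trans (Dvd.intro_left _ ht.symm) h1
  have : t ≤ Z := by
    by_contra hc
    exact hnot ⟨htd, by omega⟩
  have hpz := hp p hpp (dvd_trans (Dvd.intro _ ht.symm) h1)
  rw [ht, mul_comm]
  exact Nat.mul_le_mul this hpz


theorem init_unit {m b a : ℤ} (hV : Vx m a b) {τ : ℕ} (hτ : τ.Prime) (h : (τ : ℤ) ∣ F m a b) :
    ¬ (τ : ℤ) ∣ 3 * m * b := by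
  obtain ⟨hab, ham, ha3⟩ := hV
  have hp : Prime (τ : ℤ) := Nat.prime_iff_prime_int.1 hτ
  have key : ∀ x : ℤ, (τ : ℤ) ∣ x → IsCoprime a x → (τ : ℤ) ∣ a ^ 2 → False := by
    intro x hx hc h2
    have h3 := hp.dvd_of_dvd_pow h2
    have := hc.isUnit_of_dvd' h3 hx
    exact hp.not_isUnit this
  intro hd
  rcases hp.dvd_or_dvd hd with hd | hd
  · rcases hp.dvd_or_dvd hd with hd | hd
    · have h3 : (τ : ℤ) ∣ a ^ 2 := by
        have : a ^ 2 = F m a b - 3 * (m * a * b + m ^ 2 * b ^ 2) := by unfold F; ring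
        rw [this]
        exact dvd_sub h (Dvd.dvd.mul_right hd _)
      refine key 3 hd ?_ h3
      have h4 : IsCoprime (1 : ℤ) 3 := isCoprime_one_left
      have h5 : a = 1 + 3 * (a / 3) := by omega
      rw [h5]
      exact h4.add_mul_left_left _
    · refine key m hd ham ?_
      have : a ^ 2 = F m a b - m * (3 * a * b + 3 * m * b ^ 2) := by unfold F; ring
      rw [this]
      exact dvd_sub h (Dvd.dvd.mul_right hd _)
  · refine key b hd hab ?_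
    have : a ^ 2 = F m a b - b * (3 * m * a + 3 * m ^ 2 * b) := by unfold F; ring
    rw [this]
    exact dvd_sub h (Dvd.dvd.mul_right hd _)

/-- primes up to `2^(4n)` not dividing `3mb` -/
noncomputable def initI (m b : ℤ) (n : ℕ) : Finset ℕ :=
  (Icc 1 (2 ^ (4 * n))).filter (fun τ : ℕ => τ.Prime ∧ ¬ (τ : ℤ) ∣ 3 * m * b)

theorem init_mem_filter {α : Type} (s : Finset α) (p : α → Prop) (inst : DecidablePred p) (a : α)
    (h1 : a ∈ s) (h2 : p a) : a ∈ @Finset.filter α p inst s := mem_filter.2 ⟨h1, h2⟩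

theorem init_of_filter {α : Type} (s : Finset α) (p : α → Prop) (inst : DecidablePred p) (a : α)
    (h : a ∈ @Finset.filter α p inst s) : a ∈ s ∧ p a := mem_filter.1 h

theorem init_bm0 (m b : ℤ) (I : Finset ℕ) (k N : ℕ)
    (hmem : ∀ τ ∈ I, τ.Prime ∧ ¬ (τ : ℤ) ∣ 3 * m * b) (μ c : ℝ)
    (hμ : ∑ i ∈ I, (2 : ℝ) / (i : ℝ) ≤ μ) (hω : 2 * (I.card : ℝ) ≤ c) :
    (k.factorial : ℝ) * (((range N).filter (fun a : ℕ => k ≤ (I.filter
      (fun τ : ℕ => (τ : ℤ) ∣ F m a b)).card)).card : ℝ) ≤ N * μ ^ k + c ^ k := by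
  have h := bm I (fun τ => τ) (fun _ => 2) (fun τ a => (τ : ℤ) ∣ F m a b)
    (fun τ hτ => (hmem τ hτ).1.pos)
    (fun τ _ a => by
      refine init_per m b τ _ _ ?_
      push_cast
      exact Int.dvd_self_sub_emod)
    (fun τ hτ => by
      have h1 := init_rho m b τ (hmem τ hτ).1.pos (fun τ' h1 h2 => by
        rw [(Nat.prime_dvd_prime_iff_eq h1 (hmem τ hτ).1).1 h2]
        exact (hmem τ hτ).2)
      rw [(hmem τ hτ).1.primeFactors, card_singleton, pow_one] at h1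
      convert h1) k N
  have hμ' : ∑ i ∈ I, (((2 : ℕ) : ℝ) / (i : ℝ)) ≤ μ := by
    push_cast; exact hμ
  have hω' : ∑ i ∈ I, ((2 : ℕ) : ℝ) ≤ c := by
    rw [sum_const, nsmul_eq_mul]
    push_cast
    linarith
  have hk0 : (0 : ℝ) ≤ (k.factorial : ℝ) := Nat.cast_nonneg _
  have h0 : (0 : ℝ) ≤ ∑ i ∈ I, (((2 : ℕ) : ℝ) / (i : ℝ)) :=
    sum_nonneg fun _ _ => by positivity
  have h0' : (0 : ℝ) ≤ ∑ i ∈ I, ((2 : ℕ) : ℝ) := sum_nonneg fun _ _ => by positivity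
  have hN : (0 : ℝ) ≤ (N : ℝ) := Nat.cast_nonneg _
  refine le_trans ?_ (le_trans h (add_le_add (mul_le_mul_of_nonneg_left
    (pow_le_pow_left₀ h0 hμ' k) hN) (pow_le_pow_left₀ h0' hω' k)))
  refine mul_le_mul_of_nonneg_left ?_ hk0
  rw [card_filter, Nat.cast_sum]
  refine sum_le_sum fun a _ => ?_
  by_cases hc : k ≤ (I.filter (fun τ : ℕ => (τ : ℤ) ∣ F m a b)).card
  · rw [if_pos hc]
    obtain ⟨J, hJ, hJk⟩ := exists_subset_card_eq hc
    refine Nat.cast_le.2 (Finset.card_pos.2 ⟨J, ?_⟩)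
    refine init_mem_filter _ _ _ _ (mem_powersetCard.2 ⟨hJ.trans (filter_subset _ _), hJk⟩)
      ⟨?_, ?_⟩
    · intro i hi i' hi' hne
      exact (Nat.coprime_primes (hmem i (filter_subset _ _ (hJ hi))).1
        (hmem i' (filter_subset _ _ (hJ hi'))).1).2 hne
    · intro i hi
      exact (mem_filter.1 (hJ hi)).2
  · rw [if_neg hc, Nat.cast_zero]
    exact Nat.cast_nonneg _

theorem init_bm (m b : ℤ) (n k N : ℕ) :
    (k.factorial : ℝ) * (((range N).filter (fun a : ℕ => k ≤ ((initI m b n).filter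
      (fun τ : ℕ => (τ : ℤ) ∣ F m a b)).card)).card : ℝ) ≤
      N * (2 * (1 + 4 * n)) ^ k + (2 * 2 ^ (4 * n)) ^ k := by
  refine init_bm0 m b (initI m b n) k N (fun τ hτ => (mem_filter.1 hτ).2) _ _ ?_ ?_
  · have h1 : ∑ i ∈ initI m b n, ((2 : ℝ) / (i : ℝ)) ≤
        ∑ i ∈ Icc 1 (2 ^ (4 * n) : ℕ), ((2 : ℝ) / (i : ℝ)) :=
      sum_le_sum_of_subset_of_nonneg (filter_subset _ _) (fun _ _ _ => by positivity)
    have h2 : ∑ i ∈ Icc 1 (2 ^ (4 * n) : ℕ), ((2 : ℝ) / (i : ℝ)) =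
        2 * ∑ i ∈ Icc 1 (2 ^ (4 * n) : ℕ), (1 : ℝ) / (i : ℝ) := by
      rw [mul_sum]
      refine sum_congr rfl fun i _ => ?_
      rw [mul_one_div]
    have h3 := init_harm (4 * n)
    rw [Nat.cast_mul] at h3
    rw [h2] at h1
    have h4 : ((4 : ℕ) : ℝ) = 4 := by norm_num
    rw [h4] at h3
    linarith
  · have h1 : (initI m b n).card ≤ 2 ^ (4 * n) := by
      refine le_trans (card_filter_le _ _) ?_
      rw [Nat.card_Icc, Nat.add_sub_cancel]
    have h2 : ((initI m b n).card : ℝ) ≤ ((2 ^ (4 * n) : ℕ) : ℝ) := Nat.cast_le.2 h1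
    rw [Nat.cast_pow] at h2
    have h4 : ((2 : ℕ) : ℝ) = 2 := by norm_num
    rw [h4] at h2
    linarith

theorem init_det (η2 : ℝ) (m b : ℤ) (hm : 0 < m) (hb : 0 < b) (s n a Z k T1 : ℕ)
    (hV : Vx m a b) (hT1 : 1 ≤ T1) (hη : (k : ℝ) / T1 ≤ η2) (hk : k ≤ H1 s n)
    (hTn : Tn s n ≤ 2 ^ (4 * n)) (hT0 : T0 s n ≤ 2 ^ (4 * n))
    (h1 : ((initI m b n).filter (fun τ : ℕ => (τ : ℤ) ∣ F m a b)).card ≤ k)
    (h3 : ∀ s0 : ℕ, (s0 : ℤ) ^ 2 ∣ F m a b → s0 ≤ Z) :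
    ∃ D : ℕ, 1 ≤ D ∧ D ≤ Z ^ 2 * 4 ^ T1 ∧ State m b s n D η2 a := by
  have hF : 0 < F m a b := by
    unfold F
    have : 0 < 3 * m ^ 2 * b ^ 2 := by positivity
    have h4 : (0 : ℤ) ≤ 3 * m * a * b := by positivity
    nlinarith [sq_nonneg (a : ℤ)]
  obtain ⟨Φ, hΦ⟩ : ∃ Φ : ℕ, F m a b = Φ := ⟨(F m a b).toNat, by omega⟩
  have hΦ0 : 0 < Φ := by
    rw [hΦ] at hF
    exact_mod_cast hF
  obtain ⟨q0, s0, hs, hq0⟩ := Nat.sq_mul_squarefree Φ
  set g := Nat.gcd q0 (primorial T1) with hg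
  have hq00 : 0 < q0 := by
    rcases Nat.eq_zero_or_pos q0 with h | h
    · rw [h] at hs; omega
    · exact h
  have hs00 : 0 < s0 := by
    rcases Nat.eq_zero_or_pos s0 with h | h
    · rw [h] at hs; simp at hs; omega
    · exact h
  have hg0 : 0 < g := Nat.gcd_pos_of_pos_left _ hq00
  obtain ⟨U, hU⟩ : g ∣ q0 := Nat.gcd_dvd_left _ _
  have hsZ : s0 ≤ Z := by
    refine h3 s0 ?_
    rw [hΦ, ← hs]
    push_cast
    exact Dvd.intro _ rfl
  have hUf : Uf m b (s0 ^ 2 * g) a = U := by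
    unfold Uf
    rw [hΦ, ← hs, hU]
    push_cast
    rw [← mul_assoc]
    refine Int.mul_ediv_cancel_left _ ?_
    positivity
  have hUsq : Squarefree U := by
    refine Squarefree.squarefree_of_dvd ?_ hq0
    rw [hU]; exact Dvd.intro_left _ rfl
  have hUF : ∀ τ : ℕ, (τ : ℤ) ∣ U → (τ : ℤ) ∣ F m a b := by
    intro τ hτ
    rw [hΦ, ← hs, hU]
    push_cast
    exact Dvd.dvd.mul_left (Dvd.dvd.mul_left hτ _) _
  have hbig : ∀ τ : ℕ, τ.Prime → (τ : ℤ) ∣ U → T1 ≤ τ := by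
    intro τ hτ hd
    by_contra hc
    have hd' : τ ∣ U := by exact_mod_cast hd
    have h5 : τ ∣ q0 := by rw [hU]; exact Dvd.dvd.mul_left hd' _
    have h6 : τ ∣ primorial T1 := by
      unfold primorial
      refine dvd_prod_of_mem _ ?_
      rw [mem_filter, mem_range]
      exact ⟨by omega, hτ⟩
    have h7 : τ ∣ g := Nat.dvd_gcd h5 h6
    have h8 : τ * τ ∣ q0 := by
      rw [hU]
      exact Nat.mul_dvd_mul h7 hd'
    have := hq0 τ h8
    exact hτ.not_isUnit this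
  have hsub : ∀ T : ℕ, T ≤ 2 ^ (4 * n) →
      (Icc 1 T).filter (fun τ : ℕ => τ.Prime ∧ (τ : ℤ) ∣ (U : ℤ)) ⊆
      (initI m b n).filter (fun τ : ℕ => (τ : ℤ) ∣ F m a b) := by
    intro T hT τ hτ
    rw [mem_filter, mem_Icc] at hτ
    unfold initI
    rw [mem_filter, mem_filter, mem_Icc]
    have h9 := hUF τ hτ.2.2
    exact ⟨⟨⟨hτ.1.1, hτ.1.2.trans hT⟩, hτ.2.1, init_unit hV hτ.2.1 h9⟩, h9⟩
  refine ⟨s0 ^ 2 * g, ?_, ?_, ?_, ?_, ?_, ?_⟩
  · exact Nat.succ_le_of_lt (by positivity)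
  · have h10 : g ≤ 4 ^ T1 := by
      refine le_trans ?_ (primorial_le_four_pow T1)
      exact Nat.gcd_le_right _ (primorial_pos T1)
    exact Nat.mul_le_mul (Nat.pow_le_pow_left hsZ 2) h10
  · rw [hΦ, ← hs, hU]
    push_cast
    rw [← mul_assoc]
    exact Dvd.intro _ rfl
  · rw [hUf]
    simpa using hUsq
  · rw [hUf]
    unfold ST
    have h11 : ∑ τ ∈ (Icc 1 (Tn s n)).filter (fun τ : ℕ => τ.Prime ∧ (τ : ℤ) ∣ (U : ℤ)),
        (1 : ℝ) / τ ≤ ∑ τ ∈ (Icc 1 (Tn s n)).filter (fun τ : ℕ => τ.Prime ∧ (τ : ℤ) ∣ (U : ℤ)),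
        (1 : ℝ) / T1 := by
      refine sum_le_sum fun τ hτ => ?_
      rw [mem_filter] at hτ
      have h12 : (T1 : ℝ) ≤ τ := by exact_mod_cast hbig τ hτ.2.1 hτ.2.2
      have h13 : (0 : ℝ) < T1 := by exact_mod_cast hT1
      exact one_div_le_one_div_of_le h13 h12
    refine le_trans h11 ?_
    rw [sum_const, nsmul_eq_mul]
    have h14 : (((Icc 1 (Tn s n)).filter (fun τ : ℕ => τ.Prime ∧ (τ : ℤ) ∣ (U : ℤ))).card : ℝ) ≤ k := by
      exact_mod_cast le_trans (card_le_card (hsub _ hTn)) h1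
    refine le_trans ?_ hη
    rw [mul_one_div]
    gcongr
  · rw [hUf]
    unfold om
    exact le_trans (le_trans (card_le_card (hsub _ hT0)) h1) hk


theorem init_cube (n : ℕ) (hn : 12 ≤ n) : (n + 1) ^ 3 ≤ 2 ^ n := by
  induction n, hn using Nat.le_induction with
  | base => norm_num
  | succ n hn ih =>
    have : (n + 1 + 1) ^ 3 ≤ 2 * (n + 1) ^ 3 := by
      obtain ⟨t, rfl⟩ : ∃ t, n = t + 12 := ⟨n - 12, by omega⟩
      ring_nf
      nlinarith [Nat.zero_le t, Nat.zero_le (t^2), Nat.zero_le (t^3)]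
    rw [pow_succ 2 n]
    omega

theorem init_growth (C : ℕ) : ∃ n0 : ℕ, ∀ n ≥ n0, C * (n + 1) ^ 2 ≤ 2 ^ n := by
  refine ⟨max 12 C, fun n hn => ?_⟩
  have h1 := init_cube n (le_trans (le_max_left _ _) hn)
  have h2 : C ≤ n + 1 := by
    have := le_trans (le_max_right 12 C) hn
    omega
  calc C * (n + 1) ^ 2 ≤ (n + 1) * (n + 1) ^ 2 := Nat.mul_le_mul_right _ h2
    _ = (n + 1) ^ 3 := by ring
    _ ≤ 2 ^ n := h1

theorem init_fact (n k : ℕ) (hn : 1 ≤ n) :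
    (2 * (1 + 4 * (n : ℝ))) ^ k * 4 ^ k ≤ k.factorial * 2 ^ (60 * n) := by
  have hn' : (1 : ℝ) ≤ n := by exact_mod_cast hn
  have h1 := Real.pow_div_factorial_le_exp (x := 40 * (n : ℝ)) (by positivity) k
  have h2 : Real.exp (40 * (n : ℝ)) ≤ 2 ^ (60 * n) := by
    have h3 : Real.exp (40 * (n : ℝ)) = (Real.exp 1 ^ 2) ^ (20 * n) := by
      rw [← Real.exp_nat_mul, ← Real.exp_nat_mul]
      congr 1
      push_cast
      ring
    have h4 : Real.exp 1 ^ 2 ≤ 2 ^ 3 := by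
      have := Real.exp_one_lt_d9
      have h0 := Real.exp_pos 1
      nlinarith
    rw [h3]
    calc (Real.exp 1 ^ 2) ^ (20 * n) ≤ (2 ^ 3) ^ (20 * n) := pow_le_pow_left₀ (by positivity) h4 _
      _ = 2 ^ (60 * n) := by rw [← pow_mul]; congr 1; ring
  have hk : (0 : ℝ) < k.factorial := by exact_mod_cast k.factorial_pos
  rw [div_le_iff₀ hk] at h1
  rw [← mul_pow]
  calc (2 * (1 + 4 * (n : ℝ)) * 4) ^ k ≤ (40 * (n : ℝ)) ^ k := by
        refine pow_le_pow_left₀ (by positivity) (by linarith) _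
    _ ≤ Real.exp (40 * n) * k.factorial := h1
    _ ≤ 2 ^ (60 * n) * k.factorial := mul_le_mul_of_nonneg_right h2 hk.le
    _ = k.factorial * 2 ^ (60 * n) := by ring

/-- many small primes: rare -/
theorem init_A1 (m b : ℤ) (κ n j : ℕ) (hn : 2 ≤ n)
    (hj : (4 * n + 1) * ((31 + κ) * n) + κ * n + 3 ≤ j) :
    (((Icc 1 (2 ^ j)).filter (fun a : ℕ => (31 + κ) * n ≤ ((initI m b n).filter
      (fun τ : ℕ => (τ : ℤ) ∣ F m a b)).card)).card : ℝ) ≤ 2 ^ j / 2 ^ (κ * n) * (1 / 4) := by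
  set k := (31 + κ) * n with hk
  have h1 := init_bm m b n k (2 ^ j + 1)
  have h2 := init_fact n k (by omega)
  have hkf : (1 : ℝ) ≤ k.factorial := by exact_mod_cast k.factorial_pos
  have h3 : ((Icc 1 (2 ^ j)).filter (fun a : ℕ => k ≤ ((initI m b n).filter
      (fun τ : ℕ => (τ : ℤ) ∣ F m a b)).card)).card ≤
      ((range (2 ^ j + 1)).filter (fun a : ℕ => k ≤ ((initI m b n).filter
      (fun τ : ℕ => (τ : ℤ) ∣ F m a b)).card)).card := by
    refine card_le_card (filter_subset_filter _ ?_)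
    intro a ha
    rw [mem_Icc] at ha
    rw [mem_range]
    omega
  have h3' : (((Icc 1 (2 ^ j)).filter (fun a : ℕ => k ≤ ((initI m b n).filter
      (fun τ : ℕ => (τ : ℤ) ∣ F m a b)).card)).card : ℝ) ≤
      (((range (2 ^ j + 1)).filter (fun a : ℕ => k ≤ ((initI m b n).filter
      (fun τ : ℕ => (τ : ℤ) ∣ F m a b)).card)).card : ℝ) := Nat.cast_le.2 h3
  refine le_trans h3' ?_
  set c := (((range (2 ^ j + 1)).filter (fun a : ℕ => k ≤ ((initI m b n).filter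
      (fun τ : ℕ => (τ : ℤ) ∣ F m a b)).card)).card : ℝ) with hc
  clear_value c
  set R : ℝ := 2 ^ j / 2 ^ (κ * n) with hR
  have hRpos : 0 < R := by positivity
  -- first term
  have h4 : ((2 ^ j + 1 : ℕ) : ℝ) * (2 * (1 + 4 * (n : ℝ))) ^ k ≤ k.factorial * (R * (1 / 8)) := by
    have h5 : ((2 ^ j + 1 : ℕ) : ℝ) ≤ 2 ^ (j + 1) := by
      have : (1 : ℝ) ≤ 2 ^ j := one_le_pow₀ (by norm_num)
      push_cast
      rw [pow_succ]
      linarith
    have h6 : (0 : ℝ) < 4 ^ k := by positivity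
    rw [← mul_le_mul_iff_left₀ h6]
    calc ((2 ^ j + 1 : ℕ) : ℝ) * (2 * (1 + 4 * (n : ℝ))) ^ k * 4 ^ k =
        ((2 ^ j + 1 : ℕ) : ℝ) * ((2 * (1 + 4 * (n : ℝ))) ^ k * 4 ^ k) := by ring
      _ ≤ 2 ^ (j + 1) * (k.factorial * 2 ^ (60 * n)) := by
          refine mul_le_mul h5 h2 (by positivity) (by positivity)
      _ = k.factorial * (2 ^ (j + 1) * 2 ^ (60 * n)) := by ring
      _ ≤ k.factorial * (R * (1 / 8) * 4 ^ k) := by
          refine mul_le_mul_of_nonneg_left ?_ (by positivity)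
          have h7 : (4 : ℝ) ^ k = 2 ^ (2 * k) := by rw [pow_mul (2 : ℝ) 2 k]; norm_num
          have h8 : R * (1 / 8) * 4 ^ k * 2 ^ (κ * n + 3) = 2 ^ j * 2 ^ (2 * k) := by
            rw [hR, h7, pow_add]
            field_simp
            norm_num
          have h9 : (2 : ℝ) ^ (j + 1) * 2 ^ (60 * n) * 2 ^ (κ * n + 3) ≤ 2 ^ j * 2 ^ (2 * k) := by
            rw [← pow_add, ← pow_add, ← pow_add]
            refine pow_le_pow_right₀ (by norm_num) ?_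
            rw [hk]
            nlinarith
          have h10 : (0 : ℝ) < 2 ^ (κ * n + 3) := by positivity
          rw [← h8] at h9
          exact le_of_mul_le_mul_right h9 h10
      _ = k.factorial * (R * (1 / 8)) * 4 ^ k := by ring
  have h5 : (2 * (2 : ℝ) ^ (4 * n)) ^ k ≤ k.factorial * (R * (1 / 8)) := by
    have h6 : (2 * (2 : ℝ) ^ (4 * n)) ^ k = 2 ^ ((4 * n + 1) * k) := by
      rw [← pow_succ', ← pow_mul]
    have h7 : (2 : ℝ) ^ ((4 * n + 1) * k) ≤ R * (1 / 8) := by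
      have h8 : R * (1 / 8) * 2 ^ (κ * n + 3) = 2 ^ j := by
        rw [hR, pow_add]
        field_simp
        norm_num
      have h9 : (2 : ℝ) ^ ((4 * n + 1) * k) * 2 ^ (κ * n + 3) ≤ 2 ^ j := by
        rw [← pow_add]
        refine pow_le_pow_right₀ (by norm_num) ?_
        omega
      have h10 : (0 : ℝ) < 2 ^ (κ * n + 3) := by positivity
      rw [← h8] at h9
      exact le_of_mul_le_mul_right h9 h10
    rw [h6]
    refine le_trans h7 ?_
    have : 0 ≤ R * (1 / 8) := by positivity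
    nlinarith
  have h6 : (k.factorial : ℝ) * c ≤ k.factorial * (R * (1 / 4)) := by
    have h7 : (k.factorial : ℝ) * (R * (1 / 4)) = k.factorial * (R * (1 / 8)) + k.factorial * (R * (1 / 8)) := by
      ring
    rw [h7]
    exact le_trans h1 (add_le_add h4 h5)
  exact le_of_mul_le_mul_left h6 (by linarith)

/-- large square divisors: rare -/
theorem init_A3 (m b : ℤ) (hm2 : (2 : ℤ) ∣ m) (κ n j : ℕ)
    (hn : 8 * (1 + (3 * κ + 6) * n) ≤ 2 ^ n)
    (hj : 2 * ((3 * κ + 6) * n) + κ * n + 3 ≤ j) :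
    (((Icc 1 (2 ^ j)).filter (fun a : ℕ => ∃ s ∈ Ioc (2 ^ (2 * (κ + 1) * n))
      (2 ^ ((3 * κ + 6) * n)), (∀ τ : ℕ, τ.Prime → τ ∣ s → ¬ (τ : ℤ) ∣ 3 * m * b) ∧
      (s : ℤ) ^ 2 ∣ F m a b)).card : ℝ) ≤ 2 ^ j / 2 ^ (κ * n) * (1 / 4) := by
  set Z := 2 ^ (2 * (κ + 1) * n) with hZ
  set W := 2 ^ ((3 * κ + 6) * n) with hW
  set S := (Ioc Z W).filter (fun s : ℕ => ∀ τ : ℕ, τ.Prime → τ ∣ s → ¬ (τ : ℤ) ∣ 3 * m * b) with hS
  set G : ℕ → Finset ℕ := fun s => (Icc 1 (2 ^ j)).filter (fun a : ℕ => (s : ℤ) ^ 2 ∣ F m a b) with hG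
  have h1 : ∀ a : ℕ, a ∈ Icc 1 (2 ^ j) → (∃ s ∈ Ioc Z W,
      (∀ τ : ℕ, τ.Prime → τ ∣ s → ¬ (τ : ℤ) ∣ 3 * m * b) ∧ (s : ℤ) ^ 2 ∣ F m a b) →
      a ∈ S.biUnion G := by
    intro a ha1 ha
    obtain ⟨s, hs, hs1, hs2⟩ := ha
    rw [mem_biUnion]
    exact ⟨s, by rw [hS, mem_filter]; exact ⟨hs, hs1⟩, by rw [hG, mem_filter]; exact ⟨ha1, hs2⟩⟩
  have h2 : ∀ s ∈ S, ((G s).card : ℝ) ≤
      2 ^ j / 2 ^ ((κ + 1) * n) * (1 / s) + W := by
    intro s hs
    rw [hS, mem_filter, mem_Ioc] at hs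
    obtain ⟨⟨hsZ, hsW⟩, hs1⟩ := hs
    have hs0 : 0 < s := lt_of_le_of_lt (Nat.zero_le _) hsZ
    have h2s : ¬ 2 ∣ s := by
      intro h
      exact hs1 2 Nat.prime_two h (Dvd.dvd.mul_right (Dvd.dvd.mul_left (by exact_mod_cast hm2) _) _)
    have h3s : ¬ 3 ∣ s := by
      intro h
      refine hs1 3 Nat.prime_three h ?_
      push_cast
      rw [mul_assoc]
      exact Dvd.intro _ rfl
    have h4 := init_four_pow s h2s h3s
    have h5 := init_rho m b (s ^ 2) (by positivity) (fun τ hτ hd => hs1 τ hτ (hτ.dvd_of_dvd_pow hd))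
    rw [Nat.primeFactors_pow s (by norm_num : (2 : ℕ) ≠ 0)] at h5
    have h6 := init_card_per (fun a : ℕ => ((s ^ 2 : ℕ) : ℤ) ∣ F m a b) (s ^ 2) (2 ^ j) (by positivity)
      (fun a => by
        refine init_per m b (s ^ 2) _ _ ?_
        push_cast
        exact Int.dvd_self_sub_emod)
    set w := 2 ^ s.primeFactors.card with hw
    have h7 : w * 2 ^ ((κ + 1) * n) ≤ s := by
      have h8 : (w * 2 ^ ((κ + 1) * n)) ^ 2 ≤ s ^ 2 := by
        rw [mul_pow]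
        have h9 : (2 ^ ((κ + 1) * n)) ^ 2 = Z := by
          rw [hZ, ← pow_mul]; congr 1; ring
        rw [h9, sq s]
        exact Nat.mul_le_mul h4 hsZ.le
      exact (Nat.pow_le_pow_iff_left (by norm_num : (2 : ℕ) ≠ 0)).1 h8
    have hsr : (0 : ℝ) < s := by exact_mod_cast hs0
    have h7' : (w : ℝ) * 2 ^ ((κ + 1) * n) ≤ s := by exact_mod_cast h7
    have hws : (w : ℝ) ≤ W := by
      have h10 : w ≤ w * 2 ^ ((κ + 1) * n) := Nat.le_mul_of_pos_right _ (by positivity)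
      exact_mod_cast le_trans h10 (le_trans h7 hsW)
    have h8 : ((G s).card : ℝ) ≤ w * (((2 ^ j / s ^ 2 : ℕ) : ℝ) + 1) := by
      have h9 : (G s).card ≤ w * (2 ^ j / s ^ 2 + 1) := by
        have h10 := le_trans h6 (Nat.mul_le_mul_right (2 ^ j / s ^ 2 + 1) (by convert h5))
        refine le_trans (card_le_card ?_) h10
        intro a ha
        rw [hG, mem_filter] at ha
        refine init_mem_filter _ _ _ _ ha.1 ?_
        push_cast
        exact ha.2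
      exact_mod_cast h9
    have h9 : ((2 ^ j / s ^ 2 : ℕ) : ℝ) ≤ 2 ^ j / s ^ 2 := by
      have := @Nat.cast_div_le ℝ _ _ _ (2 ^ j) (s ^ 2)
      push_cast at this
      exact this
    have hw0 : (0 : ℝ) ≤ w := Nat.cast_nonneg _
    calc ((G s).card : ℝ) ≤ w * (((2 ^ j / s ^ 2 : ℕ) : ℝ) + 1) := h8
      _ ≤ w * (2 ^ j / s ^ 2 + 1) := by gcongr
      _ = w * (2 ^ j / s ^ 2) + w := by ring
      _ ≤ 2 ^ j / 2 ^ ((κ + 1) * n) * (1 / s) + W := by
          refine add_le_add ?_ hws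
          rw [mul_div_assoc', div_mul_div_comm, div_le_div_iff₀ (by positivity) (by positivity)]
          have h11 : (0 : ℝ) ≤ 2 ^ j * s := by positivity
          calc (w : ℝ) * 2 ^ j * (2 ^ ((κ + 1) * n) * s) =
              (w * 2 ^ ((κ + 1) * n)) * (2 ^ j * s) := by ring
            _ ≤ s * (2 ^ j * s) := mul_le_mul_of_nonneg_right h7' h11
            _ = 2 ^ j * 1 * s ^ 2 := by ring
  refine le_trans (b := ∑ s ∈ S, ((G s).card : ℝ)) ?_ (le_trans (sum_le_sum h2) ?_)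
  · rw [← Nat.cast_sum]
    refine Nat.cast_le.2 (le_trans (card_le_card ?_) card_biUnion_le)
    intro a ha
    have := init_of_filter _ _ _ _ ha
    exact h1 a this.1 this.2
  rw [sum_add_distrib, ← mul_sum, sum_const, nsmul_eq_mul]
  have hSW : S ⊆ Icc 1 W := by
    intro s hs
    rw [hS, mem_filter, mem_Ioc] at hs
    rw [mem_Icc]
    exact ⟨lt_of_le_of_lt (Nat.zero_le _) hs.1.1, hs.1.2⟩
  have h4 : ∑ s ∈ S, (1 : ℝ) / (s : ℝ) ≤ 1 + (((3 * κ + 6) * n : ℕ) : ℝ) := by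
    refine le_trans (sum_le_sum_of_subset_of_nonneg hSW (fun _ _ _ => by positivity)) ?_
    exact init_harm _
  have h5 : (S.card : ℝ) ≤ W := by
    have := card_le_card hSW
    rw [Nat.card_Icc, Nat.add_sub_cancel] at this
    exact_mod_cast this
  have h6 : (2 : ℝ) ^ j / 2 ^ ((κ + 1) * n) * (1 + (((3 * κ + 6) * n : ℕ) : ℝ)) ≤
      2 ^ j / 2 ^ (κ * n) * (1 / 8) := by
    have h7 : (8 : ℝ) * (1 + (((3 * κ + 6) * n : ℕ) : ℝ)) ≤ 2 ^ n := by exact_mod_cast hn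
    have h8 : (2 : ℝ) ^ ((κ + 1) * n) = 2 ^ (κ * n) * 2 ^ n := by rw [← pow_add]; congr 1; ring
    rw [h8, ← div_div]
    have h9 : (0 : ℝ) < 2 ^ j / 2 ^ (κ * n) := by positivity
    rw [div_mul_eq_mul_div, mul_div_assoc]
    refine mul_le_mul_of_nonneg_left ?_ h9.le
    rw [div_le_div_iff₀ (by positivity) (by norm_num)]
    linarith
  have h7 : ((W : ℝ)) * W ≤ 2 ^ j / 2 ^ (κ * n) * (1 / 8) := by
    have h8 : (2 : ℝ) ^ j / 2 ^ (κ * n) * (1 / 8) * 2 ^ (κ * n + 3) = 2 ^ j := by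
      rw [pow_add]
      field_simp
      norm_num
    have h9 : (W : ℝ) * W * 2 ^ (κ * n + 3) ≤ 2 ^ j := by
      rw [hW]
      push_cast
      rw [← pow_add, ← pow_add]
      refine pow_le_pow_right₀ (by norm_num) ?_
      omega
    rw [← h8] at h9
    exact le_of_mul_le_mul_right h9 (by positivity)
  have h8 : (0 : ℝ) ≤ 2 ^ j / 2 ^ ((κ + 1) * n) := by positivity
  have h9 : (0 : ℝ) ≤ (W : ℝ) := Nat.cast_nonneg _
  have h10 := mul_le_mul_of_nonneg_left h4 h8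
  have h11 := mul_le_mul_of_nonneg_right h5 h9
  linarith


/-- a large prime square: rare -/
theorem init_A2 (m b : ℤ) (hm : 0 < m) (hb : 0 < b) (κ : ℕ) : ∃ n0 : ℕ, ∀ n ≥ n0, ∀ j : ℕ,
    2 ^ n ≤ j → (((Icc 1 (2 ^ j)).filter (fun a : ℕ => ∃ τ : ℕ, τ.Prime ∧
      2 ^ ((κ + 4) * n) < τ ∧ τ ≠ 2 ∧ ¬ (τ : ℤ) ∣ 3 * m * b ∧ (τ : ℤ) ^ 2 ∣ F m a b)).card : ℝ) ≤
      2 ^ j / 2 ^ (κ * n) * (1 / 4) := by
  obtain ⟨j0, hj0⟩ := large_sq
  obtain ⟨n1, hn1⟩ := init_growth (100 * ((3 * m ^ 2 * b ^ 2 + 3 * m * b).toNat + κ + 10) + j0)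
  refine ⟨max n1 1, fun n hn j hj => ?_⟩
  have hnn : n1 ≤ n := le_trans (le_max_left _ _) hn
  have hn1' : 1 ≤ n := le_trans (le_max_right _ _) hn
  have hg := le_trans (hn1 n hnn) hj
  set K := (3 * m ^ 2 * b ^ 2 + 3 * m * b).toNat with hK
  have hx : 0 < 3 * m ^ 2 * b ^ 2 := by positivity
  have hy : 0 < 3 * m * b := by positivity
  have hKi : (K : ℤ) = 3 * m ^ 2 * b ^ 2 + 3 * m * b := by
    rw [hK]; exact Int.toNat_of_nonneg (by positivity)
  have hg1 : 100 * (K + κ + 10) + j0 ≤ j := by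
    refine le_trans ?_ hg
    exact Nat.le_mul_of_pos_right _ (by positivity)
  have hjK : K + κ + 10 ≤ j / 100 := by
    rw [Nat.le_div_iff_mul_le (by norm_num)]
    omega
  have hpow : (K : ℤ) + 10 ≤ 2 ^ (j / 100) := by
    have h1 : K + κ + 10 < 2 ^ (K + κ + 10) := Nat.lt_two_pow_self
    have h2 : 2 ^ (K + κ + 10) ≤ 2 ^ (j / 100) := Nat.pow_le_pow_right (by norm_num) hjK
    have h3 : K + 10 ≤ 2 ^ (j / 100) := by omega
    exact_mod_cast h3
  have h20 : κ * n + 3 ≤ j / 20 := by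
    rw [Nat.le_div_iff_mul_le (by norm_num)]
    refine le_trans ?_ hg
    have h1 : n ≤ (n + 1) ^ 2 := by nlinarith
    have h2 : 1 ≤ (n + 1) ^ 2 := by nlinarith
    have h3 : κ * n ≤ κ * (n + 1) ^ 2 := Nat.mul_le_mul_left _ h1
    nlinarith [Nat.zero_le (K * (n + 1) ^ 2), Nat.zero_le (j0 * (n + 1) ^ 2)]
  have h := hj0 j (by omega) 2 (3 * m * b) (3 * m ^ 2 * b ^ 2) 1 (2 ^ ((κ + 4) * n)) (range 1)
    (by norm_num) (by omega) (by omega) (by rw [abs_of_pos hy]; omega) (by omega) le_rfl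
    Nat.one_le_two_pow Nat.one_le_two_pow (subset_refl _)
  have hsub : ((Icc 1 (2 ^ j)).filter (fun a : ℕ => ∃ τ : ℕ, τ.Prime ∧
      2 ^ ((κ + 4) * n) < τ ∧ τ ≠ 2 ∧ ¬ (τ : ℤ) ∣ 3 * m * b ∧ (τ : ℤ) ^ 2 ∣ F m a b)).card ≤
      ((Icc 1 (2 ^ j)).filter (fun a : ℕ => a % 1 ∈ range 1 ∧ ∃ τ : ℕ, τ.Prime ∧
        2 ^ ((κ + 4) * n) < τ ∧ τ ≠ 2 ∧ ¬ (τ : ℤ) ∣ 2 * (3 * m ^ 2 * b ^ 2) ∧ ¬ τ ∣ 1 ∧
        (τ : ℤ) ^ 2 ∣ (2 * a + 3 * m * b) ^ 2 + 3 * m ^ 2 * b ^ 2)).card := by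
    refine card_le_card ?_
    intro a ha
    rw [mem_filter] at ha ⊢
    obtain ⟨ha1, τ, hτ, hz, h2, h3, h4⟩ := ha
    refine ⟨ha1, by simp [Nat.mod_one], τ, hτ, hz, h2, ?_, ?_, ?_⟩
    · intro hd
      have hp : Prime (τ : ℤ) := Nat.prime_iff_prime_int.1 hτ
      rcases hp.dvd_or_dvd hd with hd | hd
      · have : τ ∣ 2 := by exact_mod_cast hd
        exact h2 ((Nat.prime_dvd_prime_iff_eq hτ Nat.prime_two).1 this)
      · have e1 : 3 * m ^ 2 * b ^ 2 = (3 * m * b) * (m * b) := by ring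
        rw [e1] at hd
        rcases hp.dvd_or_dvd hd with hd | hd
        · exact h3 hd
        · refine h3 ?_
          rw [mul_assoc]
          exact Dvd.dvd.mul_left hd _
    · intro hd
      exact hτ.one_lt.ne' (Nat.dvd_one.1 hd)
    · have e1 : (2 * (a : ℤ) + 3 * m * b) ^ 2 + 3 * m ^ 2 * b ^ 2 = 4 * F m a b := by
        unfold F; ring
      rw [e1]
      exact Dvd.dvd.mul_left h4 _
  refine le_trans (Nat.cast_le.2 hsub) (le_trans (by convert h) ?_)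
  rw [card_range]
  have hR : (0 : ℝ) < 2 ^ j / 2 ^ (κ * n) := by positivity
  have h5 : 2 * ((1 : ℕ) : ℝ) * 2 ^ j / (((1 : ℕ) : ℝ) * ((2 ^ ((κ + 4) * n) : ℕ) : ℝ)) ≤
      2 ^ j / 2 ^ (κ * n) * (1 / 8) := by
    push_cast
    have e1 : (2 : ℝ) ^ ((κ + 4) * n) = 2 ^ (κ * n) * 2 ^ (4 * n) := by
      rw [← pow_add]; congr 1; ring
    have e2 : (16 : ℝ) ≤ 2 ^ (4 * n) := by
      calc (16 : ℝ) = 2 ^ (4 * 1) := by norm_num
        _ ≤ 2 ^ (4 * n) := pow_le_pow_right₀ (by norm_num) (by omega)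
    rw [e1, mul_one, one_mul, ← div_div, mul_div_assoc, mul_comm 2, mul_div_assoc]
    refine mul_le_mul_of_nonneg_left ?_ hR.le
    rw [div_le_div_iff₀ (by positivity) (by norm_num)]
    linarith
  have h6 : (2 : ℝ) ^ (j - j / 20) ≤ 2 ^ j / 2 ^ (κ * n) * (1 / 8) := by
    have h8 : (2 : ℝ) ^ j / 2 ^ (κ * n) * (1 / 8) * 2 ^ (κ * n + 3) = 2 ^ j := by
      rw [pow_add]
      field_simp
      norm_num
    have h9 : (2 : ℝ) ^ (j - j / 20) * 2 ^ (κ * n + 3) ≤ 2 ^ j := by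
      rw [← pow_add]
      refine pow_le_pow_right₀ (by norm_num) ?_
      omega
    rw [← h8] at h9
    exact le_of_mul_le_mul_right h9 (by positivity)
  linarith

/-- almost every vertex has a state with a small divisor -/
theorem init (η2 : ℝ) (h2 : 0 < η2) (m b : ℤ) (hm : 0 < m) (hb : 0 < b) (hm2 : (2 : ℤ) ∣ m)
    (s κ : ℕ) (hs : 16 ≤ s) :
    ∃ C0 n0 : ℕ, ∀ n ≥ n0, ∀ j : ℕ, 2 ^ n ≤ j → j < 2 ^ (n + 1) →
      (((Icc 1 (2 ^ j)).filter (fun a : ℕ => Vx m a b ∧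
        ¬ ∃ D : ℕ, 1 ≤ D ∧ D ≤ 2 ^ (C0 * n) ∧ State m b s n D η2 a)).card : ℝ) ≤
        2 ^ j / 2 ^ (κ * n) := by
  obtain ⟨n1, hn1⟩ := init_A2 m b hm hb κ
  obtain ⟨n2, hn2⟩ := init_growth (8 * (3 * κ + 7) + 5 * (31 + κ) + κ + 3)
  obtain ⟨n3, hn3⟩ := init_growth ((31 + κ) * (2 * s))
  set C1 := ⌈((31 + κ : ℕ) : ℝ) / η2⌉₊ with hC1
  refine ⟨4 * (κ + 1) + 2 * C1, max n1 (max n2 (max (2 * s * n3) 2)), fun n hn j hj _ => ?_⟩
  have hna : n1 ≤ n := le_trans (le_max_left _ _) hn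
  have hnb : n2 ≤ n := le_trans (le_trans (le_max_left _ _) (le_max_right _ _)) hn
  have hnc : 2 * s * n3 ≤ n := le_trans (le_trans (le_trans (le_max_left _ _)
    (le_max_right _ _)) (le_max_right _ _)) hn
  have hnd : 2 ≤ n := le_trans (le_trans (le_trans (le_max_right _ _)
    (le_max_right _ _)) (le_max_right _ _)) hn
  have hg := hn2 n hnb
  have e1 : n ≤ (n + 1) ^ 2 := by nlinarith
  have e2 : 1 ≤ (n + 1) ^ 2 := by nlinarith
  have e3 : n ^ 2 ≤ (n + 1) ^ 2 := by nlinarith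
  have hA1 := init_A1 m b κ n j hnd (by
    refine le_trans ?_ (le_trans hg hj)
    have f1 : (4 * n + 1) * ((31 + κ) * n) ≤ 5 * (31 + κ) * (n + 1) ^ 2 := by
      have : (4 * n + 1) * n ≤ 5 * (n + 1) ^ 2 := by nlinarith
      calc (4 * n + 1) * ((31 + κ) * n) = (31 + κ) * ((4 * n + 1) * n) := by ring
        _ ≤ (31 + κ) * (5 * (n + 1) ^ 2) := Nat.mul_le_mul_left _ this
        _ = 5 * (31 + κ) * (n + 1) ^ 2 := by ring
    have f2 : κ * n ≤ κ * (n + 1) ^ 2 := Nat.mul_le_mul_left _ e1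
    have f3 : (8 * (3 * κ + 7) + 5 * (31 + κ) + κ + 3) * (n + 1) ^ 2 =
      8 * (3 * κ + 7) * (n + 1) ^ 2 + 5 * (31 + κ) * (n + 1) ^ 2 + κ * (n + 1) ^ 2 +
        3 * (n + 1) ^ 2 := by ring
    rw [f3]
    omega)
  have hA2 := hn1 n hna j hj
  have hA3 := init_A3 m b hm2 κ n j (by
    refine le_trans ?_ hg
    have f2 : (3 * κ + 6) * n ≤ (3 * κ + 6) * (n + 1) ^ 2 := Nat.mul_le_mul_left _ e1
    have f3 : (8 * (3 * κ + 7) + 5 * (31 + κ) + κ + 3) * (n + 1) ^ 2 =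
      8 * ((3 * κ + 6) * (n + 1) ^ 2) + 8 * (n + 1) ^ 2 + 5 * (31 + κ) * (n + 1) ^ 2 +
        κ * (n + 1) ^ 2 + 3 * (n + 1) ^ 2 := by ring
    rw [f3]
    omega) (by
    refine le_trans ?_ (le_trans hg hj)
    have f2 : (3 * κ + 6) * n ≤ (3 * κ + 6) * (n + 1) ^ 2 := Nat.mul_le_mul_left _ e1
    have f4 : κ * n ≤ κ * (n + 1) ^ 2 := Nat.mul_le_mul_left _ e1
    have f3 : (8 * (3 * κ + 7) + 5 * (31 + κ) + κ + 3) * (n + 1) ^ 2 =
      8 * ((3 * κ + 6) * (n + 1) ^ 2) + 8 * (n + 1) ^ 2 + 5 * (31 + κ) * (n + 1) ^ 2 +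
        κ * (n + 1) ^ 2 + 3 * (n + 1) ^ 2 := by ring
    rw [f3]
    omega)
  -- the sizes
  have hC1pos : 1 ≤ C1 := by
    rw [hC1]
    refine Nat.ceil_pos.2 ?_
    positivity
  have hη : (((31 + κ) * n : ℕ) : ℝ) / ((C1 * n : ℕ) : ℝ) ≤ η2 := by
    have f1 : ((31 + κ : ℕ) : ℝ) / η2 ≤ C1 := Nat.le_ceil _
    rw [div_le_iff₀ h2] at f1
    have f2 : (0 : ℝ) < ((C1 * n : ℕ) : ℝ) := by
      have : 0 < C1 * n := by positivity
      exact_mod_cast this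
    rw [div_le_iff₀ f2]
    push_cast at f1 ⊢
    have f3 : (0 : ℝ) ≤ n := Nat.cast_nonneg _
    nlinarith
  have hk : (31 + κ) * n ≤ H1 s n := by
    unfold H1
    rw [Nat.div_div_eq_div_mul]
    set w := n / (s * 2) with hw
    have f1 : n3 ≤ w := by
      rw [hw, Nat.le_div_iff_mul_le (by omega)]
      calc n3 * (s * 2) = 2 * s * n3 := by ring
        _ ≤ n := hnc
    have f2 := hn3 w f1
    have f3 : n ≤ 2 * s * (w + 1) := by
      have := Nat.div_add_mod n (s * 2)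
      have h4 := Nat.mod_lt n (by omega : 0 < s * 2)
      rw [← hw] at this
      nlinarith
    calc (31 + κ) * n ≤ (31 + κ) * (2 * s * (w + 1)) := Nat.mul_le_mul_left _ f3
      _ ≤ (31 + κ) * (2 * s) * (w + 1) ^ 2 := by
          have : w + 1 ≤ (w + 1) ^ 2 := by nlinarith
          calc (31 + κ) * (2 * s * (w + 1)) = (31 + κ) * (2 * s) * (w + 1) := by ring
            _ ≤ _ := Nat.mul_le_mul_left _ this
      _ ≤ 2 ^ w := f2
  have hdiv : n / s ≤ n := Nat.div_le_self _ _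
  have hTn : Tn s n ≤ 2 ^ (4 * n) := Nat.pow_le_pow_right (by norm_num) (by omega)
  have hT0 : T0 s n ≤ 2 ^ (4 * n) := by
    unfold T0
    calc n * 2 ^ (n / s) ≤ 2 ^ n * 2 ^ n :=
          Nat.mul_le_mul Nat.lt_two_pow_self.le (Nat.pow_le_pow_right (by norm_num) hdiv)
      _ = 2 ^ (2 * n) := by rw [← pow_add]; congr 1; ring
      _ ≤ 2 ^ (4 * n) := Nat.pow_le_pow_right (by norm_num) (by omega)
  -- the inclusion
  have hmain : ((Icc 1 (2 ^ j)).filter (fun a : ℕ => Vx m a b ∧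
      ¬ ∃ D : ℕ, 1 ≤ D ∧ D ≤ 2 ^ ((4 * (κ + 1) + 2 * C1) * n) ∧ State m b s n D η2 a)) ⊆
      ((Icc 1 (2 ^ j)).filter (fun a : ℕ => (31 + κ) * n ≤ ((initI m b n).filter
        (fun τ : ℕ => (τ : ℤ) ∣ F m a b)).card)) ∪
      (((Icc 1 (2 ^ j)).filter (fun a : ℕ => ∃ τ : ℕ, τ.Prime ∧ 2 ^ ((κ + 4) * n) < τ ∧ τ ≠ 2 ∧
        ¬ (τ : ℤ) ∣ 3 * m * b ∧ (τ : ℤ) ^ 2 ∣ F m a b)) ∪
      ((Icc 1 (2 ^ j)).filter (fun a : ℕ => ∃ s ∈ Ioc (2 ^ (2 * (κ + 1) * n))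
        (2 ^ ((3 * κ + 6) * n)), (∀ τ : ℕ, τ.Prime → τ ∣ s → ¬ (τ : ℤ) ∣ 3 * m * b) ∧
        (s : ℤ) ^ 2 ∣ F m a b))) := by
    intro a ha
    rw [mem_filter] at ha
    obtain ⟨ha1, hV, hno⟩ := ha
    rw [mem_union, mem_union]
    by_contra hc
    push Not at hc
    obtain ⟨hc1, hc2, hc3⟩ := hc
    apply hno
    have hc1' : ((initI m b n).filter (fun τ : ℕ => (τ : ℤ) ∣ F m a b)).card ≤ (31 + κ) * n := by
      by_contra hcc
      exact hc1 (init_mem_filter _ _ _ _ ha1 (by omega))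
    obtain ⟨D, hD1, hD2, hD3⟩ := init_det η2 m b hm hb s n a (2 ^ (2 * (κ + 1) * n)) ((31 + κ) * n)
      (C1 * n) hV (by nlinarith) hη hk hTn hT0 hc1' (by
        intro s0 hs0
        by_contra hbig
        have hbig' : 2 ^ (2 * (κ + 1) * n) < s0 := by omega
        have hprime : ∀ p : ℕ, p.Prime → p ∣ s0 → p ≤ 2 ^ ((κ + 4) * n) := by
          intro p hp hps
          by_contra hpz
          have hp2 : (p : ℤ) ^ 2 ∣ F m a b := by
            refine dvd_trans ?_ hs0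
            exact pow_dvd_pow_of_dvd (by exact_mod_cast hps) 2
          have hpF : (p : ℤ) ∣ F m a b := dvd_trans (dvd_pow_self _ (by norm_num)) hp2
          have hun := init_unit hV hp hpF
          refine hc2 (init_mem_filter _ _ _ _ ha1 ⟨p, hp, by omega, ?_, hun, hp2⟩)
          rintro rfl
          refine hun (Dvd.dvd.mul_right (Dvd.dvd.mul_left ?_ _) _)
          exact_mod_cast hm2
        obtain ⟨s1, hs1, hs1a, hs1b⟩ := init_divisor s0 (2 ^ (2 * (κ + 1) * n))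
          (2 ^ ((κ + 4) * n)) Nat.one_le_two_pow hbig' hprime
        refine hc3 (init_mem_filter _ _ _ _ ha1 ⟨s1, ?_, ?_, ?_⟩)
        · rw [mem_Ioc]
          refine ⟨hs1a, le_trans hs1b (le_of_eq ?_)⟩
          rw [← pow_add]
          congr 1
          ring
        · intro τ hτ hτs
          refine init_unit hV hτ ?_
          refine dvd_trans ?_ hs0
          refine dvd_trans ?_ (dvd_pow_self _ (by norm_num : (2 : ℕ) ≠ 0))
          exact_mod_cast dvd_trans hτs hs1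
        · refine dvd_trans ?_ hs0
          exact pow_dvd_pow_of_dvd (by exact_mod_cast hs1) 2)
    refine ⟨D, hD1, le_trans hD2 (le_of_eq ?_), hD3⟩
    have e4 : (4 : ℕ) ^ (C1 * n) = 2 ^ (2 * (C1 * n)) := by rw [pow_mul 2 2]; norm_num
    rw [e4, ← pow_mul, ← pow_add]
    congr 1
    ring
  have hcard := le_trans (card_le_card hmain) (le_trans (card_union_le _ _)
    (Nat.add_le_add_left (card_union_le _ _) _))
  have hR : (0 : ℝ) < 2 ^ j / 2 ^ (κ * n) := by positivity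
  refine le_trans (Nat.cast_le.2 hcard) ?_
  rw [Nat.cast_add, Nat.cast_add]
  linarith

end Pool.Agent.H48.SF
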