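import Pool.Agent.H48.SF.Step
import Pool.Agent.H48.SF.Init

/-!
The chain of children: `Sparse g m`.
-/

set_option autoImplicit false

namespace Pool.Agent.H48.SF

open Finset Classical
open Pool.Agent.H95.Gol (bb PB)
open Pool.Agent.H41.Per (PM)
open Pool.Agent.H48.AP (F H Vx Sparse oddCount)

/-- a child with `1 < D` is a state for `D / minFac D` -/
theorem child_state {g : ℕ → ℤ} {m b : ℤ} (hm : 0 < m) {s n D : ℕ} {η1 η2 : ℝ} {L0 K a x : ℕ}
    (hmL : ∀ τ : ℕ, τ.Prime → τ ≤ L0 → (τ : ℤ) ∣ m) (hη : η1 + 1 / L0 ≤ η2) (hL : 2 ≤ L0)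
    (h : Child g m b s n D η1 K a x) (hD : 1 < D) :
    State m 1 s n (D / D.minFac) η2 x := by
  have htp : D.minFac.Prime := Nat.minFac_prime (by omega)
  obtain ⟨D', hD'⟩ : D.minFac ∣ D := Nat.minFac_dvd D
  have hnx := h.next hD
  set t : ℕ := D.minFac with ht
  have ht0 : 0 < t := htp.pos
  have hdiv : D / t = D' := by
    conv_lhs => rw [hD']
    exact Nat.mul_div_cancel_left _ ht0
  rw [hdiv]
  have hD'0 : 0 < D' := by
    rcases Nat.eq_zero_or_pos D' with h0 | h0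
    · rw [h0, mul_zero] at hD'; omega
    · exact h0
  obtain ⟨V, hV⟩ := h.dvd
  have hD0 : (D : ℤ) ≠ 0 := by exact_mod_cast (by omega : D ≠ 0)
  have hD'z : (D' : ℤ) ≠ 0 := by exact_mod_cast hD'0.ne'
  have hFV : F m x 1 / D = V := by rw [hV]; exact Int.mul_ediv_cancel_left _ hD0
  have hDc : (D : ℤ) = (D' : ℤ) * t := by
    have : (D : ℤ) = ((t * D' : ℕ) : ℤ) := by exact_mod_cast hD'
    rw [this]; push_cast; ring
  have hF2 : F m x 1 = (D' : ℤ) * (t * V) := by rw [hV, hDc]; ring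
  have hUf : Uf m 1 D' x = t * V := by
    unfold Uf
    rw [hF2]
    exact Int.mul_ediv_cancel_left _ hD'z
  rw [hFV] at hnx
  have hsq := h.sqf
  have hst := h.st
  have hom := h.om
  rw [hFV] at hsq hst hom
  -- `t > L0`
  have htL : L0 < t := by
    by_contra hlt
    have htm : (t : ℤ) ∣ m := hmL t htp (by omega)
    have htF : (t : ℤ) ∣ F m x 1 := by rw [hF2]; exact ⟨D' * V, by ring⟩
    have htx : (t : ℤ) ∣ (x : ℤ) ^ 2 := by
      have e : (x : ℤ) ^ 2 = F m x 1 - m * (3 * x + 3 * m) := by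
        unfold Pool.Agent.H48.AP.F; ring
      rw [e]
      exact dvd_sub htF (htm.mul_right _)
    have htp' : Prime (t : ℤ) := Nat.prime_iff_prime_int.1 htp
    have htx' : (t : ℤ) ∣ x := htp'.dvd_of_dvd_pow htx
    have h1 : (t : ℤ) ∣ (x : ℤ) - 1 := ((htm.mul_left 3).trans h.cong)
    have h2 : (t : ℤ) ∣ 1 := by
      have := dvd_sub htx' h1
      simpa using this
    exact htp'.not_isUnit (isUnit_of_dvd_one h2)
  have htV : ¬ t ∣ V.natAbs := fun hd => hnx (Int.natCast_dvd.2 hd)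
  have hsub : ∀ T : ℕ, (Icc 1 T).filter (fun τ : ℕ => τ.Prime ∧ (τ : ℤ) ∣ (t : ℤ) * V) ⊆
      insert t ((Icc 1 T).filter (fun τ : ℕ => τ.Prime ∧ (τ : ℤ) ∣ V)) := by
    intro T τ hτ
    obtain ⟨h1, h2, h3⟩ := mem_filter.1 hτ
    have hτp : Prime (τ : ℤ) := Nat.prime_iff_prime_int.1 h2
    rcases hτp.dvd_or_dvd h3 with h4 | h4
    · have : τ = t := (Nat.prime_dvd_prime_iff_eq h2 htp).1 (by exact_mod_cast h4)
      rw [this]; exact mem_insert_self _ _
    · exact mem_insert_of_mem (mem_filter.2 ⟨h1, h2, h4⟩)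
  have htn : ∀ T : ℕ, t ∉ (Icc 1 T).filter (fun τ : ℕ => τ.Prime ∧ (τ : ℤ) ∣ V) := by
    intro T hmem
    exact hnx (mem_filter.1 hmem).2.2
  refine ⟨⟨t * V, hF2⟩, ?_, ?_, ?_⟩
  · rw [hUf, Int.natAbs_mul, Int.natAbs_natCast]
    exact (Nat.squarefree_mul ((Nat.Prime.coprime_iff_not_dvd htp).2 htV)).2
      ⟨htp.squarefree, hsq⟩
  · rw [hUf]
    unfold ST at hst ⊢
    refine (sum_le_sum_of_subset_of_nonneg (hsub _) fun _ _ _ => by positivity).trans ?_
    rw [sum_insert (htn _)]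
    have h1 : (1 : ℝ) / t ≤ 1 / L0 := by
      apply one_div_le_one_div_of_le
      · exact_mod_cast (by omega : 0 < L0)
      · exact_mod_cast htL.le
    linarith
  · rw [hUf]
    unfold om at hom ⊢
    refine (card_le_card (hsub _)).trans ((card_insert_le _ _).trans hom)

theorem ch_vx {m : ℤ} {x : ℕ} (h : 3 * m ∣ (x : ℤ) - 1) : Vx m x 1 := by
  refine ⟨isCoprime_one_right, ?_, ?_⟩
  · obtain ⟨c, hc⟩ := h
    refine ⟨1, -3 * c, ?_⟩
    linear_combination hc
  · have : (3 : ℤ) ∣ (x : ℤ) - 1 := (dvd_mul_right 3 m).trans h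
    omega

theorem ch_near {g : ℕ → ℤ} {m b : ℤ} {s n D : ℕ} {η1 : ℝ} {K a x : ℕ} (hb : 0 < b)
    (h : Child g m b s n D η1 K a x) : x ≤ a ∧ b * x ≤ a ∧ (a : ℤ) ≤ b * x + D * K := by
  obtain ⟨B, hB1, hBK, hB⟩ := h.near
  have hx : (1 : ℤ) ≤ x := by exact_mod_cast h.pos
  have h0 : (0 : ℤ) ≤ (D : ℤ) * B := by positivity
  have h1 : (D : ℤ) * B ≤ D * K := mul_le_mul_of_nonneg_left (by exact_mod_cast hBK) (by positivity)
  have h2 : (x : ℤ) ≤ b * x := by nlinarith
  refine ⟨?_, ?_, ?_⟩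
  · have : (x : ℤ) ≤ a := by linarith
    exact_mod_cast this
  · linarith
  · linarith

/-- the chain in the row `y = 1` -/
theorem ch_one {g : ℕ → ℤ} {m : ℤ} (hm : 0 < m) {s n N A : ℕ} {η1 η2 : ℝ} {L0 K : ℕ}
    (hmL : ∀ τ : ℕ, τ.Prime → τ ≤ L0 → (τ : ℤ) ∣ m) (hη : η1 + 1 / L0 ≤ η2) (hL : 2 ≤ L0)
    (E : Finset ℕ)
    (hstep : ∀ x ∈ Icc 1 A, x ∉ E → Vx m x 1 → ∀ D : ℕ, 1 ≤ D → D ≤ N →
      State m 1 s n D η2 x → ∃ y : ℕ, Child g m 1 s n D η1 K x y) :
    ∀ D : ℕ, ∀ x ∈ Icc 1 A, Vx m x 1 → 1 ≤ D → D ≤ N → State m 1 s n D η2 x →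
      H g m x 1 = 1 ∨ ∃ e ∈ E, e ≤ x ∧ x ≤ e + 2 * K * D := by
  intro D
  induction D using Nat.strong_induction_on with
  | _ D ih =>
    intro x hx hV hD1 hDN hS
    by_cases hxE : x ∈ E
    · exact Or.inr ⟨x, hxE, le_rfl, by omega⟩
    obtain ⟨y, hy⟩ := hstep x hx hxE hV D hD1 hDN hS
    rcases Nat.lt_or_ge 1 D with hD | hD
    · have hS' := child_state hm hmL hη hL hy hD
      have htp : D.minFac.Prime := Nat.minFac_prime (by omega)
      have h2 : 2 ≤ D.minFac := htp.two_le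
      set D' := D / D.minFac with hD'
      have hmul : D.minFac * D' = D := Nat.mul_div_cancel' (Nat.minFac_dvd D)
      have h2D : 2 * D' ≤ D := by
        calc 2 * D' ≤ D.minFac * D' := Nat.mul_le_mul_right _ h2
          _ = D := hmul
      have hD'1 : 1 ≤ D' := by
        rcases Nat.eq_zero_or_pos D' with h0 | h0
        · rw [h0, mul_zero] at hmul; omega
        · exact h0
      obtain ⟨hn1, hn2, hn3⟩ := ch_near (by norm_num : (0 : ℤ) < 1) hy
      have hyI : y ∈ Icc 1 A := by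
        have := mem_Icc.1 hx
        exact mem_Icc.2 ⟨hy.pos, by omega⟩
      rcases ih D' (by omega) y hyI (ch_vx hy.cong) hD'1 (by omega) hS' with h1 | h1
      · left
        rw [hy.val, h1]
      · right
        obtain ⟨e, he, h3, h4⟩ := h1
        refine ⟨e, he, by omega, ?_⟩
        have h5 : x ≤ y + D * K := by
          have : (x : ℤ) ≤ ((y + D * K : ℕ) : ℤ) := by push_cast; linarith
          exact_mod_cast this
        have h6 : 2 * K * D' ≤ K * D := by
          calc 2 * K * D' = K * (2 * D') := by ring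
            _ ≤ K * D := Nat.mul_le_mul_left _ h2D
        have h7 : D * K = K * D := mul_comm _ _
        have h8 : 2 * K * D = K * D + K * D := by ring
        omega
    · have hD1' : D = 1 := by omega
      left
      rw [hy.val]
      exact hy.last hD1'

theorem sparse_of_constSq : ∃ L0 : ℕ, ∀ (g : ℕ → ℤ) (m r : ℤ), PM g → 0 < m →
    (∀ τ : ℕ, τ.Prime → τ ≤ L0 → (τ : ℤ) ∣ m) → SqOK m r → ConstSq g m r → Sparse g m := by
  obtain ⟨η1, η2, L0, hη1, hL, hη, hstep⟩ := step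
  refine ⟨L0, ?_⟩
  intro g m r hg hm hmL hsq hc b hb κ
  obtain ⟨s, hs, hstep⟩ := hstep g m r hg hm hmL hsq hc
  have hm2 : (2 : ℤ) ∣ m := by exact_mod_cast hmL 2 Nat.prime_two hL
  have hη2 : 0 < η2 := by
    have : (0 : ℝ) < L0 := by exact_mod_cast (by omega : 0 < L0)
    have : 0 < 1 / (L0 : ℝ) := by positivity
    linarith
  have hbz : (0 : ℤ) < b := by exact_mod_cast hb
  obtain ⟨C0, n1, hinit⟩ := init η2 hη2 m b hm hbz hm2 s κ hs
  obtain ⟨c2, n2, hst2⟩ := hstep b κ C0 hbz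
  obtain ⟨c3, n3, hst3⟩ := hstep 1 (κ + C0 + 1) C0 one_pos
  set c : ℕ := c2 + c3 with hcdef
  set n0 : ℕ := n1 + n2 + n3 with hn0
  refine ⟨(2 + 5 * b * 2 ^ c) * 2 ^ κ + 2 ^ (κ * (n0 + 1)), by positivity, ?_⟩
  intro j hj
  have hjR : (0 : ℝ) < (j : ℝ) ^ κ := by
    have : (0 : ℝ) < j := by exact_mod_cast hj
    positivity
  rw [le_div_iff₀ hjR]
  set n : ℕ := Nat.log 2 j with hn
  have hnj1 : 2 ^ n ≤ j := Nat.pow_log_le_self 2 (by omega)
  have hnj2 : j < 2 ^ (n + 1) := Nat.lt_pow_succ_log_self (by norm_num) j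
  rcases lt_or_ge n n0 with hlt | hge
  · have h1 : (oddCount g m b (2 ^ j) : ℝ) ≤ 2 ^ j := by
      have : oddCount g m b (2 ^ j) ≤ 2 ^ j := by
        unfold oddCount
        exact (card_filter_le _ _).trans (by rw [Nat.card_Icc, Nat.add_sub_cancel])
      exact_mod_cast this
    have h2 : (j : ℝ) ^ κ ≤ 2 ^ (κ * (n0 + 1)) := by
      have h3 : j ≤ 2 ^ (n0 + 1) :=
        hnj2.le.trans (Nat.pow_le_pow_right (by norm_num) (by omega))
      have h4 : (j : ℝ) ≤ 2 ^ (n0 + 1) := by exact_mod_cast h3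
      calc (j : ℝ) ^ κ ≤ ((2 : ℝ) ^ (n0 + 1)) ^ κ := pow_le_pow_left₀ (Nat.cast_nonneg _) h4 _
        _ = 2 ^ (κ * (n0 + 1)) := by rw [← pow_mul, mul_comm]
    calc (oddCount g m b (2 ^ j) : ℝ) * (j : ℝ) ^ κ ≤ 2 ^ j * 2 ^ (κ * (n0 + 1)) :=
          mul_le_mul h1 h2 hjR.le (by positivity)
      _ ≤ _ := by
          have : (0 : ℝ) ≤ (2 + 5 * b * 2 ^ c) * 2 ^ κ := by positivity
          nlinarith [mul_nonneg this (by positivity : (0 : ℝ) ≤ 2 ^ j)]
  · have hI := hinit n (by omega) j hnj1 hnj2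
    obtain ⟨E2, hE2s, hE2c, hE2⟩ := hst2 n (by omega) j hnj1 hnj2
    obtain ⟨E3, hE3s, hE3c, hE3⟩ := hst3 n (by omega) j hnj1 hnj2
    set I : Finset ℕ := (Icc 1 (2 ^ j)).filter (fun a : ℕ => Vx m a b ∧
        ¬ ∃ D : ℕ, 1 ≤ D ∧ D ≤ 2 ^ (C0 * n) ∧ State m b s n D η2 a) with hIdef
    set K : ℕ := 2 ^ (n + c) with hK
    have hns : n / s ≤ n := Nat.div_le_self _ _
    have hK2 : 2 ^ (n / s + c2) ≤ K := Nat.pow_le_pow_right (by norm_num) (by omega)
    have hK3 : 2 ^ (n / s + c3) ≤ K := Nat.pow_le_pow_right (by norm_num) (by omega)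
    set N : ℕ := 2 ^ (C0 * n) with hN
    set W : ℕ := 4 * b * K * N with hW
    set O : Finset ℕ := (Icc 1 (2 ^ j)).filter (fun a : ℕ => Vx m a b ∧ H g m a b = -1) with hO
    have hOc : oddCount g m b (2 ^ j) = O.card := by
      unfold oddCount
      rw [hO]
    have hsub : O ⊆ I ∪ E2 ∪ E3.biUnion (fun e => Icc (b * e) (b * e + W)) := by
      intro a ha
      rw [hO, mem_filter] at ha
      obtain ⟨haI, haV, haH⟩ := ha
      by_cases haI2 : a ∈ I
      · exact mem_union_left _ (mem_union_left _ haI2)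
      by_cases haE : a ∈ E2
      · exact mem_union_left _ (mem_union_right _ haE)
      have hex : ∃ D : ℕ, 1 ≤ D ∧ D ≤ 2 ^ (C0 * n) ∧ State m b s n D η2 a := by
        by_contra hne
        exact haI2 (mem_filter.2 ⟨haI, haV, hne⟩)
      obtain ⟨D, hD1, hDN, hS⟩ := hex
      obtain ⟨x, hx⟩ := hE2 a haI haE haV D hD1 hDN hS
      obtain ⟨hx1, hx2, hx3⟩ := ch_near hbz hx
      rcases Nat.lt_or_ge 1 D with hD | hD
      · have hS' := child_state hm hmL hη hL hx hD
        have htp : D.minFac.Prime := Nat.minFac_prime (by omega)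
        have h2 : 2 ≤ D.minFac := htp.two_le
        set D' := D / D.minFac with hD'
        have hmul : D.minFac * D' = D := Nat.mul_div_cancel' (Nat.minFac_dvd D)
        have h2D : 2 * D' ≤ D := by
          calc 2 * D' ≤ D.minFac * D' := Nat.mul_le_mul_right _ h2
            _ = D := hmul
        have hD'1 : 1 ≤ D' := by
          rcases Nat.eq_zero_or_pos D' with h0 | h0
          · rw [h0, mul_zero] at hmul; omega
          · exact h0
        have hxI : x ∈ Icc 1 (2 ^ j) := by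
          have := mem_Icc.1 haI
          exact mem_Icc.2 ⟨hx.pos, by omega⟩
        rcases ch_one (g := g) hm hmL hη hL E3 hE3 D' x hxI (ch_vx hx.cong) hD'1
          (by omega) hS' with h1 | h1
        · exfalso
          rw [hx.val, h1] at haH
          norm_num at haH
        · obtain ⟨e, he, h3, h4⟩ := h1
          refine mem_union_right _ (mem_biUnion.2 ⟨e, he, mem_Icc.2 ⟨?_, ?_⟩⟩)
          · have h5 : b * x ≤ a := by exact_mod_cast hx2
            exact (Nat.mul_le_mul_left _ h3).trans h5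
          · have h5 : a ≤ b * x + D * 2 ^ (n / s + c2) := by exact_mod_cast hx3
            have h6 : D * 2 ^ (n / s + c2) ≤ b * K * N := by
              calc D * 2 ^ (n / s + c2) ≤ N * K := Nat.mul_le_mul hDN hK2
                _ = 1 * (K * N) := by ring
                _ ≤ b * (K * N) := Nat.mul_le_mul_right _ hb
                _ = b * K * N := by ring
            have h7 : b * x ≤ b * e + 2 * (b * K * N) := by
              have h8 : x ≤ e + 2 * (K * N) := by
                refine h4.trans ?_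
                have : 2 * 2 ^ (n / s + c3) * D' ≤ 2 * (K * N) := by
                  calc 2 * 2 ^ (n / s + c3) * D' ≤ 2 * K * N :=
                        Nat.mul_le_mul (Nat.mul_le_mul_left _ hK3) (by omega)
                    _ = 2 * (K * N) := by ring
                omega
              calc b * x ≤ b * (e + 2 * (K * N)) := Nat.mul_le_mul_left _ h8
                _ = b * e + 2 * (b * K * N) := by ring
            have h9 : W = 4 * (b * K * N) := by rw [hW]; ring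
            omega
      · exfalso
        have hD1' : D = 1 := by omega
        rw [hx.val, hx.last hD1'] at haH
        norm_num at haH
    have hcard : (O.card : ℝ) ≤ I.card + E2.card + E3.card * (W + 1) := by
      have h1 : O.card ≤ I.card + E2.card + E3.card * (W + 1) := by
        refine (card_le_card hsub).trans ((card_union_le _ _).trans ?_)
        refine Nat.add_le_add (card_union_le _ _) (card_biUnion_le_card_mul _ _ _ ?_)
        intro e _
        rw [Nat.card_Icc]; omega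
      exact_mod_cast h1
    have hbR : (1 : ℝ) ≤ b := by exact_mod_cast hb
    have hW1 : ((W : ℝ) + 1) ≤ 5 * b * 2 ^ c * 2 ^ ((C0 + 1) * n) := by
      have h1 : (W : ℝ) = 4 * b * 2 ^ c * 2 ^ ((C0 + 1) * n) := by
        rw [hW, hK, hN]
        push_cast
        have : (2 : ℝ) ^ ((C0 + 1) * n) = 2 ^ n * 2 ^ (C0 * n) := by
          rw [← pow_add]; congr 1; ring
        rw [this, pow_add]; ring
      have h2 : (1 : ℝ) ≤ b * 2 ^ c * 2 ^ ((C0 + 1) * n) := by
        have e1 : (1 : ℝ) ≤ 2 ^ c := one_le_pow₀ (by norm_num)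
        have e2 : (1 : ℝ) ≤ 2 ^ ((C0 + 1) * n) := one_le_pow₀ (by norm_num)
        have e3 : (1 : ℝ) ≤ b * 2 ^ c := by nlinarith
        nlinarith
      rw [h1]; linarith
    have hE3b : (E3.card : ℝ) * (W + 1) ≤ 5 * b * 2 ^ c * (2 ^ j / 2 ^ (κ * n)) := by
      have h0 : (0 : ℝ) ≤ (W : ℝ) + 1 := by positivity
      calc (E3.card : ℝ) * (W + 1) ≤
            (2 ^ j / 2 ^ ((κ + C0 + 1) * n)) * (5 * b * 2 ^ c * 2 ^ ((C0 + 1) * n)) :=
            mul_le_mul hE3c hW1 h0 (by positivity)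
        _ = 5 * b * 2 ^ c * (2 ^ j / 2 ^ (κ * n)) := by
            have : (2 : ℝ) ^ ((κ + C0 + 1) * n) = 2 ^ (κ * n) * 2 ^ ((C0 + 1) * n) := by
              rw [← pow_add]; congr 1; ring
            rw [this]
            field_simp
    have htot : (O.card : ℝ) ≤ (2 + 5 * b * 2 ^ c) * (2 ^ j / 2 ^ (κ * n)) := by
      have h1 : (I.card : ℝ) ≤ 2 ^ j / 2 ^ (κ * n) := hI
      nlinarith
    have hjn : (j : ℝ) ^ κ ≤ 2 ^ κ * 2 ^ (κ * n) := by
      have h4 : (j : ℝ) ≤ 2 ^ (n + 1) := by exact_mod_cast hnj2.le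
      calc (j : ℝ) ^ κ ≤ ((2 : ℝ) ^ (n + 1)) ^ κ := pow_le_pow_left₀ (Nat.cast_nonneg _) h4 _
        _ = 2 ^ κ * 2 ^ (κ * n) := by rw [← pow_mul, ← pow_add]; congr 1; ring
    rw [hOc]
    calc (O.card : ℝ) * (j : ℝ) ^ κ ≤
          ((2 + 5 * b * 2 ^ c) * (2 ^ j / 2 ^ (κ * n))) * (2 ^ κ * 2 ^ (κ * n)) :=
          mul_le_mul htot hjn hjR.le (by positivity)
      _ = (2 + 5 * b * 2 ^ c) * 2 ^ κ * 2 ^ j := by field_simp
      _ ≤ _ := by
          have : (0 : ℝ) ≤ 2 ^ (κ * (n0 + 1)) * 2 ^ j := by positivity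
          nlinarith

end Pool.Agent.H48.SF
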