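import Mathlib
import Pool.Agent.H48.AP.Defs
import Pool.Agent.H95.Gol.Basic

/-!
# `g(3k²+3k+1)` on the squarefree values in one residue class: definitions

`g` is completely multiplicative with values `±1` (`PM g`), and `g (f k)` is constant for all large
`k ≡ r (mod m)` with `f k = 3k²+3k+1` squarefree.  `F m x y = x² + 3mxy + 3m²y²` as in `H48/AP`.
-/

set_option autoImplicit false

namespace Pool.Agent.H48.SF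

open Finset Classical
open Pool.Agent.H95.Gol (bb)
open Pool.Agent.H41.Per (PM)
open Pool.Agent.H48.AP (F H Vx)

/-- `3k²+3k+1` -/
def f (k : ℤ) : ℤ := 3 * k ^ 2 + 3 * k + 1

/-- `g ∘ f` is constant on the squarefree values of `f` at large `k ≡ r (mod m)` -/
def ConstSq (g : ℕ → ℤ) (m r : ℤ) : Prop :=
  ∃ ε K : ℤ, ∀ k : ℤ, K ≤ k → m ∣ k - r → Squarefree (f k).natAbs → g (f k).natAbs = ε

/-- the values `f k`, `k ≡ r (mod m)`, have no square factor in common with `m` -/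
def SqOK (m r : ℤ) : Prop :=
  ∀ R : ℤ, m ∣ R - r → ∀ τ : ℕ, τ.Prime → (τ : ℤ) ∣ m → ¬ (τ : ℤ) ^ 2 ∣ f R

/-- the primes of the window `(bb (n/2), bb (3n/4)]`, `bb k = 2^(2^k)` -/
noncomputable def PW (n : ℕ) : Finset ℕ := (Ioc (bb (n / 2)) (bb (3 * n / 4))).filter Nat.Prime

/-- small primes are `≤ Tn s n` -/
def Tn (s n : ℕ) : ℕ := 2 ^ (4 * (n / s))

/-- primes counted by `om` are `≤ T0 s n` -/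
def T0 (s n : ℕ) : ℕ := n * 2 ^ (n / s)

/-- bound for `om` -/
def H1 (s n : ℕ) : ℕ := 2 ^ (n / s / 2)

/-- `F(a,b)/D` -/
def Uf (m b : ℤ) (D : ℕ) (a : ℤ) : ℤ := F m a b / D

/-- `F(x,1)/D` for the child `x`, `b x = a - D B` -/
def U1 (m b : ℤ) (D B : ℕ) (a : ℤ) : ℤ := F m (a - D * B) b / (b ^ 2 * D)

/-- the first coordinate of the pair -/
def Af (m b : ℤ) (D B : ℕ) (a : ℤ) : ℤ :=
  ((a + 3 * m * b) * (a - D * B) + 3 * m ^ 2 * b ^ 2) / (b * D)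

/-- the child -/
def xf (b : ℤ) (D B : ℕ) (a : ℤ) : ℤ := (a - D * B) / b

/-- `B` is admissible: the child is an integer `≡ 1 (mod 3m)` -/
def Adm (m b : ℤ) (D B : ℕ) (a : ℤ) : Prop := 3 * m * b ∣ a - D * B - b

/-- sum of `1/τ` over the primes `τ ≤ T` dividing `U` -/
noncomputable def ST (T : ℕ) (U : ℤ) : ℝ :=
  ∑ τ ∈ (Icc 1 T).filter (fun τ : ℕ => τ.Prime ∧ (τ : ℤ) ∣ U), (1 : ℝ) / τ

/-- number of the primes `τ ≤ T` dividing `U` -/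
noncomputable def om (T : ℕ) (U : ℤ) : ℕ :=
  ((Icc 1 T).filter (fun τ : ℕ => τ.Prime ∧ (τ : ℤ) ∣ U)).card

/-- the small primes: `τ ≤ T` or `τ ∣ D`, not dividing `3m` -/
noncomputable def Sm (m : ℤ) (T D : ℕ) : Finset ℕ :=
  (Icc 1 T ∪ D.primeFactors).filter (fun τ : ℕ => τ.Prime ∧ ¬ (τ : ℤ) ∣ 3 * m)

/-- the residue class of `p` allows the square factor `τ²` of `f R₁` or `f R₂` -/
def BadP (m r A B u v : ℤ) (τ p : ℕ) : Prop :=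
  ∃ R : ℤ, m ∣ R - r ∧ (τ : ℤ) ^ 2 ∣ f R ∧
    (3 * m ^ 2 * B * τ ^ 2 ∣ p * (A - 3 * m * B * R) - u ∨
      3 * m ^ 2 * B * τ ^ 2 ∣ p * v - A - 3 * m * B * (1 + R))

/-- `p` is in the right class and not bad for any `τ ∈ S` -/
def GoodP (m r A B u v : ℤ) (S : Finset ℕ) (p : ℕ) : Prop :=
  3 * m ^ 2 * B ∣ p * (A - 3 * m * B * r) - u ∧ ∀ τ ∈ S, ¬ BadP m r A B u v τ p

/-- valid `B` -/
def Valid (m b : ℤ) (s n D : ℕ) (η : ℝ) (a : ℤ) (B : ℕ) : Prop :=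
  Adm m b D B a ∧ (∀ τ ∈ Sm m (Tn s n) D, ¬ (τ : ℤ) ^ 2 ∣ U1 m b D B a) ∧
    ST (Tn s n) (U1 m b D B a) ≤ η ∧ IsCoprime (B : ℤ) (Uf m b D a) ∧
    (1 < D → ¬ (D.minFac : ℤ) ∣ U1 m b D B a) ∧ om (T0 s n) (U1 m b D B a) + 1 ≤ H1 s n

/-- the state `(a, b)` with the divisor `D` -/
def State (m b : ℤ) (s n D : ℕ) (η : ℝ) (a : ℤ) : Prop :=
  (D : ℤ) ∣ F m a b ∧ Squarefree (Uf m b D a).natAbs ∧ ST (Tn s n) (Uf m b D a) ≤ η ∧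
    om (T0 s n) (Uf m b D a) ≤ H1 s n

/-- `x` is a good child of `(a, b)` -/
structure Child (g : ℕ → ℤ) (m b : ℤ) (s n D : ℕ) (η : ℝ) (K a x : ℕ) : Prop where
  pos : 1 ≤ x
  near : ∃ B : ℕ, 1 ≤ B ∧ B ≤ K ∧ b * x = a - D * B
  cong : 3 * m ∣ x - 1
  dvd : (D : ℤ) ∣ F m x 1
  sqf : Squarefree (F m x 1 / D).natAbs
  st : ST (Tn s n) (F m x 1 / D) ≤ η
  om : om (T0 s n) (F m x 1 / D) + 1 ≤ H1 s n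
  val : H g m a b = H g m x 1
  next : 1 < D → ¬ (D.minFac : ℤ) ∣ F m x 1 / D
  last : D = 1 → H g m x 1 = 1

/-- the obstacle polynomial of the pair certificate -/
def QP (m b : ℤ) (D : ℕ) (a p B : ℤ) : ℤ := F m ((p * b - 1) * a + D * B) (b * (p * b - 1))

/-- the obstacle polynomial of the direct certificate -/
def QD (m b : ℤ) (D : ℕ) (a p B : ℤ) : ℤ := F m (a - D * B - b * p) b

/-- `τ` is an obstacle for `(a, B, p)` -/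
def Obs (m b : ℤ) (D : ℕ) (Q : ℤ → ℤ → ℤ → ℤ) (a : ℤ) (B p τ : ℕ) : Prop :=
  (τ : ℤ) ^ 2 ∣ F m (a - D * B) b ∨ (τ : ℤ) ^ 2 ∣ Q a p B ∨
    (τ ≠ p ∧ (τ : ℤ) ∣ F m (a - D * B) b ∧ (τ : ℤ) ∣ Q a p B) ∨
    ((τ : ℤ) ∣ F m a b ∧ (τ : ℤ) ∣ Q a p B)

/-- what is used about the obstacle polynomials `QP`, `QD` -/
structure Mode (m b : ℤ) (D : ℕ) (Q : ℤ → ℤ → ℤ → ℤ) : Prop where
  per : ∀ N a a' p p' B : ℤ, N ∣ a - a' → N ∣ p - p' → N ∣ Q a p B - Q a' p' B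
  ra : ∀ (τ j : ℕ) (p B : ℤ), τ.Prime → τ ≠ 2 → ¬ (τ : ℤ) ∣ 3 * m * b → ¬ (τ : ℤ) ∣ D * B →
    1 ≤ j → ((range (τ ^ j)).filter (fun a : ℕ => (τ : ℤ) ^ j ∣ Q a p B)).card ≤ 2
  rp : ∀ (τ : ℕ) (a B : ℤ), τ.Prime → τ ≠ 2 → ¬ (τ : ℤ) ∣ 3 * m * b → ¬ (τ : ℤ) ∣ D * B →
    ((range τ).filter (fun p : ℕ => (τ : ℤ) ∣ Q a p B)).card ≤ 2
  c1 : ∀ (τ : ℕ) (B : ℤ), τ.Prime → τ ≠ 2 → ¬ (τ : ℤ) ∣ 3 * m * b → ¬ (τ : ℤ) ∣ D * B →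
    ((range τ).filter (fun p : ℕ => ∃ a : ℤ, (τ : ℤ) ∣ F m (a - D * B) b ∧
      (τ : ℤ) ∣ Q a p B)).card ≤ 3
  c0 : ∀ (τ : ℕ) (B : ℤ), τ.Prime → τ ≠ 2 → ¬ (τ : ℤ) ∣ 3 * m * b → ¬ (τ : ℤ) ∣ D * B →
    ((range τ).filter (fun p : ℕ => ∃ a : ℤ, (τ : ℤ) ∣ F m a b ∧ (τ : ℤ) ∣ Q a p B)).card ≤ 3
  d1 : ∃ Δ : ℤ → ℤ → ℤ, (∀ p B : ℤ, 1 ≤ p → 1 ≤ B →
      0 < Δ p B ∧ Δ p B ≤ 100 * (m * b * D * B * p) ^ 4) ∧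
    ∀ (τ : ℕ) (a p B : ℤ), τ.Prime → τ ≠ 2 → ¬ (τ : ℤ) ∣ 3 * m * b → ¬ (τ : ℤ) ∣ D * B →
      ¬ (τ : ℤ) ∣ p → (τ : ℤ) ∣ F m (a - D * B) b → (τ : ℤ) ∣ Q a p B → (τ : ℤ) ∣ Δ p B
  d0 : ∃ Δ : ℤ → ℤ → ℤ, (∀ p B : ℤ, 1 ≤ p → 1 ≤ B →
      0 < Δ p B ∧ Δ p B ≤ 100 * (m * b * D * B * p) ^ 4) ∧
    (∀ B : ℤ, 1 ≤ B → 0 < Δ 0 B ∧ Δ 0 B ≤ 100 * (m * b * D * B) ^ 4) ∧
    (∀ p B : ℤ, p ∣ Δ p B - Δ 0 B) ∧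
    ∀ (τ : ℕ) (a p B : ℤ), τ.Prime → τ ≠ 2 → ¬ (τ : ℤ) ∣ 3 * m * b → ¬ (τ : ℤ) ∣ D * B →
      (τ : ℤ) ∣ F m a b → (τ : ℤ) ∣ Q a p B → (τ : ℤ) ∣ Δ p B
  shape : ∀ p B : ℤ, 2 ≤ p → 1 ≤ B → ∃ α β γ : ℤ, 1 ≤ α ∧ 1 ≤ γ ∧
    α ≤ 100 * (m * b * D * B * p) ^ 4 ∧ |β| ≤ 100 * (m * b * D * B * p) ^ 4 ∧
    γ ≤ 100 * (m * b * D * B * p) ^ 4 ∧ (∀ a : ℤ, 4 * Q a p B = (α * a + β) ^ 2 + γ) ∧
    ∀ τ : ℕ, τ.Prime → τ ≠ 2 → ¬ (τ : ℤ) ∣ 3 * m * b → ¬ (τ : ℤ) ∣ D * B →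
      (τ : ℤ) ∣ α * γ → ∀ a : ℤ, ¬ (τ : ℤ) ∣ Q a p B

/-- the modulus that determines all small data -/
def MM (m b : ℤ) (D T : ℕ) : ℕ := (3 * m ^ 2 * b ^ 2).natAbs * D ^ 3 * T.factorial ^ 3

end Pool.Agent.H48.SF
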