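import Pool.Agent.H48.SF.Cert

/-!
One direct certificate without obstacles gives `H g m x 1 = 1`.
-/

set_option autoImplicit false

namespace Pool.Agent.H48.SF

open Finset Classical
open Pool.Agent.H95.Gol (bb PB)
open Pool.Agent.H41.Per (PM)
open Pool.Agent.H48.AP (F H Vx Sparse oddCount)

lemma DirStep_three (k : ℤ) : ¬ (3 : ℤ) ∣ f k := by
  rintro ⟨c, hc⟩
  unfold f at hc
  have : 3 * (c - k ^ 2 - k) = 1 := by linear_combination -hc
  omega

lemma DirStep_f_pos (k : ℤ) : 0 < f k := by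
  unfold f
  nlinarith [sq_nonneg (2 * k + 1)]

lemma DirStep_f_neg (k : ℤ) : f (-1 - k) = f k := by
  unfold f; ring

/-- squarefreeness of `f k` from local conditions -/
lemma DirStep_sqf {m r k : ℤ} (hsq : SqOK m r) (hk : m ∣ k - r)
    (h : ∀ τ : ℕ, τ.Prime → ¬ (τ : ℤ) ∣ 3 * m → ¬ (τ : ℤ) ^ 2 ∣ f k) :
    Squarefree (f k).natAbs := by
  rw [Nat.squarefree_iff_prime_squarefree]
  intro τ hτ hd
  have hd' : (τ : ℤ) ^ 2 ∣ f k := by
    have : ((τ * τ : ℕ) : ℤ) ∣ f k := Int.natCast_dvd.2 hd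
    rw [pow_two]
    exact_mod_cast this
  by_cases h3 : (τ : ℤ) ∣ 3 * m
  · have hτi : Prime (τ : ℤ) := Nat.prime_iff_prime_int.1 hτ
    rcases hτi.dvd_or_dvd h3 with h4 | h4
    · have h5 : τ ∣ 3 := by exact_mod_cast h4
      have h6 : τ = 3 := (Nat.prime_dvd_prime_iff_eq hτ Nat.prime_three).1 h5
      subst h6
      exact DirStep_three k ((dvd_pow_self (3 : ℤ) two_ne_zero).trans hd')
    · exact hsq k hk τ hτ h4 hd'
  · exact h τ hτ h3 hd'

/-- a good prime `p` without obstacles: the direct certificate (`D = 1`) -/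
theorem dir_step {g : ℕ → ℤ} (hg : PM g) {m r b : ℤ} (hm : 0 < m) (hb : 0 < b)
    (hsq : SqOK m r) {ε K : ℤ}
    (hc : ∀ k : ℤ, K ≤ k → m ∣ k - r → Squarefree (f k).natAbs → g (f k).natAbs = ε)
    {B p : ℕ} {a x : ℤ} (hB : 1 ≤ B) (hx : b * x = a - B) (hx1 : 3 * m ∣ x - 1)
    (hxK : 3 * m * K + p ≤ x) (hx0 : 0 < x) (hp : p.Prime) (hpV : (p : ℤ) ∣ F m x 1)
    (hV : Squarefree (F m x 1).natAbs) {S : Finset ℕ}
    (hG : GoodP m (-1 - r) x 1 (F m x 1) 1 S p)
    (hO : ∀ τ : ℕ, τ.Prime → τ ∉ S → ¬ (τ : ℤ) ∣ 3 * m → ¬ Obs m b 1 (QD m b 1) a B p τ) :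
    H g m x 1 = 1 := by
  have _ := hB
  have _ := hb
  have _ := hV
  obtain ⟨w, hw⟩ := hpV
  have hp0 : (0 : ℤ) < p := by exact_mod_cast hp.pos
  have hFpos : 0 < F m x 1 := by unfold F; positivity
  have hw0 : 0 < w := by
    by_contra hcon
    push Not at hcon
    have : (p : ℤ) * w ≤ 0 := mul_nonpos_of_nonneg_of_nonpos hp0.le hcon
    linarith
  have hpi : Prime (p : ℤ) := Nat.prime_iff_prime_int.1 hp
  -- coprimality with `3m`
  have hFc : IsCoprime (F m x 1) (3 * m) := by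
    obtain ⟨t, ht⟩ := hx1
    refine ⟨1, -(t * (x + 1) + x + m), ?_⟩
    have hx' : x = 1 + 3 * m * t := by linear_combination ht
    unfold F
    rw [hx']; ring
  have hwc : IsCoprime w (3 * m * 1) := by
    rw [mul_one]
    rw [hw] at hFc
    exact hFc.of_mul_left_right
  have hpc : IsCoprime (p : ℤ) (3 * m) := by
    rw [hw] at hFc
    exact hFc.of_mul_left_left
  have hpc2 : IsCoprime (p : ℤ) (3 * m ^ 2 * 1) := by
    have h1 : IsCoprime (p : ℤ) (3 * m * m) := hpc.mul_right hpc.of_mul_right_right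
    have h2 : (3 * m ^ 2 * 1 : ℤ) = 3 * m * m := by ring
    rw [h2]; exact h1
  have hr : 3 * m ^ 2 * 1 ∣ x - 3 * m * 1 * (-1 - r) - w := by
    have h1 := hG.1
    have h2 : (p : ℤ) * (x - 3 * m * 1 * (-1 - r)) - F m x 1 =
        (p : ℤ) * (x - 3 * m * 1 * (-1 - r) - w) := by rw [hw]; ring
    rw [h2] at h1
    exact hpc2.symm.dvd_of_dvd_mul_left h1
  obtain ⟨R, ν, hR1, hR2, hR3, hR4, hR5⟩ :=
    cert (m := m) (r := -1 - r) (A := x) (B := 1) (d := w) (e := p) hm one_pos
      (by rw [hw]; ring) hwc hr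
  have hν0 : 0 < ν := by
    have h1 := DirStep_f_pos R
    rw [hR4] at h1
    exact (mul_pos_iff_of_pos_left hw0).1 h1
  -- the two values
  set R' : ℤ := R + m * 1 * ν with hR'
  have h3R' : 3 * m * R' = p - x - 3 * m := by
    rw [hR']
    linear_combination hR2 + hR3
  have hk2 : K ≤ -1 - R' := by
    have h1 : 3 * m * K ≤ 3 * m * (-1 - R') := by
      have : 3 * m * (-1 - R') = x - p := by linear_combination -h3R'
      rw [this]; linarith
    exact le_of_mul_le_mul_left h1 (by linarith)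
  have hk1 : K ≤ -1 - R := by
    have : (0 : ℤ) < m * 1 * ν := by positivity
    have h2 : -1 - R' ≤ -1 - R := by rw [hR']; linarith
    exact hk2.trans h2
  have hm1 : m ∣ -1 - R - r := by
    have := hR1
    have h2 : -1 - R - r = -(R - (-1 - r)) := by ring
    rw [h2]; exact (dvd_neg).2 this
  have hm2 : m ∣ -1 - R' - r := by
    have h2 : -1 - R' - r = (-1 - R - r) - m * ν := by rw [hR']; ring
    rw [h2]; exact dvd_sub hm1 (dvd_mul_right _ _)
  -- values of the obstacle polynomials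
  have hP : F m (a - ((1 : ℕ) : ℤ) * B) b = b ^ 2 * (p * w) := by
    have h1 : a - ((1 : ℕ) : ℤ) * B = b * x := by rw [hx]; push_cast; ring
    rw [h1, ← hw]; unfold F; ring
  have hQ : QD m b 1 a p B = b ^ 2 * (p * (3 * m ^ 2 * ν)) := by
    have h1 := dir_Q (m := m) (x := x) (p := p) (w := w) hw
    have h2 : QD m b 1 a p B = b ^ 2 * F m (x - p) 1 := by
      unfold QD
      have h3 : a - ((1 : ℕ) : ℤ) * B - b * p = b * (x - p) := by
        rw [mul_sub, hx]; push_cast; ring
      rw [h3]; unfold F; ring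
    rw [h2, h1]
    linear_combination -b ^ 2 * p * hR3
  have hτ2 : ∀ τ : ℕ, τ.Prime → ¬ (τ : ℤ) ∣ 3 * m →
      ((τ : ℤ) ^ 2 ∣ f R ∨ (τ : ℤ) ^ 2 ∣ f R') → False := by
    intro τ hτ h3 hor
    have hτi : Prime (τ : ℤ) := Nat.prime_iff_prime_int.1 hτ
    by_cases hS : τ ∈ S
    · apply hG.2 τ hS
      rcases hor with h | h
      · refine ⟨R, hR1, h, Or.inl ?_⟩
        have h1 : (p : ℤ) * (x - 3 * m * 1 * R) - F m x 1 = 0 := by
          rw [hw]; linear_combination -(p : ℤ) * hR2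
        rw [h1]; exact dvd_zero _
      · refine ⟨R', ?_, h, Or.inr ?_⟩
        · have h2 : R' - (-1 - r) = (R - (-1 - r)) + m * ν := by rw [hR']; ring
          rw [h2]; exact dvd_add hR1 (dvd_mul_right _ _)
        · have h1 : (p : ℤ) * 1 - x - 3 * m * 1 * (1 + R') = 0 := by
            linear_combination -h3R'
          rw [h1]; exact dvd_zero _
    · apply hO τ hτ hS h3
      unfold Obs
      rcases hor with h | h
      · rw [hR4] at h
        by_cases hw2 : (τ : ℤ) ∣ w
        · by_cases hn2 : (τ : ℤ) ∣ ν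
          · by_cases hpτ : τ = p
            · left
              rw [hP, hpτ, pow_two]
              exact dvd_mul_of_dvd_right (mul_dvd_mul_left _ (hpτ ▸ hw2)) _
            · right; right; left
              refine ⟨hpτ, ?_, ?_⟩
              · rw [hP]
                exact dvd_mul_of_dvd_right (dvd_mul_of_dvd_right hw2 _) _
              · rw [hQ]
                exact dvd_mul_of_dvd_right (dvd_mul_of_dvd_right
                  (dvd_mul_of_dvd_right hn2 _) _) _
          · left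
            have hcp : IsCoprime ((τ : ℤ) ^ 2) ν :=
              ((Prime.coprime_iff_not_dvd hτi).2 hn2).pow_left
            rw [hP]
            exact dvd_mul_of_dvd_right (dvd_mul_of_dvd_right
              (hcp.dvd_of_dvd_mul_right h) _) _
        · right; left
          have hcp : IsCoprime ((τ : ℤ) ^ 2) w :=
            ((Prime.coprime_iff_not_dvd hτi).2 hw2).pow_left
          rw [hQ]
          exact dvd_mul_of_dvd_right (dvd_mul_of_dvd_right
            (dvd_mul_of_dvd_right (hcp.dvd_of_dvd_mul_left h) _) _) _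
      · rw [hR5] at h
        right; left
        rw [hQ]
        by_cases hpτ : τ = p
        · subst hpτ
          have h4 : (τ : ℤ) ∣ ν := by
            rw [pow_two] at h
            exact (mul_dvd_mul_iff_left hτi.ne_zero).1 h
          rw [pow_two]
          exact dvd_mul_of_dvd_right (mul_dvd_mul_left _ (dvd_mul_of_dvd_right h4 _)) _
        · have h5 : ¬ (τ : ℤ) ∣ (p : ℤ) := by
            intro h6
            have h7 : τ ∣ p := by exact_mod_cast h6
            exact hpτ ((Nat.prime_dvd_prime_iff_eq hτ hp).1 h7)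
          have hcp : IsCoprime ((τ : ℤ) ^ 2) p :=
            ((Prime.coprime_iff_not_dvd hτi).2 h5).pow_left
          exact dvd_mul_of_dvd_right (dvd_mul_of_dvd_right
            (dvd_mul_of_dvd_right (hcp.dvd_of_dvd_mul_left h) _) _) _
  have hs1 : Squarefree (f (-1 - R)).natAbs := by
    refine DirStep_sqf hsq hm1 ?_
    intro τ hτ h3 h4
    rw [DirStep_f_neg] at h4
    exact hτ2 τ hτ h3 (Or.inl h4)
  have hs2 : Squarefree (f (-1 - R')).natAbs := by
    refine DirStep_sqf hsq hm2 ?_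
    intro τ hτ h3 h4
    rw [DirStep_f_neg] at h4
    exact hτ2 τ hτ h3 (Or.inr h4)
  have e1 := hc _ hk1 hm1 hs1
  have e2 := hc _ hk2 hm2 hs2
  rw [DirStep_f_neg, hR4, Int.natAbs_mul,
    hg.mul _ _ (Int.natAbs_ne_zero.2 hw0.ne') (Int.natAbs_ne_zero.2 hν0.ne')] at e1
  rw [DirStep_f_neg, hR5, Int.natAbs_mul,
    hg.mul _ _ (Int.natAbs_ne_zero.2 hp0.ne') (Int.natAbs_ne_zero.2 hν0.ne')] at e2
  have e3 : g w.natAbs = g (p : ℤ).natAbs := by
    have h1 := hg.sq (Int.natAbs_ne_zero.2 hν0.ne')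
    have h2 : g w.natAbs * g ν.natAbs = g (p : ℤ).natAbs * g ν.natAbs := e1.trans e2.symm
    calc g w.natAbs = g w.natAbs * (g ν.natAbs * g ν.natAbs) := by rw [h1, mul_one]
      _ = g w.natAbs * g ν.natAbs * g ν.natAbs := by ring
      _ = g (p : ℤ).natAbs * g ν.natAbs * g ν.natAbs := by rw [h2]
      _ = g (p : ℤ).natAbs * (g ν.natAbs * g ν.natAbs) := by ring
      _ = g (p : ℤ).natAbs := by rw [h1, mul_one]
  unfold H
  rw [hw, Int.natAbs_mul,
    hg.mul _ _ (Int.natAbs_ne_zero.2 hp0.ne') (Int.natAbs_ne_zero.2 hw0.ne'), e3]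
  exact hg.sq (Int.natAbs_ne_zero.2 hp0.ne')

end Pool.Agent.H48.SF
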