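import Pool.Agent.H48.SF.Chain
import Pool.Agent.H48.AP.Final

/-!
The theorem.
-/

set_option autoImplicit false

namespace Pool.Agent.H48.SF

open Finset Classical
open Pool.Agent.H95.Gol (bb PB)
open Pool.Agent.H41.Per (PM)
open Pool.Agent.H48.AP (F H Vx Sparse oddCount)

/-- one can pass to a multiple of the modulus -/
theorem refine_class (L0 : ℕ) (m : ℕ) (r k0 : ℤ) (hm : 0 < m) (h0 : (m : ℤ) ∣ k0 - r)
    (hsq : Squarefree (f k0).natAbs) :
    ∃ (m' : ℕ) (r' : ℤ), 0 < m' ∧ m ∣ m' ∧ (m : ℤ) ∣ r' - r ∧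
      (∀ τ : ℕ, τ.Prime → τ ≤ L0 → τ ∣ m') ∧ SqOK m' r' := by
  classical
  set P : ℕ := ∏ p ∈ (Finset.range (L0 + 1)).filter (fun p : ℕ => p.Prime ∧ ¬ p ∣ m), p with hP
  have hPpos : 0 < P := Finset.prod_pos fun p hp => (Finset.mem_filter.1 hp).2.1.pos
  have hcop : Nat.Coprime (m ^ 2) P := by
    rw [hP]
    refine Nat.Coprime.prod_right fun p hp => ?_
    obtain ⟨-, hpp, hpm⟩ := Finset.mem_filter.1 hp
    exact (Nat.Coprime.pow_left 2 ((Nat.Prime.coprime_iff_not_dvd hpp).2 hpm).symm)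
  have hcop' : IsCoprime ((m : ℤ) ^ 2) (P : ℤ) := by
    have := Nat.isCoprime_iff_coprime.2 hcop
    push_cast at this
    exact this
  obtain ⟨u, v, huv⟩ := hcop'
  refine ⟨m ^ 2 * P, k0 * v * P, ?_, ?_, ?_, ?_, ?_⟩
  · positivity
  · exact (dvd_pow_self m two_ne_zero).mul_right P
  · have h1 : k0 * v * P - r = (k0 - r) - m * (m * u * k0) := by
      linear_combination k0 * huv
    rw [h1]
    exact dvd_sub h0 (dvd_mul_right _ _)
  · intro τ hτ hle
    by_cases hτm : τ ∣ m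
    · exact (hτm.trans (dvd_pow_self m two_ne_zero)).mul_right P
    · refine Dvd.dvd.mul_left ?_ _
      rw [hP]
      exact Finset.dvd_prod_of_mem (fun p : ℕ => p)
        (Finset.mem_filter.2 ⟨Finset.mem_range.2 (by omega), hτ, hτm⟩)
  · intro R hR τ hτ hτm hdv
    have hτ' : Prime (τ : ℤ) := Nat.prime_iff_prime_int.1 hτ
    by_cases hm' : (τ : ℤ) ∣ m
    · -- `R ≡ k0 (mod τ²)`
      have h2 : (τ : ℤ) ^ 2 ∣ R - k0 := by
        have h3 : (m : ℤ) ^ 2 ∣ R - k0 := by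
          have h4 : (m : ℤ) ^ 2 ∣ R - k0 * v * P := by
            refine Dvd.dvd.trans ?_ hR
            push_cast
            exact dvd_mul_right _ _
          have h5 : R - k0 = (R - k0 * v * P) + (m : ℤ) ^ 2 * (-(u * k0)) := by
            linear_combination k0 * huv
          rw [h5]
          exact dvd_add h4 (dvd_mul_right _ _)
        exact (pow_dvd_pow_of_dvd hm' 2).trans h3
      have h6 : (τ : ℤ) ^ 2 ∣ f k0 := by
        have h7 : f R - f k0 = (R - k0) * (3 * (R + k0) + 3) := by unfold f; ring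
        have h8 : (τ : ℤ) ^ 2 ∣ f R - f k0 := by rw [h7]; exact h2.mul_right _
        have := dvd_sub hdv h8
        rwa [sub_sub_cancel] at this
      have h9 : τ ^ 2 ∣ (f k0).natAbs := by
        have := Int.natAbs_dvd_natAbs.2 h6
        rwa [Int.natAbs_pow, Int.natAbs_natCast] at this
      have := hsq τ (by rwa [sq] at h9)
      exact hτ.one_lt.ne' (Nat.isUnit_iff.1 this)
    · -- `R ≡ 0 (mod τ)`
      have hP' : (τ : ℤ) ∣ P := by
        push_cast at hτm
        rcases hτ'.dvd_or_dvd hτm with h | h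
        · exact absurd (hτ'.dvd_of_dvd_pow h) hm'
        · exact h
      have h1 : (τ : ℤ) ∣ R := by
        have h2 : (τ : ℤ) ∣ R - k0 * v * P := by
          refine Dvd.dvd.trans ?_ hR
          push_cast
          exact hP'.mul_left _
        have h3 := dvd_add h2 (hP'.mul_left (k0 * v))
        rwa [sub_add_cancel] at h3
      have h4 : (τ : ℤ) ∣ f R := (dvd_pow_self _ two_ne_zero).trans hdv
      have h5 : (τ : ℤ) ∣ 1 := by
        have h6 : (1 : ℤ) = f R - R * (3 * R + 3) := by unfold f; ring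
        rw [h6]
        exact dvd_sub h4 (h1.mul_right _)
      exact hτ'.not_isUnit (isUnit_of_dvd_one h5)

lemma natAbs_fcast (k : ℕ) : (f (k : ℤ)).natAbs = 3 * k ^ 2 + 3 * k + 1 := by
  unfold f
  have : (3 * (k : ℤ) ^ 2 + 3 * k + 1) = ((3 * k ^ 2 + 3 * k + 1 : ℕ) : ℤ) := by push_cast; ring
  rw [this, Int.natAbs_natCast]

/-- constant on the squarefree values of one class: all vertices of a multiple are even -/
theorem even_of_sqfree {g : ℕ → ℤ} (hg : PM g) {m r K : ℕ} {ε : ℤ} (hr : r < m)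
    (h0 : ∃ k : ℕ, k % m = r ∧ Squarefree (3 * k ^ 2 + 3 * k + 1))
    (h : ∀ k : ℕ, K ≤ k → k % m = r → Squarefree (3 * k ^ 2 + 3 * k + 1) →
      g (3 * k ^ 2 + 3 * k + 1) = ε) :
    ∃ M : ℕ, 0 < M ∧ ∀ x y : ℤ, IsCoprime x y → IsCoprime x (M : ℤ) → ¬ (3 : ℤ) ∣ x →
      H g (M : ℤ) x y = 1 := by
  obtain ⟨L0, hL0⟩ := sparse_of_constSq
  obtain ⟨k0, hk0, hsq⟩ := h0
  have hd0 : (m : ℤ) ∣ (k0 : ℤ) - (r : ℤ) := by
    have : (k0 : ℤ) % m = r := by exact_mod_cast hk0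
    rw [← this]
    exact Int.dvd_self_sub_emod
  obtain ⟨m', r', hm', hmm', hrr', hτ, hSq⟩ := refine_class L0 m (r : ℤ) (k0 : ℤ) (by omega) hd0
    (by rw [natAbs_fcast]; exact hsq)
  have hconst : ConstSq g (m' : ℤ) r' := by
    refine ⟨ε, K, ?_⟩
    intro k hk hd hs
    obtain ⟨n, rfl⟩ : ∃ n : ℕ, k = n := ⟨k.toNat, by omega⟩
    rw [natAbs_fcast] at hs ⊢
    refine h n (by omega) ?_ hs
    have hdm : (m : ℤ) ∣ (n : ℤ) - r := by
      have h1 : (m : ℤ) ∣ (n : ℤ) - r' := (Int.natCast_dvd_natCast.2 hmm').trans hd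
      have h2 := dvd_add h1 hrr'
      rwa [sub_add_sub_cancel] at h2
    have h1 : (n : ℤ) % m = (r : ℤ) % m :=
      Int.emod_eq_emod_iff_emod_sub_eq_zero.2 (Int.emod_eq_zero_of_dvd hdm)
    have h2 : n % m = r % m := by exact_mod_cast h1
    rw [h2, Nat.mod_eq_of_lt hr]
  have hm0 : (0 : ℤ) < m' := by exact_mod_cast hm'
  have hsp := hL0 g (m' : ℤ) r' hg hm0
    (fun τ hp hle => Int.natCast_dvd_natCast.2 (hτ τ hp hle)) hSq hconst
  exact ⟨m', hm', fun x y h1 h2 h3 =>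
    Pool.Agent.H48.AP.all_even_of_sparse hg hm0 hsp h1 h2 h3⟩

/-- a completely multiplicative function that is constant on the squarefree values in one class is
a character on the primes `≡ 1 (mod 3)` -/
theorem char_of_sqfree {g : ℕ → ℤ} (hg : PM g) {m r K : ℕ} {ε : ℤ} (hr : r < m)
    (h0 : ∃ k : ℕ, k % m = r ∧ Squarefree (3 * k ^ 2 + 3 * k + 1))
    (h : ∀ k : ℕ, K ≤ k → k % m = r → Squarefree (3 * k ^ 2 + 3 * k + 1) →
      g (3 * k ^ 2 + 3 * k + 1) = ε) :
    ∃ (M : ℕ) (χ : DirichletCharacter ℤ M), 0 < M ∧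
      ∀ p : ℕ, p.Prime → p % 3 = 1 → ¬ p ∣ M → g p = χ p := by
  obtain ⟨M, hM, hev⟩ := even_of_sqfree hg hr h0 h
  obtain ⟨χ, hχ⟩ := Pool.Agent.H48.AP.char_of_even hg hM hev
  refine ⟨3 * M, χ, by omega, fun p hp h3 hpM => hχ p hp h3 fun hd => hpM (hd.mul_left 3)⟩

/-- the Möbius function takes both signs -/
theorem moebius_signs {m r : ℕ} (hr : r < m)
    (h0 : ∃ k : ℕ, k % m = r ∧ Squarefree (3 * k ^ 2 + 3 * k + 1)) :
    {k : ℕ | k % m = r ∧ ArithmeticFunction.moebius (3 * k ^ 2 + 3 * k + 1) = -1}.Infinite ∧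
    {k : ℕ | k % m = r ∧ ArithmeticFunction.moebius (3 * k ^ 2 + 3 * k + 1) = 1}.Infinite := by
  have key : ∀ (K : ℕ) (ε : ℤ),
      (∀ k : ℕ, K ≤ k → k % m = r → Squarefree (3 * k ^ 2 + 3 * k + 1) →
        Pool.Agent.H41.Per.lio (3 * k ^ 2 + 3 * k + 1) = ε) → False := by
    intro K ε h
    obtain ⟨M, hM, hev⟩ := even_of_sqfree Pool.Agent.H41.Per.lio_pm hr h0 h
    exact Pool.Agent.H48.AP.lio_contra hM hev
  have hmu : ∀ n : ℕ, Squarefree n →
      Pool.Agent.H41.Per.lio n = ArithmeticFunction.moebius n := by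
    intro n hn
    rw [ArithmeticFunction.moebius_apply_of_squarefree hn]
    rfl
  have hpm : ∀ n : ℕ, Squarefree n →
      ArithmeticFunction.moebius n = 1 ∨ ArithmeticFunction.moebius n = -1 := by
    intro n hn
    rw [ArithmeticFunction.moebius_apply_of_squarefree hn]
    exact neg_one_pow_eq_or ℤ _
  constructor
  · intro hfin
    obtain ⟨B, hB⟩ := hfin.bddAbove
    refine key (B + 1) 1 fun k hk hkr hs => ?_
    rw [hmu _ hs]
    rcases hpm _ hs with h | h
    · exact h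
    · have : k ≤ B := hB ⟨hkr, h⟩
      omega
  · intro hfin
    obtain ⟨B, hB⟩ := hfin.bddAbove
    refine key (B + 1) (-1) fun k hk hkr hs => ?_
    rw [hmu _ hs]
    rcases hpm _ hs with h | h
    · have : k ≤ B := hB ⟨hkr, h⟩
      omega
    · exact h

end Pool.Agent.H48.SF
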