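import Pool.Agent.H48.SF.Defs
import Pool.Agent.H37.SFG.Theta

/-!
Primes in progressions with modulus `≤ 2^(n/8)` in the window (lower bound).
-/

set_option autoImplicit false

namespace Pool.Agent.H48.SF

open Finset Classical
open Pool.Agent.H95.Gol (bb PB)
open Pool.Agent.H41.Per (PM)
open Pool.Agent.H48.AP (F H Vx Sparse oddCount)
open Pool.Agent.H37.SFQ (fW wp)

/-- the primes `≡ r` in a dyadic interval -/
noncomputable def swwBlk (q r i : ℕ) : Finset ℕ :=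
  ((Ioc (2 ^ i) (2 ^ (i + 1))).filter Nat.Prime).filter (fun p => p % q = r)

lemma swwDiff (q r i : ℕ) :
    fW 0 (2 ^ (i + 1)) q r = fW 0 (2 ^ i) q r + ∑ p ∈ swwBlk q r i, Real.log p := by
  have h1 : (2 : ℕ) ^ i ≤ 2 ^ (i + 1) := Nat.pow_le_pow_right (by norm_num) (by omega)
  have hu : Ioc 0 (2 ^ (i + 1)) = Ioc 0 (2 ^ i) ∪ Ioc (2 ^ i) (2 ^ (i + 1)) :=
    (Finset.Ioc_union_Ioc_eq_Ioc (Nat.zero_le _) h1).symm
  have hd : Disjoint (Ioc 0 (2 ^ i)) (Ioc (2 ^ i) (2 ^ (i + 1))) := by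
    rw [Finset.disjoint_left]
    intro x hx hy
    rw [Finset.mem_Ioc] at hx hy
    omega
  unfold fW wp swwBlk
  rw [zero_add, zero_add, hu, Finset.filter_union, Finset.filter_union, Finset.sum_union]
  exact Finset.disjoint_filter_filter (Finset.disjoint_filter_filter hd)

lemma swwBlk_lower (q r i : ℕ) :
    (∑ p ∈ swwBlk q r i, Real.log p) / (2 ^ (i + 1) * (i + 1)) ≤
      ∑ p ∈ swwBlk q r i, (1 : ℝ) / p := by
  rw [Finset.sum_div]
  refine Finset.sum_le_sum fun p hp => ?_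
  unfold swwBlk at hp
  rw [Finset.mem_filter, Finset.mem_filter, Finset.mem_Ioc] at hp
  have hp0 : 0 < p := hp.1.2.pos
  have hpR : (0 : ℝ) < p := by exact_mod_cast hp0
  have hle : (p : ℝ) ≤ 2 ^ (i + 1) := by exact_mod_cast hp.1.1.2
  have hi : (0 : ℝ) < (i : ℝ) + 1 := by positivity
  have hlog : Real.log p ≤ (i : ℝ) + 1 := by
    calc Real.log p ≤ Real.log ((2 : ℝ) ^ (i + 1)) := Real.log_le_log hpR hle
      _ = ((i + 1 : ℕ) : ℝ) * Real.log 2 := Real.log_pow _ _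
      _ ≤ ((i + 1 : ℕ) : ℝ) * 1 := by
        apply mul_le_mul_of_nonneg_left _ (by positivity)
        linarith [Real.log_two_lt_d9]
      _ = (i : ℝ) + 1 := by push_cast; ring
  rw [div_le_div_iff₀ (by positivity) hpR, one_mul]
  calc Real.log p * p ≤ ((i : ℝ) + 1) * 2 ^ (i + 1) :=
        mul_le_mul hlog hle hpR.le hi.le
    _ = 2 ^ (i + 1) * ((i : ℝ) + 1) := by ring

lemma sww_split (q r a b : ℕ) (hab : a ≤ b) :
    ∑ p ∈ ((Ioc (2 ^ a) (2 ^ b)).filter Nat.Prime).filter (fun p => p % q = r), (1 : ℝ) / p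
      = ∑ i ∈ Ico a b, ∑ p ∈ swwBlk q r i, (1 : ℝ) / p := by
  induction b, hab using Nat.le_induction with
  | base => simp
  | succ b hab ih =>
    rw [Finset.sum_Ico_succ_top hab, ← ih]
    have h1 : (2 : ℕ) ^ b ≤ 2 ^ (b + 1) := Nat.pow_le_pow_right (by norm_num) (by omega)
    have h2 : (2 : ℕ) ^ a ≤ 2 ^ b := Nat.pow_le_pow_right (by norm_num) hab
    have hu : Ioc (2 ^ a) (2 ^ (b + 1)) = Ioc (2 ^ a) (2 ^ b) ∪ Ioc (2 ^ b) (2 ^ (b + 1)) :=
      (Finset.Ioc_union_Ioc_eq_Ioc h2 h1).symm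
    have hd : Disjoint (Ioc (2 ^ a) (2 ^ b)) (Ioc (2 ^ b) (2 ^ (b + 1))) := by
      rw [Finset.disjoint_left]
      intro x hx hy
      rw [Finset.mem_Ioc] at hx hy
      omega
    unfold swwBlk
    rw [hu, Finset.filter_union, Finset.filter_union, Finset.sum_union]
    exact Finset.disjoint_filter_filter (Finset.disjoint_filter_filter hd)

lemma sww_harm (s t : ℕ) (hst : s ≤ t) :
    ((t : ℝ) - s) / 2 ≤ ∑ i ∈ Ico ((2 : ℕ) ^ s) ((2 : ℕ) ^ t), (1 : ℝ) / ((i : ℝ) + 1) := by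
  induction t, hst using Nat.le_induction with
  | base => simp
  | succ t hst ih =>
    have h1 : (2 : ℕ) ^ t ≤ 2 ^ (t + 1) := Nat.pow_le_pow_right (by norm_num) (by omega)
    have h2 : (2 : ℕ) ^ s ≤ 2 ^ t := Nat.pow_le_pow_right (by norm_num) hst
    rw [← Finset.sum_Ico_consecutive _ h2 h1]
    have h3 : (1 : ℝ) / 2 ≤ ∑ i ∈ Ico ((2 : ℕ) ^ t) ((2 : ℕ) ^ (t + 1)), (1 : ℝ) / ((i : ℝ) + 1) := by
      have h4 : ∀ i ∈ Ico ((2 : ℕ) ^ t) ((2 : ℕ) ^ (t + 1)),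
          (1 : ℝ) / 2 ^ (t + 1) ≤ (1 : ℝ) / ((i : ℝ) + 1) := by
        intro i hi
        rw [Finset.mem_Ico] at hi
        apply one_div_le_one_div_of_le (by positivity)
        have : i + 1 ≤ 2 ^ (t + 1) := hi.2
        exact_mod_cast this
      calc (1 : ℝ) / 2 = ∑ _i ∈ Ico ((2 : ℕ) ^ t) ((2 : ℕ) ^ (t + 1)), (1 : ℝ) / 2 ^ (t + 1) := by
            rw [Finset.sum_const, Nat.card_Ico, nsmul_eq_mul]
            have h5 : (2 : ℕ) ^ (t + 1) - 2 ^ t = 2 ^ t := by rw [pow_succ]; omega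
            rw [h5, pow_succ]
            push_cast
            have : (2 : ℝ) ^ t ≠ 0 := by positivity
            field_simp
        _ ≤ _ := Finset.sum_le_sum h4
    push_cast
    linarith

theorem sw_window : ∃ c1 : ℝ, 0 < c1 ∧ ∃ n0 : ℕ, ∀ n ≥ n0, ∀ q c : ℕ, 1 ≤ q → q ≤ 2 ^ (n / 8) →
    Nat.Coprime c q →
    c1 * n / q.totient ≤ ∑ p ∈ (PW n).filter (fun p => p % q = c % q), (1 : ℝ) / p := by
  obtain ⟨C, hC, hth⟩ := Pool.Agent.H37.SFG.theta_class (1 / 2) (by norm_num) (by norm_num) 1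
  obtain ⟨N0, hN0⟩ := exists_nat_gt (12 * C)
  refine ⟨1 / 64, by norm_num, 2 * N0 + 16, ?_⟩
  intro n hn q c hq hqn hc
  set r := c % q with hr
  have hrq : r < q := Nat.mod_lt _ hq
  have hrc : r.Coprime q := by
    rw [hr, Nat.Coprime, (Nat.mod_modEq c q).gcd_eq]
    exact hc
  have hφ : 0 < q.totient := Nat.totient_pos.2 hq
  have hφR : (0 : ℝ) < q.totient := by exact_mod_cast hφ
  set s := n / 2 with hs
  set t := 3 * n / 4 with ht
  have hst : s ≤ t := by omega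
  have hPW : (PW n).filter (fun p => p % q = r)
      = ((Ioc (2 ^ (2 ^ s)) (2 ^ (2 ^ t))).filter Nat.Prime).filter (fun p => p % q = r) := rfl
  rw [hPW, sww_split q r _ _ (Nat.pow_le_pow_right (by norm_num) hst)]
  have hblk : ∀ i ∈ Ico ((2 : ℕ) ^ s) ((2 : ℕ) ^ t),
      (1 / (4 * (q.totient : ℝ))) * ((1 : ℝ) / ((i : ℝ) + 1)) ≤ ∑ p ∈ swwBlk q r i, (1 : ℝ) / p := by
    intro i hi
    rw [Finset.mem_Ico] at hi
    have hsi : s + 1 ≤ 2 ^ s := Nat.lt_two_pow_self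
    have hiN : N0 + 8 ≤ i := by omega
    have hiR : (12 * C) < i := by
      have : ((N0 : ℕ) : ℝ) ≤ i := by exact_mod_cast (by omega : N0 ≤ i)
      linarith
    have hi0 : (0 : ℝ) < i := by linarith
    have hl2 : (1 : ℝ) / 2 < Real.log 2 := by linarith [Real.log_two_gt_d9]
    -- condition on the modulus
    have hcond : ∀ j : ℕ, i ≤ j → (q : ℝ) ≤ Real.log ((2 ^ j : ℕ) : ℝ) ^ ((1 : ℝ) - 1 / 2) := by
      intro j hj
      have e1 : Real.log ((2 ^ j : ℕ) : ℝ) = j * Real.log 2 := by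
        push_cast
        exact Real.log_pow _ _
      have h1 : ((2 : ℝ) ^ s) / 2 ≤ Real.log ((2 ^ j : ℕ) : ℝ) := by
        rw [e1]
        have h2 : ((2 : ℝ) ^ s) ≤ j := by exact_mod_cast hi.1.trans hj
        have h3 : (0 : ℝ) ≤ j := by positivity
        nlinarith
      have h2 : (q : ℝ) ^ 2 ≤ ((2 : ℝ) ^ s) / 2 := by
        have h3 : (q : ℝ) ≤ 2 ^ (n / 8) := by exact_mod_cast hqn
        have h4 : (q : ℝ) ^ 2 ≤ (2 : ℝ) ^ (2 * (n / 8)) := by
          calc (q : ℝ) ^ 2 ≤ ((2 : ℝ) ^ (n / 8)) ^ 2 := by gcongr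
            _ = (2 : ℝ) ^ (2 * (n / 8)) := by rw [← pow_mul, mul_comm]
        have h5 : (2 : ℝ) ^ (2 * (n / 8)) ≤ (2 : ℝ) ^ (s - 1) :=
          pow_le_pow_right₀ (by norm_num) (by omega)
        have h6 : (2 : ℝ) ^ (s - 1) = (2 : ℝ) ^ s / 2 := by
          have : s = (s - 1) + 1 := by omega
          conv_rhs => rw [this, pow_succ]
          ring
        linarith
      have h3 : ((1 : ℝ) - 1 / 2) = 1 / 2 := by norm_num
      rw [h3, ← Real.sqrt_eq_rpow]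
      exact Real.le_sqrt_of_sq_le (h2.trans h1)
    have h2i : (2 : ℕ) ≤ 2 ^ i := by
      calc 2 = 2 ^ 1 := by norm_num
        _ ≤ 2 ^ i := Nat.pow_le_pow_right (by norm_num) (by omega)
    have h2i' : (2 : ℕ) ≤ 2 ^ (i + 1) := h2i.trans (Nat.pow_le_pow_right (by norm_num) (by omega))
    have hA := hth (2 ^ i) h2i q r hq (hcond i le_rfl) hrq hrc
    have hB := hth (2 ^ (i + 1)) h2i' q r hq (hcond (i + 1) (by omega)) hrq hrc
    have eL1 : Real.log ((2 ^ i : ℕ) : ℝ) = i * Real.log 2 := by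
      push_cast
      exact Real.log_pow _ _
    have eL2 : Real.log ((2 ^ (i + 1) : ℕ) : ℝ) = ((i : ℝ) + 1) * Real.log 2 := by
      push_cast
      rw [Real.log_pow]
      push_cast
      ring
    rw [eL1, pow_one] at hA
    rw [eL2, pow_one] at hB
    have hP : (0 : ℝ) < (2 : ℝ) ^ i := by positivity
    have eA : C * ((2 ^ i : ℕ) : ℝ) / (i * Real.log 2) ≤ (2 : ℝ) ^ i / 6 := by
      rw [div_le_div_iff₀ (by positivity) (by norm_num)]
      push_cast
      nlinarith [mul_lt_mul_of_pos_left hiR hP, mul_lt_mul_of_pos_left hl2 (mul_pos hP hi0)]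
    have eB : C * ((2 ^ (i + 1) : ℕ) : ℝ) / (((i : ℝ) + 1) * Real.log 2) ≤ (2 : ℝ) ^ i / 3 := by
      rw [div_le_div_iff₀ (by positivity) (by norm_num)]
      push_cast
      rw [pow_succ]
      nlinarith [mul_lt_mul_of_pos_left hiR hP, mul_lt_mul_of_pos_left hl2 (mul_pos hP hi0)]
    have hA' := (abs_le.1 hA).2
    have hB' := (abs_le.1 hB).1
    have ecast1 : ((2 ^ i : ℕ) : ℝ) = (2 : ℝ) ^ i := by push_cast; rfl
    have ecast2 : ((2 ^ (i + 1) : ℕ) : ℝ) = 2 * (2 : ℝ) ^ i := by push_cast; ring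
    rw [ecast1] at hA' eA
    rw [ecast2] at hB' eB
    have hdiff : (q.totient : ℝ) * ∑ p ∈ swwBlk q r i, Real.log p ≥ (2 : ℝ) ^ i / 2 := by
      have := swwDiff q r i
      have e3 : (q.totient : ℝ) * ∑ p ∈ swwBlk q r i, Real.log p
          = q.totient * fW 0 (2 ^ (i + 1)) q r - q.totient * fW 0 (2 ^ i) q r := by
        rw [this]; ring
      rw [e3]
      linarith
    have hlow := swwBlk_lower q r i
    refine le_trans ?_ hlow
    have hi1 : (0 : ℝ) < (i : ℝ) + 1 := by positivity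
    rw [le_div_iff₀ (by positivity)]
    have e4 : (1 / (4 * (q.totient : ℝ))) * ((1 : ℝ) / (i + 1)) * (2 ^ (i + 1) * ((i : ℝ) + 1))
        = ((2 : ℝ) ^ i / 2) / q.totient := by
      rw [pow_succ]
      field_simp
      ring
    rw [e4, div_le_iff₀ hφR]
    linarith
  calc (1 / 64 : ℝ) * n / q.totient
      ≤ (1 / (4 * (q.totient : ℝ))) * (((t : ℝ) - s) / 2) := by
        have h1 : (n : ℝ) / 8 ≤ (t : ℝ) - s := by
          have h2 : n ≤ 8 * (t - s) := by omega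
          have h3 : ((8 * (t - s) : ℕ) : ℝ) = 8 * ((t : ℝ) - s) := by
            rw [Nat.cast_mul, Nat.cast_sub hst]; norm_num
          have h4 : (n : ℝ) ≤ ((8 * (t - s) : ℕ) : ℝ) := by exact_mod_cast h2
          rw [h3] at h4
          linarith
        rw [div_le_iff₀ hφR]
        have e5 : (1 / (4 * (q.totient : ℝ))) * (((t : ℝ) - s) / 2) * q.totient
            = ((t : ℝ) - s) / 8 := by
          field_simp
          ring
        rw [e5]
        linarith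
    _ ≤ (1 / (4 * (q.totient : ℝ))) * ∑ i ∈ Ico ((2 : ℕ) ^ s) ((2 : ℕ) ^ t), (1 : ℝ) / ((i : ℝ) + 1) :=
        mul_le_mul_of_nonneg_left (sww_harm s t hst) (by positivity)
    _ = ∑ i ∈ Ico ((2 : ℕ) ^ s) ((2 : ℕ) ^ t), (1 / (4 * (q.totient : ℝ))) * ((1 : ℝ) / ((i : ℝ) + 1)) :=
        Finset.mul_sum _ _ _
    _ ≤ _ := Finset.sum_le_sum hblk

end Pool.Agent.H48.SF
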