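import Pool.Agent.H48.SF.BadCls
import Pool.Agent.H48.SF.BT
import Pool.Agent.H48.SF.SWW

/-!
The good primes have mass `≫ n/(3m²B)`.
-/

set_option autoImplicit false

namespace Pool.Agent.H48.SF

open Finset Classical
open Pool.Agent.H95.Gol (bb PB)
open Pool.Agent.H41.Per (PM)
open Pool.Agent.H48.AP (F H Vx Sparse oddCount)

/-- the main residue class -/
theorem goodMass_class {m r A B u : ℤ} {q : ℕ} (hq : (q : ℤ) = 3 * m ^ 2 * B)
    (hA : IsCoprime A (3 * m * B)) (hu : IsCoprime u (3 * m * B)) (hq0 : 0 < q) :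
    ∃ c : ℕ, Nat.Coprime c q ∧ ∀ p : ℕ, p % q = c % q →
      3 * m ^ 2 * B ∣ p * (A - 3 * m * B * r) - u := by
  have hdvd : (q : ℤ) ∣ (3 * m * B) ^ 2 := by
    rw [hq]; exact ⟨3 * B, by ring⟩
  have hal : IsCoprime (A - 3 * m * B * r) (3 * m * B) := by
    have h := IsCoprime.add_mul_left_left hA (-r)
    have h' : A - 3 * m * B * r = A + 3 * m * B * (-r) := by ring
    rw [h']; exact h
  have halq : IsCoprime (A - 3 * m * B * r) (q : ℤ) :=
    IsCoprime.of_isCoprime_of_dvd_right (hal.pow_right (n := 2)) hdvd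
  have huq : IsCoprime u (q : ℤ) :=
    IsCoprime.of_isCoprime_of_dvd_right (hu.pow_right (n := 2)) hdvd
  obtain ⟨s, t, hst⟩ := halq
  have hsq : IsCoprime s (q : ℤ) := ⟨A - 3 * m * B * r, t, by linarith⟩
  have husq : IsCoprime (u * s) (q : ℤ) := huq.mul_left hsq
  have hqz : (0 : ℤ) < q := by exact_mod_cast hq0
  refine ⟨((u * s) % q).toNat, ?_, ?_⟩
  · have h0 : 0 ≤ (u * s) % (q : ℤ) := Int.emod_nonneg _ hqz.ne'
    rw [← Nat.isCoprime_iff_coprime, Int.toNat_of_nonneg h0]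
    obtain ⟨x, y, hxy⟩ := husq
    refine ⟨x, y + x * ((u * s) / q), ?_⟩
    have := Int.emod_add_mul_ediv (u * s) q
    calc x * (u * s % ↑q) + (y + x * (u * s / ↑q)) * ↑q
        = x * (u * s % ↑q + ↑q * (u * s / ↑q)) + y * ↑q := by ring
      _ = 1 := by rw [this]; exact hxy
  · intro p hp
    have h0 : 0 ≤ (u * s) % (q : ℤ) := Int.emod_nonneg _ hqz.ne'
    have h1 : (q : ℤ) ∣ (p : ℤ) - (((u * s) % q).toNat : ℤ) := by
      have : (((u * s) % q).toNat : ℕ) ≡ p [MOD q] := hp.symm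
      exact (Nat.modEq_iff_dvd.mp this)
    rw [Int.toNat_of_nonneg h0] at h1
    have h2 : (q : ℤ) ∣ (p : ℤ) - u * s := by
      have h3 : (q : ℤ) ∣ (u * s) % q - u * s := by
        refine ⟨-((u * s) / q), ?_⟩
        have := Int.emod_add_mul_ediv (u * s) q
        linarith
      have := dvd_add h1 h3
      rwa [sub_add_sub_cancel] at this
    rw [← hq]
    obtain ⟨k, hk⟩ := h2
    refine ⟨k * (A - 3 * m * B * r) - u * t, ?_⟩
    have hp' : (p : ℤ) = u * s + q * k := by linarith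
    rw [hp']
    calc (u * s + ↑q * k) * (A - 3 * m * B * r) - u
        = u * (s * (A - 3 * m * B * r) + t * q) + ↑q * (k * (A - 3 * m * B * r)) - u - u * t * q := by ring
      _ = ↑q * (k * (A - 3 * m * B * r) - u * t) := by rw [hst]; ring

/-- mass of finitely many classes -/
theorem goodMass_classes {C : ℝ} (hC : 1 ≤ C) (hbt : ∀ n q c : ℕ, 1 ≤ q → q ^ 2 ≤ bb (n / 2) →
    ∑ p ∈ (PW n).filter (fun p => p % q = c % q), (1 : ℝ) / p ≤ C * n / q.totient)
    {n Q : ℕ} (hQ : 1 ≤ Q) (hQ2 : Q ^ 2 ≤ bb (n / 2)) (S : Finset ℕ) :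
    ∑ p ∈ (PW n).filter (fun p => p % Q ∈ S), (1 : ℝ) / p ≤ S.card * (C * n / Q.totient) := by
  have h1 : ∀ p ∈ (PW n).filter (fun p => p % Q ∈ S), p % Q ∈ S := by
    intro p hp; exact (mem_filter.mp hp).2
  rw [← Finset.sum_fiberwise_of_maps_to h1]
  calc ∑ c ∈ S, ∑ p ∈ ((PW n).filter (fun p => p % Q ∈ S)).filter (fun p => p % Q = c), (1 : ℝ) / p
      ≤ ∑ c ∈ S, (C * n / Q.totient) := by
        apply sum_le_sum
        intro c _
        refine le_trans ?_ (hbt n Q c hQ hQ2)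
        apply sum_le_sum_of_subset_of_nonneg
        · intro p hp
          simp only [mem_filter] at hp ⊢
          exact ⟨hp.1.1, by rw [← hp.2, Nat.mod_mod]⟩
        · intro _ _ _; positivity
    _ = S.card * (C * n / Q.totient) := by rw [sum_const, nsmul_eq_mul]

/-- the bad primes of one `τ` -/
theorem goodMass_bad {C : ℝ} (hC : 1 ≤ C) (hbt : ∀ n q c : ℕ, 1 ≤ q → q ^ 2 ≤ bb (n / 2) →
    ∑ p ∈ (PW n).filter (fun p => p % q = c % q), (1 : ℝ) / p ≤ C * n / q.totient)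
    {m r A B u v : ℤ} (hm : 0 < m) (hB : 0 < B) {τ : ℕ} (hτ : τ.Prime)
    (h3 : ¬ (τ : ℤ) ∣ 3 * m) (hA : IsCoprime A (3 * m * B)) (hv : IsCoprime v (3 * m * B))
    (hu2 : ¬ (τ : ℤ) ^ 2 ∣ u) (hv2 : ¬ (τ : ℤ) ^ 2 ∣ v) {q : ℕ} (hq : (q : ℤ) = 3 * m ^ 2 * B)
    (hq0 : 1 ≤ q) {n : ℕ} (hQ : (q * τ ^ 2) ^ 2 ≤ bb (n / 2)) :
    ∑ p ∈ (PW n).filter (fun p => BadP m r A B u v τ p), (1 : ℝ) / p ≤
      8 * C * n / q.totient * ((1 : ℝ) / (τ : ℝ) ^ 2 +
        ((if (τ : ℤ) ∣ u then (1 : ℝ) / τ else 0) + (if (τ : ℤ) ∣ v then (1 : ℝ) / τ else 0))) := by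
  obtain ⟨C2, C1, hC2, hC1, hem, hcl⟩ := bad_classes (r := r) hm hB hτ h3 hA hv hu2 hv2 hq
  have hτ1 : 1 ≤ τ := hτ.one_lt.le
  have hτ0 : (0 : ℝ) < τ := by exact_mod_cast hτ1
  have hφ0 : (0 : ℝ) < q.totient := by exact_mod_cast Nat.totient_pos.mpr (by omega)
  have hQ1 : 1 ≤ q * τ ^ 2 := Nat.mul_pos hq0 (by positivity)
  have hQ1' : 1 ≤ q * τ := Nat.mul_pos hq0 (by positivity)
  have hQ2' : (q * τ) ^ 2 ≤ bb (n / 2) := by
    refine le_trans (Nat.pow_le_pow_left ?_ 2) hQ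
    have : τ ≤ τ ^ 2 := Nat.le_self_pow (by norm_num) τ
    exact Nat.mul_le_mul_left q this
  have hsub : (PW n).filter (fun p => BadP m r A B u v τ p) ⊆
      (PW n).filter (fun p => p % (q * τ ^ 2) ∈ C2) ∪ (PW n).filter (fun p => p % (q * τ) ∈ C1) := by
    intro p hp
    simp only [mem_filter, mem_union] at hp ⊢
    rcases hcl p hp.2 with h | h
    · exact Or.inl ⟨hp.1, h⟩
    · exact Or.inr ⟨hp.1, h⟩
  have hφ2 : (q.totient : ℝ) * ((τ : ℝ) ^ 2 / 2) ≤ (q * τ ^ 2).totient := by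
    have h1 := Nat.totient_super_multiplicative q (τ ^ 2)
    have h2 : (τ ^ 2).totient = τ * (τ - 1) := by
      rw [Nat.totient_prime_pow hτ (by norm_num)]; simp
    rw [h2] at h1
    have h3 : (τ : ℝ) ^ 2 / 2 ≤ ((τ * (τ - 1) : ℕ) : ℝ) := by
      have : 2 ≤ τ := hτ.two_le
      rw [Nat.cast_mul, Nat.cast_sub hτ1]
      have h2' : (2 : ℝ) ≤ τ := by exact_mod_cast this
      push_cast
      nlinarith
    calc (q.totient : ℝ) * ((τ : ℝ) ^ 2 / 2) ≤ q.totient * ((τ * (τ - 1) : ℕ) : ℝ) := by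
          exact mul_le_mul_of_nonneg_left h3 hφ0.le
      _ = ((q.totient * (τ * (τ - 1)) : ℕ) : ℝ) := by push_cast; ring
      _ ≤ _ := by exact_mod_cast h1
  have hφ1 : (q.totient : ℝ) * ((τ : ℝ) / 2) ≤ (q * τ).totient := by
    have h1 := Nat.totient_super_multiplicative q τ
    rw [Nat.totient_prime hτ] at h1
    have h3 : (τ : ℝ) / 2 ≤ ((τ - 1 : ℕ) : ℝ) := by
      have : 2 ≤ τ := hτ.two_le
      rw [Nat.cast_sub hτ1]
      have h2' : (2 : ℝ) ≤ τ := by exact_mod_cast this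
      push_cast
      linarith
    calc (q.totient : ℝ) * ((τ : ℝ) / 2) ≤ q.totient * ((τ - 1 : ℕ) : ℝ) := by
          exact mul_le_mul_of_nonneg_left h3 hφ0.le
      _ = ((q.totient * (τ - 1) : ℕ) : ℝ) := by push_cast; ring
      _ ≤ _ := by exact_mod_cast h1
  have hb2 : ∑ p ∈ (PW n).filter (fun p => p % (q * τ ^ 2) ∈ C2), (1 : ℝ) / p ≤
      8 * C * n / q.totient * ((1 : ℝ) / (τ : ℝ) ^ 2) := by
    refine (goodMass_classes hC hbt hQ1 hQ C2).trans ?_
    have h4 : (C2.card : ℝ) ≤ 4 := by exact_mod_cast hC2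
    have h5 : C * n / (q * τ ^ 2).totient ≤ C * n / (q.totient * ((τ : ℝ) ^ 2 / 2)) := by
      apply div_le_div_of_nonneg_left (by positivity) (by positivity) hφ2
    calc (C2.card : ℝ) * (C * n / (q * τ ^ 2).totient)
        ≤ 4 * (C * n / (q.totient * ((τ : ℝ) ^ 2 / 2))) := by
          apply mul_le_mul h4 h5 (by positivity) (by norm_num)
      _ = 8 * C * n / q.totient * ((1 : ℝ) / (τ : ℝ) ^ 2) := by
          field_simp; ring
  have hb1 : ∑ p ∈ (PW n).filter (fun p => p % (q * τ) ∈ C1), (1 : ℝ) / p ≤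
      8 * C * n / q.totient *
        ((if (τ : ℤ) ∣ u then (1 : ℝ) / τ else 0) + (if (τ : ℤ) ∣ v then (1 : ℝ) / τ else 0)) := by
    by_cases huv : (τ : ℤ) ∣ u ∨ (τ : ℤ) ∣ v
    · have h6 : (1 : ℝ) / τ ≤
          (if (τ : ℤ) ∣ u then (1 : ℝ) / τ else 0) + (if (τ : ℤ) ∣ v then (1 : ℝ) / τ else 0) := by
        have hp : (0 : ℝ) ≤ 1 / τ := by positivity
        rcases huv with h | h
        · rw [if_pos h]; split_ifs <;> linarith
        · rw [if_pos h]; split_ifs <;> linarith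
      refine le_trans ?_ (mul_le_mul_of_nonneg_left h6 (by positivity))
      refine (goodMass_classes hC hbt hQ1' hQ2' C1).trans ?_
      have h4 : (C1.card : ℝ) ≤ 4 := by exact_mod_cast hC1
      have h5 : C * n / (q * τ).totient ≤ C * n / (q.totient * ((τ : ℝ) / 2)) := by
        apply div_le_div_of_nonneg_left (by positivity) (by positivity) hφ1
      calc (C1.card : ℝ) * (C * n / (q * τ).totient)
          ≤ 4 * (C * n / (q.totient * ((τ : ℝ) / 2))) := by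
            apply mul_le_mul h4 h5 (by positivity) (by norm_num)
        _ = 8 * C * n / q.totient * ((1 : ℝ) / τ) := by
            field_simp; ring
    · push Not at huv
      rw [hem huv.1 huv.2]
      simp [huv.1, huv.2]
  calc ∑ p ∈ (PW n).filter (fun p => BadP m r A B u v τ p), (1 : ℝ) / p
      ≤ ∑ p ∈ (PW n).filter (fun p => p % (q * τ ^ 2) ∈ C2) ∪
          (PW n).filter (fun p => p % (q * τ) ∈ C1), (1 : ℝ) / p :=
        sum_le_sum_of_subset_of_nonneg hsub (fun _ _ _ => by positivity)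
    _ ≤ ∑ p ∈ (PW n).filter (fun p => p % (q * τ ^ 2) ∈ C2), (1 : ℝ) / p +
          ∑ p ∈ (PW n).filter (fun p => p % (q * τ) ∈ C1), (1 : ℝ) / p := by
        rw [← sum_union_inter]
        exact le_add_of_nonneg_right (sum_nonneg (fun _ _ => by positivity))
    _ ≤ _ := by rw [mul_add]; exact add_le_add hb2 hb1

theorem good_mass : ∃ η3 c4 : ℝ, 0 < η3 ∧ 0 < c4 ∧ ∀ (m r : ℤ) (C0 : ℕ), 0 < m →
    ∃ n0 : ℕ, ∀ n ≥ n0, ∀ (A B u v : ℤ) (S : Finset ℕ), 1 ≤ B → 3 * m ^ 2 * B ≤ 2 ^ (n / 8) →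
    IsCoprime A (3 * m * B) → IsCoprime u (3 * m * B) → IsCoprime v (3 * m * B) →
    (∀ τ ∈ S, τ.Prime ∧ ¬ (τ : ℤ) ∣ 3 * m ∧ τ ≤ 2 ^ (C0 * n) ∧ ¬ (τ : ℤ) ^ 2 ∣ u ∧
      ¬ (τ : ℤ) ^ 2 ∣ v) →
    ∑ τ ∈ S, (1 : ℝ) / (τ : ℝ) ^ 2 ≤ η3 →
    ∑ τ ∈ S.filter (fun τ : ℕ => (τ : ℤ) ∣ u), (1 : ℝ) / τ ≤ η3 →
    ∑ τ ∈ S.filter (fun τ : ℕ => (τ : ℤ) ∣ v), (1 : ℝ) / τ ≤ η3 →
    c4 * n / ((3 * m ^ 2 * B : ℤ) : ℝ) ≤
      ∑ p ∈ (PW n).filter (fun p => GoodP m r A B u v S p), (1 : ℝ) / p := by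
  obtain ⟨C, hC, hbt⟩ := bt_window
  obtain ⟨c1, hc1, n1, hsw⟩ := sw_window
  refine ⟨c1 / (48 * C), c1 / 2, by positivity, by positivity, ?_⟩
  intro m r C0 hm
  obtain ⟨n2, hn2⟩ : ∃ n2 : ℕ, ∀ n ≥ n2, n / 4 + 4 * C0 * n ≤ 2 ^ (n / 2) := by
    have h1 : ∀ᶠ k : ℕ in Filter.atTop, (2 + 8 * C0) * (k + 1) ≤ 2 ^ k := by
      have h2 := (tendsto_pow_const_div_const_pow_of_one_lt 1 (r := (2 : ℝ)) (by norm_num))
      have h3 := h2.eventually (gt_mem_nhds (show (0 : ℝ) < 1 / (2 * (2 + 8 * (C0 : ℝ))) by positivity))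
      filter_upwards [h3, Filter.eventually_ge_atTop 1] with k hk hk1
      have hk1' : (1 : ℝ) ≤ k := by exact_mod_cast hk1
      rw [div_lt_div_iff₀ (by positivity) (by positivity), pow_one] at hk
      have : ((2 + 8 * C0) * (k + 1) : ℝ) ≤ 2 ^ k := by nlinarith [Nat.cast_nonneg (α := ℝ) C0]
      exact_mod_cast this
    obtain ⟨k0, hk0⟩ := Filter.eventually_atTop.mp h1
    refine ⟨2 * k0, fun n hn => ?_⟩
    have h2 := hk0 (n / 2) (by omega)
    refine le_trans ?_ h2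
    have h3 : n ≤ 2 * (n / 2 + 1) := by omega
    calc n / 4 + 4 * C0 * n ≤ 2 * (n / 2 + 1) + 4 * C0 * (2 * (n / 2 + 1)) := by
          apply Nat.add_le_add
          · omega
          · exact Nat.mul_le_mul_left _ h3
      _ = (2 + 8 * C0) * (n / 2 + 1) := by ring
  refine ⟨max n1 n2, ?_⟩
  intro n hn A B u v S hB hBn hA hu hv hS hs2 hsu hsv
  have hn1 : n1 ≤ n := le_trans (le_max_left _ _) hn
  have hn2' : n2 ≤ n := le_trans (le_max_right _ _) hn
  obtain ⟨q, hq⟩ : ∃ q : ℕ, (q : ℤ) = 3 * m ^ 2 * B :=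
    ⟨(3 * m ^ 2 * B).toNat, Int.toNat_of_nonneg (by positivity)⟩
  have hq0 : 1 ≤ q := by
    have : (0 : ℤ) < q := by rw [hq]; positivity
    exact_mod_cast this
  have hqn : q ≤ 2 ^ (n / 8) := by
    have : (q : ℤ) ≤ 2 ^ (n / 8) := by rw [hq]; exact hBn
    exact_mod_cast this
  have hφ0 : (0 : ℝ) < q.totient := by exact_mod_cast Nat.totient_pos.mpr (by omega)
  obtain ⟨c, hcq, hcl⟩ := goodMass_class (r := r) hq hA hu hq0
  have hmain := hsw n hn1 q c hq0 hqn hcq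
  have hsplit : (PW n).filter (fun p => p % q = c % q) ⊆
      (PW n).filter (fun p => GoodP m r A B u v S p) ∪
        S.biUnion (fun τ => (PW n).filter (fun p => BadP m r A B u v τ p)) := by
    intro p hp
    simp only [mem_filter, mem_union, mem_biUnion] at hp ⊢
    by_cases hg : ∃ τ ∈ S, BadP m r A B u v τ p
    · obtain ⟨τ, hτ, hb⟩ := hg
      exact Or.inr ⟨τ, hτ, hp.1, hb⟩
    · push Not at hg
      exact Or.inl ⟨hp.1, hcl p hp.2, hg⟩
  have hbad : ∀ τ ∈ S, ∑ p ∈ (PW n).filter (fun p => BadP m r A B u v τ p), (1 : ℝ) / p ≤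
      8 * C * n / q.totient * ((1 : ℝ) / (τ : ℝ) ^ 2 +
        ((if (τ : ℤ) ∣ u then (1 : ℝ) / τ else 0) + (if (τ : ℤ) ∣ v then (1 : ℝ) / τ else 0))) := by
    intro τ hτ
    obtain ⟨hp, h3, hle, hu2, hv2⟩ := hS τ hτ
    refine goodMass_bad hC hbt hm (by omega) hp h3 hA hv hu2 hv2 hq hq0 ?_
    calc (q * τ ^ 2) ^ 2 ≤ (2 ^ (n / 8) * (2 ^ (C0 * n)) ^ 2) ^ 2 :=
          Nat.pow_le_pow_left (Nat.mul_le_mul hqn (Nat.pow_le_pow_left hle 2)) 2
      _ = 2 ^ (2 * (n / 8) + 4 * C0 * n) := by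
          rw [← pow_mul, ← pow_add, ← pow_mul]; congr 1; ring
      _ ≤ 2 ^ (2 ^ (n / 2)) := by
          apply Nat.pow_le_pow_right (by norm_num)
          refine le_trans ?_ (hn2 n hn2')
          omega
      _ = bb (n / 2) := rfl
  have hsum : ∑ p ∈ S.biUnion (fun τ => (PW n).filter (fun p => BadP m r A B u v τ p)), (1 : ℝ) / p
      ≤ ∑ τ ∈ S, ∑ p ∈ (PW n).filter (fun p => BadP m r A B u v τ p), (1 : ℝ) / p := by
    clear hbad hsplit hs2 hsu hsv hS
    induction S using Finset.induction_on with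
    | empty => simp
    | insert a s ha ih =>
      rw [biUnion_insert, sum_insert ha]
      refine le_trans ?_ (add_le_add_right ih _)
      rw [← sum_union_inter]
      exact le_add_of_nonneg_right (sum_nonneg (fun _ _ => by positivity))
  have htot : ∑ τ ∈ S, 8 * C * n / q.totient * ((1 : ℝ) / (τ : ℝ) ^ 2 +
        ((if (τ : ℤ) ∣ u then (1 : ℝ) / τ else 0) + (if (τ : ℤ) ∣ v then (1 : ℝ) / τ else 0))) ≤
      8 * C * n / q.totient * (3 * (c1 / (48 * C))) := by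
    rw [← mul_sum, sum_add_distrib, sum_add_distrib, ← sum_filter, ← sum_filter]
    apply mul_le_mul_of_nonneg_left _ (by positivity)
    linarith
  have hle : c1 * n / q.totient ≤
      ∑ p ∈ (PW n).filter (fun p => GoodP m r A B u v S p), (1 : ℝ) / p +
        8 * C * n / q.totient * (3 * (c1 / (48 * C))) := by
    calc c1 * n / q.totient ≤ ∑ p ∈ (PW n).filter (fun p => p % q = c % q), (1 : ℝ) / p := hmain
      _ ≤ ∑ p ∈ (PW n).filter (fun p => GoodP m r A B u v S p) ∪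
        S.biUnion (fun τ => (PW n).filter (fun p => BadP m r A B u v τ p)), (1 : ℝ) / p :=
          sum_le_sum_of_subset_of_nonneg hsplit (fun _ _ _ => by positivity)
      _ ≤ ∑ p ∈ (PW n).filter (fun p => GoodP m r A B u v S p), (1 : ℝ) / p +
          ∑ p ∈ S.biUnion (fun τ => (PW n).filter (fun p => BadP m r A B u v τ p)), (1 : ℝ) / p := by
          rw [← sum_union_inter]
          exact le_add_of_nonneg_right (sum_nonneg (fun _ _ => by positivity))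
      _ ≤ _ := by
          apply add_le_add le_rfl
          exact hsum.trans ((sum_le_sum hbad).trans htot)
  have heq : 8 * C * n / q.totient * (3 * (c1 / (48 * C))) = (c1 / 2) * n / q.totient := by
    field_simp; ring
  rw [heq] at hle
  have hfin : c1 / 2 * n / ((3 * m ^ 2 * B : ℤ) : ℝ) ≤ (c1 / 2) * n / q.totient := by
    rw [← hq]
    have : (q.totient : ℝ) ≤ q := by exact_mod_cast Nat.totient_le q
    have hqc : (((q : ℤ) : ℤ) : ℝ) = (q : ℝ) := by push_cast; rfl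
    rw [hqc]
    exact div_le_div_of_nonneg_left (by positivity) hφ0 this
  have : c1 * n / (q.totient : ℝ) = c1 / 2 * n / q.totient + c1 / 2 * n / q.totient := by ring
  linarith

end Pool.Agent.H48.SF
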