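import Pool.Agent.H48.SF.LargeSq

/-!
Huge obstacles.
-/

set_option autoImplicit false

namespace Pool.Agent.H48.SF

open Finset Classical
open Pool.Agent.H95.Gol (bb PB)
open Pool.Agent.H41.Per (PM)
open Pool.Agent.H48.AP (F H Vx Sparse oddCount)

/-- counting with one modulus -/
theorem huge_cnt {q X : ℕ} (P : ℕ → Prop) [DecidablePred P] (R : Finset ℕ)
    (h : ∀ a, P a → a % q ∈ R) :
    ((Icc 1 X).filter P).card ≤ R.card * (X / q + 1) := by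
  have h1 : ((Icc 1 X).filter P).card ≤ (R ×ˢ range (X / q + 1)).card := by
    apply Finset.card_le_card_of_injOn (fun a => (a % q, a / q))
    · intro a ha
      simp only [coe_filter, mem_Icc, Set.mem_ofPred_eq] at ha
      simp only [coe_product, Set.mem_prod, mem_coe, mem_range]
      exact ⟨h a ha.2, Nat.lt_succ_of_le (Nat.div_le_div_right ha.1.2)⟩
    · intro a _ a' _ haa
      simp only [Prod.mk.injEq] at haa
      rw [← Nat.div_add_mod a q, ← Nat.div_add_mod a' q, haa.1, haa.2]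
  simpa [card_product] using h1

/-- counting with two coprime moduli -/
theorem huge_cnt2 {p t X : ℕ} (hc : p.Coprime t) (P : ℕ → Prop) [DecidablePred P]
    (R S : Finset ℕ)
    (h1 : ∀ a, P a → a % p ∈ R) (h2 : ∀ a, P a → a % t ∈ S) :
    ((Icc 1 X).filter P).card ≤ R.card * S.card * (X / (p * t) + 1) := by
  have h3 : ((Icc 1 X).filter P).card ≤ ((R ×ˢ S) ×ˢ range (X / (p * t) + 1)).card := by
    apply Finset.card_le_card_of_injOn (fun a => ((a % p, a % t), a / (p * t)))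
    · intro a ha
      simp only [coe_filter, mem_Icc, Set.mem_ofPred_eq] at ha
      simp only [coe_product, Set.mem_prod, mem_coe, mem_range]
      exact ⟨⟨h1 a ha.2, h2 a ha.2⟩, Nat.lt_succ_of_le (Nat.div_le_div_right ha.1.2)⟩
    · intro a _ a' _ haa
      simp only [Prod.mk.injEq] at haa
      have h4 : a ≡ a' [MOD p * t] :=
        (Nat.modEq_and_modEq_iff_modEq_mul hc).1 ⟨haa.1.1, haa.1.2⟩
      have h5 : a % (p * t) = a' % (p * t) := h4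
      rw [← Nat.div_add_mod a (p * t), ← Nat.div_add_mod a' (p * t), haa.2, h5]
  simpa [card_product] using h3

theorem huge_omega {N k : ℕ} (h0 : N ≠ 0) (h : N ≤ 2 ^ k) : N.primeFactors.card ≤ k := by
  have h1 : 2 ^ N.primeFactors.card ≤ ∏ p ∈ N.primeFactors, p := by
    calc 2 ^ N.primeFactors.card = ∏ _p ∈ N.primeFactors, 2 := by simp
      _ ≤ ∏ p ∈ N.primeFactors, p := Finset.prod_le_prod (fun _ _ => Nat.zero_le _)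
          (fun p hp => (Nat.prime_of_mem_primeFactors hp).two_le)
  have h2 : ∏ p ∈ N.primeFactors, p ≤ N :=
    Nat.le_of_dvd (Nat.pos_of_ne_zero h0) (Nat.prod_primeFactors_dvd N)
  exact (Nat.pow_le_pow_iff_right (by norm_num)).1 (h1.trans (h2.trans h))

/-- periodicity of `F` -/
theorem huge_perF (m b c : ℤ) (q a : ℕ) :
    (q : ℤ) ∣ F m (a - c) b ↔ (q : ℤ) ∣ F m ((a % q : ℕ) - c) b := by
  have h1 : (q : ℤ) ∣ F m (a - c) b - F m ((a % q : ℕ) - c) b := by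
    have h2 : (q : ℤ) ∣ (a : ℤ) - ((a % q : ℕ) : ℤ) := by
      refine ⟨((a / q : ℕ) : ℤ), ?_⟩
      have := Nat.div_add_mod a q
      have h3 : ((q * (a / q) + a % q : ℕ) : ℤ) = (a : ℤ) := by rw [this]
      rw [Nat.cast_add, Nat.cast_mul] at h3
      linarith
    have h3 : F m (a - c) b - F m ((a % q : ℕ) - c) b =
        ((a : ℤ) - ((a % q : ℕ) : ℤ)) * ((a - c) + ((a % q : ℕ) - c) + 3 * m * b) := by
      unfold F; ring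
    rw [h3]
    exact h2.mul_right _
  constructor
  · intro h; have := dvd_sub h h1; simpa using this
  · intro h; have := dvd_add h1 h; simpa using this

/-- the roots of `F m (· - c) b` modulo a prime -/
noncomputable def hugeR (m b c : ℤ) (q : ℕ) : Finset ℕ :=
  (range q).filter (fun t : ℕ => (q : ℤ) ∣ F m (t - c) b)

theorem hugeR_card {m b c : ℤ} {q : ℕ} (hq : q.Prime) (h : ¬ (q : ℤ) ∣ 3 * m * b) :
    (hugeR m b c q).card ≤ 2 := by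
  have := F_roots hq m b c h (le_refl 1)
  simpa [hugeR] using this

theorem hugeR_mem {m b c : ℤ} {q a : ℕ} (hq : q.Prime) (h : (q : ℤ) ∣ F m (a - c) b) :
    a % q ∈ hugeR m b c q := by
  simp only [hugeR, mem_filter, mem_range]
  exact ⟨Nat.mod_lt _ hq.pos, (huge_perF m b c q a).1 h⟩

/-- the primes dividing a nonzero number, in two congruences -/
theorem huge_two {m b c c' : ℤ} {j z p k : ℕ} (hp : p.Prime) (hz : 1 ≤ z)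
    (hpb : ¬ (p : ℤ) ∣ 3 * m * b)
    (hzd : ∀ τ : ℕ, τ.Prime → z < τ → ¬ (τ : ℤ) ∣ 3 * m * b) (Δ : ℤ) (hΔ : 0 < Δ)
    (hΔ2 : Δ ≤ 2 ^ k) :
    (((Icc 1 (2 ^ j)).filter (fun a : ℕ => (p : ℤ) ∣ F m (a - c) b ∧
      ∃ τ : ℕ, τ.Prime ∧ z < τ ∧ τ ≠ p ∧ (τ : ℤ) ∣ Δ ∧ (τ : ℤ) ∣ F m (a - c') b)).card : ℝ) ≤
      k * (4 * (2 ^ j / (p * z) + 1)) := by
  set T := Δ.toNat.primeFactors.filter (fun τ => z < τ ∧ τ ≠ p) with hT
  have hTk : T.card ≤ k := by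
    refine (card_filter_le _ _).trans (huge_omega ?_ ?_)
    · omega
    · have : ((Δ.toNat : ℕ) : ℤ) ≤ ((2 ^ k : ℕ) : ℤ) := by
        rw [Int.toNat_of_nonneg hΔ.le]; push_cast; exact hΔ2
      exact_mod_cast this
  have h1 : ((Icc 1 (2 ^ j)).filter (fun a : ℕ => (p : ℤ) ∣ F m (a - c) b ∧
      ∃ τ : ℕ, τ.Prime ∧ z < τ ∧ τ ≠ p ∧ (τ : ℤ) ∣ Δ ∧ (τ : ℤ) ∣ F m (a - c') b)) ⊆
      T.biUnion (fun τ => (Icc 1 (2 ^ j)).filter (fun a : ℕ => (p : ℤ) ∣ F m (a - c) b ∧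
        (τ : ℤ) ∣ F m (a - c') b)) := by
    intro a ha
    simp only [mem_filter, mem_biUnion] at ha ⊢
    obtain ⟨ha1, ha2, τ, h1, h2, h3, h4, h5⟩ := ha
    refine ⟨τ, ?_, ha1, ha2, h5⟩
    rw [hT, mem_filter, Nat.mem_primeFactors]
    refine ⟨⟨h1, ?_, by omega⟩, h2, h3⟩
    rw [← Int.toNat_of_nonneg hΔ.le] at h4
    exact_mod_cast h4
  have h2 := (card_le_card h1).trans card_biUnion_le
  have h3 : (∑ τ ∈ T, (((Icc 1 (2 ^ j)).filter (fun a : ℕ => (p : ℤ) ∣ F m (a - c) b ∧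
        (τ : ℤ) ∣ F m (a - c') b)).card : ℝ)) ≤ ∑ τ ∈ T, (4 * (2 ^ j / (p * z) + 1) : ℝ) := by
    apply sum_le_sum
    intro τ hτ
    rw [hT, mem_filter, Nat.mem_primeFactors] at hτ
    obtain ⟨⟨hτp, -, -⟩, hτz, hτne⟩ := hτ
    have hc : p.Coprime τ := (Nat.coprime_primes hp hτp).2 (Ne.symm hτne)
    have h4 := huge_cnt2 (X := 2 ^ j) hc (fun a : ℕ => (p : ℤ) ∣ F m (a - c) b ∧
        (τ : ℤ) ∣ F m (a - c') b) (hugeR m b c p) (hugeR m b c' τ) (fun a ha => hugeR_mem hp ha.1)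
        (fun a ha => hugeR_mem hτp ha.2)
    have h5 : (hugeR m b c p).card * (hugeR m b c' τ).card ≤ 4 := by
      calc _ ≤ 2 * 2 := Nat.mul_le_mul (hugeR_card hp hpb) (hugeR_card hτp (hzd τ hτp hτz))
        _ = 4 := by norm_num
    have h6 : ((Icc 1 (2 ^ j)).filter (fun a : ℕ => (p : ℤ) ∣ F m (a - c) b ∧
        (τ : ℤ) ∣ F m (a - c') b)).card ≤ 4 * (2 ^ j / (p * τ) + 1) :=
      h4.trans (Nat.mul_le_mul_right _ h5)
    have h7 : ((2 ^ j / (p * τ) : ℕ) : ℝ) ≤ 2 ^ j / (p * z) := by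
      refine Nat.cast_div_le.trans ?_
      push_cast
      have hp0 : (0 : ℝ) < p := by exact_mod_cast hp.pos
      have hz0 : (0 : ℝ) < z := by exact_mod_cast hz
      have hzt : (z : ℝ) ≤ τ := by exact_mod_cast hτz.le
      gcongr
    calc (((Icc 1 (2 ^ j)).filter (fun a : ℕ => (p : ℤ) ∣ F m (a - c) b ∧
        (τ : ℤ) ∣ F m (a - c') b)).card : ℝ) ≤ ((4 * (2 ^ j / (p * τ) + 1) : ℕ) : ℝ) := by
          exact_mod_cast h6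
      _ = 4 * (((2 ^ j / (p * τ) : ℕ) : ℝ) + 1) := by push_cast; ring
      _ ≤ _ := by linarith
  calc (((Icc 1 (2 ^ j)).filter (fun a : ℕ => (p : ℤ) ∣ F m (a - c) b ∧
      ∃ τ : ℕ, τ.Prime ∧ z < τ ∧ τ ≠ p ∧ (τ : ℤ) ∣ Δ ∧ (τ : ℤ) ∣ F m (a - c') b)).card : ℝ)
      ≤ ((∑ τ ∈ T, ((Icc 1 (2 ^ j)).filter (fun a : ℕ => (p : ℤ) ∣ F m (a - c) b ∧
        (τ : ℤ) ∣ F m (a - c') b)).card : ℕ) : ℝ) := by exact_mod_cast h2
    _ ≤ ∑ τ ∈ T, (4 * (2 ^ j / (p * z) + 1) : ℝ) := by push_cast; exact h3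
    _ = T.card * (4 * (2 ^ j / (p * z) + 1)) := by rw [sum_const, nsmul_eq_mul]
    _ ≤ k * (4 * (2 ^ j / (p * z) + 1)) := by
        have : (T.card : ℝ) ≤ k := by exact_mod_cast hTk
        have h8 : (0 : ℝ) ≤ 4 * (2 ^ j / (p * z) + 1) := by positivity
        gcongr

/-- the statement of `large_sq` for one `j` -/
def HugeLSq (j : ℕ) : Prop := ∀ (α β γ : ℤ) (q0 z : ℕ) (S0 : Finset ℕ), 1 ≤ α → 1 ≤ γ →
    α ≤ 2 ^ (j / 100) → |β| ≤ 2 ^ (j / 100) → γ ≤ 2 ^ (j / 100) → 1 ≤ q0 →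
    q0 ≤ 2 ^ (j / 100) → 1 ≤ z → S0 ⊆ range q0 →
    (((Icc 1 (2 ^ j)).filter (fun a : ℕ => a % q0 ∈ S0 ∧ ∃ τ : ℕ, τ.Prime ∧ z < τ ∧ τ ≠ 2 ∧
      ¬ (τ : ℤ) ∣ α * γ ∧ ¬ τ ∣ q0 ∧ (τ : ℤ) ^ 2 ∣ (α * a + β) ^ 2 + γ)).card : ℝ) ≤
      2 * S0.card * 2 ^ j / (q0 * z) + 2 ^ (j - j / 20)

theorem huge_be {m b : ℤ} {j z D B p : ℕ} {Q : ℤ → ℤ → ℤ → ℤ}
    (hQ : Mode m b D Q) (hls : HugeLSq j) (hp : p.Prime) (hB : 1 ≤ B) (hz2 : 2 ≤ z) (hzp : z < p)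
    (hzd : ∀ τ : ℕ, τ.Prime → z < τ → ¬ (τ : ℤ) ∣ 3 * m * b ∧ ¬ (τ : ℤ) ∣ D * B)
    (hsz : 100 * (m * b * D * B * p) ^ 4 ≤ 2 ^ (j / 100)) (hq : p ≤ 2 ^ (j / 100)) :
    (((Icc 1 (2 ^ j)).filter (fun a : ℕ => (p : ℤ) ∣ F m (a - D * B) b ∧
      ∃ τ : ℕ, τ.Prime ∧ z < τ ∧ τ ≠ p ∧ (τ : ℤ) ^ 2 ∣ Q a p B)).card : ℝ) ≤
      4 * (2 ^ j / (p * z)) + 2 ^ (j - j / 20) := by
  obtain ⟨α, β, γ, hα, hγ, hα2, hβ2, hγ2, h4, hdis⟩ :=
    hQ.shape p B (by exact_mod_cast hp.two_le) (by exact_mod_cast hB)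
  have h1 := hls α β γ p z (hugeR m b (D * B) p) hα hγ (hα2.trans hsz) (hβ2.trans hsz)
    (hγ2.trans hsz) hp.one_le hq (by omega) (filter_subset _ _)
  have h2 : ((Icc 1 (2 ^ j)).filter (fun a : ℕ => (p : ℤ) ∣ F m (a - D * B) b ∧
      ∃ τ : ℕ, τ.Prime ∧ z < τ ∧ τ ≠ p ∧ (τ : ℤ) ^ 2 ∣ Q a p B)) ⊆
      ((Icc 1 (2 ^ j)).filter (fun a : ℕ => a % p ∈ hugeR m b (D * B) p ∧ ∃ τ : ℕ, τ.Prime ∧
      z < τ ∧ τ ≠ 2 ∧
      ¬ (τ : ℤ) ∣ α * γ ∧ ¬ τ ∣ p ∧ (τ : ℤ) ^ 2 ∣ (α * a + β) ^ 2 + γ)) := by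
    intro a ha
    simp only [mem_filter] at ha ⊢
    obtain ⟨ha1, ha2, τ, h1, h2, h3, h5⟩ := ha
    have hτ2 : τ ≠ 2 := by omega
    refine ⟨ha1, hugeR_mem hp ha2, τ, h1, h2, hτ2, ?_, ?_, ?_⟩
    · intro hd
      exact hdis τ h1 hτ2 (hzd τ h1 h2).1 (hzd τ h1 h2).2 hd a
        ((dvd_pow_self _ (by norm_num)).trans h5)
    · intro hd
      exact h3 ((Nat.prime_dvd_prime_iff_eq h1 hp).1 hd)
    · rw [← h4 a]; exact h5.mul_left _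
  have h3 : ((hugeR m b (D * B) p).card : ℝ) ≤ 2 := by
    exact_mod_cast hugeR_card hp (hzd p hp hzp).1
  have hp0 : (0 : ℝ) < p := by exact_mod_cast hp.pos
  have hz0 : (0 : ℝ) < z := by exact_mod_cast (by omega : 0 < z)
  calc _ ≤ (((Icc 1 (2 ^ j)).filter (fun a : ℕ => a % p ∈ hugeR m b (D * B) p ∧ ∃ τ : ℕ, τ.Prime ∧
      z < τ ∧ τ ≠ 2 ∧
      ¬ (τ : ℤ) ∣ α * γ ∧ ¬ τ ∣ p ∧ (τ : ℤ) ^ 2 ∣ (α * a + β) ^ 2 + γ)).card : ℝ) := by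
        exact_mod_cast card_le_card h2
    _ ≤ _ := h1
    _ ≤ 2 * 2 * 2 ^ j / (p * z) + 2 ^ (j - j / 20) := by gcongr
    _ = _ := by ring

theorem huge_bep {m b : ℤ} {j z D B p : ℕ} {Q : ℤ → ℤ → ℤ → ℤ}
    (hQ : Mode m b D Q) (hp : p.Prime) (hz2 : 2 ≤ z) (hzp : z < p)
    (hzd : ∀ τ : ℕ, τ.Prime → z < τ → ¬ (τ : ℤ) ∣ 3 * m * b ∧ ¬ (τ : ℤ) ∣ D * B) :
    (((Icc 1 (2 ^ j)).filter (fun a : ℕ => (p : ℤ) ^ 2 ∣ Q a p B)).card : ℝ) ≤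
      2 * (2 ^ j / (p * z)) + 2 := by
  have h1 := hQ.ra p 2 p B hp (by omega) (hzd p hp hzp).1 (hzd p hp hzp).2 (by norm_num)
  have h2 := huge_cnt (q := p ^ 2) (X := 2 ^ j) (fun a : ℕ => (p : ℤ) ^ 2 ∣ Q a p B)
    ((range (p ^ 2)).filter (fun a : ℕ => (p : ℤ) ^ 2 ∣ Q a p B)) (by
      intro a ha
      simp only [mem_filter, mem_range]
      refine ⟨Nat.mod_lt _ (pow_pos hp.pos 2), ?_⟩
      have h3 := hQ.per ((p : ℤ) ^ 2) (a : ℤ) ((a % p ^ 2 : ℕ) : ℤ) p p B (by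
        refine ⟨((a / p ^ 2 : ℕ) : ℤ), ?_⟩
        have := Nat.div_add_mod a (p ^ 2)
        have h3 : ((p ^ 2 * (a / p ^ 2) + a % p ^ 2 : ℕ) : ℤ) = (a : ℤ) := by rw [this]
        rw [Nat.cast_add, Nat.cast_mul] at h3
        push_cast at h3 ⊢
        linarith) (by simp)
      have := dvd_sub ha h3
      simpa using this)
  have h3 : ((Icc 1 (2 ^ j)).filter (fun a : ℕ => (p : ℤ) ^ 2 ∣ Q a p B)).card ≤
      2 * (2 ^ j / p ^ 2 + 1) := h2.trans (Nat.mul_le_mul_right _ h1)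
  have h4 : ((2 ^ j / p ^ 2 : ℕ) : ℝ) ≤ 2 ^ j / (p * z) := by
    refine Nat.cast_div_le.trans ?_
    push_cast
    have hp0 : (0 : ℝ) < p := by exact_mod_cast hp.pos
    have hz0 : (0 : ℝ) < z := by exact_mod_cast (by omega : 0 < z)
    have hzt : (z : ℝ) ≤ p := by exact_mod_cast hzp.le
    rw [pow_two]
    gcongr
  calc _ ≤ ((2 * (2 ^ j / p ^ 2 + 1) : ℕ) : ℝ) := by exact_mod_cast h3
    _ = 2 * ((2 ^ j / p ^ 2 : ℕ) : ℝ) + 2 := by push_cast; ring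
    _ ≤ _ := by linarith

/-- everything for one pair `(B, p)` -/
theorem huge_pair {m b : ℤ} {j z D B p k : ℕ} {Q : ℤ → ℤ → ℤ → ℤ}
    (hQ : Mode m b D Q) (hls : HugeLSq j) (hp : p.Prime) (hB : 1 ≤ B) (hz2 : 2 ≤ z) (hzp : z < p)
    (hzd : ∀ τ : ℕ, τ.Prime → z < τ → ¬ (τ : ℤ) ∣ 3 * m * b ∧ ¬ (τ : ℤ) ∣ D * B)
    (hsz : 100 * (m * b * D * B * p) ^ 4 ≤ 2 ^ (j / 100)) (hq : p ≤ 2 ^ (j / 100))
    (h0 : 100 * (m * b * D * B) ^ 4 < p) (hk : j / 100 ≤ k) :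
    (((Icc 1 (2 ^ j)).filter (fun a : ℕ => (p : ℤ) ∣ F m (a - D * B) b ∧
      ∃ τ : ℕ, τ.Prime ∧ z < τ ∧ ((τ : ℤ) ^ 2 ∣ Q a p B ∨
        (τ ≠ p ∧ (τ : ℤ) ∣ F m (a - D * B) b ∧ (τ : ℤ) ∣ Q a p B) ∨
        ((τ : ℤ) ∣ F m a b ∧ (τ : ℤ) ∣ Q a p B)))).card : ℝ) ≤
      (6 + 8 * k) * (2 ^ j / (p * z)) + (2 ^ (j - j / 20) + 2 + 8 * k) := by
  have hp1 : (1 : ℤ) ≤ p := by exact_mod_cast hp.one_le
  have hB1 : (1 : ℤ) ≤ B := by exact_mod_cast hB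
  have h2k : (2 : ℤ) ^ (j / 100) ≤ 2 ^ k := pow_le_pow_right₀ (by norm_num) hk
  obtain ⟨Δ1, hΔ1, hΔ1d⟩ := hQ.d1
  obtain ⟨Δ0, hΔ0, hΔ00, hΔ0c, hΔ0d⟩ := hQ.d0
  have e1 := huge_be hQ hls hp hB hz2 hzp hzd hsz hq
  have e2 := huge_bep (j := j) hQ hp hz2 hzp hzd
  have e3 := huge_two (j := j) (c := (D * B : ℤ)) (c' := (D * B : ℤ)) hp (by omega)
    (hzd p hp hzp).1 (fun τ h1 h2 => (hzd τ h1 h2).1) (Δ1 p B) (hΔ1 p B hp1 hB1).1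
    (((hΔ1 p B hp1 hB1).2.trans hsz).trans h2k)
  have e4 := huge_two (j := j) (c := (D * B : ℤ)) (c' := 0) hp (by omega)
    (hzd p hp hzp).1 (fun τ h1 h2 => (hzd τ h1 h2).1) (Δ0 p B) (hΔ0 p B hp1 hB1).1
    (((hΔ0 p B hp1 hB1).2.trans hsz).trans h2k)
  have hsub : ((Icc 1 (2 ^ j)).filter (fun a : ℕ => (p : ℤ) ∣ F m (a - D * B) b ∧
      ∃ τ : ℕ, τ.Prime ∧ z < τ ∧ ((τ : ℤ) ^ 2 ∣ Q a p B ∨
        (τ ≠ p ∧ (τ : ℤ) ∣ F m (a - D * B) b ∧ (τ : ℤ) ∣ Q a p B) ∨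
        ((τ : ℤ) ∣ F m a b ∧ (τ : ℤ) ∣ Q a p B)))) ⊆
      (((Icc 1 (2 ^ j)).filter (fun a : ℕ => (p : ℤ) ∣ F m (a - D * B) b ∧
        ∃ τ : ℕ, τ.Prime ∧ z < τ ∧ τ ≠ p ∧ (τ : ℤ) ^ 2 ∣ Q a p B)) ∪
      ((Icc 1 (2 ^ j)).filter (fun a : ℕ => (p : ℤ) ^ 2 ∣ Q a p B))) ∪
      (((Icc 1 (2 ^ j)).filter (fun a : ℕ => (p : ℤ) ∣ F m (a - (D * B : ℤ)) b ∧
        ∃ τ : ℕ, τ.Prime ∧ z < τ ∧ τ ≠ p ∧ (τ : ℤ) ∣ Δ1 p B ∧
          (τ : ℤ) ∣ F m (a - (D * B : ℤ)) b)) ∪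
      ((Icc 1 (2 ^ j)).filter (fun a : ℕ => (p : ℤ) ∣ F m (a - (D * B : ℤ)) b ∧
        ∃ τ : ℕ, τ.Prime ∧ z < τ ∧ τ ≠ p ∧ (τ : ℤ) ∣ Δ0 p B ∧ (τ : ℤ) ∣ F m (a - 0) b))) := by
    intro a ha
    simp only [mem_union, mem_filter] at ha ⊢
    obtain ⟨ha1, ha2, τ, h1, h2, h3⟩ := ha
    have hτ2 : τ ≠ 2 := by omega
    rcases h3 with h3 | ⟨h3, h4, h5⟩ | ⟨h4, h5⟩
    · left
      by_cases hτp : τ = p
      · right; subst hτp; exact ⟨ha1, h3⟩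
      · left; exact ⟨ha1, ha2, τ, h1, h2, hτp, h3⟩
    · right; left
      refine ⟨ha1, ha2, τ, h1, h2, h3, ?_, h4⟩
      refine hΔ1d τ a p B h1 hτ2 (hzd τ h1 h2).1 (hzd τ h1 h2).2 ?_ h4 h5
      intro hd
      exact h3 ((Nat.prime_dvd_prime_iff_eq h1 hp).1 (by exact_mod_cast hd))
    · right; right
      have h6 := hΔ0d τ a p B h1 hτ2 (hzd τ h1 h2).1 (hzd τ h1 h2).2 h4 h5
      refine ⟨ha1, ha2, τ, h1, h2, ?_, h6, by simpa using h4⟩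
      intro hτp
      subst hτp
      have h7 : (τ : ℤ) ∣ Δ0 0 B := by
        have := dvd_sub h6 (hΔ0c τ B)
        simpa using this
      have h8 := Int.le_of_dvd (hΔ00 B hB1).1 h7
      have h9 := (hΔ00 B hB1).2
      have h10 : Δ0 0 B < τ := lt_of_le_of_lt h9 h0
      omega
  have hcard := (card_le_card hsub).trans ((card_union_le _ _).trans
    (add_le_add (card_union_le _ _) (card_union_le _ _)))
  have hcard' : (((Icc 1 (2 ^ j)).filter (fun a : ℕ => (p : ℤ) ∣ F m (a - D * B) b ∧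
      ∃ τ : ℕ, τ.Prime ∧ z < τ ∧ ((τ : ℤ) ^ 2 ∣ Q a p B ∨
        (τ ≠ p ∧ (τ : ℤ) ∣ F m (a - D * B) b ∧ (τ : ℤ) ∣ Q a p B) ∨
        ((τ : ℤ) ∣ F m a b ∧ (τ : ℤ) ∣ Q a p B)))).card : ℝ) ≤ _ := Nat.cast_le.2 hcard
  push_cast at hcard'
  refine hcard'.trans ?_
  linarith

theorem huge_al {m b : ℤ} (hm : 0 < m) (hb : 0 < b) {j z D B : ℕ} (hls : HugeLSq j) (hz2 : 2 ≤ z)
    (hzd : ∀ τ : ℕ, τ.Prime → z < τ → ¬ (τ : ℤ) ∣ 3 * m * b) (hD : 1 ≤ D) (hB : 1 ≤ B)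
    (hsz : 100 * (m * b * D * B) ^ 4 ≤ 2 ^ (j / 100)) :
    (((Icc 1 (2 ^ j)).filter (fun a : ℕ => ∃ τ : ℕ, τ.Prime ∧ z < τ ∧
      (τ : ℤ) ^ 2 ∣ F m (a - D * B) b)).card : ℝ) ≤ 2 * (2 ^ j / z) + 2 ^ (j - j / 20) := by
  have hD1 : (1 : ℤ) ≤ D := by exact_mod_cast hD
  have hB1 : (1 : ℤ) ≤ B := by exact_mod_cast hB
  have hmb : 1 ≤ m * b := by nlinarith
  have hDB : (1 : ℤ) ≤ D * B := by nlinarith
  set W : ℤ := m * b * D * B with hW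
  have hW1 : W = (m * b) * (D * B) := by rw [hW]; ring
  have hWmb : m * b ≤ W := by rw [hW1]; nlinarith
  have hWDB : (D : ℤ) * B ≤ W := by rw [hW1]; nlinarith
  have hWp : 1 ≤ W := hmb.trans hWmb
  have hW2 : W ≤ W ^ 2 := by nlinarith
  have hW4 : W ^ 2 ≤ W ^ 4 := by
    have : W ^ 4 = W ^ 2 * W ^ 2 := by ring
    nlinarith
  have hγ1 : 1 ≤ 3 * m ^ 2 * b ^ 2 := by
    have : 3 * m ^ 2 * b ^ 2 = 3 * (m * b) ^ 2 := by ring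
    rw [this]; nlinarith
  have hγ2 : 3 * m ^ 2 * b ^ 2 ≤ 2 ^ (j / 100) := by
    have h1 : 3 * m ^ 2 * b ^ 2 = 3 * (m * b) ^ 2 := by ring
    have h2 : (m * b) ^ 2 ≤ W ^ 2 := pow_le_pow_left₀ (by linarith) hWmb 2
    linarith
  have hβ : |3 * m * b - 2 * (D * B)| ≤ 2 ^ (j / 100) := by
    rw [abs_le]; constructor <;> nlinarith
  have h1 := hls 2 (3 * m * b - 2 * (D * B)) (3 * m ^ 2 * b ^ 2) 1 z {0} (by norm_num) hγ1
    (by linarith) hβ hγ2 le_rfl Nat.one_le_two_pow (by omega) (by simp)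
  have h2 : ((Icc 1 (2 ^ j)).filter (fun a : ℕ => ∃ τ : ℕ, τ.Prime ∧ z < τ ∧
      (τ : ℤ) ^ 2 ∣ F m (a - D * B) b)) ⊆
      ((Icc 1 (2 ^ j)).filter (fun a : ℕ => a % 1 ∈ ({0} : Finset ℕ) ∧ ∃ τ : ℕ, τ.Prime ∧
      z < τ ∧ τ ≠ 2 ∧ ¬ (τ : ℤ) ∣ 2 * (3 * m ^ 2 * b ^ 2) ∧ ¬ τ ∣ 1 ∧
      (τ : ℤ) ^ 2 ∣ (2 * a + (3 * m * b - 2 * (D * B))) ^ 2 + 3 * m ^ 2 * b ^ 2)) := by
    intro a ha
    simp only [mem_filter] at ha ⊢
    obtain ⟨ha1, τ, h1, h2, h3⟩ := ha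
    refine ⟨ha1, by simp [Nat.mod_one], τ, h1, h2, by omega, ?_, ?_, ?_⟩
    · intro hd
      have hτp : Prime (τ : ℤ) := Nat.prime_iff_prime_int.1 h1
      have h4 : ¬ (τ : ℤ) ∣ 2 := by
        intro h
        have h5 := Int.le_of_dvd (by norm_num) h
        have : τ ≤ 2 := by exact_mod_cast h5
        omega
      have h5 : (τ : ℤ) ∣ 3 * m ^ 2 * b ^ 2 := (hτp.dvd_or_dvd hd).resolve_left h4
      rcases hτp.dvd_or_dvd h5 with h6 | h6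
      · rcases hτp.dvd_or_dvd h6 with h7 | h7
        · exact hzd τ h1 h2 ((h7.mul_right m).mul_right b)
        · exact hzd τ h1 h2 (((hτp.dvd_of_dvd_pow h7).mul_left 3).mul_right b)
      · exact hzd τ h1 h2 ((hτp.dvd_of_dvd_pow h6).mul_left _)
    · intro hd
      have := Nat.le_of_dvd (by norm_num) hd
      omega
    · have h4 : (2 * (a : ℤ) + (3 * m * b - 2 * (D * B))) ^ 2 + 3 * m ^ 2 * b ^ 2 =
        4 * F m (a - D * B) b := by unfold F; ring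
      rw [h4]; exact h3.mul_left _
  calc _ ≤ (((Icc 1 (2 ^ j)).filter (fun a : ℕ => a % 1 ∈ ({0} : Finset ℕ) ∧ ∃ τ : ℕ, τ.Prime ∧
      z < τ ∧ τ ≠ 2 ∧ ¬ (τ : ℤ) ∣ 2 * (3 * m ^ 2 * b ^ 2) ∧ ¬ τ ∣ 1 ∧
      (τ : ℤ) ^ 2 ∣ (2 * a + (3 * m * b - 2 * (D * B))) ^ 2 + 3 * m ^ 2 * b ^ 2)).card : ℝ) := by
        exact_mod_cast card_le_card h2
    _ ≤ _ := h1
    _ = _ := by simp; ring

theorem huge_growth1 (A : ℕ) : ∃ n0 : ℕ, ∀ n ≥ n0, A * (n + 1) ≤ 2 ^ (n / 2 - 3) := by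
  refine ⟨40 * A + 10, fun n hn => ?_⟩
  set k := n / 2 - 3 with hk
  set l := k / 2 with hl
  have h1 : n + 1 ≤ 10 * (l + 1) := by omega
  have h2 : 10 * A ≤ l + 1 := by omega
  have h3 : l + 1 ≤ 2 ^ l := Nat.lt_two_pow_self
  calc A * (n + 1) ≤ A * (10 * (l + 1)) := Nat.mul_le_mul_left _ h1
    _ = (10 * A) * (l + 1) := by ring
    _ ≤ (l + 1) * (l + 1) := Nat.mul_le_mul_right _ h2
    _ ≤ 2 ^ l * 2 ^ l := Nat.mul_le_mul h3 h3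
    _ = 2 ^ (l + l) := by rw [pow_add]
    _ ≤ 2 ^ k := Nat.pow_le_pow_right (by norm_num) (by omega)

theorem huge_growth2 (A : ℕ) : ∃ n0 : ℕ, ∀ n ≥ n0,
    A * (2 ^ (3 * n / 4) + n + 1) ≤ 2 ^ n := by
  refine ⟨12 * A + 4, fun n hn => ?_⟩
  have h1 : n / 2 + 1 ≤ 2 ^ (n / 2) := Nat.lt_two_pow_self
  have h2 : 2 ^ (n / 2) ≤ 2 ^ (3 * n / 4) := Nat.pow_le_pow_right (by norm_num) (by omega)
  have h3 : n + 1 ≤ 2 * 2 ^ (3 * n / 4) := by omega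
  have h4 : 3 * A ≤ 2 ^ (n - 3 * n / 4) := by
    have h5 : n - 3 * n / 4 < 2 ^ (n - 3 * n / 4) := Nat.lt_two_pow_self
    omega
  calc A * (2 ^ (3 * n / 4) + n + 1) ≤ A * (3 * 2 ^ (3 * n / 4)) :=
        Nat.mul_le_mul_left _ (by omega)
    _ = (3 * A) * 2 ^ (3 * n / 4) := by ring
    _ ≤ 2 ^ (n - 3 * n / 4) * 2 ^ (3 * n / 4) := Nat.mul_le_mul_right _ h4
    _ = 2 ^ n := by rw [← pow_add]; congr 1; omega

theorem huge_harm (n : ℕ) (hn : 4 ≤ n) : ∑ p ∈ PW n, (1 : ℝ) / p ≤ 2 ^ n := by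
  have h1 : ∑ p ∈ PW n, (1 : ℝ) / p ≤ ∑ p ∈ Icc 1 (bb (3 * n / 4)), (1 : ℝ) / p := by
    apply sum_le_sum_of_subset_of_nonneg
    · intro p hp
      simp only [PW, mem_filter, mem_Ioc, mem_Icc] at hp ⊢
      exact ⟨hp.2.one_le, hp.1.2⟩
    · intro _ _ _; positivity
  have h2 : ∑ p ∈ Icc 1 (bb (3 * n / 4)), (1 : ℝ) / p = ((harmonic (bb (3 * n / 4)) : ℚ) : ℝ) := by
    rw [harmonic_eq_sum_Icc]; push_cast; simp
  have h3 := harmonic_le_one_add_log (bb (3 * n / 4))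
  rw [Pool.Agent.H95.Gol.log_bb] at h3
  have h4 : Real.log 2 ≤ 1 := by
    have := Real.log_two_lt_d9; linarith
  have h5 : (2 : ℝ) ^ (3 * n / 4) ≤ 2 ^ (n - 1) := pow_le_pow_right₀ (by norm_num) (by omega)
  have h6 : (2 : ℝ) ^ n = 2 * 2 ^ (n - 1) := by
    rw [← pow_succ']; congr 1; omega
  have h7 : (1 : ℝ) ≤ 2 ^ (n - 1) := one_le_pow₀ (by norm_num)
  have h8 : (2 : ℝ) ^ (3 * n / 4) * Real.log 2 ≤ 2 ^ (3 * n / 4) * 1 := by gcongr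
  calc _ ≤ _ := h1
    _ = _ := h2
    _ ≤ _ := h3
    _ ≤ 2 ^ n := by linarith

theorem huge_num {C N Y E P : ℝ} (hC : 0 ≤ C) (hN : 1 ≤ N) (hY : 0 ≤ Y) (hE : 1 ≤ E)
    (hP : 1 ≤ P) :
    C * N * ((2 * Y + E) + (14 * N ^ 2 * Y + P * (11 * N * E))) ≤
      (C * N ^ 3 * 16) * Y + (P * C * N ^ 2 * 16) * E := by
  have hNN : N ≤ N ^ 2 := by nlinarith
  have hN2 : N ≤ N ^ 3 := by
    calc N = N * 1 := by ring
      _ ≤ N * N ^ 2 := by gcongr; nlinarith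
      _ = N ^ 3 := by ring
  have u1 : 2 * Y * N ≤ 2 * (N ^ 3 * Y) := by
    calc 2 * Y * N = 2 * (N * Y) := by ring
      _ ≤ _ := by gcongr
  have u2 : E * N ≤ P * N ^ 2 * E := by
    calc E * N = 1 * N * E := by ring
      _ ≤ P * N ^ 2 * E := by gcongr
  have u4 : 0 ≤ P * N ^ 2 * E := by positivity
  have u3 : N * ((2 * Y + E) + (14 * N ^ 2 * Y + P * (11 * N * E))) ≤
      (N ^ 3 * 16) * Y + (P * N ^ 2 * 16) * E := by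
    calc N * ((2 * Y + E) + (14 * N ^ 2 * Y + P * (11 * N * E))) =
        2 * Y * N + E * N + 14 * (N ^ 3 * Y) + 11 * (P * N ^ 2 * E) := by ring
      _ ≤ 2 * (N ^ 3 * Y) + P * N ^ 2 * E + 14 * (N ^ 3 * Y) + 11 * (P * N ^ 2 * E) := by
          linarith
      _ ≤ _ := by linarith
  calc C * N * ((2 * Y + E) + (14 * N ^ 2 * Y + P * (11 * N * E)))
      = C * (N * ((2 * Y + E) + (14 * N ^ 2 * Y + P * (11 * N * E)))) := by ring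
    _ ≤ C * ((N ^ 3 * 16) * Y + (P * N ^ 2 * 16) * E) := by gcongr
    _ = _ := by ring

theorem huge_num2 {N E : ℝ} (hN : 1 ≤ N) (hE : 1 ≤ E) : E + 2 + 8 * N ≤ 11 * N * E := by
  nlinarith

theorem huge (m b : ℤ) (hm : 0 < m) (hb : 0 < b) (h2 : (2 : ℤ) ∣ m) (s κ C0 c : ℕ)
    (hs : 16 ≤ s) :
    ∃ n0 : ℕ, ∀ n ≥ n0, ∀ j : ℕ, 2 ^ n ≤ j → j < 2 ^ (n + 1) →
    ∀ D : ℕ, 1 ≤ D → D ≤ 2 ^ (C0 * n) → ∀ Q : ℤ → ℤ → ℤ → ℤ, Mode m b D Q →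
    (((Icc 1 (2 ^ j)).filter (fun a : ℕ => ∃ B ∈ Icc (1 : ℕ) (2 ^ (n / s + c)), ∃ p ∈ PW n,
        (p : ℤ) ∣ F m (a - D * B) b ∧ ∃ τ : ℕ, τ.Prime ∧ bb (n / 2 - 3) < τ ∧
          Obs m b D Q a B p τ)).card : ℝ) ≤ 2 ^ j / 2 ^ (κ * n) := by
  obtain ⟨j0, hj0⟩ := large_sq
  -- `m b ≤ 2^c1`
  set c1 : ℕ := (m * b).toNat with hc1
  have hmb0 : 0 < m * b := mul_pos hm hb
  have hmb : m * b ≤ 2 ^ c1 := by
    have h1 : c1 < 2 ^ c1 := Nat.lt_two_pow_self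
    have h2 : ((c1 : ℕ) : ℤ) = m * b := Int.toNat_of_nonneg hmb0.le
    have h3 : ((c1 : ℕ) : ℤ) < ((2 ^ c1 : ℕ) : ℤ) := by exact_mod_cast h1
    push_cast at h3
    linarith
  set A : ℕ := 100 * (7 + 4 * (c1 + C0 + 1 + c + 1)) + 20 * (κ + 3 + c + 6) with hA
  obtain ⟨n1, hn1⟩ := huge_growth1 A
  obtain ⟨n2, hn2⟩ := huge_growth2 A
  refine ⟨max (max n1 n2) (j0 + 8), fun n hn j hj1 hj2 D hD hD2 Q hQ => ?_⟩
  have g1 := hn1 n (le_trans (le_trans (le_max_left _ _) (le_max_left _ _)) hn)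
  have g2 := hn2 n (le_trans (le_trans (le_max_right _ _) (le_max_left _ _)) hn)
  have hn8 : j0 + 8 ≤ n := le_trans (le_max_right _ _) hn
  have hnj : n < 2 ^ n := Nat.lt_two_pow_self
  have hls : HugeLSq j := hj0 j (by omega)
  set z := bb (n / 2 - 3) with hz
  have hz2 : 2 ≤ z := Pool.Agent.H95.Gol.two_le_bb _
  -- exponents
  have hAn : ∀ x : ℕ, x ≤ A → x * (n + 1) ≤ 2 ^ (n / 2 - 3) :=
    fun x hx => (Nat.mul_le_mul_right _ hx).trans g1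
  have hAn2 : ∀ x : ℕ, x ≤ A → x * (2 ^ (3 * n / 4) + n + 1) ≤ j :=
    fun x hx => ((Nat.mul_le_mul_right _ hx).trans g2).trans hj1
  have hzpow : ∀ e : ℕ, e ≤ A * (n + 1) → 2 ^ e ≤ z := fun e he =>
    Nat.pow_le_pow_right (by norm_num) (he.trans g1)
  -- sizes of `B`
  have hBn : ∀ B ∈ Icc (1 : ℕ) (2 ^ (n / s + c)), 1 ≤ B ∧ B ≤ 2 ^ (n + c) := by
    intro B hB
    rw [mem_Icc] at hB
    refine ⟨hB.1, hB.2.trans (Nat.pow_le_pow_right (by norm_num) ?_)⟩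
    have := Nat.div_le_self n s
    omega
  have e1 : C0 * n ≤ A * (n + 1) := by
    have : C0 ≤ A := by omega
    nlinarith
  have e2 : n + c ≤ A * (n + 1) := by
    have h3 : 1 + c ≤ A := by omega
    nlinarith
  have e3 : 2 + c1 ≤ A * (n + 1) := by
    have h3 : 2 + c1 ≤ A := by omega
    nlinarith
  have hzd : ∀ B ∈ Icc (1 : ℕ) (2 ^ (n / s + c)), ∀ τ : ℕ, τ.Prime → z < τ →
      ¬ (τ : ℤ) ∣ 3 * m * b ∧ ¬ (τ : ℤ) ∣ D * B := by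
    intro B hB τ hτ hzτ
    constructor
    · intro hd
      have h3 := Int.le_of_dvd (by nlinarith) hd
      have h4 : ((2 ^ (2 + c1) : ℕ) : ℤ) ≤ z := by exact_mod_cast hzpow _ e3
      have h5 : (z : ℤ) < τ := by exact_mod_cast hzτ
      push_cast at h4
      rw [pow_add] at h4
      have h6 : 3 * m * b = 3 * (m * b) := by ring
      rw [h6] at h3
      nlinarith
    · intro hd
      have hd' : τ ∣ D * B := by exact_mod_cast hd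
      rcases hτ.dvd_mul.1 hd' with h3 | h3
      · have h4 := Nat.le_of_dvd hD h3
        have h5 := hzpow _ e1
        omega
      · have h4 := Nat.le_of_dvd (hBn B hB).1 h3
        have h5 := hzpow _ e2
        have h6 := (hBn B hB).2
        omega
  -- the size of `m b D B`
  have hW : ∀ B ∈ Icc (1 : ℕ) (2 ^ (n / s + c)), 0 ≤ m * b * D * B ∧
      m * b * D * B ≤ 2 ^ (c1 + C0 * n + (n + c)) := by
    intro B hB
    have hD1 : (D : ℤ) ≤ 2 ^ (C0 * n) := by exact_mod_cast hD2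
    have hB1 : (B : ℤ) ≤ 2 ^ (n + c) := by exact_mod_cast (hBn B hB).2
    constructor
    · positivity
    · rw [pow_add, pow_add]
      gcongr
  have hW100 : ∀ (w : ℤ) (e f : ℕ), 0 ≤ w → w ≤ 2 ^ e → 7 + 4 * e ≤ f →
      100 * w ^ 4 < 2 ^ f := by
    intro w e f hw0 hw hef
    have h3 : w ^ 4 ≤ (2 ^ e) ^ 4 := pow_le_pow_left₀ hw0 hw 4
    have h4 : (2 : ℤ) ^ (7 + 4 * e) ≤ 2 ^ f := pow_le_pow_right₀ (by norm_num) hef
    have h5 : (2 : ℤ) ^ (7 + 4 * e) = 128 * (2 ^ e) ^ 4 := by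
      rw [pow_add, ← pow_mul, mul_comm e 4]; norm_num
    have h6 : (0 : ℤ) < (2 ^ e) ^ 4 := by positivity
    linarith
  -- the exponents
  obtain ⟨P, hP⟩ : ∃ P : ℕ, P = 2 ^ (3 * n / 4) := ⟨_, rfl⟩
  have hAn2' : ∀ x : ℕ, x ≤ A → x * (P + n + 1) ≤ j := by
    intro x hx; rw [hP]; exact hAn2 x hx
  have hbbP : bb (3 * n / 4) = 2 ^ P := by rw [hP]; rfl
  have f1 : 7 + 4 * (c1 + C0 * n + (n + c)) ≤ 2 ^ (n / 2) := by
    have h3 := hAn (7 + 4 * (c1 + C0 + 1 + c)) (by omega)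
    have h4 : 2 ^ (n / 2 - 3) ≤ 2 ^ (n / 2) := Nat.pow_le_pow_right (by norm_num) (by omega)
    refine le_trans ?_ (h3.trans h4)
    nlinarith
  have f2 : 7 + 4 * (c1 + C0 * n + (n + c) + P) ≤ j / 100 := by
    rw [Nat.le_div_iff_mul_le (by norm_num)]
    refine le_trans ?_ (hAn2' (100 * (7 + 4 * (c1 + C0 + 1 + c + 1))) (by omega))
    nlinarith
  have f3 : P + (κ + 2) * n + c + 6 ≤ j / 20 := by
    rw [Nat.le_div_iff_mul_le (by norm_num)]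
    refine le_trans ?_ (hAn2' (20 * (κ + 3 + c + 6)) (by omega))
    nlinarith
  have f4 : (κ + 3) * n + c + 5 ≤ 2 ^ (n / 2 - 3) := by
    refine le_trans ?_ (hAn (κ + 3 + c + 5) (by omega))
    nlinarith
  have hpP : ∀ p ∈ PW n, p ≤ 2 ^ P ∧ p.Prime ∧ bb (n / 2) < p := by
    intro p hp
    simp only [PW, mem_filter, mem_Ioc] at hp
    rw [hbbP] at hp
    exact ⟨hp.1.2, hp.2, hp.1.1⟩
  have hzb : z ≤ bb (n / 2) := Pool.Agent.H95.Gol.bb_mono (by omega)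
  -- the two estimates
  have hal : ∀ B ∈ Icc (1 : ℕ) (2 ^ (n / s + c)),
      (((Icc 1 (2 ^ j)).filter (fun a : ℕ => ∃ τ : ℕ, τ.Prime ∧ z < τ ∧
      (τ : ℤ) ^ 2 ∣ F m (a - D * B) b)).card : ℝ) ≤ 2 * (2 ^ j / z) + 2 ^ (j - j / 20) := by
    intro B hB
    exact huge_al hm hb hls hz2 (fun τ h3 h4 => (hzd B hB τ h3 h4).1) hD (hBn B hB).1
      (hW100 _ _ _ (hW B hB).1 (hW B hB).2 (by omega)).le
  have hpair : ∀ B ∈ Icc (1 : ℕ) (2 ^ (n / s + c)), ∀ p ∈ PW n,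
      (((Icc 1 (2 ^ j)).filter (fun a : ℕ => (p : ℤ) ∣ F m (a - D * B) b ∧
      ∃ τ : ℕ, τ.Prime ∧ z < τ ∧ ((τ : ℤ) ^ 2 ∣ Q a p B ∨
        (τ ≠ p ∧ (τ : ℤ) ∣ F m (a - D * B) b ∧ (τ : ℤ) ∣ Q a p B) ∨
        ((τ : ℤ) ∣ F m a b ∧ (τ : ℤ) ∣ Q a p B)))).card : ℝ) ≤
      (6 + 8 * (2 ^ n : ℕ)) * (2 ^ j / (p * z)) + (2 ^ (j - j / 20) + 2 + 8 * (2 ^ n : ℕ)) := by
    intro B hB p hp
    obtain ⟨hp1, hp2, hp3⟩ := hpP p hp
    refine huge_pair hQ hls hp2 (hBn B hB).1 hz2 (by omega) (hzd B hB) ?_ ?_ ?_ ?_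
    · refine (hW100 (m * b * D * B * p) (c1 + C0 * n + (n + c) + P) _ ?_ ?_ (by omega)).le
      · have := (hW B hB).1; positivity
      · rw [pow_add]
        have h3 : (p : ℤ) ≤ 2 ^ P := by exact_mod_cast hp1
        exact mul_le_mul (hW B hB).2 h3 (by positivity) (by positivity)
    · exact hp1.trans (Nat.pow_le_pow_right (by norm_num) (by omega))
    · have h3 := hW100 _ _ (2 ^ (n / 2)) (hW B hB).1 (hW B hB).2 f1
      have h4 : (bb (n / 2) : ℤ) < p := by exact_mod_cast hp3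
      unfold Pool.Agent.H95.Gol.bb at h4
      push_cast at h4
      exact h3.trans h4
    · rw [pow_succ] at hj2; omega
  -- union
  have hsub : ((Icc 1 (2 ^ j)).filter (fun a : ℕ => ∃ B ∈ Icc (1 : ℕ) (2 ^ (n / s + c)), ∃ p ∈ PW n,
        (p : ℤ) ∣ F m (a - D * B) b ∧ ∃ τ : ℕ, τ.Prime ∧ z < τ ∧
          Obs m b D Q a B p τ)) ⊆
      (Icc (1 : ℕ) (2 ^ (n / s + c))).biUnion (fun B =>
        ((Icc 1 (2 ^ j)).filter (fun a : ℕ => ∃ τ : ℕ, τ.Prime ∧ z < τ ∧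
          (τ : ℤ) ^ 2 ∣ F m (a - D * B) b)) ∪
        (PW n).biUnion (fun p => ((Icc 1 (2 ^ j)).filter (fun a : ℕ =>
          (p : ℤ) ∣ F m (a - D * B) b ∧
          ∃ τ : ℕ, τ.Prime ∧ z < τ ∧ ((τ : ℤ) ^ 2 ∣ Q a p B ∨
          (τ ≠ p ∧ (τ : ℤ) ∣ F m (a - D * B) b ∧ (τ : ℤ) ∣ Q a p B) ∨
          ((τ : ℤ) ∣ F m a b ∧ (τ : ℤ) ∣ Q a p B)))))) := by
    intro a ha
    simp only [mem_filter, mem_biUnion, mem_union] at ha ⊢
    obtain ⟨ha1, B, hB, p, hp, h3, τ, h4, h5, h6⟩ := ha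
    refine ⟨B, hB, ?_⟩
    rcases h6 with h6 | h6
    · left; exact ⟨ha1, τ, h4, h5, h6⟩
    · right; exact ⟨p, hp, ha1, h3, τ, h4, h5, h6⟩
  have hcard : (((Icc 1 (2 ^ j)).filter (fun a : ℕ => ∃ B ∈ Icc (1 : ℕ) (2 ^ (n / s + c)),
        ∃ p ∈ PW n, (p : ℤ) ∣ F m (a - D * B) b ∧ ∃ τ : ℕ, τ.Prime ∧ z < τ ∧
          Obs m b D Q a B p τ)).card : ℝ) ≤
      ∑ B ∈ Icc (1 : ℕ) (2 ^ (n / s + c)), ((2 * (2 ^ j / z) + 2 ^ (j - j / 20)) +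
        ∑ p ∈ PW n, ((6 + 8 * (2 ^ n : ℕ)) * (2 ^ j / (p * z)) +
          (2 ^ (j - j / 20) + 2 + 8 * (2 ^ n : ℕ)) : ℝ)) := by
    refine le_trans (Nat.cast_le.2 ((card_le_card hsub).trans card_biUnion_le)) ?_
    rw [Nat.cast_sum]
    apply sum_le_sum
    intro B hB
    refine le_trans (Nat.cast_le.2 (card_union_le _ _)) ?_
    rw [Nat.cast_add]
    apply add_le_add (hal B hB)
    refine le_trans (Nat.cast_le.2 card_biUnion_le) ?_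
    rw [Nat.cast_sum]
    exact sum_le_sum (fun p hp => hpair B hB p hp)
  refine hcard.trans ?_
  -- numerics
  clear_value z
  have hz0 : (0 : ℝ) < z := by exact_mod_cast (by omega : 0 < z)
  clear hal hpair hsub hcard
  obtain ⟨X, hX⟩ : ∃ X : ℝ, X = 2 ^ j := ⟨_, rfl⟩
  have hX0 : 0 < X := by rw [hX]; positivity
  obtain ⟨E, hE⟩ : ∃ E : ℝ, E = 2 ^ (j - j / 20) := ⟨_, rfl⟩
  have hE1 : 1 ≤ E := by rw [hE]; exact one_le_pow₀ (by norm_num)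
  obtain ⟨N, hN⟩ : ∃ N : ℝ, N = 2 ^ n := ⟨_, rfl⟩
  have hN1 : 1 ≤ N := by rw [hN]; exact one_le_pow₀ (by norm_num)
  rw [← hX, ← hE]
  have hsum : ∑ p ∈ PW n, ((6 + 8 * (2 ^ n : ℕ)) * (X / (p * z)) +
          (E + 2 + 8 * (2 ^ n : ℕ))) ≤ 14 * N ^ 2 * (X / z) + 2 ^ P * (11 * N * E) := by
    rw [sum_add_distrib]
    have hcast : ((2 ^ n : ℕ) : ℝ) = N := by rw [hN]; push_cast; rfl
    rw [hcast]
    apply add_le_add
    · have h3 : ∀ p ∈ PW n, (6 + 8 * N) * (X / (p * z)) = (6 + 8 * N) * (X / z) * (1 / p) := by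
        intro p hp
        have : (0 : ℝ) < p := by exact_mod_cast (hpP p hp).2.1.pos
        field_simp
      rw [sum_congr rfl h3, ← mul_sum]
      calc (6 + 8 * N) * (X / z) * ∑ p ∈ PW n, (1 : ℝ) / p ≤ (6 + 8 * N) * (X / z) * N := by
            gcongr
            rw [hN]; exact huge_harm n (by omega)
        _ ≤ (14 * N) * (X / z) * N := by gcongr; linarith
        _ = _ := by ring
    · rw [sum_const, nsmul_eq_mul]
      have h3 : ((PW n).card : ℝ) ≤ 2 ^ P := by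
        have h4 : (PW n).card ≤ 2 ^ P := by
          calc (PW n).card ≤ (Ioc (bb (n / 2)) (bb (3 * n / 4))).card := card_filter_le _ _
            _ ≤ bb (3 * n / 4) := by rw [Nat.card_Ioc]; omega
            _ = 2 ^ P := hbbP
        exact_mod_cast h4
      have h4 : E + 2 + 8 * N ≤ 11 * N * E := huge_num2 hN1 hE1
      exact mul_le_mul h3 h4 (by positivity) (by positivity)
  rw [sum_const, nsmul_eq_mul, Nat.card_Icc]
  have hB2 : ((2 ^ (n / s + c) + 1 - 1 : ℕ) : ℝ) ≤ 2 ^ c * N := by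
    have h3 : 2 ^ (n / s + c) + 1 - 1 ≤ 2 ^ (n + c) := by
      rw [Nat.add_sub_cancel]
      refine Nat.pow_le_pow_right (by norm_num) ?_
      have := Nat.div_le_self n s
      omega
    calc ((2 ^ (n / s + c) + 1 - 1 : ℕ) : ℝ) ≤ ((2 ^ (n + c) : ℕ) : ℝ) := by exact_mod_cast h3
      _ = 2 ^ c * N := by rw [hN]; push_cast; rw [pow_add]; ring
  have hP1 : (1 : ℝ) ≤ 2 ^ P := one_le_pow₀ (by norm_num)
  have t1 : 2 ^ c * N * ((2 * (X / z) + E) + (14 * N ^ 2 * (X / z) + 2 ^ P * (11 * N * E))) ≤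
      (2 ^ c * N ^ 3 * 16) * (X / z) + (2 ^ P * 2 ^ c * N ^ 2 * 16) * E :=
    huge_num (by positivity) hN1 (by positivity) hE1 hP1
  have t2 : (2 ^ c * N ^ 3 * 16) * (X / z) ≤ X / 2 ^ (κ * n) / 2 := by
    have h3 : (2 : ℝ) ^ ((κ + 3) * n + c + 5) ≤ z := by
      have h4 : (2 : ℕ) ^ ((κ + 3) * n + c + 5) ≤ z := by
        rw [hz]; exact Nat.pow_le_pow_right (by norm_num) f4
      exact_mod_cast h4
    have h4 : (2 : ℝ) ^ ((κ + 3) * n + c + 5) = 2 ^ (κ * n) * 2 ^ c * N ^ 3 * 32 := by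
      rw [hN, show (κ + 3) * n + c + 5 = κ * n + c + n * 3 + 5 by ring, pow_add, pow_add,
        pow_add, pow_mul 2 n 3]; norm_num
    rw [h4] at h3
    have hk0 : (0 : ℝ) < 2 ^ (κ * n) := by positivity
    rw [div_div, le_div_iff₀ (show (0 : ℝ) < 2 ^ (κ * n) * 2 by positivity)]
    calc 2 ^ c * N ^ 3 * 16 * (X / z) * (2 ^ (κ * n) * 2) =
        (2 ^ (κ * n) * 2 ^ c * N ^ 3 * 32) * (X / z) := by ring
      _ ≤ z * (X / z) := by gcongr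
      _ = X := by field_simp
  have t3 : (2 ^ P * 2 ^ c * N ^ 2 * 16) * E ≤ X / 2 ^ (κ * n) / 2 := by
    rw [div_div, le_div_iff₀ (show (0 : ℝ) < 2 ^ (κ * n) * 2 by positivity)]
    calc 2 ^ P * 2 ^ c * N ^ 2 * 16 * E * (2 ^ (κ * n) * 2) =
        (2 : ℝ) ^ (P + (κ + 2) * n + c + 5 + (j - j / 20)) := by
          rw [hE, hN, show P + (κ + 2) * n + c + 5 + (j - j / 20) =
            P + κ * n + n * 2 + c + 5 + (j - j / 20) by ring, pow_add, pow_add, pow_add, pow_add,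
            pow_add, pow_mul 2 n 2]; ring
      _ ≤ 2 ^ j := by
          apply pow_le_pow_right₀ (by norm_num)
          have := Nat.div_le_self j 20
          omega
      _ = X := hX.symm
  have hpos : 0 ≤ (2 * (X / z) + E) + ∑ p ∈ PW n, ((6 + 8 * (2 ^ n : ℕ)) * (X / (p * z)) +
          (E + 2 + 8 * (2 ^ n : ℕ))) := by positivity
  calc _ ≤ (2 ^ c * N) * ((2 * (X / z) + E) + (14 * N ^ 2 * (X / z) + 2 ^ P * (11 * N * E))) := by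
        apply mul_le_mul hB2 (by linarith) hpos (by positivity)
    _ ≤ _ := t1
    _ ≤ X / 2 ^ (κ * n) / 2 + X / 2 ^ (κ * n) / 2 := add_le_add t2 t3
    _ = _ := by ring

end Pool.Agent.H48.SF
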