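import Pool.Agent.H48.SF.OneTau

/-!
Medium obstacles.
-/

set_option autoImplicit false

namespace Pool.Agent.H48.SF

open Finset Classical
open Pool.Agent.H95.Gol (bb PB)
open Pool.Agent.H41.Per (PM)
open Pool.Agent.H48.AP (F H Vx Sparse oddCount)

theorem md_few_of_bm {ι : Type} (I : Finset ι) (q ω : ι → ℕ) (E : ι → ℕ → Prop)
    (hq : ∀ i ∈ I, 0 < q i) (hper : ∀ i ∈ I, ∀ a, E i a ↔ E i (a % q i))
    (hω : ∀ i ∈ I, ((range (q i)).filter (E i)).card ≤ ω i) (k N : ℕ) (S : Finset ℕ)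
    (hS : S ⊆ range N)
    (hJ : ∀ a ∈ S, ∃ J ⊆ I, J.card = k ∧
      (∀ i ∈ J, ∀ i' ∈ J, i ≠ i' → Nat.Coprime (q i) (q i')) ∧ ∀ i ∈ J, E i a) :
    (S.card : ℝ) ≤ N * (∑ i ∈ I, (ω i : ℝ) / q i) ^ k + (∑ i ∈ I, (ω i : ℝ)) ^ k := by
  refine le_trans ?_ (bm I q ω E hq hper hω k N)
  have h1 : (S.card : ℝ) ≤ ∑ a ∈ range N, (((I.powersetCard k).filter (fun J : Finset ι =>
        (∀ i ∈ J, ∀ i' ∈ J, i ≠ i' → Nat.Coprime (q i) (q i')) ∧ ∀ i ∈ J, E i a)).card : ℝ) := by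
    calc (S.card : ℝ) = ∑ a ∈ S, (1 : ℝ) := by simp
      _ ≤ ∑ a ∈ S, (((I.powersetCard k).filter (fun J : Finset ι =>
        (∀ i ∈ J, ∀ i' ∈ J, i ≠ i' → Nat.Coprime (q i) (q i')) ∧ ∀ i ∈ J, E i a)).card : ℝ) := by
          apply Finset.sum_le_sum
          intro a ha
          obtain ⟨J, hJI, hJk, hJc, hJE⟩ := hJ a ha
          have : 0 < ((I.powersetCard k).filter (fun J : Finset ι =>
            (∀ i ∈ J, ∀ i' ∈ J, i ≠ i' → Nat.Coprime (q i) (q i')) ∧ ∀ i ∈ J, E i a)).card := by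
            apply Finset.card_pos.mpr
            exact ⟨J, by simp only [mem_filter, mem_powersetCard]; exact ⟨⟨hJI, hJk⟩, hJc, hJE⟩⟩
          exact_mod_cast this
      _ ≤ _ := Finset.sum_le_sum_of_subset_of_nonneg hS (fun _ _ _ => by positivity)
  have h2 : (1 : ℝ) ≤ (k.factorial : ℝ) := by exact_mod_cast Nat.factorial_pos k
  have h3 : (0 : ℝ) ≤ ∑ a ∈ range N, (((I.powersetCard k).filter (fun J : Finset ι =>
        (∀ i ∈ J, ∀ i' ∈ J, i ≠ i' → Nat.Coprime (q i) (q i')) ∧ ∀ i ∈ J, E i a)).card : ℝ) := by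
    positivity
  nlinarith

theorem md_choose_inj (S : Finset ℕ) (t : ℕ → ℕ) (k L : ℕ) (hL : ∀ x, (S.filter (fun B => t B = x)).card ≤ L)
    (hk : k * L ≤ S.card) (hL0 : 0 < L) : ∃ S' ⊆ S, S'.card = k ∧ Set.InjOn t S' := by
  have h1 : S.card ≤ L * (S.image t).card :=
    Finset.card_le_mul_card_image S L (fun x _ => hL x)
  have h2 : k ≤ (S.image t).card := by
    have : k * L ≤ (S.image t).card * L := by rw [mul_comm (S.image t).card]; omega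
    exact Nat.le_of_mul_le_mul_right this hL0
  obtain ⟨W, hW, hWk⟩ := Finset.exists_subset_card_eq h2
  have h3 : ∀ x ∈ W, ∃ B ∈ S, t B = x := by
    intro x hx
    have := hW hx
    simpa using this
  choose! g hg1 hg2 using h3
  refine ⟨W.image g, ?_, ?_, ?_⟩
  · intro B hB
    obtain ⟨x, hx, rfl⟩ := Finset.mem_image.mp hB
    exact hg1 x hx
  · rw [Finset.card_image_of_injOn, hWk]
    intro x hx y hy hxy
    rw [← hg2 x hx, ← hg2 y hy, hxy]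
  · intro B hB B' hB' h
    simp only [coe_image, Set.mem_image, mem_coe] at hB hB'
    obtain ⟨x, hx, rfl⟩ := hB
    obtain ⟨y, hy, rfl⟩ := hB'
    rw [hg2 x hx, hg2 y hy] at h
    rw [h]

/-- number of solutions of a combined condition -/
theorem md_crt_card (p t : ℕ) (hpt : Nat.Coprime p t) (hp : 0 < p) (ht : 0 < t) (P G : ℕ → Prop)
    (hP : ∀ a, P a → P (a % p)) (hG : ∀ a, G a → G (a % t)) :
    ((range (p * t)).filter (fun a => P a ∧ G a)).card ≤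
      ((range p).filter P).card * ((range t).filter G).card := by
  rw [← Finset.card_product]
  apply Finset.card_le_card_of_injOn (fun a => (a % p, a % t))
  · intro a ha
    simp only [coe_filter, mem_range, Set.mem_ofPred_eq] at ha
    simp only [coe_product, coe_filter, mem_range, Set.mem_prod, Set.mem_ofPred_eq]
    exact ⟨⟨Nat.mod_lt _ hp, hP _ ha.2.1⟩, ⟨Nat.mod_lt _ ht, hG _ ha.2.2⟩⟩
  · intro a ha a' ha' h
    simp only [coe_filter, mem_range, Set.mem_ofPred_eq] at ha ha'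
    simp only [Prod.mk.injEq] at h
    have h1 : a ≡ a' [MOD p * t] := (Nat.modEq_and_modEq_iff_modEq_mul hpt).mp ⟨h.1, h.2⟩
    exact Nat.ModEq.eq_of_lt_of_lt h1 ha.1 ha'.1

theorem md_F_per (m y : ℤ) (N a a' c : ℤ) (h : N ∣ a - a') : N ∣ F m (a - c) y - F m (a' - c) y := by
  obtain ⟨d, hd⟩ := h
  have : a = a' + N * d := by linarith
  subst this
  refine ⟨d * (2 * (a' - c) + N * d) + 3 * m * y * d, ?_⟩
  unfold F
  ring

theorem md_type_few (m b : ℤ) (D : ℕ) (e : ℕ) (G : ℕ → ℕ → ℕ → ℤ → Prop) (I : Finset (ℕ × ℕ × ℕ))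
    (hp : ∀ i ∈ I, i.2.1 = 1 ∨ (i.2.1.Prime ∧ ¬ (i.2.1 : ℤ) ∣ 3 * m * b))
    (hτ : ∀ i ∈ I, i.2.2.Prime ∧ i.2.1 ≠ i.2.2)
    (hper : ∀ i ∈ I, ∀ a a' : ℤ, ((i.2.2 : ℤ) ^ e ∣ a - a') →
      G i.1 i.2.1 i.2.2 a → G i.1 i.2.1 i.2.2 a')
    (hG : ∀ i ∈ I, ((range (i.2.2 ^ e)).filter (fun a : ℕ => G i.1 i.2.1 i.2.2 a)).card ≤ 2)
    (k N : ℕ) (S : Finset ℕ) (hS : S ⊆ range N)
    (hJ : ∀ a ∈ S, ∃ J ⊆ I, J.card = k ∧ (∀ i ∈ J, ∀ i' ∈ J, i ≠ i' →
      Nat.Coprime (i.2.1 * i.2.2 ^ e) (i'.2.1 * i'.2.2 ^ e)) ∧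
        ∀ i ∈ J, (i.2.1 : ℤ) ∣ F m (a - D * i.1) b ∧ G i.1 i.2.1 i.2.2 a) :
    (S.card : ℝ) ≤ N * (∑ i ∈ I, 4 / ((i.2.1 : ℝ) * (i.2.2 : ℝ) ^ e)) ^ k +
      (4 * (I.card : ℝ)) ^ k := by
  have h := md_few_of_bm I (fun i => i.2.1 * i.2.2 ^ e) (fun _ => 4)
    (fun i (a : ℕ) => (i.2.1 : ℤ) ∣ F m (a - D * i.1) b ∧ G i.1 i.2.1 i.2.2 a) ?_ ?_ ?_ k N S hS
    (fun a ha => hJ a ha)
  · have e1 : (∑ i ∈ I, ((4 : ℕ) : ℝ) / ((i.2.1 * i.2.2 ^ e : ℕ) : ℝ)) =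
        ∑ i ∈ I, 4 / ((i.2.1 : ℝ) * (i.2.2 : ℝ) ^ e) := by
      apply Finset.sum_congr rfl; intro i _; push_cast; rfl
    have e2 : (∑ i ∈ I, ((4 : ℕ) : ℝ)) = 4 * (I.card : ℝ) := by
      rw [Finset.sum_const, nsmul_eq_mul]; push_cast; ring
    rw [e1, e2] at h
    exact h
  · intro i hi
    have h1 : 0 < i.2.1 := by
      rcases hp i hi with h | h
      · omega
      · exact h.1.pos
    have h2 : 0 < i.2.2 ^ e := pow_pos (hτ i hi).1.pos e
    exact Nat.mul_pos h1 h2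
  · intro i hi a
    have key : ∀ (N : ℤ) (x y : ℕ), (N ∣ (x : ℤ) - y) → (N ∣ F m (x - D * i.1) b ↔
        N ∣ F m (y - D * i.1) b) := by
      intro N x y hxy
      have := md_F_per m b N x y (D * i.1) hxy
      constructor
      · intro h; have := dvd_sub h this; simpa using this
      · intro h; have := dvd_add this h; simpa using this
    have hmod : ((i.2.1 * i.2.2 ^ e : ℕ) : ℤ) ∣ (a : ℤ) - ((a % (i.2.1 * i.2.2 ^ e) : ℕ) : ℤ) := by
      rw [Int.natCast_mod]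
      exact Int.dvd_self_sub_emod
    have hd1 : (i.2.1 : ℤ) ∣ (a : ℤ) - ((a % (i.2.1 * i.2.2 ^ e) : ℕ) : ℤ) :=
      dvd_trans (by push_cast; exact dvd_mul_right _ _) hmod
    have hd2 : (i.2.2 : ℤ) ^ e ∣ (a : ℤ) - ((a % (i.2.1 * i.2.2 ^ e) : ℕ) : ℤ) :=
      dvd_trans (by push_cast; exact dvd_mul_left _ _) hmod
    constructor
    · rintro ⟨h1, h2⟩
      exact ⟨(key _ _ _ hd1).mp h1, hper i hi _ _ hd2 h2⟩
    · rintro ⟨h1, h2⟩
      exact ⟨(key _ _ _ hd1).mpr h1, hper i hi _ _ (by rw [← neg_sub]; exact (dvd_neg).mpr hd2) h2⟩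
  · intro i hi
    have hcop : Nat.Coprime i.2.1 (i.2.2 ^ e) := by
      rcases hp i hi with h | h
      · rw [h]; exact Nat.coprime_one_left _
      · exact Nat.Coprime.pow_right _ ((Nat.coprime_primes h.1 (hτ i hi).1).mpr (hτ i hi).2)
    have h1 : 0 < i.2.1 := by
      rcases hp i hi with h | h
      · omega
      · exact h.1.pos
    have h2 : 0 < i.2.2 ^ e := pow_pos (hτ i hi).1.pos e
    have hPc : ((range i.2.1).filter (fun a : ℕ => (i.2.1 : ℤ) ∣ F m (a - D * i.1) b)).card ≤ 2 := by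
      rcases hp i hi with h | h
      · refine le_trans (Finset.card_filter_le _ _) ?_
        rw [h]; simp
      · have := F_roots h.1 m b (D * i.1) h.2 (j := 1) le_rfl
        simpa using this
    have hcrt := md_crt_card i.2.1 (i.2.2 ^ e) hcop h1 h2
      (fun a : ℕ => (i.2.1 : ℤ) ∣ F m (a - D * i.1) b) (fun a : ℕ => G i.1 i.2.1 i.2.2 a) ?_ ?_
    · have h4 := le_trans hcrt (Nat.mul_le_mul (n₂ := 2) (m₂ := 2) (by convert hPc)
        (by convert hG i hi))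
      refine le_trans (le_of_eq ?_) h4
      congr
    · intro a ha
      have hmod : (i.2.1 : ℤ) ∣ (a : ℤ) - ((a % i.2.1 : ℕ) : ℤ) := by
        rw [Int.natCast_mod]
        exact Int.dvd_self_sub_emod
      have := md_F_per m b _ _ _ (D * i.1) hmod
      have := dvd_sub ha this
      simpa using this
    · intro a ha
      have hmod : (i.2.2 : ℤ) ^ e ∣ (a : ℤ) - ((a % i.2.2 ^ e : ℕ) : ℤ) := by
        have : ((i.2.2 ^ e : ℕ) : ℤ) ∣ (a : ℤ) - ((a % i.2.2 ^ e : ℕ) : ℤ) := by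
          rw [Int.natCast_mod]
          exact Int.dvd_self_sub_emod
        simpa using this
      exact hper i hi _ _ hmod ha

theorem md_inv_sq_tail (T Y : ℕ) (hT : 0 < T) (S : Finset ℕ) (hS : S ⊆ Ioc T Y) :
    ∑ τ ∈ S, (1 : ℝ) / (τ : ℝ) ^ 2 ≤ 1 / T := by
  calc ∑ τ ∈ S, (1 : ℝ) / (τ : ℝ) ^ 2 ≤ ∑ τ ∈ Ioc T Y, (1 : ℝ) / (τ : ℝ) ^ 2 :=
        Finset.sum_le_sum_of_subset_of_nonneg hS (fun _ _ _ => by positivity)
    _ ≤ 1 / T := by
      by_cases h : T ≤ Y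
      · have := sum_Ioc_inv_sq_le_sub (α := ℝ) hT.ne' h
        simp only [one_div]
        have h2 : (0 : ℝ) ≤ (Y : ℝ)⁻¹ := by positivity
        linarith
      · rw [Finset.Ioc_eq_empty (by omega)]
        simp

theorem md_lin_le_pow (s C : ℕ) (hs : 0 < s) : ∃ n0 : ℕ, ∀ n ≥ n0, C * (n + 1) ≤ 2 ^ (n / s) := by
  -- `2^u ≥ (u/2+1) * (u/2+1)`
  refine ⟨s * (2 * (4 * C * s + 4) + 2), fun n hn => ?_⟩
  set u := n / s with hu
  have h1 : n < s * (u + 1) := by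
    have := Nat.lt_mul_div_succ n hs
    exact this
  have h2 : 2 * (4 * C * s + 4) + 2 ≤ u := by
    rw [hu]; exact (Nat.le_div_iff_mul_le hs).mpr (by rw [mul_comm]; exact hn)
  have h3 : u / 2 + 1 ≤ 2 ^ (u / 2) := Nat.lt_two_pow_self
  have h4 : 2 ^ (u / 2) * 2 ^ (u / 2) ≤ 2 ^ u := by
    rw [← pow_add]; exact Nat.pow_le_pow_right (by norm_num) (by omega)
  have h5 : 4 * C * s + 4 ≤ u / 2 := by omega
  have h6 : (4 * C * s + 4) * (u / 2 + 1) ≤ 2 ^ (u / 2) * 2 ^ (u / 2) :=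
    Nat.mul_le_mul (by omega) h3
  have h7 : u + 1 ≤ 2 * (u / 2 + 1) := by omega
  calc C * (n + 1) ≤ C * (s * (u + 1)) := Nat.mul_le_mul_left _ h1
    _ ≤ C * (s * (2 * (u / 2 + 1))) := by gcongr
    _ ≤ (4 * C * s + 4) * (u / 2 + 1) := by nlinarith [Nat.zero_le (C * s * (u / 2 + 1))]
    _ ≤ 2 ^ u := le_trans h6 h4

theorem md_numerics (s κ c : ℕ) (C : ℝ) (hC : 1 ≤ C) (hs : 0 < s) :
    ∃ n0 : ℕ, ∀ n ≥ n0, ∀ j : ℕ, 2 ^ n ≤ j → ∀ μ W : ℝ, 0 ≤ μ → 0 ≤ W →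
      μ ≤ 24 * 2 ^ (n / s + c) * C * n / 2 ^ (4 * (n / s)) →
      W ≤ 4 * (2 ^ (n / s + c) * bb (3 * n / 4) * bb (n / 2)) →
      (2 ^ j + 1) * μ ^ (s * (κ + 2)) + W ^ (s * (κ + 2)) ≤ (2 : ℝ) ^ j / 2 ^ (κ * n) := by
  obtain ⟨n1, h1⟩ := md_lin_le_pow s (24 * 2 ^ c * ⌈C⌉₊) hs
  obtain ⟨n2, h2⟩ := md_lin_le_pow 4 (4 * (s * (κ + 2)) + κ + c + 10) (by norm_num)
  refine ⟨max (max n1 n2) (2 * s + 8), fun n hn j hj μ W hμ0 hW0 hμ hW => ?_⟩
  have hn1 : n ≥ n1 := le_trans (le_trans (le_max_left _ _) (le_max_left _ _)) hn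
  have hn2 : n ≥ n2 := le_trans (le_trans (le_max_right _ _) (le_max_left _ _)) hn
  have hn3 : n ≥ 2 * s + 8 := le_trans (le_max_right _ _) hn
  set k := s * (κ + 2) with hk
  set u := n / s with hu
  have e1 : (24 * 2 ^ c * C * n : ℝ) ≤ 2 ^ u := by
    have := h1 n hn1
    have h' : ((24 * 2 ^ c * ⌈C⌉₊ * (n + 1) : ℕ) : ℝ) ≤ ((2 ^ u : ℕ) : ℝ) := by exact_mod_cast this
    push_cast at h'
    refine le_trans ?_ h'
    have hceil : C ≤ (⌈C⌉₊ : ℝ) := Nat.le_ceil C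
    gcongr
    linarith
  have e2 : μ ≤ 1 / 2 ^ (2 * u) := by
    refine le_trans hμ ?_
    rw [div_le_div_iff₀ (by positivity) (by positivity)]
    calc 24 * 2 ^ (u + c) * C * n * 2 ^ (2 * u) = (24 * 2 ^ c * C * n) * (2 ^ u * 2 ^ (2 * u)) := by
          rw [pow_add]; ring
      _ ≤ 2 ^ u * (2 ^ u * 2 ^ (2 * u)) := by gcongr
      _ = 1 * 2 ^ (4 * u) := by rw [← pow_add, ← pow_add]; ring
  have e3 : μ ^ k ≤ 1 / 2 ^ ((κ + 2) * n) := by
    calc μ ^ k ≤ (1 / 2 ^ (2 * u)) ^ k := by gcongr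
      _ = 1 / 2 ^ (2 * u * k) := by rw [div_pow, one_pow, ← pow_mul]
      _ ≤ 1 / 2 ^ ((κ + 2) * n) := by
        apply one_div_le_one_div_of_le (by positivity)
        apply pow_le_pow_right₀ (by norm_num)
        have h3 : n < s * (u + 1) := Nat.lt_mul_div_succ n hs
        have h4 : n ≤ 2 * u * s := by nlinarith
        calc (κ + 2) * n ≤ (κ + 2) * (2 * u * s) := by gcongr
          _ = 2 * u * k := by rw [hk]; ring
  have e4 : (2 ^ j + 1) * μ ^ k ≤ 2 ^ j / 2 ^ (κ * n) / 2 := by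
    have h5 : (2 : ℝ) ^ j + 1 ≤ 2 * 2 ^ j := by
      have : (1 : ℝ) ≤ 2 ^ j := one_le_pow₀ (by norm_num)
      linarith
    calc ((2 : ℝ) ^ j + 1) * μ ^ k ≤ (2 * 2 ^ j) * (1 / 2 ^ ((κ + 2) * n)) := by gcongr
      _ ≤ 2 ^ j / 2 ^ (κ * n) / 2 := by
        rw [div_div, mul_one_div, div_le_div_iff₀ (by positivity) (by positivity)]
        have h6 : (2 : ℝ) ^ ((κ + 2) * n) = 2 ^ (κ * n) * 2 ^ (2 * n) := by
          rw [← pow_add]; ring
        rw [h6]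
        have h7 : (4 : ℝ) ≤ 2 ^ (2 * n) := by
          calc (4 : ℝ) = 2 ^ 2 := by norm_num
            _ ≤ 2 ^ (2 * n) := pow_le_pow_right₀ (by norm_num) (by omega)
        calc 2 * (2 : ℝ) ^ j * (2 ^ (κ * n) * 2) = 2 ^ j * (2 ^ (κ * n) * 4) := by ring
          _ ≤ 2 ^ j * (2 ^ (κ * n) * 2 ^ (2 * n)) := by gcongr
  have e5 : W ^ k ≤ 2 ^ j / 2 ^ (κ * n) / 2 := by
    have h8 : W ≤ 2 ^ (4 * 2 ^ (3 * n / 4)) := by
      refine le_trans hW ?_
      unfold bb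
      push_cast
      have h9 : (4 : ℝ) * (2 ^ (u + c) * 2 ^ 2 ^ (3 * n / 4) * 2 ^ 2 ^ (n / 2)) =
          2 ^ (2 + (u + c) + 2 ^ (3 * n / 4) + 2 ^ (n / 2)) := by
        rw [pow_add, pow_add, pow_add]; ring
      rw [h9]
      apply pow_le_pow_right₀ (by norm_num)
      have h10 : 2 ^ (n / 2) ≤ 2 ^ (3 * n / 4) := Nat.pow_le_pow_right (by norm_num) (by omega)
      have h11 : 2 + (u + c) ≤ 2 ^ (3 * n / 4) := by
        have := h2 n hn2
        have h12 : 2 ^ (n / 4) ≤ 2 ^ (3 * n / 4) := Nat.pow_le_pow_right (by norm_num) (by omega)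
        have h13 : u ≤ n := Nat.div_le_self _ _
        have h14 : 2 + (u + c) ≤ (4 * k + κ + c + 10) * (n + 1) := by nlinarith
        omega
      omega
    calc W ^ k ≤ (2 ^ (4 * 2 ^ (3 * n / 4))) ^ k := by gcongr
      _ = 2 ^ (4 * 2 ^ (3 * n / 4) * k) := by rw [← pow_mul]
      _ ≤ 2 ^ j / 2 ^ (κ * n) / 2 := by
        rw [div_div, le_div_iff₀ (by positivity)]
        have h15 : (2 : ℝ) ^ (4 * 2 ^ (3 * n / 4) * k) * (2 ^ (κ * n) * 2) =
            2 ^ (4 * 2 ^ (3 * n / 4) * k + κ * n + 1) := by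
          rw [pow_add, pow_add]; ring
        rw [h15]
        apply pow_le_pow_right₀ (by norm_num)
        refine le_trans ?_ hj
        have h16 : 2 ^ (3 * n / 4) * 2 ^ (n / 4) ≤ 2 ^ n := by
          rw [← pow_add]; exact Nat.pow_le_pow_right (by norm_num) (by omega)
        have h17 := h2 n hn2
        have h18 : 1 ≤ 2 ^ (3 * n / 4) := Nat.one_le_two_pow
        calc 4 * 2 ^ (3 * n / 4) * k + κ * n + 1 ≤
            2 ^ (3 * n / 4) * ((4 * k + κ + c + 10) * (n + 1)) := by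
              have : 4 * 2 ^ (3 * n / 4) * k ≤ 2 ^ (3 * n / 4) * (4 * k * (n + 1)) := by
                nlinarith [Nat.zero_le (4 * 2 ^ (3 * n / 4) * k * n)]
              have h19 : κ * n + 1 ≤ 2 ^ (3 * n / 4) * ((κ + c + 10) * (n + 1)) := by
                calc κ * n + 1 ≤ 1 * ((κ + c + 10) * (n + 1)) := by nlinarith
                  _ ≤ _ := Nat.mul_le_mul_right _ h18
              calc 4 * 2 ^ (3 * n / 4) * k + κ * n + 1 ≤ 2 ^ (3 * n / 4) * (4 * k * (n + 1)) +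
                    2 ^ (3 * n / 4) * ((κ + c + 10) * (n + 1)) := by omega
                _ = _ := by ring
          _ ≤ 2 ^ (3 * n / 4) * 2 ^ (n / 4) := Nat.mul_le_mul_left _ h17
          _ ≤ 2 ^ n := h16
  linarith [e4, e5]

theorem md_hit (m b : ℤ) (D e : ℕ) (G : ℕ → ℕ → ℕ → ℤ → Prop) (I : Finset (ℕ × ℕ × ℕ)) (k L : ℕ)
    (hL0 : 0 < L) (a : ℤ) (W : Finset ℕ) (p t : ℕ → ℕ)
    (hI : ∀ B ∈ W, (B, p B, t B) ∈ I)
    (hfib : ∀ x, (W.filter (fun B => t B = x)).card ≤ L) (hk : k * L ≤ W.card)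
    (hcop : ∀ B ∈ W, ∀ B' ∈ W, t B ≠ t B' →
      Nat.Coprime (p B * t B ^ e) (p B' * t B' ^ e))
    (hE : ∀ B ∈ W, (p B : ℤ) ∣ F m (a - D * B) b ∧ G B (p B) (t B) a) :
    ∃ J ⊆ I, J.card = k ∧ (∀ i ∈ J, ∀ i' ∈ J, i ≠ i' →
      Nat.Coprime (i.2.1 * i.2.2 ^ e) (i'.2.1 * i'.2.2 ^ e)) ∧
        ∀ i ∈ J, (i.2.1 : ℤ) ∣ F m (a - D * i.1) b ∧ G i.1 i.2.1 i.2.2 a := by
  obtain ⟨S, hS, hSk, hinj⟩ := md_choose_inj W t k L hfib hk hL0
  refine ⟨S.image (fun B => (B, p B, t B)), ?_, ?_, ?_, ?_⟩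
  · intro i hi
    obtain ⟨B, hB, rfl⟩ := Finset.mem_image.mp hi
    exact hI B (hS hB)
  · rw [Finset.card_image_of_injective, hSk]
    intro x y h
    simp only [Prod.mk.injEq] at h
    exact h.1
  · intro i hi i' hi' hne
    obtain ⟨B, hB, rfl⟩ := Finset.mem_image.mp hi
    obtain ⟨B', hB', rfl⟩ := Finset.mem_image.mp hi'
    apply hcop B (hS hB) B' (hS hB')
    intro h
    apply hne
    have : B = B' := hinj hB hB' h
    rw [this]
  · intro i hi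
    obtain ⟨B, hB, rfl⟩ := Finset.mem_image.mp hi
    exact hE B (hS hB)

theorem md_class_sum {C : ℝ} (hC : ∀ n q c : ℕ, 1 ≤ q → q ^ 2 ≤ bb (n / 2) →
    ∑ p ∈ (PW n).filter (fun p => p % q = c % q), (1 : ℝ) / p ≤ C * n / q.totient)
    (n τ : ℕ) (hτ : τ.Prime) (h2 : τ ^ 2 ≤ bb (n / 2)) (P : ℕ → Prop) (hP : ∀ p, P p → P (p % τ))
    (h3 : ((range τ).filter P).card ≤ 3) (hC0 : 0 ≤ C) :
    ∑ p ∈ (PW n).filter P, (1 : ℝ) / p ≤ 6 * C * n / τ := by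
  have h1 : ∑ p ∈ (PW n).filter P, (1 : ℝ) / p ≤
      ∑ ρ ∈ (range τ).filter P, ∑ p ∈ (PW n).filter (fun p => p % τ = ρ % τ), (1 : ℝ) / p := by
    calc ∑ p ∈ (PW n).filter P, (1 : ℝ) / p ≤
        ∑ p ∈ ((range τ).filter P).biUnion (fun ρ => (PW n).filter (fun p => p % τ = ρ % τ)),
          (1 : ℝ) / p := by
          apply Finset.sum_le_sum_of_subset_of_nonneg
          · intro p hp
            rw [mem_filter] at hp
            rw [mem_biUnion]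
            refine ⟨p % τ, ?_, ?_⟩
            · rw [mem_filter, mem_range]; exact ⟨Nat.mod_lt _ hτ.pos, hP _ hp.2⟩
            · rw [mem_filter]; exact ⟨hp.1, (Nat.mod_mod _ _).symm⟩
          · intro _ _ _; positivity
      _ ≤ _ := by
          rw [Finset.sum_biUnion]
          intro x hx y hy hxy
          simp only [coe_filter, mem_range, Set.mem_ofPred_eq] at hx hy
          rw [Function.onFun, Finset.disjoint_left]
          intro p hp hp'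
          rw [mem_filter] at hp hp'
          apply hxy
          rw [Nat.mod_eq_of_lt hx.1] at hp
          rw [Nat.mod_eq_of_lt hy.1] at hp'
          rw [← hp.2, ← hp'.2]
  have hτ2 : (2 : ℝ) ≤ τ := by exact_mod_cast hτ.two_le
  have htot : ((τ.totient : ℕ) : ℝ) = τ - 1 := by
    rw [Nat.totient_prime hτ, Nat.cast_sub hτ.one_le]; simp
  calc ∑ p ∈ (PW n).filter P, (1 : ℝ) / p ≤ _ := h1
    _ ≤ ∑ ρ ∈ (range τ).filter P, C * n / τ.totient :=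
        Finset.sum_le_sum (fun ρ _ => hC n τ ρ hτ.one_le h2)
    _ = (((range τ).filter P).card : ℝ) * (C * n / τ.totient) := by
        rw [Finset.sum_const, nsmul_eq_mul]
    _ ≤ 3 * (C * n / τ.totient) := by
        apply mul_le_mul_of_nonneg_right
        · exact_mod_cast h3
        · positivity
    _ ≤ 6 * C * n / τ := by
        rw [htot, mul_div_assoc', div_le_div_iff₀ (by linarith) (by linarith)]
        have : 0 ≤ C * n := by positivity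
        nlinarith

theorem md_quad_B (m b a : ℤ) (D : ℕ) {τ : ℕ} (hτ : τ.Prime) (h : ¬ (τ : ℤ) ∣ 3 * m * b)
    (hD : ¬ τ ∣ D) : ((range τ).filter (fun B : ℕ => (τ : ℤ) ∣ F m (a - D * B) b)).card ≤ 2 := by
  have hpr : Prime (τ : ℤ) := Nat.prime_iff_prime_int.mp hτ
  have := quad_roots hτ ((D : ℤ) ^ 2) (-(2 * a + 3 * m * b) * D) (a ^ 2 + 3 * m * a * b + 3 * m ^ 2 * b ^ 2)
    ?_ (j := 1) le_rfl
  · have e : ∀ B : ℕ, F m (a - D * B) b = (D : ℤ) ^ 2 * (B : ℤ) ^ 2 + -(2 * a + 3 * m * b) * D * B +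
      (a ^ 2 + 3 * m * a * b + 3 * m ^ 2 * b ^ 2) := by
      intro B; unfold F; ring
    simp only [pow_one] at this
    simp only [e]
    exact this
  · intro hd
    have e : (-(2 * a + 3 * m * b) * (D : ℤ)) ^ 2 - 4 * (D : ℤ) ^ 2 *
        (a ^ 2 + 3 * m * a * b + 3 * m ^ 2 * b ^ 2) = - ((3 * m * b) * (m * b) * (D * D)) := by ring
    rw [e, dvd_neg] at hd
    rcases hpr.dvd_or_dvd hd with h1 | h1
    · rcases hpr.dvd_or_dvd h1 with h2 | h2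
      · exact h h2
      · exact h (by rw [mul_assoc]; exact Dvd.dvd.mul_left h2 3)
    · rcases hpr.dvd_or_dvd h1 with h2 | h2 <;> exact hD (by exact_mod_cast h2)

theorem md_sum_alpha (K T Y : ℕ) (hT : 0 < T) (S : Finset ℕ) (hS : S ⊆ Ioc T Y) :
    ∑ i ∈ (Icc 1 K) ×ˢ (({1} : Finset ℕ) ×ˢ S), (4 : ℝ) / ((i.2.1 : ℝ) * (i.2.2 : ℝ) ^ 2) ≤
      (4 : ℝ) * K / T := by
  rw [Finset.sum_product]
  have h : ∀ B ∈ Icc 1 K, ∑ y ∈ ({1} : Finset ℕ) ×ˢ S, (4 : ℝ) / ((y.1 : ℝ) * (y.2 : ℝ) ^ 2) ≤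
      (4 : ℝ) / T := by
    intro B _
    rw [Finset.sum_product, Finset.sum_singleton]
    have := md_inv_sq_tail T Y hT S hS
    calc ∑ y ∈ S, (4 : ℝ) / (((1 : ℕ) : ℝ) * (y : ℝ) ^ 2) = 4 * ∑ y ∈ S, (1 : ℝ) / (y : ℝ) ^ 2 := by
          rw [Finset.mul_sum]; apply Finset.sum_congr rfl; intro y _; push_cast; ring
      _ ≤ 4 * (1 / T) := by gcongr
      _ = 4 / T := by ring
  refine le_trans (Finset.sum_le_sum h) ?_
  rw [Finset.sum_const, Nat.card_Icc, nsmul_eq_mul]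
  simp only [Nat.add_sub_cancel]
  apply le_of_eq; ring

theorem md_sum_beta {C : ℝ} (K T Y n : ℕ) (hT : 0 < T) (S : Finset ℕ) (hS : S ⊆ Ioc T Y)
    (hC : ∑ p ∈ PW n, (1 : ℝ) / p ≤ C * n) (hC0 : 0 ≤ C) :
    ∑ i ∈ (Icc 1 K) ×ˢ (PW n ×ˢ S), 4 / ((i.2.1 : ℝ) * (i.2.2 : ℝ) ^ 2) ≤
      4 * K * C * n / T := by
  rw [Finset.sum_product]
  have h : ∀ B ∈ Icc 1 K, ∑ y ∈ PW n ×ˢ S, 4 / ((y.1 : ℝ) * (y.2 : ℝ) ^ 2) ≤ 4 * C * n / T := by
    intro B _
    rw [Finset.sum_product]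
    have h1 := md_inv_sq_tail T Y hT S hS
    calc ∑ p ∈ PW n, ∑ y ∈ S, 4 / ((p : ℝ) * (y : ℝ) ^ 2) =
          4 * ((∑ p ∈ PW n, (1 : ℝ) / p) * ∑ y ∈ S, (1 : ℝ) / (y : ℝ) ^ 2) := by
          rw [Finset.sum_mul_sum, Finset.mul_sum]
          apply Finset.sum_congr rfl; intro p _
          rw [Finset.mul_sum]
          apply Finset.sum_congr rfl; intro y _
          rw [div_mul_div_comm]; ring
      _ ≤ 4 * ((C * n) * (1 / T)) := by
          gcongr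
      _ = 4 * C * n / T := by ring
  refine le_trans (Finset.sum_le_sum h) ?_
  rw [Finset.sum_const, Nat.card_Icc, nsmul_eq_mul]
  simp only [Nat.add_sub_cancel]
  apply le_of_eq; ring

theorem md_sum_gamma {C : ℝ} (hC : ∀ n q c : ℕ, 1 ≤ q → q ^ 2 ≤ bb (n / 2) →
    ∑ p ∈ (PW n).filter (fun p => p % q = c % q), (1 : ℝ) / p ≤ C * n / q.totient)
    (hC0 : 0 ≤ C) (K T Y n : ℕ) (hT : 0 < T) (hY : Y ^ 2 ≤ bb (n / 2)) (S : Finset ℕ)
    (hS : S ⊆ Ioc T Y) (hSp : ∀ τ ∈ S, τ.Prime) (P : ℕ → ℕ → ℕ → Prop)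
    (hP : ∀ B ∈ Icc 1 K, ∀ τ ∈ S, ∀ p, P B p τ → P B (p % τ) τ)
    (h3 : ∀ B ∈ Icc 1 K, ∀ τ ∈ S, ((range τ).filter (fun p => P B p τ)).card ≤ 3) :
    ∑ i ∈ ((Icc 1 K) ×ˢ (PW n ×ˢ S)).filter (fun i : ℕ × ℕ × ℕ => P i.1 i.2.1 i.2.2),
      4 / ((i.2.1 : ℝ) * (i.2.2 : ℝ) ^ 1) ≤ 24 * K * C * n / T := by
  rw [Finset.sum_filter, Finset.sum_product]
  have h : ∀ B ∈ Icc 1 K, ∑ y ∈ PW n ×ˢ S, (if P B y.1 y.2 then
      4 / ((y.1 : ℝ) * (y.2 : ℝ) ^ 1) else 0) ≤ 24 * C * n / T := by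
    intro B hB
    rw [Finset.sum_product, Finset.sum_comm]
    calc ∑ τ ∈ S, ∑ p ∈ PW n, (if P B p τ then 4 / ((p : ℝ) * (τ : ℝ) ^ 1) else 0) ≤
        ∑ τ ∈ S, 24 * C * n * ((1 : ℝ) / (τ : ℝ) ^ 2) := by
          apply Finset.sum_le_sum
          intro τ hτ
          have hτp := hSp τ hτ
          have hτ0 : (0 : ℝ) < τ := by exact_mod_cast hτp.pos
          have hτY : τ ^ 2 ≤ bb (n / 2) := by
            have := (mem_Ioc.mp (hS hτ)).2
            exact le_trans (Nat.pow_le_pow_left this 2) hY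
          have hcs := md_class_sum hC n τ hτp hτY (fun p => P B p τ) (fun p => hP B hB τ hτ p)
            (h3 B hB τ hτ) hC0
          rw [← Finset.sum_filter]
          calc ∑ p ∈ (PW n).filter (fun p => P B p τ), 4 / ((p : ℝ) * (τ : ℝ) ^ 1) =
              4 / τ * ∑ p ∈ (PW n).filter (fun p => P B p τ), (1 : ℝ) / p := by
                rw [Finset.mul_sum]; apply Finset.sum_congr rfl; intro p _
                rw [div_mul_div_comm, pow_one, mul_comm (p : ℝ)]; ring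
            _ ≤ 4 / τ * (6 * C * n / τ) := by gcongr
            _ = 24 * C * n * ((1 : ℝ) / (τ : ℝ) ^ 2) := by
                field_simp; ring
      _ = 24 * C * n * ∑ τ ∈ S, ((1 : ℝ) / (τ : ℝ) ^ 2) := by rw [Finset.mul_sum]
      _ ≤ 24 * C * n * (1 / T) := by
          have := md_inv_sq_tail T Y hT S hS
          gcongr
      _ = 24 * C * n / T := by ring
  refine le_trans (Finset.sum_le_sum h) ?_
  rw [Finset.sum_const, Nat.card_Icc, nsmul_eq_mul]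
  simp only [Nat.add_sub_cancel]
  apply le_of_eq; ring

theorem md_large_facts (M : ℕ) (s C0 c : ℕ) (hs : 0 < s) : ∃ n0 : ℕ, ∀ n ≥ n0,
    2 ^ (n / s + c) < Tn s n ∧ M < Tn s n ∧ bb (n / 2 - 3) ^ 2 ≤ bb (n / 2) ∧
      (2 ^ (C0 * n) * 2 ^ (n / s + c)) ^ 2 + M < bb (n / 2) ∧ M < bb (n / 2) := by
  obtain ⟨n1, h1⟩ := md_lin_le_pow 2 (2 * C0 + 2 * c + M + 10) (by norm_num)
  refine ⟨max n1 (s * (c + M + 1) + 8), fun n hn => ?_⟩
  have hn1 : n ≥ n1 := le_trans (le_max_left _ _) hn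
  have hn2 : n ≥ s * (c + M + 1) + 8 := le_trans (le_max_right _ _) hn
  have hu : c + M + 1 ≤ n / s := (Nat.le_div_iff_mul_le hs).mpr (by rw [mul_comm]; omega)
  have h2 := h1 n hn1
  set u := n / s with hu'
  have hun : u ≤ n := Nat.div_le_self _ _
  have hbig : 2 * (C0 * n + (u + c)) + M + 2 ≤ 2 ^ (n / 2) := by
    refine le_trans ?_ h2
    nlinarith [Nat.zero_le (c * n), Nat.zero_le (M * n)]
  have h5 : (2 ^ (C0 * n) * 2 ^ (u + c)) ^ 2 + M < bb (n / 2) := by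
    have e : (2 ^ (C0 * n) * 2 ^ (u + c)) ^ 2 = 2 ^ (2 * (C0 * n + (u + c))) := by
      rw [← pow_add, ← pow_mul]; ring
    rw [e]
    have hM : M < 2 ^ M := Nat.lt_two_pow_self
    have h6 : 2 ^ (2 * (C0 * n + (u + c))) ≤ 2 ^ (2 * (C0 * n + (u + c)) + M) :=
      Nat.pow_le_pow_right (by norm_num) (by omega)
    have h7 : 2 ^ M ≤ 2 ^ (2 * (C0 * n + (u + c)) + M) :=
      Nat.pow_le_pow_right (by norm_num) (by omega)
    calc 2 ^ (2 * (C0 * n + (u + c))) + M < 2 ^ (2 * (C0 * n + (u + c)) + M) + 2 ^ (2 * (C0 * n + (u + c)) + M) := by omega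
      _ = 2 ^ (2 * (C0 * n + (u + c)) + M + 1) := by rw [pow_succ]; ring
      _ ≤ bb (n / 2) := Nat.pow_le_pow_right (by norm_num) (by omega)
  refine ⟨?_, ?_, ?_, h5, by omega⟩
  · unfold Tn; exact Nat.pow_lt_pow_right (by norm_num) (by omega)
  · unfold Tn
    calc M < 2 ^ M := Nat.lt_two_pow_self
      _ ≤ _ := Nat.pow_le_pow_right (by norm_num) (by omega)
  · unfold bb
    rw [← pow_mul]
    apply Nat.pow_le_pow_right (by norm_num)
    rw [← pow_succ]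
    exact Nat.pow_le_pow_right (by norm_num) (by omega)

/-- four conditions, one has many members -/
theorem md_four_pigeon (W : Finset ℕ) (P1 P2 P3 P4 : ℕ → Prop) (M : ℕ) (hW : 4 * M ≤ W.card)
    (h : ∀ B ∈ W, P1 B ∨ P2 B ∨ P3 B ∨ P4 B) :
    (∃ W' ⊆ W, M ≤ W'.card ∧ ∀ B ∈ W', P1 B) ∨ (∃ W' ⊆ W, M ≤ W'.card ∧ ∀ B ∈ W', P2 B) ∨
    (∃ W' ⊆ W, M ≤ W'.card ∧ ∀ B ∈ W', P3 B) ∨ (∃ W' ⊆ W, M ≤ W'.card ∧ ∀ B ∈ W', P4 B) := by
  have hh : M ≤ (W.filter P1).card ∨ M ≤ (W.filter P2).card ∨ M ≤ (W.filter P3).card ∨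
      M ≤ (W.filter P4).card := by
    by_contra hcon
    push Not at hcon
    have h1 : W ⊆ W.filter P1 ∪ (W.filter P2 ∪ (W.filter P3 ∪ W.filter P4)) := by
      intro B hB
      have := h B hB
      simp only [mem_union, mem_filter]
      tauto
    have h2 := Finset.card_le_card h1
    have h3 := Finset.card_union_le (W.filter P1) (W.filter P2 ∪ (W.filter P3 ∪ W.filter P4))
    have h4 := Finset.card_union_le (W.filter P2) (W.filter P3 ∪ W.filter P4)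
    have h5 := Finset.card_union_le (W.filter P3) (W.filter P4)
    omega
  rcases hh with h | h | h | h
  · exact Or.inl ⟨_, Finset.filter_subset _ _, h, fun B hB => (mem_filter.mp hB).2⟩
  · exact Or.inr (Or.inl ⟨_, Finset.filter_subset _ _, h, fun B hB => (mem_filter.mp hB).2⟩)
  · exact Or.inr (Or.inr (Or.inl ⟨_, Finset.filter_subset _ _, h, fun B hB => (mem_filter.mp hB).2⟩))
  · exact Or.inr (Or.inr (Or.inr ⟨_, Finset.filter_subset _ _, h, fun B hB => (mem_filter.mp hB).2⟩))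

/-- exceptional set of one type -/
noncomputable def md_ExS (m b : ℤ) (D k j e : ℕ) (G : ℕ → ℕ → ℕ → ℤ → Prop)
    (I : Finset (ℕ × ℕ × ℕ)) : Finset ℕ :=
  (Icc 1 (2 ^ j)).filter (fun a : ℕ => ∃ J ⊆ I, J.card = k ∧ (∀ i ∈ J, ∀ i' ∈ J, i ≠ i' →
      Nat.Coprime (i.2.1 * i.2.2 ^ e) (i'.2.1 * i'.2.2 ^ e)) ∧
        ∀ i ∈ J, (i.2.1 : ℤ) ∣ F m (a - D * i.1) b ∧ G i.1 i.2.1 i.2.2 a)

theorem md_mem_ExS (m b : ℤ) (D k j e : ℕ) (G : ℕ → ℕ → ℕ → ℤ → Prop)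
    (I : Finset (ℕ × ℕ × ℕ)) (a : ℕ) : a ∈ md_ExS m b D k j e G I ↔ a ∈ Icc 1 (2 ^ j) ∧
      ∃ J ⊆ I, J.card = k ∧ (∀ i ∈ J, ∀ i' ∈ J, i ≠ i' →
      Nat.Coprime (i.2.1 * i.2.2 ^ e) (i'.2.1 * i'.2.2 ^ e)) ∧
        ∀ i ∈ J, (i.2.1 : ℤ) ∣ F m (a - D * i.1) b ∧ G i.1 i.2.1 i.2.2 a := by
  unfold md_ExS
  rw [mem_filter]

theorem medium (m b : ℤ) (hm : 0 < m) (hb : 0 < b) (h2 : (2 : ℤ) ∣ m) (s κ C0 : ℕ)
    (hs : 16 ≤ s) :
    ∃ k3 : ℕ, ∀ c : ℕ, ∃ n0 : ℕ, ∀ n ≥ n0, ∀ j : ℕ, 2 ^ n ≤ j → j < 2 ^ (n + 1) →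
    ∀ D : ℕ, 1 ≤ D → D ≤ 2 ^ (C0 * n) → ∀ Q : ℤ → ℤ → ℤ → ℤ, Mode m b D Q →
    (((Icc 1 (2 ^ j)).filter (fun a : ℕ =>
      k3 ≤ ((Icc 1 (2 ^ (n / s + c))).filter (fun B : ℕ => ∃ p ∈ PW n,
        (p : ℤ) ∣ F m (a - D * B) b ∧ ∃ τ : ℕ, τ.Prime ∧ Tn s n < τ ∧
          τ ≤ bb (n / 2 - 3) ∧ ¬ τ ∣ D ∧ Obs m b D Q a B p τ)).card)).card : ℝ) ≤
      2 ^ j / 2 ^ (κ * n) := by
  obtain ⟨k2, hk2⟩ := one_tau m b hm hb h2 s (κ + 3) C0 hs
  obtain ⟨C, hC1, hC⟩ := bt_window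
  have hC0 : 0 ≤ C := by linarith
  set L := k2 + 2 with hL
  set k := s * ((κ + 3) + 2) with hk
  refine ⟨4 * (k * L), fun c => ?_⟩
  obtain ⟨n1, h1⟩ := hk2 c
  obtain ⟨n2, hnum⟩ := md_numerics s (κ + 3) c C hC1 (by omega)
  set M : ℕ := (3 * m * b).natAbs + (3 * m ^ 2 * b ^ 2).natAbs + 2 with hM
  obtain ⟨n3, hlarge⟩ := md_large_facts M s C0 c (by omega)
  refine ⟨max (max n1 n2) (max n3 1), fun n hn j hj hj' D hD1 hD2 Q hQ => ?_⟩
  have hn1 : n ≥ n1 := le_trans (le_trans (le_max_left _ _) (le_max_left _ _)) hn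
  have hn2 : n ≥ n2 := le_trans (le_trans (le_max_right _ _) (le_max_left _ _)) hn
  have hn3 : n ≥ n3 := le_trans (le_trans (le_max_left _ _) (le_max_right _ _)) hn
  have hn4 : 1 ≤ n := le_trans (le_trans (le_max_right _ _) (le_max_right _ _)) hn
  have hone := h1 n hn1 j hj hj' D hD1 hD2 Q hQ
  obtain ⟨hKT, hMT, hYY, hDK, hMbb⟩ := hlarge n hn3
  set K := 2 ^ (n / s + c) with hK
  set T := Tn s n with hT
  set Y := bb (n / 2 - 3) with hY
  have hT0 : 0 < T := by rw [hT]; unfold Tn; positivity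
  set S : Finset ℕ := (Ioc T Y).filter (fun τ => τ.Prime ∧ ¬ τ ∣ D) with hSdef
  have hS : S ⊆ Ioc T Y := Finset.filter_subset _ _
  have hSp : ∀ τ ∈ S, τ.Prime := fun τ hτ => ((mem_filter.mp hτ).2).1
  -- facts on the small primes
  have h3mb : 3 * m * b ≠ 0 := by positivity
  have hSmb : ∀ τ : ℕ, M < τ → ¬ (τ : ℤ) ∣ 3 * m * b := by
    intro τ hτ hd
    have h5 : (τ : ℤ) ≤ |3 * m * b| := Int.le_of_dvd (abs_pos.mpr h3mb) ((dvd_abs _ _).mpr hd)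
    rw [Int.abs_eq_natAbs] at h5
    have h6 : τ ≤ (3 * m * b).natAbs := by exact_mod_cast h5
    omega
  have hSD : ∀ τ ∈ S, ∀ B ∈ Icc 1 K, ¬ (τ : ℤ) ∣ (D : ℤ) * (B : ℤ) := by
    intro τ hτ B hB hd
    have hτ' := mem_filter.mp hτ
    have h5 : τ ∣ D * B := by exact_mod_cast hd
    rcases (hτ'.2.1.dvd_mul).mp h5 with h6 | h6
    · exact hτ'.2.2 h6
    · have h7 := Nat.le_of_dvd (by have := (mem_Icc.mp hB).1; omega) h6
      have h8 := (mem_Icc.mp hB).2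
      have h9 := (mem_Ioc.mp hτ'.1).1
      omega
  have hSM : ∀ τ ∈ S, M < τ := by
    intro τ hτ
    have h9 := (mem_Ioc.mp (hS hτ)).1
    omega
  have hS2 : ∀ τ ∈ S, τ ≠ 2 := by
    intro τ hτ h
    have := hSM τ hτ
    omega
  have hPWp : ∀ p ∈ PW n, p.Prime := fun p hp => (mem_filter.mp hp).2
  have hPWb : ∀ p ∈ PW n, bb (n / 2) < p := fun p hp => (mem_Ioc.mp (mem_filter.mp hp).1).1
  have hPWmb : ∀ p ∈ PW n, ¬ (p : ℤ) ∣ 3 * m * b := fun p hp =>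
    hSmb p (lt_trans hMbb (hPWb p hp))
  have hYbb : Y ≤ bb (n / 2) := by
    refine le_trans ?_ hYY
    have : 1 ≤ Y := Pool.Agent.H95.Gol.bb_pos _
    nlinarith
  have hpτ : ∀ p ∈ PW n, ∀ τ ∈ S, τ < p := by
    intro p hp τ hτ
    have h9 := (mem_Ioc.mp (hS hτ)).2
    have := hPWb p hp
    omega
  -- the index sets
  set I0 : Finset (ℕ × ℕ × ℕ) := (Icc 1 K) ×ˢ (PW n ×ˢ S) with hI0
  set Ia : Finset (ℕ × ℕ × ℕ) := (Icc 1 K) ×ˢ (({1} : Finset ℕ) ×ˢ S) with hIa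
  let Pc : ℕ → ℕ → ℕ → Prop := fun B p τ => ∃ a : ℤ, (τ : ℤ) ∣ F m (a - D * B) b ∧
    (τ : ℤ) ∣ Q a p B
  let Pd : ℕ → ℕ → ℕ → Prop := fun B p τ => ∃ a : ℤ, (τ : ℤ) ∣ F m a b ∧ (τ : ℤ) ∣ Q a p B
  set Ic : Finset (ℕ × ℕ × ℕ) := I0.filter (fun i => Pc i.1 i.2.1 i.2.2) with hIc
  set Id : Finset (ℕ × ℕ × ℕ) := I0.filter (fun i => Pd i.1 i.2.1 i.2.2) with hId
  let Ga : ℕ → ℕ → ℕ → ℤ → Prop := fun B _ τ a => (τ : ℤ) ^ 2 ∣ F m (a - D * B) b
  let Gb : ℕ → ℕ → ℕ → ℤ → Prop := fun B p τ a => (τ : ℤ) ^ 2 ∣ Q a p B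
  let Gc : ℕ → ℕ → ℕ → ℤ → Prop := fun B p τ a => (τ : ℤ) ∣ F m (a - D * B) b ∧
    (τ : ℤ) ∣ Q a p B
  let Gd : ℕ → ℕ → ℕ → ℤ → Prop := fun B p τ a => (τ : ℤ) ∣ F m a b ∧ (τ : ℤ) ∣ Q a p B
  have memI0 : ∀ i ∈ I0, i.1 ∈ Icc 1 K ∧ i.2.1 ∈ PW n ∧ i.2.2 ∈ S := by
    intro i hi
    rw [hI0, mem_product, mem_product] at hi
    exact ⟨hi.1, hi.2.1, hi.2.2⟩
  have memIa : ∀ i ∈ Ia, i.1 ∈ Icc 1 K ∧ i.2.1 = 1 ∧ i.2.2 ∈ S := by
    intro i hi
    rw [hIa, mem_product, mem_product, mem_singleton] at hi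
    exact ⟨hi.1, hi.2.1, hi.2.2⟩
  -- periodicity
  have perF : ∀ (N a a' c' : ℤ), N ∣ a - a' → N ∣ F m (a - c') b → N ∣ F m (a' - c') b := by
    intro N a a' c' hN h
    have := dvd_sub h (md_F_per m b N a a' c' hN)
    simpa using this
  have perF0 : ∀ (N a a' : ℤ), N ∣ a - a' → N ∣ F m a b → N ∣ F m a' b := by
    intro N a a' hN h
    have := perF N a a' 0 hN (by simpa using h)
    simpa using this
  have perQ : ∀ (N a a' p p' B : ℤ), N ∣ a - a' → N ∣ p - p' → N ∣ Q a p B → N ∣ Q a' p' B := by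
    intro N a a' p p' B h h' hQ'
    have := dvd_sub hQ' (hQ.per N a a' p p' B h h')
    simpa using this
  -- the exceptional sets
  have hExr : ∀ e G I, md_ExS m b D k j e G I ⊆ range (2 ^ j + 1) := by
    intro e G I a ha
    have := (mem_Icc.mp ((md_mem_ExS _ _ _ _ _ _ _ _ _).mp ha).1).2
    rw [mem_range]; omega
  have hcardI0 : (4 * (I0.card : ℝ)) ≤ 4 * (2 ^ (n / s + c) * bb (3 * n / 4) * bb (n / 2)) := by
    have h5 : I0.card ≤ K * (bb (3 * n / 4) * bb (n / 2)) := by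
      rw [hI0, card_product, card_product, Nat.card_Icc]
      apply Nat.mul_le_mul (le_of_eq (Nat.add_sub_cancel K 1))
      apply Nat.mul_le_mul
      · refine le_trans (Finset.card_filter_le _ _) ?_
        rw [Nat.card_Ioc]; omega
      · refine le_trans (Finset.card_filter_le _ _) ?_
        rw [Nat.card_Ioc]; omega
    have h6 : (I0.card : ℝ) ≤ ((K * (bb (3 * n / 4) * bb (n / 2)) : ℕ) : ℝ) := by exact_mod_cast h5
    rw [hK] at h6
    push_cast at h6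
    nlinarith
  have hcardIa : (4 * (Ia.card : ℝ)) ≤ 4 * (2 ^ (n / s + c) * bb (3 * n / 4) * bb (n / 2)) := by
    have h5 : Ia.card ≤ K * (bb (3 * n / 4) * bb (n / 2)) := by
      rw [hIa, card_product, card_product, Nat.card_Icc, card_singleton]
      apply Nat.mul_le_mul (le_of_eq (Nat.add_sub_cancel K 1))
      apply Nat.mul_le_mul
      · exact Pool.Agent.H95.Gol.bb_pos _
      · refine le_trans (Finset.card_filter_le _ _) ?_
        rw [Nat.card_Ioc]; omega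
    have h6 : (Ia.card : ℝ) ≤ ((K * (bb (3 * n / 4) * bb (n / 2)) : ℕ) : ℝ) := by exact_mod_cast h5
    rw [hK] at h6
    push_cast at h6
    nlinarith
  have hsub : ∀ I : Finset (ℕ × ℕ × ℕ), I ⊆ I0 →
      (4 * (I.card : ℝ)) ≤ 4 * (2 ^ (n / s + c) * bb (3 * n / 4) * bb (n / 2)) := by
    intro I hI
    refine le_trans ?_ hcardI0
    have := Finset.card_le_card hI
    have : (I.card : ℝ) ≤ I0.card := by exact_mod_cast this
    linarith
  have hCn : ∑ p ∈ PW n, (1 : ℝ) / p ≤ C * n := by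
    have := hC n 1 0 le_rfl (by have := Pool.Agent.H95.Gol.bb_pos (n / 2); omega)
    simpa [Nat.mod_one] using this
  have hTr : (T : ℝ) = 2 ^ (4 * (n / s)) := by rw [hT]; unfold Tn; push_cast; rfl
  have hKr : (K : ℝ) = 2 ^ (n / s + c) := by rw [hK]; push_cast; rfl
  have hn1r : (1 : ℝ) ≤ n := by exact_mod_cast hn4
  -- bound for an exceptional set
  have hEx : ∀ e G (I : Finset (ℕ × ℕ × ℕ)),
      (∀ i ∈ I, i.2.1 = 1 ∨ (i.2.1.Prime ∧ ¬ (i.2.1 : ℤ) ∣ 3 * m * b)) →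
      (∀ i ∈ I, i.2.2.Prime ∧ i.2.1 ≠ i.2.2) →
      (∀ i ∈ I, ∀ a a' : ℤ, ((i.2.2 : ℤ) ^ e ∣ a - a') →
        G i.1 i.2.1 i.2.2 a → G i.1 i.2.1 i.2.2 a') →
      (∀ i ∈ I, ∀ R : Finset ℕ, R ⊆ range (i.2.2 ^ e) → (∀ a ∈ R, G i.1 i.2.1 i.2.2 a) →
        R.card ≤ 2) →
      (4 * (I.card : ℝ)) ≤ 4 * (2 ^ (n / s + c) * bb (3 * n / 4) * bb (n / 2)) →
      ∑ i ∈ I, 4 / ((i.2.1 : ℝ) * (i.2.2 : ℝ) ^ e) ≤ 24 * K * C * n / T →
      ((md_ExS m b D k j e G I).card : ℝ) ≤ 2 ^ j / 2 ^ ((κ + 3) * n) := by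
    intro e G I a1 a2 a3 a4 a5 a6
    have h5 := md_type_few m b D e G I a1 a2 a3 (fun i hi => a4 i hi _ (Finset.filter_subset _ _)
      (fun a ha => (mem_filter.mp ha).2)) k (2 ^ j + 1) (md_ExS m b D k j e G I) (hExr e G I)
      (fun a ha => ((md_mem_ExS _ _ _ _ _ _ _ _ _).mp ha).2)
    refine le_trans h5 ?_
    have h6 := hnum n hn2 j hj (∑ i ∈ I, 4 / ((i.2.1 : ℝ) * (i.2.2 : ℝ) ^ e)) (4 * (I.card : ℝ))
      (Finset.sum_nonneg (fun i _ => by positivity)) (by positivity) (by rw [hKr, hTr] at a6; exact a6) a5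
    rw [← hk] at h6
    push_cast
    exact h6
  have hmain : ((Icc 1 (2 ^ j)).filter (fun a : ℕ =>
      4 * (k * L) ≤ ((Icc 1 K).filter (fun B : ℕ => ∃ p ∈ PW n,
        (p : ℤ) ∣ F m (a - D * B) b ∧ ∃ τ : ℕ, τ.Prime ∧ T < τ ∧
          τ ≤ Y ∧ ¬ τ ∣ D ∧ Obs m b D Q a B p τ)).card)) ⊆
      ((Icc 1 (2 ^ j)).filter (fun a : ℕ => ∃ τ : ℕ, τ.Prime ∧ T < τ ∧
      τ ≤ Y ∧ ¬ τ ∣ D ∧
      k2 ≤ ((Icc 1 K).filter (fun B : ℕ => ∃ p ∈ PW n,
        (p : ℤ) ∣ F m (a - D * B) b ∧ (τ : ℤ) ∣ Q a p B)).card)) ∪ (md_ExS m b D k j 2 Ga Ia ∪ (md_ExS m b D k j 2 Gb I0 ∪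
          (md_ExS m b D k j 1 Gc Ic ∪ md_ExS m b D k j 1 Gd Id))) := by
    intro a ha
    rw [mem_filter] at ha
    obtain ⟨ha1, ha2⟩ := ha
    rw [mem_union]
    by_cases hA : ∃ τ : ℕ, τ.Prime ∧ T < τ ∧ τ ≤ Y ∧ ¬ τ ∣ D ∧
      k2 ≤ ((Icc 1 K).filter (fun B : ℕ => ∃ p ∈ PW n,
        (p : ℤ) ∣ F m (a - D * B) b ∧ (τ : ℤ) ∣ Q a p B)).card
    · left; rw [mem_filter]; exact ⟨ha1, hA⟩
    right
    push Not at hA
    set W := (Icc 1 K).filter (fun B : ℕ => ∃ p ∈ PW n,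
        (p : ℤ) ∣ F m (a - D * B) b ∧ ∃ τ : ℕ, τ.Prime ∧ T < τ ∧
          τ ≤ Y ∧ ¬ τ ∣ D ∧ Obs m b D Q a B p τ) with hWdef
    have hW : ∀ B ∈ W, ∃ p t : ℕ, p ∈ PW n ∧ (p : ℤ) ∣ F m (a - D * B) b ∧ t ∈ S ∧
        Obs m b D Q a B p t := by
      intro B hB
      obtain ⟨-, p, hp, hpF, τ, h3, h4, h5, h6, h7⟩ := mem_filter.mp hB
      exact ⟨p, τ, hp, hpF, mem_filter.mpr ⟨mem_Ioc.mpr ⟨h4, h5⟩, h3, h6⟩, h7⟩
    choose! p t hpW hpF htS hobs using hW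
    have hWK : ∀ B ∈ W, B ∈ Icc 1 K := fun B hB => (mem_filter.mp hB).1
    -- the primes `p B` are distinct
    have hpp : ∀ B ∈ W, ∀ B' ∈ W, B ≠ B' → p B ≠ p B' := by
      intro B hB B' hB' hne heq
      have hpr : Prime ((p B : ℕ) : ℤ) := Nat.prime_iff_prime_int.mp (hPWp _ (hpW B hB))
      have hF1 := hpF B hB
      have hF2 := hpF B' hB'
      rw [← heq] at hF2
      have e1 : ((a : ℤ) - D * B) + (D : ℤ) * ((B : ℤ) - B') = (a : ℤ) - D * B' := by ring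
      have hsh := F_shift (m := m) (b := b) (a := (a : ℤ) - D * B) (h := (D : ℤ) * ((B : ℤ) - B')) hpr hF1
        (by rw [e1]; exact hF2)
      have hBK := mem_Icc.mp (hWK B hB)
      have hBK' := mem_Icc.mp (hWK B' hB')
      have hbig := hPWb _ (hpW B hB)
      have hh0 : (D : ℤ) * ((B : ℤ) - B') ≠ 0 := by
        apply mul_ne_zero
        · exact_mod_cast (by omega : D ≠ 0)
        · intro h0; apply hne; have : (B : ℤ) = B' := by linarith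
          exact_mod_cast this
      have habs : |(D : ℤ) * ((B : ℤ) - B')| ≤ ((2 ^ (C0 * n) * K : ℕ) : ℤ) := by
        rw [abs_mul]
        push_cast
        have h8 : |(D : ℤ)| ≤ 2 ^ (C0 * n) := by
          rw [abs_of_nonneg (by positivity)]; exact_mod_cast hD2
        have h9 : |(B : ℤ) - B'| ≤ K := by
          rw [abs_le]; constructor
          · have : (B' : ℤ) ≤ K := by exact_mod_cast hBK'.2
            have : (1 : ℤ) ≤ B := by exact_mod_cast hBK.1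
            linarith
          · have : (B : ℤ) ≤ K := by exact_mod_cast hBK.2
            have : (1 : ℤ) ≤ B' := by exact_mod_cast hBK'.1
            linarith
        exact mul_le_mul h8 h9 (abs_nonneg _) (by positivity)
      set Z : ℕ := 2 ^ (C0 * n) * K with hZ
      have hZ2 : (Z : ℤ) ^ 2 + M < p B := by
        have : Z ^ 2 + M < p B := lt_trans hDK hbig
        exact_mod_cast this
      have hZ1 : (1 : ℤ) ≤ Z := by
        have : 1 ≤ |(D : ℤ) * ((B : ℤ) - B')| := Int.one_le_abs hh0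
        linarith
      rcases hsh with h8 | h8
      · have h9 := Int.le_of_dvd (abs_pos.mpr hh0) ((dvd_abs _ _).mpr h8)
        nlinarith [Int.natCast_nonneg M]
      · have hpos : 0 < ((D : ℤ) * ((B : ℤ) - B')) ^ 2 + 3 * m ^ 2 * b ^ 2 := by positivity
        have h9 := Int.le_of_dvd hpos h8
        have h10 : ((D : ℤ) * ((B : ℤ) - B')) ^ 2 ≤ (Z : ℤ) ^ 2 := by
          rw [← sq_abs]
          exact pow_le_pow_left₀ (abs_nonneg _) habs 2
        have h11 : 3 * m ^ 2 * b ^ 2 ≤ M := by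
          have : ((3 * m ^ 2 * b ^ 2).natAbs : ℤ) = 3 * m ^ 2 * b ^ 2 := by
            rw [Int.natCast_natAbs, abs_of_nonneg (by positivity)]
          have h12 : (3 * m ^ 2 * b ^ 2).natAbs ≤ M := by omega
          have h13 : ((3 * m ^ 2 * b ^ 2).natAbs : ℤ) ≤ (M : ℤ) := by exact_mod_cast h12
          linarith
        linarith
    have hcopt : ∀ e : ℕ, ∀ B ∈ W, ∀ B' ∈ W, t B ≠ t B' → Nat.Coprime (t B ^ e) (t B' ^ e) := by
      intro e B hB B' hB' hne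
      exact Nat.Coprime.pow _ _ ((Nat.coprime_primes (hSp _ (htS B hB)) (hSp _ (htS B' hB'))).mpr hne)
    have hcopW : ∀ e : ℕ, ∀ B ∈ W, ∀ B' ∈ W, t B ≠ t B' →
        Nat.Coprime (p B * t B ^ e) (p B' * t B' ^ e) := by
      intro e B hB B' hB' hne
      have hBB : B ≠ B' := fun h => hne (by rw [h])
      have c1 : Nat.Coprime (p B) (p B') :=
        (Nat.coprime_primes (hPWp _ (hpW B hB)) (hPWp _ (hpW B' hB'))).mpr (hpp B hB B' hB' hBB)
      have c2 : Nat.Coprime (p B) (t B' ^ e) := Nat.Coprime.pow_right _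
        ((Nat.coprime_primes (hPWp _ (hpW B hB)) (hSp _ (htS B' hB'))).mpr
          (ne_of_gt (hpτ _ (hpW B hB) _ (htS B' hB'))))
      have c3 : Nat.Coprime (t B ^ e) (p B') := Nat.Coprime.pow_left _
        ((Nat.coprime_primes (hSp _ (htS B hB)) (hPWp _ (hpW B' hB'))).mpr
          (ne_of_lt (hpτ _ (hpW B' hB') _ (htS B hB))))
      exact Nat.Coprime.mul_left (Nat.Coprime.mul_right c1 c2)
        (Nat.Coprime.mul_right c3 (hcopt e B hB B' hB' hne))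
    have hfibQ : ∀ W' ⊆ W, (∀ B ∈ W', (t B : ℤ) ∣ Q a (p B) B) →
        ∀ x, (W'.filter (fun B => t B = x)).card ≤ L := by
      intro W' hW' hP x
      rcases Finset.eq_empty_or_nonempty (W'.filter (fun B => t B = x)) with he | hne
      · rw [he]; simp
      · obtain ⟨B0, hB0⟩ := hne
        have hB0' := mem_filter.mp hB0
        have hB0W : B0 ∈ W := hW' hB0'.1
        have hxS : x ∈ S := by rw [← hB0'.2]; exact htS B0 hB0W
        have hx' := mem_filter.mp hxS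
        have hlt := hA x hx'.2.1 (mem_Ioc.mp hx'.1).1 (mem_Ioc.mp hx'.1).2 hx'.2.2
        refine le_trans (Finset.card_le_card ?_) (le_trans hlt.le (by omega))
        intro B hB
        have hB' := mem_filter.mp hB
        have hBW : B ∈ W := hW' hB'.1
        rw [mem_filter]
        refine ⟨hWK B hBW, p B, hpW B hBW, hpF B hBW, ?_⟩
        rw [← hB'.2]
        exact hP B hB'.1
    have hfour := md_four_pigeon W (fun B => (t B : ℤ) ^ 2 ∣ F m (a - D * B) b)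
      (fun B => (t B : ℤ) ^ 2 ∣ Q a (p B) B)
      (fun B => t B ≠ p B ∧ (t B : ℤ) ∣ F m (a - D * B) b ∧ (t B : ℤ) ∣ Q a (p B) B)
      (fun B => (t B : ℤ) ∣ F m a b ∧ (t B : ℤ) ∣ Q a (p B) B) (k * L) ha2 hobs
    have hLpos : 0 < L := by omega
    rcases hfour with ⟨W', hW', h, hP⟩ | ⟨W', hW', h, hP⟩ | ⟨W', hW', h, hP⟩ | ⟨W', hW', h, hP⟩
    · rw [mem_union]; left
      rw [md_mem_ExS]
      refine ⟨ha1, md_hit m b D 2 Ga Ia k L hLpos a W' (fun _ => 1) t ?_ ?_ h ?_ ?_⟩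
      · intro B hB
        have hBW := hW' hB
        rw [hIa, mem_product, mem_product, mem_singleton]
        exact ⟨hWK B hBW, rfl, htS B hBW⟩
      · intro x
        rcases Finset.eq_empty_or_nonempty (W'.filter (fun B => t B = x)) with he | hne
        · rw [he]; simp
        · obtain ⟨B0, hB0⟩ := hne
          have hB0' := mem_filter.mp hB0
          have hB0W : B0 ∈ W := hW' hB0'.1
          have hxS : x ∈ S := by rw [← hB0'.2]; exact htS B0 hB0W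
          have hx' := mem_filter.mp hxS
          have hq := md_quad_B m b a D hx'.2.1 (hSmb x (hSM x hxS)) hx'.2.2
          refine le_trans (Finset.card_le_card ?_) (le_trans hq (by omega))
          intro B hB
          have hB' := mem_filter.mp hB
          have hBW : B ∈ W := hW' hB'.1
          rw [mem_filter, mem_range]
          constructor
          · have h8 := (mem_Icc.mp (hWK B hBW)).2
            have h9 := (mem_Ioc.mp hx'.1).1
            exact lt_of_le_of_lt h8 (lt_trans hKT h9)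
          · rw [← hB'.2]
            exact dvd_trans (dvd_pow_self _ (by norm_num)) (hP B hB'.1)
      · intro B hB B' hB' hne
        rw [one_mul, one_mul]
        exact hcopt 2 B (hW' hB) B' (hW' hB') hne
      · intro B hB
        exact ⟨by simp, hP B hB⟩
    · rw [mem_union]; right; rw [mem_union]; left
      rw [md_mem_ExS]
      refine ⟨ha1, md_hit m b D 2 Gb I0 k L hLpos a W' p t ?_ ?_ h ?_ ?_⟩
      · intro B hB
        have hBW := hW' hB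
        rw [hI0, mem_product, mem_product]
        exact ⟨hWK B hBW, hpW B hBW, htS B hBW⟩
      · exact hfibQ W' hW' (fun B hB => dvd_trans (dvd_pow_self _ (by norm_num)) (hP B hB))
      · intro B hB B' hB' hne
        exact hcopW 2 B (hW' hB) B' (hW' hB') hne
      · intro B hB
        exact ⟨hpF B (hW' hB), hP B hB⟩
    · rw [mem_union]; right; rw [mem_union]; right; rw [mem_union]; left
      rw [md_mem_ExS]
      refine ⟨ha1, md_hit m b D 1 Gc Ic k L hLpos a W' p t ?_ ?_ h ?_ ?_⟩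
      · intro B hB
        have hBW := hW' hB
        rw [hIc, mem_filter, hI0, mem_product, mem_product]
        exact ⟨⟨hWK B hBW, hpW B hBW, htS B hBW⟩, a, (hP B hB).2⟩
      · exact hfibQ W' hW' (fun B hB => (hP B hB).2.2)
      · intro B hB B' hB' hne
        exact hcopW 1 B (hW' hB) B' (hW' hB') hne
      · intro B hB
        exact ⟨hpF B (hW' hB), (hP B hB).2⟩
    · rw [mem_union]; right; rw [mem_union]; right; rw [mem_union]; right
      rw [md_mem_ExS]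
      refine ⟨ha1, md_hit m b D 1 Gd Id k L hLpos a W' p t ?_ ?_ h ?_ ?_⟩
      · intro B hB
        have hBW := hW' hB
        rw [hId, mem_filter, hI0, mem_product, mem_product]
        exact ⟨⟨hWK B hBW, hpW B hBW, htS B hBW⟩, a, hP B hB⟩
      · exact hfibQ W' hW' (fun B hB => (hP B hB).2)
      · intro B hB B' hB' hne
        exact hcopW 1 B (hW' hB) B' (hW' hB') hne
      · intro B hB
        exact ⟨hpF B (hW' hB), hP B hB⟩
  -- bounds for the four exceptional sets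
  have hIp : ∀ i ∈ I0, i.2.1 = 1 ∨ (i.2.1.Prime ∧ ¬ (i.2.1 : ℤ) ∣ 3 * m * b) := by
    intro i hi
    obtain ⟨-, h5, -⟩ := memI0 i hi
    exact Or.inr ⟨hPWp _ h5, hPWmb _ h5⟩
  have hIt : ∀ i ∈ I0, i.2.2.Prime ∧ i.2.1 ≠ i.2.2 := by
    intro i hi
    obtain ⟨-, h5, h6⟩ := memI0 i hi
    exact ⟨hSp _ h6, ne_of_gt (hpτ _ h5 _ h6)⟩
  have hCnK : (4 : ℝ) * K * C * n / T ≤ 24 * K * C * n / T := by
    gcongr
    norm_num
  have bd1 : ((md_ExS m b D k j 2 Ga Ia).card : ℝ) ≤ 2 ^ j / 2 ^ ((κ + 3) * n) := by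
    apply hEx
    · intro i hi; exact Or.inl (memIa i hi).2.1
    · intro i hi
      obtain ⟨-, h5, h6⟩ := memIa i hi
      refine ⟨hSp _ h6, ?_⟩
      rw [h5]; exact (hSp _ h6).one_lt.ne
    · intro i hi a a' haa h; exact perF _ _ _ _ haa h
    · intro i hi R hR hRG
      obtain ⟨-, h5, h6⟩ := memIa i hi
      have := F_roots (hSp _ h6) m b (D * i.1) (hSmb _ (hSM _ h6)) (j := 2) (by norm_num)
      exact le_trans (Finset.card_le_card (fun a ha => mem_filter.mpr ⟨hR ha, hRG a ha⟩)) this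
    · exact hcardIa
    · refine le_trans (md_sum_alpha K T Y hT0 S hS) ?_
      have h8 : (0 : ℝ) ≤ K := by positivity
      have h9 : (1 : ℝ) ≤ C * n := by nlinarith
      have h10 : (4 : ℝ) * K ≤ 24 * K * C * n := by
        have := mul_le_mul_of_nonneg_left h9 h8
        nlinarith
      exact div_le_div_of_nonneg_right h10 (by positivity)
  have bd2 : ((md_ExS m b D k j 2 Gb I0).card : ℝ) ≤ 2 ^ j / 2 ^ ((κ + 3) * n) := by
    apply hEx
    · exact hIp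
    · exact hIt
    · intro i hi a a' haa h; exact perQ _ _ _ _ _ _ haa (by simp) h
    · intro i hi R hR hRG
      obtain ⟨h4, h5, h6⟩ := memI0 i hi
      have := hQ.ra i.2.2 2 i.2.1 i.1 (hSp _ h6) (hS2 _ h6) (hSmb _ (hSM _ h6)) (hSD _ h6 _ h4)
        (by norm_num)
      exact le_trans (Finset.card_le_card (fun a ha => mem_filter.mpr ⟨hR ha, hRG a ha⟩)) this
    · exact hcardI0
    · exact le_trans (md_sum_beta K T Y n hT0 S hS hCn hC0) hCnK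
  have bd3 : ((md_ExS m b D k j 1 Gc Ic).card : ℝ) ≤ 2 ^ j / 2 ^ ((κ + 3) * n) := by
    apply hEx
    · intro i hi; exact hIp i (mem_filter.mp hi).1
    · intro i hi; exact hIt i (mem_filter.mp hi).1
    · intro i hi a a' haa h
      rw [pow_one] at haa
      exact ⟨perF _ _ _ _ haa h.1, perQ _ _ _ _ _ _ haa (by simp) h.2⟩
    · intro i hi R hR hRG
      obtain ⟨h4, h5, h6⟩ := memI0 i (mem_filter.mp hi).1
      have := hQ.ra i.2.2 1 i.2.1 i.1 (hSp _ h6) (hS2 _ h6) (hSmb _ (hSM _ h6)) (hSD _ h6 _ h4)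
        le_rfl
      refine le_trans (Finset.card_le_card (fun a ha => mem_filter.mpr ⟨hR ha, ?_⟩)) this
      rw [pow_one]; exact (hRG a ha).2
    · exact hsub Ic (Finset.filter_subset _ _)
    · refine le_trans (le_of_eq ?_) (md_sum_gamma hC hC0 K T Y n hT0 hYY S hS hSp Pc ?_ ?_)
      · rw [hIc, hI0]
      · rintro B hB τ hτ p ⟨x, hx1, hx2⟩
        refine ⟨x, hx1, perQ _ _ _ _ _ _ (by simp) ?_ hx2⟩
        rw [Int.natCast_mod]
        exact Int.dvd_self_sub_emod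
      · intro B hB τ hτ
        have := hQ.c1 τ B (hSp _ hτ) (hS2 _ hτ) (hSmb _ (hSM _ hτ)) (hSD _ hτ _ hB)
        convert this using 2
  have bd4 : ((md_ExS m b D k j 1 Gd Id).card : ℝ) ≤ 2 ^ j / 2 ^ ((κ + 3) * n) := by
    apply hEx
    · intro i hi; exact hIp i (mem_filter.mp hi).1
    · intro i hi; exact hIt i (mem_filter.mp hi).1
    · intro i hi a a' haa h
      rw [pow_one] at haa
      exact ⟨perF0 _ _ _ haa h.1, perQ _ _ _ _ _ _ haa (by simp) h.2⟩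
    · intro i hi R hR hRG
      obtain ⟨h4, h5, h6⟩ := memI0 i (mem_filter.mp hi).1
      have := hQ.ra i.2.2 1 i.2.1 i.1 (hSp _ h6) (hS2 _ h6) (hSmb _ (hSM _ h6)) (hSD _ h6 _ h4)
        le_rfl
      refine le_trans (Finset.card_le_card (fun a ha => mem_filter.mpr ⟨hR ha, ?_⟩)) this
      rw [pow_one]; exact (hRG a ha).2
    · exact hsub Id (Finset.filter_subset _ _)
    · refine le_trans (le_of_eq ?_) (md_sum_gamma hC hC0 K T Y n hT0 hYY S hS hSp Pd ?_ ?_)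
      · rw [hId, hI0]
      · rintro B hB τ hτ p ⟨x, hx1, hx2⟩
        refine ⟨x, hx1, perQ _ _ _ _ _ _ (by simp) ?_ hx2⟩
        rw [Int.natCast_mod]
        exact Int.dvd_self_sub_emod
      · intro B hB τ hτ
        have := hQ.c0 τ B (hSp _ hτ) (hS2 _ hτ) (hSmb _ (hSM _ hτ)) (hSD _ hτ _ hB)
        convert this using 2
  have hcard := Finset.card_le_card hmain
  have hu1 := Finset.card_union_le ((Icc 1 (2 ^ j)).filter (fun a : ℕ => ∃ τ : ℕ, τ.Prime ∧ T < τ ∧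
      τ ≤ Y ∧ ¬ τ ∣ D ∧
      k2 ≤ ((Icc 1 K).filter (fun B : ℕ => ∃ p ∈ PW n,
        (p : ℤ) ∣ F m (a - D * B) b ∧ (τ : ℤ) ∣ Q a p B)).card)) (md_ExS m b D k j 2 Ga Ia ∪ (md_ExS m b D k j 2 Gb I0 ∪
          (md_ExS m b D k j 1 Gc Ic ∪ md_ExS m b D k j 1 Gd Id)))
  have hu2 := Finset.card_union_le (md_ExS m b D k j 2 Ga Ia) (md_ExS m b D k j 2 Gb I0 ∪ (md_ExS m b D k j 1 Gc Ic ∪ md_ExS m b D k j 1 Gd Id))
  have hu3 := Finset.card_union_le (md_ExS m b D k j 2 Gb I0) (md_ExS m b D k j 1 Gc Ic ∪ md_ExS m b D k j 1 Gd Id)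
  have hu4 := Finset.card_union_le (md_ExS m b D k j 1 Gc Ic) (md_ExS m b D k j 1 Gd Id)
  have htot := le_trans hcard (le_trans hu1 (Nat.add_le_add_left (le_trans hu2
    (Nat.add_le_add_left (le_trans hu3 (Nat.add_le_add_left hu4 _)) _)) _))
  have htotr : ((((Icc 1 (2 ^ j)).filter (fun a : ℕ =>
      4 * (k * L) ≤ ((Icc 1 K).filter (fun B : ℕ => ∃ p ∈ PW n,
        (p : ℤ) ∣ F m (a - D * B) b ∧ ∃ τ : ℕ, τ.Prime ∧ T < τ ∧
          τ ≤ Y ∧ ¬ τ ∣ D ∧ Obs m b D Q a B p τ)).card)).card : ℕ) : ℝ) ≤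
      (((Icc 1 (2 ^ j)).filter (fun a : ℕ => ∃ τ : ℕ, τ.Prime ∧ T < τ ∧
      τ ≤ Y ∧ ¬ τ ∣ D ∧
      k2 ≤ ((Icc 1 K).filter (fun B : ℕ => ∃ p ∈ PW n,
        (p : ℤ) ∣ F m (a - D * B) b ∧ (τ : ℤ) ∣ Q a p B)).card)).card : ℝ) +
        (((md_ExS m b D k j 2 Ga Ia).card : ℝ) + (((md_ExS m b D k j 2 Gb I0).card : ℝ) + (((md_ExS m b D k j 1 Gc Ic).card : ℝ) +
          ((md_ExS m b D k j 1 Gd Id).card : ℝ)))) := by
    exact_mod_cast htot
  refine le_trans htotr ?_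
  have hfin : 5 * ((2 : ℝ) ^ j / 2 ^ ((κ + 3) * n)) ≤ 2 ^ j / 2 ^ (κ * n) := by
    have e1 : (2 : ℝ) ^ ((κ + 3) * n) = 2 ^ (κ * n) * 2 ^ (3 * n) := by rw [← pow_add]; ring
    rw [e1, mul_div_assoc', div_le_div_iff₀ (by positivity) (by positivity)]
    have e2 : (5 : ℝ) ≤ 2 ^ (3 * n) := by
      calc (5 : ℝ) ≤ 2 ^ 3 := by norm_num
        _ ≤ 2 ^ (3 * n) := pow_le_pow_right₀ (by norm_num) (by omega)
    calc 5 * (2 : ℝ) ^ j * 2 ^ (κ * n) = 2 ^ j * (2 ^ (κ * n) * 5) := by ring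
      _ ≤ 2 ^ j * (2 ^ (κ * n) * 2 ^ (3 * n)) := by gcongr
  linarith [hone, bd1, bd2, bd3, bd4]

end Pool.Agent.H48.SF
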