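import Pool.Agent.H48.SF.Roots

/-!
Auxiliary lemmas for the two modes.
-/

set_option autoImplicit false

namespace Pool.Agent.H48.SF

open Finset Classical
open Pool.Agent.H48.AP (F)

theorem quad_coeffs {R : Type*} [CommRing R] (a b c : R) :
    (Polynomial.C a * Polynomial.X ^ 2 + Polynomial.C b * Polynomial.X +
        Polynomial.C c).coeff 2 = a ∧
      (Polynomial.C a * Polynomial.X ^ 2 + Polynomial.C b * Polynomial.X +
        Polynomial.C c).coeff 1 = b ∧
      (Polynomial.C a * Polynomial.X ^ 2 + Polynomial.C b * Polynomial.X +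
        Polynomial.C c).coeff 0 = c := by
  refine ⟨?_, ?_, ?_⟩ <;> simp [Polynomial.coeff_X, Polynomial.coeff_C]

/-- a quadratic polynomial which is not zero modulo a prime has at most two roots -/
theorem quad_le_two {τ : ℕ} (hτ : τ.Prime) (α β γ : ℤ)
    (h : ¬ ((τ : ℤ) ∣ α ∧ (τ : ℤ) ∣ β ∧ (τ : ℤ) ∣ γ)) :
    ((range τ).filter (fun t : ℕ => (τ : ℤ) ∣ α * t ^ 2 + β * t + γ)).card ≤ 2 := by
  have : Fact τ.Prime := ⟨hτ⟩
  set P : Polynomial (ZMod τ) := Polynomial.C (α : ZMod τ) * Polynomial.X ^ 2 +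
    Polynomial.C (β : ZMod τ) * Polynomial.X + Polynomial.C (γ : ZMod τ) with hP
  have hP0 : P ≠ 0 := by
    intro h0
    apply h
    obtain ⟨c2, c1, c0⟩ := quad_coeffs (α : ZMod τ) β γ
    rw [← hP, h0, Polynomial.coeff_zero] at c2 c1 c0
    exact ⟨(ZMod.intCast_zmod_eq_zero_iff_dvd α τ).1 c2.symm,
      (ZMod.intCast_zmod_eq_zero_iff_dvd β τ).1 c1.symm,
      (ZMod.intCast_zmod_eq_zero_iff_dvd γ τ).1 c0.symm⟩
  have hdeg : P.natDegree ≤ 2 := by
    rw [hP]; exact Polynomial.natDegree_quadratic_le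
  have hcard : P.roots.toFinset.card ≤ 2 :=
    (Multiset.toFinset_card_le _).trans ((Polynomial.card_roots' P).trans hdeg)
  refine le_trans ?_ hcard
  apply Finset.card_le_card_of_injOn (fun t : ℕ => (t : ZMod τ))
  · intro t ht
    have ht2 := (Finset.mem_filter.1 (Finset.mem_coe.1 ht)).2
    have h3 : ((α * t ^ 2 + β * t + γ : ℤ) : ZMod τ) = 0 :=
      (ZMod.intCast_zmod_eq_zero_iff_dvd _ τ).2 ht2
    push_cast at h3
    simp only [Finset.mem_coe, Multiset.mem_toFinset]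
    rw [Polynomial.mem_roots hP0, Polynomial.IsRoot.def, hP]
    simpa using h3
  · intro t ht s hs hts
    have ht1 := Finset.mem_range.1 (Finset.mem_filter.1 (Finset.mem_coe.1 ht)).1
    have hs1 := Finset.mem_range.1 (Finset.mem_filter.1 (Finset.mem_coe.1 hs)).1
    have h4 : (t : ZMod τ) = (s : ZMod τ) := hts
    rw [ZMod.natCast_eq_natCast_iff'] at h4
    rwa [Nat.mod_eq_of_lt ht1, Nat.mod_eq_of_lt hs1] at h4

/-- a linear congruence with invertible leading coefficient has at most one root -/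
theorem lin_le_one {τ : ℕ} (hτ : τ.Prime) (β γ : ℤ) (h : ¬ (τ : ℤ) ∣ β) :
    ((range τ).filter (fun t : ℕ => (τ : ℤ) ∣ β * t + γ)).card ≤ 1 := by
  rw [Finset.card_le_one]
  intro t ht s hs
  have ht1 := Finset.mem_range.1 (Finset.mem_filter.1 ht).1
  have hs1 := Finset.mem_range.1 (Finset.mem_filter.1 hs).1
  have h1 := dvd_sub (Finset.mem_filter.1 ht).2 (Finset.mem_filter.1 hs).2
  have h2 : (τ : ℤ) ∣ β * ((t : ℤ) - s) := by
    have e : β * ((t : ℤ) - s) = β * t + γ - (β * s + γ) := by ring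
    rw [e]; exact h1
  have hp : Prime (τ : ℤ) := Nat.prime_iff_prime_int.1 hτ
  rcases hp.dvd_or_dvd h2 with h3 | h3
  · exact absurd h3 h
  · obtain ⟨c, hc⟩ := h3
    have hc0 : c = 0 := by
      by_contra hne
      have hτ0 : (0 : ℤ) < τ := by exact_mod_cast hτ.pos
      rcases lt_or_gt_of_ne hne with hl | hg
      · have : (τ : ℤ) * c ≤ (τ : ℤ) * (-1) := mul_le_mul_of_nonneg_left (by omega) hτ0.le
        omega
      · have : (τ : ℤ) * 1 ≤ (τ : ℤ) * c := mul_le_mul_of_nonneg_left (by omega) hτ0.le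
        omega
    rw [hc0, mul_zero] at hc
    omega

/-- three classes: a union of a class and at most two classes -/
theorem card_three {τ : ℕ} (A B C : ℕ → Prop) [DecidablePred A] [DecidablePred B]
    [DecidablePred C] (h : ∀ t ∈ range τ, A t → B t ∨ C t)
    (hB : ((range τ).filter B).card ≤ 1) (hC : ((range τ).filter C).card ≤ 2) :
    ((range τ).filter A).card ≤ 3 := by
  have : (range τ).filter A ⊆ (range τ).filter B ∪ (range τ).filter C := by
    intro t ht
    rw [Finset.mem_filter] at ht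
    rw [Finset.mem_union, Finset.mem_filter, Finset.mem_filter]
    rcases h t ht.1 ht.2 with h1 | h1
    · exact Or.inl ⟨ht.1, h1⟩
    · exact Or.inr ⟨ht.1, h1⟩
  calc _ ≤ ((range τ).filter B ∪ (range τ).filter C).card := Finset.card_le_card this
    _ ≤ _ := Finset.card_union_le _ _
    _ ≤ 3 := by omega

theorem zero_le_one_class {τ : ℕ} :
    ((range τ).filter (fun t : ℕ => (τ : ℤ) ∣ t)).card ≤ 1 := by
  rw [Finset.card_le_one]
  intro t ht s hs
  have ht1 := Finset.mem_range.1 (Finset.mem_filter.1 ht).1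
  have hs1 := Finset.mem_range.1 (Finset.mem_filter.1 hs).1
  have a1 : τ ∣ t := by exact_mod_cast (Finset.mem_filter.1 ht).2
  have a2 : τ ∣ s := by exact_mod_cast (Finset.mem_filter.1 hs).2
  rw [Nat.eq_zero_of_dvd_of_lt a1 ht1, Nat.eq_zero_of_dvd_of_lt a2 hs1]

theorem F_shift' {τ : ℕ} {m y x x' : ℤ} (hτ : τ.Prime) (h1 : (τ : ℤ) ∣ F m x y)
    (h2 : (τ : ℤ) ∣ F m x' y) :
    (τ : ℤ) ∣ x' - x ∨ (τ : ℤ) ∣ (x' - x) ^ 2 + 3 * m ^ 2 * y ^ 2 := by
  have hp : Prime (τ : ℤ) := Nat.prime_iff_prime_int.1 hτ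
  have e : x' = x + (x' - x) := by ring
  rw [e] at h2
  exact F_shift hp h1 h2

theorem not_dvd_six {τ : ℕ} (hτ : τ.Prime) (h2 : τ ≠ 2) {z : ℤ} (h : ¬ (τ : ℤ) ∣ 3 * z) :
    ¬ (τ : ℤ) ∣ 12 * z ^ 2 := by
  have hp : Prime (τ : ℤ) := Nat.prime_iff_prime_int.1 hτ
  intro h1
  have e : (12 : ℤ) * z ^ 2 = 2 ^ 2 * (3 * z * z) := by ring
  rw [e] at h1
  rcases hp.dvd_or_dvd h1 with h3 | h3
  · have h4 : (τ : ℤ) ∣ 2 := hp.dvd_of_dvd_pow h3
    have h5 : τ ∣ 2 := by exact_mod_cast h4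
    rcases (Nat.dvd_prime Nat.prime_two).1 h5 with h6 | h6
    · exact hτ.one_lt.ne' h6
    · exact h2 h6
  · rcases hp.dvd_or_dvd h3 with h4 | h4
    · exact h h4
    · exact h (dvd_mul_of_dvd_right h4 3)

theorem pow_bounds {t : ℤ} (ht : 1 ≤ t) : 1 ≤ t ^ 4 ∧ t ≤ t ^ 4 ∧ t ^ 2 ≤ t ^ 4 ∧ t ^ 3 ≤ t ^ 4 := by
  refine ⟨one_le_pow₀ ht, ?_, pow_le_pow_right₀ ht (by norm_num),
    pow_le_pow_right₀ ht (by norm_num)⟩
  calc t = t ^ 1 := (pow_one t).symm
    _ ≤ t ^ 4 := pow_le_pow_right₀ ht (by norm_num)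

/-- sizes of the partial products of `t = m b D B p` -/
theorem prod_bounds {m b D B p : ℤ} (hm : 1 ≤ m) (hb : 1 ≤ b) (hD : 1 ≤ D) (hB : 1 ≤ B)
    (hp : 1 ≤ p) :
    1 ≤ m * b * D * B * p ∧ m ≤ m * b * D * B * p ∧ p ≤ m * b * D * B * p ∧
      m * b ≤ m * b * D * B * p ∧ D * B ≤ m * b * D * B * p ∧ b * p ≤ m * b * D * B * p ∧
      m * b * p ≤ m * b * D * B * p ∧ D * B * p ≤ m * b * D * B * p := by
  have hmb : 1 ≤ m * b := one_le_mul_of_one_le_of_one_le hm hb
  have hDB : 1 ≤ D * B := one_le_mul_of_one_le_of_one_le hD hB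
  have hbp : 1 ≤ b * p := one_le_mul_of_one_le_of_one_le hb hp
  have hmbp : 1 ≤ m * b * p := one_le_mul_of_one_le_of_one_le hmb hp
  have hDBp : 1 ≤ D * B * p := one_le_mul_of_one_le_of_one_le hDB hp
  have key : ∀ x y : ℤ, 1 ≤ x → 1 ≤ y → x ≤ x * y := fun x y hx hy =>
    le_mul_of_one_le_right (by linarith) hy
  refine ⟨?_, ?_, ?_, ?_, ?_, ?_, ?_, ?_⟩
  · have := one_le_mul_of_one_le_of_one_le hmb hDBp
    have e : m * b * D * B * p = m * b * (D * B * p) := by ring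
    rw [e]; exact this
  · have e : m * b * D * B * p = m * (b * (D * B * p)) := by ring
    rw [e]; exact key _ _ hm (one_le_mul_of_one_le_of_one_le hb hDBp)
  · have e : m * b * D * B * p = p * (m * b * (D * B)) := by ring
    rw [e]; exact key _ _ hp (one_le_mul_of_one_le_of_one_le hmb hDB)
  · have e : m * b * D * B * p = m * b * (D * B * p) := by ring
    rw [e]; exact key _ _ hmb hDBp
  · have e : m * b * D * B * p = D * B * (m * b * p) := by ring
    rw [e]; exact key _ _ hDB hmbp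
  · have e : m * b * D * B * p = b * p * (m * (D * B)) := by ring
    rw [e]; exact key _ _ hbp (one_le_mul_of_one_le_of_one_le hm hDB)
  · have e : m * b * D * B * p = m * b * p * (D * B) := by ring
    rw [e]; exact key _ _ hmbp hDB
  · have e : m * b * D * B * p = D * B * p * (m * b) := by ring
    rw [e]; exact key _ _ hDBp hmb

end Pool.Agent.H48.SF
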