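import Pool.Agent.H48.SF.ModeAux

/-!
The obstacle polynomial of the direct certificate is a `Mode`.
-/

set_option autoImplicit false

namespace Pool.Agent.H48.SF

open Finset Classical
open Pool.Agent.H95.Gol (bb PB)
open Pool.Agent.H41.Per (PM)
open Pool.Agent.H48.AP (F H Vx Sparse oddCount)

theorem mode_dir {m b : ℤ} (hm : 0 < m) (hb : 0 < b) {D : ℕ} (hD : 1 ≤ D) :
    Mode m b D (QD m b D) := by
  have hm1 : 1 ≤ m := hm
  have hb1 : 1 ≤ b := hb
  have hD1 : (1 : ℤ) ≤ D := by exact_mod_cast hD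
  refine ⟨?_, ?_, ?_, ?_, ?_, ?_, ?_, ?_⟩
  · -- per
    intro N a a' p p' B h1 h2
    have e : QD m b D a p B - QD m b D a' p' B = (a - a') * ((a - D * B - b * p) +
        (a' - D * B - b * p') + 3 * m * b) - (p - p') * (b * ((a - D * B - b * p) +
        (a' - D * B - b * p') + 3 * m * b)) := by
      unfold QD F; ring
    rw [e]
    exact dvd_sub (dvd_mul_of_dvd_left h1 _) (dvd_mul_of_dvd_left h2 _)
  · -- ra
    intro τ j p B hτ h2 h3 h4 hj
    have h := F_roots hτ m b (D * B + b * p) h3 hj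
    refine le_trans (le_of_eq ?_) h
    congr 1
    apply Finset.filter_congr
    intro t _
    have e : QD m b D t p B = F m ((t : ℤ) - (D * B + b * p)) b := by
      unfold QD; congr 1; ring
    rw [e]
  · -- rp
    intro τ a B hτ h2 h3 h4
    have hp : Prime (τ : ℤ) := Nat.prime_iff_prime_int.1 hτ
    set c : ℤ := a - D * B with hc
    have h := quad_le_two hτ (b ^ 2) (-2 * b * c - 3 * m * b ^ 2)
      (c ^ 2 + 3 * m * c * b + 3 * m ^ 2 * b ^ 2) (by
        rintro ⟨h5, -, -⟩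
        exact h3 (dvd_mul_of_dvd_right (hp.dvd_of_dvd_pow h5) _))
    refine le_trans (le_of_eq ?_) h
    congr 1
    apply Finset.filter_congr
    intro t _
    have e : QD m b D a t B = b ^ 2 * t ^ 2 + (-2 * b * c - 3 * m * b ^ 2) * t +
        (c ^ 2 + 3 * m * c * b + 3 * m ^ 2 * b ^ 2) := by
      unfold QD F; rw [hc]; ring
    rw [e]
  · -- c1
    intro τ B hτ h2 h3 h4
    have hp : Prime (τ : ℤ) := Nat.prime_iff_prime_int.1 hτ
    have h3b : ¬ (τ : ℤ) ∣ b := fun h => h3 (dvd_mul_of_dvd_right h _)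
    refine card_three _ (fun t : ℕ => (τ : ℤ) ∣ t)
      (fun t : ℕ => (τ : ℤ) ∣ 1 * (t : ℤ) ^ 2 + 0 * t + 3 * m ^ 2) ?_ zero_le_one_class
      (quad_le_two hτ 1 0 (3 * m ^ 2) ?_)
    · rintro t - ⟨a, ha1, ha2⟩
      unfold QD at ha2
      rcases F_shift' hτ ha1 ha2 with h5 | h5
      · left
        have e : a - (D : ℤ) * B - b * t - (a - D * B) = b * (-t) := by ring
        rw [e] at h5
        rcases hp.dvd_or_dvd h5 with h6 | h6
        · exact absurd h6 h3b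
        · exact (dvd_neg.1 h6)
      · right
        have e : (a - (D : ℤ) * B - b * t - (a - D * B)) ^ 2 + 3 * m ^ 2 * b ^ 2 =
            b ^ 2 * (1 * (t : ℤ) ^ 2 + 0 * t + 3 * m ^ 2) := by ring
        rw [e] at h5
        rcases hp.dvd_or_dvd h5 with h6 | h6
        · exact absurd (hp.dvd_of_dvd_pow h6) h3b
        · exact h6
    · rintro ⟨h5, -, -⟩
      exact hp.not_dvd_one h5
  · -- c0
    intro τ B hτ h2 h3 h4
    have hp : Prime (τ : ℤ) := Nat.prime_iff_prime_int.1 hτ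
    have h3b : ¬ (τ : ℤ) ∣ b := fun h => h3 (dvd_mul_of_dvd_right h _)
    refine card_three _ (fun t : ℕ => (τ : ℤ) ∣ b * t + D * B)
      (fun t : ℕ => (τ : ℤ) ∣ b ^ 2 * (t : ℤ) ^ 2 + (2 * b * (D * B)) * t +
        ((D * B) ^ 2 + 3 * m ^ 2 * b ^ 2)) ?_ (lin_le_one hτ b (D * B) h3b)
      (quad_le_two hτ _ _ _ ?_)
    · rintro t - ⟨a, ha1, ha2⟩
      unfold QD at ha2
      rcases F_shift' hτ ha1 ha2 with h5 | h5
      · left
        have e : a - (D : ℤ) * B - b * t - a = -(b * t + D * B) := by ring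
        rw [e] at h5
        exact (dvd_neg.1 h5)
      · right
        have e : (a - (D : ℤ) * B - b * t - a) ^ 2 + 3 * m ^ 2 * b ^ 2 =
            b ^ 2 * (t : ℤ) ^ 2 + (2 * b * (D * B)) * t +
              ((D * B) ^ 2 + 3 * m ^ 2 * b ^ 2) := by ring
        rw [e] at h5
        exact h5
    · rintro ⟨h5, -, -⟩
      exact h3b (hp.dvd_of_dvd_pow h5)
  · -- d1
    refine ⟨fun p _ => p ^ 2 + 3 * m ^ 2, ?_, ?_⟩
    · intro p B hp1 hB1
      obtain ⟨t1, t2, t3, t4, t5, t6, t7, t8⟩ := prod_bounds hm1 hb1 hD1 hB1 hp1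
      obtain ⟨s1, s2, s3, s4⟩ := pow_bounds t1
      refine ⟨by positivity, ?_⟩
      set t := m * b * D * B * p with ht
      have a1 : p ^ 2 ≤ t ^ 2 := pow_le_pow_left₀ (by linarith) t3 2
      have a2 : m ^ 2 ≤ t ^ 2 := pow_le_pow_left₀ (by linarith) t2 2
      nlinarith
    · intro τ a p B hτ h2 h3 h4 h5 h6 h7
      have hp : Prime (τ : ℤ) := Nat.prime_iff_prime_int.1 hτ
      have h3b : ¬ (τ : ℤ) ∣ b := fun h => h3 (dvd_mul_of_dvd_right h _)
      unfold QD at h7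
      rcases F_shift' hτ h6 h7 with h8 | h8
      · have e : a - (D : ℤ) * B - b * p - (a - D * B) = b * (-p) := by ring
        rw [e] at h8
        rcases hp.dvd_or_dvd h8 with h9 | h9
        · exact absurd h9 h3b
        · exact absurd (dvd_neg.1 h9) h5
      · have e : (a - (D : ℤ) * B - b * p - (a - D * B)) ^ 2 + 3 * m ^ 2 * b ^ 2 =
            b ^ 2 * (p ^ 2 + 3 * m ^ 2) := by ring
        rw [e] at h8
        rcases hp.dvd_or_dvd h8 with h9 | h9
        · exact absurd (hp.dvd_of_dvd_pow h9) h3b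
        · exact h9
  · -- d0
    refine ⟨fun p B => (D * B + b * p) * ((D * B + b * p) ^ 2 + 3 * m ^ 2 * b ^ 2), ?_, ?_,
      ?_, ?_⟩
    · intro p B hp1 hB1
      obtain ⟨t1, t2, t3, t4, t5, t6, t7, t8⟩ := prod_bounds hm1 hb1 hD1 hB1 hp1
      obtain ⟨s1, s2, s3, s4⟩ := pow_bounds t1
      refine ⟨by positivity, ?_⟩
      set t := m * b * D * B * p with ht
      have q1 : (0 : ℤ) ≤ D * B + b * p := by positivity
      have q2 : (D : ℤ) * B + b * p ≤ 2 * t := by linarith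
      have a1 : ((D : ℤ) * B + b * p) ^ 2 ≤ (2 * t) ^ 2 := pow_le_pow_left₀ q1 q2 2
      have a2 : (m * b) ^ 2 ≤ t ^ 2 := pow_le_pow_left₀ (by positivity) t4 2
      have a3 : ((D : ℤ) * B + b * p) ^ 2 + 3 * m ^ 2 * b ^ 2 ≤ 7 * t ^ 2 := by nlinarith
      calc ((D : ℤ) * B + b * p) * (((D : ℤ) * B + b * p) ^ 2 + 3 * m ^ 2 * b ^ 2)
          ≤ (2 * t) * (7 * t ^ 2) := mul_le_mul q2 a3 (by positivity) (by linarith)
        _ = 14 * t ^ 3 := by ring
        _ ≤ 100 * t ^ 4 := by nlinarith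
    · intro B hB1
      obtain ⟨t1, t2, t3, t4, t5, t6, t7, t8⟩ := prod_bounds hm1 hb1 hD1 hB1 le_rfl
      rw [mul_one] at t1 t2 t3 t4 t5 t6 t7 t8
      obtain ⟨s1, s2, s3, s4⟩ := pow_bounds t1
      refine ⟨by positivity, ?_⟩
      set t := m * b * D * B with ht
      have q1 : (0 : ℤ) ≤ D * B + b * 0 := by positivity
      have q2 : (D : ℤ) * B + b * 0 ≤ 2 * t := by linarith
      have a1 : ((D : ℤ) * B + b * 0) ^ 2 ≤ (2 * t) ^ 2 := pow_le_pow_left₀ q1 q2 2
      have a2 : (m * b) ^ 2 ≤ t ^ 2 := pow_le_pow_left₀ (by positivity) t4 2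
      have a3 : ((D : ℤ) * B + b * 0) ^ 2 + 3 * m ^ 2 * b ^ 2 ≤ 7 * t ^ 2 := by nlinarith
      calc ((D : ℤ) * B + b * 0) * (((D : ℤ) * B + b * 0) ^ 2 + 3 * m ^ 2 * b ^ 2)
          ≤ (2 * t) * (7 * t ^ 2) := mul_le_mul q2 a3 (by positivity) (by linarith)
        _ = 14 * t ^ 3 := by ring
        _ ≤ 100 * t ^ 4 := by nlinarith
    · intro p B
      refine ⟨b * ((D * B + b * p) ^ 2 + (D * B + b * p) * (D * B) + (D * B) ^ 2 +
        3 * m ^ 2 * b ^ 2), ?_⟩
      ring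
    · intro τ a p B hτ h2 h3 h4 h6 h7
      unfold QD at h7
      rcases F_shift' hτ h6 h7 with h8 | h8
      · have e : a - (D : ℤ) * B - b * p - a = -(D * B + b * p) := by ring
        rw [e] at h8
        exact dvd_mul_of_dvd_left (dvd_neg.1 h8) _
      · have e : (a - (D : ℤ) * B - b * p - a) ^ 2 + 3 * m ^ 2 * b ^ 2 =
            (D * B + b * p) ^ 2 + 3 * m ^ 2 * b ^ 2 := by ring
        rw [e] at h8
        exact dvd_mul_of_dvd_right h8 _
  · -- shape
    intro p B hp2 hB1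
    have hp1 : 1 ≤ p := by linarith
    obtain ⟨t1, t2, t3, t4, t5, t6, t7, t8⟩ := prod_bounds hm1 hb1 hD1 hB1 hp1
    obtain ⟨s1, s2, s3, s4⟩ := pow_bounds t1
    set t := m * b * D * B * p with ht
    have a2 : (m * b) ^ 2 ≤ t ^ 2 := pow_le_pow_left₀ (by positivity) t4 2
    have p1 : 1 ≤ m * b := one_le_mul_of_one_le_of_one_le hm1 hb1
    have p2 : 1 ≤ (D : ℤ) * B := one_le_mul_of_one_le_of_one_le hD1 hB1
    have p3 : 1 ≤ b * p := one_le_mul_of_one_le_of_one_le hb1 hp1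
    refine ⟨2, 3 * m * b - 2 * (D * B) - 2 * (b * p), 3 * m ^ 2 * b ^ 2, by norm_num, ?_, ?_, ?_,
      ?_, ?_, ?_⟩
    · nlinarith
    · nlinarith
    · rw [abs_le]
      constructor
      · nlinarith
      · nlinarith
    · nlinarith
    · intro a
      unfold QD F; ring
    · intro τ hτ h2 h3 h4 h5 a
      exfalso
      have e : (2 : ℤ) * (3 * m ^ 2 * b ^ 2) ∣ 12 * (m * b) ^ 2 := ⟨2, by ring⟩
      exact not_dvd_six hτ h2 (z := m * b) (by rwa [← mul_assoc]) (h5.trans e)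

end Pool.Agent.H48.SF
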