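import Pool.Agent.H48.SF.ModeAux

/-!
The obstacle polynomial of the pair certificate is a `Mode`.
-/

set_option autoImplicit false

namespace Pool.Agent.H48.SF

open Finset Classical
open Pool.Agent.H95.Gol (bb PB)
open Pool.Agent.H41.Per (PM)
open Pool.Agent.H48.AP (F H Vx Sparse oddCount)

theorem mode_pair {m b : ℤ} (hm : 0 < m) (hb : 0 < b) {D : ℕ} (hD : 1 ≤ D) :
    Mode m b D (QP m b D) := by
  have hm1 : 1 ≤ m := hm
  have hb1 : 1 ≤ b := hb
  have hD1 : (1 : ℤ) ≤ D := by exact_mod_cast hD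
  -- if `τ` divides `p b - 1` then there is no root
  have key : ∀ (τ : ℕ) (a p B : ℤ), τ.Prime → ¬ (τ : ℤ) ∣ D * B → (τ : ℤ) ∣ p * b - 1 →
      ¬ (τ : ℤ) ∣ QP m b D a p B := by
    intro τ a p B hτ h1 h2 h3
    have hp : Prime (τ : ℤ) := Nat.prime_iff_prime_int.1 hτ
    have e : QP m b D a p B = (D * B) ^ 2 + (p * b - 1) * ((p * b - 1) * a ^ 2 +
        2 * a * (D * B) + 3 * m * b * ((p * b - 1) * a + D * B) +
        3 * m ^ 2 * b ^ 2 * (p * b - 1)) := by
      unfold QP F; ring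
    rw [e] at h3
    have h4 : (τ : ℤ) ∣ (D * B) ^ 2 := (dvd_add_left (dvd_mul_of_dvd_left h2 _)).1 h3
    exact h1 (hp.dvd_of_dvd_pow h4)
  refine ⟨?_, ?_, ?_, ?_, ?_, ?_, ?_, ?_⟩
  · -- per
    intro N a a' p p' B h1 h2
    have g1 : a' ≡ a [ZMOD N] := (Int.modEq_iff_dvd).2 h1
    have g2 : p' ≡ p [ZMOD N] := (Int.modEq_iff_dvd).2 h2
    have g3 : p' * b - 1 ≡ p * b - 1 [ZMOD N] := (g2.mul_right b).sub_right 1
    have g4 : (p' * b - 1) * a' + D * B ≡ (p * b - 1) * a + D * B [ZMOD N] :=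
      (g3.mul g1).add_right _
    have g5 : b * (p' * b - 1) ≡ b * (p * b - 1) [ZMOD N] := g3.mul_left b
    have g6 : QP m b D a' p' B ≡ QP m b D a p B [ZMOD N] := by
      unfold QP F
      exact ((g4.pow 2).add ((g4.mul_left (3 * m)).mul g5)).add ((g5.pow 2).mul_left _)
    exact (Int.modEq_iff_dvd).1 g6
  · -- ra
    intro τ j p B hτ h2 h3 h4 hj
    have hp : Prime (τ : ℤ) := Nat.prime_iff_prime_int.1 hτ
    by_cases hG : (τ : ℤ) ∣ p * b - 1
    · have : (range (τ ^ j)).filter (fun a : ℕ => (τ : ℤ) ^ j ∣ QP m b D a p B) = ∅ := by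
        rw [Finset.filter_eq_empty_iff]
        intro a _ h5
        exact key τ a p B hτ h4 hG ((dvd_pow_self _ (by omega)).trans h5)
      rw [this]; simp
    · set G : ℤ := p * b - 1 with hGd
      have h := quad_roots hτ (G ^ 2) (2 * G * (D * B) + 3 * m * b * G ^ 2)
        ((D * B) ^ 2 + 3 * m * b * G * (D * B) + 3 * m ^ 2 * b ^ 2 * G ^ 2) (by
          intro h5
          have e : (2 * G * (D * B) + 3 * m * b * G ^ 2) ^ 2 - 4 * G ^ 2 *
              ((D * B) ^ 2 + 3 * m * b * G * (D * B) + 3 * m ^ 2 * b ^ 2 * G ^ 2) =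
              (3 * m * b) * (m * b) * (-(G ^ 4)) := by ring
          rw [e] at h5
          rcases hp.dvd_or_dvd h5 with h6 | h6
          · rcases hp.dvd_or_dvd h6 with h7 | h7
            · exact h3 h7
            · exact h3 (by rw [mul_assoc]; exact dvd_mul_of_dvd_right h7 3)
          · exact hG (hp.dvd_of_dvd_pow (dvd_neg.1 h6))) hj
      refine le_trans (le_of_eq ?_) h
      congr 1
      apply Finset.filter_congr
      intro t _
      have e : QP m b D t p B = G ^ 2 * t ^ 2 + (2 * G * (D * B) + 3 * m * b * G ^ 2) * t +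
          ((D * B) ^ 2 + 3 * m * b * G * (D * B) + 3 * m ^ 2 * b ^ 2 * G ^ 2) := by
        unfold QP F; rw [← hGd]; ring
      rw [e]
  · -- rp
    intro τ a B hτ h2 h3 h4
    have hp : Prime (τ : ℤ) := Nat.prime_iff_prime_int.1 hτ
    have h3b : ¬ (τ : ℤ) ∣ b := fun h => h3 (dvd_mul_of_dvd_right h _)
    set A : ℤ := F m a b with hA
    set E : ℤ := D * B * (2 * a + 3 * m * b) with hE
    have h := quad_le_two hτ (A * b ^ 2) (E * b - 2 * A * b) (A - E + (D * B) ^ 2) (by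
        rintro ⟨h5, h6, h7⟩
        have hA' : (τ : ℤ) ∣ A := by
          rcases hp.dvd_or_dvd h5 with h8 | h8
          · exact h8
          · exact absurd (hp.dvd_of_dvd_pow h8) h3b
        have hE' : (τ : ℤ) ∣ E := by
          have h8 : (τ : ℤ) ∣ E * b := by
            have e : E * b = (E * b - 2 * A * b) + A * (2 * b) := by ring
            rw [e]; exact dvd_add h6 (dvd_mul_of_dvd_left hA' _)
          rcases hp.dvd_or_dvd h8 with h9 | h9
          · exact h9
          · exact absurd h9 h3b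
        have h8 : (τ : ℤ) ∣ (D * B) ^ 2 := by
          have e : ((D : ℤ) * B) ^ 2 = (A - E + (D * B) ^ 2) - (A - E) := by ring
          rw [e]; exact dvd_sub h7 (dvd_sub hA' hE')
        exact h4 (hp.dvd_of_dvd_pow h8))
    refine le_trans (le_of_eq ?_) h
    congr 1
    apply Finset.filter_congr
    intro t _
    have e : QP m b D a t B = A * b ^ 2 * t ^ 2 + (E * b - 2 * A * b) * t +
        (A - E + (D * B) ^ 2) := by
      rw [hA, hE]; unfold QP F; ring
    rw [e]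
  · -- c1
    intro τ B hτ h2 h3 h4
    have hp : Prime (τ : ℤ) := Nat.prime_iff_prime_int.1 hτ
    have h3b : ¬ (τ : ℤ) ∣ b := fun h => h3 (dvd_mul_of_dvd_right h _)
    have h34 : ¬ (τ : ℤ) ∣ 3 * m ^ 2 := by
      intro h
      have e : (3 : ℤ) * m ^ 2 = 3 * m * m := by ring
      rw [e] at h
      rcases hp.dvd_or_dvd h with h5 | h5
      · exact h3 (dvd_mul_of_dvd_left h5 b)
      · exact h3 (dvd_mul_of_dvd_left (dvd_mul_of_dvd_right h5 3) b)
    refine card_three _ (fun t : ℕ => (τ : ℤ) ∣ t)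
      (fun t : ℕ => (τ : ℤ) ∣ ((D * B) ^ 2 + 3 * m ^ 2 * b ^ 2) * (t : ℤ) ^ 2 +
        (-6 * m ^ 2 * b) * t + 3 * m ^ 2) ?_ zero_le_one_class
      (quad_le_two hτ _ _ _ ?_)
    · rintro t - ⟨a, ha1, ha2⟩
      have hnG : ¬ (τ : ℤ) ∣ (t : ℤ) * b - 1 := fun h => key τ a t B hτ h4 h ha2
      unfold QP at ha2
      have ha3 : (τ : ℤ) ∣ F m (((t : ℤ) * b - 1) * (a - D * B)) (b * ((t : ℤ) * b - 1)) := by
        have e : F m (((t : ℤ) * b - 1) * (a - D * B)) (b * ((t : ℤ) * b - 1)) =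
            ((t : ℤ) * b - 1) ^ 2 * F m (a - D * B) b := by
          unfold F; ring
        rw [e]; exact dvd_mul_of_dvd_right ha1 _
      rcases F_shift' hτ ha3 ha2 with h5 | h5
      · left
        have e : ((t : ℤ) * b - 1) * a + (D : ℤ) * B - ((t : ℤ) * b - 1) * (a - D * B) =
            t * (b * (D * B)) := by ring
        rw [e] at h5
        rcases hp.dvd_or_dvd h5 with h6 | h6
        · exact h6
        · rcases hp.dvd_or_dvd h6 with h7 | h7
          · exact absurd h7 h3b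
          · exact absurd h7 h4
      · right
        have e : (((t : ℤ) * b - 1) * a + (D : ℤ) * B - ((t : ℤ) * b - 1) * (a - D * B)) ^ 2 +
            3 * m ^ 2 * (b * ((t : ℤ) * b - 1)) ^ 2 =
            b ^ 2 * (((D * B) ^ 2 + 3 * m ^ 2 * b ^ 2) * (t : ℤ) ^ 2 +
              (-6 * m ^ 2 * b) * t + 3 * m ^ 2) := by ring
        rw [e] at h5
        rcases hp.dvd_or_dvd h5 with h6 | h6
        · exact absurd (hp.dvd_of_dvd_pow h6) h3b
        · exact h6
    · rintro ⟨-, -, h5⟩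
      exact h34 h5
  · -- c0
    intro τ B hτ h2 h3 h4
    have hp : Prime (τ : ℤ) := Nat.prime_iff_prime_int.1 hτ
    have h3b : ¬ (τ : ℤ) ∣ b := fun h => h3 (dvd_mul_of_dvd_right h _)
    have h34 : ¬ (τ : ℤ) ∣ 3 * m ^ 2 * b ^ 4 := by
      intro h
      rcases hp.dvd_or_dvd h with h5 | h5
      · have e : (3 : ℤ) * m ^ 2 = 3 * m * m := by ring
        rw [e] at h5
        rcases hp.dvd_or_dvd h5 with h5 | h5
        · exact h3 (dvd_mul_of_dvd_left h5 b)
        · exact h3 (dvd_mul_of_dvd_left (dvd_mul_of_dvd_right h5 3) b)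
      · exact h3b (hp.dvd_of_dvd_pow h5)
    have h := quad_le_two hτ (3 * m ^ 2 * b ^ 4) (-6 * m ^ 2 * b ^ 3)
      (3 * m ^ 2 * b ^ 2 + (D * B) ^ 2) (fun h5 => h34 h5.1)
    refine le_trans (Finset.card_le_card ?_) (h.trans (by norm_num))
    intro t ht
    rw [Finset.mem_filter] at ht ⊢
    refine ⟨ht.1, ?_⟩
    obtain ⟨a, ha1, ha2⟩ := ht.2
    unfold QP at ha2
    have ha3 : (τ : ℤ) ∣ F m (((t : ℤ) * b - 1) * a) (b * ((t : ℤ) * b - 1)) := by
      have e : F m (((t : ℤ) * b - 1) * a) (b * ((t : ℤ) * b - 1)) =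
          ((t : ℤ) * b - 1) ^ 2 * F m a b := by
        unfold F; ring
      rw [e]; exact dvd_mul_of_dvd_right ha1 _
    rcases F_shift' hτ ha3 ha2 with h5 | h5
    · have e : ((t : ℤ) * b - 1) * a + (D : ℤ) * B - ((t : ℤ) * b - 1) * a = D * B := by ring
      rw [e] at h5
      exact absurd h5 h4
    · have e : (((t : ℤ) * b - 1) * a + (D : ℤ) * B - ((t : ℤ) * b - 1) * a) ^ 2 +
          3 * m ^ 2 * (b * ((t : ℤ) * b - 1)) ^ 2 =
          3 * m ^ 2 * b ^ 4 * (t : ℤ) ^ 2 + (-6 * m ^ 2 * b ^ 3) * t +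
            (3 * m ^ 2 * b ^ 2 + (D * B) ^ 2) := by ring
      rw [e] at h5
      exact h5
  · -- d1
    refine ⟨fun p B => (p * (D * B)) ^ 2 + 3 * m ^ 2 * (p * b - 1) ^ 2, ?_, ?_⟩
    · intro p B hp1 hB1
      obtain ⟨t1, t2, t3, t4, t5, t6, t7, t8⟩ := prod_bounds hm1 hb1 hD1 hB1 hp1
      obtain ⟨s1, s2, s3, s4⟩ := pow_bounds t1
      have p2 : 1 ≤ (D : ℤ) * B := one_le_mul_of_one_le_of_one_le hD1 hB1
      have p3 : 1 ≤ p * b := one_le_mul_of_one_le_of_one_le hp1 hb1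
      refine ⟨by positivity, ?_⟩
      set t := m * b * D * B * p with ht
      have a1 : (p * (D * B)) ^ 2 ≤ t ^ 2 := pow_le_pow_left₀ (by positivity) (by linarith) 2
      have a2 : (m * (p * b - 1)) ^ 2 ≤ t ^ 2 :=
        pow_le_pow_left₀ (mul_nonneg (by linarith) (by linarith)) (by nlinarith) 2
      nlinarith
    · intro τ a p B hτ h2 h3 h4 h5 h6 h7
      have hp : Prime (τ : ℤ) := Nat.prime_iff_prime_int.1 hτ
      have h3b : ¬ (τ : ℤ) ∣ b := fun h => h3 (dvd_mul_of_dvd_right h _)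
      unfold QP at h7
      have ha3 : (τ : ℤ) ∣ F m ((p * b - 1) * (a - D * B)) (b * (p * b - 1)) := by
        have e : F m ((p * b - 1) * (a - D * B)) (b * (p * b - 1)) =
            (p * b - 1) ^ 2 * F m (a - D * B) b := by
          unfold F; ring
        rw [e]; exact dvd_mul_of_dvd_right h6 _
      rcases F_shift' hτ ha3 h7 with h8 | h8
      · have e : (p * b - 1) * a + (D : ℤ) * B - (p * b - 1) * (a - D * B) =
            p * (b * (D * B)) := by ring
        rw [e] at h8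
        rcases hp.dvd_or_dvd h8 with h9 | h9
        · exact absurd h9 h5
        · rcases hp.dvd_or_dvd h9 with h7 | h7
          · exact absurd h7 h3b
          · exact absurd h7 h4
      · have e : ((p * b - 1) * a + (D : ℤ) * B - (p * b - 1) * (a - D * B)) ^ 2 +
            3 * m ^ 2 * (b * (p * b - 1)) ^ 2 =
            b ^ 2 * ((p * (D * B)) ^ 2 + 3 * m ^ 2 * (p * b - 1) ^ 2) := by ring
        rw [e] at h8
        rcases hp.dvd_or_dvd h8 with h9 | h9
        · exact absurd (hp.dvd_of_dvd_pow h9) h3b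
        · exact h9
  · -- d0
    refine ⟨fun p B => (D * B) ^ 2 + 3 * m ^ 2 * b ^ 2 * (p * b - 1) ^ 2, ?_, ?_, ?_, ?_⟩
    · intro p B hp1 hB1
      obtain ⟨t1, t2, t3, t4, t5, t6, t7, t8⟩ := prod_bounds hm1 hb1 hD1 hB1 hp1
      obtain ⟨s1, s2, s3, s4⟩ := pow_bounds t1
      have p2 : 1 ≤ (D : ℤ) * B := one_le_mul_of_one_le_of_one_le hD1 hB1
      have p3 : 1 ≤ p * b := one_le_mul_of_one_le_of_one_le hp1 hb1
      refine ⟨by positivity, ?_⟩
      set t := m * b * D * B * p with ht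
      have a1 : ((D : ℤ) * B) ^ 2 ≤ t ^ 2 := pow_le_pow_left₀ (by positivity) t5 2
      have a4 : (m * b) * (p * b - 1) ≤ t * t :=
        mul_le_mul t4 (by linarith) (by linarith) (by linarith)
      have a2 : ((m * b) * (p * b - 1)) ^ 2 ≤ (t * t) ^ 2 :=
        pow_le_pow_left₀ (mul_nonneg (by positivity) (by linarith)) a4 2
      have a5 : (t * t) ^ 2 = t ^ 4 := by ring
      have a6 : 3 * m ^ 2 * b ^ 2 * (p * b - 1) ^ 2 = 3 * ((m * b) * (p * b - 1)) ^ 2 := by ring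
      rw [a5] at a2
      show ((D : ℤ) * B) ^ 2 + 3 * m ^ 2 * b ^ 2 * (p * b - 1) ^ 2 ≤ 100 * t ^ 4
      rw [a6]
      linarith
    · intro B hB1
      obtain ⟨t1, t2, t3, t4, t5, t6, t7, t8⟩ := prod_bounds hm1 hb1 hD1 hB1 le_rfl
      rw [mul_one] at t1 t2 t3 t4 t5 t6 t7 t8
      obtain ⟨s1, s2, s3, s4⟩ := pow_bounds t1
      have p2 : 1 ≤ (D : ℤ) * B := one_le_mul_of_one_le_of_one_le hD1 hB1
      refine ⟨by positivity, ?_⟩
      set t := m * b * D * B with ht
      have a1 : ((D : ℤ) * B) ^ 2 ≤ t ^ 2 := pow_le_pow_left₀ (by positivity) t5 2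
      have a2 : (m * b) ^ 2 ≤ t ^ 2 := pow_le_pow_left₀ (by positivity) t4 2
      show ((D : ℤ) * B) ^ 2 + 3 * m ^ 2 * b ^ 2 * (0 * b - 1) ^ 2 ≤ 100 * t ^ 4
      have a6 : 3 * m ^ 2 * b ^ 2 * (0 * b - 1) ^ 2 = 3 * (m * b) ^ 2 := by ring
      rw [a6]
      linarith
    · intro p B
      refine ⟨3 * m ^ 2 * b ^ 2 * (b * (p * b - 2)), ?_⟩
      ring
    · intro τ a p B hτ h2 h3 h4 h6 h7
      unfold QP at h7
      have ha3 : (τ : ℤ) ∣ F m ((p * b - 1) * a) (b * (p * b - 1)) := by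
        have e : F m ((p * b - 1) * a) (b * (p * b - 1)) = (p * b - 1) ^ 2 * F m a b := by
          unfold F; ring
        rw [e]; exact dvd_mul_of_dvd_right h6 _
      rcases F_shift' hτ ha3 h7 with h8 | h8
      · have e : (p * b - 1) * a + (D : ℤ) * B - (p * b - 1) * a = D * B := by ring
        rw [e] at h8
        exact absurd h8 h4
      · have e : ((p * b - 1) * a + (D : ℤ) * B - (p * b - 1) * a) ^ 2 +
            3 * m ^ 2 * (b * (p * b - 1)) ^ 2 =
            (D * B) ^ 2 + 3 * m ^ 2 * b ^ 2 * (p * b - 1) ^ 2 := by ring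
        rw [e] at h8
        exact h8
  · -- shape
    intro p B hp2 hB1
    have hp1 : 1 ≤ p := by linarith
    obtain ⟨t1, t2, t3, t4, t5, t6, t7, t8⟩ := prod_bounds hm1 hb1 hD1 hB1 hp1
    obtain ⟨s1, s2, s3, s4⟩ := pow_bounds t1
    have p1 : 1 ≤ m * b := one_le_mul_of_one_le_of_one_le hm1 hb1
    have p2 : 1 ≤ (D : ℤ) * B := one_le_mul_of_one_le_of_one_le hD1 hB1
    have p3 : 2 ≤ p * b := by nlinarith
    refine ⟨2 * (p * b - 1), 2 * (D * B) + 3 * m * b * (p * b - 1),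
      3 * m ^ 2 * b ^ 2 * (p * b - 1) ^ 2, by linarith, ?_, ?_, ?_, ?_, ?_, ?_⟩
    · have q1 : 1 ≤ (m * b) ^ 2 := one_le_pow₀ p1
      have q2 : 1 ≤ (p * b - 1) ^ 2 := one_le_pow₀ (by linarith)
      have q3 : 1 ≤ (m * b) ^ 2 * (p * b - 1) ^ 2 := one_le_mul_of_one_le_of_one_le q1 q2
      have e : 3 * m ^ 2 * b ^ 2 * (p * b - 1) ^ 2 = 3 * ((m * b) ^ 2 * (p * b - 1) ^ 2) := by
        ring
      rw [e]; linarith
    · set t := m * b * D * B * p with ht
      nlinarith
    · set t := m * b * D * B * p with ht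
      have a4 : (m * b) * (p * b - 1) ≤ t * t :=
        mul_le_mul t4 (by linarith) (by linarith) (by linarith)
      have a0 : 0 ≤ (m * b) * (p * b - 1) := mul_nonneg (by positivity) (by linarith)
      have e : 2 * ((D : ℤ) * B) + 3 * m * b * (p * b - 1) =
        2 * (D * B) + 3 * ((m * b) * (p * b - 1)) := by ring
      rw [e, abs_le]
      constructor
      · nlinarith
      · nlinarith
    · set t := m * b * D * B * p with ht
      have a4 : (m * b) * (p * b - 1) ≤ t * t :=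
        mul_le_mul t4 (by linarith) (by linarith) (by linarith)
      have a2 : ((m * b) * (p * b - 1)) ^ 2 ≤ (t * t) ^ 2 :=
        pow_le_pow_left₀ (mul_nonneg (by positivity) (by linarith)) a4 2
      have a5 : (t * t) ^ 2 = t ^ 4 := by ring
      have a6 : 3 * m ^ 2 * b ^ 2 * (p * b - 1) ^ 2 = 3 * ((m * b) * (p * b - 1)) ^ 2 := by ring
      rw [a5] at a2
      rw [a6]
      linarith
    · intro a
      unfold QP F; ring
    · intro τ hτ h2 h3 h4 h5 a
      have hp : Prime (τ : ℤ) := Nat.prime_iff_prime_int.1 hτ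
      apply key τ a p B hτ h4
      by_contra hG
      have e : 2 * (p * b - 1) * (3 * m ^ 2 * b ^ 2 * (p * b - 1) ^ 2) =
          (6 * (m * b) ^ 2) * (p * b - 1) ^ 3 := by ring
      rw [e] at h5
      rcases hp.dvd_or_dvd h5 with h6 | h6
      · have e2 : (6 : ℤ) * (m * b) ^ 2 ∣ 12 * (m * b) ^ 2 := ⟨2, by ring⟩
        exact not_dvd_six hτ h2 (z := m * b) (by rwa [← mul_assoc]) (h6.trans e2)
      · exact hG (hp.dvd_of_dvd_pow h6)

end Pool.Agent.H48.SF
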