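import Pool.Agent.H48.SF.Defs

/-!
Roots of quadratic polynomials modulo prime powers.
-/

set_option autoImplicit false

namespace Pool.Agent.H48.SF

open Finset Classical
open Pool.Agent.H95.Gol (bb PB)
open Pool.Agent.H41.Per (PM)
open Pool.Agent.H48.AP (F H Vx Sparse oddCount)

private lemma roots_pair {τ : ℕ} (hτ : τ.Prime) (α β γ : ℤ) (h : ¬ (τ : ℤ) ∣ β ^ 2 - 4 * α * γ)
    {j : ℕ} (t u : ℤ) (ht : (τ : ℤ) ^ j ∣ α * t ^ 2 + β * t + γ)
    (hu : (τ : ℤ) ^ j ∣ α * u ^ 2 + β * u + γ) (hne : ¬ (τ : ℤ) ^ j ∣ t - u) :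
    ¬ (τ : ℤ) ∣ t - u ∧ (τ : ℤ) ^ j ∣ α * (t + u) + β := by
  have hp : Prime (τ : ℤ) := Nat.prime_iff_prime_int.mp hτ
  have hj : j ≠ 0 := by
    rintro rfl
    exact hne (by simp)
  have hprod : (τ : ℤ) ^ j ∣ (t - u) * (α * (t + u) + β) := by
    have : (t - u) * (α * (t + u) + β) =
        (α * t ^ 2 + β * t + γ) - (α * u ^ 2 + β * u + γ) := by ring
    rw [this]
    exact dvd_sub ht hu
  have hnot : ¬ ((τ : ℤ) ∣ t - u ∧ (τ : ℤ) ∣ α * (t + u) + β) := by
    rintro ⟨h1, h2⟩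
    apply h
    have h3 : (τ : ℤ) ∣ 2 * α * t + β := by
      have : 2 * α * t + β = α * (t + u) + β + α * (t - u) := by ring
      rw [this]
      exact dvd_add h2 (Dvd.dvd.mul_left h1 α)
    have h4 : (τ : ℤ) ∣ α * t ^ 2 + β * t + γ := (dvd_pow_self _ hj).trans ht
    have : β ^ 2 - 4 * α * γ = (2 * α * t + β) * (2 * α * t + β) -
        4 * α * (α * t ^ 2 + β * t + γ) := by ring
    rw [this]
    exact dvd_sub (Dvd.dvd.mul_left h3 _) (Dvd.dvd.mul_left h4 _)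
  by_cases h1 : (τ : ℤ) ∣ t - u
  · exfalso
    have h2 : ¬ (τ : ℤ) ∣ α * (t + u) + β := fun h2 => hnot ⟨h1, h2⟩
    apply hne
    have hc : IsCoprime ((τ : ℤ) ^ j) (α * (t + u) + β) :=
      IsCoprime.pow_left ((Prime.coprime_iff_not_dvd hp).mpr h2)
    exact hc.dvd_of_dvd_mul_right hprod
  · refine ⟨h1, ?_⟩
    have hc : IsCoprime ((τ : ℤ) ^ j) (t - u) :=
      IsCoprime.pow_left ((Prime.coprime_iff_not_dvd hp).mpr h1)
    exact hc.dvd_of_dvd_mul_left hprod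

private lemma roots_ne {q : ℕ} {t u : ℕ} (ht : t < q) (hu : u < q) (h : t ≠ u) :
    ¬ (q : ℤ) ∣ (t : ℤ) - u := by
  intro hd
  have h1 : ((t : ℤ) - u).natAbs < q := by omega
  have h2 : (t : ℤ) - u ≠ 0 := by
    intro h0
    apply h
    have : (t : ℤ) = u := by linarith
    exact_mod_cast this
  have h3 := Int.natAbs_le_of_dvd_ne_zero hd h2
  simp only [Int.natAbs_natCast] at h3
  omega

/-- a quadratic polynomial whose discriminant is a unit has at most two roots mod `τ^j` -/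
theorem quad_roots {τ : ℕ} (hτ : τ.Prime) (α β γ : ℤ) (h : ¬ (τ : ℤ) ∣ β ^ 2 - 4 * α * γ)
    {j : ℕ} (hj : 1 ≤ j) :
    ((range (τ ^ j)).filter (fun t : ℕ => (τ : ℤ) ^ j ∣ α * t ^ 2 + β * t + γ)).card ≤ 2 := by
  have hp : Prime (τ : ℤ) := Nat.prime_iff_prime_int.mp hτ
  by_contra hc
  rw [not_le, Finset.two_lt_card] at hc
  obtain ⟨x, hx, y, hy, z, hz, hxy, hxz, hyz⟩ := hc
  simp only [mem_filter, mem_range] at hx hy hz
  have key : ∀ t u : ℕ, t < τ ^ j → u < τ ^ j → t ≠ u → ¬ (τ : ℤ) ^ j ∣ (t : ℤ) - u := by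
    intro t u ht hu htu
    have := roots_ne ht hu htu
    rwa [Nat.cast_pow] at this
  obtain ⟨_, e1⟩ := roots_pair hτ α β γ h x y hx.2 hy.2 (key x y hx.1 hy.1 hxy)
  obtain ⟨_, e2⟩ := roots_pair hτ α β γ h x z hx.2 hz.2 (key x z hx.1 hz.1 hxz)
  obtain ⟨n3, _⟩ := roots_pair hτ α β γ h y z hy.2 hz.2 (key y z hy.1 hz.1 hyz)
  have e4 : (τ : ℤ) ^ j ∣ ((y : ℤ) - z) * α := by
    have : ((y : ℤ) - z) * α = (α * ((x : ℤ) + y) + β) - (α * ((x : ℤ) + z) + β) := by ring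
    rw [this]
    exact dvd_sub e1 e2
  have hc : IsCoprime ((τ : ℤ) ^ j) ((y : ℤ) - z) :=
    IsCoprime.pow_left ((Prime.coprime_iff_not_dvd hp).mpr n3)
  have e5 : (τ : ℤ) ^ j ∣ α := hc.dvd_of_dvd_mul_left e4
  have hj0 : j ≠ 0 := by omega
  have e6 : (τ : ℤ) ∣ α := (dvd_pow_self _ hj0).trans e5
  have e7 : (τ : ℤ) ∣ α * ((x : ℤ) + y) + β := (dvd_pow_self _ hj0).trans e1
  have e8 : (τ : ℤ) ∣ β := by
    have : β = (α * ((x : ℤ) + y) + β) - α * ((x : ℤ) + y) := by ring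
    rw [this]
    exact dvd_sub e7 (Dvd.dvd.mul_right e6 _)
  apply h
  have : β ^ 2 - 4 * α * γ = β * β - α * (4 * γ) := by ring
  rw [this]
  exact dvd_sub (Dvd.dvd.mul_right e8 _) (Dvd.dvd.mul_right e6 _)

/-- roots of `F m (t - c) y` in `t` -/
theorem F_roots {τ : ℕ} (hτ : τ.Prime) (m y c : ℤ) (h : ¬ (τ : ℤ) ∣ 3 * m * y) {j : ℕ}
    (hj : 1 ≤ j) :
    ((range (τ ^ j)).filter (fun t : ℕ => (τ : ℤ) ^ j ∣ F m (t - c) y)).card ≤ 2 := by
  have hp : Prime (τ : ℤ) := Nat.prime_iff_prime_int.mp hτ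
  have hd : ¬ (τ : ℤ) ∣ (3 * m * y - 2 * c) ^ 2 -
      4 * 1 * (c ^ 2 - 3 * m * c * y + 3 * m ^ 2 * y ^ 2) := by
    intro hd
    have e : (3 * m * y - 2 * c) ^ 2 - 4 * 1 * (c ^ 2 - 3 * m * c * y + 3 * m ^ 2 * y ^ 2) =
        -((3 * m * y) * (m * y)) := by ring
    rw [e, dvd_neg] at hd
    rcases hp.dvd_or_dvd hd with h1 | h1
    · exact h h1
    · apply h
      have : 3 * m * y = 3 * (m * y) := by ring
      rw [this]
      exact Dvd.dvd.mul_left h1 _
  have := quad_roots hτ 1 (3 * m * y - 2 * c) (c ^ 2 - 3 * m * c * y + 3 * m ^ 2 * y ^ 2) hd hj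
  refine le_trans (Finset.card_le_card ?_) this
  intro t ht
  simp only [mem_filter, mem_range] at ht ⊢
  refine ⟨ht.1, ?_⟩
  have e : (1 : ℤ) * (t : ℤ) ^ 2 + (3 * m * y - 2 * c) * t +
      (c ^ 2 - 3 * m * c * y + 3 * m ^ 2 * y ^ 2) = F m (t - c) y := by
    unfold F
    ring
  rw [e]
  exact ht.2

private lemma exists_cube_root {p : ℕ} (hp : p.Prime) (h3 : p % 3 = 1) :
    ∃ w : ZMod p, w ^ 2 + w + 1 = 0 ∧ w ≠ w ^ 2 := by
  have : Fact p.Prime := ⟨hp⟩
  have : Fact (Nat.Prime 3) := ⟨Nat.prime_three⟩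
  have hcard : 3 ∣ Fintype.card (ZMod p)ˣ := by
    rw [ZMod.card_units_eq_totient, Nat.totient_prime hp]
    omega
  obtain ⟨g, hg⟩ := exists_prime_orderOf_dvd_card 3 hcard
  have hg1 : g ≠ 1 := by
    rintro rfl
    simp at hg
  have hg3 : g ^ 3 = 1 := by rw [← hg]; exact pow_orderOf_eq_one g
  set w : ZMod p := (g : ZMod p) with hw
  have hw3 : w ^ 3 = 1 := by
    rw [hw, ← Units.val_pow_eq_pow_val, hg3]
    rfl
  have hw1 : w ≠ 1 := by
    intro h
    apply hg1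
    apply Units.ext
    exact h
  have hsum : w ^ 2 + w + 1 = 0 := by
    have h1 : (w - 1) * (w ^ 2 + w + 1) = 0 := by
      have : (w - 1) * (w ^ 2 + w + 1) = w ^ 3 - 1 := by ring
      rw [this, hw3, sub_self]
    rcases mul_eq_zero.mp h1 with h2 | h2
    · exact absurd (sub_eq_zero.mp h2) hw1
    · exact h2
  refine ⟨w, hsum, ?_⟩
  intro h
  have hw0 : w ≠ 0 := Units.ne_zero g
  have h2 : w * (w - 1) = 0 := by
    have : w * (w - 1) = w ^ 2 - w := by ring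
    rw [this, ← h, sub_self]
  rcases mul_eq_zero.mp h2 with h3 | h3
  · exact hw0 h3
  · exact hw1 (sub_eq_zero.mp h3)

/-- exactly two roots for `p ≡ 1 (mod 3)`, along an arithmetic progression -/
theorem F_two {p : ℕ} (hp : p.Prime) (h3 : p % 3 = 1) (m y c M : ℤ) (h : ¬ (p : ℤ) ∣ m * y)
    (hM : ¬ (p : ℤ) ∣ M) :
    ((range p).filter (fun t : ℕ => (p : ℤ) ∣ F m (c + M * t) y)).card = 2 := by
  have : Fact p.Prime := ⟨hp⟩
  obtain ⟨w, hw, hww⟩ := exists_cube_root hp h3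
  have hM0 : ((M : ℤ) : ZMod p) ≠ 0 := by
    intro h0
    exact hM ((ZMod.intCast_zmod_eq_zero_iff_dvd M p).mp h0)
  have hk0 : ((m * y : ℤ) : ZMod p) ≠ 0 := by
    intro h0
    exact h ((ZMod.intCast_zmod_eq_zero_iff_dvd (m * y) p).mp h0)
  set M' : ZMod p := ((M : ℤ) : ZMod p) with hM'
  set κ : ZMod p := ((m * y : ℤ) : ZMod p) with hκ
  set c' : ZMod p := ((c : ℤ) : ZMod p) with hc'
  set s1 : ZMod p := (κ * (w - 1) - c') / M' with hs1
  set s2 : ZMod p := (κ * (w ^ 2 - 1) - c') / M' with hs2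
  have hs12 : s1 ≠ s2 := by
    intro he
    rw [hs1, hs2, div_left_inj' hM0, sub_left_inj] at he
    have := mul_left_cancel₀ hk0 he
    exact hww (sub_left_injective this)
  have hfac : ∀ t : ℕ, (p : ℤ) ∣ F m (c + M * t) y ↔ ((t : ZMod p) = s1 ∨ (t : ZMod p) = s2) := by
    intro t
    rw [← ZMod.intCast_zmod_eq_zero_iff_dvd]
    have e1 : ((F m (c + M * t) y : ℤ) : ZMod p) =
        (c' + M' * t - κ * (w - 1)) * (c' + M' * t - κ * (w ^ 2 - 1)) := by
      have e0 : ((F m (c + M * t) y : ℤ) : ZMod p) =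
          (c' + M' * t) ^ 2 + 3 * κ * (c' + M' * t) + 3 * κ ^ 2 := by
        rw [hc', hM', hκ]
        unfold F
        push_cast
        ring
      rw [e0]
      have hw3 : w ^ 3 = 1 := by
        have : w ^ 3 - 1 = (w - 1) * (w ^ 2 + w + 1) := by ring
        rw [hw, mul_zero] at this
        exact sub_eq_zero.mp this
      have hw2 : w ^ 2 = -w - 1 := by
        have : w ^ 2 = (w ^ 2 + w + 1) - w - 1 := by ring
        rw [hw] at this
        rw [this]; ring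
      have e2 : (c' + M' * t - κ * (w - 1)) * (c' + M' * t - κ * (w ^ 2 - 1)) =
          (c' + M' * t) ^ 2 - κ * (w ^ 2 + w + 1 - 3) * (c' + M' * t) +
            κ ^ 2 * (w ^ 3 - (w ^ 2 + w + 1) + 2) := by ring
      rw [e2, hw, hw3]
      ring
    rw [e1, mul_eq_zero]
    have hlin : ∀ b : ZMod p, c' + M' * t - b = 0 ↔ (t : ZMod p) = (b - c') / M' := by
      intro b
      rw [eq_div_iff hM0]
      constructor
      · intro hh
        have : (t : ZMod p) * M' = (c' + M' * t - b) + b - c' := by ring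
        rw [this, hh]; ring
      · intro hh
        have : c' + M' * t - b = c' + (t : ZMod p) * M' - b := by ring
        rw [this, hh]; ring
    rw [hlin, hlin]
  have hset : (range p).filter (fun t : ℕ => (p : ℤ) ∣ F m (c + M * t) y) =
      {s1.val, s2.val} := by
    ext t
    simp only [mem_filter, mem_range, mem_insert, mem_singleton]
    rw [hfac]
    constructor
    · rintro ⟨ht, h1 | h1⟩
      · left
        rw [← h1, ZMod.val_natCast_of_lt ht]
      · right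
        rw [← h1, ZMod.val_natCast_of_lt ht]
    · rintro (h1 | h1)
      · rw [h1]
        exact ⟨ZMod.val_lt s1, Or.inl (ZMod.natCast_zmod_val s1)⟩
      · rw [h1]
        exact ⟨ZMod.val_lt s2, Or.inr (ZMod.natCast_zmod_val s2)⟩
  rw [hset]
  refine Finset.card_pair ?_
  intro he
  exact hs12 (ZMod.val_injective p he)

/-- a common root of `F m · b` and of a shift -/
theorem F_shift {p m b a h : ℤ} (hp : Prime p) (h1 : p ∣ F m a b) (h2 : p ∣ F m (a + h) b) :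
    p ∣ h ∨ p ∣ h ^ 2 + 3 * m ^ 2 * b ^ 2 := by
  have h3 : p ∣ h * (2 * a + h + 3 * m * b) := by
    have : h * (2 * a + h + 3 * m * b) = F m (a + h) b - F m a b := by
      unfold F
      ring
    rw [this]
    exact dvd_sub h2 h1
  rcases hp.dvd_or_dvd h3 with h4 | h4
  · exact Or.inl h4
  · right
    have : h ^ 2 + 3 * m ^ 2 * b ^ 2 = 4 * F m a b +
        (2 * a + h + 3 * m * b) * (h - (2 * a + 3 * m * b)) := by
      unfold F
      ring
    rw [this]
    exact dvd_add (Dvd.dvd.mul_left h1 _) (Dvd.dvd.mul_right h4 _)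

end Pool.Agent.H48.SF
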