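import Pool.Agent.H48.SF.BM
import Pool.Agent.H48.SF.BT
import Pool.Agent.H48.SF.Roots

/-!
One prime `τ` cannot be an obstacle for many `B`.
-/

set_option autoImplicit false

namespace Pool.Agent.H48.SF

open Finset Classical
open Pool.Agent.H95.Gol (bb PB bb_succ bb_mono two_le_bb bb_pos)
open Pool.Agent.H41.Per (PM)
open Pool.Agent.H48.AP (F H Vx Sparse oddCount)

lemma ot_PW {n p : ℕ} (h : p ∈ PW n) : p.Prime ∧ bb (n / 2) < p ∧ p ≤ bb (3 * n / 4) := by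
  unfold PW at h
  rw [mem_filter, mem_Ioc] at h
  exact ⟨h.2, h.1.1, h.1.2⟩

lemma ot_Fdiff (m b X Y : ℤ) : F m X b - F m Y b = (X - Y) * (X + Y + 3 * m * b) := by
  unfold F; ring

/-- distinct `B` have distinct primes `p` -/
lemma ot_distinct {m b : ℤ} (hm : 0 < m) (hb : 0 < b) {D K p B B' : ℕ} {a : ℤ} (hD : 1 ≤ D)
    (hp : p.Prime) (hB : B ∈ Icc 1 K) (hB' : B' ∈ Icc 1 K) (hne : B ≠ B')
    (hsize : ((D * K : ℕ) : ℤ) ^ 2 + 3 * m ^ 2 * b ^ 2 < p)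
    (h1 : (p : ℤ) ∣ F m (a - D * B) b) (h2 : (p : ℤ) ∣ F m (a - D * B') b) : False := by
  rw [mem_Icc] at hB hB'
  have h2' : (p : ℤ) ∣ F m ((a - D * B) + (D : ℤ) * ((B : ℤ) - B')) b := by
    have : (a - D * B) + (D : ℤ) * ((B : ℤ) - B') = a - D * B' := by ring
    rw [this]; exact h2
  have hD' : (1 : ℤ) ≤ D := by exact_mod_cast hD
  have hx : |(B : ℤ) - B'| ≤ K := by
    rw [abs_le]; constructor <;> omega
  have hx1 : 1 ≤ |(B : ℤ) - B'| := by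
    apply Int.one_le_abs
    intro h
    apply hne; omega
  have hh : |(D : ℤ) * ((B : ℤ) - B')| ≤ ((D * K : ℕ) : ℤ) := by
    rw [abs_mul]; push_cast
    rw [abs_of_nonneg (by omega : (0 : ℤ) ≤ D)]
    exact mul_le_mul_of_nonneg_left hx (by omega)
  have hh0 : (D : ℤ) * ((B : ℤ) - B') ≠ 0 := by
    apply mul_ne_zero (by omega)
    intro h; apply hne; omega
  have hpos : 0 < 3 * m ^ 2 * b ^ 2 := by positivity
  have hsq : ((D : ℤ) * ((B : ℤ) - B')) ^ 2 ≤ ((D * K : ℕ) : ℤ) ^ 2 := by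
    apply sq_le_sq'
    · have := neg_abs_le ((D : ℤ) * ((B : ℤ) - B')); linarith
    · have := le_abs_self ((D : ℤ) * ((B : ℤ) - B')); linarith
  rcases F_shift (Nat.prime_iff_prime_int.mp hp) h1 h2' with h | h
  · have h3 := Int.le_of_dvd (abs_pos.mpr hh0) ((dvd_abs _ _).mpr h)
    have h4 : ((D * K : ℕ) : ℤ) ≤ ((D * K : ℕ) : ℤ) ^ 2 := by
      have : (0 : ℤ) ≤ ((D * K : ℕ) : ℤ) := by positivity
      nlinarith [Int.le_self_sq ((D * K : ℕ) : ℤ)]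
    linarith
  · have h3 := Int.le_of_dvd (by positivity) h
    linarith

/-- the index set: pairs `(B, p)` with `τ ∣ Q(α, p, B)` -/
noncomputable def otI (n K τ α : ℕ) (Q : ℤ → ℤ → ℤ → ℤ) : Finset (ℕ × ℕ) :=
  ((Icc 1 K) ×ˢ (PW n)).filter (fun x => (τ : ℤ) ∣ Q (α : ℤ) x.2 x.1)

lemma ot_mem {n K τ α : ℕ} {Q : ℤ → ℤ → ℤ → ℤ} {x : ℕ × ℕ} (hx : x ∈ otI n K τ α Q) :
    x.1 ∈ Icc 1 K ∧ x.2 ∈ PW n ∧ (τ : ℤ) ∣ Q (α : ℤ) x.2 x.1 := by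
  rw [otI, mem_filter, mem_product] at hx
  exact ⟨hx.1.1, hx.1.2, hx.2⟩

lemma ot_per (m b : ℤ) (D B p τ α t : ℕ) :
    (p : ℤ) ∣ F m (((α + τ * t : ℕ) : ℤ) - D * B) b ↔
      (p : ℤ) ∣ F m (((α + τ * (t % p) : ℕ) : ℤ) - D * B) b := by
  have h1 : (p : ℤ) ∣ F m (((α + τ * t : ℕ) : ℤ) - D * B) b -
      F m (((α + τ * (t % p) : ℕ) : ℤ) - D * B) b := by
    rw [ot_Fdiff]
    apply Dvd.dvd.mul_right
    have : ((α + τ * t : ℕ) : ℤ) - D * B - (((α + τ * (t % p) : ℕ) : ℤ) - D * B) =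
        p * (τ * ((t / p : ℕ) : ℤ)) := by
      have h3 : ((p : ℕ) : ℤ) * ((t / p : ℕ) : ℤ) + ((t % p : ℕ) : ℤ) = t := by
        exact_mod_cast Nat.div_add_mod t p
      push_cast at h3 ⊢
      linear_combination (-(τ : ℤ)) * h3
    rw [this]; exact dvd_mul_right _ _
  exact (Int.dvd_iff_dvd_of_dvd_sub h1)

lemma ot_two {m b : ℤ} (D B τ α : ℕ) {p : ℕ} (hp : p.Prime) (h1 : ¬ (p : ℤ) ∣ 3 * m * b)
    (h2 : ¬ (p : ℤ) ∣ (τ : ℤ)) :
    ((range p).filter (fun t : ℕ => (p : ℤ) ∣ F m (((α + τ * t : ℕ) : ℤ) - D * B) b)).card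
      ≤ 2 := by
  have hq := quad_roots hp ((τ : ℤ) ^ 2)
    (2 * τ * ((α : ℤ) - D * B) + 3 * m * b * τ)
    (((α : ℤ) - D * B) ^ 2 + 3 * m * b * ((α : ℤ) - D * B) + 3 * m ^ 2 * b ^ 2) ?_
    (le_refl 1)
  · rw [pow_one, pow_one] at hq
    refine le_trans (le_of_eq ?_) hq
    congr 1
    ext t
    rw [mem_filter, mem_filter]
    have : F m (((α + τ * t : ℕ) : ℤ) - D * B) b = (τ : ℤ) ^ 2 * (t : ℤ) ^ 2 +
      (2 * τ * ((α : ℤ) - D * B) + 3 * m * b * τ) * t +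
      (((α : ℤ) - D * B) ^ 2 + 3 * m * b * ((α : ℤ) - D * B) + 3 * m ^ 2 * b ^ 2) := by
      unfold F; push_cast; ring
    rw [this]
  · intro hd
    have e : (2 * τ * ((α : ℤ) - D * B) + 3 * m * b * τ) ^ 2 - 4 * ((τ : ℤ) ^ 2) *
      (((α : ℤ) - D * B) ^ 2 + 3 * m * b * ((α : ℤ) - D * B) + 3 * m ^ 2 * b ^ 2) =
      - ((τ : ℤ) ^ 2 * (m * b * (3 * m * b))) := by ring
    rw [e, dvd_neg] at hd
    have hpi := Nat.prime_iff_prime_int.mp hp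
    rcases hpi.dvd_or_dvd hd with h | h
    · exact h2 (hpi.dvd_of_dvd_pow h)
    · rcases hpi.dvd_or_dvd h with h | h
      · apply h1
        have : (3 : ℤ) * m * b = 3 * (m * b) := by ring
        rw [this]; exact Dvd.dvd.mul_left h 3
      · exact h1 h

lemma ot_exists {m b : ℤ} (hm : 0 < m) (hb : 0 < b) {n K D k τ : ℕ} (α : ℕ)
    {Q : ℤ → ℤ → ℤ → ℤ} (hQ : Mode m b D Q) (hD : 1 ≤ D)
    (hsize : ((D * K : ℕ) : ℤ) ^ 2 + 3 * m ^ 2 * b ^ 2 < bb (n / 2)) (t : ℕ)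
    (h : k ≤ ((Icc 1 K).filter (fun B : ℕ => ∃ p ∈ PW n,
        (p : ℤ) ∣ F m (((α + τ * t : ℕ) : ℤ) - D * B) b ∧
        (τ : ℤ) ∣ Q ((α + τ * t : ℕ) : ℤ) p B)).card) :
    ∃ J : Finset (ℕ × ℕ), J ∈ (otI n K τ α Q).powersetCard k ∧
        (∀ i ∈ J, ∀ i' ∈ J, i ≠ i' → Nat.Coprime i.2 i'.2) ∧
          ∀ i ∈ J, (i.2 : ℤ) ∣ F m (((α + τ * t : ℕ) : ℤ) - D * i.1) b := by
  obtain ⟨S, hS, hSc⟩ := exists_subset_card_eq h
  have hch : ∀ B ∈ S, ∃ p ∈ PW n, (p : ℤ) ∣ F m (((α + τ * t : ℕ) : ℤ) - D * B) b ∧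
      (τ : ℤ) ∣ Q ((α + τ * t : ℕ) : ℤ) p B := fun B hB => (mem_filter.mp (hS hB)).2
  choose! P hP using hch
  have hSK : ∀ B ∈ S, B ∈ Icc 1 K := fun B hB => (mem_filter.mp (hS hB)).1
  refine ⟨S.image (fun B => (B, P B)), ?_, ?_, ?_⟩
  · rw [mem_powersetCard]
    refine ⟨?_, ?_⟩
    · intro x hx
      obtain ⟨B, hB, rfl⟩ := mem_image.mp hx
      rw [otI, mem_filter, mem_product]
      refine ⟨⟨hSK B hB, (hP B hB).1⟩, ?_⟩
      have hper := hQ.per (τ : ℤ) ((α + τ * t : ℕ) : ℤ) (α : ℤ) (P B) (P B) B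
        (by push_cast; exact ⟨t, by ring⟩) (by simp)
      exact (Int.dvd_iff_dvd_of_dvd_sub hper).mp (hP B hB).2.2
    · rw [card_image_of_injOn, hSc]
      intro x _ y _ hxy
      exact (Prod.mk.inj hxy).1
  · intro x hx y hy hxy
    obtain ⟨B, hB, rfl⟩ := mem_image.mp hx
    obtain ⟨B', hB', rfl⟩ := mem_image.mp hy
    have hBB : B ≠ B' := by rintro rfl; exact hxy rfl
    have hp1 := ot_PW (hP B hB).1
    have hp2 := ot_PW (hP B' hB').1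
    show Nat.Coprime (P B) (P B')
    rw [Nat.coprime_primes hp1.1 hp2.1]
    intro he
    refine ot_distinct hm hb hD hp1.1 (hSK B hB) (hSK B' hB') hBB ?_ (hP B hB).2.1
      (he ▸ (hP B' hB').2.1)
    have : (bb (n / 2) : ℤ) < (P B : ℤ) := by exact_mod_cast hp1.2.1
    linarith
  · intro x hx
    obtain ⟨B, hB, rfl⟩ := mem_image.mp hx
    exact (hP B hB).2.1

lemma ot_musum {m b : ℤ} {C : ℝ} (hC0 : 0 ≤ C)
    (hC : ∀ n q c : ℕ, 1 ≤ q → q ^ 2 ≤ bb (n / 2) →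
      ∑ p ∈ (PW n).filter (fun p => p % q = c % q), (1 : ℝ) / p ≤ C * n / q.totient)
    {n D τ B : ℕ} (α : ℕ) {Q : ℤ → ℤ → ℤ → ℤ} (hQ : Mode m b D Q)
    (hτ : τ.Prime) (hτ2 : τ ≠ 2) (hτm : ¬ (τ : ℤ) ∣ 3 * m * b)
    (hτB : ¬ (τ : ℤ) ∣ (D : ℤ) * (B : ℤ)) (hτs : τ ^ 2 ≤ bb (n / 2)) :
    ∑ p ∈ (PW n).filter (fun p : ℕ => (τ : ℤ) ∣ Q (α : ℤ) p B), (1 : ℝ) / (p : ℕ) ≤
      4 * C * n / τ := by
  have hτ3 : (3 : ℝ) ≤ τ := by
    have := hτ.two_le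
    have : 3 ≤ τ := by omega
    exact_mod_cast this
  set S := (range τ).filter (fun c : ℕ => (τ : ℤ) ∣ Q (α : ℤ) c B) with hS
  have hSc : S.card ≤ 2 := hQ.rp τ α B hτ hτ2 hτm hτB
  have h3 : ∑ p ∈ (PW n).filter (fun p : ℕ => (τ : ℤ) ∣ Q (α : ℤ) p B), (1 : ℝ) / (p : ℕ) ≤
      ∑ c ∈ S, ∑ p ∈ (PW n).filter (fun p => p % τ = c % τ), (1 : ℝ) / (p : ℕ) := by
    have e1 : ∑ c ∈ S, ∑ p ∈ (PW n).filter (fun p => p % τ = c % τ), (1 : ℝ) / (p : ℕ) =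
        ∑ p ∈ PW n, ∑ c ∈ S, if p % τ = c % τ then (1 : ℝ) / (p : ℕ) else 0 := by
      rw [sum_comm]
      apply sum_congr rfl
      intro c _
      rw [sum_filter]
    rw [e1, sum_filter]
    apply sum_le_sum
    intro p _
    have hnn : ∀ c ∈ S, (0 : ℝ) ≤ if p % τ = c % τ then (1 : ℝ) / (p : ℕ) else 0 := by
      intro c _; split_ifs <;> positivity
    by_cases hp : (τ : ℤ) ∣ Q (α : ℤ) p B
    · rw [if_pos hp]
      have hmem : p % τ ∈ S := by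
        rw [hS, mem_filter, mem_range]
        refine ⟨Nat.mod_lt _ hτ.pos, ?_⟩
        have hper := hQ.per (τ : ℤ) (α : ℤ) (α : ℤ) (p : ℤ) ((p % τ : ℕ) : ℤ) B (by simp)
          (by
            have h3 : (τ : ℤ) * ((p / τ : ℕ) : ℤ) + ((p % τ : ℕ) : ℤ) = p := by
              exact_mod_cast Nat.div_add_mod p τ
            exact ⟨((p / τ : ℕ) : ℤ), by linarith⟩)
        exact (Int.dvd_iff_dvd_of_dvd_sub hper).mp hp
      refine le_trans (le_of_eq ?_) (single_le_sum hnn hmem)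
      rw [if_pos (Nat.mod_mod _ _).symm]
    · rw [if_neg hp]
      exact sum_nonneg hnn
  have h4 : ∑ c ∈ S, ∑ p ∈ (PW n).filter (fun p => p % τ = c % τ), (1 : ℝ) / (p : ℕ) ≤
      2 * (C * n / τ.totient) := by
    calc _ ≤ ∑ c ∈ S, C * n / τ.totient :=
          sum_le_sum (fun c _ => hC n τ c hτ.one_lt.le hτs)
      _ = S.card * (C * n / τ.totient) := by rw [sum_const, nsmul_eq_mul]
      _ ≤ 2 * (C * n / τ.totient) := by
          apply mul_le_mul_of_nonneg_right (by exact_mod_cast hSc)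
          positivity
  have h5 : C * n / (τ.totient : ℝ) ≤ 2 * C * n / τ := by
    rw [Nat.totient_prime hτ, Nat.cast_sub hτ.one_lt.le, Nat.cast_one]
    rw [div_le_div_iff₀ (by linarith) (by linarith)]
    have : (0 : ℝ) ≤ C * n := by positivity
    nlinarith
  calc _ ≤ _ := h3
    _ ≤ _ := h4
    _ ≤ 2 * (2 * C * n / τ) := by linarith
    _ = 4 * C * n / τ := by ring

lemma ot_mu {m b : ℤ} {C : ℝ} (hC0 : 0 ≤ C)
    (hC : ∀ n q c : ℕ, 1 ≤ q → q ^ 2 ≤ bb (n / 2) →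
      ∑ p ∈ (PW n).filter (fun p => p % q = c % q), (1 : ℝ) / p ≤ C * n / q.totient)
    {n K D τ : ℕ} (α : ℕ) {Q : ℤ → ℤ → ℤ → ℤ} (hQ : Mode m b D Q)
    (hτ : τ.Prime) (hτ2 : τ ≠ 2) (hτm : ¬ (τ : ℤ) ∣ 3 * m * b)
    (hτB : ∀ B ∈ Icc 1 K, ¬ (τ : ℤ) ∣ (D : ℤ) * (B : ℤ)) (hτs : τ ^ 2 ≤ bb (n / 2)) :
    ∑ x ∈ otI n K τ α Q, ((2 : ℕ) : ℝ) / (x.2 : ℕ) ≤ 8 * K * C * n / τ := by
  have h1 : ∑ x ∈ otI n K τ α Q, ((2 : ℕ) : ℝ) / (x.2 : ℕ) = ∑ B ∈ Icc 1 K,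
      2 * ∑ p ∈ (PW n).filter (fun p : ℕ => (τ : ℤ) ∣ Q (α : ℤ) p B), (1 : ℝ) / (p : ℕ) := by
    rw [otI, sum_filter, sum_product]
    apply sum_congr rfl
    intro B _
    rw [sum_filter, mul_sum]
    apply sum_congr rfl
    intro p _
    split_ifs
    · push_cast; ring
    · ring
  rw [h1]
  calc _ ≤ ∑ B ∈ Icc 1 K, 2 * (4 * C * n / τ) :=
        sum_le_sum (fun B hB => mul_le_mul_of_nonneg_left
          (ot_musum hC0 hC α hQ hτ hτ2 hτm (hτB B hB) hτs) (by norm_num))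
    _ = 8 * K * C * n / τ := by
      rw [sum_const, nsmul_eq_mul, Nat.card_Icc, Nat.add_sub_cancel]; ring

lemma ot_card (n K τ α : ℕ) (Q : ℤ → ℤ → ℤ → ℤ) :
    ∑ _x ∈ otI n K τ α Q, (((2 : ℕ) : ℝ)) ≤ 2 * K * bb (3 * n / 4) := by
  rw [sum_const, nsmul_eq_mul]
  have h1 : (otI n K τ α Q).card ≤ K * bb (3 * n / 4) := by
    calc (otI n K τ α Q).card ≤ ((Icc 1 K) ×ˢ (PW n)).card := card_filter_le _ _
      _ = K * (PW n).card := by rw [card_product, Nat.card_Icc, Nat.add_sub_cancel]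
      _ ≤ K * bb (3 * n / 4) := by
        apply Nat.mul_le_mul_left
        unfold PW
        refine le_trans (card_filter_le _ _) ?_
        rw [Nat.card_Ioc]; exact Nat.sub_le _ _
  have h2 : ((otI n K τ α Q).card : ℝ) ≤ K * bb (3 * n / 4) := by exact_mod_cast h1
  push_cast
  linarith

/-- the event `p ∣ F(α + τ t - D B, b)` -/
def otE (m b : ℤ) (D τ α : ℕ) (x : ℕ × ℕ) (t : ℕ) : Prop :=
  (x.2 : ℤ) ∣ F m (((α + τ * t : ℕ) : ℤ) - D * x.1) b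

lemma ot_core {m b : ℤ} (hm : 0 < m) (hb : 0 < b) {C : ℝ} (hC0 : 0 ≤ C)
    (hC : ∀ n q c : ℕ, 1 ≤ q → q ^ 2 ≤ bb (n / 2) →
      ∑ p ∈ (PW n).filter (fun p => p % q = c % q), (1 : ℝ) / p ≤ C * n / q.totient)
    {n K D k τ : ℕ} (N α : ℕ) {Q : ℤ → ℤ → ℤ → ℤ} (hQ : Mode m b D Q) (hD : 1 ≤ D)
    (hτ : τ.Prime) (hτ2 : τ ≠ 2) (hτm : ¬ (τ : ℤ) ∣ 3 * m * b)
    (hτB : ∀ B ∈ Icc 1 K, ¬ (τ : ℤ) ∣ (D : ℤ) * (B : ℤ)) (hτs : τ ^ 2 ≤ bb (n / 2))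
    (hsize : ((D * K : ℕ) : ℤ) ^ 2 + 3 * m ^ 2 * b ^ 2 < bb (n / 2))
    (hmb : 3 * m * b < bb (n / 2)) :
    (((range N).filter (fun t : ℕ => k ≤ ((Icc 1 K).filter (fun B : ℕ => ∃ p ∈ PW n,
        (p : ℤ) ∣ F m (((α + τ * t : ℕ) : ℤ) - D * B) b ∧
        (τ : ℤ) ∣ Q ((α + τ * t : ℕ) : ℤ) p B)).card)).card : ℝ) ≤
      N * (8 * K * C * n / τ) ^ k + (2 * K * bb (3 * n / 4) : ℝ) ^ k := by
  have hlarge : ∀ p ∈ PW n, ¬ (p : ℤ) ∣ 3 * m * b := by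
    intro p hp hd
    have h1 := Int.le_of_dvd (by positivity) hd
    have h2 := (ot_PW hp).2.1
    have h3 : (bb (n / 2) : ℤ) < p := by exact_mod_cast h2
    linarith
  have hneτ : ∀ p ∈ PW n, ¬ (p : ℤ) ∣ (τ : ℤ) := by
    intro p hp hd
    have h1 := Nat.le_of_dvd hτ.pos (Int.natCast_dvd_natCast.mp hd)
    have h2 := (ot_PW hp).2.1
    have h3 : τ ≤ τ ^ 2 := Nat.le_self_pow (by norm_num) _
    omega
  have key := bm (otI n K τ α Q) (fun x => x.2) (fun _ => 2)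
    (otE m b D τ α)
    (fun x hx => (ot_PW (ot_mem hx).2.1).1.pos)
    (fun x _ t => ot_per m b D x.1 x.2 τ α t)
    (fun x hx => le_trans (le_of_eq (congrArg Finset.card (by
        ext t; simp only [mem_filter, otE])))
      (ot_two D x.1 τ α (ot_PW (ot_mem hx).2.1).1 (hlarge _ (ot_mem hx).2.1)
      (hneτ _ (ot_mem hx).2.1))) k N
  have hfac : (1 : ℝ) ≤ (k.factorial : ℝ) := by exact_mod_cast k.factorial_pos
  have hμ0 : (0 : ℝ) ≤ ∑ x ∈ otI n K τ α Q, ((2 : ℕ) : ℝ) / (x.2 : ℕ) :=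
    sum_nonneg (fun _ _ => by positivity)
  have hc0 : (0 : ℝ) ≤ ∑ _x ∈ otI n K τ α Q, (((2 : ℕ) : ℝ)) :=
    sum_nonneg (fun _ _ => by positivity)
  have hp1 := pow_le_pow_left₀ hμ0 (ot_mu hC0 hC α hQ hτ hτ2 hτm hτB hτs) k
  have hp2 := pow_le_pow_left₀ hc0 (ot_card n K τ α Q) k
  have hN : (0 : ℝ) ≤ N := Nat.cast_nonneg _
  refine le_trans ?_ (le_trans key (add_le_add (mul_le_mul_of_nonneg_left hp1 hN) hp2))
  refine le_trans ?_ (le_mul_of_one_le_left (sum_nonneg (fun _ _ => Nat.cast_nonneg _)) hfac)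
  rw [card_eq_sum_ones, Nat.cast_sum, sum_filter]
  apply sum_le_sum
  intro t _
  by_cases h : k ≤ ((Icc 1 K).filter (fun B : ℕ => ∃ p ∈ PW n,
      (p : ℤ) ∣ F m (((α + τ * t : ℕ) : ℤ) - D * B) b ∧
      (τ : ℤ) ∣ Q ((α + τ * t : ℕ) : ℤ) p B)).card
  · rw [if_pos h, Nat.cast_one]
    obtain ⟨J, hJ1, hJ2⟩ := ot_exists hm hb α hQ hD hsize t h
    rw [← Nat.cast_one (R := ℝ)]
    apply Nat.cast_le.mpr
    exact card_pos.mpr ⟨J, by simp only [mem_filter]; exact ⟨hJ1, hJ2⟩⟩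
  · rw [if_neg h]
    exact Nat.cast_nonneg _

lemma gr_lin (M s : ℕ) (hs : 1 ≤ s) : ∃ n0 : ℕ, ∀ n ≥ n0, M * n ≤ 2 ^ (n / s) := by
  refine ⟨s * (4 * M * s + 2), fun n hn => ?_⟩
  set u := n / s with hu
  have h1 : 4 * M * s + 2 ≤ u := by
    rw [hu, Nat.le_div_iff_mul_le (by omega)]
    linarith
  have h2 : n < s * (u + 1) := by
    have := Nat.lt_mul_div_succ n (by omega : 0 < s)
    simpa using this
  have h3 : u / 2 < 2 ^ (u / 2) := Nat.lt_two_pow_self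
  have h4 : u + 1 ≤ 2 * 2 ^ (u / 2) := by omega
  have h5' : 4 * M * s = 2 * (2 * M * s) := by ring
  have h5 : 2 * M * s ≤ 2 ^ (u / 2) := by omega
  have h6 : 2 ^ (u / 2) * 2 ^ (u / 2) ≤ 2 ^ u := by
    rw [← pow_add]; exact Nat.pow_le_pow_right (by norm_num) (by omega)
  calc M * n ≤ M * (s * (u + 1)) := Nat.mul_le_mul_left _ h2.le
    _ ≤ M * (s * (2 * 2 ^ (u / 2))) :=
        Nat.mul_le_mul_left _ (Nat.mul_le_mul_left _ h4)
    _ = 2 * M * s * 2 ^ (u / 2) := by ring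
    _ ≤ 2 ^ (u / 2) * 2 ^ (u / 2) := Nat.mul_le_mul_right _ h5
    _ ≤ 2 ^ u := h6

lemma gr_main (k c κ s : ℕ) : ∃ n0 : ℕ, ∀ n ≥ n0,
    2 * 2 ^ (n / 2 - 3) + k * (1 + (n / s + c) + 2 ^ (3 * n / 4)) + (κ * n + 1) ≤ 2 ^ n := by
  refine ⟨4 * (3 + k * (6 + c) + 4 * κ) + 4, fun n hn => ?_⟩
  set w := 3 * n / 4 with hw
  have h1 : w < 2 ^ w := Nat.lt_two_pow_self
  have h2 : n ≤ 4 * 2 ^ w := by omega
  have h3 : n / s ≤ 4 * 2 ^ w := le_trans (Nat.div_le_self _ _) h2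
  have h4 : 2 ^ (n / 2 - 3) ≤ 2 ^ w := Nat.pow_le_pow_right (by norm_num) (by omega)
  have h5 : 1 ≤ 2 ^ w := Nat.one_le_two_pow
  have h6 : 3 + k * (6 + c) + 4 * κ ≤ n - w := by omega
  have h7 : 3 + k * (6 + c) + 4 * κ ≤ 2 ^ (n - w) :=
    le_trans h6 (Nat.lt_two_pow_self).le
  have h8 : 2 ^ (n - w) * 2 ^ w = 2 ^ n := by
    rw [← pow_add]; congr 1; omega
  have h9 : k * (1 + (n / s + c) + 2 ^ w) ≤ k * ((6 + c) * 2 ^ w) := by
    apply Nat.mul_le_mul_left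
    nlinarith
  have h10 : κ * n ≤ κ * (4 * 2 ^ w) := Nat.mul_le_mul_left _ h2
  calc _ ≤ 2 * 2 ^ w + k * ((6 + c) * 2 ^ w) + (κ * (4 * 2 ^ w) + 2 ^ w) := by
        gcongr
    _ = (3 + k * (6 + c) + 4 * κ) * 2 ^ w := by ring
    _ ≤ 2 ^ (n - w) * 2 ^ w := Nat.mul_le_mul_right _ h7
    _ = 2 ^ n := h8

theorem one_tau (m b : ℤ) (hm : 0 < m) (hb : 0 < b) (h2 : (2 : ℤ) ∣ m) (s κ C0 : ℕ)
    (hs : 16 ≤ s) :
    ∃ k2 : ℕ, ∀ c : ℕ, ∃ n0 : ℕ, ∀ n ≥ n0, ∀ j : ℕ, 2 ^ n ≤ j → j < 2 ^ (n + 1) →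
    ∀ D : ℕ, 1 ≤ D → D ≤ 2 ^ (C0 * n) → ∀ Q : ℤ → ℤ → ℤ → ℤ, Mode m b D Q →
    (((Icc 1 (2 ^ j)).filter (fun a : ℕ => ∃ τ : ℕ, τ.Prime ∧ Tn s n < τ ∧
      τ ≤ bb (n / 2 - 3) ∧ ¬ τ ∣ D ∧
      k2 ≤ ((Icc 1 (2 ^ (n / s + c))).filter (fun B : ℕ => ∃ p ∈ PW n,
        (p : ℤ) ∣ F m (a - D * B) b ∧ (τ : ℤ) ∣ Q a p B)).card)).card : ℝ) ≤
      2 ^ j / 2 ^ (κ * n) := by
  obtain ⟨C, hC1, hC⟩ := bt_window
  set k := s * (κ + 2) + 4 with hk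
  refine ⟨k, fun c => ?_⟩
  obtain ⟨n1, hn1⟩ := gr_lin ((3 * m * b).toNat + ⌈8 * 2 ^ c * C⌉₊ + c + 3) s (by omega)
  obtain ⟨n2, hn2⟩ := gr_main k c κ s
  obtain ⟨n3, hn3⟩ := gr_lin (2 * C0 + 2 + 2 * c + (3 * m ^ 2 * b ^ 2).toNat + 2) 2 (by norm_num)
  refine ⟨n1 + n2 + n3 + 2 * s + 4 + s * (c + 1), fun n hn j hj1 hj2 D hD hDC Q hQ => ?_⟩
  have g1 := hn1 n (by omega)
  have g2 := hn2 n (by omega)
  have g3 := hn3 n (by omega)
  set u := n / s with hu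
  have hn0 : 1 ≤ n := by omega
  set M1 := (3 * m * b).toNat with hM1
  set M2 := ⌈8 * 2 ^ c * C⌉₊ with hM2
  set M3 := (3 * m ^ 2 * b ^ 2).toNat with hM3
  have hM1' : (M1 : ℤ) = 3 * m * b := Int.toNat_of_nonneg (by positivity)
  have hM3' : (M3 : ℤ) = 3 * m ^ 2 * b ^ 2 := Int.toNat_of_nonneg (by positivity)
  have g1' : M1 + M2 * n + c + 3 ≤ 2 ^ u := by
    refine le_trans ?_ g1
    have a1 : M1 * 1 ≤ M1 * n := Nat.mul_le_mul_left _ hn0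
    have a2 : c * 1 ≤ c * n := Nat.mul_le_mul_left _ hn0
    linarith
  have hus : n ≤ 2 * u * s := by
    have h3 : n < s * (u + 1) := by
      have := Nat.lt_mul_div_succ n (by omega : 0 < s)
      simpa using this
    have h4 : s * (u + 1) = u * s + s := by ring
    have h5 : 2 * u * s = u * s + u * s := by ring
    have h6 : s ≤ u * s := by
      have : 1 ≤ u := by
        rw [hu, Nat.one_le_div_iff (by omega)]; omega
      nlinarith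
    omega
  have hu1 : 1 ≤ u := by
    rw [hu, Nat.one_le_div_iff (by omega)]; omega
  have hcu : c + 1 ≤ u := by
    rw [hu, Nat.le_div_iff_mul_le (by omega)]
    have : (c + 1) * s = s * (c + 1) := by ring
    omega
  set K := 2 ^ (u + c) with hK
  set T := Tn s n with hT
  have hTu : T = 2 ^ (4 * u) := rfl
  have hKT : K ≤ T := by
    rw [hTu, hK]; exact Nat.pow_le_pow_right (by norm_num) (by omega)
  have hT2 : 2 ≤ T := by
    rw [hTu]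
    calc 2 = 2 ^ 1 := by norm_num
      _ ≤ 2 ^ (4 * u) := Nat.pow_le_pow_right (by norm_num) (by omega)
  have hM1T : M1 < T := by
    have h3 : 2 ^ u ≤ 2 ^ (4 * u) := Nat.pow_le_pow_right (by norm_num) (by omega)
    rw [hTu]; omega
  -- sizes
  have hDK : D * K ≤ 2 ^ (C0 * n + n + c) := by
    calc D * K ≤ 2 ^ (C0 * n) * 2 ^ (u + c) := Nat.mul_le_mul_right _ hDC
      _ = 2 ^ (C0 * n + (u + c)) := by rw [← pow_add]
      _ ≤ 2 ^ (C0 * n + n + c) := Nat.pow_le_pow_right (by norm_num) (by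
          have : u ≤ n := Nat.div_le_self _ _
          omega)
  have hsizeN : (D * K) ^ 2 + M3 < bb (n / 2) := by
    have h3 : (D * K) ^ 2 ≤ 2 ^ (2 * (C0 * n + n + c)) := by
      calc (D * K) ^ 2 ≤ (2 ^ (C0 * n + n + c)) ^ 2 := Nat.pow_le_pow_left hDK 2
        _ = 2 ^ (2 * (C0 * n + n + c)) := by rw [← pow_mul]; congr 1; ring
    have h4 : M3 < 2 ^ M3 := Nat.lt_two_pow_self
    have h5 : 2 ^ (2 * (C0 * n + n + c)) ≤ 2 ^ (2 * (C0 * n + n + c) + M3) :=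
      Nat.pow_le_pow_right (by norm_num) (by omega)
    have h6 : 2 ^ M3 ≤ 2 ^ (2 * (C0 * n + n + c) + M3) :=
      Nat.pow_le_pow_right (by norm_num) (by omega)
    have h7 : 2 ^ (2 * (C0 * n + n + c) + M3 + 1) ≤ bb (n / 2) := by
      unfold Pool.Agent.H95.Gol.bb
      apply Nat.pow_le_pow_right (by norm_num)
      refine le_trans ?_ g3
      have a1 : M3 * 1 ≤ M3 * n := Nat.mul_le_mul_left _ hn0
      have a2 : c * 1 ≤ c * n := Nat.mul_le_mul_left _ hn0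
      nlinarith
    have h8 : 2 ^ (2 * (C0 * n + n + c) + M3 + 1) = 2 * 2 ^ (2 * (C0 * n + n + c) + M3) := by
      rw [pow_succ]; ring
    omega
  have hsize : ((D * K : ℕ) : ℤ) ^ 2 + 3 * m ^ 2 * b ^ 2 < bb (n / 2) := by
    rw [← hM3']; exact_mod_cast hsizeN
  have hmb1 : 1 ≤ m * b := by
    have := mul_pos hm hb; omega
  have hmb : 3 * m * b < bb (n / 2) := by
    have h3 : 3 * m * b ≤ 3 * m ^ 2 * b ^ 2 := by nlinarith
    have h4 : (0 : ℤ) ≤ ((D * K : ℕ) : ℤ) ^ 2 := by positivity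
    linarith
  -- the small quantity `X = 8 K C n`
  have hX : 8 * (K : ℝ) * C * n ≤ 2 ^ (2 * u) := by
    have h3 : 8 * 2 ^ c * C ≤ (M2 : ℝ) := Nat.le_ceil _
    have h4 : (M2 : ℝ) * n ≤ 2 ^ u := by
      have : M2 * n ≤ 2 ^ u := by omega
      exact_mod_cast this
    have h5 : (K : ℝ) = 2 ^ u * 2 ^ c := by rw [hK]; push_cast; rw [pow_add]
    have h6 : (0 : ℝ) ≤ n := Nat.cast_nonneg _
    calc 8 * (K : ℝ) * C * n = 2 ^ u * ((8 * 2 ^ c * C) * n) := by rw [h5]; ring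
      _ ≤ 2 ^ u * (M2 * n) := by gcongr
      _ ≤ 2 ^ u * 2 ^ u := by gcongr
      _ = 2 ^ (2 * u) := by rw [← pow_add]; congr 1; ring
  have hX0 : 0 ≤ 8 * (K : ℝ) * C * n := by positivity
  set R := bb (n / 2 - 3) with hR
  have hRj : R ≤ 2 ^ j := by
    rw [hR]; unfold Pool.Agent.H95.Gol.bb
    apply Nat.pow_le_pow_right (by norm_num)
    refine le_trans (Nat.pow_le_pow_right (by norm_num) (by omega)) hj1
  have hRs : R ^ 2 ≤ bb (n / 2) := by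
    rw [hR, ← bb_succ]
    exact bb_mono (by omega)
  set S := (Ioc T R).filter (fun τ : ℕ => τ.Prime ∧ ¬ τ ∣ D) with hS
  set W : ℝ := 2 * K * bb (3 * n / 4) with hW
  have hW0 : 0 ≤ W := by positivity
  set Gd : ℕ → ℕ → Finset ℕ := fun τ α => (range (2 ^ j / τ + 1)).filter
    (fun t : ℕ => k ≤ ((Icc 1 K).filter (fun B : ℕ => ∃ p ∈ PW n,
        (p : ℤ) ∣ F m (((α + τ * t : ℕ) : ℤ) - D * B) b ∧
        (τ : ℤ) ∣ Q ((α + τ * t : ℕ) : ℤ) p B)).card) with hGd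
  have hsub : (Icc 1 (2 ^ j)).filter (fun a : ℕ => ∃ τ : ℕ, τ.Prime ∧ T < τ ∧
      τ ≤ R ∧ ¬ τ ∣ D ∧
      k ≤ ((Icc 1 K).filter (fun B : ℕ => ∃ p ∈ PW n,
        (p : ℤ) ∣ F m (a - D * B) b ∧ (τ : ℤ) ∣ Q a p B)).card) ⊆
      S.biUnion (fun τ => (range τ).biUnion (fun α => (Gd τ α).image (fun t => α + τ * t))) := by
    intro a ha
    rw [mem_filter, mem_Icc] at ha
    obtain ⟨⟨ha1, ha2⟩, τ, hτ, hτ1, hτ2, hτ3, hτ4⟩ := ha
    rw [mem_biUnion]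
    refine ⟨τ, by rw [hS, mem_filter, mem_Ioc]; exact ⟨⟨hτ1, hτ2⟩, hτ, hτ3⟩, ?_⟩
    rw [mem_biUnion]
    refine ⟨a % τ, mem_range.mpr (Nat.mod_lt _ hτ.pos), ?_⟩
    rw [mem_image]
    have he : a % τ + τ * (a / τ) = a := Nat.mod_add_div a τ
    refine ⟨a / τ, ?_, he⟩
    rw [hGd]
    simp only [mem_filter, mem_range]
    refine ⟨Nat.lt_succ_of_le (Nat.div_le_div_right ha2), ?_⟩
    rw [he]
    exact hτ4
  have hcard : (((Icc 1 (2 ^ j)).filter (fun a : ℕ => ∃ τ : ℕ, τ.Prime ∧ T < τ ∧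
      τ ≤ R ∧ ¬ τ ∣ D ∧
      k ≤ ((Icc 1 K).filter (fun B : ℕ => ∃ p ∈ PW n,
        (p : ℤ) ∣ F m (a - D * B) b ∧ (τ : ℤ) ∣ Q a p B)).card)).card : ℝ) ≤
      ∑ τ ∈ S, ∑ α ∈ range τ, ((Gd τ α).card : ℝ) := by
    have h3 : ((Icc 1 (2 ^ j)).filter (fun a : ℕ => ∃ τ : ℕ, τ.Prime ∧ T < τ ∧
      τ ≤ R ∧ ¬ τ ∣ D ∧
      k ≤ ((Icc 1 K).filter (fun B : ℕ => ∃ p ∈ PW n,
        (p : ℤ) ∣ F m (a - D * B) b ∧ (τ : ℤ) ∣ Q a p B)).card)).card ≤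
      ∑ τ ∈ S, ∑ α ∈ range τ, (Gd τ α).card := by
      refine le_trans (card_le_card hsub) ?_
      refine le_trans card_biUnion_le (sum_le_sum fun τ _ => ?_)
      refine le_trans card_biUnion_le (sum_le_sum fun α _ => ?_)
      exact card_image_le
    exact_mod_cast h3
  refine le_trans hcard ?_
  have hterm : ∀ τ ∈ S, ∑ α ∈ range τ, ((Gd τ α).card : ℝ) ≤
      2 * 2 ^ j / 2 ^ ((κ + 2) * n) * ((τ : ℝ) ^ 2)⁻¹ + R * W ^ k := by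
    intro τ hτS
    rw [hS, mem_filter, mem_Ioc] at hτS
    obtain ⟨⟨hτ1, hτ2⟩, hτp, hτD⟩ := hτS
    have hτpos : (0 : ℝ) < τ := by exact_mod_cast hτp.pos
    have hone : ∀ α ∈ range τ, ((Gd τ α).card : ℝ) ≤
        ((2 ^ j / τ + 1 : ℕ) : ℝ) * (8 * K * C * n / τ) ^ k + W ^ k := by
      intro α _
      have := ot_core (k := k) hm hb (by linarith : (0 : ℝ) ≤ C) hC (2 ^ j / τ + 1) α hQ hD hτp
        (by omega) ?_ ?_ ?_ hsize hmb
      · exact this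
      · intro hd
        have h3 := Int.le_of_dvd (by positivity) hd
        rw [← hM1'] at h3
        have h4 : τ ≤ M1 := by exact_mod_cast h3
        omega
      · intro B hB hd
        rw [mem_Icc] at hB
        have hd' : τ ∣ D * B := by exact_mod_cast hd
        rcases hτp.dvd_mul.mp hd' with h | h
        · exact hτD h
        · have := Nat.le_of_dvd (by omega) h
          omega
      · exact le_trans (Nat.pow_le_pow_left hτ2 2) hRs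
    have hN : (τ : ℝ) * ((2 ^ j / τ + 1 : ℕ) : ℝ) ≤ 2 * 2 ^ j := by
      have h3 : τ * (2 ^ j / τ + 1) ≤ 2 * 2 ^ j := by
        have h4 : τ * (2 ^ j / τ) ≤ 2 ^ j := Nat.mul_div_le _ _
        rw [mul_add, mul_one]; omega
      exact_mod_cast h3
    have hpow : (8 * (K : ℝ) * C * n / τ) ^ k ≤ 1 / 2 ^ ((κ + 2) * n) * ((τ : ℝ) ^ 2)⁻¹ := by
      have h3 : (8 * (K : ℝ) * C * n) ^ k ≤ (2 ^ (2 * u)) ^ k := pow_le_pow_left₀ hX0 hX k
      have h4 : ((T : ℝ)) ^ (k - 2) * (τ : ℝ) ^ 2 ≤ (τ : ℝ) ^ k := by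
        have h5 : (T : ℝ) ≤ τ := by exact_mod_cast hτ1.le
        calc (T : ℝ) ^ (k - 2) * (τ : ℝ) ^ 2 ≤ (τ : ℝ) ^ (k - 2) * (τ : ℝ) ^ 2 := by gcongr
          _ = (τ : ℝ) ^ k := by rw [← pow_add, Nat.sub_add_cancel (by omega)]
      have h6 : (T : ℝ) = 2 ^ (4 * u) := by rw [hTu]; push_cast; rfl
      have h7 : (2 ^ (2 * u) : ℝ) ^ k * 2 ^ ((κ + 2) * n) ≤ (T : ℝ) ^ (k - 2) := by
        rw [h6, ← pow_mul, ← pow_mul, ← pow_add]
        apply pow_le_pow_right₀ (by norm_num)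
        have e1 : k - 2 = s * (κ + 2) + 2 := by omega
        rw [e1, hk]
        have e2 : (κ + 2) * n ≤ (κ + 2) * (2 * u * s) := Nat.mul_le_mul_left _ hus
        nlinarith
      rw [div_pow]
      have hTpos : (0 : ℝ) < T := by exact_mod_cast (by omega : 0 < T)
      rw [div_le_iff₀ (by positivity), div_mul_eq_mul_div, one_mul, div_mul_eq_mul_div,
        le_div_iff₀ (by positivity)]
      calc (8 * (K : ℝ) * C * n) ^ k * 2 ^ ((κ + 2) * n)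
          ≤ (2 ^ (2 * u)) ^ k * 2 ^ ((κ + 2) * n) := by gcongr
        _ ≤ (T : ℝ) ^ (k - 2) := h7
        _ = ((τ : ℝ) ^ 2)⁻¹ * ((T : ℝ) ^ (k - 2) * (τ : ℝ) ^ 2) := by
            field_simp
        _ ≤ ((τ : ℝ) ^ 2)⁻¹ * (τ : ℝ) ^ k := by gcongr
    have hτR : (τ : ℝ) ≤ R := by exact_mod_cast hτ2
    calc ∑ α ∈ range τ, ((Gd τ α).card : ℝ)
        ≤ ∑ α ∈ range τ, (((2 ^ j / τ + 1 : ℕ) : ℝ) * (8 * K * C * n / τ) ^ k + W ^ k) :=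
          sum_le_sum hone
      _ = (τ * ((2 ^ j / τ + 1 : ℕ) : ℝ)) * (8 * K * C * n / τ) ^ k + τ * W ^ k := by
          rw [sum_const, card_range, nsmul_eq_mul]; ring
      _ ≤ (2 * 2 ^ j) * (1 / 2 ^ ((κ + 2) * n) * ((τ : ℝ) ^ 2)⁻¹) + R * W ^ k := by
          gcongr
      _ = 2 * 2 ^ j / 2 ^ ((κ + 2) * n) * ((τ : ℝ) ^ 2)⁻¹ + R * W ^ k := by ring
  refine le_trans (sum_le_sum hterm) ?_
  rw [sum_add_distrib, ← mul_sum, sum_const, nsmul_eq_mul]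
  have hsum1 : ∑ τ ∈ S, ((τ : ℝ) ^ 2)⁻¹ ≤ 1 := by
    have h3 : S ⊆ Ioo T (R + 1) := by
      intro x hx
      rw [hS, mem_filter, mem_Ioc] at hx
      rw [mem_Ioo]; omega
    refine le_trans (sum_le_sum_of_subset_of_nonneg h3 (fun _ _ _ => by positivity)) ?_
    refine le_trans (sum_Ioo_inv_sq_le T (R + 1)) ?_
    have h4 : (2 : ℝ) ≤ T := by exact_mod_cast hT2
    rw [div_le_one (by linarith)]
    linarith
  have hSc : (S.card : ℝ) ≤ R := by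
    have : S.card ≤ R := by
      rw [hS]
      refine le_trans (card_filter_le _ _) ?_
      rw [Nat.card_Ioc]; exact Nat.sub_le _ _
    exact_mod_cast this
  have hfirst : 2 * (2 : ℝ) ^ j / 2 ^ ((κ + 2) * n) * ∑ τ ∈ S, ((τ : ℝ) ^ 2)⁻¹ ≤
      2 ^ j / 2 ^ (κ * n) / 2 := by
    have h3 : (0 : ℝ) ≤ 2 * (2 : ℝ) ^ j / 2 ^ ((κ + 2) * n) := by positivity
    refine le_trans (mul_le_of_le_one_right h3 hsum1) ?_
    have h4 : (4 : ℝ) ≤ 2 ^ (2 * n) := by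
      calc (4 : ℝ) = 2 ^ 2 := by norm_num
        _ ≤ 2 ^ (2 * n) := pow_le_pow_right₀ (by norm_num) (by omega)
    have h5 : (2 : ℝ) ^ ((κ + 2) * n) = 2 ^ (κ * n) * 2 ^ (2 * n) := by
      rw [← pow_add]; congr 1; ring
    rw [h5, div_div, div_le_div_iff₀ (by positivity) (by positivity)]
    have h6 : (0 : ℝ) < 2 ^ (κ * n) := by positivity
    have h7 : (0 : ℝ) < 2 ^ j := by positivity
    have h8 : 0 < (2 : ℝ) ^ j * 2 ^ (κ * n) := by positivity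
    nlinarith
  have hsecond : (S.card : ℝ) * (R * W ^ k) ≤ 2 ^ j / 2 ^ (κ * n) / 2 := by
    have h3 : (S.card : ℝ) * (R * W ^ k) ≤ R * (R * W ^ k) := by gcongr
    refine le_trans h3 ?_
    rw [div_div, le_div_iff₀ (by positivity)]
    have hRr : (R : ℝ) = 2 ^ (2 ^ (n / 2 - 3)) := by
      rw [hR]; unfold Pool.Agent.H95.Gol.bb; push_cast; rfl
    have hWr : W = 2 ^ (1 + (u + c) + 2 ^ (3 * n / 4)) := by
      have e0 : (2 : ℝ) ^ (1 + (u + c)) = 2 * (2 ^ u * 2 ^ c) := by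
        rw [pow_add, pow_add, pow_one]
      rw [hW, hK]; unfold Pool.Agent.H95.Gol.bb; push_cast
      rw [pow_add _ (1 + (u + c)), e0, pow_add]
    have e1 : (R : ℝ) * (R * W ^ k) * (2 ^ (κ * n) * 2) =
        2 ^ (2 * 2 ^ (n / 2 - 3) + k * (1 + (u + c) + 2 ^ (3 * n / 4)) + (κ * n + 1)) := by
      rw [hRr, hWr]
      rw [← pow_mul]
      rw [pow_add _ (2 * 2 ^ (n / 2 - 3) + _) (κ * n + 1), pow_add _ (2 * 2 ^ (n / 2 - 3)),
        pow_add _ (κ * n) 1, two_mul (2 ^ (n / 2 - 3)), pow_add _ (2 ^ (n / 2 - 3)),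
        mul_comm k]
      ring
    rw [e1]
    exact pow_le_pow_right₀ (by norm_num) (le_trans g2 hj1)
  linarith

end Pool.Agent.H48.SF
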