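import Pool.Agent.H48.SF.Cert

/-!
One pair certificate without obstacles gives `H g m a b = H g m x 1`.
-/

set_option autoImplicit false

namespace Pool.Agent.H48.SF

open Finset Classical
open Pool.Agent.H95.Gol (bb PB)
open Pool.Agent.H41.Per (PM)
open Pool.Agent.H48.AP (F H Vx Sparse oddCount)

lemma ps_fpos (k : ℤ) : 0 < f k := by
  unfold f
  by_cases h : 0 ≤ k
  · positivity
  · nlinarith [not_le.1 h]

lemma ps_f3 (k : ℤ) : ¬ (3 : ℤ) ∣ f k := by
  unfold f
  rintro ⟨c, hc⟩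
  omega

lemma ps_Fpos {m x y : ℤ} (hm : 0 < m) (hx : 0 < x) (hy : 0 < y) : 0 < F m x y := by
  unfold F; positivity

/-- `τ² ∣ u v` for a prime `τ` -/
lemma ps_sq_mul {τ : ℕ} (hτ : τ.Prime) {u v : ℤ} (h : (τ : ℤ) ^ 2 ∣ u * v) :
    (τ : ℤ) ^ 2 ∣ u ∨ (τ : ℤ) ^ 2 ∣ v ∨ ((τ : ℤ) ∣ u ∧ (τ : ℤ) ∣ v) := by
  have hp : Prime (τ : ℤ) := Nat.prime_iff_prime_int.1 hτ
  by_cases h1 : (τ : ℤ) ∣ u
  · by_cases h2 : (τ : ℤ) ∣ v
    · exact Or.inr (Or.inr ⟨h1, h2⟩)
    · left
      have hc : IsCoprime ((τ : ℤ) ^ 2) v :=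
        ((hp.coprime_iff_not_dvd).2 h2).pow_left
      exact hc.dvd_of_dvd_mul_right h
  · right; left
    have hc : IsCoprime ((τ : ℤ) ^ 2) u :=
      ((hp.coprime_iff_not_dvd).2 h1).pow_left
    exact hc.dvd_of_dvd_mul_left h

/-- a squarefree criterion -/
lemma ps_sqf {n : ℤ} (h : ∀ τ : ℕ, τ.Prime → ¬ (τ : ℤ) ^ 2 ∣ n) :
    Squarefree n.natAbs := by
  rw [Nat.squarefree_iff_prime_squarefree]
  intro τ hτ h2
  apply h τ hτ
  have : (τ * τ : ℕ) ∣ n.natAbs := h2
  have h3 := Int.natCast_dvd.2 this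
  rw [pow_two]
  exact_mod_cast h3

lemma ps_not_sq {n : ℤ} (h : Squarefree n.natAbs) {τ : ℕ} (hτ : τ.Prime) :
    ¬ (τ : ℤ) ^ 2 ∣ n := by
  intro h2
  have h3 : τ * τ ∣ n.natAbs := by
    rw [← Int.natCast_dvd]
    rw [pow_two] at h2
    exact_mod_cast h2
  have h4 := h τ h3
  exact hτ.one_lt.ne' (Nat.isUnit_iff.1 h4)

/-- the exact divisions -/
lemma ps_exact {m b : ℤ} (hb : 0 < b) {D B : ℕ} (hD : 1 ≤ D) {a x : ℤ}
    (hx : b * x = a - D * B) (hab : IsCoprime a b) (hDF : (D : ℤ) ∣ F m a b) :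
    (D : ℤ) * Uf m b D a = F m a b ∧ (D : ℤ) * U1 m b D B a = F m x 1 ∧
      b * D * Af m b D B a = (a + 3 * m * b) * (a - D * B) + 3 * m ^ 2 * b ^ 2 := by
  have hD0 : (D : ℤ) ≠ 0 := by positivity
  have hb0 : b ≠ 0 := hb.ne'
  have hcop : IsCoprime (D : ℤ) b := by
    have h1 : IsCoprime (a ^ 2 + b * (3 * m * a + 3 * m ^ 2 * b)) b :=
      (IsCoprime.pow_left hab).add_mul_left_left _
    have h2 : F m a b = a ^ 2 + b * (3 * m * a + 3 * m ^ 2 * b) := by unfold F; ring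
    rw [← h2] at h1
    exact h1.of_isCoprime_of_dvd_left hDF
  have hU : (D : ℤ) * Uf m b D a = F m a b := by
    unfold Uf; exact Int.mul_ediv_cancel' hDF
  have hFx : F m (a - D * B) b = b ^ 2 * F m x 1 := by
    rw [← hx]; unfold F; ring
  have hDx : (D : ℤ) ∣ F m x 1 := by
    have h1 : (D : ℤ) ∣ b ^ 2 * F m x 1 := by
      rw [← hFx]
      have h2 : F m (a - D * B) b = F m a b + D * (-(2 * a * B) + D * B ^ 2 - 3 * m * B * b) := by
        unfold F; ring
      rw [h2]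
      exact dvd_add hDF (dvd_mul_right _ _)
    exact (IsCoprime.pow_right (n := 2) hcop).dvd_of_dvd_mul_left h1
  obtain ⟨V, hV⟩ := hDx
  have hU1 : U1 m b D B a = V := by
    unfold U1
    rw [hFx, hV]
    have : b ^ 2 * ((D : ℤ) * V) = (b ^ 2 * D) * V := by ring
    rw [this]
    exact Int.mul_ediv_cancel_left _ (by positivity)
  have hbDN : b * (D : ℤ) ∣ (a + 3 * m * b) * (a - D * B) + 3 * m ^ 2 * b ^ 2 := by
    apply IsCoprime.mul_dvd hcop.symm
    · rw [← hx]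
      exact ⟨(a + 3 * m * b) * x + 3 * m ^ 2 * b, by ring⟩
    · obtain ⟨c, hc⟩ := hDF
      refine ⟨c - (a + 3 * m * b) * B, ?_⟩
      have : (a + 3 * m * b) * (a - D * B) + 3 * m ^ 2 * b ^ 2 =
          F m a b - D * ((a + 3 * m * b) * B) := by unfold F; ring
      rw [this, hc]; ring
  refine ⟨hU, ?_, ?_⟩
  · rw [hU1, hV]
  · unfold Af
    exact Int.mul_ediv_cancel' hbDN

/-- a good prime `p` without obstacles: the pair certificate -/
theorem pair_step {g : ℕ → ℤ} (hg : PM g) {m r b : ℤ} (hm : 0 < m) (hb : 0 < b)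
    (hsq : SqOK m r) {ε K : ℤ}
    (hc : ∀ k : ℤ, K ≤ k → m ∣ k - r → Squarefree (f k).natAbs → g (f k).natAbs = ε)
    {D B p : ℕ} {a x : ℤ} (hD : 1 ≤ D) (hB : 1 ≤ B) (hx : b * x = a - D * B) (hv : Vx m a b)
    (hx1 : 3 * m ∣ x - 1) (hDF : (D : ℤ) ∣ F m a b) (hx0 : 0 < x) (hxK : 3 * m * K ≤ x)
    (hU : Squarefree (Uf m b D a).natAbs) (hV : Squarefree (U1 m b D B a).natAbs)
    (hBU : IsCoprime (B : ℤ) (Uf m b D a)) (hp : p.Prime) (hpV : (p : ℤ) ∣ U1 m b D B a)
    {S : Finset ℕ} (hG : GoodP m r (Af m b D B a) B (U1 m b D B a) (Uf m b D a) S p)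
    (hO : ∀ τ : ℕ, τ.Prime → τ ∉ S → ¬ (τ : ℤ) ∣ 3 * m → ¬ Obs m b D (QP m b D) a B p τ) :
    H g m a b = H g m x 1 := by
  obtain ⟨hab, ham, ha3⟩ := hv
  obtain ⟨hDU, hDV, hDA⟩ := ps_exact (m := m) hb hD hx hab hDF
  set U : ℤ := Uf m b D a with hUdef
  set V : ℤ := U1 m b D B a with hVdef
  set A : ℤ := Af m b D B a with hAdef
  have hD0 : (0 : ℤ) < D := by exact_mod_cast hD
  have hB0 : (0 : ℤ) < B := by exact_mod_cast hB
  have hp0 : (0 : ℤ) < p := by exact_mod_cast hp.pos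
  have ha0 : 0 < a := by
    have h1 := mul_pos hb hx0
    have h2 := mul_pos hD0 hB0
    linarith
  have hpI : Prime (p : ℤ) := Nat.prime_iff_prime_int.1 hp
  obtain ⟨hA1, hA2, hFAB, hFV⟩ := pair_id hb.ne' hD0.ne' hx hDU hDV hDA
  obtain ⟨w, hw⟩ := hpV
  -- positivity
  have hVpos : 0 < V := by
    have h1 : 0 < F m x 1 := ps_Fpos hm hx0 one_pos
    rw [← hDV] at h1
    exact (mul_pos_iff_of_pos_left hD0).1 h1
  have hUpos : 0 < U := by
    have h1 : 0 < F m a b := ps_Fpos hm ha0 hb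
    rw [← hDU] at h1
    exact (mul_pos_iff_of_pos_left hD0).1 h1
  have hwpos : 0 < w := by
    rw [hw] at hVpos
    exact (mul_pos_iff_of_pos_left hp0).1 hVpos
  -- coprimality
  have hV3 : IsCoprime V (3 * m) := by
    have h1 : IsCoprime x (3 * m) := by
      obtain ⟨c, hc'⟩ := hx1
      exact ⟨1, -c, by linarith⟩
    have h2 : IsCoprime (x ^ 2 + 3 * m * (x + m)) (3 * m) :=
      (IsCoprime.pow_left h1).add_mul_left_left _
    have h3 : F m x 1 = x ^ 2 + 3 * m * (x + m) := by unfold F; ring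
    rw [← h3, ← hDV] at h2
    exact h2.of_mul_left_right
  have hVB : IsCoprime V (B : ℤ) := by
    have h1 : U = b ^ 2 * V + B * (b * x + a + 3 * m * b) := by
      have : U = b * A + B * (a + 3 * m * b) := by rw [hA2]; ring
      rw [this, hA1]; ring
    have h2 : IsCoprime (B : ℤ) (b ^ 2 * V + B * (b * x + a + 3 * m * b)) := by
      rw [← h1]; exact hBU
    have h3 : IsCoprime (B : ℤ) (b ^ 2 * V) := by
      have := h2.add_mul_left_right (-(b * x + a + 3 * m * b))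
      have h4 : b ^ 2 * V + B * (b * x + a + 3 * m * b) + B * -(b * x + a + 3 * m * b) =
        b ^ 2 * V := by ring
      rwa [h4] at this
    exact h3.of_mul_right_right.symm
  have hV3B : IsCoprime V (3 * m * B) := hV3.mul_right hVB
  have hw3B : IsCoprime w (3 * m * B) := by
    rw [hw] at hV3B; exact hV3B.of_mul_left_right
  have hp3B : IsCoprime (p : ℤ) (3 * m * B) := by
    rw [hw] at hV3B; exact hV3B.of_mul_left_left
  have hp3B2 : IsCoprime (p : ℤ) (3 * m ^ 2 * B) := by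
    have h1 : IsCoprime (p : ℤ) m := (hp3B.of_mul_right_left).of_mul_right_right
    have h2 := hp3B.mul_right h1
    have h3 : 3 * m * B * m = 3 * m ^ 2 * (B : ℤ) := by ring
    rwa [h3] at h2
  have hr : 3 * m ^ 2 * (B : ℤ) ∣ A - 3 * m * B * r - w := by
    have h1 := hG.1
    have h2 : p * (A - 3 * m * B * r) - V = p * (A - 3 * m * B * r - w) := by rw [hw]; ring
    rw [h2] at h1
    exact hp3B2.symm.dvd_of_dvd_mul_left h1
  have hFde : F m A B = w * (p * U) := by rw [hFAB, hw]; ring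
  obtain ⟨R, ν, hRr, hR, hν, hfR, hfR'⟩ := cert hm hB0 hFde hw3B hr
  -- the two arguments are large
  have h3mB : 0 < 3 * m * (B : ℤ) := by positivity
  have hRK : K ≤ R := by
    have hwV : w ≤ V := by
      rw [hw]
      have h5 : (1 : ℤ) ≤ p := by exact_mod_cast hp.one_lt.le
      exact le_mul_of_one_le_left hwpos.le h5
    have h1 : V ≤ b * V := le_mul_of_one_le_left hVpos.le hb
    have h2 : 3 * m * B * K ≤ 3 * m * B * R := by
      rw [hR, hA1]
      have h3 : 3 * m * K * B ≤ x * B := mul_le_mul_of_nonneg_right hxK hB0.le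
      have h4 : 3 * m * B * K = 3 * m * K * B := by ring
      rw [h4]
      linarith
    exact le_of_mul_le_mul_left h2 h3mB
  have hνpos : 0 < ν := by
    have h1 := ps_fpos R
    rw [hfR] at h1
    exact (mul_pos_iff_of_pos_left hwpos).1 h1
  have hmBν : 0 < m * B * ν := by positivity
  have hR'K : K ≤ R + m * B * ν := by linarith
  have hR'r : m ∣ R + m * B * ν - r := by
    have : R + m * B * ν - r = (R - r) + m * (B * ν) := by ring
    rw [this]
    exact dvd_add hRr (dvd_mul_right _ _)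
  -- the obstacle polynomial
  have hQ : QP m b D a p B = b ^ 2 * p * D * (3 * m ^ 2 * B ^ 2 * ν) := by
    unfold QP
    rw [pair_Q hb.ne' hD0.ne' hx hDU hDV hDA hw, hν]
  have hpQ : (p : ℤ) ∣ QP m b D a p B := by
    rw [hQ]; exact ⟨b ^ 2 * D * (3 * m ^ 2 * B ^ 2 * ν), by ring⟩
  have hνQ : ν ∣ QP m b D a p B := by
    rw [hQ]; exact ⟨b ^ 2 * p * D * (3 * m ^ 2 * B ^ 2), by ring⟩
  have hpνQ : (p : ℤ) * ν ∣ QP m b D a p B := by
    rw [hQ]; exact ⟨b ^ 2 * D * (3 * m ^ 2 * B ^ 2), by ring⟩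
  have hVF : V ∣ F m (a - D * B) b := by
    rw [hFV]; exact ⟨b ^ 2 * D, by ring⟩
  have hwF : w ∣ F m (a - D * B) b := dvd_trans ⟨p, by rw [hw]; ring⟩ hVF
  have hUF : U ∣ F m a b := ⟨D, by rw [← hDU]; ring⟩
  -- no square factors
  have key : ∀ τ : ℕ, τ.Prime → ¬ (τ : ℤ) ^ 2 ∣ f R ∧ ¬ (τ : ℤ) ^ 2 ∣ f (R + m * B * ν) := by
    intro τ hτ
    have hτI : Prime (τ : ℤ) := Nat.prime_iff_prime_int.1 hτ
    by_cases hτm : (τ : ℤ) ∣ m
    · exact ⟨hsq R hRr τ hτ hτm, hsq _ hR'r τ hτ hτm⟩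
    by_cases hτ3 : (τ : ℤ) ∣ 3
    · have hτe : (τ : ℤ) = 3 := by
        have h1 : τ ∣ 3 := by exact_mod_cast hτ3
        have h2 := (Nat.prime_dvd_prime_iff_eq hτ Nat.prime_three).1 h1
        exact_mod_cast h2
      constructor
      · intro h
        rw [hτe] at h
        exact ps_f3 _ (dvd_trans (dvd_pow_self _ two_ne_zero) h)
      · intro h
        rw [hτe] at h
        exact ps_f3 _ (dvd_trans (dvd_pow_self _ two_ne_zero) h)
    have hτ3m : ¬ (τ : ℤ) ∣ 3 * m := fun h => (hτI.dvd_or_dvd h).elim hτ3 hτm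
    by_cases hτS : τ ∈ S
    · have hbad := hG.2 τ hτS
      constructor
      · intro h
        apply hbad
        refine ⟨R, hRr, h, Or.inl ?_⟩
        have h1 : p * (A - 3 * m * B * R) - V = 0 := by rw [hR, hw]; ring
        rw [h1]; exact dvd_zero _
      · intro h
        apply hbad
        refine ⟨R + m * B * ν, hR'r, h, Or.inr ?_⟩
        have h1 : p * U - A - 3 * m * B * (1 + (R + m * B * ν)) = 0 := by
          have : p * U - A - 3 * m * B * (1 + (R + m * B * ν)) =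
            p * U - A - 3 * m * B - 3 * m * B * R - 3 * m ^ 2 * B ^ 2 * ν := by ring
          rw [this, hR, hν]; ring
        rw [h1]; exact dvd_zero _
    have hob := hO τ hτ hτS hτ3m
    constructor
    · intro h
      apply hob
      rw [hfR] at h
      rcases ps_sq_mul hτ h with h1 | h1 | ⟨h1, h2⟩
      · exact Or.inl (h1.trans hwF)
      · exact Or.inr (Or.inl (h1.trans hνQ))
      · by_cases hτp : τ = p
        · left
          refine dvd_trans ?_ hVF
          rw [hw, pow_two]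
          subst hτp
          exact mul_dvd_mul_left _ h1
        · right; right; left
          exact ⟨hτp, h1.trans hwF, h2.trans hνQ⟩
    · intro h
      apply hob
      rw [hfR'] at h
      by_cases hτp : τ = p
      · subst hτp
        have h1 : (τ : ℤ) * τ ∣ τ * (U * ν) := by
          rw [← pow_two, ← mul_assoc]; exact h
        have h2 : (τ : ℤ) ∣ U * ν := (mul_dvd_mul_iff_left hτI.ne_zero).1 h1
        rcases hτI.dvd_or_dvd h2 with h3 | h3
        · right; right; right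
          exact ⟨h3.trans hUF, hpQ⟩
        · right; left
          refine dvd_trans ?_ hpνQ
          rw [pow_two]
          exact mul_dvd_mul_left _ h3
      · have hcp : IsCoprime ((τ : ℤ) ^ 2) (p : ℤ) := by
          apply IsCoprime.pow_left
          rw [Nat.isCoprime_iff_coprime]
          exact (Nat.coprime_primes hτ hp).2 hτp
        have h1 : (τ : ℤ) ^ 2 ∣ U * ν := by
          have h2 : (τ : ℤ) ^ 2 ∣ p * (U * ν) := by rw [← mul_assoc]; exact h
          exact hcp.dvd_of_dvd_mul_left h2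
        rcases ps_sq_mul hτ h1 with h2 | h2 | ⟨h2, h3⟩
        · exact absurd h2 (ps_not_sq hU hτ)
        · exact Or.inr (Or.inl (h2.trans hνQ))
        · exact Or.inr (Or.inr (Or.inr ⟨h2.trans hUF, h3.trans hνQ⟩))
  have hs1 : Squarefree (f R).natAbs := ps_sqf fun τ hτ => (key τ hτ).1
  have hs2 : Squarefree (f (R + m * B * ν)).natAbs :=
    ps_sqf fun τ hτ => (key τ hτ).2
  have e1 := hc R hRK hRr hs1
  have e2 := hc _ hR'K hR'r hs2
  have hne : ∀ {z : ℤ}, 0 < z → z.natAbs ≠ 0 := fun h => Int.natAbs_ne_zero.2 h.ne'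
  rw [hfR, Int.natAbs_mul, hg.mul _ _ (hne hwpos) (hne hνpos)] at e1
  rw [hfR', Int.natAbs_mul, hg.mul _ _ (hne (mul_pos hp0 hUpos)) (hne hνpos), Int.natAbs_mul,
    hg.mul _ _ (hne hp0) (hne hUpos)] at e2
  have hgν := hg.sq (hne hνpos)
  have hgp := hg.sq (hne hp0)
  have e3 : g w.natAbs = g (p : ℤ).natAbs * g U.natAbs := by
    calc g w.natAbs = g w.natAbs * (g ν.natAbs * g ν.natAbs) := by rw [hgν, mul_one]
      _ = ε * g ν.natAbs := by rw [← mul_assoc, e1]
      _ = g (p : ℤ).natAbs * g U.natAbs * g ν.natAbs * g ν.natAbs := by rw [e2]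
      _ = g (p : ℤ).natAbs * g U.natAbs := by rw [mul_assoc, hgν, mul_one]
  have e4 : g V.natAbs = g U.natAbs := by
    rw [hw, Int.natAbs_mul, hg.mul _ _ (hne hp0) (hne hwpos), e3, ← mul_assoc, hgp, one_mul]
  unfold H
  rw [← hDU, ← hDV, Int.natAbs_mul, Int.natAbs_mul, hg.mul _ _ (hne hD0) (hne hUpos),
    hg.mul _ _ (hne hD0) (hne hVpos), e4]

end Pool.Agent.H48.SF
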