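import Pool.Agent.H48.SF.BrunC
import Pool.Agent.H48.SF.Roots
import Pool.Agent.H48.SF.BT

/-!
The sieve for all classes modulo `M` and all sets `W` of a family.
-/

set_option autoImplicit false

namespace Pool.Agent.H48.SF

open Finset Classical
open Pool.Agent.H95.Gol (bb PB)
open Pool.Agent.H41.Per (PM)
open Pool.Agent.H48.AP (F H Vx Sparse oddCount)

theorem SieveU_large (K n : ℕ) (hn : 256 * K ≤ n) : K * n ≤ 2 ^ (n / 8) := by
  set t := n / 16 with ht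
  have h1 : t + 1 ≤ 2 ^ t := Nat.lt_two_pow_self
  have h2 : (t + 1) * (t + 1) ≤ 2 ^ (n / 8) := by
    calc (t + 1) * (t + 1) ≤ 2 ^ t * 2 ^ t := Nat.mul_le_mul h1 h1
      _ = 2 ^ (t + t) := (pow_add _ _ _).symm
      _ ≤ 2 ^ (n / 8) := Nat.pow_le_pow_right (by norm_num) (by omega)
  refine le_trans ?_ h2
  have h3 : n ≤ 16 * (t + 1) := by omega
  have h4 : 16 * K ≤ t + 1 := by omega
  calc K * n ≤ K * (16 * (t + 1)) := Nat.mul_le_mul_left _ h3
    _ = (16 * K) * (t + 1) := by ring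
    _ ≤ (t + 1) * (t + 1) := Nat.mul_le_mul_right _ h4

theorem SieveU_F_congr (m y : ℤ) {p x x' : ℤ} (h : p ∣ x - x') : p ∣ F m x y ↔ p ∣ F m x' y := by
  have h1 : F m x y - F m x' y = (x - x') * (x + x' + 3 * m * y) := by
    unfold F; ring
  have h2 : p ∣ F m x y - F m x' y := by rw [h1]; exact Dvd.dvd.mul_right h _
  exact (dvd_iff_dvd_of_dvd_sub h2)

theorem SieveU_tail (S : ℝ) (hS0 : 0 ≤ S) (k : ℕ) (hk : Real.exp 2 * S ≤ k) :
    S ^ k / (k.factorial : ℝ) ≤ Real.exp (-S) := by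
  have h1 : S ≤ k * Real.exp (-2) := by
    rw [Real.exp_neg, ← div_eq_mul_inv, le_div_iff₀ (Real.exp_pos 2)]
    linarith
  have h2 : S ^ k ≤ (k : ℝ) ^ k * Real.exp (-(2 * k)) := by
    calc S ^ k ≤ (k * Real.exp (-2)) ^ k := pow_le_pow_left₀ hS0 h1 k
      _ = (k : ℝ) ^ k * Real.exp (-(2 * k)) := by
        rw [mul_pow, ← Real.exp_nat_mul]
        congr 2
        ring
  have h3 : (k : ℝ) ^ k / (k.factorial : ℝ) ≤ Real.exp k :=
    Real.pow_div_factorial_le_exp (k : ℝ) (Nat.cast_nonneg k) k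
  have h4 : S ≤ k := by
    have : (1 : ℝ) ≤ Real.exp 2 := Real.one_le_exp (by norm_num)
    nlinarith
  calc S ^ k / (k.factorial : ℝ) ≤ ((k : ℝ) ^ k * Real.exp (-(2 * k))) / (k.factorial : ℝ) := by
        gcongr
    _ = ((k : ℝ) ^ k / (k.factorial : ℝ)) * Real.exp (-(2 * k)) := by ring
    _ ≤ Real.exp k * Real.exp (-(2 * k)) := by gcongr
    _ = Real.exp (-k) := by rw [← Real.exp_add]; congr 1; ring
    _ ≤ Real.exp (-S) := Real.exp_le_exp.2 (by linarith)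

/-- the sieve for one class and one set `W` -/
theorem SieveU_one (m b : ℤ) (hm : 0 < m) (hb : 0 < b) (D M : ℕ) (hD : 1 ≤ D) (L : ℕ)
    (W : Finset ℕ) (hW : W ⊆ Icc 1 L) (Pf : ℕ → Finset ℕ)
    (hP : ∀ B ∈ W, ∀ p ∈ Pf B, p.Prime ∧ p % 3 = 1 ∧ ¬ p ∣ M ∧
      ((D : ℤ) * L) ^ 2 + 3 * m ^ 2 * b ^ 2 < p)
    (Q : Finset ℕ) (hQ : ∀ B ∈ W, Pf B ⊆ Q) (h : ℕ) (hh : Even h)
    (hL : 1 ≤ L) (S : ℝ) (hS : S = ∑ B ∈ W, ∑ p ∈ Pf B, (2 : ℝ) / p)
    (hSh : Real.exp 2 * S ≤ h + 1) (i N : ℕ) :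
    (((range N).filter (fun t : ℕ => ∀ B ∈ W, ∀ p ∈ Pf B,
      ¬ (p : ℤ) ∣ F m ((i + M * t : ℕ) - D * B) b)).card : ℝ) ≤
      2 * N * Real.exp (-S) + (((Q.card : ℝ) + 1) * (2 * L : ℕ)) ^ h := by
  set P := W.biUnion Pf with hPdef
  have hPp : ∀ p ∈ P, p.Prime := by
    intro p hp
    obtain ⟨B, hB, hpB⟩ := mem_biUnion.1 hp
    exact (hP B hB p hpB).1
  let Ω : ℕ → Finset ℕ := fun p => (W.filter (fun B => p ∈ Pf B)).biUnion
    (fun B => (range p).filter (fun t : ℕ => (p : ℤ) ∣ F m ((i - D * B : ℤ) + M * t) b))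
  have hΩ : ∀ p ∈ P, Ω p ⊆ range p := by
    intro p _ t ht
    obtain ⟨B, -, h2⟩ := mem_biUnion.1 ht
    exact (mem_filter.1 h2).1
  have hmb : ∀ B ∈ W, ∀ p ∈ Pf B, ¬ (p : ℤ) ∣ m * b := by
    intro B hB p hp hdvd
    have h1 := (hP B hB p hp).2.2.2
    have h2 : 0 < m * b := mul_pos hm hb
    have h3 := Int.le_of_dvd h2 hdvd
    nlinarith [sq_nonneg ((D : ℤ) * L)]
  have hcard : ∀ p ∈ P, (Ω p).card = 2 * (W.filter (fun B => p ∈ Pf B)).card := by
    intro p hp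
    have h1 : (Ω p).card = ∑ B ∈ W.filter (fun B => p ∈ Pf B),
        ((range p).filter (fun t : ℕ => (p : ℤ) ∣ F m ((i - D * B : ℤ) + M * t) b)).card := by
      apply card_biUnion
      intro B hB B' hB' hne
      rw [mem_coe, mem_filter] at hB hB'
      rw [Function.onFun, Finset.disjoint_left]
      intro t ht ht'
      rw [mem_filter] at ht ht'
      have hpr := (hP B hB.1 p hB.2)
      have hprime : Prime (p : ℤ) := Nat.prime_iff_prime_int.1 hpr.1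
      have e1 : (i - D * B' : ℤ) + M * t = ((i - D * B : ℤ) + M * t) + D * (B - B') := by ring
      rw [e1] at ht'
      have hBL := mem_Icc.1 (hW hB.1)
      have hBL' := mem_Icc.1 (hW hB'.1)
      have hD0 : (1 : ℤ) ≤ D := by exact_mod_cast hD
      have hne' : (B : ℤ) - B' ≠ 0 := by
        intro h0
        apply hne
        have : (B : ℤ) = B' := by linarith
        exact_mod_cast this
      have habs : |(D : ℤ) * (B - B')| ≤ D * L := by
        rw [abs_mul, abs_of_nonneg (by linarith : (0 : ℤ) ≤ D)]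
        apply mul_le_mul_of_nonneg_left _ (by linarith)
        rw [abs_le]
        have a1 : (B : ℤ) ≤ L := by exact_mod_cast hBL.2
        have a2 : (B' : ℤ) ≤ L := by exact_mod_cast hBL'.2
        have a3 : (0 : ℤ) ≤ B := by positivity
        have a4 : (0 : ℤ) ≤ B' := by positivity
        constructor <;> linarith
      have hsq : ((D : ℤ) * (B - B')) ^ 2 ≤ ((D : ℤ) * L) ^ 2 := sq_le_sq' (by
        have := (abs_le.1 habs).1
        linarith) (abs_le.1 habs).2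
      have hsq0 : 0 < ((D : ℤ) * (B - B')) ^ 2 := by
        have : (D : ℤ) * (B - B') ≠ 0 := mul_ne_zero (by linarith) hne'
        positivity
      rcases F_shift hprime ht.2 ht'.2 with h2 | h2
      · have h3 : (p : ℤ) ∣ ((D : ℤ) * (B - B')) ^ 2 := Dvd.dvd.pow h2 two_ne_zero
        have h4 := Int.le_of_dvd hsq0 h3
        have h5 := hpr.2.2.2
        nlinarith [sq_nonneg (m * b)]
      · have h4 := Int.le_of_dvd (by nlinarith [sq_nonneg (m * b)]) h2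
        have h5 := hpr.2.2.2
        nlinarith [sq_nonneg (m * b)]
    rw [h1, sum_const_nat (m := 2), mul_comm]
    intro B hB
    rw [mem_filter] at hB
    have hpr := (hP B hB.1 p hB.2)
    exact F_two hpr.1 hpr.2.1 m b _ _ (hmb B hB.1 p hB.2) (by exact_mod_cast hpr.2.2.1)
  have hSum : ∑ p ∈ P, ((Ω p).card : ℝ) / p = S := by
    rw [hS]
    have h1 : ∀ p ∈ P, ((Ω p).card : ℝ) / p = ∑ B ∈ W, if p ∈ Pf B then (2 : ℝ) / p else 0 := by
      intro p hp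
      rw [hcard p hp, ← sum_filter, sum_const, nsmul_eq_mul]
      push_cast
      ring
    rw [sum_congr rfl h1, sum_comm]
    refine sum_congr rfl fun B hB => ?_
    rw [← sum_filter]
    congr 1
    ext p
    rw [mem_filter]
    constructor
    · exact fun h => h.2
    · exact fun h => ⟨mem_biUnion.2 ⟨B, hB, h⟩, h⟩
  have hWc : W.card ≤ L := by
    have := card_le_card hW
    rwa [Nat.card_Icc, Nat.add_sub_cancel] at this
  have hw : ∀ p ∈ P, (Ω p).card ≤ 2 * L := by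
    intro p hp
    rw [hcard p hp]
    exact Nat.mul_le_mul_left _ ((card_filter_le _ _).trans hWc)
  have key := brun_crt P hPp Ω hΩ (2 * L) (by omega) hw h hh N
  rw [hSum] at key
  have hsub : (range N).filter (fun t : ℕ => ∀ B ∈ W, ∀ p ∈ Pf B,
      ¬ (p : ℤ) ∣ F m ((i + M * t : ℕ) - D * B) b) ⊆
      (range N).filter (fun t : ℕ => ∀ p ∈ P, t % p ∉ Ω p) := by
    intro t ht
    rw [mem_filter] at ht ⊢
    refine ⟨ht.1, fun p hp hmem => ?_⟩
    obtain ⟨B, hB, h2⟩ := mem_biUnion.1 hmem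
    rw [mem_filter] at hB h2
    apply ht.2 B hB.1 p hB.2
    refine (SieveU_F_congr m b ?_).1 h2.2
    have h3 : (p : ℤ) ∣ (t % p : ℕ) - (t : ℤ) := by
      have h4 : (p : ℤ) ∣ (t : ℤ) - (t % p : ℕ) := by
        rw [Int.natCast_mod]
        exact Int.dvd_self_sub_emod
      rw [← neg_sub]
      exact (dvd_neg).2 h4
    have e2 : (i - D * B : ℤ) + M * ((t % p : ℕ) : ℤ) - (((i + M * t : ℕ) : ℤ) - D * B) =
        M * ((t % p : ℕ) - (t : ℤ)) := by
      push_cast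
      ring
    rw [e2]
    exact Dvd.dvd.mul_left h3 _
  have hS0 : 0 ≤ S := by
    rw [hS]
    positivity
  have hPQ : P.card ≤ Q.card := card_le_card (by
    intro p hp
    obtain ⟨B, hB, hpB⟩ := mem_biUnion.1 hp
    exact hQ B hB hpB)
  have htail : S ^ (h + 1) / ((h + 1).factorial : ℝ) ≤ Real.exp (-S) :=
    SieveU_tail S hS0 (h + 1) (by push_cast; exact hSh)
  calc (((range N).filter (fun t : ℕ => ∀ B ∈ W, ∀ p ∈ Pf B,
      ¬ (p : ℤ) ∣ F m ((i + M * t : ℕ) - D * B) b)).card : ℝ)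
      ≤ (((range N).filter (fun t : ℕ => ∀ p ∈ P, t % p ∉ Ω p)).card : ℝ) := by
        exact_mod_cast card_le_card hsub
    _ ≤ N * (Real.exp (-S) + S ^ (h + 1) / ((h + 1).factorial : ℝ)) +
        (((P.card : ℝ) + 1) * (2 * L : ℕ)) ^ h := key
    _ ≤ N * (Real.exp (-S) + Real.exp (-S)) + (((Q.card : ℝ) + 1) * (2 * L : ℕ)) ^ h := by
        have h9 : (P.card : ℝ) ≤ Q.card := by exact_mod_cast hPQ
        gcongr
    _ = _ := by ring

/-- few `a ≤ 2^j` have a set `W ∈ Wf (a % M)` such that no `F m (a - D B) b`, `B ∈ W`, is divisible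
by a prime of `Pf (a % M) B` -/
theorem sieve_union (m b : ℤ) (hm : 0 < m) (hb : 0 < b) (s c C0 : ℕ) (hs : 16 ≤ s) :
    ∃ n0 : ℕ, ∀ n ≥ n0, ∀ j : ℕ, 2 ^ n ≤ j → j < 2 ^ (n + 1) → ∀ D : ℕ, 1 ≤ D →
    D ≤ 2 ^ (C0 * n) → ∀ M : ℕ, 1 ≤ M → M ≤ 2 ^ (j / 4) → (∀ p ∈ PW n, ¬ p ∣ M) →
    ∀ (Pf : ℕ → ℕ → Finset ℕ) (Wf : ℕ → Finset (Finset ℕ)) (ρ Kc : ℝ), 0 ≤ ρ →
    (∀ i < M, ((Wf i).card : ℝ) ≤ Kc) →
    (∀ i < M, ∀ W ∈ Wf i, W ⊆ Icc 1 (2 ^ (n / s + c)) ∧
      (∀ B ∈ W, Pf i B ⊆ (PW n).filter (fun p => p % 3 = 1)) ∧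
      ρ ≤ ∑ B ∈ W, ∑ p ∈ Pf i B, (2 : ℝ) / p) →
    (((Icc 1 (2 ^ j)).filter (fun a : ℕ => ∃ W ∈ Wf (a % M), ∀ B ∈ W, ∀ p ∈ Pf (a % M) B,
      ¬ (p : ℤ) ∣ F m (a - D * B) b)).card : ℝ) ≤
      Kc * (8 * 2 ^ j * Real.exp (-ρ) + 2 ^ (j / 2)) := by
  obtain ⟨C, hC1, hC⟩ := bt_window
  obtain ⟨C', hC'⟩ := exists_nat_ge C
  have hC'1 : 1 ≤ C' := by
    have : (1 : ℝ) ≤ C' := hC1.trans hC'
    exact_mod_cast this
  -- constants
  obtain ⟨q, hq⟩ : ∃ q : ℕ, 3 * m ^ 2 * b ^ 2 ≤ 2 ^ q := by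
    refine ⟨(3 * m ^ 2 * b ^ 2).toNat, ?_⟩
    have h1 : (3 * m ^ 2 * b ^ 2).toNat < 2 ^ (3 * m ^ 2 * b ^ 2).toNat := Nat.lt_two_pow_self
    have h2 : ((3 * m ^ 2 * b ^ 2).toNat : ℤ) = 3 * m ^ 2 * b ^ 2 :=
      Int.toNat_of_nonneg (by positivity)
    have h3 : ((3 * m ^ 2 * b ^ 2).toNat : ℤ) < 2 ^ (3 * m ^ 2 * b ^ 2).toNat := by
      exact_mod_cast h1
    linarith
  refine ⟨256 * (2 * (C0 + 1) + 2 * c + q + 4 + 256 * C' * 2 ^ c) + 16, ?_⟩
  intro n hn j hj1 hj2 D hD1 hD2 M hM1 hM2 hMp Pf Wf ρ Kc hρ hK hW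
  have hn1 : 16 ≤ n := by omega
  have hbig1 : (2 * (C0 + 1) + 2 * c + q + 4) * n ≤ 2 ^ (n / 8) :=
    SieveU_large _ n (by
      have : 0 ≤ 256 * (256 * C' * 2 ^ c) := Nat.zero_le _
      nlinarith)
  have hbig2 : (256 * C' * 2 ^ c) * n ≤ 2 ^ (n / 8) := SieveU_large _ n (by nlinarith)
  set L := 2 ^ (n / s + c) with hL
  have hns : n / s ≤ n / 16 := Nat.div_le_div_left hs (by norm_num)
  -- the window
  have hwin : ∀ p ∈ PW n, p.Prime ∧ bb (n / 2) < p ∧ p ≤ bb (3 * n / 4) := by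
    intro p hp
    unfold PW at hp
    rw [mem_filter, mem_Ioc] at hp
    exact ⟨hp.2, hp.1.1, hp.1.2⟩
  have hsize : ((D : ℤ) * L) ^ 2 + 3 * m ^ 2 * b ^ 2 < bb (n / 2) := by
    have h1 : D * L ≤ 2 ^ (C0 * n + (n / s + c)) := by
      rw [pow_add, hL]
      exact Nat.mul_le_mul_right _ hD2
    have h2 : (D * L) ^ 2 ≤ 2 ^ (2 * (C0 * n + (n / s + c))) := by
      rw [mul_comm 2, pow_mul]
      exact Nat.pow_le_pow_left h1 2
    have h3 : 2 ^ (2 * (C0 * n + (n / s + c))) + 2 ^ q ≤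
        2 ^ (2 * (C0 * n + (n / s + c)) + q + 1) := by
      have e1 : 2 ^ (2 * (C0 * n + (n / s + c))) ≤ 2 ^ (2 * (C0 * n + (n / s + c)) + q) :=
        Nat.pow_le_pow_right (by norm_num) (by omega)
      have e2 : 2 ^ q ≤ 2 ^ (2 * (C0 * n + (n / s + c)) + q) :=
        Nat.pow_le_pow_right (by norm_num) (by omega)
      rw [pow_succ]
      omega
    have h4 : 2 * (C0 * n + (n / s + c)) + q + 1 < 2 ^ (n / 2) := by
      have e1 : 2 ^ (n / 8) ≤ 2 ^ (n / 2) := Nat.pow_le_pow_right (by norm_num) (by omega)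
      have e2 : n / s ≤ n := Nat.div_le_self _ _
      have e3 : 2 * (C0 * n + (n / s + c)) + q + 1 < (2 * (C0 + 1) + 2 * c + q + 4) * n := by
        have e4 : 2 * c ≤ 2 * c * n := Nat.le_mul_of_pos_right _ (by omega)
        have e5 : q ≤ q * n := Nat.le_mul_of_pos_right _ (by omega)
        have e6 : (2 * (C0 + 1) + 2 * c + q + 4) * n =
          2 * (C0 * n) + 2 * n + 2 * c * n + q * n + 4 * n := by ring
        rw [e6]
        omega
      omega
    have h5 : 2 ^ (2 * (C0 * n + (n / s + c)) + q + 1) < bb (n / 2) := by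
      unfold Pool.Agent.H95.Gol.bb
      exact Nat.pow_lt_pow_right (by norm_num) h4
    have h6 : (((D * L) ^ 2 : ℕ) : ℤ) ≤ ((2 ^ (2 * (C0 * n + (n / s + c))) : ℕ) : ℤ) := by
      exact_mod_cast h2
    have h7 : ((2 ^ (2 * (C0 * n + (n / s + c))) + 2 ^ q : ℕ) : ℤ) ≤
        ((2 ^ (2 * (C0 * n + (n / s + c)) + q + 1) : ℕ) : ℤ) := by exact_mod_cast h3
    have h8 : ((2 ^ (2 * (C0 * n + (n / s + c)) + q + 1) : ℕ) : ℤ) < (bb (n / 2) : ℤ) := by
      exact_mod_cast h5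
    push_cast at h6 h7 h8 hq ⊢
    linarith
  set h := 16 * C' * n * L with hh
  have hheven : Even h := ⟨8 * C' * n * L, by rw [hh]; ring⟩
  have h38 : 2 ^ (n / 8) ≤ 2 ^ (3 * n / 4) := Nat.pow_le_pow_right (by norm_num) (by omega)
  have hpow : ((PW n).card + 1) * (2 * L) ≤ 2 ^ (2 ^ (3 * n / 4 + 1)) := by
    have h1 : (PW n).card + 1 ≤ 2 ^ 2 ^ (3 * n / 4) := by
      have e1 : (PW n).card ≤ bb (3 * n / 4) - bb (n / 2) := by
        unfold PW
        exact (card_filter_le _ _).trans (by rw [Nat.card_Ioc])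
      have e2 := Pool.Agent.H95.Gol.two_le_bb (n / 2)
      have e3 : bb (n / 2) ≤ bb (3 * n / 4) := Pool.Agent.H95.Gol.bb_mono (by omega)
      have e4 : bb (3 * n / 4) = 2 ^ 2 ^ (3 * n / 4) := rfl
      omega
    have h2 : 2 * L ≤ 2 ^ 2 ^ (3 * n / 4) := by
      have e1 : 2 * L = 2 ^ (n / s + c + 1) := by rw [hL]; ring
      rw [e1]
      apply Nat.pow_le_pow_right (by norm_num)
      have e2 : n / s ≤ n := Nat.div_le_self _ _
      have e3 : n / s + c + 1 ≤ (2 * (C0 + 1) + 2 * c + q + 4) * n := by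
        have e4 : c ≤ c * n := Nat.le_mul_of_pos_right _ (by omega)
        have e6 : (2 * (C0 + 1) + 2 * c + q + 4) * n =
          2 * (C0 * n) + 2 * n + 2 * (c * n) + q * n + 4 * n := by ring
        rw [e6]
        omega
      omega
    calc ((PW n).card + 1) * (2 * L) ≤ 2 ^ 2 ^ (3 * n / 4) * 2 ^ 2 ^ (3 * n / 4) :=
          Nat.mul_le_mul h1 h2
      _ = 2 ^ (2 ^ (3 * n / 4 + 1)) := by
        rw [← pow_add]
        congr 1
        rw [pow_succ]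
        ring
  have hexp : h * 2 ^ (3 * n / 4 + 1) ≤ j / 8 := by
    rw [Nat.le_div_iff_mul_le (by norm_num)]
    refine le_trans ?_ hj1
    calc h * 2 ^ (3 * n / 4 + 1) * 8 = (256 * C' * 2 ^ c) * n * (2 ^ (n / s) * 2 ^ (3 * n / 4)) := by
          rw [hh, hL, pow_add, pow_succ]
          ring
      _ ≤ 2 ^ (n / 8) * (2 ^ (n / s) * 2 ^ (3 * n / 4)) := Nat.mul_le_mul_right _ hbig2
      _ = 2 ^ (n / 8 + (n / s + 3 * n / 4)) := by rw [← pow_add, ← pow_add]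
      _ ≤ 2 ^ n := Nat.pow_le_pow_right (by norm_num) (by omega)
  set N := 2 ^ j / M + 1 with hN
  have hKc : 0 ≤ Kc := (Nat.cast_nonneg _).trans (hK 0 (by omega))
  have hexp2 : Real.exp 2 ≤ 8 := by
    have h1 : Real.exp 2 = Real.exp 1 * Real.exp 1 := by rw [← Real.exp_add]; norm_num
    have h2 := Real.exp_one_lt_d9
    have h3 := Real.exp_pos 1
    rw [h1]
    nlinarith
  -- one class and one set
  have hone : ∀ i < M, ∀ W ∈ Wf i,
      (((range N).filter (fun t : ℕ => ∀ B ∈ W, ∀ p ∈ Pf i B,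
        ¬ (p : ℤ) ∣ F m ((i + M * t : ℕ) - D * B) b)).card : ℝ) ≤
      2 * N * Real.exp (-ρ) + 2 ^ (j / 8) := by
    intro i hi W hWi
    obtain ⟨hW1, hW2, hW3⟩ := hW i hi W hWi
    have hin : ∀ B ∈ W, ∀ p ∈ Pf i B, p ∈ PW n ∧ p % 3 = 1 := by
      intro B hB p hp
      exact mem_filter.1 (hW2 B hB hp)
    have hSB : ∀ B ∈ W, ∑ p ∈ Pf i B, (2 : ℝ) / p ≤ 2 * (C' * n) := by
      intro B hB
      have h1 := hC n 1 0 le_rfl (by
        have := Pool.Agent.H95.Gol.two_le_bb (n / 2)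
        omega)
      have h2 : ∑ p ∈ Pf i B, (2 : ℝ) / p ≤
          ∑ p ∈ (PW n).filter (fun p => p % 1 = 0 % 1), (2 : ℝ) / p := by
        apply sum_le_sum_of_subset_of_nonneg
        · intro p hp
          rw [mem_filter]
          exact ⟨(hin B hB p hp).1, by rw [Nat.mod_one]⟩
        · intro p _ _
          positivity
      have h3 : ∑ p ∈ (PW n).filter (fun p => p % 1 = 0 % 1), (2 : ℝ) / p =
          2 * ∑ p ∈ (PW n).filter (fun p => p % 1 = 0 % 1), (1 : ℝ) / p := by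
        rw [mul_sum]
        refine sum_congr rfl fun p _ => ?_
        ring
      rw [h3] at h2
      rw [Nat.totient_one, Nat.cast_one, div_one] at h1
      have h4 : C * n ≤ C' * n := mul_le_mul_of_nonneg_right hC' (Nat.cast_nonneg n)
      linarith
    have hSle : ∑ B ∈ W, ∑ p ∈ Pf i B, (2 : ℝ) / p ≤ L * (2 * (C' * n)) := by
      have hWc : W.card ≤ L := by
        have := card_le_card hW1
        rwa [Nat.card_Icc, Nat.add_sub_cancel] at this
      calc ∑ B ∈ W, ∑ p ∈ Pf i B, (2 : ℝ) / p ≤ ∑ _B ∈ W, 2 * (C' * n : ℝ) := sum_le_sum hSB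
        _ = W.card * (2 * (C' * n)) := by rw [sum_const, nsmul_eq_mul]
        _ ≤ L * (2 * (C' * n)) := by
          have : (W.card : ℝ) ≤ L := by exact_mod_cast hWc
          gcongr
    have hS0 : 0 ≤ ∑ B ∈ W, ∑ p ∈ Pf i B, (2 : ℝ) / p := by positivity
    have key := SieveU_one m b hm hb D M hD1 L W hW1 (Pf i) (by
        intro B hB p hp
        obtain ⟨h1, h2⟩ := hin B hB p hp
        obtain ⟨h3, h4, -⟩ := hwin p h1
        refine ⟨h3, h2, hMp p h1, hsize.trans ?_⟩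
        exact_mod_cast h4) (PW n) (fun B hB p hp => (hin B hB p hp).1) h hheven
      (by rw [hL]; exact Nat.one_le_two_pow) _ rfl (by
        calc Real.exp 2 * ∑ B ∈ W, ∑ p ∈ Pf i B, (2 : ℝ) / p ≤ 8 * (L * (2 * (C' * n))) := by
              gcongr
          _ = (h : ℝ) := by rw [hh]; push_cast; ring
          _ ≤ h + 1 := by linarith) i N
    refine key.trans ?_
    have h1 : (((PW n).card : ℝ) + 1) * (2 * L : ℕ) ≤ 2 ^ (2 ^ (3 * n / 4 + 1)) := by
      exact_mod_cast hpow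
    have h2 : ((((PW n).card : ℝ) + 1) * (2 * L : ℕ)) ^ h ≤ 2 ^ (j / 8) := by
      calc ((((PW n).card : ℝ) + 1) * (2 * L : ℕ)) ^ h ≤ ((2 : ℝ) ^ (2 ^ (3 * n / 4 + 1))) ^ h :=
            pow_le_pow_left₀ (by positivity) h1 h
        _ = (2 : ℝ) ^ (h * 2 ^ (3 * n / 4 + 1)) := by rw [← pow_mul]; congr 1; ring
        _ ≤ 2 ^ (j / 8) := pow_le_pow_right₀ (by norm_num) hexp
    have h3 : Real.exp (-∑ B ∈ W, ∑ p ∈ Pf i B, (2 : ℝ) / p) ≤ Real.exp (-ρ) :=
      Real.exp_le_exp.2 (by linarith)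
    gcongr
  -- the union bound
  have hcover : (Icc 1 (2 ^ j)).filter (fun a : ℕ => ∃ W ∈ Wf (a % M), ∀ B ∈ W,
      ∀ p ∈ Pf (a % M) B, ¬ (p : ℤ) ∣ F m (a - D * B) b) ⊆
      (range M).biUnion fun i => (Wf i).biUnion fun W =>
        ((range N).filter (fun t : ℕ => ∀ B ∈ W, ∀ p ∈ Pf i B,
          ¬ (p : ℤ) ∣ F m ((i + M * t : ℕ) - D * B) b)).image (fun t => i + M * t) := by
    intro a ha
    rw [mem_filter, mem_Icc] at ha
    obtain ⟨⟨-, ha2⟩, W, hWa, hall⟩ := ha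
    rw [mem_biUnion]
    refine ⟨a % M, mem_range.2 (Nat.mod_lt _ hM1), ?_⟩
    rw [mem_biUnion]
    refine ⟨W, hWa, ?_⟩
    rw [mem_image]
    refine ⟨a / M, ?_, Nat.mod_add_div a M⟩
    rw [mem_filter, mem_range]
    refine ⟨?_, ?_⟩
    · rw [hN]
      have := Nat.div_le_div_right (c := M) ha2
      omega
    · intro B hB p hp
      rw [Nat.mod_add_div a M]
      exact hall B hB p hp
  have hcard := card_le_card hcover
  have hN0 : (0 : ℝ) ≤ N := Nat.cast_nonneg N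
  have hbd0 : 0 ≤ 2 * N * Real.exp (-ρ) + 2 ^ (j / 8) := by positivity
  have hsum : (((range M).biUnion fun i => (Wf i).biUnion fun W =>
        ((range N).filter (fun t : ℕ => ∀ B ∈ W, ∀ p ∈ Pf i B,
          ¬ (p : ℤ) ∣ F m ((i + M * t : ℕ) - D * B) b)).image (fun t => i + M * t)).card : ℝ) ≤
      M * (Kc * (2 * N * Real.exp (-ρ) + 2 ^ (j / 8))) := by
    calc _ ≤ ((∑ i ∈ range M, ((Wf i).biUnion fun W =>
        ((range N).filter (fun t : ℕ => ∀ B ∈ W, ∀ p ∈ Pf i B,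
          ¬ (p : ℤ) ∣ F m ((i + M * t : ℕ) - D * B) b)).image (fun t => i + M * t)).card : ℕ) :
            ℝ) := by exact_mod_cast card_biUnion_le
      _ = ∑ i ∈ range M, ((((Wf i).biUnion fun W =>
        ((range N).filter (fun t : ℕ => ∀ B ∈ W, ∀ p ∈ Pf i B,
          ¬ (p : ℤ) ∣ F m ((i + M * t : ℕ) - D * B) b)).image (fun t => i + M * t)).card : ℕ) :
            ℝ) := by push_cast; rfl
      _ ≤ ∑ _i ∈ range M, Kc * (2 * N * Real.exp (-ρ) + 2 ^ (j / 8)) := by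
        refine sum_le_sum fun i hi => ?_
        rw [mem_range] at hi
        calc _ ≤ ((∑ W ∈ Wf i, (((range N).filter (fun t : ℕ => ∀ B ∈ W, ∀ p ∈ Pf i B,
              ¬ (p : ℤ) ∣ F m ((i + M * t : ℕ) - D * B) b)).image
                (fun t => i + M * t)).card : ℕ) : ℝ) := by exact_mod_cast card_biUnion_le
          _ = ∑ W ∈ Wf i, (((((range N).filter (fun t : ℕ => ∀ B ∈ W, ∀ p ∈ Pf i B,
              ¬ (p : ℤ) ∣ F m ((i + M * t : ℕ) - D * B) b)).image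
                (fun t => i + M * t)).card : ℕ) : ℝ) := by push_cast; rfl
          _ ≤ ∑ _W ∈ Wf i, (2 * N * Real.exp (-ρ) + 2 ^ (j / 8)) := by
            refine sum_le_sum fun W hWi => ?_
            refine le_trans ?_ (hone i hi W hWi)
            exact_mod_cast card_image_le
          _ = (Wf i).card * (2 * N * Real.exp (-ρ) + 2 ^ (j / 8)) := by
            rw [sum_const, nsmul_eq_mul]
          _ ≤ Kc * (2 * N * Real.exp (-ρ) + 2 ^ (j / 8)) :=
            mul_le_mul_of_nonneg_right (hK i hi) hbd0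
      _ = M * (Kc * (2 * N * Real.exp (-ρ) + 2 ^ (j / 8))) := by
        rw [sum_const, card_range, nsmul_eq_mul]
  have hMN : (M : ℝ) * N ≤ 2 * 2 ^ j := by
    have h1 : M * N ≤ 2 ^ j + M := by
      rw [hN, Nat.mul_add, mul_one]
      exact Nat.add_le_add_right (Nat.mul_div_le _ _) _
    have h2 : M ≤ 2 ^ j := hM2.trans (Nat.pow_le_pow_right (by norm_num) (Nat.div_le_self _ _))
    have h3 : M * N ≤ 2 * 2 ^ j := by omega
    exact_mod_cast h3
  have hM8 : (M : ℝ) * 2 ^ (j / 8) ≤ 2 ^ (j / 2) := by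
    have h1 : M * 2 ^ (j / 8) ≤ 2 ^ (j / 2) := by
      calc M * 2 ^ (j / 8) ≤ 2 ^ (j / 4) * 2 ^ (j / 8) := Nat.mul_le_mul_right _ hM2
        _ = 2 ^ (j / 4 + j / 8) := (pow_add _ _ _).symm
        _ ≤ 2 ^ (j / 2) := Nat.pow_le_pow_right (by norm_num) (by omega)
    exact_mod_cast h1
  have hcard' : (((Icc 1 (2 ^ j)).filter (fun a : ℕ => ∃ W ∈ Wf (a % M), ∀ B ∈ W,
      ∀ p ∈ Pf (a % M) B, ¬ (p : ℤ) ∣ F m (a - D * B) b)).card : ℝ) ≤
      M * (Kc * (2 * N * Real.exp (-ρ) + 2 ^ (j / 8))) :=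
    le_trans (by exact_mod_cast hcard) hsum
  refine hcard'.trans ?_
  have he0 : 0 ≤ Real.exp (-ρ) := (Real.exp_pos _).le
  calc (M : ℝ) * (Kc * (2 * N * Real.exp (-ρ) + 2 ^ (j / 8)))
      = Kc * (2 * (M * N) * Real.exp (-ρ) + M * 2 ^ (j / 8)) := by ring
    _ ≤ Kc * (2 * (2 * 2 ^ j) * Real.exp (-ρ) + 2 ^ (j / 2)) := by gcongr
    _ ≤ Kc * (8 * 2 ^ j * Real.exp (-ρ) + 2 ^ (j / 2)) := by
      apply mul_le_mul_of_nonneg_left _ hKc
      have : 0 ≤ 2 ^ j * Real.exp (-ρ) := by positivity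
      linarith

end Pool.Agent.H48.SF
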