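import Pool.Agent.H48.SF.StepF

/-!
The masses of the pair certificate.
-/

set_option autoImplicit false

namespace Pool.Agent.H48.SF

open Finset Classical
open Pool.Agent.H95.Gol (bb)
open Pool.Agent.H41.Per (PM)
open Pool.Agent.H48.AP (F H Vx)

variable {m b : ℤ} {s n c D : ℕ} {η1 η2 : ℝ} {a : ℤ}

theorem VB_sum (hm : 0 < m) (hb : 0 < b) (h : PreState m b s n c D η1 η2 a) :
    (c : ℝ) / (16 * m * b) ≤ ∑ B ∈ VB m b s n c D η1 a, (1 : ℝ) / B := by
  obtain ⟨-, -, -, -, h5⟩ := h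
  have hm' : (0 : ℝ) < m := by exact_mod_cast hm
  have hb' : (0 : ℝ) < b := by exact_mod_cast hb
  set Bl : ℕ → Finset ℕ := fun i => (Ico (2 ^ (n / s + i)) (2 ^ (n / s + i + 1))).filter
        (fun B : ℕ => Valid m b s n D η1 a B) with hBl
  have hdis : ∀ i ∈ range c, ∀ i' ∈ range c, i ≠ i' → Disjoint (Bl i) (Bl i') := by
    intro i _ i' _ hne
    rw [disjoint_left]
    intro B h1 h2
    simp only [hBl, mem_filter, mem_Ico] at h1 h2
    rcases lt_or_gt_of_ne hne with h | h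
    · have : 2 ^ (n / s + i + 1) ≤ 2 ^ (n / s + i') := Nat.pow_le_pow_right (by norm_num) (by omega)
      omega
    · have : 2 ^ (n / s + i' + 1) ≤ 2 ^ (n / s + i) := Nat.pow_le_pow_right (by norm_num) (by omega)
      omega
  have hsub : (range c).biUnion Bl ⊆ VB m b s n c D η1 a := by
    intro B hB
    obtain ⟨i, hi, hB⟩ := mem_biUnion.1 hB
    simp only [hBl, mem_filter, mem_Ico] at hB
    rw [mem_range] at hi
    unfold VB
    rw [mem_filter, mem_Ico]
    refine ⟨⟨?_, ?_⟩, hB.2⟩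
    · exact (Nat.pow_le_pow_right (by norm_num) (by omega)).trans hB.1.1
    · exact hB.1.2.trans_le (Nat.pow_le_pow_right (by norm_num) (by omega))
  have h1 : ∑ i ∈ range c, (1 : ℝ) / (16 * m * b) ≤ ∑ i ∈ range c, ∑ B ∈ Bl i, (1 : ℝ) / B := by
    refine sum_le_sum fun i hi => ?_
    rw [mem_range] at hi
    have h2 := h5 i hi
    have h2' : (2 : ℝ) ^ (n / s + i) ≤ 8 * m * b * ((Bl i).card : ℝ) := by exact_mod_cast h2
    have h3 : ∀ B ∈ Bl i, 1 / (2 : ℝ) ^ (n / s + i + 1) ≤ 1 / (B : ℝ) := by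
      intro B hB
      simp only [hBl, mem_filter, mem_Ico] at hB
      have hB0 : 0 < B := lt_of_lt_of_le (by positivity) hB.1.1
      have hB0' : (0 : ℝ) < B := by exact_mod_cast hB0
      refine one_div_le_one_div_of_le hB0' ?_
      exact_mod_cast hB.1.2.le
    have h4 := sum_le_sum h3
    rw [sum_const, nsmul_eq_mul] at h4
    refine le_trans ?_ h4
    rw [mul_one_div, pow_succ, div_le_div_iff₀ (by positivity) (by positivity)]
    nlinarith
  rw [sum_const, card_range, nsmul_eq_mul] at h1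
  calc (c : ℝ) / (16 * m * b) = c * (1 / (16 * m * b)) := by ring
    _ ≤ ∑ i ∈ range c, ∑ B ∈ Bl i, (1 : ℝ) / B := h1
    _ = ∑ B ∈ (range c).biUnion Bl, (1 : ℝ) / B := (sum_biUnion hdis).symm
    _ ≤ _ := sum_le_sum_of_subset_of_nonneg hsub fun _ _ _ => by positivity

theorem VB_big (hc : 1 ≤ c) (hm : 0 < m) (hb : 0 < b) (h : PreState m b s n c D η1 η2 a) {k : ℕ}
    (hk : 8 * m * b * k ≤ 2 ^ (n / s)) : k ≤ (VB m b s n c D η1 a).card := by
  obtain ⟨-, -, -, -, h5⟩ := h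
  have h1 := h5 0 (by omega)
  set Bl := (Ico (2 ^ (n / s + 0)) (2 ^ (n / s + 0 + 1))).filter
        (fun B : ℕ => Valid m b s n D η1 a B) with hBl
  have hsub : Bl ⊆ VB m b s n c D η1 a := by
    intro B hB
    rw [hBl, mem_filter, mem_Ico] at hB
    unfold VB
    rw [mem_filter, mem_Ico]
    refine ⟨⟨by simpa using hB.1.1, ?_⟩, hB.2⟩
    exact hB.1.2.trans_le (Nat.pow_le_pow_right (by norm_num) (by omega))
  have h2 : 8 * m * b * k ≤ 8 * m * b * (Bl.card : ℤ) := hk.trans (by simpa using h1)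
  have h3 : (k : ℤ) ≤ Bl.card := le_of_mul_le_mul_left h2 (by positivity)
  exact (by exact_mod_cast h3 : k ≤ Bl.card).trans (card_le_card hsub)

theorem pair_mass {r : ℤ} (hm : 0 < m) (hb : 0 < b) {c4 : ℝ} (hc4 : 0 < c4)
    (h : PreState m b s n c D η1 η2 a)
    (hmass : ∀ B ∈ VB m b s n c D η1 a, c4 * n / ((3 * m ^ 2 * B : ℤ) : ℝ) ≤
      ∑ p ∈ PP m r b s n D a B, (1 : ℝ) / p) {k : ℕ}
    (hk : (k : ℝ) / 2 ^ (n / s) ≤ c / (32 * m * b)) {J : Finset ℕ}
    (hJ : J ⊆ VB m b s n c D η1 a) (hJk : J.card = k) :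
    c4 / (3 * (m : ℝ) ^ 2) * n * (c / (16 * m * b)) ≤
      ∑ B ∈ VB m b s n c D η1 a \ J, ∑ p ∈ PP m r b s n D a B, (2 : ℝ) / p := by
  have hm' : (0 : ℝ) < m := by exact_mod_cast hm
  have hb' : (0 : ℝ) < b := by exact_mod_cast hb
  have h1 : ∀ B ∈ VB m b s n c D η1 a \ J, 2 * (c4 / (3 * (m : ℝ) ^ 2) * n) * (1 / (B : ℝ)) ≤
      ∑ p ∈ PP m r b s n D a B, (2 : ℝ) / p := by
    intro B hB
    have h2 := hmass B (mem_sdiff.1 hB).1
    have h3 : ∑ p ∈ PP m r b s n D a B, (2 : ℝ) / p =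
        2 * ∑ p ∈ PP m r b s n D a B, (1 : ℝ) / p := by
      rw [mul_sum]; exact sum_congr rfl fun p _ => by ring
    rw [h3]
    refine le_trans (le_of_eq ?_) (mul_le_mul_of_nonneg_left h2 (by norm_num))
    push_cast
    have hB0 : (B : ℝ) ≠ 0 := by
      have hB1 := (mem_sdiff.1 hB).1
      unfold VB at hB1
      rw [mem_filter, mem_Ico] at hB1
      have : 0 < B := lt_of_lt_of_le (by positivity) hB1.1.1
      exact_mod_cast this.ne'
    field_simp
  refine le_trans ?_ (sum_le_sum h1)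
  rw [← mul_sum]
  have h4 : ∑ B ∈ VB m b s n c D η1 a \ J, (1 : ℝ) / B =
      ∑ B ∈ VB m b s n c D η1 a, (1 : ℝ) / B - ∑ B ∈ J, (1 : ℝ) / B := by
    rw [← sum_sdiff hJ]; ring
  have h5 : ∑ B ∈ J, (1 : ℝ) / B ≤ k / 2 ^ (n / s) := by
    have h6 : ∀ B ∈ J, (1 : ℝ) / B ≤ 1 / 2 ^ (n / s) := by
      intro B hB
      have hB1 := hJ hB
      unfold VB at hB1
      rw [mem_filter, mem_Ico] at hB1
      refine one_div_le_one_div_of_le (by positivity) ?_
      exact_mod_cast hB1.1.1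
    refine (sum_le_sum h6).trans (le_of_eq ?_)
    rw [sum_const, hJk, nsmul_eq_mul]; ring
  have h7 := VB_sum hm hb h
  rw [h4]
  have h8 : (c : ℝ) / (16 * m * b) = 2 * (c / (32 * m * b)) := by field_simp; ring
  have h9 : c4 / (3 * (m : ℝ) ^ 2) * n * (c / (16 * m * b)) =
      2 * (c4 / (3 * (m : ℝ) ^ 2) * n) * (c / (32 * m * b)) := by rw [h8]; ring
  rw [h9]
  refine mul_le_mul_of_nonneg_left ?_ (by positivity)
  linarith

end Pool.Agent.H48.SF
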