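import Pool.Agent.H48.SF.BM
import Pool.Agent.H48.SF.Roots

/-!
Most `B` are valid.
-/

set_option autoImplicit false

namespace Pool.Agent.H48.SF

open Finset Classical
open Pool.Agent.H95.Gol (bb PB)
open Pool.Agent.H41.Per (PM)
open Pool.Agent.H48.AP (F H Vx Sparse oddCount)

/-- counting a periodic predicate -/
theorem vm_count {q : ℕ} (hq : 0 < q) (E : ℕ → Prop) [DecidablePred E]
    (hE : ∀ t, E t → E (t % q)) (w N : ℕ)
    (hw : ((range q).filter E).card ≤ w) :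
    ((range N).filter E).card ≤ w * (N / q + 1) := by
  have h1 : ((range N).filter E).card ≤ (((range q).filter E) ×ˢ (range (N / q + 1))).card := by
    apply Finset.card_le_card_of_injOn (fun t => (t % q, t / q))
    · intro t ht
      have ht' := Finset.mem_coe.1 ht
      rw [mem_filter, mem_range] at ht'
      apply Finset.mem_coe.2
      simp only [mem_product, mem_filter, mem_range]
      exact ⟨⟨Nat.mod_lt _ hq, hE t ht'.2⟩, Nat.lt_succ_of_le (Nat.div_le_div_right ht'.1.le)⟩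
    · intro a _ b _ hab
      simp only [Prod.mk.injEq] at hab
      rw [← Nat.div_add_mod a q, ← Nat.div_add_mod b q, hab.1, hab.2]
  rw [card_product, card_range] at h1
  exact h1.trans (Nat.mul_le_mul_right _ hw)

/-- values of a quadratic polynomial divisible by a prime power -/
theorem vm_quad {τ : ℕ} (hτ : τ.Prime) (α β γ : ℤ) (h : ¬ (τ : ℤ) ∣ β ^ 2 - 4 * α * γ)
    {j : ℕ} (hj : 1 ≤ j) (N : ℕ) :
    ((range N).filter (fun t : ℕ => (τ : ℤ) ^ j ∣ α * t ^ 2 + β * t + γ)).card ≤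
      2 * (N / τ ^ j + 1) := by
  refine vm_count (pow_pos hτ.pos j) (fun t : ℕ => (τ : ℤ) ^ j ∣ α * t ^ 2 + β * t + γ) ?_ 2 N
    (quad_roots hτ α β γ h hj)
  intro t ht
  have h2 : ((τ : ℤ) ^ j) ∣ (t : ℤ) - ((t % τ ^ j : ℕ) : ℤ) := by
    have := Nat.mod_add_div t (τ ^ j)
    refine ⟨((t / τ ^ j : ℕ) : ℤ), ?_⟩
    have h3 : (t : ℤ) = ((t % τ ^ j : ℕ) : ℤ) + ((τ ^ j : ℕ) : ℤ) * ((t / τ ^ j : ℕ) : ℤ) := by
      exact_mod_cast this.symm
    rw [h3]; push_cast; ring_nf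
  have h5 : α * (t : ℤ) ^ 2 + β * t + γ - (α * ((t % τ ^ j : ℕ) : ℤ) ^ 2 +
      β * ((t % τ ^ j : ℕ) : ℤ) + γ) =
      ((t : ℤ) - ((t % τ ^ j : ℕ) : ℤ)) * (α * (t + ((t % τ ^ j : ℕ) : ℤ)) + β) := by ring
  have h6 : ((τ : ℤ) ^ j) ∣ α * (t : ℤ) ^ 2 + β * t + γ - (α * ((t % τ ^ j : ℕ) : ℤ) ^ 2 +
      β * ((t % τ ^ j : ℕ) : ℤ) + γ) := by
    rw [h5]; exact Dvd.dvd.mul_right h2 _
  exact (dvd_sub_right ht).1 h6

theorem vm_cop {m a b : ℤ} (hV : Vx m a b) : IsCoprime (F m a b) (3 * m * b) := by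
  obtain ⟨h1, h2, h3⟩ := hV
  have h0 : IsCoprime a 3 := by
    refine ⟨1, -(a / 3), ?_⟩
    have := Int.emod_add_mul_ediv a 3
    rw [h3] at this
    linarith
  have e1 : F m a b = a ^ 2 + 3 * (m * a * b + m ^ 2 * b ^ 2) := by unfold F; ring
  have e2 : F m a b = a ^ 2 + m * (3 * a * b + 3 * m * b ^ 2) := by unfold F; ring
  have e3 : F m a b = a ^ 2 + b * (3 * m * a + 3 * m ^ 2 * b) := by unfold F; ring
  have c1 : IsCoprime (F m a b) 3 := by
    rw [e1]; exact (h0.pow_left).add_mul_left_left _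
  have c2 : IsCoprime (F m a b) m := by
    rw [e2]; exact (h2.pow_left).add_mul_left_left _
  have c3 : IsCoprime (F m a b) b := by
    rw [e3]; exact (h1.pow_left).add_mul_left_left _
  exact (c1.mul_right c2).mul_right c3

/-- the admissible `B` in a block and the values `F(x,1)/D` -/
theorem vm_struct {m b : ℤ} (hm : 0 < m) (hb : 0 < b) {D : ℕ} (hD : 1 ≤ D) {a : ℤ}
    (hV : Vx m a b) (hDF : (D : ℤ) ∣ F m a b) (K : ℕ) :
    ∃ (B0 M : ℕ) (α β γ : ℤ), (M : ℤ) = 3 * m * b ∧ K ≤ B0 ∧ B0 < K + M ∧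
      β ^ 2 - 4 * α * γ = -27 * m ^ 4 ∧
      (∀ t : ℕ, Adm m b D (B0 + M * t) a) ∧
      (∀ t : ℕ, U1 m b D (B0 + M * t) a = α * t ^ 2 + β * t + γ) ∧
      (∀ t : ℕ, F m (a - D * ((B0 + M * t : ℕ) : ℤ)) b = b ^ 2 * D * (α * t ^ 2 + β * t + γ)) ∧
      (∀ t : ℕ, IsCoprime (α * (t : ℤ) ^ 2 + β * t + γ) (3 * m)) := by
  have hD0 : (0 : ℤ) < D := by exact_mod_cast hD
  have hM0 : 0 < 3 * m * b := by positivity
  have hc : IsCoprime (D : ℤ) (3 * m * b) := (vm_cop hV).of_isCoprime_of_dvd_left hDF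
  obtain ⟨e, g, heg⟩ := hc
  set r : ℤ := e * (a - b) with hr
  set y0 : ℤ := (K : ℤ) + (r - K) % (3 * m * b) with hy0
  have hy1 : (K : ℤ) ≤ y0 := by
    have := Int.emod_nonneg (r - K) hM0.ne'
    linarith
  have hy2 : y0 < K + 3 * m * b := by
    have := Int.emod_lt_of_pos (r - K) hM0
    linarith
  have hy3 : 3 * m * b ∣ a - D * y0 - b := by
    have h1 : 3 * m * b ∣ r - y0 := by
      have := Int.emod_add_mul_ediv (r - K) (3 * m * b)
      refine ⟨(r - K) / (3 * m * b), ?_⟩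
      rw [hy0]; linarith
    have h2 : a - D * y0 - b = D * (r - y0) + (3 * m * b) * (g * (a - b)) := by
      have : (a - b) = (e * D + g * (3 * m * b)) * (a - b) := by rw [heg]; ring
      rw [hr]
      linear_combination this
    rw [h2]
    exact dvd_add (Dvd.dvd.mul_left h1 _) (Dvd.intro _ rfl)
  obtain ⟨y, hy⟩ := hy3
  have hK0 : (0 : ℤ) ≤ K := Int.natCast_nonneg K
  have hB0 : ((y0.toNat : ℕ) : ℤ) = y0 := Int.toNat_of_nonneg (by linarith)
  have hMM : (((3 * m * b).toNat : ℕ) : ℤ) = 3 * m * b := Int.toNat_of_nonneg hM0.le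
  -- the base point
  set x0 : ℤ := 1 + 3 * m * y with hx0
  have hbx : a - D * y0 = b * x0 := by rw [hx0]; linear_combination hy
  have hFx : (D : ℤ) ∣ F m x0 1 := by
    have h1 : (D : ℤ) ∣ F m (a - D * y0) b := by
      have : F m (a - D * y0) b = F m a b - D * (y0 * (2 * a + 3 * m * b - D * y0)) := by
        unfold F; ring
      rw [this]
      exact dvd_sub hDF (Dvd.intro _ rfl)
    have h2 : F m (a - D * y0) b = b ^ 2 * F m x0 1 := by
      rw [hbx]; unfold F; ring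
    rw [h2] at h1
    have hcb : IsCoprime (D : ℤ) (b ^ 2) :=
      (((vm_cop hV).of_isCoprime_of_dvd_left hDF).of_isCoprime_of_dvd_right
        (Dvd.intro_left _ rfl)).pow_right
    exact hcb.dvd_of_dvd_mul_left h1
  obtain ⟨γ, hγ⟩ := hFx
  refine ⟨y0.toNat, (3 * m * b).toNat, 9 * m ^ 2 * D, -3 * m * (2 * x0 + 3 * m), γ, hMM, ?_, ?_,
    ?_, ?_, ?_, ?_, ?_⟩
  · zify; rw [hB0]; exact hy1
  · zify; rw [hB0, hMM]; exact hy2
  · have : F m x0 1 = x0 ^ 2 + 3 * m * x0 + 3 * m ^ 2 := by unfold F; ring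
    rw [this] at hγ
    linear_combination (36 * m ^ 2) * hγ
  · intro t
    unfold Adm
    push_cast
    rw [hB0, hMM]
    refine ⟨y - D * t, ?_⟩
    linear_combination hy
  · intro t
    unfold U1
    have h1 : F m (a - D * ((y0.toNat + (3 * m * b).toNat * t : ℕ) : ℤ)) b =
        b ^ 2 * D * (9 * m ^ 2 * D * t ^ 2 + -3 * m * (2 * x0 + 3 * m) * t + γ) := by
      push_cast
      rw [hB0, hMM]
      have : a - D * (y0 + 3 * m * b * t) = b * (x0 - 3 * m * D * t) := by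
        linear_combination hbx
      rw [this]
      have h2 : F m x0 1 = x0 ^ 2 + 3 * m * x0 + 3 * m ^ 2 := by unfold F; ring
      rw [h2] at hγ
      unfold F
      linear_combination b ^ 2 * hγ
    rw [h1, Int.mul_ediv_cancel_left _ (by positivity)]
  · intro t
    push_cast
    rw [hB0, hMM]
    have : a - D * (y0 + 3 * m * b * t) = b * (x0 - 3 * m * D * t) := by
      linear_combination hbx
    rw [this]
    have h2 : F m x0 1 = x0 ^ 2 + 3 * m * x0 + 3 * m ^ 2 := by unfold F; ring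
    rw [h2] at hγ
    unfold F
    linear_combination b ^ 2 * hγ
  · intro t
    have h2 : F m x0 1 = x0 ^ 2 + 3 * m * x0 + 3 * m ^ 2 := by unfold F; ring
    rw [h2] at hγ
    set xt : ℤ := x0 - 3 * m * D * t with hxt
    have h3 : (D : ℤ) * (9 * m ^ 2 * D * t ^ 2 + -3 * m * (2 * x0 + 3 * m) * t + γ) =
        1 + (3 * m) * ((y - D * t) * (2 + 3 * m * (y - D * t)) + xt + m) := by
      rw [hxt]
      linear_combination -hγ + (x0 + 1 + 3 * m * y - 6 * m * D * t) * hx0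
    have h4 : IsCoprime ((D : ℤ) * (9 * m ^ 2 * D * t ^ 2 + -3 * m * (2 * x0 + 3 * m) * t + γ))
        (3 * m) := by
      rw [h3]
      exact isCoprime_one_left.add_mul_left_left _
    exact h4.of_mul_left_right

/-- `∑ 1/τ²` over `τ > L` -/
theorem vm_sq {L : ℕ} (hL : 1 ≤ L) (T : ℕ) :
    ∑ τ ∈ Ioc L T, ((τ : ℝ) ^ 2)⁻¹ ≤ 1 / L := by
  rcases le_or_gt L T with h | h
  · have := sum_Ioc_inv_sq_le_sub (α := ℝ) (k := L) (n := T) (by omega) h
    have h2 : (0 : ℝ) ≤ (T : ℝ)⁻¹ := by positivity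
    rw [one_div]; linarith
  · rw [Ioc_eq_empty (by omega)]; simp

/-- `∑ 1/τ` over `τ ≤ T` -/
theorem vm_harm (L T : ℕ) : ∑ τ ∈ Ioc L T, ((τ : ℝ))⁻¹ ≤ 1 + Real.log T := by
  have h1 : ∑ τ ∈ Ioc L T, ((τ : ℝ))⁻¹ ≤ ∑ τ ∈ Icc 1 T, ((τ : ℝ))⁻¹ := by
    apply sum_le_sum_of_subset_of_nonneg
    · intro x hx; rw [mem_Ioc] at hx; rw [mem_Icc]; omega
    · intro i _ _; positivity
  have h2 := harmonic_le_one_add_log T
  rw [harmonic_eq_sum_Icc] at h2
  push_cast at h2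
  exact h1.trans h2

section det

variable {V : ℕ → ℤ} {m : ℤ} {N L0 : ℕ}

theorem vm_sum (hV : ∀ τ : ℕ, τ.Prime → ¬ (τ : ℤ) ∣ 3 * m → ∀ j, 1 ≤ j →
      ((range N).filter (fun t => (τ : ℤ) ^ j ∣ V t)).card ≤ 2 * (N / τ ^ j + 1))
    (hco : ∀ τ : ℕ, τ.Prime → ∀ t, (τ : ℤ) ∣ V t → ¬ (τ : ℤ) ∣ 3 * m)
    (hL : ∀ τ : ℕ, τ.Prime → ¬ (τ : ℤ) ∣ 3 * m → L0 < τ) (wt : ℕ → ℝ) (hwt : ∀ τ, 0 ≤ wt τ)
    (T : ℕ) :
    ∑ t ∈ range N, ∑ τ ∈ (Icc 1 T).filter (fun τ : ℕ => τ.Prime ∧ (τ : ℤ) ∣ V t), wt τ ≤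
      ∑ τ ∈ Ioc L0 T, wt τ * (2 * (N * (τ : ℝ)⁻¹ + 1)) := by
  have h1 : ∀ t ∈ range N, ∑ τ ∈ (Icc 1 T).filter (fun τ : ℕ => τ.Prime ∧ (τ : ℤ) ∣ V t), wt τ ≤
      ∑ τ ∈ Ioc L0 T, if (τ.Prime ∧ ¬ (τ : ℤ) ∣ 3 * m) ∧ (τ : ℤ) ∣ V t then wt τ else 0 := by
    intro t _
    rw [← sum_filter]
    apply sum_le_sum_of_subset_of_nonneg
    · intro τ hτ
      rw [mem_filter, mem_Icc] at hτ
      rw [mem_filter, mem_Ioc]
      have := hco τ hτ.2.1 t hτ.2.2
      exact ⟨⟨hL τ hτ.2.1 this, hτ.1.2⟩, ⟨hτ.2.1, this⟩, hτ.2.2⟩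
    · intro i _ _; exact hwt i
  refine (sum_le_sum h1).trans ?_
  rw [sum_comm]
  apply sum_le_sum
  intro τ hτ
  rw [mem_Ioc] at hτ
  have hτ0 : (0 : ℝ) < τ := by
    have : 0 < τ := by omega
    exact_mod_cast this
  by_cases hp : τ.Prime ∧ ¬ (τ : ℤ) ∣ 3 * m
  · have h2 := hV τ hp.1 hp.2 1 le_rfl
    have h3 : ∑ t ∈ range N, (if (τ.Prime ∧ ¬ (τ : ℤ) ∣ 3 * m) ∧ (τ : ℤ) ∣ V t then wt τ else 0) =
        wt τ * (((range N).filter (fun t => (τ : ℤ) ^ 1 ∣ V t)).card : ℝ) := by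
      rw [← sum_filter, sum_const, nsmul_eq_mul, mul_comm]
      congr 3
      apply filter_congr
      intro t _
      rw [pow_one]
      exact ⟨fun h => h.2, fun h => ⟨hp, h⟩⟩
    rw [h3]
    apply mul_le_mul_of_nonneg_left _ (hwt τ)
    have h4 : (((range N).filter (fun t => (τ : ℤ) ^ 1 ∣ V t)).card : ℝ) ≤
        ((2 * (N / τ ^ 1 + 1) : ℕ) : ℝ) := by exact_mod_cast h2
    refine h4.trans ?_
    push_cast
    have h5 : ((N / τ ^ 1 : ℕ) : ℝ) ≤ (N : ℝ) / (τ : ℝ) := by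
      rw [pow_one]; exact Nat.cast_div_le
    rw [div_eq_mul_inv] at h5
    linarith
  · have h3 : ∑ t ∈ range N, (if (τ.Prime ∧ ¬ (τ : ℤ) ∣ 3 * m) ∧ (τ : ℤ) ∣ V t then wt τ else 0) =
        0 := by
      apply sum_eq_zero
      intro t _
      rw [if_neg]; exact fun h => hp h.1
    rw [h3]
    have := hwt τ
    positivity

theorem vm_b2 (hV : ∀ τ : ℕ, τ.Prime → ¬ (τ : ℤ) ∣ 3 * m → ∀ j, 1 ≤ j →
      ((range N).filter (fun t => (τ : ℤ) ^ j ∣ V t)).card ≤ 2 * (N / τ ^ j + 1))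
    (hco : ∀ τ : ℕ, τ.Prime → ∀ t, (τ : ℤ) ∣ V t → ¬ (τ : ℤ) ∣ 3 * m)
    (hL : ∀ τ : ℕ, τ.Prime → ¬ (τ : ℤ) ∣ 3 * m → L0 < τ) (hL0 : 1 ≤ L0) (T : ℕ) (η : ℝ) :
    η * (((range N).filter (fun t => η < ST T (V t))).card : ℝ) ≤
      2 * N / L0 + 2 * (1 + Real.log T) := by
  have hST : ∀ t, 0 ≤ ST T (V t) := by
    intro t; unfold ST; apply sum_nonneg; intro i _; positivity
  have h1 : η * (((range N).filter (fun t => η < ST T (V t))).card : ℝ) ≤
      ∑ t ∈ range N, ST T (V t) := by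
    calc η * (((range N).filter (fun t => η < ST T (V t))).card : ℝ)
        = ∑ t ∈ (range N).filter (fun t => η < ST T (V t)), η := by
          rw [sum_const, nsmul_eq_mul, mul_comm]
      _ ≤ ∑ t ∈ (range N).filter (fun t => η < ST T (V t)), ST T (V t) := by
          apply sum_le_sum; intro t ht; rw [mem_filter] at ht; exact ht.2.le
      _ ≤ _ := by
          apply sum_le_sum_of_subset_of_nonneg (filter_subset _ _)
          intro i _ _; exact hST i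
  refine h1.trans ?_
  have h2 := vm_sum hV hco hL (fun τ => (1 : ℝ) / τ) (fun τ => by positivity) T
  refine (le_of_eq ?_).trans (h2.trans ?_)
  · apply sum_congr rfl; intro t _; unfold ST; rfl
  · have h3 : ∑ τ ∈ Ioc L0 T, (1 : ℝ) / τ * (2 * (N * (τ : ℝ)⁻¹ + 1)) =
        2 * N * ∑ τ ∈ Ioc L0 T, ((τ : ℝ) ^ 2)⁻¹ + 2 * ∑ τ ∈ Ioc L0 T, ((τ : ℝ))⁻¹ := by
      rw [mul_sum, mul_sum, ← sum_add_distrib]
      apply sum_congr rfl
      intro τ _
      rw [one_div, sq, mul_inv]; ring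
    rw [h3]
    have h4 := vm_sq hL0 T
    have h5 := vm_harm L0 T
    have h6 : 2 * (N : ℝ) * ∑ τ ∈ Ioc L0 T, ((τ : ℝ) ^ 2)⁻¹ ≤ 2 * (N : ℝ) * (1 / L0) :=
      mul_le_mul_of_nonneg_left h4 (by positivity)
    have h7 : 2 * (N : ℝ) * (1 / L0) = 2 * N / L0 := by ring
    linarith

theorem vm_b5 (hV : ∀ τ : ℕ, τ.Prime → ¬ (τ : ℤ) ∣ 3 * m → ∀ j, 1 ≤ j →
      ((range N).filter (fun t => (τ : ℤ) ^ j ∣ V t)).card ≤ 2 * (N / τ ^ j + 1))
    (hco : ∀ τ : ℕ, τ.Prime → ∀ t, (τ : ℤ) ∣ V t → ¬ (τ : ℤ) ∣ 3 * m)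
    (hL : ∀ τ : ℕ, τ.Prime → ¬ (τ : ℤ) ∣ 3 * m → L0 < τ) (T h : ℕ) :
    (h : ℝ) * (((range N).filter (fun t => h < om T (V t) + 1)).card : ℝ) ≤
      2 * N * (1 + Real.log T) + 2 * T := by
  have h1 : (h : ℝ) * (((range N).filter (fun t => h < om T (V t) + 1)).card : ℝ) ≤
      ∑ t ∈ range N, (om T (V t) : ℝ) := by
    calc (h : ℝ) * (((range N).filter (fun t => h < om T (V t) + 1)).card : ℝ)
        = ∑ t ∈ (range N).filter (fun t => h < om T (V t) + 1), (h : ℝ) := by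
          rw [sum_const, nsmul_eq_mul, mul_comm]
      _ ≤ ∑ t ∈ (range N).filter (fun t => h < om T (V t) + 1), (om T (V t) : ℝ) := by
          apply sum_le_sum; intro t ht; rw [mem_filter] at ht
          have := ht.2
          exact_mod_cast (by omega : h ≤ om T (V t))
      _ ≤ _ := by
          apply sum_le_sum_of_subset_of_nonneg (filter_subset _ _)
          intro i _ _; positivity
  refine h1.trans ?_
  have h2 := vm_sum hV hco hL (fun _ => (1 : ℝ)) (fun τ => by positivity) T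
  refine (le_of_eq ?_).trans (h2.trans ?_)
  · apply sum_congr rfl; intro t _; unfold om; rw [sum_const]; simp
  · have h3 : ∑ τ ∈ Ioc L0 T, (1 : ℝ) * (2 * (N * (τ : ℝ)⁻¹ + 1)) =
        2 * N * ∑ τ ∈ Ioc L0 T, ((τ : ℝ))⁻¹ + 2 * (Ioc L0 T).card := by
      rw [mul_sum, card_eq_sum_ones]
      push_cast
      rw [mul_sum, ← sum_add_distrib]
      apply sum_congr rfl
      intro τ _
      ring
    rw [h3]
    have h5 := vm_harm L0 T
    have h6 : 2 * (N : ℝ) * ∑ τ ∈ Ioc L0 T, ((τ : ℝ))⁻¹ ≤ 2 * (N : ℝ) * (1 + Real.log T) :=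
      mul_le_mul_of_nonneg_left h5 (by positivity)
    have h7 : ((Ioc L0 T).card : ℝ) ≤ T := by
      rw [Nat.card_Ioc]; exact_mod_cast Nat.sub_le _ _
    linarith

theorem vm_b1 (hV : ∀ τ : ℕ, τ.Prime → ¬ (τ : ℤ) ∣ 3 * m → ∀ j, 1 ≤ j →
      ((range N).filter (fun t => (τ : ℤ) ^ j ∣ V t)).card ≤ 2 * (N / τ ^ j + 1))
    (hL : ∀ τ : ℕ, τ.Prime → ¬ (τ : ℤ) ∣ 3 * m → L0 < τ) (hL0 : 1 ≤ L0) (T D z : ℕ)
    (hz : N ≤ z ^ 2) (S : Finset ℕ)
    (hS : ∀ τ : ℕ, τ.Prime → z < τ → τ ≤ T → ¬ (τ : ℤ) ∣ 3 * m → ∀ t < N, (τ : ℤ) ^ 2 ∣ V t →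
      τ ∈ S) :
    (((range N).filter (fun t => ∃ τ ∈ Sm m T D, (τ : ℤ) ^ 2 ∣ V t)).card : ℝ) ≤
      2 * N / L0 + 2 * z + 2 * D.primeFactors.card + 2 * S.card := by
  set G : ℕ → Finset ℕ := fun τ => if (τ.Prime ∧ ¬ (τ : ℤ) ∣ 3 * m) then
    (range N).filter (fun t => (τ : ℤ) ^ 2 ∣ V t) else ∅ with hG
  have hGc : ∀ τ : ℕ, τ.Prime → ¬ (τ : ℤ) ∣ 3 * m →
      G τ = (range N).filter (fun t => (τ : ℤ) ^ 2 ∣ V t) := by
    intro τ h1 h2; rw [hG]; simp only; rw [if_pos ⟨h1, h2⟩]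
  have hG2 : ∀ τ : ℕ, z < τ → (G τ).card ≤ 2 := by
    intro τ hτ
    by_cases hp : τ.Prime ∧ ¬ (τ : ℤ) ∣ 3 * m
    · rw [hGc τ hp.1 hp.2]
      refine (hV τ hp.1 hp.2 2 (by norm_num)).trans ?_
      have : N / τ ^ 2 = 0 := by
        apply Nat.div_eq_of_lt
        exact lt_of_le_of_lt hz (Nat.pow_lt_pow_left hτ (by norm_num))
      rw [this]
    · rw [hG]; simp only; rw [if_neg hp]; simp
  have hsub : (range N).filter (fun t => ∃ τ ∈ Sm m T D, (τ : ℤ) ^ 2 ∣ V t) ⊆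
      ((Ioc L0 z).biUnion G) ∪ (((D.primeFactors).filter (fun τ => z < τ)).biUnion G) ∪
        ((S.filter (fun τ => z < τ)).biUnion G) := by
    intro t ht
    rw [mem_filter] at ht
    obtain ⟨ht1, τ, hτS, hτ⟩ := ht
    unfold Sm at hτS
    rw [mem_filter, mem_union, mem_Icc] at hτS
    obtain ⟨hτ1, hp, h3⟩ := hτS
    have htG : t ∈ G τ := by rw [hGc τ hp h3, mem_filter]; exact ⟨ht1, hτ⟩
    rw [mem_union, mem_union]
    rcases le_or_gt τ z with h | h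
    · left; left
      rw [mem_biUnion]; exact ⟨τ, mem_Ioc.2 ⟨hL τ hp h3, h⟩, htG⟩
    · rcases hτ1 with h4 | h4
      · right; rw [mem_biUnion]
        exact ⟨τ, mem_filter.2 ⟨hS τ hp h h4.2 h3 t (mem_range.1 ht1) hτ, h⟩, htG⟩
      · left; right; rw [mem_biUnion]
        exact ⟨τ, mem_filter.2 ⟨h4, h⟩, htG⟩
  have hc1 : (((Ioc L0 z).biUnion G).card : ℝ) ≤ 2 * N / L0 + 2 * z := by
    have h1 : (((Ioc L0 z).biUnion G).card : ℝ) ≤ ∑ τ ∈ Ioc L0 z, ((G τ).card : ℝ) := by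
      exact_mod_cast card_biUnion_le
    refine h1.trans ?_
    have h2 : ∑ τ ∈ Ioc L0 z, ((G τ).card : ℝ) ≤
        ∑ τ ∈ Ioc L0 z, (2 * N * ((τ : ℝ) ^ 2)⁻¹ + 2) := by
      apply sum_le_sum
      intro τ hτ
      rw [mem_Ioc] at hτ
      have hτ0 : (0 : ℝ) < τ := by
        have : 0 < τ := by omega
        exact_mod_cast this
      by_cases hp : τ.Prime ∧ ¬ (τ : ℤ) ∣ 3 * m
      · rw [hGc τ hp.1 hp.2]
        have h2 := hV τ hp.1 hp.2 2 (by norm_num)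
        have h4 : (((range N).filter (fun t => (τ : ℤ) ^ 2 ∣ V t)).card : ℝ) ≤
            ((2 * (N / τ ^ 2 + 1) : ℕ) : ℝ) := by exact_mod_cast h2
        refine h4.trans ?_
        push_cast
        have h5 : ((N / τ ^ 2 : ℕ) : ℝ) ≤ (N : ℝ) / ((τ ^ 2 : ℕ) : ℝ) := Nat.cast_div_le
        push_cast at h5
        rw [div_eq_mul_inv] at h5
        linarith
      · have : G τ = ∅ := by rw [hG]; simp only; rw [if_neg hp]
        rw [this]; simp only [card_empty, Nat.cast_zero]; positivity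
    refine h2.trans ?_
    rw [sum_add_distrib, ← mul_sum, sum_const, nsmul_eq_mul, Nat.card_Ioc]
    have h4 := vm_sq hL0 z
    have h6 : 2 * (N : ℝ) * ∑ τ ∈ Ioc L0 z, ((τ : ℝ) ^ 2)⁻¹ ≤ 2 * (N : ℝ) * (1 / L0) :=
      mul_le_mul_of_nonneg_left h4 (by positivity)
    have h7 : 2 * (N : ℝ) * (1 / L0) = 2 * N / L0 := by ring
    have h8 : ((z - L0 : ℕ) : ℝ) ≤ z := by exact_mod_cast Nat.sub_le _ _
    linarith
  have hc2 : ((((D.primeFactors).filter (fun τ => z < τ)).biUnion G).card : ℝ) ≤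
      2 * D.primeFactors.card := by
    have h1 : (((D.primeFactors).filter (fun τ => z < τ)).biUnion G).card ≤
        ((D.primeFactors).filter (fun τ => z < τ)).card * 2 := by
      apply card_biUnion_le_card_mul
      intro τ hτ; exact hG2 τ (mem_filter.1 hτ).2
    have h2 : ((D.primeFactors).filter (fun τ => z < τ)).card ≤ D.primeFactors.card :=
      card_filter_le _ _
    have h3 : (((D.primeFactors).filter (fun τ => z < τ)).biUnion G).card ≤
        2 * D.primeFactors.card := by omega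
    exact_mod_cast h3
  have hc3 : (((S.filter (fun τ => z < τ)).biUnion G).card : ℝ) ≤ 2 * S.card := by
    have h1 : ((S.filter (fun τ => z < τ)).biUnion G).card ≤
        (S.filter (fun τ => z < τ)).card * 2 := by
      apply card_biUnion_le_card_mul
      intro τ hτ; exact hG2 τ (mem_filter.1 hτ).2
    have h2 : (S.filter (fun τ => z < τ)).card ≤ S.card := card_filter_le _ _
    have h3 : ((S.filter (fun τ => z < τ)).biUnion G).card ≤ 2 * S.card := by omega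
    exact_mod_cast h3
  have h0 := (card_le_card hsub).trans (card_union_le _ _)
  have h01 := card_union_le ((Ioc L0 z).biUnion G) (((D.primeFactors).filter (fun τ => z < τ)).biUnion G)
  have h02 : (((range N).filter (fun t => ∃ τ ∈ Sm m T D, (τ : ℤ) ^ 2 ∣ V t)).card : ℝ) ≤
      (((Ioc L0 z).biUnion G).card : ℝ) +
        ((((D.primeFactors).filter (fun τ => z < τ)).biUnion G).card : ℝ) +
        (((S.filter (fun τ => z < τ)).biUnion G).card : ℝ) := by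
    exact_mod_cast h0.trans (Nat.add_le_add_right h01 _)
  linarith

end det

theorem vm_b3 {N T T0' T' B0 M : ℕ} {U : ℤ} (hU : IsCoprime U (M : ℤ))
    (hB : ∀ t < N, 1 ≤ B0 + M * t ∧ B0 + M * t ≤ T') (hT : T' ≤ T) (hT0 : T' ≤ T0') :
    (((range N).filter (fun t => ¬ IsCoprime ((B0 + M * t : ℕ) : ℤ) U)).card : ℝ) ≤
      N * ST T U + om T0' U := by
  set P := (Icc 1 T').filter (fun τ : ℕ => τ.Prime ∧ (τ : ℤ) ∣ U) with hP
  have hsub : (range N).filter (fun t => ¬ IsCoprime ((B0 + M * t : ℕ) : ℤ) U) ⊆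
      P.biUnion (fun τ => (range N).filter (fun t => τ ∣ B0 + M * t)) := by
    intro t ht
    rw [mem_filter, mem_range] at ht
    obtain ⟨ht1, ht2⟩ := ht
    rw [Int.isCoprime_iff_nat_coprime, Int.natAbs_natCast, Nat.Prime.not_coprime_iff_dvd] at ht2
    obtain ⟨p, hp, hp1, hp2⟩ := ht2
    rw [mem_biUnion]
    refine ⟨p, ?_, ?_⟩
    · rw [hP, mem_filter, mem_Icc]
      have := Nat.le_of_dvd (by have := (hB t ht1).1; omega) hp1
      exact ⟨⟨hp.one_lt.le, this.trans (hB t ht1).2⟩, hp, Int.natCast_dvd.2 hp2⟩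
    · rw [mem_filter, mem_range]; exact ⟨ht1, hp1⟩
  have h1 : ((P.biUnion (fun τ => (range N).filter (fun t => τ ∣ B0 + M * t))).card : ℝ) ≤
      ∑ τ ∈ P, (((range N).filter (fun t => τ ∣ B0 + M * t)).card : ℝ) := by
    exact_mod_cast card_biUnion_le
  have h2 : ∑ τ ∈ P, (((range N).filter (fun t => τ ∣ B0 + M * t)).card : ℝ) ≤
      ∑ τ ∈ P, (N * ((1 : ℝ) / τ) + 1) := by
    apply sum_le_sum
    intro τ hτ
    rw [hP, mem_filter, mem_Icc] at hτ
    obtain ⟨_, hp, hτU⟩ := hτ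
    have hcM : IsCoprime (τ : ℤ) (M : ℤ) := hU.of_isCoprime_of_dvd_left hτU
    have h3 : ((range N).filter (fun t => τ ∣ B0 + M * t)).card ≤ 1 * (N / τ + 1) := by
      apply vm_count hp.pos
      · intro t ht
        have : B0 + M * t = B0 + M * (t % τ) + τ * (M * (t / τ)) := by
          conv_lhs => rw [← Nat.mod_add_div t τ]
          ring
        rw [this] at ht
        exact (Nat.dvd_add_left (Dvd.intro _ rfl)).1 ht
      · rw [card_le_one]
        intro x hx y hy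
        rw [mem_filter, mem_range] at hx hy
        have h4 : (τ : ℤ) ∣ (M : ℤ) * ((x : ℤ) - y) := by
          have hx2 : (τ : ℤ) ∣ ((B0 + M * x : ℕ) : ℤ) := Int.natCast_dvd_natCast.2 hx.2
          have hy2 : (τ : ℤ) ∣ ((B0 + M * y : ℕ) : ℤ) := Int.natCast_dvd_natCast.2 hy.2
          have := dvd_sub hx2 hy2
          push_cast at this
          have e : (B0 : ℤ) + M * x - (B0 + M * y) = M * (x - y) := by ring
          rwa [e] at this
        have h5 : (τ : ℤ) ∣ (x : ℤ) - y := hcM.dvd_of_dvd_mul_left h4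
        have h6 := Int.eq_zero_of_abs_lt_dvd h5 (by
          rw [abs_lt]; constructor
          · have := hx.1; have := hy.1; omega
          · have := hx.1; have := hy.1; omega)
        omega
    have h4 : (((range N).filter (fun t => τ ∣ B0 + M * t)).card : ℝ) ≤
        ((1 * (N / τ + 1) : ℕ) : ℝ) := by exact_mod_cast h3
    refine h4.trans ?_
    push_cast
    have h5 : ((N / τ : ℕ) : ℝ) ≤ (N : ℝ) / (τ : ℝ) := Nat.cast_div_le
    have h6 : (N : ℝ) / τ = N * (1 / τ) := by ring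
    linarith
  have h3 : ∑ τ ∈ P, (N * ((1 : ℝ) / τ) + 1) = N * ∑ τ ∈ P, (1 : ℝ) / τ + P.card := by
    rw [sum_add_distrib, ← mul_sum]; simp
  have h4 : ∑ τ ∈ P, (1 : ℝ) / τ ≤ ST T U := by
    unfold ST
    apply sum_le_sum_of_subset_of_nonneg
    · intro τ hτ
      rw [hP, mem_filter, mem_Icc] at hτ
      rw [mem_filter, mem_Icc]
      exact ⟨⟨hτ.1.1, hτ.1.2.trans hT⟩, hτ.2⟩
    · intro i _ _; positivity
  have h5 : (P.card : ℝ) ≤ om T0' U := by
    unfold om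
    exact_mod_cast card_le_card (by
      intro τ hτ
      rw [hP, mem_filter, mem_Icc] at hτ
      rw [mem_filter, mem_Icc]
      exact ⟨⟨hτ.1.1, hτ.1.2.trans hT0⟩, hτ.2⟩)
  have h6 : ((range N).filter (fun t => ¬ IsCoprime ((B0 + M * t : ℕ) : ℤ) U)).card ≤
      (P.biUnion (fun τ => (range N).filter (fun t => τ ∣ B0 + M * t))).card := card_le_card hsub
  have h7 : (((range N).filter (fun t => ¬ IsCoprime ((B0 + M * t : ℕ) : ℤ) U)).card : ℝ) ≤
      ((P.biUnion (fun τ => (range N).filter (fun t => τ ∣ B0 + M * t))).card : ℝ) := by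
    exact_mod_cast h6
  have h8 : (N : ℝ) * ∑ τ ∈ P, (1 : ℝ) / τ ≤ N * ST T U :=
    mul_le_mul_of_nonneg_left h4 (by positivity)
  linarith

theorem vm_b4 {V : ℕ → ℤ} {m : ℤ} {N L0 : ℕ} (hV : ∀ τ : ℕ, τ.Prime → ¬ (τ : ℤ) ∣ 3 * m →
      ∀ j, 1 ≤ j →
      ((range N).filter (fun t => (τ : ℤ) ^ j ∣ V t)).card ≤ 2 * (N / τ ^ j + 1))
    (hL : ∀ τ : ℕ, τ.Prime → ¬ (τ : ℤ) ∣ 3 * m → L0 < τ) (hL0 : 1 ≤ L0) (D : ℕ)
    (hD : IsCoprime (D : ℤ) (3 * m)) :
    (((range N).filter (fun t => ¬ (1 < D → ¬ (D.minFac : ℤ) ∣ V t))).card : ℝ) ≤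
      2 * N / L0 + 2 := by
  rcases Nat.lt_or_ge 1 D with h | h
  · have hp : D.minFac.Prime := Nat.minFac_prime (by omega)
    have h1 : ¬ (D.minFac : ℤ) ∣ 3 * m := by
      intro h2
      have h3 : (D.minFac : ℤ) ∣ D := Int.natCast_dvd_natCast.2 (Nat.minFac_dvd D)
      have h4 := hD.isUnit_of_dvd' h3 h2
      have h5 := Int.isUnit_iff_natAbs_eq.1 h4
      rw [Int.natAbs_natCast] at h5
      exact hp.one_lt.ne' h5
    have h2 := hV _ hp h1 1 le_rfl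
    have h3 : (range N).filter (fun t => ¬ (1 < D → ¬ (D.minFac : ℤ) ∣ V t)) =
        (range N).filter (fun t => (D.minFac : ℤ) ^ 1 ∣ V t) := by
      apply filter_congr
      intro t _
      rw [pow_one]
      constructor
      · intro h4; by_contra h5; exact h4 (fun _ => h5)
      · intro h4 h5; exact h5 h h4
    rw [h3]
    have h4 : (((range N).filter (fun t => (D.minFac : ℤ) ^ 1 ∣ V t)).card : ℝ) ≤
        ((2 * (N / D.minFac ^ 1 + 1) : ℕ) : ℝ) := by exact_mod_cast h2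
    refine h4.trans ?_
    push_cast
    have h5 : ((N / D.minFac ^ 1 : ℕ) : ℝ) ≤ (N : ℝ) / (D.minFac : ℝ) := by
      rw [pow_one]; exact Nat.cast_div_le
    have h6 : (N : ℝ) / (D.minFac : ℝ) ≤ (N : ℝ) / L0 := by
      apply div_le_div_of_nonneg_left (by positivity) (by exact_mod_cast hL0)
      exact_mod_cast (hL _ hp h1).le
    have h7 : 2 * ((N : ℝ) / L0) = 2 * N / L0 := by ring
    linarith
  · have h3 : (range N).filter (fun t => ¬ (1 < D → ¬ (D.minFac : ℤ) ∣ V t)) = ∅ := by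
      apply filter_eq_empty_iff.2
      intro t _ h4
      exact h4 (fun h5 => absurd h5 (by omega))
    rw [h3]
    simp only [card_empty, Nat.cast_zero]; positivity

/-- the primes `τ ∈ (z, T]` whose square divides some `F(a - DB, b)` -/
noncomputable def vmS (m b : ℤ) (D z T K : ℕ) (a : ℤ) : Finset ℕ :=
  (Ioc z T).filter (fun τ : ℕ => (τ.Prime ∧ ¬ (τ : ℤ) ∣ 3 * m * b) ∧
    ∃ B ∈ Ico K (2 * K), (τ : ℤ) ^ 2 ∣ F m (a - D * (B : ℕ)) b)

/-- the event for one prime -/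
def vmE (m b : ℤ) (D K : ℕ) (τ a : ℕ) : Prop :=
  ∃ B ∈ Ico K (2 * K), (τ : ℤ) ^ 2 ∣ F m ((a : ℤ) - D * (B : ℕ)) b

theorem vm_per (m b : ℤ) (D K τ a : ℕ) : vmE m b D K τ a ↔ vmE m b D K τ (a % τ ^ 2) := by
  have hper : ∀ B : ℕ, ((τ : ℤ) ^ 2 ∣ F m ((a : ℤ) - D * (B : ℕ)) b ↔
      (τ : ℤ) ^ 2 ∣ F m (((a % τ ^ 2 : ℕ) : ℤ) - D * (B : ℕ)) b) := by
    intro B
    have h3 : (a : ℤ) = ((a % τ ^ 2 : ℕ) : ℤ) + ((τ ^ 2 : ℕ) : ℤ) * ((a / τ ^ 2 : ℕ) : ℤ) := by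
      exact_mod_cast (Nat.mod_add_div a (τ ^ 2)).symm
    generalize ((a % τ ^ 2 : ℕ) : ℤ) = a' at h3 ⊢
    generalize ((a / τ ^ 2 : ℕ) : ℤ) = w at h3
    have h4 : F m ((a : ℤ) - D * (B : ℕ)) b = F m (a' - D * (B : ℕ)) b +
        (τ : ℤ) ^ 2 * (w * (2 * (a' - D * B) + (τ : ℤ) ^ 2 * w + 3 * m * b)) := by
      rw [h3]; unfold F; push_cast; ring
    rw [h4]
    exact (dvd_add_left (Dvd.intro _ rfl))
  unfold vmE
  constructor
  · rintro ⟨B, hB, h⟩; exact ⟨B, hB, (hper B).1 h⟩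
  · rintro ⟨B, hB, h⟩; exact ⟨B, hB, (hper B).2 h⟩

theorem vm_om (m b : ℤ) (D K τ : ℕ) (hp : τ.Prime) (h : ¬ (τ : ℤ) ∣ 3 * m * b) :
    ((range (τ ^ 2)).filter (vmE m b D K τ)).card ≤ 2 * K := by
  have h1 : (range (τ ^ 2)).filter (vmE m b D K τ) ⊆ (Ico K (2 * K)).biUnion (fun B =>
      (range (τ ^ 2)).filter (fun a : ℕ => (τ : ℤ) ^ 2 ∣ F m ((a : ℤ) - D * (B : ℕ)) b)) := by
    intro a ha
    rw [mem_filter] at ha
    obtain ⟨ha1, B, hB, h⟩ := ha
    rw [mem_biUnion]; exact ⟨B, hB, mem_filter.2 ⟨ha1, h⟩⟩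
  have h2 : ((Ico K (2 * K)).biUnion (fun B =>
      (range (τ ^ 2)).filter (fun a : ℕ => (τ : ℤ) ^ 2 ∣ F m ((a : ℤ) - D * (B : ℕ)) b))).card ≤
      (Ico K (2 * K)).card * 2 := by
    apply card_biUnion_le_card_mul
    intro B _
    exact F_roots hp m b (D * (B : ℕ)) h (by norm_num)
  have h3 : (Ico K (2 * K)).card = K := by rw [Nat.card_Ico]; omega
  have h4 := (card_le_card h1).trans h2
  rw [h3] at h4
  omega

theorem vm_low {I S : Finset ℕ} {k n1 : ℕ} (P : Finset ℕ → Prop) {_ : DecidablePred P}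
    (hn : n1 ≤ S.card) (hS : S ⊆ I) (hP : ∀ J ⊆ S, P J) :
    (n1.choose k : ℝ) ≤ (((I.powersetCard k).filter P).card : ℝ) := by
  have h1 : (powersetCard k S) ⊆ (I.powersetCard k).filter P := by
    intro J hJ
    rw [mem_powersetCard] at hJ
    rw [mem_filter, mem_powersetCard]
    exact ⟨⟨hJ.1.trans hS, hJ.2⟩, hP J hJ.1⟩
  have h2 := card_le_card h1
  rw [card_powersetCard] at h2
  exact_mod_cast (Nat.choose_le_choose k hn).trans h2

theorem vm_pre (m b : ℤ) (D z T K n1 k X : ℕ) :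
    (k.factorial : ℝ) * (((Icc 1 X).filter (fun a : ℕ => n1 ≤ (vmS m b D z T K a).card)).card *
      (n1.choose k : ℝ)) ≤
      ((X + 1 : ℕ) : ℝ) * (∑ i ∈ (Ioc z T).filter (fun τ : ℕ => τ.Prime ∧ ¬ (τ : ℤ) ∣ 3 * m * b),
        ((2 * K : ℕ) : ℝ) / ((i ^ 2 : ℕ) : ℝ)) ^ k +
      (∑ i ∈ (Ioc z T).filter (fun τ : ℕ => τ.Prime ∧ ¬ (τ : ℤ) ∣ 3 * m * b),
        ((2 * K : ℕ) : ℝ)) ^ k := by
  set I := (Ioc z T).filter (fun τ : ℕ => τ.Prime ∧ ¬ (τ : ℤ) ∣ 3 * m * b) with hI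
  have hIm : ∀ τ ∈ I, (z < τ ∧ τ ≤ T) ∧ τ.Prime ∧ ¬ (τ : ℤ) ∣ 3 * m * b := by
    intro τ hτ; rw [hI, mem_filter, mem_Ioc] at hτ; exact hτ
  obtain ⟨G, hG0, hG1, hG2⟩ : ∃ G : ℕ → ℝ, (∀ a, 0 ≤ G a) ∧
      (∀ a ∈ (Icc 1 X).filter (fun a : ℕ => n1 ≤ (vmS m b D z T K a).card),
        (n1.choose k : ℝ) ≤ G a) ∧
      (k.factorial : ℝ) * ∑ a ∈ range (X + 1), G a ≤ ((X + 1 : ℕ) : ℝ) *
        (∑ i ∈ I, ((2 * K : ℕ) : ℝ) / ((i ^ 2 : ℕ) : ℝ)) ^ k + (∑ i ∈ I, ((2 * K : ℕ) : ℝ)) ^ k := by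
    refine ⟨_, ?_, ?_, bm I (fun τ => τ ^ 2) (fun _ => 2 * K) (vmE m b D K)
      (fun τ hτ => pow_pos (hIm τ hτ).2.1.pos 2)
      (fun τ hτ a => vm_per m b D K τ a)
      (fun τ hτ => vm_om m b D K τ (hIm τ hτ).2.1 (hIm τ hτ).2.2) k (X + 1)⟩
    · intro a; positivity
    · intro a ha
      rw [mem_filter] at ha
      apply vm_low _ ha.2
      · intro i hi
        unfold vmS at hi
        rw [mem_filter] at hi
        rw [hI, mem_filter]; exact ⟨hi.1, hi.2.1⟩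
      · intro J hJ
        have hJ' : ∀ i ∈ J, ((z < i ∧ i ≤ T) ∧ i.Prime ∧ ¬ (i : ℤ) ∣ 3 * m * b) ∧
            vmE m b D K i a := by
          intro i hi
          have := hJ hi
          unfold vmS at this
          rw [mem_filter, mem_Ioc] at this
          exact ⟨⟨this.1, this.2.1⟩, this.2.2⟩
        refine ⟨?_, ?_⟩
        · intro i hi i' hi' hne
          exact Nat.Coprime.pow _ _ ((Nat.coprime_primes (hJ' i hi).1.2.1 (hJ' i' hi').1.2.1).2 hne)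
        · intro i hi; exact (hJ' i hi).2
  refine le_trans (mul_le_mul_of_nonneg_left ?_ (by positivity)) hG2
  rw [← nsmul_eq_mul, ← sum_const]
  refine (sum_le_sum hG1).trans ?_
  apply sum_le_sum_of_subset_of_nonneg
  · intro a ha
    rw [mem_filter, mem_Icc] at ha
    rw [mem_range]; omega
  · intro i _ _; exact hG0 i

theorem vm_exc (m b : ℤ) (D z T K n1 k X : ℕ) (hz : 1 ≤ z) :
    (((Icc 1 X).filter (fun a : ℕ => n1 ≤ (vmS m b D z T K a).card)).card : ℝ) *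
      ((n1 + 1 - k : ℕ) : ℝ) ^ k ≤
      (X + 1) * (2 * K / z) ^ k + (2 * K * T) ^ k := by
  have hpre := vm_pre m b D z T K n1 k X
  set I := (Ioc z T).filter (fun τ : ℕ => τ.Prime ∧ ¬ (τ : ℤ) ∣ 3 * m * b) with hI
  have h2 : ((n1 + 1 - k : ℕ) : ℝ) ^ k ≤ (k.factorial : ℝ) * (n1.choose k : ℝ) := by
    have := Nat.pow_sub_le_descFactorial n1 k
    rw [Nat.descFactorial_eq_factorial_mul_choose] at this
    exact_mod_cast this
  have h3 : (((Icc 1 X).filter (fun a : ℕ => n1 ≤ (vmS m b D z T K a).card)).card : ℝ) *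
      ((n1 + 1 - k : ℕ) : ℝ) ^ k ≤ (k.factorial : ℝ) * (((Icc 1 X).filter
        (fun a : ℕ => n1 ≤ (vmS m b D z T K a).card)).card * (n1.choose k : ℝ)) := by
    have := mul_le_mul_of_nonneg_left h2 (by positivity : (0 : ℝ) ≤ (((Icc 1 X).filter
      (fun a : ℕ => n1 ≤ (vmS m b D z T K a).card)).card : ℝ))
    linarith
  refine h3.trans (hpre.trans ?_)
  have h4 : ∑ i ∈ I, ((2 * K : ℕ) : ℝ) / ((i ^ 2 : ℕ) : ℝ) ≤ 2 * K / z := by
    have h5 : ∑ i ∈ I, ((2 * K : ℕ) : ℝ) / ((i ^ 2 : ℕ) : ℝ) ≤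
        ∑ i ∈ Ioc z T, ((2 * K : ℕ) : ℝ) / ((i ^ 2 : ℕ) : ℝ) := by
      apply sum_le_sum_of_subset_of_nonneg (filter_subset _ _)
      intro i _ _; positivity
    refine h5.trans ?_
    have h6 : ∑ i ∈ Ioc z T, ((2 * K : ℕ) : ℝ) / ((i ^ 2 : ℕ) : ℝ) =
        (2 * K) * ∑ i ∈ Ioc z T, ((i : ℝ) ^ 2)⁻¹ := by
      rw [mul_sum]; apply sum_congr rfl; intro i _; push_cast; rw [div_eq_mul_inv]
    rw [h6]
    have h7 := mul_le_mul_of_nonneg_left (vm_sq hz T) (by positivity : (0 : ℝ) ≤ 2 * K)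
    refine h7.trans (le_of_eq ?_)
    ring
  have h5 : ∑ i ∈ I, ((2 * K : ℕ) : ℝ) ≤ 2 * K * T := by
    rw [sum_const, nsmul_eq_mul]
    have h6 : (I.card : ℝ) ≤ T := by
      have : I.card ≤ (Ioc z T).card := card_le_card (filter_subset _ _)
      rw [Nat.card_Ioc] at this
      exact_mod_cast this.trans (Nat.sub_le _ _)
    push_cast
    nlinarith [mul_le_mul_of_nonneg_right h6 (by positivity : (0 : ℝ) ≤ 2 * (K : ℝ))]
  apply add_le_add
  · rw [Nat.cast_add, Nat.cast_one]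
    apply mul_le_mul_of_nonneg_left _ (by positivity)
    exact pow_le_pow_left₀ (by positivity) h4 k
  · exact pow_le_pow_left₀ (by positivity) h5 k

theorem vm_primeFactors_card {D : ℕ} (hD : 1 ≤ D) {e : ℕ} (h : D ≤ 2 ^ e) :
    D.primeFactors.card ≤ e := by
  have h1 : 2 ^ D.primeFactors.card ≤ ∏ p ∈ D.primeFactors, p := by
    apply Finset.pow_card_le_prod
    intro p hp
    exact (Nat.prime_of_mem_primeFactors hp).two_le
  have h2 : ∏ p ∈ D.primeFactors, p ≤ D := Nat.le_of_dvd hD (Nat.prod_primeFactors_dvd D)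
  exact (Nat.pow_le_pow_iff_right (by norm_num)).1 (h1.trans (h2.trans h))

/-- the number of valid `B` in one block, for a vertex without exceptional primes -/
theorem vm_det (η1 η2 : ℝ) (L0 : ℕ) (h1 : 0 < η1) (hL' : 1 ≤ L0) (m b : ℤ) (hm : 0 < m)
    (hb : 0 < b) (hmL : ∀ τ : ℕ, τ.Prime → τ ≤ L0 → (τ : ℤ) ∣ m) (s n : ℕ) (D : ℕ) (hD : 1 ≤ D)
    (a : ℤ) (hV : Vx m a b) (hDF : (D : ℤ) ∣ F m a b) (hST : ST (Tn s n) (Uf m b D a) ≤ η2)
    (hom : om (T0 s n) (Uf m b D a) ≤ H1 s n) (K z N : ℕ) (hK : 1 ≤ K)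
    (hN : (N : ℤ) * (3 * m * b) ≤ K) (hz : N ≤ z ^ 2) (hbz : b ≤ z) (hKT : 2 * K ≤ Tn s n)
    (hKT0 : 2 * K ≤ T0 s n) (hH : 1 ≤ H1 s n) :
    (N : ℝ) ≤ (((Ico K (2 * K)).filter (fun B : ℕ => Valid m b s n D η1 a B)).card : ℝ) +
      (2 * N / L0 + 2 * z + 2 * D.primeFactors.card + 2 * (vmS m b D z (Tn s n) K a).card) +
      (2 * N / L0 + 2 * (1 + Real.log (Tn s n))) / η1 + (N * η2 + H1 s n) + (2 * N / L0 + 2) +
      (2 * N * (1 + Real.log (T0 s n)) + 2 * T0 s n) / H1 s n := by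
  obtain ⟨B0, M, α, β, γ, hM, hB1, hB2, hdisc, hadm, hU1, hF, hcop⟩ := vm_struct hm hb hD hV hDF K
  set V : ℕ → ℤ := fun t => α * (t : ℤ) ^ 2 + β * t + γ with hVdef
  have hM0 : 0 < M := by
    have : (0 : ℤ) < (M : ℤ) := by rw [hM]; positivity
    exact_mod_cast this
  have hNM : N * M ≤ K := by
    have : ((N * M : ℕ) : ℤ) ≤ (K : ℤ) := by push_cast; rw [hM]; exact hN
    exact_mod_cast this
  have hrange : ∀ t < N, K ≤ B0 + M * t ∧ B0 + M * t < 2 * K := by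
    intro t ht
    have h2 : M * (t + 1) ≤ N * M := by rw [mul_comm N M]; exact Nat.mul_le_mul_left _ ht
    constructor
    · exact hB1.trans (Nat.le_add_right _ _)
    · rw [mul_add, mul_one] at h2; omega
  -- divisibility facts
  have hq : ∀ τ : ℕ, τ.Prime → ¬ (τ : ℤ) ∣ 3 * m → ∀ j, 1 ≤ j →
      ((range N).filter (fun t => (τ : ℤ) ^ j ∣ V t)).card ≤ 2 * (N / τ ^ j + 1) := by
    intro τ hτ h3 j hj
    apply vm_quad hτ α β γ _ hj N
    rw [hdisc]
    intro h4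
    have hp := Nat.prime_iff_prime_int.1 hτ
    have h5 : (τ : ℤ) ∣ (3 * m) ^ 4 := by
      have : (3 * m) ^ 4 = (-3) * (-27 * m ^ 4) := by ring
      rw [this]; exact Dvd.dvd.mul_left h4 _
    exact h3 (hp.dvd_of_dvd_pow h5)
  have hco : ∀ τ : ℕ, τ.Prime → ∀ t, (τ : ℤ) ∣ V t → ¬ (τ : ℤ) ∣ 3 * m := by
    intro τ hτ t ht h3
    have h4 := (hcop t).isUnit_of_dvd' ht h3
    have h5 := Int.isUnit_iff_natAbs_eq.1 h4
    rw [Int.natAbs_natCast] at h5
    exact hτ.one_lt.ne' h5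
  have hL : ∀ τ : ℕ, τ.Prime → ¬ (τ : ℤ) ∣ 3 * m → L0 < τ := by
    intro τ hτ h3
    by_contra h4
    exact h3 (Dvd.dvd.mul_left (hmL τ hτ (by omega)) 3)
  have hcF := vm_cop hV
  have hDc : IsCoprime (D : ℤ) (3 * m * b) := hcF.of_isCoprime_of_dvd_left hDF
  have hUc : IsCoprime (Uf m b D a) (M : ℤ) := by
    rw [hM]
    apply hcF.of_isCoprime_of_dvd_left
    unfold Uf
    exact Int.ediv_dvd_of_dvd hDF
  -- the five bad sets
  have hb1 := vm_b1 (V := V) hq hL hL' (Tn s n) D z hz (vmS m b D z (Tn s n) K a) (by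
    intro τ hτ h2 h3 h4 t ht h5
    unfold vmS
    rw [mem_filter, mem_Ioc]
    refine ⟨⟨h2, h3⟩, ⟨hτ, ?_⟩, B0 + M * t, ?_, ?_⟩
    · intro h6
      have hp := Nat.prime_iff_prime_int.1 hτ
      rcases hp.dvd_or_dvd h6 with h7 | h7
      · exact h4 h7
      · have := Int.le_of_dvd hb h7
        have : (τ : ℤ) ≤ z := this.trans hbz
        have : τ ≤ z := by exact_mod_cast this
        omega
    · rw [mem_Ico]; exact hrange t ht
    · have := hF t
      rw [this]; exact Dvd.dvd.mul_left h5 _)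
  have hb2 := vm_b2 (V := V) hq hco hL hL' (Tn s n) η1
  have hb5 := vm_b5 (V := V) hq hco hL (T0 s n) (H1 s n)
  have hb4 := vm_b4 (V := V) hq hL hL' D (hDc.of_isCoprime_of_dvd_right (Dvd.intro _ rfl))
  have hb3 := vm_b3 (N := N) (T := Tn s n) (T0' := T0 s n) (T' := 2 * K) (B0 := B0) (M := M)
    hUc (fun t ht => ⟨by have := (hrange t ht).1; omega, (hrange t ht).2.le⟩) hKT hKT0
  set S0 := (range N).filter (fun t => Valid m b s n D η1 a (B0 + M * t)) with hS0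
  set S1 := (range N).filter (fun t => ∃ τ ∈ Sm m (Tn s n) D, (τ : ℤ) ^ 2 ∣ V t) with hS1
  set S2 := (range N).filter (fun t => η1 < ST (Tn s n) (V t)) with hS2
  set S3 := (range N).filter (fun t => ¬ IsCoprime ((B0 + M * t : ℕ) : ℤ) (Uf m b D a)) with hS3
  set S4 := (range N).filter (fun t => ¬ (1 < D → ¬ (D.minFac : ℤ) ∣ V t)) with hS4
  set S5 := (range N).filter (fun t => H1 s n < om (T0 s n) (V t) + 1) with hS5
  have hcover : range N ⊆ S0 ∪ S1 ∪ S2 ∪ S3 ∪ S4 ∪ S5 := by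
    intro t ht
    by_contra hcon
    simp only [mem_union, not_or] at hcon
    obtain ⟨⟨⟨⟨⟨c0, c1⟩, c2⟩, c3⟩, c4⟩, c5⟩ := hcon
    apply c0
    rw [hS0, mem_filter]
    refine ⟨ht, ?_⟩
    have e1 : U1 m b D (B0 + M * t) a = V t := hU1 t
    refine ⟨hadm t, ?_, ?_, ?_, ?_, ?_⟩
    · intro τ hτ h6
      apply c1; rw [hS1, mem_filter]; refine ⟨ht, τ, hτ, ?_⟩
      rwa [e1] at h6
    · rw [e1]; by_contra h6
      apply c2; rw [hS2, mem_filter]; exact ⟨ht, not_le.1 h6⟩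
    · by_contra h6
      apply c3; rw [hS3, mem_filter]; exact ⟨ht, h6⟩
    · rw [e1]; by_contra h6
      apply c4; rw [hS4, mem_filter]; exact ⟨ht, h6⟩
    · rw [e1]; by_contra h6
      apply c5; rw [hS5, mem_filter]; exact ⟨ht, not_le.1 h6⟩
  have hS0c : S0.card ≤ ((Ico K (2 * K)).filter (fun B : ℕ => Valid m b s n D η1 a B)).card := by
    apply Finset.card_le_card_of_injOn (fun t => B0 + M * t)
    · intro t ht
      have ht' := Finset.mem_coe.1 ht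
      rw [hS0, mem_filter, mem_range] at ht'
      apply Finset.mem_coe.2
      rw [mem_filter, mem_Ico]
      exact ⟨hrange t ht'.1, ht'.2⟩
    · intro x _ y _ hxy
      simp only at hxy
      exact Nat.eq_of_mul_eq_mul_left hM0 (by omega)
  have hcard : N ≤ S0.card + S1.card + S2.card + S3.card + S4.card + S5.card := by
    have h2 := card_le_card hcover
    rw [card_range] at h2
    refine h2.trans ?_
    refine (card_union_le _ _).trans (Nat.add_le_add_right ?_ _)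
    refine (card_union_le _ _).trans (Nat.add_le_add_right ?_ _)
    refine (card_union_le _ _).trans (Nat.add_le_add_right ?_ _)
    refine (card_union_le _ _).trans (Nat.add_le_add_right ?_ _)
    exact card_union_le _ _
  have hcard' : (N : ℝ) ≤ S0.card + S1.card + S2.card + S3.card + S4.card + S5.card := by
    exact_mod_cast hcard
  have hS0c' : (S0.card : ℝ) ≤
      (((Ico K (2 * K)).filter (fun B : ℕ => Valid m b s n D η1 a B)).card : ℝ) := by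
    exact_mod_cast hS0c
  have hb2' : (S2.card : ℝ) ≤ (2 * N / L0 + 2 * (1 + Real.log (Tn s n))) / η1 := by
    rw [le_div_iff₀ h1, mul_comm]; exact hb2
  have hH' : (0 : ℝ) < H1 s n := by exact_mod_cast hH
  have hb5' : (S5.card : ℝ) ≤ (2 * N * (1 + Real.log (T0 s n)) + 2 * T0 s n) / H1 s n := by
    rw [le_div_iff₀ hH', mul_comm]; exact hb5
  have hb3' : (S3.card : ℝ) ≤ N * η2 + H1 s n := by
    refine hb3.trans ?_
    have h2 : (N : ℝ) * ST (Tn s n) (Uf m b D a) ≤ N * η2 :=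
      mul_le_mul_of_nonneg_left hST (by positivity)
    have h3 : (om (T0 s n) (Uf m b D a) : ℝ) ≤ H1 s n := by exact_mod_cast hom
    linarith
  linarith

theorem vm_exp (A : ℝ) : ∃ w0 : ℕ, ∀ w ≥ w0, A * (w + 1) ≤ 2 ^ w := by
  have h := (isLittleO_pow_const_const_pow_of_one_lt (R := ℝ) 1 (by norm_num : (1 : ℝ) < 2))
  have h2 := h.def (show (0 : ℝ) < 1 / (2 * (|A| + 1)) by positivity)
  rw [Filter.eventually_atTop] at h2
  obtain ⟨w1, hw1⟩ := h2
  refine ⟨max w1 1, fun w hw => ?_⟩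
  have h3 := hw1 w (le_trans (le_max_left _ _) hw)
  have hw' : 1 ≤ w := le_trans (le_max_right _ _) hw
  have hwR : (1 : ℝ) ≤ w := by exact_mod_cast hw'
  rw [Real.norm_eq_abs, Real.norm_eq_abs, pow_one, abs_of_nonneg (by positivity : (0 : ℝ) ≤ w),
    abs_of_nonneg (by positivity : (0 : ℝ) ≤ 2 ^ w), div_mul_eq_mul_div, le_div_iff₀ (by positivity)] at h3
  have h4 : A ≤ |A| := le_abs_self A
  nlinarith [abs_nonneg A]

theorem vm_w {s n : ℕ} (hs : 1 ≤ s) : n + 1 ≤ 2 * s * (n / s / 2 + 1) := by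
  have h1 : n < s * (n / s + 1) := Nat.lt_mul_div_succ n hs
  have h2 : n / s + 1 ≤ 2 * (n / s / 2 + 1) := by omega
  have h3 : s * (n / s + 1) ≤ s * (2 * (n / s / 2 + 1)) := Nat.mul_le_mul_left s h2
  have h4 : s * (2 * (n / s / 2 + 1)) = 2 * s * (n / s / 2 + 1) := by ring
  omega

theorem vm_big (A : ℝ) {s : ℕ} (hs : 1 ≤ s) : ∃ n0 : ℕ, ∀ n ≥ n0,
    A * (n + 1) ≤ 2 ^ (n / s / 2) := by
  obtain ⟨w0, hw0⟩ := vm_exp (|A| * (2 * s))
  refine ⟨w0 * (s * 2), fun n hn => ?_⟩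
  have h1 : w0 ≤ n / s / 2 := by
    rw [Nat.div_div_eq_div_mul, Nat.le_div_iff_mul_le (by positivity)]; exact hn
  have h2 := hw0 _ h1
  have h3 : ((n : ℝ) + 1) ≤ 2 * s * (((n / s / 2 : ℕ) : ℝ) + 1) := by exact_mod_cast vm_w hs
  have h4 : A * (n + 1) ≤ |A| * (n + 1) :=
    mul_le_mul_of_nonneg_right (le_abs_self A) (by positivity)
  have h5 : |A| * ((n : ℝ) + 1) ≤ |A| * (2 * s * (((n / s / 2 : ℕ) : ℝ) + 1)) :=
    mul_le_mul_of_nonneg_left h3 (abs_nonneg A)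
  calc A * (n + 1) ≤ |A| * (2 * s * (((n / s / 2 : ℕ) : ℝ) + 1)) := h4.trans h5
    _ = |A| * (2 * s) * (((n / s / 2 : ℕ) : ℝ) + 1) := by ring
    _ ≤ _ := h2

/-- the number of exceptional `a`, final form -/
theorem vm_num2 (s κ c : ℕ) (M : ℝ) (hs : 1 ≤ s) (hM : 1 ≤ M) :
    ∃ n0 : ℕ, ∀ n ≥ n0, ∀ j : ℕ, 2 ^ n ≤ j → ∀ x : ℝ,
      x ≤ (2 ^ j + 1) * (64 * M / 2 ^ (n / s / 2 + c)) ^ (2 * s * (κ + 2)) +
        (64 * M * 2 ^ (4 * (n / s))) ^ (2 * s * (κ + 2)) →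
      c * x ≤ 2 ^ j / 2 ^ (κ * n) := by
  set k := 2 * s * (κ + 2) with hk
  set Cst : ℝ := (64 * M) ^ k with hCst
  have hCst0 : 0 < Cst := by positivity
  have e1 : ∃ n1 : ℕ, ∀ n ≥ n1, 4 * (c + 1) * Cst * 2 ^ k ≤ (2 : ℝ) ^ n := by
    obtain ⟨w0, hw0⟩ := vm_exp (4 * (c + 1) * Cst * 2 ^ k)
    refine ⟨w0, fun n hn => ?_⟩
    have := hw0 n hn
    have h2 : 4 * (c + 1) * Cst * 2 ^ k * 1 ≤ 4 * (c + 1) * Cst * 2 ^ k * ((n : ℝ) + 1) := by
      apply mul_le_mul_of_nonneg_left _ (by positivity)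
      have : (0 : ℝ) ≤ n := by positivity
      linarith
    linarith
  obtain ⟨n1, hn1⟩ := e1
  obtain ⟨n2, hn2⟩ := vm_exp ((κ : ℝ) + 4 * k + 1)
  refine ⟨max n1 n2, fun n hn j hj x hx => ?_⟩
  have g1 := hn1 n (le_trans (le_max_left _ _) hn)
  have g2 := hn2 n (le_trans (le_max_right _ _) hn)
  set w := n / s / 2 with hw
  have hwk : (κ + 2) * (n + 1) ≤ w * k + k := by
    have h1 := vm_w (n := n) hs
    have h2 : (κ + 2) * (n + 1) ≤ (κ + 2) * (2 * s * (w + 1)) := Nat.mul_le_mul_left _ h1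
    calc (κ + 2) * (n + 1) ≤ (κ + 2) * (2 * s * (w + 1)) := h2
      _ = w * k + k := by rw [hk]; ring
  -- first term
  have t1 : (c : ℝ) * ((2 ^ j + 1) * (64 * M / 2 ^ (w + c)) ^ k) ≤ 2 ^ j / 2 ^ (κ * n) / 2 := by
    have h1 : (64 * M / 2 ^ (w + c)) ^ k ≤ Cst / 2 ^ (w * k) := by
      rw [div_pow, ← hCst, ← pow_mul]
      apply div_le_div_of_nonneg_left hCst0.le (by positivity)
      apply pow_le_pow_right₀ (by norm_num)
      exact Nat.mul_le_mul_right k (Nat.le_add_right w c)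
    have h2 : (2 : ℝ) ^ (κ * n) * 2 ^ n * 2 ^ n ≤ 2 ^ (w * k) * 2 ^ k := by
      rw [← pow_add, ← pow_add, ← pow_add]
      apply pow_le_pow_right₀ (by norm_num)
      nlinarith
    have h3 : (c : ℝ) * ((2 ^ j + 1) * (64 * M / 2 ^ (w + c)) ^ k) ≤
        (c + 1) * ((2 * 2 ^ j) * (Cst / 2 ^ (w * k))) := by
      have hj1 : (1 : ℝ) ≤ 2 ^ j := one_le_pow₀ (by norm_num)
      apply mul_le_mul (by linarith) _ (by positivity) (by positivity)
      apply mul_le_mul (by linarith) h1 (by positivity) (by positivity)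
    refine h3.trans ?_
    have h4 : (c + 1 : ℝ) * ((2 * 2 ^ j) * (Cst / 2 ^ (w * k))) =
        2 ^ j * ((c + 1) * 2 * Cst / 2 ^ (w * k)) := by ring
    have h5 : (2 : ℝ) ^ j / 2 ^ (κ * n) / 2 = 2 ^ j * (1 / (2 ^ (κ * n) * 2)) := by
      field_simp
    rw [h4, h5]
    apply mul_le_mul_of_nonneg_left _ (by positivity)
    rw [div_le_div_iff₀ (by positivity) (by positivity)]
    have h6 : (1 : ℝ) ≤ 2 ^ n := one_le_pow₀ (by norm_num)
    have h7 : 4 * (c + 1) * Cst * 2 ^ k * 2 ^ (κ * n) ≤ 2 ^ (w * k) * 2 ^ k := by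
      calc 4 * (c + 1) * Cst * 2 ^ k * 2 ^ (κ * n) ≤ 2 ^ n * 2 ^ (κ * n) :=
            mul_le_mul_of_nonneg_right g1 (by positivity)
        _ ≤ 2 ^ n * 2 ^ (κ * n) * 2 ^ n := le_mul_of_one_le_right (by positivity) h6
        _ = 2 ^ (κ * n) * 2 ^ n * 2 ^ n := by ring
        _ ≤ _ := h2
    have h8 : (0 : ℝ) < 2 ^ k := by positivity
    have h9 : (c + 1) * 2 * Cst * (2 ^ (κ * n) * 2) * 2 ^ k ≤ 1 * 2 ^ (w * k) * 2 ^ k := by
      linarith
    exact le_of_mul_le_mul_right h9 h8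
  have t2 : (c : ℝ) * (64 * M * 2 ^ (4 * (n / s))) ^ k ≤ 2 ^ j / 2 ^ (κ * n) / 2 := by
    have h1 : (64 * M * 2 ^ (4 * (n / s))) ^ k ≤ Cst * 2 ^ (4 * n * k) := by
      rw [mul_pow, ← hCst, ← pow_mul]
      apply mul_le_mul_of_nonneg_left _ hCst0.le
      apply pow_le_pow_right₀ (by norm_num)
      have : n / s ≤ n := Nat.div_le_self _ _
      nlinarith [Nat.mul_le_mul_right k (Nat.mul_le_mul_left 4 this)]
    have g2' : κ * n + 4 * n * k + n ≤ j := by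
      have h3 : ((κ * n + 4 * n * k + n : ℕ) : ℝ) ≤ ((2 ^ n : ℕ) : ℝ) := by
        push_cast
        have : (0 : ℝ) ≤ (κ : ℝ) + 4 * k + 1 := by positivity
        nlinarith
      have h4 : κ * n + 4 * n * k + n ≤ 2 ^ n := by exact_mod_cast h3
      exact h4.trans hj
    have h2 : (2 : ℝ) ^ (κ * n) * 2 ^ (4 * n * k) * 2 ^ n ≤ 2 ^ j := by
      rw [← pow_add, ← pow_add]
      exact pow_le_pow_right₀ (by norm_num) g2'
    have h3 : (c : ℝ) * (64 * M * 2 ^ (4 * (n / s))) ^ k ≤ (c + 1) * (Cst * 2 ^ (4 * n * k)) := by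
      apply mul_le_mul (by linarith) h1 (by positivity) (by positivity)
    refine h3.trans ?_
    have h5 : (2 : ℝ) ^ j / 2 ^ (κ * n) / 2 = 2 ^ j / (2 ^ (κ * n) * 2) := by
      field_simp
    rw [h5, le_div_iff₀ (by positivity)]
    have h6 : (1 : ℝ) ≤ 2 ^ k := one_le_pow₀ (by norm_num)
    have h7 : 4 * (c + 1) * Cst ≤ 2 ^ n := by
      calc 4 * (c + 1) * Cst ≤ 4 * (c + 1) * Cst * 2 ^ k := le_mul_of_one_le_right (by positivity) h6
        _ ≤ _ := g1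
    have h8 : (c + 1) * (Cst * 2 ^ (4 * n * k)) * (2 ^ (κ * n) * 2) ≤
        (4 * (c + 1) * Cst) * (2 ^ (κ * n) * 2 ^ (4 * n * k)) := by
      have : 0 ≤ (c + 1) * Cst * (2 ^ (κ * n) * 2 ^ (4 * n * k)) := by positivity
      linarith
    refine h8.trans ?_
    calc (4 * (c + 1) * Cst) * (2 ^ (κ * n) * 2 ^ (4 * n * k))
        ≤ 2 ^ n * (2 ^ (κ * n) * 2 ^ (4 * n * k)) := mul_le_mul_of_nonneg_right h7 (by positivity)
      _ = 2 ^ (κ * n) * 2 ^ (4 * n * k) * 2 ^ n := by ring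
      _ ≤ _ := h2
  have h3 : (c : ℝ) * x ≤ c * ((2 ^ j + 1) * (64 * M / 2 ^ (w + c)) ^ k +
      (64 * M * 2 ^ (4 * (n / s))) ^ k) := mul_le_mul_of_nonneg_left hx (by positivity)
  rw [mul_add] at h3
  linarith

theorem valid_many (η1 η2 : ℝ) (L0 : ℕ) (h1 : 0 < η1) (h2 : η2 ≤ 1 / 16)
    (hL : 64 ≤ η1 * L0) (hL' : 64 ≤ L0) (m b : ℤ) (hm : 0 < m) (hb : 0 < b)
    (hmL : ∀ τ : ℕ, τ.Prime → τ ≤ L0 → (τ : ℤ) ∣ m) (s κ C0 c : ℕ) (hs : 16 ≤ s) :
    ∃ n0 : ℕ, ∀ n ≥ n0, ∀ j : ℕ, 2 ^ n ≤ j → j < 2 ^ (n + 1) → ∀ D : ℕ, 1 ≤ D →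
    D ≤ 2 ^ (C0 * n) →
    (((Icc 1 (2 ^ j)).filter (fun a : ℕ => Vx m a b ∧ (D : ℤ) ∣ F m a b ∧
      ST (Tn s n) (Uf m b D a) ≤ η2 ∧ om (T0 s n) (Uf m b D a) ≤ H1 s n ∧
      ∃ i < c, 8 * m * b * (((Ico (2 ^ (n / s + i)) (2 ^ (n / s + i + 1))).filter
        (fun B : ℕ => Valid m b s n D η1 a B)).card : ℤ) < 2 ^ (n / s + i))).card : ℝ) ≤
      2 ^ j / 2 ^ (κ * n) := by
  have hs1 : 1 ≤ s := by omega
  set M : ℕ := (3 * m * b).toNat with hMdef
  have hM : (M : ℤ) = 3 * m * b := Int.toNat_of_nonneg (by positivity)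
  have hM0 : 1 ≤ M := by
    have : (0 : ℤ) < (M : ℤ) := by rw [hM]; positivity
    omega
  have hMR : (1 : ℝ) ≤ M := by exact_mod_cast hM0
  obtain ⟨n1, hn1⟩ := vm_num2 s κ c M hs1 hMR
  set C3 : ℝ := 2 * 2 ^ c + 2 * C0 + 8 / η1 + 1 + 2 + 8 * 2 ^ c + 4 with hC3
  have hC30 : 0 < C3 := by positivity
  set k := 2 * s * (κ + 2) with hk
  obtain ⟨n2, hn2⟩ := vm_big ((C3 + 1) * (4 * M) + 32 * M * (k + 2) + b) hs1
  refine ⟨max (max n1 n2) (max (s * (c + 1)) (2 ^ c)), fun n hn j hj1 hj2 D hD hDle => ?_⟩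
  have g1 := hn1 n (le_trans (le_trans (le_max_left _ _) (le_max_left _ _)) hn) j hj1
  have g2 := hn2 n (le_trans (le_trans (le_max_right _ _) (le_max_left _ _)) hn)
  have g3 : s * (c + 1) ≤ n := le_trans (le_trans (le_max_left _ _) (le_max_right _ _)) hn
  have g4 : 2 ^ c ≤ n := le_trans (le_trans (le_max_right _ _) (le_max_right _ _)) hn
  set u := n / s with hu
  set w := n / s / 2 with hw
  have hw' : w = u / 2 := rfl
  have hcu : c + 1 ≤ u := by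
    rw [hu, Nat.le_div_iff_mul_le (by omega), mul_comm]; exact g3
  have huw1 : 2 * w ≤ u := by omega
  have huw2 : u ≤ 2 * w + 1 := by omega
  have hun : u ≤ n := Nat.div_le_self _ _
  have hn1' : 1 ≤ n := by have : 1 ≤ 2 ^ c := Nat.one_le_two_pow; omega
  have hbR : (0 : ℝ) < b := by exact_mod_cast hb
  have hW1 : (1 : ℝ) ≤ 2 ^ w := one_le_pow₀ (by norm_num)
  have hnR : (1 : ℝ) ≤ n := by exact_mod_cast hn1'
  -- pieces of g2
  have q1 : (C3 + 1) * (4 * M) * (n + 1) ≤ 2 ^ w := by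
    have : (0 : ℝ) ≤ (32 * M * (k + 2) + b) * (n + 1) := by positivity
    nlinarith
  have q2 : 32 * M * ((k : ℝ) + 2) ≤ 2 ^ w := by
    have h3 : (0 : ℝ) ≤ ((C3 + 1) * (4 * M) + b) * (n + 1) := by positivity
    have h4 : 32 * M * ((k : ℝ) + 2) ≤ 32 * M * ((k : ℝ) + 2) * (n + 1) :=
      le_mul_of_one_le_right (by positivity) (by linarith)
    nlinarith
  have q3 : (b : ℝ) ≤ 2 ^ w := by
    have h3 : (0 : ℝ) ≤ ((C3 + 1) * (4 * M) + 32 * M * (k + 2)) * (n + 1) := by positivity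
    have h4 : (b : ℝ) ≤ b * (n + 1) := le_mul_of_one_le_right hbR.le (by linarith)
    nlinarith
  -- blocks
  set Kf : ℕ → ℕ := fun i => 2 ^ (u + i) with hKf
  set z : ℕ := 2 ^ (w + c) with hz
  have hzR : (2 : ℝ) ^ w ≤ z := by
    rw [hz]; push_cast; exact pow_le_pow_right₀ (by norm_num) (Nat.le_add_right _ _)
  have hXi : ∀ i, (2 : ℝ) ^ w * 2 ^ w ≤ Kf i := by
    intro i
    rw [hKf]; push_cast
    rw [← pow_add]
    exact pow_le_pow_right₀ (by norm_num) (by omega)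
  have hXi2 : ∀ i < c, (Kf i : ℝ) ≤ 2 * 2 ^ c * (2 ^ w * 2 ^ w) := by
    intro i hi
    have : (2 : ℝ) * 2 ^ c * (2 ^ w * 2 ^ w) = 2 ^ (1 + c + (w + w)) := by
      rw [pow_add, pow_add, pow_add, pow_one]
    rw [this, hKf]; push_cast
    exact pow_le_pow_right₀ (by norm_num) (by omega)
  -- exceptional sets
  have hexc : ∀ i < c, (((Icc 1 (2 ^ j)).filter (fun a : ℕ =>
      Kf i / M / 16 ≤ (vmS m b D z (Tn s n) (Kf i) a).card)).card : ℝ) ≤
      (2 ^ j + 1) * (64 * M / 2 ^ (w + c)) ^ k + (64 * M * 2 ^ (4 * u)) ^ k := by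
    intro i hi
    have h3 := vm_exc m b D z (Tn s n) (Kf i) (Kf i / M / 16) k (2 ^ j)
      (by rw [hz]; exact Nat.one_le_two_pow)
    set x : ℝ := (((Icc 1 (2 ^ j)).filter (fun a : ℕ =>
      Kf i / M / 16 ≤ (vmS m b D z (Tn s n) (Kf i) a).card)).card : ℝ) with hx
    have hK0 : (0 : ℝ) < Kf i := by rw [hKf]; positivity
    have h4 : (Kf i : ℝ) / (32 * M) ≤ ((Kf i / M / 16 + 1 - k : ℕ) : ℝ) := by
      have h5 : (Kf i : ℝ) < M * 16 * ((Kf i / M / 16 : ℕ) + 1) := by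
        rw [Nat.div_div_eq_div_mul]
        exact_mod_cast Nat.lt_mul_div_succ (Kf i) (by positivity : 0 < M * 16)
      have h6 : ((Kf i / M / 16 : ℕ) : ℝ) + 1 - k ≤ ((Kf i / M / 16 + 1 - k : ℕ) : ℝ) := by
        have : Kf i / M / 16 + 1 ≤ (Kf i / M / 16 + 1 - k) + k := by omega
        have h7 : ((Kf i / M / 16 + 1 : ℕ) : ℝ) ≤ (((Kf i / M / 16 + 1 - k) + k : ℕ) : ℝ) := by
          exact_mod_cast this
        push_cast at h7
        linarith
      refine le_trans ?_ h6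
      rw [div_le_iff₀ (by positivity)]
      have h8 : 32 * M * ((k : ℝ) + 2) ≤ Kf i :=
        q2.trans ((le_mul_of_one_le_right (by positivity) hW1).trans (hXi i))
      nlinarith
    have h5 : x * ((Kf i : ℝ) / (32 * M)) ^ k ≤
        (((2 ^ j : ℕ) : ℝ) + 1) * (2 * (Kf i) / z) ^ k + (2 * (Kf i) * (Tn s n)) ^ k := by
      refine le_trans ?_ h3
      apply mul_le_mul_of_nonneg_left _ (by positivity)
      exact pow_le_pow_left₀ (by positivity) h4 k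
    have h6 : 0 < ((Kf i : ℝ) / (32 * M)) ^ k := by positivity
    have h7 : (2 * (Kf i : ℝ) / z) ^ k = (64 * M / 2 ^ (w + c)) ^ k * ((Kf i : ℝ) / (32 * M)) ^ k := by
      rw [← mul_pow]; congr 1
      rw [hz]; push_cast
      field_simp
      ring
    have h8 : (2 * (Kf i : ℝ) * (Tn s n)) ^ k =
        (64 * M * 2 ^ (4 * u)) ^ k * ((Kf i : ℝ) / (32 * M)) ^ k := by
      rw [← mul_pow]; congr 1
      unfold Tn; push_cast
      field_simp
      ring
    rw [h7, h8] at h5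
    have h9 : x * ((Kf i : ℝ) / (32 * M)) ^ k ≤
        ((2 ^ j + 1) * (64 * M / 2 ^ (w + c)) ^ k + (64 * M * 2 ^ (4 * u)) ^ k) *
          ((Kf i : ℝ) / (32 * M)) ^ k := by
      push_cast at h5
      linarith
    exact le_of_mul_le_mul_right h9 h6
  -- the bad vertices are exceptional
  have hsub : (Icc 1 (2 ^ j)).filter (fun a : ℕ => Vx m a b ∧ (D : ℤ) ∣ F m a b ∧
      ST (Tn s n) (Uf m b D a) ≤ η2 ∧ om (T0 s n) (Uf m b D a) ≤ H1 s n ∧
      ∃ i < c, 8 * m * b * (((Ico (2 ^ (n / s + i)) (2 ^ (n / s + i + 1))).filter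
        (fun B : ℕ => Valid m b s n D η1 a B)).card : ℤ) < 2 ^ (n / s + i)) ⊆
      (range c).biUnion (fun i => (Icc 1 (2 ^ j)).filter (fun a : ℕ =>
        Kf i / M / 16 ≤ (vmS m b D z (Tn s n) (Kf i) a).card)) := by
    intro a ha
    rw [mem_filter] at ha
    obtain ⟨ha1, hV, hDF, hST, hom, i, hi, hlt⟩ := ha
    rw [mem_biUnion]
    refine ⟨i, mem_range.2 hi, mem_filter.2 ⟨ha1, ?_⟩⟩
    by_contra hcon
    rw [not_le] at hcon
    set N := Kf i / M with hN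
    have hK1 : 1 ≤ Kf i := by rw [hKf]; exact Nat.one_le_two_pow
    have hNM : (N : ℤ) * (3 * m * b) ≤ Kf i := by
      rw [← hM]; exact_mod_cast Nat.div_mul_le_self (Kf i) M
    have hNz : N ≤ z ^ 2 := by
      have h3 : N ≤ Kf i := Nat.div_le_self _ _
      refine h3.trans ?_
      rw [hKf, hz, ← pow_mul]
      exact Nat.pow_le_pow_right (by norm_num) (by omega)
    have hbz : b ≤ z := by
      have : (b : ℝ) ≤ (z : ℝ) := q3.trans hzR
      exact_mod_cast this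
    have hKT : 2 * Kf i ≤ Tn s n := by
      rw [hKf]; unfold Tn
      rw [← pow_succ']
      exact Nat.pow_le_pow_right (by norm_num) (by omega)
    have hKT0 : 2 * Kf i ≤ T0 s n := by
      rw [hKf]; unfold T0
      have h3 : 2 * 2 ^ (u + i) = 2 ^ (i + 1) * 2 ^ u := by rw [pow_add, pow_succ]; ring
      rw [h3]
      apply Nat.mul_le_mul_right
      exact (Nat.pow_le_pow_right (by norm_num) (by omega : i + 1 ≤ c)).trans g4
    have hH : 1 ≤ H1 s n := by unfold H1; exact Nat.one_le_two_pow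
    have hdet := vm_det η1 η2 L0 h1 (by omega) m b hm hb hmL s n D hD a hV hDF hST hom
      (Kf i) z N hK1 hNM hNz hbz hKT hKT0 hH
    have hK2 : 2 * Kf i = 2 ^ (n / s + i + 1) := by rw [hKf]; rw [pow_succ]; ring
    rw [hK2] at hdet
    set v : ℕ := ((Ico (Kf i) (2 ^ (n / s + i + 1))).filter
      (fun B : ℕ => Valid m b s n D η1 a B)).card with hv
    have hlt' : 8 * (m : ℝ) * b * v < Kf i := by
      have : ((8 * m * b * (v : ℤ) : ℤ) : ℝ) < ((2 ^ (n / s + i) : ℤ) : ℝ) := by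
        exact_mod_cast hlt
      push_cast at this
      rw [hKf]; push_cast
      exact this
    have hMR2 : (M : ℝ) = 3 * m * b := by
      have : ((M : ℤ) : ℝ) = ((3 * m * b : ℤ) : ℝ) := by rw [hM]
      push_cast at this
      exact this
    -- numerical bounds
    have hKX := hXi i
    have hKX2 := hXi2 i hi
    set W : ℝ := 2 ^ w with hWdef
    have hNR : (Kf i : ℝ) < M * (N + 1) := by
      exact_mod_cast Nat.lt_mul_div_succ (Kf i) hM0
    have hN0 : (0 : ℝ) ≤ N := by positivity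
    have hNK : (N : ℝ) ≤ Kf i := by exact_mod_cast Nat.div_le_self (Kf i) M
    have hL0R : (64 : ℝ) ≤ L0 := by exact_mod_cast hL'
    have p1 : 2 * (N : ℝ) / L0 ≤ N / 32 := by
      rw [div_le_div_iff₀ (by linarith) (by norm_num)]
      nlinarith
    have p2 : 2 * (N : ℝ) / L0 / η1 ≤ N / 32 := by
      rw [div_div, div_le_div_iff₀ (by nlinarith) (by norm_num)]
      nlinarith
    have p3 : ((vmS m b D z (Tn s n) (Kf i) a).card : ℝ) ≤ N / 16 := by
      have h3 : (vmS m b D z (Tn s n) (Kf i) a).card ≤ N / 16 := hcon.le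
      have h4 : ((vmS m b D z (Tn s n) (Kf i) a).card : ℝ) ≤ ((N / 16 : ℕ) : ℝ) := by
        exact_mod_cast h3
      refine h4.trans ?_
      have := Nat.cast_div_le (α := ℝ) (m := N) (n := 16)
      exact_mod_cast this
    have p4 : (N : ℝ) * η2 ≤ N / 16 := by nlinarith
    have hzW : (z : ℝ) = 2 ^ c * W := by rw [hz, hWdef]; push_cast; rw [pow_add]; ring
    have hnW : (1 : ℝ) ≤ (n + 1) * W := by nlinarith
    have hWn : W ≤ (n + 1) * W := by nlinarith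
    have hnW2 : (n : ℝ) ≤ (n + 1) * W := by nlinarith
    have p5 : 2 * (z : ℝ) ≤ 2 * 2 ^ c * ((n + 1) * W) := by
      rw [hzW]
      have : 2 * ((2 : ℝ) ^ c * W) = 2 * 2 ^ c * W := by ring
      rw [this]
      exact mul_le_mul_of_nonneg_left hWn (by positivity)
    have p6 : 2 * (D.primeFactors.card : ℝ) ≤ 2 * C0 * ((n + 1) * W) := by
      have h3 := vm_primeFactors_card hD hDle
      have h4 : (D.primeFactors.card : ℝ) ≤ C0 * n := by exact_mod_cast h3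
      have h5 : (C0 : ℝ) * n ≤ C0 * ((n + 1) * W) := mul_le_mul_of_nonneg_left hnW2 (by positivity)
      linarith
    have hlog2 : Real.log 2 ≤ 1 := by
      have := Real.log_two_lt_d9; linarith
    have hlog2' : 0 ≤ Real.log 2 := Real.log_nonneg (by norm_num)
    have huR : (u : ℝ) ≤ n := by exact_mod_cast hun
    have p7 : 2 * (1 + Real.log (Tn s n)) / η1 ≤ 8 / η1 * ((n + 1) * W) := by
      have h3 : Real.log (Tn s n) ≤ 4 * n := by
        unfold Tn; push_cast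
        rw [Real.log_pow]; push_cast
        have : (4 * (u : ℝ)) * Real.log 2 ≤ (4 * (u : ℝ)) * 1 :=
          mul_le_mul_of_nonneg_left hlog2 (by positivity)
        rw [← hu]
        linarith
      have h4 : 2 * (1 + Real.log (Tn s n)) ≤ 8 * ((n + 1) * W) := by nlinarith
      rw [div_mul_eq_mul_div]
      exact div_le_div_of_nonneg_right h4 h1.le
    have p8 : (H1 s n : ℝ) = W := by unfold H1; push_cast; rfl
    have p9 : (T0 s n : ℝ) ≤ 2 * n * (W * W) := by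
      unfold T0; push_cast
      have h3 : (2 : ℝ) ^ u ≤ 2 * (W * W) := by
        rw [hWdef, ← pow_add, ← pow_succ']
        exact pow_le_pow_right₀ (by norm_num) (by omega)
      rw [← hu]
      nlinarith
    have p10 : Real.log (T0 s n) ≤ 2 * n := by
      unfold T0; push_cast
      rw [Real.log_mul (by positivity) (by positivity), Real.log_pow]
      have h3 : Real.log n ≤ n := (Real.log_le_sub_one_of_pos (by linarith)).trans (by linarith)
      have h4 : (u : ℝ) * Real.log 2 ≤ u * 1 := mul_le_mul_of_nonneg_left hlog2 (by positivity)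
      rw [← hu]
      linarith
    have hW0 : 0 < W := by positivity
    have p11 : (2 * N * (1 + Real.log (T0 s n)) + 2 * T0 s n) / H1 s n ≤
        (8 * 2 ^ c + 4) * ((n + 1) * W) := by
      rw [p8, div_le_iff₀ hW0]
      have h3 : 2 * (N : ℝ) * (1 + Real.log (T0 s n)) ≤
          2 * (2 * 2 ^ c * (W * W)) * (2 * (n + 1)) := by
        apply mul_le_mul
        · linarith
        · linarith
        · have := Real.log_nonneg (show (1 : ℝ) ≤ T0 s n by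
            unfold T0; push_cast
            have : (1 : ℝ) ≤ 2 ^ u := one_le_pow₀ (by norm_num)
            rw [← hu]; nlinarith)
          linarith
        · positivity
      have h4 : 2 * (T0 s n : ℝ) ≤ 4 * (n + 1) * (W * W) := by nlinarith [mul_pos hW0 hW0]
      calc 2 * N * (1 + Real.log (T0 s n)) + 2 * T0 s n
          ≤ 2 * (2 * 2 ^ c * (W * W)) * (2 * (n + 1)) + 4 * (n + 1) * (W * W) := add_le_add h3 h4
        _ = (8 * 2 ^ c + 4) * ((n + 1) * W) * W := by ring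
    have p12 : (2 * N / L0 + 2 * (1 + Real.log (Tn s n))) / η1 ≤ N / 32 + 8 / η1 * ((n + 1) * W) := by
      rw [add_div]; linarith
    have hS : (N : ℝ) * (23 / 32) ≤ v + C3 * ((n + 1) * W) := by
      have e3 : C3 * ((n + 1) * W) = 2 * 2 ^ c * ((n + 1) * W) + 2 * C0 * ((n + 1) * W) +
          8 / η1 * ((n + 1) * W) + ((n + 1) * W) + 2 * ((n + 1) * W) +
          (8 * 2 ^ c + 4) * ((n + 1) * W) := by rw [hC3]; ring
      rw [e3]
      have e4 : (H1 s n : ℝ) ≤ (n + 1) * W := by rw [p8]; exact hWn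
      linarith
    -- conclusion
    have hfin : (C3 * ((n + 1) * W) + 1) * (4 * M) ≤ Kf i := by
      have h3 : (C3 * ((n + 1) * W) + 1) ≤ (C3 + 1) * ((n + 1) * W) := by linarith
      calc (C3 * ((n + 1) * W) + 1) * (4 * M) ≤ (C3 + 1) * ((n + 1) * W) * (4 * M) :=
            mul_le_mul_of_nonneg_right h3 (by positivity)
        _ = ((C3 + 1) * (4 * M) * (n + 1)) * W := by ring
        _ ≤ W * W := mul_le_mul_of_nonneg_right q1 hW0.le
        _ ≤ _ := hKX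
    have hv8 : 8 * (m : ℝ) * b * v = 8 / 3 * M * v := by rw [hMR2]; ring
    rw [hv8] at hlt'
    have hMpos : (0 : ℝ) < M := by linarith
    have h10 : (M : ℝ) * (N * (23 / 32)) ≤ M * (v + C3 * ((n + 1) * W)) :=
      mul_le_mul_of_nonneg_left hS hMpos.le
    nlinarith
  calc (((Icc 1 (2 ^ j)).filter (fun a : ℕ => Vx m a b ∧ (D : ℤ) ∣ F m a b ∧
      ST (Tn s n) (Uf m b D a) ≤ η2 ∧ om (T0 s n) (Uf m b D a) ≤ H1 s n ∧
      ∃ i < c, 8 * m * b * (((Ico (2 ^ (n / s + i)) (2 ^ (n / s + i + 1))).filter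
        (fun B : ℕ => Valid m b s n D η1 a B)).card : ℤ) < 2 ^ (n / s + i))).card : ℝ)
      ≤ (((range c).biUnion (fun i => (Icc 1 (2 ^ j)).filter (fun a : ℕ =>
        Kf i / M / 16 ≤ (vmS m b D z (Tn s n) (Kf i) a).card))).card : ℝ) := by
        exact_mod_cast card_le_card hsub
    _ ≤ ∑ i ∈ range c, (((Icc 1 (2 ^ j)).filter (fun a : ℕ =>
        Kf i / M / 16 ≤ (vmS m b D z (Tn s n) (Kf i) a).card)).card : ℝ) := by
        exact_mod_cast card_biUnion_le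
    _ ≤ ∑ _i ∈ range c, (((2 : ℝ) ^ j + 1) * (64 * (M : ℝ) / 2 ^ (w + c)) ^ k +
        (64 * (M : ℝ) * 2 ^ (4 * u)) ^ k) := by
        apply sum_le_sum; intro i hi; exact hexc i (mem_range.1 hi)
    _ = (c : ℝ) * (((2 : ℝ) ^ j + 1) * (64 * (M : ℝ) / 2 ^ (w + c)) ^ k +
        (64 * (M : ℝ) * 2 ^ (4 * u)) ^ k) := by
        rw [sum_const, card_range, nsmul_eq_mul]
    _ ≤ _ := g1 _ le_rfl

end Pool.Agent.H48.SF
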