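import Pool.Agent.H48.SF.StepE
import Pool.Agent.H48.SF.StepG
import Pool.Agent.H48.SF.ModeP
import Pool.Agent.H48.SF.ModeD
import Pool.Agent.H48.SF.ValidM
import Pool.Agent.H48.SF.Medium
import Pool.Agent.H48.SF.Huge

/-!
The step.
-/

set_option autoImplicit false

namespace Pool.Agent.H48.SF

open Finset Classical
open Pool.Agent.H95.Gol (bb PB)
open Pool.Agent.H41.Per (PM)
open Pool.Agent.H48.AP (F H Vx Sparse oddCount)

/-- a state is a prestate unless many blocks are bad -/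
lemma step_pre {m b : ℤ} {s n c D a : ℕ} {η1 η2 : ℝ} (hv : Vx m a b)
    (hst : State m b s n D η2 a)
    (hbl : ¬ ∃ i < c, 8 * m * b * (((Ico (2 ^ (n / s + i)) (2 ^ (n / s + i + 1))).filter
        (fun B : ℕ => Valid m b s n D η1 a B)).card : ℤ) < 2 ^ (n / s + i)) :
    PreState m b s n c D η1 η2 a := by
  obtain ⟨s1, s2, s3, s4⟩ := hst
  push Not at hbl
  refine ⟨hv, s1, fun τ hτ h => ?_, s3, hbl⟩
  unfold Sm at hτ
  rw [mem_filter] at hτ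
  rw [Nat.squarefree_iff_prime_squarefree] at s2
  apply s2 τ hτ.2.1
  rw [← Int.natCast_dvd_natCast]
  have : (τ : ℤ) ^ 2 ∣ ((Uf m b D a).natAbs : ℤ) := Int.dvd_natAbs.2 h
  rw [pow_two] at this
  exact_mod_cast this

/-- the exceptional set for one `D` -/
theorem step_one {g : ℕ → ℤ} (hg : PM g) {m r b : ℤ} (hm : 0 < m) (hb : 0 < b)
    (hsq : SqOK m r) {ε K : ℤ}
    (hc : ∀ k : ℤ, K ≤ k → m ∣ k - r → Squarefree (f k).natAbs → g (f k).natAbs = ε)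
    {s n c D j k0 k1 k3 : ℕ} {η1 η2 X : ℝ} (hD : 1 ≤ D)
    (hMp : ∀ p ∈ PW n, ¬ p ∣ MM m b D (Tn s n)) (hk : k1 + 2 * k3 ≤ k0)
    (A1 : (((Icc 1 (2 ^ j)).filter (fun a : ℕ => Vx m a b ∧ (D : ℤ) ∣ F m a b ∧
      ST (Tn s n) (Uf m b D a) ≤ η2 ∧ om (T0 s n) (Uf m b D a) ≤ H1 s n ∧
      ∃ i < c, 8 * m * b * (((Ico (2 ^ (n / s + i)) (2 ^ (n / s + i + 1))).filter
        (fun B : ℕ => Valid m b s n D η1 a B)).card : ℤ) < 2 ^ (n / s + i))).card : ℝ) ≤ X)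
    (A2 : (((Icc 1 (2 ^ j)).filter (fun a : ℕ => PreState m b s n c D η1 η2 a ∧
      ((VB m b s n c D η1 a).filter (fun B : ℕ => ∃ p ∈ PP m r b s n D a B,
        (p : ℤ) ∣ F m (a - D * B) b)).card ≤ k0)).card : ℝ) ≤ X)
    (A3 : D = 1 → (((Icc 1 (2 ^ j)).filter (fun a : ℕ => PreState m b s n c D η1 η2 a ∧
      k1 ≤ ((VB m b s n c D η1 a).filter (fun B : ℕ => ∀ p ∈ PD m r b s n D a B,
        ¬ (p : ℤ) ∣ F m (a - D * B) b)).card)).card : ℝ) ≤ X)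
    (A4 : ∀ Q : ℤ → ℤ → ℤ → ℤ, Mode m b D Q →
      (((Icc 1 (2 ^ j)).filter (fun a : ℕ =>
      k3 ≤ ((Icc 1 (2 ^ (n / s + c))).filter (fun B : ℕ => ∃ p ∈ PW n,
        (p : ℤ) ∣ F m (a - D * B) b ∧ ∃ τ : ℕ, τ.Prime ∧ Tn s n < τ ∧
          τ ≤ bb (n / 2 - 3) ∧ ¬ τ ∣ D ∧ Obs m b D Q a B p τ)).card)).card : ℝ) ≤ X)
    (A5 : ∀ Q : ℤ → ℤ → ℤ → ℤ, Mode m b D Q →
      (((Icc 1 (2 ^ j)).filter (fun a : ℕ => ∃ B ∈ Icc (1 : ℕ) (2 ^ (n / s + c)), ∃ p ∈ PW n,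
        (p : ℤ) ∣ F m (a - D * B) b ∧ ∃ τ : ℕ, τ.Prime ∧ bb (n / 2 - 3) < τ ∧
          Obs m b D Q a B p τ)).card : ℝ) ≤ X) :
    (((Icc 1 (2 ^ j)).filter (fun a : ℕ => Vx m a b ∧ State m b s n D η2 a ∧
      b * (3 * m * |K| + bb (3 * n / 4) + 1) + D * 2 ^ (n / s + c) ≤ a ∧
      ¬ ∃ x : ℕ, Child g m b s n D η1 (2 ^ (n / s + c)) a x)).card : ℝ) ≤ 7 * X := by
  have mP := mode_pair hm hb hD
  have mD := mode_dir hm hb hD
  have B1 := A4 _ mP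
  have B2 := A4 _ mD
  have C1 := A5 _ mP
  have C2 := A5 _ mD
  set S1 := (Icc 1 (2 ^ j)).filter (fun a : ℕ => Vx m a b ∧ (D : ℤ) ∣ F m a b ∧
      ST (Tn s n) (Uf m b D a) ≤ η2 ∧ om (T0 s n) (Uf m b D a) ≤ H1 s n ∧
      ∃ i < c, 8 * m * b * (((Ico (2 ^ (n / s + i)) (2 ^ (n / s + i + 1))).filter
        (fun B : ℕ => Valid m b s n D η1 a B)).card : ℤ) < 2 ^ (n / s + i)) with hS1
  set S2 := (Icc 1 (2 ^ j)).filter (fun a : ℕ => PreState m b s n c D η1 η2 a ∧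
      ((VB m b s n c D η1 a).filter (fun B : ℕ => ∃ p ∈ PP m r b s n D a B,
        (p : ℤ) ∣ F m (a - D * B) b)).card ≤ k0) with hS2
  set S3 : Finset ℕ := if D = 1 then (Icc 1 (2 ^ j)).filter
    (fun a : ℕ => PreState m b s n c D η1 η2 a ∧
      k1 ≤ ((VB m b s n c D η1 a).filter (fun B : ℕ => ∀ p ∈ PD m r b s n D a B,
        ¬ (p : ℤ) ∣ F m (a - D * B) b)).card) else ∅ with hS3
  set S4 := (Icc 1 (2 ^ j)).filter (fun a : ℕ =>
      k3 ≤ ((Icc 1 (2 ^ (n / s + c))).filter (fun B : ℕ => ∃ p ∈ PW n,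
        (p : ℤ) ∣ F m (a - D * B) b ∧ ∃ τ : ℕ, τ.Prime ∧ Tn s n < τ ∧
          τ ≤ bb (n / 2 - 3) ∧ ¬ τ ∣ D ∧ Obs m b D (QP m b D) a B p τ)).card) with hS4
  set S5 := (Icc 1 (2 ^ j)).filter (fun a : ℕ =>
      k3 ≤ ((Icc 1 (2 ^ (n / s + c))).filter (fun B : ℕ => ∃ p ∈ PW n,
        (p : ℤ) ∣ F m (a - D * B) b ∧ ∃ τ : ℕ, τ.Prime ∧ Tn s n < τ ∧
          τ ≤ bb (n / 2 - 3) ∧ ¬ τ ∣ D ∧ Obs m b D (QD m b D) a B p τ)).card) with hS5
  set S6 := (Icc 1 (2 ^ j)).filter (fun a : ℕ => ∃ B ∈ Icc (1 : ℕ) (2 ^ (n / s + c)), ∃ p ∈ PW n,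
        (p : ℤ) ∣ F m (a - D * B) b ∧ ∃ τ : ℕ, τ.Prime ∧ bb (n / 2 - 3) < τ ∧
          Obs m b D (QP m b D) a B p τ) with hS6
  set S7 := (Icc 1 (2 ^ j)).filter (fun a : ℕ => ∃ B ∈ Icc (1 : ℕ) (2 ^ (n / s + c)), ∃ p ∈ PW n,
        (p : ℤ) ∣ F m (a - D * B) b ∧ ∃ τ : ℕ, τ.Prime ∧ bb (n / 2 - 3) < τ ∧
          Obs m b D (QD m b D) a B p τ) with hS7
  have hX : 0 ≤ X := le_trans (by positivity) A1
  have hA3 : (S3.card : ℝ) ≤ X := by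
    rw [hS3]
    split_ifs with h
    · exact A3 h
    · simpa using hX
  have hsub : (Icc 1 (2 ^ j)).filter (fun a : ℕ => Vx m a b ∧ State m b s n D η2 a ∧
      b * (3 * m * |K| + bb (3 * n / 4) + 1) + D * 2 ^ (n / s + c) ≤ a ∧
      ¬ ∃ x : ℕ, Child g m b s n D η1 (2 ^ (n / s + c)) a x) ⊆
      S1 ∪ S2 ∪ S3 ∪ S4 ∪ S5 ∪ S6 ∪ S7 := by
    intro a ha
    rw [mem_filter] at ha
    obtain ⟨hI, hv, hst, hbig, hno⟩ := ha
    by_contra hcon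
    simp only [mem_union, not_or] at hcon
    obtain ⟨⟨⟨⟨⟨⟨h1, h2⟩, h3⟩, h4⟩, h5⟩, h6⟩, h7⟩ := hcon
    apply hno
    have hbl : ¬ ∃ i < c, 8 * m * b * (((Ico (2 ^ (n / s + i)) (2 ^ (n / s + i + 1))).filter
        (fun B : ℕ => Valid m b s n D η1 a B)).card : ℤ) < 2 ^ (n / s + i) := fun h =>
      h1 (mem_filter.2 ⟨hI, hv, hst.1, hst.2.2.1, hst.2.2.2, h⟩)
    have hP := step_pre hv hst hbl
    refine local_step hg hm hb hsq hc (k0 := k0) (k1 := k1) (k3 := k3) hD hst hP ?_ ?_ ?_ ?_ ?_ ?_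
      hk hMp hbig
    · by_contra h
      exact h2 (mem_filter.2 ⟨hI, hP, not_lt.1 h⟩)
    · intro hD1
      by_contra h
      apply h3
      rw [hS3, if_pos hD1]
      exact mem_filter.2 ⟨hI, hP, not_lt.1 h⟩
    · by_contra h
      exact h4 (mem_filter.2 ⟨hI, not_lt.1 h⟩)
    · intro _
      by_contra h
      exact h5 (mem_filter.2 ⟨hI, not_lt.1 h⟩)
    · intro h
      exact h6 (mem_filter.2 ⟨hI, h⟩)
    · intro _ h
      exact h7 (mem_filter.2 ⟨hI, h⟩)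
  have hcard : ((Icc 1 (2 ^ j)).filter (fun a : ℕ => Vx m a b ∧ State m b s n D η2 a ∧
      b * (3 * m * |K| + bb (3 * n / 4) + 1) + D * 2 ^ (n / s + c) ≤ a ∧
      ¬ ∃ x : ℕ, Child g m b s n D η1 (2 ^ (n / s + c)) a x)).card ≤
      S1.card + S2.card + S3.card + S4.card + S5.card + S6.card + S7.card := by
    refine (card_le_card hsub).trans ?_
    have e1 := card_union_le (S1 ∪ S2 ∪ S3 ∪ S4 ∪ S5 ∪ S6) S7
    have e2 := card_union_le (S1 ∪ S2 ∪ S3 ∪ S4 ∪ S5) S6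
    have e3 := card_union_le (S1 ∪ S2 ∪ S3 ∪ S4) S5
    have e4 := card_union_le (S1 ∪ S2 ∪ S3) S4
    have e5 := card_union_le (S1 ∪ S2) S3
    have e6 := card_union_le S1 S2
    omega
  have hcard' : ((((Icc 1 (2 ^ j)).filter (fun a : ℕ => Vx m a b ∧ State m b s n D η2 a ∧
      b * (3 * m * |K| + bb (3 * n / 4) + 1) + D * 2 ^ (n / s + c) ≤ a ∧
      ¬ ∃ x : ℕ, Child g m b s n D η1 (2 ^ (n / s + c)) a x)).card : ℕ) : ℝ) ≤
      S1.card + S2.card + S3.card + S4.card + S5.card + S6.card + S7.card := by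
    exact_mod_cast hcard
  linarith

/-- the two numerical conditions on the masses -/
lemma step_num {θ : ℝ} (hθ : 0 < θ) {s : ℕ} (hs : 1 / θ ≤ s) {κ k1 k0 c : ℕ} {m b : ℤ}
    (hm : 0 < m) (hb : 0 < b) (hk1 : (κ + 1) / θ ≤ k1)
    (hc : 16 * m * b * (k0 + κ + 1) / θ ≤ c) {n : ℕ} (hn : c * k0 + c * k1 + 5 ≤ n) :
    Real.log 2 * (((n / s + c) * k1 + κ * n + 5 : ℕ) : ℝ) ≤ k1 * (2 * θ * n) ∧
    Real.log 2 * (((n / s + c) * k0 + κ * n + 5 : ℕ) : ℝ) ≤ θ * n * (c / (16 * m * b)) := by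
  have hm' : (0 : ℝ) < m := by exact_mod_cast hm
  have hb' : (0 : ℝ) < b := by exact_mod_cast hb
  have hl1 : Real.log 2 ≤ 7 / 10 := by have := Real.log_two_lt_d9; linarith
  have hl0 : 0 ≤ Real.log 2 := Real.log_nonneg (by norm_num)
  have hs0 : (0 : ℝ) < s := lt_of_lt_of_le (by positivity) hs
  have hn' : (c : ℝ) * k0 + c * k1 + 5 ≤ n := by exact_mod_cast hn
  have hn0 : (0 : ℝ) ≤ n := by positivity
  have hns : ((n / s : ℕ) : ℝ) ≤ θ * n := by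
    have h1 : ((n / s : ℕ) : ℝ) ≤ (n : ℝ) / s := Nat.cast_div_le
    have h2 : 1 ≤ θ * s := by
      rw [div_le_iff₀ hθ] at hs; linarith
    refine h1.trans ?_
    rw [div_le_iff₀ hs0]
    nlinarith
  have hnn : ((n / s : ℕ) : ℝ) ≤ n := by exact_mod_cast Nat.div_le_self n s
  have hk1' : (κ : ℝ) + 1 ≤ k1 * θ := by rwa [div_le_iff₀ hθ] at hk1
  have hc' : 16 * m * b * ((k0 : ℝ) + κ + 1) ≤ c * θ := by rwa [div_le_iff₀ hθ] at hc
  have hκ0 : (0 : ℝ) ≤ κ := by positivity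
  have hk00 : (0 : ℝ) ≤ k0 := by positivity
  have hk10 : (0 : ℝ) ≤ k1 := by positivity
  have hc0 : (0 : ℝ) ≤ c := by positivity
  constructor
  · push_cast
    have h0 : (0 : ℝ) ≤ ((n / s : ℕ) : ℝ) := by positivity
    have h1 : (((n / s : ℕ) : ℝ) + c) * k1 + κ * n + 5 ≤ (θ * n + c) * k1 + κ * n + 5 := by
      have := mul_le_mul_of_nonneg_right hns hk10
      linarith
    have h2 : 0 ≤ (θ * n + c) * k1 + κ * n + 5 := by positivity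
    calc Real.log 2 * ((((n / s : ℕ) : ℝ) + c) * k1 + κ * n + 5) ≤
        Real.log 2 * ((θ * n + c) * k1 + κ * n + 5) := mul_le_mul_of_nonneg_left h1 hl0
      _ ≤ 7 / 10 * ((θ * n + c) * k1 + κ * n + 5) := mul_le_mul_of_nonneg_right hl1 h2
      _ ≤ k1 * (2 * θ * n) := by nlinarith [mul_nonneg hk00 hc0, mul_le_mul_of_nonneg_right hk1' hn0]
  · push_cast
    have h0 : (0 : ℝ) ≤ ((n / s : ℕ) : ℝ) := by positivity
    have h1 : (((n / s : ℕ) : ℝ) + c) * k0 + κ * n + 5 ≤ (n + c) * k0 + κ * n + 5 := by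
      have := mul_le_mul_of_nonneg_right hnn hk00
      linarith
    have h2 : 0 ≤ ((n : ℝ) + c) * k0 + κ * n + 5 := by positivity
    have h3 : ((k0 : ℝ) + κ + 1) * n ≤ θ * n * (c / (16 * m * b)) := by
      rw [← mul_div_assoc, le_div_iff₀ (by positivity)]
      nlinarith [mul_le_mul_of_nonneg_right hc' hn0]
    refine le_trans ?_ h3
    calc Real.log 2 * ((((n / s : ℕ) : ℝ) + c) * k0 + κ * n + 5) ≤
        Real.log 2 * (((n : ℝ) + c) * k0 + κ * n + 5) := mul_le_mul_of_nonneg_left h1 hl0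
      _ ≤ 1 * (((n : ℝ) + c) * k0 + κ * n + 5) :=
          mul_le_mul_of_nonneg_right (by linarith) h2
      _ ≤ (k0 + κ + 1) * n := by nlinarith [mul_nonneg hk10 hc0]

/-- the step: almost every state has a good child -/
theorem step : ∃ (η1 η2 : ℝ) (L0 : ℕ), 0 < η1 ∧ 2 ≤ L0 ∧ η1 + 1 / L0 ≤ η2 ∧
    ∀ (g : ℕ → ℤ) (m r : ℤ), PM g → 0 < m → (∀ τ : ℕ, τ.Prime → τ ≤ L0 → (τ : ℤ) ∣ m) →
    SqOK m r → ConstSq g m r → ∃ s : ℕ, 16 ≤ s ∧ ∀ (b : ℤ) (κ C0 : ℕ), 0 < b →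
    ∃ c n0 : ℕ, ∀ n ≥ n0, ∀ j : ℕ, 2 ^ n ≤ j → j < 2 ^ (n + 1) → ∃ E : Finset ℕ,
      E ⊆ Icc 1 (2 ^ j) ∧ (E.card : ℝ) ≤ 2 ^ j / 2 ^ (κ * n) ∧
      ∀ a ∈ Icc 1 (2 ^ j), a ∉ E → Vx m a b → ∀ D : ℕ, 1 ≤ D → D ≤ 2 ^ (C0 * n) →
        State m b s n D η2 a → ∃ x : ℕ, Child g m b s n D η1 (2 ^ (n / s + c)) a x := by
  obtain ⟨η3, c4, hη3, hc4, hgm⟩ := good_mass
  set η2 : ℝ := min (η3 / 2) (1 / 16) with hη2
  set η1 : ℝ := η2 / 2 with hη1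
  have hη2p : 0 < η2 := lt_min (by positivity) (by norm_num)
  have hη1p : 0 < η1 := by positivity
  have hη23 : η2 ≤ η3 / 2 := min_le_left _ _
  have hη216 : η2 ≤ 1 / 16 := min_le_right _ _
  set L0 : ℕ := ⌈64 / η1⌉₊ + 64 with hL0
  have hL64 : 64 ≤ η1 * L0 := by
    have h1 : 64 / η1 ≤ L0 := by
      rw [hL0]; push_cast
      linarith [Nat.le_ceil (64 / η1)]
    rw [div_le_iff₀ hη1p] at h1
    linarith
  have hL64' : 64 ≤ L0 := by omega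
  have hL0' : (0 : ℝ) < L0 := by exact_mod_cast (by omega : 0 < L0)
  have hL1 : 1 / (L0 : ℝ) ≤ η1 := by
    rw [div_le_iff₀ hL0']; linarith
  refine ⟨η1, η2, L0, hη1p, by omega, by rw [hη1] at hL1 ⊢; linarith, ?_⟩
  intro g m r hg hm hmL hsq hconst
  obtain ⟨ε, K, hc⟩ := hconst
  have hm' : (0 : ℝ) < m := by exact_mod_cast hm
  have h2m : (2 : ℤ) ∣ m := hmL 2 Nat.prime_two (by omega)
  set θ : ℝ := c4 / (3 * (m : ℝ) ^ 2) with hθ
  have hθ0 : 0 < θ := by positivity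
  set s : ℕ := 16 + ⌈1 / θ⌉₊ with hs
  have hs16 : 16 ≤ s := by omega
  have hsθ : 1 / θ ≤ s := by
    rw [hs]; push_cast
    linarith [Nat.le_ceil (1 / θ)]
  refine ⟨s, hs16, ?_⟩
  intro b κ C0 hb
  have hb' : (0 : ℝ) < b := by exact_mod_cast hb
  set κ' : ℕ := κ + C0 + 4 with hκ'
  set k1 : ℕ := ⌈((κ' : ℝ) + 1) / θ⌉₊ with hk1
  obtain ⟨k3, hk3⟩ := medium m b hm hb h2m s κ' C0 hs16
  set k0 : ℕ := k1 + 2 * k3 with hk0
  set c : ℕ := ⌈16 * m * b * ((k0 : ℝ) + κ' + 1) / θ⌉₊ + 1 with hcdef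
  have hc1 : 1 ≤ c := by omega
  obtain ⟨nV, hV⟩ := valid_many η1 η2 L0 hη1p hη216 hL64 hL64' m b hm hb hmL s κ' C0 c hs16
  obtain ⟨nM, hM⟩ := hk3 c
  obtain ⟨nH, hH⟩ := huge m b hm hb h2m s κ' C0 c hs16
  obtain ⟨nS, hS⟩ := sieve_union m b hm hb s c C0 hs16
  obtain ⟨nG1, hG1⟩ := hgm m r (C0 + 1) hm
  obtain ⟨nG2, hG2⟩ := hgm m (-1 - r) (C0 + 1) hm
  obtain ⟨n1, h1⟩ := ev_B8 m s c hs16
  obtain ⟨n2, h2⟩ := ev_T0 s (by omega)
  obtain ⟨n3, h3⟩ := ev_c s c (by omega)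
  obtain ⟨n4, h4⟩ := ev_frac s C0 (by omega) (η3 / 2) (by positivity)
  obtain ⟨n5, h5⟩ := ev_MM m b s C0 hs16
  obtain ⟨n6, h6⟩ := ev_Mp m b hm hb s C0 hs16
  obtain ⟨n7, h7⟩ := ev_small m b K hb s C0 c κ' hs16
  obtain ⟨n8, h8⟩ := stepC_num k0 κ' c
  obtain ⟨n9, h9⟩ := stepC_num k1 κ' c
  obtain ⟨n10, h10⟩ := ev1 s (by omega) ((32 * m * b).toNat * k0)
  refine ⟨c, nV + nM + nH + nS + nG1 + nG2 + n1 + n2 + n3 + n4 + n5 + n6 + n7 + n8 + n9 + n10 +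
    (c * k0 + c * k1 + 5), ?_⟩
  intro n hn j hj1 hj2
  have hV := hV n (by omega) j hj1 hj2
  have hM := hM n (by omega) j hj1 hj2
  have hH := hH n (by omega) j hj1 hj2
  have hS := hS n (by omega) j hj1 hj2
  have hG1 := hG1 n (by omega)
  have hG2 := hG2 n (by omega)
  have h1 := h1 n (by omega)
  have h2 := h2 n (by omega)
  have h3 := h3 n (by omega)
  have h4 := h4 n (by omega)
  have h5 := h5 n (by omega) j hj1
  have h6 := h6 n (by omega)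
  have h7 := h7 n (by omega) j hj1
  have h8 := h8 n (by omega) j (n / s) hj1 (Nat.div_le_self _ _)
  have h9 := h9 n (by omega) j (n / s) hj1 (Nat.div_le_self _ _)
  have h10 := h10 n (by omega)
  have hTn := Tn_le s n C0 hs16
  obtain ⟨hnum1, hnum0⟩ := step_num hθ0 hsθ (κ := κ') (k1 := k1) (k0 := k0) (c := c) hm hb
    (Nat.le_ceil _) (by rw [hcdef]; push_cast; linarith [Nat.le_ceil (16 * m * b * ((k0 : ℝ) + κ' + 1) / θ)])
    (n := n) (by omega)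
  -- size conditions for `k0`
  have hmb : ((32 * m * b).toNat : ℤ) = 32 * m * b := Int.toNat_of_nonneg (by positivity)
  have hk0s : 32 * m * b * k0 ≤ 2 ^ (n / s) := by
    have : (32 * m * b).toNat * k0 ≤ 2 ^ (n / s) :=
      (Nat.le_mul_of_pos_right _ (Nat.succ_pos n)).trans h10
    have h' : (((32 * m * b).toNat * k0 : ℕ) : ℤ) ≤ ((2 ^ (n / s) : ℕ) : ℤ) := by
      exact_mod_cast this
    push_cast [hmb] at h'
    exact h'
  have hk8 : 8 * m * b * k0 ≤ 2 ^ (n / s) := by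
    have : 0 ≤ m * b * k0 := by positivity
    linarith
  have hkr : (k0 : ℝ) / 2 ^ (n / s) ≤ c / (32 * m * b) := by
    rw [div_le_div_iff₀ (by positivity) (by positivity)]
    have h' : (32 * m * b * k0 : ℝ) ≤ 2 ^ (n / s) := by exact_mod_cast hk0s
    have hc1' : (1 : ℝ) ≤ c := by exact_mod_cast hc1
    nlinarith [pow_pos (by norm_num : (0 : ℝ) < 2) (n / s)]
  have hfr1 : η1 + ((C0 * n : ℕ) : ℝ) / (Tn s n : ℕ) ≤ η3 := by linarith
  have hfr2 : η2 + ((C0 * n : ℕ) : ℝ) / (Tn s n : ℕ) ≤ η3 := by linarith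
  have hL3 : 1 / (L0 : ℝ) ≤ η3 := by linarith
  set X : ℝ := 2 ^ j / 2 ^ (κ' * n) with hX
  set Sm0 : ℤ := b * (3 * m * |K| + bb (3 * n / 4) + 1) + ((2 ^ (C0 * n) : ℕ) : ℤ) * 2 ^ (n / s + c)
    with hSm0
  set ED : ℕ → Finset ℕ := fun D => (Icc 1 (2 ^ j)).filter (fun a : ℕ => Vx m a b ∧
      State m b s n D η2 a ∧
      b * (3 * m * |K| + bb (3 * n / 4) + 1) + D * 2 ^ (n / s + c) ≤ a ∧
      ¬ ∃ x : ℕ, Child g m b s n D η1 (2 ^ (n / s + c)) a x) with hED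
  have hEDc : ∀ D ∈ Icc 1 (2 ^ (C0 * n)), ((ED D).card : ℝ) ≤ 7 * X := by
    intro D hD
    rw [mem_Icc] at hD
    have hSU : SUst m b s c n j D := hS D hD.1 hD.2
    have hMM := h5 D hD.2
    have hMp := h6 D hD.1 hD.2
    refine step_one hg hm hb hsq hc (k0 := k0) (k1 := k1) (k3 := k3) hD.1 hMp le_rfl
      (hV D hD.1 hD.2) ?_ ?_ (hM D hD.1 hD.2) (hH D hD.1 hD.2)
    · refine (pair_few hm hb hD.1 h2 h3 hSU hMM hMp (r := r)
        (ρ := θ * n * (c / (16 * m * b))) (by positivity) (k := k0)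
        (fun a ha => VB_big hc1 hm hb ha hk8) ?_).trans (h8 _ hnum0)
      intro a ha J hJ hJk
      exact pair_mass hm hb hc4 ha (fun B hB => mass_pair hm hb hmL (by omega) hL3 hfr1 hfr2
        hG1 h1 hTn hD.1 hD.2 ha hB) hkr hJ hJk
    · intro hD1
      subst hD1
      refine (dir_few hm hb h2 h3 hSU hMM hMp (r := r) (ρ := 2 * θ * n) (by positivity)
        (k := k1) ?_).trans (h9 _ hnum1)
      intro a ha B hB
      have h' := mass_dir (r := r) hm hb hmL (by omega) hL3 hfr1 hη3.le hG2 h1 hTn ha hB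
      have h'' : ∑ p ∈ PD m r b s n 1 a B, (2 : ℝ) / p =
        2 * ∑ p ∈ PD m r b s n 1 a B, (1 : ℝ) / p := by
        rw [mul_sum]; exact sum_congr rfl fun p _ => by ring
      rw [h'']
      refine le_trans (le_of_eq ?_) (mul_le_mul_of_nonneg_left h' (by norm_num))
      rw [hθ]; push_cast; ring
  refine ⟨(Icc 1 (2 ^ (C0 * n))).biUnion ED ∪ (Icc 1 (2 ^ j)).filter
    (fun a : ℕ => (a : ℤ) < Sm0), ?_, ?_, ?_⟩
  · refine union_subset (biUnion_subset.2 fun D _ => filter_subset _ _) (filter_subset _ _)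
  · have hX0 : 0 < X := by positivity
    have e1 : (((Icc 1 (2 ^ (C0 * n))).biUnion ED).card : ℝ) ≤ 2 ^ (C0 * n) * (7 * X) := by
      have h' : (((Icc 1 (2 ^ (C0 * n))).biUnion ED).card : ℝ) ≤
          ∑ D ∈ Icc 1 (2 ^ (C0 * n)), ((ED D).card : ℝ) := by exact_mod_cast card_biUnion_le
      refine h'.trans ((sum_le_sum hEDc).trans (le_of_eq ?_))
      rw [sum_const, Nat.card_Icc, nsmul_eq_mul]; push_cast; ring
    have e2 : (((Icc 1 (2 ^ j)).filter (fun a : ℕ => (a : ℤ) < Sm0)).card : ℝ) ≤ X := by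
      have h' : ((Icc 1 (2 ^ j)).filter (fun a : ℕ => (a : ℤ) < Sm0)).card ≤ Sm0.toNat := by
        refine (card_le_card (t := range Sm0.toNat) fun a ha => ?_).trans (by rw [card_range])
        rw [mem_filter] at ha
        rw [mem_range]
        omega
      have h'' := h7 (2 ^ (C0 * n)) le_rfl
      rw [hX, le_div_iff₀ (by positivity)]
      have h3' : ((Icc 1 (2 ^ j)).filter (fun a : ℕ => (a : ℤ) < Sm0)).card * 2 ^ (κ' * n) ≤
          2 ^ j := (Nat.mul_le_mul_right _ h').trans h''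
      exact_mod_cast h3'
    have e3 : ((((Icc 1 (2 ^ (C0 * n))).biUnion ED ∪ (Icc 1 (2 ^ j)).filter
        (fun a : ℕ => (a : ℤ) < Sm0)).card : ℕ) : ℝ) ≤ 2 ^ (C0 * n) * (7 * X) + X := by
      refine le_trans ?_ (add_le_add e1 e2)
      exact_mod_cast card_union_le _ _
    refine e3.trans ?_
    have hp : (1 : ℝ) ≤ 2 ^ (C0 * n) := one_le_pow₀ (by norm_num)
    have hn1 : 1 ≤ n := by omega
    have e4 : (8 : ℝ) ≤ 2 ^ (4 * n) := by
      calc (8 : ℝ) = 2 ^ 3 := by norm_num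
        _ ≤ 2 ^ (4 * n) := pow_le_pow_right₀ (by norm_num) (by omega)
    have e5 : (2 : ℝ) ^ (κ' * n) = 2 ^ (κ * n) * 2 ^ (C0 * n) * 2 ^ (4 * n) := by
      rw [← pow_add, ← pow_add]; congr 1; rw [hκ']; ring
    have e6 : (2 : ℝ) ^ (C0 * n) * (7 * X) + X ≤ 8 * 2 ^ (C0 * n) * X := by nlinarith
    refine e6.trans ?_
    rw [hX, e5, ← mul_div_assoc, div_le_div_iff₀ (by positivity) (by positivity)]
    have e7 : 0 < (2 : ℝ) ^ j := by positivity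
    have e8 : 0 < (2 : ℝ) ^ (κ * n) := by positivity
    have e9 : 0 < (2 : ℝ) ^ (C0 * n) * 2 ^ j * 2 ^ (κ * n) := by positivity
    nlinarith [mul_le_mul_of_nonneg_left e4 e9.le]
  · intro a ha haE hv D hD1 hD2 hst
    by_contra hno
    apply haE
    rw [mem_union]
    by_cases hs' : (a : ℤ) < Sm0
    · exact Or.inr (mem_filter.2 ⟨ha, hs'⟩)
    · refine Or.inl (mem_biUnion.2 ⟨D, mem_Icc.2 ⟨hD1, hD2⟩, mem_filter.2 ⟨ha, hv, hst, ?_, hno⟩⟩)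
      push Not at hs'
      refine le_trans ?_ hs'
      rw [hSm0]
      have : (D : ℤ) ≤ ((2 ^ (C0 * n) : ℕ) : ℤ) := by exact_mod_cast hD2
      have := mul_le_mul_of_nonneg_right this (by positivity : (0 : ℤ) ≤ 2 ^ (n / s + c))
      linarith

end Pool.Agent.H48.SF
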