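import Pool.Agent.H48.SF.Cert

/-!
Exactness of the divisions and coprimality of the data of a child.
-/

set_option autoImplicit false

namespace Pool.Agent.H48.SF

open Finset Classical
open Pool.Agent.H41.Per (PM)
open Pool.Agent.H48.AP (F H Vx)

lemma stepA_cop_F {m a b : ℤ} (hv : Vx m a b) :
    IsCoprime (F m a b) b ∧ IsCoprime (F m a b) (3 * m) := by
  obtain ⟨h1, h2, h3⟩ := hv
  have e1 : F m a b = a ^ 2 + b * (3 * m * a + 3 * m ^ 2 * b) := by unfold F; ring
  have e2 : F m a b = a ^ 2 + (3 * m) * (a * b + m * b ^ 2) := by unfold F; ring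
  constructor
  · rw [e1]
    exact (h1.pow_left (m := 2)).add_mul_left_left _
  · rw [e2]
    refine IsCoprime.add_mul_left_left ?_ _
    refine IsCoprime.pow_left ?_
    refine IsCoprime.mul_right ?_ h2
    refine ⟨1, -(a / 3), ?_⟩
    omega

theorem stepA_exact {m b : ℤ} (hb : 0 < b) {D B : ℕ} (hD : 1 ≤ D) {a : ℤ}
    (hv : Vx m a b) (hDF : (D : ℤ) ∣ F m a b) (hA : Adm m b D B a) :
    b * xf b D B a = a - D * B ∧ 3 * m ∣ xf b D B a - 1 ∧ D * Uf m b D a = F m a b ∧
      D * U1 m b D B a = F m (xf b D B a) 1 ∧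
      b * D * Af m b D B a = (a + 3 * m * b) * (a - D * B) + 3 * m ^ 2 * b ^ 2 ∧
      b ^ 2 * D * U1 m b D B a = F m (a - D * B) b := by
  obtain ⟨t, ht⟩ := hA
  have hb0 : b ≠ 0 := hb.ne'
  have hD0 : (D : ℤ) ≠ 0 := by exact_mod_cast (by omega : D ≠ 0)
  have hax : a - D * B = b * (1 + 3 * m * t) := by linear_combination ht
  have hx : xf b D B a = 1 + 3 * m * t := by
    unfold xf; rw [hax]; exact Int.mul_ediv_cancel_left _ hb0
  obtain ⟨hc1, hc2⟩ := stepA_cop_F hv
  have hDb : IsCoprime (D : ℤ) b := IsCoprime.of_isCoprime_of_dvd_left hc1 hDF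
  have hFx : F m (a - D * B) b = b ^ 2 * F m (1 + 3 * m * t) 1 := by
    rw [hax]; unfold F; ring
  have hdx : (D : ℤ) ∣ F m (1 + 3 * m * t) 1 := by
    have h1 : (D : ℤ) ∣ b ^ 2 * F m (1 + 3 * m * t) 1 := by
      rw [← hFx]
      have : F m (a - D * B) b = F m a b + D * (-B * (2 * a + 3 * m * b) + D * B ^ 2) := by
        unfold F; ring
      rw [this]
      exact dvd_add hDF (dvd_mul_right _ _)
    exact (IsCoprime.pow_right hDb).dvd_of_dvd_mul_left h1
  have hU : (D : ℤ) * Uf m b D a = F m a b := by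
    unfold Uf; exact Int.mul_ediv_cancel' hDF
  obtain ⟨V, hV⟩ := hdx
  have hU1 : U1 m b D B a = V := by
    unfold U1; rw [hFx, hV]
    rw [show b ^ 2 * ((D : ℤ) * V) = (b ^ 2 * D) * V by ring]
    exact Int.mul_ediv_cancel_left _ (mul_ne_zero (pow_ne_zero 2 hb0) hD0)
  refine ⟨by rw [hx, hax], by rw [hx]; exact ⟨t, by ring⟩, hU, ?_, ?_, ?_⟩
  · rw [hx, hU1, hV]
  · have h2 : (a + 3 * m * b) * (a - D * B) + 3 * m ^ 2 * b ^ 2 =
        (b * D) * (b * V + (1 + 3 * m * t) * B) := by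
      have ha : a = b * (1 + 3 * m * t) + D * B := by linear_combination hax
      have h3 : (b * D) * (b * V) = b ^ 2 * F m (1 + 3 * m * t) 1 := by rw [hV]; ring
      have : (b * D) * (b * V + (1 + 3 * m * t) * B) =
        b ^ 2 * F m (1 + 3 * m * t) 1 + b * D * (1 + 3 * m * t) * B := by
        rw [← h3]; ring
      rw [this, ha]; unfold F; ring
    unfold Af
    rw [h2, Int.mul_ediv_cancel_left _ (mul_ne_zero hb0 hD0)]
  · rw [hU1, hFx, hV]; ring

theorem stepA_cop {m b : ℤ} (hb : 0 < b) {D B : ℕ} (hD : 1 ≤ D) {a : ℤ}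
    (hv : Vx m a b) (hDF : (D : ℤ) ∣ F m a b) (hA : Adm m b D B a)
    (hB : IsCoprime (B : ℤ) (Uf m b D a)) :
    IsCoprime (Af m b D B a) (3 * m * B) ∧ IsCoprime (U1 m b D B a) (3 * m * B) ∧
      IsCoprime (Uf m b D a) (3 * m * B) := by
  obtain ⟨hx, hx1, hU, hV, hAf, hV1⟩ := stepA_exact hb hD hv hDF hA
  have hb0 : b ≠ 0 := hb.ne'
  have hD0 : (D : ℤ) ≠ 0 := by exact_mod_cast (by omega : D ≠ 0)
  obtain ⟨i1, i2, i3, i4⟩ := pair_id hb0 hD0 hx hU hV hAf
  obtain ⟨hc1, hc2⟩ := stepA_cop_F hv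
  have hU3 : IsCoprime (Uf m b D a) (3 * m) :=
    IsCoprime.of_isCoprime_of_dvd_left hc2 ⟨D, by rw [← hU]; ring⟩
  have hUB : IsCoprime (Uf m b D a) (3 * m * B) := hU3.mul_right hB.symm
  have hFx3 : IsCoprime (F m (xf b D B a) 1) (3 * m) := by
    obtain ⟨t, ht⟩ := hx1
    have hxe : xf b D B a = 1 + 3 * m * t := by linear_combination ht
    have : F m (xf b D B a) 1 =
      1 + (3 * m) * (2 * t + 3 * m * t ^ 2 + (1 + 3 * m * t) + m) := by
      rw [hxe]; unfold F; ring
    rw [this]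
    exact (isCoprime_one_left).add_mul_left_left _
  have hV3 : IsCoprime (U1 m b D B a) (3 * m) :=
    IsCoprime.of_isCoprime_of_dvd_left hFx3 ⟨D, by rw [← hV]; ring⟩
  -- `B` is coprime to `b`
  have hbB : IsCoprime b (B : ℤ) := by
    have h1 : IsCoprime a b := hv.1
    have ha : a = D * B + b * xf b D B a := by linear_combination -hx
    rw [ha] at h1
    have h2 : IsCoprime ((D : ℤ) * B) b := by
      have := h1.add_mul_left_left (-(xf b D B a))
      rwa [show (D : ℤ) * B + b * xf b D B a + b * -(xf b D B a) = D * B by ring] at this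
    exact (IsCoprime.of_mul_left_right h2).symm
  have hVB : IsCoprime (U1 m b D B a) (B : ℤ) := by
    -- U = b² V + B (…)
    have h1 : Uf m b D a = b ^ 2 * U1 m b D B a +
        B * (2 * b * xf b D B a + 3 * m * b + D * B) := by
      have h2 : (D : ℤ) * Uf m b D a = D * (b ^ 2 * U1 m b D B a +
        B * (2 * b * xf b D B a + 3 * m * b + D * B)) := by
        have ha : a = D * B + b * xf b D B a := by linear_combination -hx
        have h3 : (D : ℤ) * (b ^ 2 * U1 m b D B a) = b ^ 2 * F m (xf b D B a) 1 := by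
          rw [← hV]; ring
        calc (D : ℤ) * Uf m b D a = F m (D * B + b * xf b D B a) b := by rw [hU, ← ha]
          _ = b ^ 2 * F m (xf b D B a) 1 +
              D * (B * (2 * b * xf b D B a + 3 * m * b + D * B)) := by unfold F; ring
          _ = _ := by rw [← h3]; ring
      exact mul_left_cancel₀ hD0 h2
    have h4 : IsCoprime (b ^ 2 * U1 m b D B a) (B : ℤ) := by
      have := (hB.symm : IsCoprime (Uf m b D a) (B : ℤ))
      rw [h1] at this
      have h5 := this.add_mul_left_left (-(2 * b * xf b D B a + 3 * m * b + D * B))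
      rwa [show b ^ 2 * U1 m b D B a + B * (2 * b * xf b D B a + 3 * m * b + D * B) +
        B * -(2 * b * xf b D B a + 3 * m * b + D * B) = b ^ 2 * U1 m b D B a by ring] at h5
    exact IsCoprime.of_mul_left_right h4
  have hVall : IsCoprime (U1 m b D B a) (3 * m * B) := hV3.mul_right hVB
  refine ⟨?_, hVall, hUB⟩
  -- A² = U V mod 3mB
  have h1 : IsCoprime (F m (Af m b D B a) B) (3 * m * B) := by
    rw [i3]; exact hUB.mul_left hVall
  have h2 : F m (Af m b D B a) B =
      Af m b D B a ^ 2 + (3 * m * B) * (Af m b D B a + m * B) := by unfold F; ring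
  rw [h2] at h1
  have h3 := h1.add_mul_left_left (-(Af m b D B a + m * B))
  rw [show Af m b D B a ^ 2 + 3 * m * B * (Af m b D B a + m * B) +
    3 * m * B * -(Af m b D B a + m * B) = Af m b D B a ^ 2 by ring] at h3
  exact (IsCoprime.pow_left_iff (by norm_num : 0 < 2)).1 h3

/-- `A ≡ V (mod 3)` and `V` is prime to `3` -/
theorem stepA_mod3 {m b : ℤ} (hb : 0 < b) {D B : ℕ} (hD : 1 ≤ D) {a : ℤ}
    (hv : Vx m a b) (hDF : (D : ℤ) ∣ F m a b) (hA : Adm m b D B a) :
    (3 : ℤ) ∣ Af m b D B a - U1 m b D B a ∧ ¬ (3 : ℤ) ∣ U1 m b D B a := by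
  obtain ⟨hx, hx1, hU, hV, hAf, hV1⟩ := stepA_exact hb hD hv hDF hA
  have hb0 : b ≠ 0 := hb.ne'
  have hD0 : (D : ℤ) ≠ 0 := by exact_mod_cast (by omega : D ≠ 0)
  obtain ⟨i1, i2, i3, i4⟩ := pair_id hb0 hD0 hx hU hV hAf
  obtain ⟨t, ht⟩ := hx1
  have hxe : xf b D B a = 1 + 3 * m * t := by linear_combination ht
  have hF1 : (3 : ℤ) ∣ F m (xf b D B a) 1 - 1 := by
    rw [hxe]; unfold F
    exact ⟨m * (2 * t + 3 * m * t ^ 2 + (1 + 3 * m * t) + m), by ring⟩
  have hDV : (3 : ℤ) ∣ D * U1 m b D B a - 1 := by rw [hV]; exact hF1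
  have ha3 : (3 : ℤ) ∣ a - 1 := by have := hv.2.2; omega
  have hDA : (3 : ℤ) ∣ D * Af m b D B a - 1 := by
    rw [i1]
    have e : (D : ℤ) * (b * U1 m b D B a + xf b D B a * B) - 1 =
        b * (D * U1 m b D B a - 1) + (b + xf b D B a * (D * B) - 1) := by ring
    rw [e]
    refine dvd_add (hDV.mul_left b) ?_
    have hDB : (D : ℤ) * B = a - b * xf b D B a := by linear_combination hx
    rw [hDB, hxe]
    have e2 : b + (1 + 3 * m * t) * (a - b * (1 + 3 * m * t)) - 1 =
        (a - 1) + 3 * (m * t * (a - b * (1 + 3 * m * t)) - b * (m * t)) := by ring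
    rw [e2]
    exact dvd_add ha3 (dvd_mul_right _ _)
  have hn3 : ¬ (3 : ℤ) ∣ U1 m b D B a := fun h => by
    have := (Int.dvd_sub (h.mul_left D) hDV)
    have e : (D : ℤ) * U1 m b D B a - (D * U1 m b D B a - 1) = 1 := by ring
    rw [e] at this
    omega
  refine ⟨?_, hn3⟩
  have h3D : ¬ (3 : ℤ) ∣ D := fun h => by
    have := (Int.dvd_sub (h.mul_right (U1 m b D B a)) hDV)
    have e : (D : ℤ) * U1 m b D B a - (D * U1 m b D B a - 1) = 1 := by ring
    rw [e] at this
    omega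
  have h4 : (3 : ℤ) ∣ D * (Af m b D B a - U1 m b D B a) := by
    have := Int.dvd_sub hDA hDV
    rwa [show (D : ℤ) * Af m b D B a - 1 - (D * U1 m b D B a - 1) =
      D * (Af m b D B a - U1 m b D B a) by ring] at this
  exact (Int.prime_three.dvd_or_dvd h4).resolve_left h3D

end Pool.Agent.H48.SF
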