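import Pool.Agent.H48.SF.StepA
import Pool.Agent.H48.SF.GoodMass

/-!
The sets of valid `B` and of good primes, and their masses.
-/

set_option autoImplicit false

namespace Pool.Agent.H48.SF

open Finset Classical
open Pool.Agent.H95.Gol (bb)
open Pool.Agent.H41.Per (PM)
open Pool.Agent.H48.AP (F H Vx)

/-- the valid `B` -/
noncomputable def VB (m b : ℤ) (s n c D : ℕ) (η : ℝ) (a : ℤ) : Finset ℕ :=
  (Ico (2 ^ (n / s)) (2 ^ (n / s + c))).filter (fun B : ℕ => Valid m b s n D η a B)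

/-- the part of the state that depends on the residue class only -/
def PreState (m b : ℤ) (s n c D : ℕ) (η1 η2 : ℝ) (a : ℤ) : Prop :=
  Vx m a b ∧ (D : ℤ) ∣ F m a b ∧ (∀ τ ∈ Sm m (Tn s n) D, ¬ (τ : ℤ) ^ 2 ∣ Uf m b D a) ∧
    ST (Tn s n) (Uf m b D a) ≤ η2 ∧
    ∀ i < c, 2 ^ (n / s + i) ≤ 8 * m * b * (((Ico (2 ^ (n / s + i)) (2 ^ (n / s + i + 1))).filter
        (fun B : ℕ => Valid m b s n D η1 a B)).card : ℤ)

/-- good primes of the pair certificate -/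
noncomputable def PP (m r b : ℤ) (s n D : ℕ) (a : ℤ) (B : ℕ) : Finset ℕ :=
  (PW n).filter (fun p => GoodP m r (Af m b D B a) B (U1 m b D B a) (Uf m b D a)
    (Sm m (Tn s n) D) p)

/-- good primes of the direct certificate -/
noncomputable def PD (m r b : ℤ) (s n D : ℕ) (a : ℤ) (B : ℕ) : Finset ℕ :=
  (PW n).filter (fun p => GoodP m (-1 - r) (xf b D B a) 1 (F m (xf b D B a) 1) 1
    (Sm m (Tn s n) D) p)

/-- the statement of `good_mass` for one `m`, `r` -/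
def GMass (m r : ℤ) (C0 : ℕ) (η3 c4 : ℝ) (n : ℕ) : Prop :=
  ∀ (A B u v : ℤ) (S : Finset ℕ), 1 ≤ B → 3 * m ^ 2 * B ≤ 2 ^ (n / 8) →
    IsCoprime A (3 * m * B) → IsCoprime u (3 * m * B) → IsCoprime v (3 * m * B) →
    (∀ τ ∈ S, τ.Prime ∧ ¬ (τ : ℤ) ∣ 3 * m ∧ τ ≤ 2 ^ (C0 * n) ∧ ¬ (τ : ℤ) ^ 2 ∣ u ∧
      ¬ (τ : ℤ) ^ 2 ∣ v) →
    ∑ τ ∈ S, (1 : ℝ) / (τ : ℝ) ^ 2 ≤ η3 →
    ∑ τ ∈ S.filter (fun τ : ℕ => (τ : ℤ) ∣ u), (1 : ℝ) / τ ≤ η3 →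
    ∑ τ ∈ S.filter (fun τ : ℕ => (τ : ℤ) ∣ v), (1 : ℝ) / τ ≤ η3 →
    c4 * n / ((3 * m ^ 2 * B : ℤ) : ℝ) ≤
      ∑ p ∈ (PW n).filter (fun p => GoodP m r A B u v S p), (1 : ℝ) / p

lemma stepB_sum_sq {L0 : ℕ} (hL : 1 ≤ L0) (S : Finset ℕ) (hS : ∀ τ ∈ S, L0 < τ) :
    ∑ τ ∈ S, (1 : ℝ) / (τ : ℝ) ^ 2 ≤ 1 / L0 := by
  have h1 : S ⊆ Ioc L0 (S.sup id + L0) := by
    intro l hl
    rw [mem_Ioc]
    have := le_sup (f := id) hl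
    simp only [id] at this
    exact ⟨hS l hl, by omega⟩
  calc ∑ l ∈ S, (1:ℝ) / (l:ℝ)^2 ≤ ∑ l ∈ Ioc L0 (S.sup id + L0), (1:ℝ) / (l:ℝ)^2 :=
        sum_le_sum_of_subset_of_nonneg h1 fun _ _ _ => by positivity
    _ = ∑ l ∈ Ioc L0 (S.sup id + L0), ((l:ℝ)^2)⁻¹ := sum_congr rfl fun l _ => by rw [one_div]
    _ ≤ ((L0:ℕ):ℝ)⁻¹ - ((S.sup id + L0 : ℕ) : ℝ)⁻¹ :=
        sum_Ioc_inv_sq_le_sub (by omega) (by omega)
    _ ≤ 1 / L0 := by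
        have : (0:ℝ) ≤ ((S.sup id + L0 : ℕ) : ℝ)⁻¹ := by positivity
        rw [one_div]; linarith

lemma stepB_Sm_gt {m : ℤ} {L0 T D : ℕ} (hmL : ∀ τ : ℕ, τ.Prime → τ ≤ L0 → (τ : ℤ) ∣ m) {τ : ℕ}
    (h : τ ∈ Sm m T D) : τ.Prime ∧ ¬ (τ : ℤ) ∣ 3 * m ∧ L0 < τ := by
  unfold Sm at h
  rw [mem_filter] at h
  refine ⟨h.2.1, h.2.2, ?_⟩
  by_contra hc
  exact h.2.2 ((hmL τ h.2.1 (by omega)).mul_left 3)

lemma stepB_sum_dvd {m : ℤ} {T D C : ℕ} (hT : 1 ≤ T) (hD : 1 ≤ D) (hD2 : D ≤ 2 ^ C) (U : ℤ) :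
    ∑ τ ∈ (Sm m T D).filter (fun τ : ℕ => (τ : ℤ) ∣ U), (1 : ℝ) / τ ≤ ST T U + C / T := by
  have hT0 : (0 : ℝ) < T := by exact_mod_cast hT
  have hsub : (Sm m T D).filter (fun τ : ℕ => (τ : ℤ) ∣ U) ⊆
      (Icc 1 T).filter (fun τ : ℕ => τ.Prime ∧ (τ : ℤ) ∣ U) ∪
        D.primeFactors.filter (fun τ => T < τ) := by
    intro τ hτ
    unfold Sm at hτ
    rw [mem_filter, mem_filter, mem_union] at hτ
    rw [mem_union, mem_filter, mem_filter]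
    obtain ⟨⟨h1, h2, h3⟩, h4⟩ := hτ
    by_cases h : τ ≤ T
    · exact Or.inl ⟨mem_Icc.2 ⟨h2.one_lt.le, h⟩, h2, h4⟩
    · rcases h1 with h1 | h1
      · exact absurd (mem_Icc.1 h1).2 h
      · exact Or.inr ⟨h1, by omega⟩
  refine (sum_le_sum_of_subset_of_nonneg hsub fun _ _ _ => by positivity).trans ?_
  have hun := sum_union_inter (s₁ := (Icc 1 T).filter (fun τ : ℕ => τ.Prime ∧ (τ : ℤ) ∣ U))
    (s₂ := D.primeFactors.filter (fun τ => T < τ)) (f := fun τ : ℕ => (1 : ℝ) / τ)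
  have hin : 0 ≤ ∑ τ ∈ (Icc 1 T).filter (fun τ : ℕ => τ.Prime ∧ (τ : ℤ) ∣ U) ∩
    D.primeFactors.filter (fun τ => T < τ), (1 : ℝ) / τ := sum_nonneg fun _ _ => by positivity
  have hle : ∑ τ ∈ D.primeFactors.filter (fun τ => T < τ), (1 : ℝ) / τ ≤ C / T → _ := fun h =>
    (show ∑ τ ∈ (Icc 1 T).filter (fun τ : ℕ => τ.Prime ∧ (τ : ℤ) ∣ U) ∪
      D.primeFactors.filter (fun τ => T < τ), (1 : ℝ) / τ ≤ ST T U + C / T by
        unfold ST; linarith)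
  refine hle ?_
  have h1 : ∀ τ ∈ D.primeFactors.filter (fun τ => T < τ), (1 : ℝ) / τ ≤ 1 / T := by
    intro τ hτ
    rw [mem_filter] at hτ
    have : (T : ℝ) ≤ τ := by exact_mod_cast hτ.2.le
    exact one_div_le_one_div_of_le hT0 this
  refine (sum_le_sum h1).trans ?_
  rw [sum_const, nsmul_eq_mul]
  have h2 : (D.primeFactors.filter (fun τ => T < τ)).card ≤ C := by
    refine (card_filter_le _ _).trans ?_
    have h3 : 2 ^ D.primeFactors.card ≤ D := by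
      calc 2 ^ D.primeFactors.card = ∏ _p ∈ D.primeFactors, 2 := by rw [prod_const]
        _ ≤ ∏ p ∈ D.primeFactors, p := prod_le_prod' fun p hp => (Nat.prime_of_mem_primeFactors hp).two_le
        _ ≤ D := Nat.le_of_dvd hD (Nat.prod_primeFactors_dvd D)
    exact (Nat.pow_le_pow_iff_right (by norm_num)).1 (h3.trans hD2)
  have h4 : ((D.primeFactors.filter (fun τ => T < τ)).card : ℝ) ≤ C := by exact_mod_cast h2
  calc ((D.primeFactors.filter (fun τ => T < τ)).card : ℝ) * (1 / T) ≤ C * (1 / T) :=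
        mul_le_mul_of_nonneg_right h4 (by positivity)
    _ = C / T := by ring

lemma stepB_Sm_le {m : ℤ} {T D C n : ℕ} (hT : T ≤ 2 ^ ((C + 1) * n)) (hD : 1 ≤ D)
    (hD2 : D ≤ 2 ^ (C * n)) {τ : ℕ} (h : τ ∈ Sm m T D) : τ ≤ 2 ^ ((C + 1) * n) := by
  unfold Sm at h
  rw [mem_filter, mem_union] at h
  rcases h.1 with h1 | h1
  · exact (mem_Icc.1 h1).2.trans hT
  · refine (Nat.le_of_dvd hD (Nat.dvd_of_mem_primeFactors h1)).trans (hD2.trans ?_)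
    exact Nat.pow_le_pow_right (by norm_num) (by nlinarith)

theorem mass_pair {m r b : ℤ} (hm : 0 < m) (hb : 0 < b) {s n c D C0 L0 : ℕ} {η1 η2 η3 c4 : ℝ}
    (hmL : ∀ τ : ℕ, τ.Prime → τ ≤ L0 → (τ : ℤ) ∣ m) (hL0 : 1 ≤ L0) (h3 : 1 / (L0 : ℝ) ≤ η3)
    (h1 : η1 + ((C0 * n : ℕ) : ℝ) / (Tn s n : ℕ) ≤ η3)
    (h2 : η2 + ((C0 * n : ℕ) : ℝ) / (Tn s n : ℕ) ≤ η3)
    (hgm : GMass m r (C0 + 1) η3 c4 n) (hB8 : 3 * m ^ 2 * 2 ^ (n / s + c) ≤ 2 ^ (n / 8))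
    (hT : Tn s n ≤ 2 ^ ((C0 + 1) * n)) (hD : 1 ≤ D) (hD2 : D ≤ 2 ^ (C0 * n)) {a : ℤ}
    (hP : PreState m b s n c D η1 η2 a) {B : ℕ} (hB : B ∈ VB m b s n c D η1 a) :
    c4 * n / ((3 * m ^ 2 * B : ℤ) : ℝ) ≤ ∑ p ∈ PP m r b s n D a B, (1 : ℝ) / p := by
  obtain ⟨p1, p2, p3, p4, -⟩ := hP
  unfold VB at hB
  rw [mem_filter, mem_Ico] at hB
  obtain ⟨⟨hB1, hB2⟩, v1, v2, v3, v4, v5, v6⟩ := hB
  have hBpos : 1 ≤ B := Nat.one_le_two_pow.trans hB1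
  have hT1 : 1 ≤ Tn s n := by unfold Tn; exact Nat.one_le_two_pow
  obtain ⟨q1, q2, q3⟩ := stepA_cop hb hD p1 p2 v1 v4
  refine hgm _ _ _ _ _ (by exact_mod_cast hBpos) ?_ q1 q2 q3 ?_ ?_ ?_ ?_
  · refine le_trans ?_ hB8
    have : (B : ℤ) ≤ 2 ^ (n / s + c) := by exact_mod_cast hB2.le
    exact mul_le_mul_of_nonneg_left this (by positivity)
  · intro τ hτ
    obtain ⟨t1, t2, t3⟩ := stepB_Sm_gt hmL hτ
    exact ⟨t1, t2, stepB_Sm_le hT hD hD2 hτ, v2 τ hτ, p3 τ hτ⟩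
  · exact (stepB_sum_sq hL0 _ fun τ hτ => (stepB_Sm_gt hmL hτ).2.2).trans h3
  · refine (stepB_sum_dvd hT1 hD hD2 _).trans (le_trans ?_ h1)
    exact add_le_add v3 le_rfl
  · refine (stepB_sum_dvd hT1 hD hD2 _).trans (le_trans ?_ h2)
    exact add_le_add p4 le_rfl

theorem mass_dir {m r b : ℤ} (hm : 0 < m) (hb : 0 < b) {s n c C0 L0 : ℕ} {η1 η2 η3 c4 : ℝ}
    (hmL : ∀ τ : ℕ, τ.Prime → τ ≤ L0 → (τ : ℤ) ∣ m) (hL0 : 1 ≤ L0) (h3 : 1 / (L0 : ℝ) ≤ η3)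
    (h1 : η1 + ((C0 * n : ℕ) : ℝ) / (Tn s n : ℕ) ≤ η3) (hη3 : 0 ≤ η3)
    (hgm : GMass m (-1 - r) (C0 + 1) η3 c4 n) (hB8 : 3 * m ^ 2 * 2 ^ (n / s + c) ≤ 2 ^ (n / 8))
    (hT : Tn s n ≤ 2 ^ ((C0 + 1) * n)) {a : ℤ}
    (hP : PreState m b s n c 1 η1 η2 a) {B : ℕ} (hB : B ∈ VB m b s n c 1 η1 a) :
    c4 * n / ((3 * m ^ 2 : ℤ) : ℝ) ≤ ∑ p ∈ PD m r b s n 1 a B, (1 : ℝ) / p := by
  obtain ⟨p1, p2, p3, p4, -⟩ := hP
  unfold VB at hB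
  rw [mem_filter, mem_Ico] at hB
  obtain ⟨⟨hB1, hB2⟩, v1, v2, v3, v4, v5, v6⟩ := hB
  have hBpos : 1 ≤ B := Nat.one_le_two_pow.trans hB1
  have hT1 : 1 ≤ Tn s n := by unfold Tn; exact Nat.one_le_two_pow
  have hD1 : 1 ≤ 2 ^ (C0 * n) := Nat.one_le_two_pow
  obtain ⟨e1, e2, e3, e4, e5, e6⟩ := stepA_exact hb le_rfl p1 p2 v1
  obtain ⟨q1, q2, q3⟩ := stepA_cop hb le_rfl p1 p2 v1 v4
  have hF : F m (xf b 1 B a) 1 = U1 m b 1 B a := by rw [← e4]; push_cast; ring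
  have hxc : IsCoprime (xf b 1 B a) (3 * m * 1) := by
    obtain ⟨t, ht⟩ := e2
    refine ⟨1, -t, ?_⟩
    linear_combination ht
  have hFc : IsCoprime (F m (xf b 1 B a) 1) (3 * m * 1) := by
    rw [hF, mul_one]
    exact IsCoprime.of_mul_right_left q2
  have key := hgm (xf b 1 B a) 1 (F m (xf b 1 B a) 1) 1 (Sm m (Tn s n) 1) le_rfl ?_ hxc hFc
    isCoprime_one_left ?_ ?_ ?_ ?_
  · simpa [PD, mul_one] using key
  · refine le_trans ?_ hB8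
    have : (1 : ℤ) ≤ 2 ^ (n / s + c) := by exact_mod_cast Nat.one_le_two_pow
    exact mul_le_mul_of_nonneg_left this (by positivity)
  · intro τ hτ
    obtain ⟨t1, t2, t3⟩ := stepB_Sm_gt hmL hτ
    refine ⟨t1, t2, stepB_Sm_le hT le_rfl hD1 hτ, ?_, ?_⟩
    · rw [hF]; exact v2 τ hτ
    · intro h
      have h4 : (τ : ℤ) ^ 2 ≤ 1 := Int.le_of_dvd one_pos h
      have h5 : (2 : ℤ) ≤ τ := by exact_mod_cast t1.two_le
      nlinarith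
  · exact (stepB_sum_sq hL0 _ fun τ hτ => (stepB_Sm_gt hmL hτ).2.2).trans h3
  · rw [hF]
    refine (stepB_sum_dvd hT1 le_rfl hD1 _).trans (le_trans ?_ h1)
    exact add_le_add v3 le_rfl
  · have : (Sm m (Tn s n) 1).filter (fun τ : ℕ => (τ : ℤ) ∣ 1) = ∅ := by
      apply filter_eq_empty_iff.2
      intro τ hτ h
      have h4 : (τ : ℤ) ≤ 1 := Int.le_of_dvd one_pos h
      have h5 : (2 : ℤ) ≤ τ := by exact_mod_cast (stepB_Sm_gt hmL hτ).1.two_le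
      linarith
    rw [this, sum_empty]
    exact hη3

/-- good primes are `≡ 1 (mod 3)` -/
theorem PP_mod3 {m r b : ℤ} (hb : 0 < b) {s n c D : ℕ} {η1 η2 : ℝ} (hD : 1 ≤ D) {a : ℤ}
    (hP : PreState m b s n c D η1 η2 a) {B : ℕ} (hB : B ∈ VB m b s n c D η1 a) :
    PP m r b s n D a B ⊆ (PW n).filter (fun p => p % 3 = 1) := by
  intro p hp
  unfold PP at hp
  rw [mem_filter] at hp ⊢
  refine ⟨hp.1, ?_⟩
  obtain ⟨p1, p2, -⟩ := hP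
  unfold VB at hB
  rw [mem_filter] at hB
  obtain ⟨h1, h2⟩ := stepA_mod3 hb hD p1 p2 hB.2.1
  have h3 : (3 : ℤ) ∣ p * (Af m b D B a - 3 * m * B * r) - U1 m b D B a :=
    Dvd.dvd.trans ⟨m ^ 2 * B, by ring⟩ hp.2.1
  have h4 : (3 : ℤ) ∣ (p - 1) * U1 m b D B a := by
    have e : ((p : ℤ) - 1) * U1 m b D B a = (p * (Af m b D B a - 3 * m * B * r) -
      U1 m b D B a) - p * (Af m b D B a - U1 m b D B a) + 3 * (p * m * B * r) := by ring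
    rw [e]
    exact dvd_add (Int.dvd_sub h3 (h1.mul_left _)) (dvd_mul_right _ _)
  have h5 := (Int.prime_three.dvd_or_dvd h4).resolve_right h2
  omega

theorem PD_mod3 {m r b : ℤ} (hb : 0 < b) {s n c D : ℕ} {η1 η2 : ℝ} (hD : 1 ≤ D) {a : ℤ}
    (hP : PreState m b s n c D η1 η2 a) {B : ℕ} (hB : B ∈ VB m b s n c D η1 a) :
    PD m r b s n D a B ⊆ (PW n).filter (fun p => p % 3 = 1) := by
  intro p hp
  unfold PD at hp
  rw [mem_filter] at hp ⊢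
  refine ⟨hp.1, ?_⟩
  obtain ⟨p1, p2, -⟩ := hP
  unfold VB at hB
  rw [mem_filter] at hB
  obtain ⟨e1, ⟨t, ht⟩, -⟩ := stepA_exact hb hD p1 p2 hB.2.1
  have hx : xf b D B a = 1 + 3 * m * t := by linear_combination ht
  have h3 : (3 : ℤ) ∣ p * (xf b D B a - 3 * m * 1 * (-1 - r)) - F m (xf b D B a) 1 :=
    Dvd.dvd.trans ⟨m ^ 2 * 1, by ring⟩ hp.2.1
  have h4 : (3 : ℤ) ∣ p - 1 := by
    have e : (p : ℤ) - 1 = (p * (xf b D B a - 3 * m * 1 * (-1 - r)) - F m (xf b D B a) 1) +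
      3 * (-(p * m * t) + p * m * (-1 - r) + (m * (2 * t + 3 * m * t ^ 2 +
        (1 + 3 * m * t) + m))) := by rw [hx]; unfold F; ring
    rw [e]
    exact dvd_add h3 (dvd_mul_right _ _)
  omega

end Pool.Agent.H48.SF
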