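import Pool.Agent.H48.SF.Defs

/-!
All small data depend only on `a` modulo `MM m b D T`.
-/

set_option autoImplicit false

namespace Pool.Agent.H48.SF

open Finset Classical
open Pool.Agent.H95.Gol (bb PB)
open Pool.Agent.H41.Per (PM)
open Pool.Agent.H48.AP (F H Vx Sparse oddCount)

lemma tr_div {N e x x' : ℤ} (he : e ≠ 0) (hx : e ∣ x) (hx' : e ∣ x') (h : e * N ∣ x - x') :
    N ∣ x / e - x' / e := by
  obtain ⟨y, rfl⟩ := hx
  obtain ⟨y', rfl⟩ := hx'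
  rw [Int.mul_ediv_cancel_left _ he, Int.mul_ediv_cancel_left _ he]
  rw [← mul_sub] at h
  exact (mul_dvd_mul_iff_left he).mp h

lemma tr_MM {m b : ℤ} (D T : ℕ) :
    (MM m b D T : ℤ) = b ^ 2 * D * (3 * m ^ 2 * D ^ 2 * (T.factorial : ℤ) ^ 3) := by
  unfold MM
  push_cast
  rw [abs_of_nonneg (by positivity)]
  ring

lemma tr_F_sub (m b a a' : ℤ) : F m a b - F m a' b = (a - a') * (a + a' + 3 * m * b) := by
  unfold F; ring

lemma tr_cop {m a b D : ℤ} (h : D ∣ F m a b) (hc : IsCoprime a b) : IsCoprime b D := by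
  have h1 : IsCoprime b (a ^ 2) := (hc.symm).pow_right
  have h2 : IsCoprime b (F m a b) := by
    have : F m a b = a ^ 2 + b * (3 * m * a + 3 * m ^ 2 * b) := by unfold F; ring
    rw [this]
    exact IsCoprime.add_mul_left_right h1 _
  exact h2.of_isCoprime_of_dvd_right h

/-- exactness of the divisions for one vertex -/
lemma tr_exact {m b a : ℤ} {D B : ℕ} (hv : Vx m a b) (hDF : (D : ℤ) ∣ F m a b)
    (hA : Adm m b D B a) :
    b ∣ a - D * B ∧ b ^ 2 * D ∣ F m (a - D * B) b ∧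
      b * D ∣ (a + 3 * m * b) * (a - D * B) + 3 * m ^ 2 * b ^ 2 := by
  have hc := tr_cop hDF hv.1
  have hb : b ∣ a - D * B := by
    have h1 : b ∣ a - D * B - b := (Dvd.intro_left (3 * m) rfl).trans hA
    have h2 := dvd_add h1 (dvd_refl b)
    simpa using h2
  refine ⟨hb, ?_, ?_⟩
  · apply IsCoprime.mul_dvd hc.pow_left
    · obtain ⟨x, hx⟩ := hb
      rw [hx]
      refine ⟨F m x 1, ?_⟩
      unfold F; ring
    · have : F m (a - D * B) b = F m a b - D * (B * (2 * a + 3 * m * b - D * B)) := by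
        unfold F; ring
      rw [this]
      exact dvd_sub hDF (dvd_mul_right _ _)
  · apply IsCoprime.mul_dvd hc
    · apply dvd_add (hb.mul_left _)
      exact ⟨3 * m ^ 2 * b, by ring⟩
    · have : (a + 3 * m * b) * (a - D * B) + 3 * m ^ 2 * b ^ 2 =
          F m a b - D * (B * (a + 3 * m * b)) := by
        unfold F; ring
      rw [this]
      exact dvd_sub hDF (dvd_mul_right _ _)

/-- the quantities of `a` and `a'` are congruent modulo `3m²D²(T!)³` -/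
theorem transfer_vals {m b : ℤ} (hm : 0 < m) (hb : 0 < b) {D T : ℕ} (hD : 1 ≤ D) {a a' : ℤ}
    (hM : (MM m b D T : ℤ) ∣ a - a') (hv : Vx m a b) (hDF : (D : ℤ) ∣ F m a b) :
    Vx m a' b ∧ (D : ℤ) ∣ F m a' b ∧
    3 * m ^ 2 * D ^ 2 * (T.factorial : ℤ) ^ 3 ∣ Uf m b D a - Uf m b D a' ∧
    ∀ B : ℕ, 1 ≤ B → B ≤ T → Adm m b D B a → Adm m b D B a' ∧
      3 * m ^ 2 * D ^ 2 * (T.factorial : ℤ) ^ 3 ∣ U1 m b D B a - U1 m b D B a' ∧
      3 * m ^ 2 * D ^ 2 * (T.factorial : ℤ) ^ 3 ∣ Af m b D B a - Af m b D B a' ∧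
      3 * m ^ 2 * D ^ 2 * (T.factorial : ℤ) ^ 3 ∣ xf b D B a - xf b D B a' := by
  have hD0 : (D : ℤ) ≠ 0 := by exact_mod_cast (by omega : D ≠ 0)
  have hb0 : b ≠ 0 := hb.ne'
  rw [tr_MM] at hM
  set N : ℤ := 3 * m ^ 2 * D ^ 2 * (T.factorial : ℤ) ^ 3 with hN
  have hbd : b ∣ a - a' := (show b ∣ b ^ 2 * D * N from ⟨b * D * N, by ring⟩).trans hM
  have hmd : m ∣ a - a' :=
    (show m ∣ b ^ 2 * D * N from ⟨b ^ 2 * D * (3 * m * D ^ 2 * (T.factorial : ℤ) ^ 3), by rw [hN]; ring⟩).trans hM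
  have h3d : 3 ∣ a - a' :=
    (show 3 ∣ b ^ 2 * D * N from ⟨b ^ 2 * D * (m ^ 2 * D ^ 2 * (T.factorial : ℤ) ^ 3), by rw [hN]; ring⟩).trans hM
  have hDd : (D : ℤ) ∣ a - a' := (show (D : ℤ) ∣ b ^ 2 * D * N from ⟨b ^ 2 * N, by ring⟩).trans hM
  have h3mb : 3 * m * b ∣ a - a' :=
    (show 3 * m * b ∣ b ^ 2 * D * N from ⟨b * D * (m * D ^ 2 * (T.factorial : ℤ) ^ 3), by rw [hN]; ring⟩).trans hM
  have hv' : Vx m a' b := by
    obtain ⟨h1, h2, h3⟩ := hv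
    refine ⟨?_, ?_, by omega⟩
    · obtain ⟨k, hk⟩ := hbd
      have : a' = a + b * (-k) := by linear_combination -hk
      rw [this]
      exact IsCoprime.add_mul_left_left h1 _
    · obtain ⟨k, hk⟩ := hmd
      have : a' = a + m * (-k) := by linear_combination -hk
      rw [this]
      exact IsCoprime.add_mul_left_left h2 _
  have hDF' : (D : ℤ) ∣ F m a' b := by
    have h1 : F m a' b = F m a b - (a - a') * (a + a' + 3 * m * b) := by
      rw [← tr_F_sub]; ring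
    rw [h1]
    exact dvd_sub hDF (hDd.mul_right _)
  refine ⟨hv', hDF', ?_, ?_⟩
  · unfold Uf
    apply tr_div hD0 hDF hDF'
    rw [tr_F_sub]
    apply Dvd.dvd.mul_right
    exact (show (D : ℤ) * N ∣ b ^ 2 * D * N from ⟨b ^ 2, by ring⟩).trans hM
  · intro B hB1 hBT hA
    have hA' : Adm m b D B a' := by
      unfold Adm at hA ⊢
      have : a' - D * B - b = (a - D * B - b) - (a - a') := by ring
      rw [this]
      exact dvd_sub hA h3mb
    obtain ⟨e1, e2, e3⟩ := tr_exact hv hDF hA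
    obtain ⟨e1', e2', e3'⟩ := tr_exact hv' hDF' hA'
    refine ⟨hA', ?_, ?_, ?_⟩
    · unfold U1
      apply tr_div (mul_ne_zero (pow_ne_zero 2 hb0) hD0) e2 e2'
      rw [tr_F_sub]
      apply Dvd.dvd.mul_right
      have : a - D * B - (a' - D * B) = a - a' := by ring
      rw [this]
      exact hM
    · unfold Af
      apply tr_div (mul_ne_zero hb0 hD0) e3 e3'
      have : (a + 3 * m * b) * (a - D * B) + 3 * m ^ 2 * b ^ 2 -
          ((a' + 3 * m * b) * (a' - D * B) + 3 * m ^ 2 * b ^ 2) =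
          (a - a') * (a + a' + 3 * m * b - D * B) := by ring
      rw [this]
      apply Dvd.dvd.mul_right
      exact (show b * D * N ∣ b ^ 2 * D * N from ⟨b, by ring⟩).trans hM
    · unfold xf
      apply tr_div hb0 e1 e1'
      have : a - D * B - (a' - D * B) = a - a' := by ring
      rw [this]
      exact (show b * N ∣ b ^ 2 * D * N from ⟨b * D, by ring⟩).trans hM

/-- a divisor of the modulus divides both or none -/
lemma tr_iff {N d x x' : ℤ} (hd : d ∣ N) (h : N ∣ x - x') : d ∣ x ↔ d ∣ x' := by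
  have h1 := hd.trans h
  constructor
  · intro h2
    have := dvd_sub h2 h1
    simpa using this
  · intro h2
    have := dvd_add h2 h1
    simpa using this

lemma tr_fac {τ T : ℕ} (h0 : 1 ≤ τ) (h : τ ≤ T) : (τ : ℤ) ∣ (T.factorial : ℤ) := by
  exact_mod_cast Nat.dvd_factorial (by omega) h

/-- `B τ²` divides `D² (T!)³` for small `τ` -/
lemma tr_small {m : ℤ} {D T B τ : ℕ} (hB1 : 1 ≤ B) (hBT : B ≤ T) (hτ : τ ∈ Sm m T D) :
    (B : ℤ) * τ ^ 2 ∣ D ^ 2 * (T.factorial : ℤ) ^ 3 := by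
  have hB := tr_fac hB1 hBT
  unfold Sm at hτ
  rw [mem_filter, mem_union, mem_Icc] at hτ
  obtain ⟨h1, h2, -⟩ := hτ
  rcases h1 with h1 | h1
  · have h3 := tr_fac h1.1 h1.2
    have h4 : (B : ℤ) * τ ^ 2 ∣ (T.factorial : ℤ) * (T.factorial : ℤ) ^ 2 :=
      mul_dvd_mul hB (pow_dvd_pow_of_dvd h3 2)
    exact h4.trans ⟨D ^ 2, by ring⟩
  · have h3 : (τ : ℤ) ∣ D := by exact_mod_cast Nat.dvd_of_mem_primeFactors h1
    have h4 : (B : ℤ) * τ ^ 2 ∣ (T.factorial : ℤ) * (D : ℤ) ^ 2 :=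
      mul_dvd_mul hB (pow_dvd_pow_of_dvd h3 2)
    exact h4.trans ⟨(T.factorial : ℤ) ^ 2, by ring⟩

lemma tr_ST {N x x' : ℤ} {T : ℕ} (hN : (T.factorial : ℤ) ∣ N) (h : N ∣ x - x') :
    (Icc 1 T).filter (fun τ : ℕ => τ.Prime ∧ (τ : ℤ) ∣ x) =
      (Icc 1 T).filter (fun τ : ℕ => τ.Prime ∧ (τ : ℤ) ∣ x') := by
  apply filter_congr
  intro τ hτ
  rw [mem_Icc] at hτ
  rw [tr_iff ((tr_fac hτ.1 hτ.2).trans hN) h]

lemma tr_valid {m b : ℤ} (hm : 0 < m) (hb : 0 < b) {s n D : ℕ} (hD : 1 ≤ D)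
    (hT : T0 s n ≤ Tn s n) {a a' : ℤ}
    (hM : (MM m b D (Tn s n) : ℤ) ∣ a - a') (hv : Vx m a b) (hDF : (D : ℤ) ∣ F m a b)
    (η : ℝ) (B : ℕ) (hB1 : 1 ≤ B) (hBT : B ≤ Tn s n) (h : Valid m b s n D η a B) :
    Valid m b s n D η a' B := by
  obtain ⟨hv', hDF', hU, hall⟩ := transfer_vals hm hb hD hM hv hDF
  unfold Valid at h ⊢
  obtain ⟨h1, h2, h3, h4, h5, h6⟩ := h
  obtain ⟨g1, g2, g3, g4⟩ := hall B hB1 hBT h1
  set N : ℤ := 3 * m ^ 2 * D ^ 2 * ((Tn s n).factorial : ℤ) ^ 3 with hN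
  have hfN : ((Tn s n).factorial : ℤ) ∣ N :=
    ⟨3 * m ^ 2 * D ^ 2 * ((Tn s n).factorial : ℤ) ^ 2, by rw [hN]; ring⟩
  have hDN : (D : ℤ) ∣ N :=
    ⟨3 * m ^ 2 * D * ((Tn s n).factorial : ℤ) ^ 3, by rw [hN]; ring⟩
  refine ⟨g1, ?_, ?_, ?_, ?_, ?_⟩
  · intro τ hτ
    have h7 := h2 τ hτ
    have h8 : (τ : ℤ) ^ 2 ∣ N := by
      have h9 := tr_small hB1 hBT hτ
      have h10 : (τ : ℤ) ^ 2 ∣ D ^ 2 * ((Tn s n).factorial : ℤ) ^ 3 :=
        (dvd_mul_left _ _).trans h9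
      exact h10.trans ⟨3 * m ^ 2, by rw [hN]; ring⟩
    rwa [tr_iff h8 g2] at h7
  · unfold ST at h3 ⊢
    rwa [tr_ST hfN g2] at h3
  · have h7 : (B : ℤ) ∣ Uf m b D a - Uf m b D a' := ((tr_fac hB1 hBT).trans hfN).trans hU
    obtain ⟨k, hk⟩ := h7
    have : Uf m b D a' = Uf m b D a + B * (-k) := by linear_combination -hk
    rw [this]
    exact IsCoprime.add_mul_left_right h4 _
  · intro h7
    have h8 := h5 h7
    have h9 : (D.minFac : ℤ) ∣ N := (by exact_mod_cast D.minFac_dvd : (D.minFac : ℤ) ∣ D).trans hDN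
    rwa [tr_iff h9 g2] at h8
  · unfold om at h6 ⊢
    have h7 : ((T0 s n).factorial : ℤ) ∣ N :=
      (by exact_mod_cast Nat.factorial_dvd_factorial hT :
        ((T0 s n).factorial : ℤ) ∣ ((Tn s n).factorial : ℤ)).trans hfN
    rwa [tr_ST h7 g2] at h6

lemma tr_good {m r : ℤ} {D T B : ℕ} (hB1 : 1 ≤ B) (hBT : B ≤ T) {A A' u u' v v' : ℤ}
    (hA : 3 * m ^ 2 * D ^ 2 * (T.factorial : ℤ) ^ 3 ∣ A - A')
    (hu : 3 * m ^ 2 * D ^ 2 * (T.factorial : ℤ) ^ 3 ∣ u - u')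
    (hv : 3 * m ^ 2 * D ^ 2 * (T.factorial : ℤ) ^ 3 ∣ v - v') (p : ℕ)
    (h : GoodP m r A B u v (Sm m T D) p) : GoodP m r A' B u' v' (Sm m T D) p := by
  unfold GoodP at h ⊢
  obtain ⟨h1, h2⟩ := h
  constructor
  · have h3 : 3 * m ^ 2 * (B : ℤ) ∣ 3 * m ^ 2 * D ^ 2 * (T.factorial : ℤ) ^ 3 := by
      have h4 := tr_fac hB1 hBT
      have h5 : 3 * m ^ 2 * (B : ℤ) ∣ 3 * m ^ 2 * (T.factorial : ℤ) := mul_dvd_mul_left _ h4
      exact h5.trans ⟨D ^ 2 * (T.factorial : ℤ) ^ 2, by ring⟩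
    have h6 : 3 * m ^ 2 * D ^ 2 * (T.factorial : ℤ) ^ 3 ∣
        (p * (A - 3 * m * B * r) - u) - (p * (A' - 3 * m * B * r) - u') := by
      have h7 : (p * (A - 3 * m * B * r) - u) - (p * (A' - 3 * m * B * r) - u') =
          p * (A - A') - (u - u') := by ring
      rw [h7]
      exact dvd_sub (hA.mul_left _) hu
    rwa [tr_iff h3 h6] at h1
  · intro τ hτ hbad
    apply h2 τ hτ
    have h3 : 3 * m ^ 2 * (B : ℤ) * τ ^ 2 ∣ 3 * m ^ 2 * D ^ 2 * (T.factorial : ℤ) ^ 3 := by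
      have h4 := tr_small hB1 hBT hτ
      have h5 := mul_dvd_mul_left (3 * m ^ 2) h4
      have e1 : 3 * m ^ 2 * (B : ℤ) * τ ^ 2 = 3 * m ^ 2 * (B * τ ^ 2) := by ring
      have e2 : 3 * m ^ 2 * D ^ 2 * (T.factorial : ℤ) ^ 3 =
        3 * m ^ 2 * (D ^ 2 * (T.factorial : ℤ) ^ 3) := by ring
      rw [e1, e2]
      exact h5
    obtain ⟨R, hR1, hR2, hR3⟩ := hbad
    refine ⟨R, hR1, hR2, ?_⟩
    rcases hR3 with hR3 | hR3
    · left
      have h6 : 3 * m ^ 2 * D ^ 2 * (T.factorial : ℤ) ^ 3 ∣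
          (p * (A - 3 * m * B * R) - u) - (p * (A' - 3 * m * B * R) - u') := by
        have h7 : (p * (A - 3 * m * B * R) - u) - (p * (A' - 3 * m * B * R) - u') =
            p * (A - A') - (u - u') := by ring
        rw [h7]
        exact dvd_sub (hA.mul_left _) hu
      rwa [tr_iff h3 h6]
    · right
      have h6 : 3 * m ^ 2 * D ^ 2 * (T.factorial : ℤ) ^ 3 ∣
          (p * v - A - 3 * m * B * (1 + R)) - (p * v' - A' - 3 * m * B * (1 + R)) := by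
        have h7 : (p * v - A - 3 * m * B * (1 + R)) - (p * v' - A' - 3 * m * B * (1 + R)) =
            p * (v - v') - (A - A') := by ring
        rw [h7]
        exact dvd_sub (hv.mul_left _) hA
      rwa [tr_iff h3 h6]

/-- everything that is determined by the residue class -/
theorem transfer {m b : ℤ} (hm : 0 < m) (hb : 0 < b) {s n D : ℕ} (hD : 1 ≤ D)
    (hT : T0 s n ≤ Tn s n) {a a' : ℤ}
    (hM : (MM m b D (Tn s n) : ℤ) ∣ a - a') (hv : Vx m a b) (hDF : (D : ℤ) ∣ F m a b) :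
    (∀ η : ℝ, ∀ B : ℕ, 1 ≤ B → B ≤ Tn s n →
      (Valid m b s n D η a B ↔ Valid m b s n D η a' B)) ∧
    ST (Tn s n) (Uf m b D a) = ST (Tn s n) (Uf m b D a') ∧
    (∀ τ ∈ Sm m (Tn s n) D, (τ : ℤ) ^ 2 ∣ Uf m b D a ↔ (τ : ℤ) ^ 2 ∣ Uf m b D a') ∧
    (∀ (r : ℤ) (B : ℕ), 1 ≤ B → B ≤ Tn s n → Adm m b D B a → ∀ p : ℕ,
      (GoodP m r (Af m b D B a) B (U1 m b D B a) (Uf m b D a) (Sm m (Tn s n) D) p ↔
        GoodP m r (Af m b D B a') B (U1 m b D B a') (Uf m b D a') (Sm m (Tn s n) D) p) ∧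
      (GoodP m r (xf b D B a) 1 (F m (xf b D B a) 1) 1 (Sm m (Tn s n) D) p ↔
        GoodP m r (xf b D B a') 1 (F m (xf b D B a') 1) 1 (Sm m (Tn s n) D) p)) := by
  obtain ⟨hv', hDF', hU, hall⟩ := transfer_vals hm hb hD hM hv hDF
  have hM' : (MM m b D (Tn s n) : ℤ) ∣ a' - a := by
    rw [← neg_sub]; exact (dvd_neg).mpr hM
  set N : ℤ := 3 * m ^ 2 * D ^ 2 * ((Tn s n).factorial : ℤ) ^ 3 with hN
  have hfN : ((Tn s n).factorial : ℤ) ∣ N :=
    ⟨3 * m ^ 2 * D ^ 2 * ((Tn s n).factorial : ℤ) ^ 2, by rw [hN]; ring⟩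
  have hT1 : 1 ≤ Tn s n := by unfold Tn; exact Nat.one_le_two_pow
  refine ⟨?_, ?_, ?_, ?_⟩
  · intro η B hB1 hBT
    exact ⟨tr_valid hm hb hD hT hM hv hDF η B hB1 hBT,
      tr_valid hm hb hD hT hM' hv' hDF' η B hB1 hBT⟩
  · unfold ST
    rw [tr_ST hfN hU]
  · intro τ hτ
    have h8 : (τ : ℤ) ^ 2 ∣ N := by
      have h9 := tr_small le_rfl hT1 hτ
      have h10 : (τ : ℤ) ^ 2 ∣ D ^ 2 * ((Tn s n).factorial : ℤ) ^ 3 :=
        (dvd_mul_left _ _).trans h9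
      exact h10.trans ⟨3 * m ^ 2, by rw [hN]; ring⟩
    exact tr_iff h8 hU
  · intro r B hB1 hBT hA p
    obtain ⟨g1, g2, g3, g4⟩ := hall B hB1 hBT hA
    have sw : ∀ {x y : ℤ}, N ∣ x - y → N ∣ y - x := by
      intro x y h
      rw [← neg_sub]; exact (dvd_neg).mpr h
    constructor
    · exact ⟨tr_good hB1 hBT g3 g2 hU p, tr_good hB1 hBT (sw g3) (sw g2) (sw hU) p⟩
    · have h5 : N ∣ F m (xf b D B a) 1 - F m (xf b D B a') 1 := by
        rw [tr_F_sub]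
        exact g4.mul_right _
      have h6 : N ∣ (1 : ℤ) - 1 := by simp
      have c1 := tr_good (r := r) (B := 1) le_rfl hT1 g4 h5 h6 p
      have c2 := tr_good (r := r) (B := 1) le_rfl hT1 (sw g4) (sw h5) h6 p
      simp only [Nat.cast_one] at c1 c2
      exact ⟨c1, c2⟩

end Pool.Agent.H48.SF
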