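import Pool.Agent.H48.SF.StepB
import Pool.Agent.H48.SF.SieveU
import Pool.Agent.H48.SF.Transfer

/-!
The sieve for the good primes of the valid `B`.
-/

set_option autoImplicit false

namespace Pool.Agent.H48.SF

open Finset Classical
open Pool.Agent.H95.Gol (bb)
open Pool.Agent.H41.Per (PM)
open Pool.Agent.H48.AP (F H Vx)

section tr

variable {m b : ℤ} {s n c D : ℕ} {η1 η2 : ℝ} {a a' : ℤ}

theorem VB_tr (hm : 0 < m) (hb : 0 < b) (hD : 1 ≤ D) (hT : T0 s n ≤ Tn s n)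
    (hc : 2 ^ (n / s + c) ≤ Tn s n)
    (hM : (MM m b D (Tn s n) : ℤ) ∣ a - a') (hv : Vx m a b) (hDF : (D : ℤ) ∣ F m a b) :
    VB m b s n c D η1 a = VB m b s n c D η1 a' := by
  obtain ⟨h1, -⟩ := transfer hm hb hD hT hM hv hDF
  unfold VB
  refine filter_congr fun B hB => ?_
  rw [mem_Ico] at hB
  exact h1 η1 B (Nat.one_le_two_pow.trans hB.1) (hB.2.le.trans hc)

theorem Pre_tr (hm : 0 < m) (hb : 0 < b) (hD : 1 ≤ D) (hT : T0 s n ≤ Tn s n)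
    (hc : 2 ^ (n / s + c) ≤ Tn s n)
    (hM : (MM m b D (Tn s n) : ℤ) ∣ a - a') (h : PreState m b s n c D η1 η2 a) :
    PreState m b s n c D η1 η2 a' := by
  obtain ⟨hv, hDF, h3, h4, h5⟩ := h
  obtain ⟨t1, t2, t3, -⟩ := transfer hm hb hD hT hM hv hDF
  obtain ⟨u1, u2, -⟩ := transfer_vals hm hb hD hM hv hDF
  refine ⟨u1, u2, fun τ hτ => ?_, t2 ▸ h4, fun i hi => ?_⟩
  · exact fun h => h3 τ hτ ((t3 τ hτ).2 h)
  · have e : (Ico (2 ^ (n / s + i)) (2 ^ (n / s + i + 1))).filter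
        (fun B : ℕ => Valid m b s n D η1 a' B) =
        (Ico (2 ^ (n / s + i)) (2 ^ (n / s + i + 1))).filter
        (fun B : ℕ => Valid m b s n D η1 a B) := by
      refine filter_congr fun B hB => ?_
      rw [mem_Ico] at hB
      refine (t1 η1 B (Nat.one_le_two_pow.trans hB.1) (hB.2.le.trans (le_trans ?_ hc))).symm
      exact Nat.pow_le_pow_right (by norm_num) (by omega)
    rw [e]
    exact h5 i hi

theorem PP_tr {r : ℤ} (hm : 0 < m) (hb : 0 < b) (hD : 1 ≤ D) (hT : T0 s n ≤ Tn s n)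
    (hc : 2 ^ (n / s + c) ≤ Tn s n)
    (hM : (MM m b D (Tn s n) : ℤ) ∣ a - a') (hv : Vx m a b) (hDF : (D : ℤ) ∣ F m a b) {B : ℕ}
    (hB : B ∈ VB m b s n c D η1 a) :
    PP m r b s n D a B = PP m r b s n D a' B ∧ PD m r b s n D a B = PD m r b s n D a' B := by
  obtain ⟨-, -, -, t4⟩ := transfer hm hb hD hT hM hv hDF
  unfold VB at hB
  rw [mem_filter, mem_Ico] at hB
  have hB1 : 1 ≤ B := Nat.one_le_two_pow.trans hB.1.1
  have hB2 : B ≤ Tn s n := hB.1.2.le.trans hc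
  constructor
  · unfold PP
    exact filter_congr fun p _ => (t4 r B hB1 hB2 hB.2.1 p).1
  · unfold PD
    exact filter_congr fun p _ => (t4 (-1 - r) B hB1 hB2 hB.2.1 p).2

end tr

/-- the final numerical inequality of the sieve -/
lemma stepC_num (k κ c : ℕ) : ∃ n0 : ℕ, ∀ n ≥ n0, ∀ j u : ℕ, 2 ^ n ≤ j → u ≤ n → ∀ ρ : ℝ,
    Real.log 2 * (((u + c) * k + κ * n + 5 : ℕ) : ℝ) ≤ ρ →
    ((2 ^ (u + c)) ^ k : ℝ) * (8 * 2 ^ j * Real.exp (-ρ) + 2 ^ (j / 2)) ≤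
      2 ^ j / 2 ^ (κ * n) := by
  -- (n + c) k + κ n + 2 ≤ 2 ^ (n-1)
  have hev : ∃ n0 : ℕ, ∀ n ≥ n0, (n + c) * k + κ * n + 2 ≤ 2 ^ (n - 1) := by
    have h1 : ∃ n0 : ℕ, ∀ n ≥ n0, (2 * k + 2 * κ + 2 * c * k + 4) * (n + 1) ≤ 2 ^ n := by
      set A := 2 * k + 2 * κ + 2 * c * k + 4
      refine ⟨4 * A, fun n hn => ?_⟩
      induction n, hn using Nat.le_induction with
      | base =>
        have h2 : 2 * A < 2 ^ (2 * A) := Nat.lt_two_pow_self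
        calc A * (4 * A + 1) ≤ (2 * A + 1) * (2 * A + 1) := by nlinarith
          _ ≤ 2 ^ (2 * A) * 2 ^ (2 * A) := Nat.mul_le_mul h2 h2
          _ = 2 ^ (4 * A) := by rw [← pow_add]; congr 1; omega
      | succ n hn ih =>
        have h3 : A ≤ 2 ^ n := by nlinarith
        calc A * (n + 1 + 1) = A * (n + 1) + A := by ring
          _ ≤ 2 ^ n + 2 ^ n := by omega
          _ = 2 ^ (n + 1) := by ring
    obtain ⟨n0, h0⟩ := h1
    refine ⟨max n0 1, fun n hn => ?_⟩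
    have hn1 : 1 ≤ n := le_trans (le_max_right _ _) hn
    have h2 := h0 n (le_trans (le_max_left _ _) hn)
    have h3 : 2 ^ n = 2 * 2 ^ (n - 1) := by
      rw [← pow_succ']; congr 1; omega
    rw [h3] at h2
    have h4 : 2 * ((n + c) * k + κ * n + 2) ≤ (2 * k + 2 * κ + 2 * c * k + 4) * (n + 1) := by
      nlinarith [Nat.zero_le (c * k * n), Nat.zero_le κ, Nat.zero_le (k * n)]
    omega
  obtain ⟨n0, h0⟩ := hev
  refine ⟨max n0 1, fun n hn j u hj hu ρ hρ => ?_⟩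
  have hn1 : 1 ≤ n := le_trans (le_max_right _ _) hn
  have h1 := h0 n (le_trans (le_max_left _ _) hn)
  have h2 : (u + c) * k ≤ (n + c) * k := Nat.mul_le_mul_right _ (by omega)
  set e1 := (u + c) * k with he1
  set e2 := κ * n with he2
  have hj2 : e1 + e2 + 2 + j / 2 ≤ j := by
    have h3 : 2 ^ n = 2 * 2 ^ (n - 1) := by
      rw [← pow_succ']; congr 1; omega
    omega
  have hexp : Real.exp (-ρ) ≤ ((2 : ℝ) ^ (e1 + e2 + 5))⁻¹ := by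
    have h4 : (2 : ℝ) ^ (e1 + e2 + 5) = Real.exp (Real.log 2 * ((e1 + e2 + 5 : ℕ) : ℝ)) := by
      rw [Real.exp_mul, Real.exp_log (by norm_num), Real.rpow_natCast]
    rw [h4, ← Real.exp_neg]
    exact Real.exp_le_exp.2 (by linarith)
  have hp1 : ((2 : ℝ) ^ (u + c)) ^ k = 2 ^ e1 := by rw [← pow_mul]
  rw [hp1]
  have hA : (2 : ℝ) ^ e1 * (8 * 2 ^ j * Real.exp (-ρ)) ≤ 2 ^ j / 2 ^ e2 / 2 := by
    calc (2 : ℝ) ^ e1 * (8 * 2 ^ j * Real.exp (-ρ)) ≤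
        (2 : ℝ) ^ e1 * (8 * 2 ^ j * ((2 : ℝ) ^ (e1 + e2 + 5))⁻¹) := by gcongr
      _ = 2 ^ j / 2 ^ e2 / 4 := by
          rw [show (2 : ℝ) ^ (e1 + e2 + 5) = 2 ^ e1 * 2 ^ e2 * 32 by rw [pow_add, pow_add]; norm_num]
          field_simp
          norm_num
      _ ≤ 2 ^ j / 2 ^ e2 / 2 := by
          have : (0 : ℝ) ≤ 2 ^ j / 2 ^ e2 := by positivity
          linarith
  have hB : (2 : ℝ) ^ e1 * 2 ^ (j / 2) ≤ 2 ^ j / 2 ^ e2 / 2 := by
    rw [div_div, le_div_iff₀ (by positivity)]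
    calc (2 : ℝ) ^ e1 * 2 ^ (j / 2) * (2 ^ e2 * 2) = 2 ^ (e1 + j / 2 + e2 + 1) := by
          rw [pow_succ, pow_add, pow_add]; ring
      _ ≤ 2 ^ j := pow_le_pow_right₀ (by norm_num) (by omega)
  calc (2 : ℝ) ^ e1 * (8 * 2 ^ j * Real.exp (-ρ) + 2 ^ (j / 2)) =
      2 ^ e1 * (8 * 2 ^ j * Real.exp (-ρ)) + 2 ^ e1 * 2 ^ (j / 2) := by ring
    _ ≤ 2 ^ j / 2 ^ e2 / 2 + 2 ^ j / 2 ^ e2 / 2 := add_le_add hA hB
    _ = 2 ^ j / 2 ^ e2 := by ring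

end Pool.Agent.H48.SF
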