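import Pool.Agent.H48.SF.StepC

/-!
The sieve for the good primes of the valid `B`, II.
-/

set_option autoImplicit false

namespace Pool.Agent.H48.SF

open Finset Classical
open Pool.Agent.H95.Gol (bb)
open Pool.Agent.H41.Per (PM)
open Pool.Agent.H48.AP (F H Vx)

/-- the conclusion of `sieve_union` -/
def SUst (m b : ℤ) (s c n j D : ℕ) : Prop :=
  ∀ M : ℕ, 1 ≤ M → M ≤ 2 ^ (j / 4) → (∀ p ∈ PW n, ¬ p ∣ M) →
    ∀ (Pf : ℕ → ℕ → Finset ℕ) (Wf : ℕ → Finset (Finset ℕ)) (ρ Kc : ℝ), 0 ≤ ρ →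
    (∀ i < M, ((Wf i).card : ℝ) ≤ Kc) →
    (∀ i < M, ∀ W ∈ Wf i, W ⊆ Icc 1 (2 ^ (n / s + c)) ∧
      (∀ B ∈ W, Pf i B ⊆ (PW n).filter (fun p => p % 3 = 1)) ∧
      ρ ≤ ∑ B ∈ W, ∑ p ∈ Pf i B, (2 : ℝ) / p) →
    (((Icc 1 (2 ^ j)).filter (fun a : ℕ => ∃ W ∈ Wf (a % M), ∀ B ∈ W, ∀ p ∈ Pf (a % M) B,
      ¬ (p : ℤ) ∣ F m (a - D * B) b)).card : ℝ) ≤
      Kc * (8 * 2 ^ j * Real.exp (-ρ) + 2 ^ (j / 2))

section

variable {m b : ℤ} {s n c D j : ℕ} {η1 η2 : ℝ}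

theorem fam_few (hm : 0 < m) (hb : 0 < b) (hD : 1 ≤ D) (hT : T0 s n ≤ Tn s n)
    (hc : 2 ^ (n / s + c) ≤ Tn s n) (hSU : SUst m b s c n j D)
    (hM4 : MM m b D (Tn s n) ≤ 2 ^ (j / 4)) (hMp : ∀ p ∈ PW n, ¬ p ∣ MM m b D (Tn s n))
    {Pf : ℤ → ℕ → Finset ℕ} {Wf : ℤ → Finset (Finset ℕ)} {ρ Kc : ℝ} (hρ : 0 ≤ ρ) (hK : 0 ≤ Kc)
    (hW : ∀ a : ℤ, PreState m b s n c D η1 η2 a → ∀ W ∈ Wf a, W ⊆ VB m b s n c D η1 a ∧
      ρ ≤ ∑ B ∈ W, ∑ p ∈ Pf a B, (2 : ℝ) / p)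
    (hcard : ∀ a : ℤ, PreState m b s n c D η1 η2 a → ((Wf a).card : ℝ) ≤ Kc)
    (h3 : ∀ a : ℤ, PreState m b s n c D η1 η2 a → ∀ B ∈ VB m b s n c D η1 a,
      Pf a B ⊆ (PW n).filter (fun p => p % 3 = 1))
    (htr : ∀ a a' : ℤ, PreState m b s n c D η1 η2 a → (MM m b D (Tn s n) : ℤ) ∣ a - a' →
      Wf a = Wf a' ∧ ∀ B ∈ VB m b s n c D η1 a, Pf a B = Pf a' B) :
    (((Icc 1 (2 ^ j)).filter (fun a : ℕ => PreState m b s n c D η1 η2 a ∧
      ∃ W ∈ Wf a, ∀ B ∈ W, ∀ p ∈ Pf a B, ¬ (p : ℤ) ∣ F m (a - D * B) b)).card : ℝ) ≤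
      Kc * (8 * 2 ^ j * Real.exp (-ρ) + 2 ^ (j / 2)) := by
  have hM1 : 1 ≤ MM m b D (Tn s n) := by
    unfold MM
    have h1 : 0 < (3 * m ^ 2 * b ^ 2).natAbs := Int.natAbs_pos.2 (by positivity)
    have h2 : 0 < (Tn s n).factorial := Nat.factorial_pos _
    have : 0 < (3 * m ^ 2 * b ^ 2).natAbs * D ^ 3 * (Tn s n).factorial ^ 3 := by positivity
    exact this
  have key := hSU (MM m b D (Tn s n)) hM1 hM4 hMp (fun i B => Pf i B)
    (fun i => if PreState m b s n c D η1 η2 i then Wf i else ∅) ρ Kc hρ ?_ ?_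
  · refine le_trans ?_ key
    norm_cast
    refine card_le_card fun a ha => ?_
    rw [mem_filter] at ha ⊢
    obtain ⟨h1, h2, W, h4, h5⟩ := ha
    refine ⟨h1, W, ?_⟩
    have hdvd : (MM m b D (Tn s n) : ℤ) ∣ (a : ℤ) - ((a % MM m b D (Tn s n) : ℕ) : ℤ) := by
      rw [Int.natCast_mod]
      exact Int.dvd_self_sub_emod
    have hP' := Pre_tr hm hb hD hT hc hdvd h2
    obtain ⟨e1, e2⟩ := htr _ _ h2 hdvd
    have hWa := (hW _ h2 W h4).1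
    refine ⟨?_, fun B hB p hp => ?_⟩
    · rw [if_pos hP', ← e1]; exact h4
    · rw [← e2 B (hWa hB)] at hp
      exact h5 B hB p hp
  · intro i _
    split_ifs with h
    · exact hcard _ h
    · simpa using hK
  · intro i _ W hWi
    split_ifs at hWi with h
    · obtain ⟨h4, h5⟩ := hW _ h W hWi
      refine ⟨fun B hB => ?_, fun B hB => h3 _ h B (h4 hB), h5⟩
      have := h4 hB
      unfold VB at this
      rw [mem_filter, mem_Ico] at this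
      rw [mem_Icc]
      exact ⟨Nat.one_le_two_pow.trans this.1.1, this.1.2.le⟩
    · simp at hWi

lemma VB_card_le (a : ℤ) : (VB m b s n c D η1 a).card ≤ 2 ^ (n / s + c) := by
  unfold VB
  refine (card_filter_le _ _).trans ?_
  rw [Nat.card_Ico]
  exact Nat.sub_le _ _

/-- few `a` have at most `k` valid `B` that are hit by a good prime -/
theorem pair_few (hm : 0 < m) (hb : 0 < b) (hD : 1 ≤ D) (hT : T0 s n ≤ Tn s n)
    (hc : 2 ^ (n / s + c) ≤ Tn s n) (hSU : SUst m b s c n j D)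
    (hM4 : MM m b D (Tn s n) ≤ 2 ^ (j / 4)) (hMp : ∀ p ∈ PW n, ¬ p ∣ MM m b D (Tn s n))
    {r : ℤ} {ρ : ℝ} (hρ : 0 ≤ ρ) {k : ℕ}
    (hbig : ∀ a : ℤ, PreState m b s n c D η1 η2 a → k ≤ (VB m b s n c D η1 a).card)
    (hmass : ∀ a : ℤ, PreState m b s n c D η1 η2 a → ∀ J ⊆ VB m b s n c D η1 a, J.card = k →
      ρ ≤ ∑ B ∈ VB m b s n c D η1 a \ J, ∑ p ∈ PP m r b s n D a B, (2 : ℝ) / p) :
    (((Icc 1 (2 ^ j)).filter (fun a : ℕ => PreState m b s n c D η1 η2 a ∧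
      ((VB m b s n c D η1 a).filter (fun B : ℕ => ∃ p ∈ PP m r b s n D a B,
        (p : ℤ) ∣ F m (a - D * B) b)).card ≤ k)).card : ℝ) ≤
      ((2 ^ (n / s + c)) ^ k : ℝ) * (8 * 2 ^ j * Real.exp (-ρ) + 2 ^ (j / 2)) := by
  have key := fam_few (η1 := η1) (η2 := η2) hm hb hD hT hc hSU hM4 hMp
    (Pf := fun a B => PP m r b s n D a B)
    (Wf := fun a => ((VB m b s n c D η1 a).powersetCard k).image
      (fun J => VB m b s n c D η1 a \ J)) hρ (Kc := ((2 ^ (n / s + c)) ^ k : ℝ)) (by positivity)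
    ?_ ?_ ?_ ?_
  · refine le_trans ?_ key
    norm_cast
    refine card_le_card fun a ha => ?_
    rw [mem_filter] at ha ⊢
    obtain ⟨h1, h2, h3⟩ := ha
    obtain ⟨J, j1, j2, j3⟩ := exists_subsuperset_card_eq (filter_subset _ _) h3 (hbig _ h2)
    refine ⟨h1, h2, VB m b s n c D η1 a \ J, mem_image.2 ⟨J, mem_powersetCard.2 ⟨j2, j3⟩, rfl⟩,
      fun B hB p hp hd => ?_⟩
    rw [mem_sdiff] at hB
    exact hB.2 (j1 (mem_filter.2 ⟨hB.1, p, hp, hd⟩))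
  · intro a ha W hW
    obtain ⟨J, hJ, rfl⟩ := mem_image.1 hW
    rw [mem_powersetCard] at hJ
    exact ⟨sdiff_subset, hmass a ha J hJ.1 hJ.2⟩
  · intro a ha
    have h1 : (((VB m b s n c D η1 a).powersetCard k).image
      (fun J => VB m b s n c D η1 a \ J)).card ≤ (2 ^ (n / s + c)) ^ k := by
      refine card_image_le.trans ?_
      rw [card_powersetCard]
      exact (Nat.choose_le_pow _ _).trans (Nat.pow_le_pow_left (VB_card_le a) k)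
    exact_mod_cast h1
  · exact fun a ha B hB => PP_mod3 hb hD ha hB
  · intro a a' ha hd
    have e := VB_tr (c := c) (η1 := η1) hm hb hD hT hc hd ha.1 ha.2.1
    refine ⟨by simp only [e], fun B hB => ?_⟩
    exact (PP_tr (r := r) hm hb hD hT hc hd ha.1 ha.2.1 hB).1

/-- few `a` have `k` valid `B` that are not hit by a good prime of the direct certificate -/
theorem dir_few (hm : 0 < m) (hb : 0 < b) (hT : T0 s n ≤ Tn s n)
    (hc : 2 ^ (n / s + c) ≤ Tn s n) (hSU : SUst m b s c n j 1)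
    (hM4 : MM m b 1 (Tn s n) ≤ 2 ^ (j / 4)) (hMp : ∀ p ∈ PW n, ¬ p ∣ MM m b 1 (Tn s n))
    {r : ℤ} {ρ : ℝ} (hρ : 0 ≤ ρ) {k : ℕ}
    (hmass : ∀ a : ℤ, PreState m b s n c 1 η1 η2 a → ∀ B ∈ VB m b s n c 1 η1 a,
      ρ ≤ ∑ p ∈ PD m r b s n 1 a B, (2 : ℝ) / p) :
    (((Icc 1 (2 ^ j)).filter (fun a : ℕ => PreState m b s n c 1 η1 η2 a ∧
      k ≤ ((VB m b s n c 1 η1 a).filter (fun B : ℕ => ∀ p ∈ PD m r b s n 1 a B,
        ¬ (p : ℤ) ∣ F m (a - (1 : ℕ) * B) b)).card)).card : ℝ) ≤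
      ((2 ^ (n / s + c)) ^ k : ℝ) * (8 * 2 ^ j * Real.exp (-(k * ρ)) + 2 ^ (j / 2)) := by
  have key := fam_few (η1 := η1) (η2 := η2) hm hb le_rfl hT hc hSU hM4 hMp
    (Pf := fun a B => PD m r b s n 1 a B)
    (Wf := fun a => (VB m b s n c 1 η1 a).powersetCard k)
    (ρ := k * ρ) (by positivity) (Kc := ((2 ^ (n / s + c)) ^ k : ℝ)) (by positivity)
    ?_ ?_ ?_ ?_
  · refine le_trans ?_ key
    norm_cast
    refine card_le_card fun a ha => ?_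
    rw [mem_filter] at ha ⊢
    obtain ⟨h1, h2, h3⟩ := ha
    obtain ⟨W, w1, w2⟩ := exists_subset_card_eq h3
    refine ⟨h1, h2, W, mem_powersetCard.2 ⟨w1.trans (filter_subset _ _), w2⟩, fun B hB p hp => ?_⟩
    have := w1 hB
    rw [mem_filter] at this
    exact this.2 p hp
  · intro a ha W hW
    rw [mem_powersetCard] at hW
    refine ⟨hW.1, ?_⟩
    calc (k : ℝ) * ρ = ∑ _B ∈ W, ρ := by rw [sum_const, hW.2, nsmul_eq_mul]
      _ ≤ _ := sum_le_sum fun B hB => hmass a ha B (hW.1 hB)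
  · intro a ha
    have h1 : ((VB m b s n c 1 η1 a).powersetCard k).card ≤ (2 ^ (n / s + c)) ^ k := by
      rw [card_powersetCard]
      exact (Nat.choose_le_pow _ _).trans (Nat.pow_le_pow_left (VB_card_le a) k)
    exact_mod_cast h1
  · exact fun a ha B hB => PD_mod3 hb le_rfl ha hB
  · intro a a' ha hd
    have e := VB_tr (c := c) (η1 := η1) hm hb le_rfl hT hc hd ha.1 ha.2.1
    refine ⟨by simp only [e], fun B hB => ?_⟩
    exact (PP_tr (r := r) hm hb le_rfl hT hc hd ha.1 ha.2.1 hB).2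

end

end Pool.Agent.H48.SF
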