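import Pool.Agent.H48.SF.StepB
import Pool.Agent.H48.SF.PairStep
import Pool.Agent.H48.SF.DirStep

/-!
The local step: a state without exceptions has a good child.
-/

set_option autoImplicit false

namespace Pool.Agent.H48.SF

open Finset Classical
open Pool.Agent.H95.Gol (bb)
open Pool.Agent.H41.Per (PM)
open Pool.Agent.H48.AP (F H Vx)

lemma stepE_notin {m : ℤ} {T D τ : ℕ} (hD : 1 ≤ D) (hτ : τ.Prime) (h : τ ∉ Sm m T D)
    (h3 : ¬ (τ : ℤ) ∣ 3 * m) : T < τ ∧ ¬ τ ∣ D := by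
  unfold Sm at h
  rw [mem_filter, mem_union] at h
  push Not at h
  constructor
  · by_contra hc
    exact h3 (h (Or.inl (mem_Icc.2 ⟨hτ.one_lt.le, by omega⟩)) hτ)
  · intro hd
    exact h3 (h (Or.inr (Nat.mem_primeFactors.2 ⟨hτ, hd, by omega⟩)) hτ)

theorem local_step {g : ℕ → ℤ} (hg : PM g) {m r b : ℤ} (hm : 0 < m) (hb : 0 < b)
    (hsq : SqOK m r) {ε K : ℤ}
    (hc : ∀ k : ℤ, K ≤ k → m ∣ k - r → Squarefree (f k).natAbs → g (f k).natAbs = ε)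
    {s n c D a k0 k1 k3 : ℕ} {η1 η2 : ℝ} (hD : 1 ≤ D) (hst : State m b s n D η2 a)
    (hP : PreState m b s n c D η1 η2 a)
    (h1 : k0 < ((VB m b s n c D η1 a).filter (fun B : ℕ => ∃ p ∈ PP m r b s n D a B,
        (p : ℤ) ∣ F m (a - D * B) b)).card)
    (h2 : D = 1 → ((VB m b s n c D η1 a).filter (fun B : ℕ => ∀ p ∈ PD m r b s n D a B,
        ¬ (p : ℤ) ∣ F m (a - D * B) b)).card < k1)
    (h3 : ((Icc 1 (2 ^ (n / s + c))).filter (fun B : ℕ => ∃ p ∈ PW n,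
        (p : ℤ) ∣ F m (a - D * B) b ∧ ∃ τ : ℕ, τ.Prime ∧ Tn s n < τ ∧
          τ ≤ bb (n / 2 - 3) ∧ ¬ τ ∣ D ∧ Obs m b D (QP m b D) a B p τ)).card < k3)
    (h4 : D = 1 → ((Icc 1 (2 ^ (n / s + c))).filter (fun B : ℕ => ∃ p ∈ PW n,
        (p : ℤ) ∣ F m (a - D * B) b ∧ ∃ τ : ℕ, τ.Prime ∧ Tn s n < τ ∧
          τ ≤ bb (n / 2 - 3) ∧ ¬ τ ∣ D ∧ Obs m b D (QD m b D) a B p τ)).card < k3)
    (h5 : ¬ ∃ B ∈ Icc (1 : ℕ) (2 ^ (n / s + c)), ∃ p ∈ PW n,
        (p : ℤ) ∣ F m (a - D * B) b ∧ ∃ τ : ℕ, τ.Prime ∧ bb (n / 2 - 3) < τ ∧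
          Obs m b D (QP m b D) a B p τ)
    (h6 : D = 1 → ¬ ∃ B ∈ Icc (1 : ℕ) (2 ^ (n / s + c)), ∃ p ∈ PW n,
        (p : ℤ) ∣ F m (a - D * B) b ∧ ∃ τ : ℕ, τ.Prime ∧ bb (n / 2 - 3) < τ ∧
          Obs m b D (QD m b D) a B p τ)
    (hk : k1 + 2 * k3 ≤ k0) (hMp : ∀ p ∈ PW n, ¬ p ∣ MM m b D (Tn s n))
    (ha : b * (3 * m * |K| + bb (3 * n / 4) + 1) + D * 2 ^ (n / s + c) ≤ a) :
    ∃ x : ℕ, Child g m b s n D η1 (2 ^ (n / s + c)) a x := by
  obtain ⟨p1, p2, p3, p4, -⟩ := hP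
  obtain ⟨s1, s2, s3, s4⟩ := hst
  -- choose `B`
  set G := (VB m b s n c D η1 a).filter (fun B : ℕ => ∃ p ∈ PP m r b s n D a B,
        (p : ℤ) ∣ F m (a - D * B) b) with hG
  set N1 : Finset ℕ := if D = 1 then (VB m b s n c D η1 a).filter
    (fun B : ℕ => ∀ p ∈ PD m r b s n D a B, ¬ (p : ℤ) ∣ F m (a - D * B) b) else ∅ with hN1
  set N2 := (Icc 1 (2 ^ (n / s + c))).filter (fun B : ℕ => ∃ p ∈ PW n,
        (p : ℤ) ∣ F m (a - D * B) b ∧ ∃ τ : ℕ, τ.Prime ∧ Tn s n < τ ∧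
          τ ≤ bb (n / 2 - 3) ∧ ¬ τ ∣ D ∧ Obs m b D (QP m b D) a B p τ) with hN2
  set N3 : Finset ℕ := if D = 1 then (Icc 1 (2 ^ (n / s + c))).filter (fun B : ℕ => ∃ p ∈ PW n,
        (p : ℤ) ∣ F m (a - D * B) b ∧ ∃ τ : ℕ, τ.Prime ∧ Tn s n < τ ∧
          τ ≤ bb (n / 2 - 3) ∧ ¬ τ ∣ D ∧ Obs m b D (QD m b D) a B p τ) else ∅ with hN3
  have c1 : N1.card ≤ k1 := by
    rw [hN1]; split_ifs with h
    · exact (h2 h).le
    · simp
  have c3 : N3.card ≤ k3 := by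
    rw [hN3]; split_ifs with h
    · exact (h4 h).le
    · simp
  have hex : ∃ B ∈ G, B ∉ N1 ∪ N2 ∪ N3 := by
    by_contra hcon
    push Not at hcon
    have : G.card ≤ (N1 ∪ N2 ∪ N3).card := card_le_card fun B hB => hcon B hB
    have h7 := card_union_le (N1 ∪ N2) N3
    have h8 := card_union_le N1 N2
    omega
  obtain ⟨B, hBG, hBN⟩ := hex
  rw [mem_union, mem_union] at hBN
  push Not at hBN
  obtain ⟨⟨n1, n2⟩, n3⟩ := hBN
  rw [hG, mem_filter] at hBG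
  obtain ⟨hBV, p, hp, hpF⟩ := hBG
  have hBV' := hBV
  unfold VB at hBV'
  rw [mem_filter, mem_Ico] at hBV'
  obtain ⟨⟨hB1, hB2⟩, v1, v2, v3, v4, v5, v6⟩ := hBV'
  have hBpos : 1 ≤ B := Nat.one_le_two_pow.trans hB1
  have hBI : B ∈ Icc (1 : ℕ) (2 ^ (n / s + c)) := mem_Icc.2 ⟨hBpos, hB2.le⟩
  obtain ⟨e1, e2, e3, e4, e5, e6⟩ := stepA_exact hb hD p1 p2 v1
  obtain ⟨q1, q2, q3⟩ := stepA_cop hb hD p1 p2 v1 v4
  set x := xf b D B a with hx
  set V := U1 m b D B a with hV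
  -- size of `x`
  have hbx : b * (3 * m * |K| + bb (3 * n / 4) + 1) ≤ b * x := by
    rw [e1]
    have : (D : ℤ) * B ≤ D * 2 ^ (n / s + c) := by
      have : (B : ℤ) ≤ 2 ^ (n / s + c) := by exact_mod_cast hB2.le
      exact mul_le_mul_of_nonneg_left this (by positivity)
    linarith
  have hxl : 3 * m * |K| + bb (3 * n / 4) + 1 ≤ x := le_of_mul_le_mul_left hbx hb
  have hK1 : 3 * m * K ≤ 3 * m * |K| := mul_le_mul_of_nonneg_left (le_abs_self K) (by positivity)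
  have hK2 : 0 ≤ 3 * m * |K| := by positivity
  have hx0 : 0 < x := by
    have : (0 : ℤ) ≤ bb (3 * n / 4) := by positivity
    linarith
  have hpW : p ∈ PW n := by unfold PP at hp; exact (mem_filter.1 hp).1
  -- no obstacles for the pair
  have hO : ∀ τ : ℕ, τ.Prime → τ ∉ Sm m (Tn s n) D → ¬ (τ : ℤ) ∣ 3 * m →
      ¬ Obs m b D (QP m b D) a B p τ := by
    intro τ t1 t2 t3 t4
    obtain ⟨t5, t6⟩ := stepE_notin hD t1 t2 t3
    by_cases t7 : τ ≤ bb (n / 2 - 3)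
    · exact n2 (mem_filter.2 ⟨hBI, p, hpW, hpF, τ, t1, t5, t7, t6, t4⟩)
    · exact h5 ⟨B, hBI, p, hpW, hpF, τ, t1, by omega, t4⟩
  -- the child is squarefree
  have hVsq : Squarefree V.natAbs := by
    rw [Nat.squarefree_iff_prime_squarefree]
    rintro τ t1 t2
    have t2' : (τ : ℤ) ^ 2 ∣ V := by
      rw [← Int.natCast_dvd_natCast] at t2
      have : ((V.natAbs : ℕ) : ℤ) ∣ V := Int.natAbs_dvd.2 dvd_rfl
      refine Dvd.dvd.trans ?_ this
      rw [pow_two]; exact_mod_cast t2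
    have t3 : ¬ (τ : ℤ) ∣ 3 * m := by
      intro h
      have h7 : IsCoprime V (3 * m) := IsCoprime.of_mul_right_left q2
      have h8 : (τ : ℤ) ∣ V := (dvd_pow_self _ (by norm_num)).trans t2'
      have h9 := (h7.isUnit_of_dvd' h8 h)
      exact (Nat.prime_iff_prime_int.1 t1).not_unit h9
    by_cases t4 : τ ∈ Sm m (Tn s n) D
    · exact v2 τ t4 t2'
    · refine hO τ t1 t4 t3 (Or.inl ?_)
      rw [← e6]
      exact t2'.mul_left _
  have hpp : p.Prime := by unfold PW at hpW; exact (mem_filter.1 hpW).2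
  have hp_dvd : ∀ q : ℕ, q ∈ PW n → (q : ℤ) ∣ F m (a - D * B) b → (q : ℤ) ∣ V := by
    intro q hqW hqF
    have hq : q.Prime := by unfold PW at hqW; exact (mem_filter.1 hqW).2
    rw [← e6] at hqF
    have hq' := Nat.prime_iff_prime_int.1 hq
    have hM := hMp q hqW
    rcases hq'.dvd_or_dvd hqF with h | h
    · exfalso
      apply hM
      unfold MM
      rcases hq'.dvd_or_dvd h with h | h
      · have : q ∣ (3 * m ^ 2 * b ^ 2).natAbs := by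
          rw [← Int.natCast_dvd_natCast, Int.dvd_natAbs]
          exact h.mul_left _
        exact (this.mul_right _).mul_right _
      · have : q ∣ D := by exact_mod_cast h
        exact ((this.trans (dvd_pow_self D (by norm_num))).mul_left _).mul_right _
    · exact h
  have hPPp : GoodP m r (Af m b D B a) B (U1 m b D B a) (Uf m b D a) (Sm m (Tn s n) D) p := by
    unfold PP at hp; exact (mem_filter.1 hp).2
  have hval : H g m a b = H g m x 1 :=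
    pair_step hg hm hb hsq hc hD hBpos e1 p1 e2 p2 hx0 (by
      have : (0 : ℤ) ≤ bb (3 * n / 4) := by positivity
      linarith) s2 hVsq v4 hpp (hp_dvd p hpW hpF) hPPp hO
  have hD0 : (D : ℤ) ≠ 0 := by exact_mod_cast (by omega : D ≠ 0)
  have hxV : F m x 1 / D = V := by
    rw [← e4]; exact Int.mul_ediv_cancel_left _ hD0
  have hlast : D = 1 → H g m x 1 = 1 := by
    intro hD1
    subst hD1
    have h7 : ∃ p' ∈ PD m r b s n 1 a B, (p' : ℤ) ∣ F m (a - (1 : ℕ) * B) b := by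
      rw [hN1, if_pos rfl, mem_filter] at n1
      push Not at n1
      obtain ⟨p', h8, h9⟩ := n1 hBV
      exact ⟨p', h8, h9⟩
    obtain ⟨p', h8, h9⟩ := h7
    have hp'W : p' ∈ PW n := by unfold PD at h8; exact (mem_filter.1 h8).1
    have hp'p : p'.Prime := by unfold PW at hp'W; exact (mem_filter.1 hp'W).2
    have hp'le : (p' : ℤ) ≤ bb (3 * n / 4) := by
      unfold PW at hp'W
      exact_mod_cast (mem_Ioc.1 (mem_filter.1 hp'W).1).2
    have hFV : F m x 1 = V := by rw [← e4]; push_cast; ring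
    refine dir_step hg hm hb hsq hc hBpos (by rw [e1]; push_cast; ring) e2 (by linarith) hx0 hp'p
      (by rw [hFV]; exact hp_dvd p' hp'W h9) (by rw [hFV]; exact hVsq)
      (S := Sm m (Tn s n) 1) (by unfold PD at h8; exact (mem_filter.1 h8).2) ?_
    intro τ t1 t2 t3 t4
    obtain ⟨t5, t6⟩ := stepE_notin le_rfl t1 t2 t3
    by_cases t7 : τ ≤ bb (n / 2 - 3)
    · apply n3
      rw [hN3, if_pos rfl]
      exact mem_filter.2 ⟨hBI, p', hp'W, h9, τ, t1, t5, t7, t6, t4⟩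
    · exact h6 rfl ⟨B, hBI, p', hp'W, h9, τ, t1, by omega, t4⟩
  have hxc : ((x.toNat : ℕ) : ℤ) = x := Int.toNat_of_nonneg hx0.le
  refine ⟨x.toNat, ?_, ⟨B, hBpos, hB2.le, ?_⟩, ?_, ?_, ?_, ?_, ?_, ?_, ?_, ?_⟩
  · omega
  · rw [hxc]; exact e1
  · rw [hxc]; exact e2
  · rw [hxc, ← e4]; exact dvd_mul_right _ _
  · rw [hxc, hxV]; exact hVsq
  · rw [hxc, hxV]; exact v3
  · rw [hxc, hxV]; exact v6
  · rw [hxc]; exact hval
  · rw [hxc, hxV]; exact v5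
  · rw [hxc]; exact hlast

end Pool.Agent.H48.SF
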