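import Pool.Agent.H48.SF.StepD

/-!
Growth lemmas and the masses for the step.
-/

set_option autoImplicit false

namespace Pool.Agent.H48.SF

open Finset Classical
open Pool.Agent.H95.Gol (bb)
open Pool.Agent.H41.Per (PM)
open Pool.Agent.H48.AP (F H Vx)

/-- exponential growth along `n / s` -/
lemma ev1 (s : ℕ) (hs : 1 ≤ s) (K : ℕ) : ∃ n0 : ℕ, ∀ n ≥ n0, K * (n + 1) ≤ 2 ^ (n / s) := by
  have h1 : ∀ A t : ℕ, 4 * A ≤ t → A * (t + 1) ≤ 2 ^ t := by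
    intro A t ht
    induction t, ht using Nat.le_induction with
    | base =>
      have h2 : 2 * A < 2 ^ (2 * A) := Nat.lt_two_pow_self
      calc A * (4 * A + 1) ≤ (2 * A + 1) * (2 * A + 1) := by nlinarith
        _ ≤ 2 ^ (2 * A) * 2 ^ (2 * A) := Nat.mul_le_mul h2 h2
        _ = 2 ^ (4 * A) := by rw [← pow_add]; congr 1; omega
    | succ n hn ih =>
      have h3 : A ≤ 2 ^ n := by nlinarith
      calc A * (n + 1 + 1) = A * (n + 1) + A := by ring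
        _ ≤ 2 ^ n + 2 ^ n := by omega
        _ = 2 ^ (n + 1) := by ring
  refine ⟨4 * (K * s) * s, fun n hn => ?_⟩
  have h2 : 4 * (K * s) ≤ n / s := (Nat.le_div_iff_mul_le (by omega)).2 hn
  have h3 := h1 _ _ h2
  have h4 : n < s * (n / s + 1) := Nat.lt_mul_div_succ n (by omega)
  calc K * (n + 1) ≤ K * (s * (n / s + 1)) := Nat.mul_le_mul_left _ h4
    _ = K * s * (n / s + 1) := by ring
    _ ≤ 2 ^ (n / s) := h3

lemma ev_B8 (m : ℤ) (s c : ℕ) (hs : 16 ≤ s) : ∃ n0 : ℕ, ∀ n ≥ n0,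
    3 * m ^ 2 * 2 ^ (n / s + c) ≤ 2 ^ (n / 8) := by
  obtain ⟨n0, h0⟩ := ev1 16 (by norm_num) ((3 * m ^ 2).natAbs * 2 ^ c)
  refine ⟨n0, fun n hn => ?_⟩
  have h1 := h0 n hn
  have h2 : n / s ≤ n / 16 := Nat.div_le_div_left hs (by norm_num)
  have h3 : n / 16 + n / 16 ≤ n / 8 := by omega
  have h4 : (3 * m ^ 2).natAbs * 2 ^ c ≤ 2 ^ (n / 16) :=
    (Nat.le_mul_of_pos_right _ (Nat.succ_pos n)).trans h1
  have h5 : (3 * m ^ 2).natAbs * 2 ^ (n / s + c) ≤ 2 ^ (n / 8) := by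
    calc (3 * m ^ 2).natAbs * 2 ^ (n / s + c) = ((3 * m ^ 2).natAbs * 2 ^ c) * 2 ^ (n / s) := by
          rw [pow_add]; ring
      _ ≤ 2 ^ (n / 16) * 2 ^ (n / 16) :=
          Nat.mul_le_mul h4 (Nat.pow_le_pow_right (by norm_num) h2)
      _ = 2 ^ (n / 16 + n / 16) := by rw [pow_add]
      _ ≤ 2 ^ (n / 8) := Nat.pow_le_pow_right (by norm_num) h3
  have h6 : |3 * m ^ 2| = 3 * m ^ 2 := abs_of_nonneg (by positivity)
  calc 3 * m ^ 2 * 2 ^ (n / s + c) = (((3 * m ^ 2).natAbs * 2 ^ (n / s + c) : ℕ) : ℤ) := by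
        push_cast
        rw [h6]
    _ ≤ ((2 ^ (n / 8) : ℕ) : ℤ) := by exact_mod_cast h5
    _ = 2 ^ (n / 8) := by push_cast; rfl

lemma Tn_le (s n C0 : ℕ) (hs : 16 ≤ s) : Tn s n ≤ 2 ^ ((C0 + 1) * n) := by
  unfold Tn
  refine Nat.pow_le_pow_right (by norm_num) ?_
  have h2 : n / s ≤ n / 16 := Nat.div_le_div_left hs (by norm_num)
  have : n ≤ (C0 + 1) * n := by nlinarith
  omega

lemma ev_T0 (s : ℕ) (hs : 1 ≤ s) : ∃ n0 : ℕ, ∀ n ≥ n0, T0 s n ≤ Tn s n := by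
  obtain ⟨n0, h0⟩ := ev1 s hs 1
  refine ⟨n0, fun n hn => ?_⟩
  have h1 := h0 n hn
  unfold T0 Tn
  calc n * 2 ^ (n / s) ≤ 2 ^ (n / s) * 2 ^ (n / s) := Nat.mul_le_mul_right _ (by omega)
    _ = 2 ^ (n / s + n / s) := by rw [pow_add]
    _ ≤ 2 ^ (4 * (n / s)) := Nat.pow_le_pow_right (by norm_num) (by omega)

lemma ev_c (s c : ℕ) (hs : 1 ≤ s) : ∃ n0 : ℕ, ∀ n ≥ n0, 2 ^ (n / s + c) ≤ Tn s n := by
  refine ⟨c * s, fun n hn => ?_⟩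
  have h1 : c ≤ n / s := (Nat.le_div_iff_mul_le (by omega)).2 hn
  unfold Tn
  exact Nat.pow_le_pow_right (by norm_num) (by omega)

lemma ev_frac (s C0 : ℕ) (hs : 1 ≤ s) (δ : ℝ) (hδ : 0 < δ) : ∃ n0 : ℕ, ∀ n ≥ n0,
    ((C0 * n : ℕ) : ℝ) / (Tn s n : ℕ) ≤ δ := by
  obtain ⟨n0, h0⟩ := ev1 s hs (⌈C0 / δ⌉₊ + 1)
  refine ⟨n0, fun n hn => ?_⟩
  have h1 := h0 n hn
  have hT : 2 ^ (n / s) ≤ Tn s n := by
    unfold Tn; exact Nat.pow_le_pow_right (by norm_num) (by omega)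
  have h2 : ((⌈C0 / δ⌉₊ + 1 : ℕ) : ℝ) * ((n + 1 : ℕ) : ℝ) ≤ (Tn s n : ℕ) := by
    exact_mod_cast h1.trans hT
  have hT0 : (0 : ℝ) < (Tn s n : ℕ) := by
    have : 0 < Tn s n := by unfold Tn; positivity
    exact_mod_cast this
  rw [div_le_iff₀ hT0]
  have h3 : (C0 : ℝ) / δ ≤ ((⌈C0 / δ⌉₊ + 1 : ℕ) : ℝ) := by
    push_cast
    linarith [Nat.le_ceil ((C0 : ℝ) / δ)]
  have h4 : (C0 : ℝ) ≤ δ * ((⌈C0 / δ⌉₊ + 1 : ℕ) : ℝ) := by
    rw [div_le_iff₀ hδ] at h3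
    linarith
  calc ((C0 * n : ℕ) : ℝ) = C0 * n := by push_cast; ring
    _ ≤ (δ * ((⌈C0 / δ⌉₊ + 1 : ℕ) : ℝ)) * ((n + 1 : ℕ) : ℝ) := by
        refine mul_le_mul h4 (by push_cast; linarith) (by positivity) (by positivity)
    _ = δ * (((⌈C0 / δ⌉₊ + 1 : ℕ) : ℝ) * ((n + 1 : ℕ) : ℝ)) := by ring
    _ ≤ δ * (Tn s n : ℕ) := mul_le_mul_of_nonneg_left h2 hδ.le

lemma ev_MM (m b : ℤ) (s C0 : ℕ) (hs : 16 ≤ s) : ∃ n0 : ℕ, ∀ n ≥ n0, ∀ j : ℕ, 2 ^ n ≤ j →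
    ∀ D : ℕ, D ≤ 2 ^ (C0 * n) → MM m b D (Tn s n) ≤ 2 ^ (j / 4) := by
  set A := (3 * m ^ 2 * b ^ 2).natAbs with hA
  obtain ⟨n0, h0⟩ := ev1 4 (by norm_num) (A + 3 * C0 + 1)
  refine ⟨max n0 16, fun n hn j hj D hD => ?_⟩
  have hn16 : 16 ≤ n := le_trans (le_max_right _ _) hn
  have h1 := h0 n (le_trans (le_max_left _ _) hn)
  have hu : n / s ≤ n / 16 := Nat.div_le_div_left hs (by norm_num)
  have hTT : (Tn s n).factorial ≤ 2 ^ (4 * (n / s) * 2 ^ (4 * (n / s))) := by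
    refine (Nat.factorial_le_pow _).trans ?_
    unfold Tn
    rw [← pow_mul]
  have hA2 : A ≤ 2 ^ A := Nat.lt_two_pow_self.le
  have e1 : MM m b D (Tn s n) ≤ 2 ^ (A + 3 * (C0 * n) + 3 * (4 * (n / s) * 2 ^ (4 * (n / s)))) := by
    unfold MM
    calc (3 * m ^ 2 * b ^ 2).natAbs * D ^ 3 * (Tn s n).factorial ^ 3 ≤
        2 ^ A * (2 ^ (C0 * n)) ^ 3 * (2 ^ (4 * (n / s) * 2 ^ (4 * (n / s)))) ^ 3 :=
          Nat.mul_le_mul (Nat.mul_le_mul hA2 (Nat.pow_le_pow_left hD 3))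
            (Nat.pow_le_pow_left hTT 3)
      _ = _ := by rw [← pow_mul, ← pow_mul, ← pow_add, ← pow_add]; congr 1; ring
  refine e1.trans (Nat.pow_le_pow_right (by norm_num) ?_)
  have h2 : 2 ^ (4 * (n / s)) ≤ 2 ^ (n / 4) := Nat.pow_le_pow_right (by norm_num) (by omega)
  have h3 : 3 * (4 * (n / s) * 2 ^ (4 * (n / s))) ≤ n * 2 ^ (n / 4) := by
    calc 3 * (4 * (n / s) * 2 ^ (4 * (n / s))) = (12 * (n / s)) * 2 ^ (4 * (n / s)) := by ring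
      _ ≤ n * 2 ^ (n / 4) := Nat.mul_le_mul (by omega) h2
  have h4 : n ≤ 2 ^ (n / 4) := le_trans (by nlinarith) h1
  have h5 : A + 3 * (C0 * n) ≤ 2 ^ (n / 4) := le_trans (by nlinarith) h1
  have h6 : 2 ^ (n / 4) * 2 ^ (n / 4) * 8 ≤ 2 ^ n := by
    rw [← pow_add, show (8 : ℕ) = 2 ^ 3 by norm_num, ← pow_add]
    exact Nat.pow_le_pow_right (by norm_num) (by omega)
  have h7 : 1 ≤ 2 ^ (n / 4) := Nat.one_le_two_pow
  have h8 : n * 2 ^ (n / 4) ≤ 2 ^ (n / 4) * 2 ^ (n / 4) := Nat.mul_le_mul_right _ h4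
  have h9 : 2 ^ (n / 4) ≤ 2 ^ (n / 4) * 2 ^ (n / 4) := by nlinarith
  rw [Nat.le_div_iff_mul_le (by norm_num)]
  nlinarith

lemma ev_Mp (m b : ℤ) (hm : 0 < m) (hb : 0 < b) (s C0 : ℕ) (hs : 16 ≤ s) : ∃ n0 : ℕ, ∀ n ≥ n0,
    ∀ D : ℕ, 1 ≤ D → D ≤ 2 ^ (C0 * n) → ∀ p ∈ PW n, ¬ p ∣ MM m b D (Tn s n) := by
  set A := (3 * m ^ 2 * b ^ 2).natAbs with hA
  obtain ⟨n0, h0⟩ := ev1 2 (by norm_num) (A + C0 + 2)
  refine ⟨n0, fun n hn D hD1 hD p hp hd => ?_⟩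
  have h1 := h0 n hn
  unfold PW at hp
  rw [mem_filter, mem_Ioc] at hp
  obtain ⟨⟨hp1, -⟩, hpp⟩ := hp
  have hbb : bb (n / 2) = 2 ^ (2 ^ (n / 2)) := rfl
  rw [hbb] at hp1
  have hA0 : 0 < A := Int.natAbs_pos.2 (by positivity)
  have hexp : ∀ e : ℕ, e ≤ 2 ^ (n / 2) → 2 ^ e < p := fun e he =>
    lt_of_le_of_lt (Nat.pow_le_pow_right (by norm_num) he) hp1
  unfold MM at hd
  rcases (hpp.dvd_mul).1 hd with h | h
  · rcases (hpp.dvd_mul).1 h with h | h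
    · have h2 := Nat.le_of_dvd hA0 h
      have h3 := hexp A (le_trans (by nlinarith) h1)
      have h4 : A < 2 ^ A := Nat.lt_two_pow_self
      omega
    · have h2 := Nat.le_of_dvd hD1 (hpp.dvd_of_dvd_pow h)
      have h3 := hexp (C0 * n) (le_trans (by nlinarith) h1)
      omega
  · have h2 := (hpp.dvd_factorial).1 (hpp.dvd_of_dvd_pow h)
    have h3 := hexp (4 * (n / s)) ?_
    · unfold Tn at h2; omega
    · have h4 : n / s ≤ n / 16 := Nat.div_le_div_left hs (by norm_num)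
      refine le_trans ?_ h1
      have : n ≤ (A + C0 + 2) * (n + 1) := by nlinarith
      omega

lemma ev_small (m b K : ℤ) (hb : 0 < b) (s C0 c κ : ℕ) (hs : 16 ≤ s) : ∃ n0 : ℕ, ∀ n ≥ n0,
    ∀ j : ℕ, 2 ^ n ≤ j → ∀ D : ℕ, D ≤ 2 ^ (C0 * n) →
    (b * (3 * m * |K| + bb (3 * n / 4) + 1) + D * 2 ^ (n / s + c)).toNat * 2 ^ (κ * n) ≤ 2 ^ j := by
  obtain ⟨A, hbA, hKA, hA3⟩ : ∃ A : ℕ, b ≤ A ∧ 3 * m * |K| + 1 ≤ A ∧ 3 ≤ A := by
    refine ⟨b.toNat + (3 * m * |K|).toNat + 3, ?_, ?_, by omega⟩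
    · have h1 := Int.self_le_toNat b
      push_cast
      have h2 : (0 : ℤ) ≤ ((3 * m * |K|).toNat : ℤ) := Int.natCast_nonneg _
      linarith
    · have h1 := Int.self_le_toNat (3 * m * |K|)
      push_cast
      have h2 : (0 : ℤ) ≤ (b.toNat : ℤ) := Int.natCast_nonneg _
      linarith
  obtain ⟨n0, h0⟩ := ev1 8 (by norm_num) (2 * A + C0 + κ + c + 3)
  refine ⟨max n0 16, fun n hn j hj D hD => ?_⟩
  have hn16 : 16 ≤ n := le_trans (le_max_right _ _) hn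
  have h1 := h0 n (le_trans (le_max_left _ _) hn)
  have hu : n / s ≤ n / 16 := Nat.div_le_div_left hs (by norm_num)
  have hA2 : A < 2 ^ A := Nat.lt_two_pow_self
  set P := 3 * n / 4 with hP
  have hbb : (bb P : ℤ) = 2 ^ (2 ^ P) := by unfold bb; push_cast; rfl
  have e1 : b * (3 * m * |K| + bb P + 1) + D * 2 ^ (n / s + c) ≤
      2 ^ (2 * A + 2 ^ P + C0 * n + n + c + 1) := by
    have hA2' : (A : ℤ) ≤ 2 ^ A := by exact_mod_cast hA2.le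
    have hb2 : b ≤ 2 ^ A := hbA.trans hA2'
    have h2 : (3 * m * |K| + bb P + 1 : ℤ) ≤ 2 ^ A * 2 ^ (2 ^ P) := by
      rw [hbb]
      have h4 : (1 : ℤ) ≤ 2 ^ (2 ^ P) := one_le_pow₀ (by norm_num)
      have h6 : (3 : ℤ) ≤ A := by exact_mod_cast hA3
      have h8 : (A : ℤ) + 1 ≤ 2 ^ A := by exact_mod_cast hA2
      nlinarith
    have h5 : b * (3 * m * |K| + bb P + 1) ≤ 2 ^ (2 * A + 2 ^ P) := by
      calc b * (3 * m * |K| + bb P + 1) ≤ b * (2 ^ A * 2 ^ (2 ^ P)) :=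
            mul_le_mul_of_nonneg_left h2 hb.le
        _ ≤ 2 ^ A * (2 ^ A * 2 ^ (2 ^ P)) := mul_le_mul_of_nonneg_right hb2 (by positivity)
        _ = 2 ^ (2 * A + 2 ^ P) := by rw [← pow_add, ← pow_add]; congr 1; ring
    have h6 : (D : ℤ) * 2 ^ (n / s + c) ≤ 2 ^ (C0 * n + n + c) := by
      calc (D : ℤ) * 2 ^ (n / s + c) ≤ 2 ^ (C0 * n) * 2 ^ (n / s + c) := by
            refine mul_le_mul_of_nonneg_right ?_ (by positivity)
            exact_mod_cast hD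
        _ = 2 ^ (C0 * n + (n / s + c)) := by rw [← pow_add]
        _ ≤ 2 ^ (C0 * n + n + c) := pow_le_pow_right₀ (by norm_num) (by omega)
    calc b * (3 * m * |K| + bb P + 1) + D * 2 ^ (n / s + c) ≤
        2 ^ (2 * A + 2 ^ P) + 2 ^ (C0 * n + n + c) := add_le_add h5 h6
      _ ≤ 2 ^ (2 * A + 2 ^ P + C0 * n + n + c) + 2 ^ (2 * A + 2 ^ P + C0 * n + n + c) :=
          add_le_add (pow_le_pow_right₀ (by norm_num) (by generalize 2 ^ P = Q; omega))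
            (pow_le_pow_right₀ (by norm_num) (by generalize 2 ^ P = Q; omega))
      _ = 2 ^ (2 * A + 2 ^ P + C0 * n + n + c + 1) := by rw [pow_succ]; ring
  have e2 : (b * (3 * m * |K| + bb P + 1) + D * 2 ^ (n / s + c)).toNat ≤
      2 ^ (2 * A + 2 ^ P + C0 * n + n + c + 1) := by
    rw [Int.toNat_le]
    push_cast
    exact e1
  have h8 : 2 ^ P + 2 ^ (n / 8) ≤ 2 ^ n := by
    have h9 : 2 ^ P ≤ 2 ^ (n - 1) := Nat.pow_le_pow_right (by norm_num) (by omega)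
    have h10 : 2 ^ (n / 8) ≤ 2 ^ (n - 1) := Nat.pow_le_pow_right (by norm_num) (by omega)
    have h11 : 2 ^ n = 2 ^ (n - 1) + 2 ^ (n - 1) := by
      rw [← two_mul, ← pow_succ']; congr 1; omega
    omega
  calc (b * (3 * m * |K| + bb P + 1) + D * 2 ^ (n / s + c)).toNat * 2 ^ (κ * n) ≤
      2 ^ (2 * A + 2 ^ P + C0 * n + n + c + 1) * 2 ^ (κ * n) := Nat.mul_le_mul_right _ e2
    _ = 2 ^ (2 * A + 2 ^ P + C0 * n + n + c + 1 + κ * n) := by rw [← pow_add]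
    _ ≤ 2 ^ j := Nat.pow_le_pow_right (by norm_num) (by nlinarith)

end Pool.Agent.H48.SF
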